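import Pool.Agent.Lib.MP_131fce_co.D.SwapT

/-!
# Induced k-cycles in triangle-free graphs (MP_131fce_co): potentials on the swap edges

For a vertex `y` and a position `l` the states `Ty x y` with and without `l` are exchanged by the
swap at `l`.  A potential on this edge, a function of the lower state (and of anything that the
swap at `l` does not change), has total flow zero.
-/

set_option autoImplicit false

namespace Pool.Agent.ICyc.D

open Finset Pool.Agent.ICyc
open scoped Classical

noncomputable section

variable {V : Type} [Fintype V] {G : SimpleGraph V} {k : ℕ} [NeZero k]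

/-- flow of a general potential `phi x l y`: received per unit of `DD` in the upper state, paid per
unit of `uu` in the lower state -/
def gflow (G : SimpleGraph V) (k : ℕ) [NeZero k] (phi : (ZMod k → V) → ZMod k → V → ℝ)
    (x : ZMod k → V) (y : V) : ℝ :=
  ∑ l ∈ Ty G k x y, phi x l y * DD G k x l y - ∑ l ∈ (Ty G k x y)ᶜ, phi x l y * uu G k x l y

/-- the total flow of an invariant potential is zero -/
theorem gflow_sum (hk : 5 ≤ k) (tf : ∀ a b c : V, G.Adj a b → G.Adj b c → ¬ G.Adj a c)
    (phi : (ZMod k → V) → ZMod k → V → ℝ)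
    (h : ∀ x ∈ Cyc G k, ∀ l : ZMod k, ∀ w ∈ T G k l x, ∀ y,
      phi (Function.update x l w) l y = phi x l y) :
    ∑ x ∈ Cyc G k, ∑ y : V, kap V k * gflow G k phi x y = 0 := by
  have hi : ∀ (x : ZMod k → V) (y : V) (i : ZMod k), i ∈ Ty G k x y ↔ G.Adj (x i) y :=
    fun x y i => by simp [Ty]
  have e1 : ∀ x : ZMod k → V, ∑ y : V, kap V k * gflow G k phi x y =
      ∑ l : ZMod k, (∑ y ∈ univ.filter (fun y => G.Adj (x l) y), kap V k *
        (phi x l y * DD G k x l y) -
        ∑ y ∈ univ.filter (fun y => ¬ G.Adj (x l) y), kap V k * (phi x l y * uu G k x l y)) := by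
    intro x
    have e2 : ∀ y : V, kap V k * gflow G k phi x y = ∑ l : ZMod k,
        ((if G.Adj (x l) y then kap V k * (phi x l y * DD G k x l y) else 0) -
          (if ¬ G.Adj (x l) y then kap V k * (phi x l y * uu G k x l y) else 0)) := by
      intro y
      have a1 : ∑ l ∈ Ty G k x y, phi x l y * DD G k x l y =
          ∑ l : ZMod k, (if G.Adj (x l) y then phi x l y * DD G k x l y else 0) := by
        rw [← sum_filter]
        refine sum_congr ?_ fun _ _ => rfl
        ext l
        rw [hi, mem_filter]
        simp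
      have a2 : ∑ l ∈ (Ty G k x y)ᶜ, phi x l y * uu G k x l y =
          ∑ l : ZMod k, (if ¬ G.Adj (x l) y then phi x l y * uu G k x l y else 0) := by
        rw [← sum_filter]
        refine sum_congr ?_ fun _ _ => rfl
        ext l
        rw [mem_compl, hi, mem_filter]
        simp
      unfold gflow
      rw [a1, a2, mul_sub, mul_sum, mul_sum, ← sum_sub_distrib]
      refine sum_congr rfl fun l _ => ?_
      by_cases hl : G.Adj (x l) y <;> simp [hl]
    rw [sum_congr rfl fun y _ => e2 y, sum_comm]
    refine sum_congr rfl fun l _ => ?_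
    rw [sum_sub_distrib, sum_filter, sum_filter]
  rw [sum_congr rfl fun x _ => e1 x, sum_comm]
  refine sum_eq_zero fun l _ => ?_
  rw [sum_sub_distrib, sub_eq_zero]
  exact flow_eq hk tf l (fun x y => phi x l y) fun x hx w hw y => h x hx l w hw y

lemma Ty_update_erase {x : ZMod k → V} {l : ZMod k} {w y : V} :
    (Ty G k (Function.update x l w) y).erase l = (Ty G k x y).erase l := by
  ext i
  rw [mem_erase, mem_erase]
  constructor
  · rintro ⟨h1, h2⟩
    rw [mem_Ty_update, if_neg h1] at h2
    exact ⟨h1, h2⟩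
  · rintro ⟨h1, h2⟩
    refine ⟨h1, ?_⟩
    rw [mem_Ty_update, if_neg h1]
    exact h2

/-- flow of a potential that is a function of the vertex, of the lower state and the position -/
def flow (G : SimpleGraph V) (k : ℕ) [NeZero k] (c : V → Finset (ZMod k) → ZMod k → ℝ)
    (x : ZMod k → V) (y : V) : ℝ :=
  ∑ l ∈ Ty G k x y, c y ((Ty G k x y).erase l) l * DD G k x l y -
    ∑ l ∈ (Ty G k x y)ᶜ, c y (Ty G k x y) l * uu G k x l y

lemma flow_eq_gflow (c : V → Finset (ZMod k) → ZMod k → ℝ) (x : ZMod k → V) (y : V) :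
    flow G k c x y = gflow G k (fun x l y => c y ((Ty G k x y).erase l) l) x y := by
  unfold flow gflow
  congr 1
  refine sum_congr rfl fun l hl => ?_
  rw [mem_compl] at hl
  simp only [erase_eq_of_notMem hl]

/-- **the potentials have total flow zero** -/
theorem flow_sum (hk : 5 ≤ k) (tf : ∀ a b c : V, G.Adj a b → G.Adj b c → ¬ G.Adj a c)
    (c : V → Finset (ZMod k) → ZMod k → ℝ) :
    ∑ x ∈ Cyc G k, ∑ y : V, kap V k * flow G k c x y = 0 := by
  rw [← gflow_sum (G := G) hk tf (fun x l y => c y ((Ty G k x y).erase l) l)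
    (fun x _ l w _ y => by rw [Ty_update_erase])]
  exact sum_congr rfl fun x _ => sum_congr rfl fun y _ => by rw [flow_eq_gflow]

/-- potentials that depend also on `uu` at the position and at distance two -/
theorem gflow_sum_u (hk : 5 ≤ k) (tf : ∀ a b c : V, G.Adj a b → G.Adj b c → ¬ G.Adj a c)
    (c : V → Finset (ZMod k) → ZMod k → ℝ → ℝ → ℝ → ℝ → ℝ → ℝ → ℝ) :
    ∑ x ∈ Cyc G k, ∑ y : V, kap V k * gflow G k (fun x l y => c y ((Ty G k x y).erase l) l
      (uu G k x l y) (DD G k x l y) (uu G k x (l - 2) y) (DD G k x (l - 2) y)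
      (uu G k x (l + 2) y) (DD G k x (l + 2) y)) x y = 0 := by
  refine gflow_sum hk tf _ fun x hx l w hw y => ?_
  simp only [Ty_update_erase, uu_update_self hk hx hw tf, DD_update_self hk hx hw tf,
    uu_update_sub_two hk hx hw tf, DD_update_sub_two hk hx hw tf,
    uu_update_add_two hk hx hw tf, DD_update_add_two hk hx hw tf]

end

end Pool.Agent.ICyc.D
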