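import Pool.Agent.Lib.MP_131fce_co.Rot

/-!
# Induced k-cycles in triangle-free graphs (MP_131fce_co): swap flows

`uu x j y` and `DD x j y` are the masses of the neighbours / non-neighbours of `y` in the twin
class `T j`.  Exchanging `x j` with a member of its class gives exact identities between the
states `y ~ x j` and `y !~ x j`.
-/

set_option autoImplicit false

namespace Pool.Agent.ICyc.D

open Finset Pool.Agent.ICyc
open scoped Classical

noncomputable section

variable {V : Type} [Fintype V] {G : SimpleGraph V} {k : ℕ} [NeZero k]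

/-- mass of the neighbours of `y` in the class `T j` -/
def uu (G : SimpleGraph V) (k : ℕ) [NeZero k] (x : ZMod k → V) (j : ZMod k) (y : V) : ℝ :=
  mu k ((T G k j x).filter (fun w => G.Adj w y))

/-- mass of the non-neighbours of `y` in the class `T j` -/
def DD (G : SimpleGraph V) (k : ℕ) [NeZero k] (x : ZMod k → V) (j : ZMod k) (y : V) : ℝ :=
  mu k ((T G k j x).filter (fun w => ¬ G.Adj w y))

omit [NeZero k] in
lemma mu_eq_sum (S : Finset V) : mu k S = ∑ _w ∈ S, kap V k := by
  unfold mu
  rw [sum_const, nsmul_eq_mul, mul_comm]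

omit [NeZero k] in
lemma kap_nonneg' : 0 ≤ kap V k := by
  unfold kap; positivity

lemma uu_nonneg (x : ZMod k → V) (j : ZMod k) (y : V) : 0 ≤ uu G k x j y := by
  unfold uu mu; exact mul_nonneg kap_nonneg' (Nat.cast_nonneg _)

lemma DD_nonneg (x : ZMod k → V) (j : ZMod k) (y : V) : 0 ≤ DD G k x j y := by
  unfold DD mu; exact mul_nonneg kap_nonneg' (Nat.cast_nonneg _)

lemma uu_add_DD (x : ZMod k → V) (j : ZMod k) (y : V) :
    uu G k x j y + DD G k x j y = mu k (T G k j x) := by
  unfold uu DD mu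
  rw [← mul_add]
  congr 1
  exact_mod_cast card_filter_add_card_filter_not (s := T G k j x) (fun w => G.Adj w y)

/-- the general swap of a sum over pairs `(w, y)` -/
theorem swap_pairs (hk : 5 ≤ k) (tf : ∀ a b c : V, G.Adj a b → G.Adj b c → ¬ G.Adj a c)
    (j : ZMod k) (a : (ZMod k → V) → V → V → ℝ) :
    ∑ x ∈ Cyc G k, ∑ w ∈ T G k j x,
        ∑ y ∈ univ.filter (fun y => G.Adj w y ∧ ¬ G.Adj (x j) y), a x w y =
      ∑ x ∈ Cyc G k, ∑ w ∈ T G k j x,
        ∑ y ∈ univ.filter (fun y => G.Adj (x j) y ∧ ¬ G.Adj w y),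
          a (Function.update x j w) (x j) y := by
  have h := sum_swap hk tf j (fun x v =>
    ∑ y ∈ univ.filter (fun y => G.Adj v y ∧ ¬ G.Adj (x j) y), a x v y)
  rw [← h]
  refine sum_congr rfl fun x _ => sum_congr rfl fun w _ => ?_
  simp only [Function.update_self]

/-- flows: the lower state pays `phiLow` per unit of `u`, the upper state receives `phiUp` per
unit of `D` -/
theorem flow_le (hk : 5 ≤ k) (tf : ∀ a b c : V, G.Adj a b → G.Adj b c → ¬ G.Adj a c)
    (j : ZMod k) (phiUp phiLow : (ZMod k → V) → V → ℝ)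
    (h : ∀ x ∈ Cyc G k, ∀ w ∈ T G k j x, ∀ y, G.Adj (x j) y → ¬ G.Adj w y →
      phiUp x y ≤ phiLow (Function.update x j w) y) :
    ∑ x ∈ Cyc G k, ∑ y ∈ univ.filter (fun y => G.Adj (x j) y), kap V k *
        (phiUp x y * DD G k x j y) ≤
      ∑ x ∈ Cyc G k, ∑ y ∈ univ.filter (fun y => ¬ G.Adj (x j) y), kap V k *
        (phiLow x y * uu G k x j y) := by
  have hL : ∀ x : ZMod k → V, ∑ y ∈ univ.filter (fun y => ¬ G.Adj (x j) y), kap V k *
        (phiLow x y * uu G k x j y) = ∑ w ∈ T G k j x,
        ∑ y ∈ univ.filter (fun y => G.Adj w y ∧ ¬ G.Adj (x j) y),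
          kap V k * kap V k * phiLow x y := by
    intro x
    simp_rw [uu, mu_eq_sum, mul_sum, sum_filter]
    rw [sum_comm]
    refine sum_congr rfl fun y _ => ?_
    by_cases h1 : G.Adj (x j) y
    · simp only [h1, not_true_eq_false, if_false, and_false, sum_const_zero]
    · simp only [h1, not_false_eq_true, if_true, and_true]
      exact sum_congr rfl fun w _ => by split_ifs <;> ring
  have hR : ∀ x : ZMod k → V, ∑ y ∈ univ.filter (fun y => G.Adj (x j) y), kap V k *
        (phiUp x y * DD G k x j y) = ∑ w ∈ T G k j x,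
        ∑ y ∈ univ.filter (fun y => G.Adj (x j) y ∧ ¬ G.Adj w y),
          kap V k * kap V k * phiUp x y := by
    intro x
    simp_rw [DD, mu_eq_sum, mul_sum, sum_filter]
    rw [sum_comm]
    refine sum_congr rfl fun y _ => ?_
    by_cases h1 : G.Adj (x j) y
    · simp only [h1, if_true, true_and]
      exact sum_congr rfl fun w _ => by split_ifs <;> ring
    · simp only [h1, if_false, false_and, sum_const_zero]
  rw [sum_congr rfl fun x _ => hL x, sum_congr rfl fun x _ => hR x,
    swap_pairs hk tf j (fun x _ y => kap V k * kap V k * phiLow x y)]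
  refine sum_le_sum fun x hx => sum_le_sum fun w hw => sum_le_sum fun y hy => ?_
  rw [mem_filter] at hy
  have hk2 : 0 ≤ kap V k * kap V k := mul_nonneg kap_nonneg' kap_nonneg'
  exact mul_le_mul_of_nonneg_left (h x hx w hw y hy.2.1 hy.2.2) hk2

/-- flows, exact form for a weight that does not change under the swap -/
theorem flow_eq (hk : 5 ≤ k) (tf : ∀ a b c : V, G.Adj a b → G.Adj b c → ¬ G.Adj a c)
    (j : ZMod k) (phi : (ZMod k → V) → V → ℝ)
    (h : ∀ x ∈ Cyc G k, ∀ w ∈ T G k j x, ∀ y, phi (Function.update x j w) y = phi x y) :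
    ∑ x ∈ Cyc G k, ∑ y ∈ univ.filter (fun y => G.Adj (x j) y), kap V k *
        (phi x y * DD G k x j y) =
      ∑ x ∈ Cyc G k, ∑ y ∈ univ.filter (fun y => ¬ G.Adj (x j) y), kap V k *
        (phi x y * uu G k x j y) := by
  refine le_antisymm (flow_le hk tf j phi phi fun x hx w hw y _ _ => (h x hx w hw y).ge) ?_
  have h2 := flow_le hk tf j (fun x y => -phi x y) (fun x y => -phi x y)
    fun x hx w hw y _ _ => by rw [h x hx w hw y]
  simp only [neg_mul, mul_neg, sum_neg_distrib] at h2
  linarith

/-- mass of `N(u)` minus `N(v)` -/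
def df (G : SimpleGraph V) (k : ℕ) (u v : V) : ℝ :=
  mu k (univ.filter (fun y => G.Adj u y ∧ ¬ G.Adj v y))

/-- a symmetric pair cost may be split between the two states with any share -/
theorem pair_split (hk : 5 ≤ k) (tf : ∀ a b c : V, G.Adj a b → G.Adj b c → ¬ G.Adj a c)
    (j : ZMod k) (C a : (ZMod k → V) → V → ℝ)
    (h0 : ∀ x ∈ Cyc G k, ∀ w ∈ T G k j x, 0 ≤ C x w + C (Function.update x j w) (x j))
    (ha : ∀ x ∈ Cyc G k, ∀ w ∈ T G k j x, 1 ≤ a x w + a (Function.update x j w) (x j)) :
    ∑ x ∈ Cyc G k, ∑ w ∈ T G k j x, C x w ≤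
      ∑ x ∈ Cyc G k, ∑ w ∈ T G k j x, a x w * (C x w + C (Function.update x j w) (x j)) := by
  have h1 := sum_swap hk tf j C
  have h2 := sum_swap hk tf j (fun x w => a x w * (C x w + C (Function.update x j w) (x j)))
  simp only [Function.update_self, Function.update_idem, Function.update_eq_self] at h2
  have h3 : ∑ x ∈ Cyc G k, ∑ w ∈ T G k j x, (C x w + C (Function.update x j w) (x j)) ≤
      ∑ x ∈ Cyc G k, ∑ w ∈ T G k j x, (a x w * (C x w + C (Function.update x j w) (x j)) +
        a (Function.update x j w) (x j) * (C (Function.update x j w) (x j) + C x w)) := by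
    refine sum_le_sum fun x hx => sum_le_sum fun w hw => ?_
    have e1 := h0 x hx w hw
    have e2 := ha x hx w hw
    nlinarith
  simp only [sum_add_distrib] at h3
  rw [h1] at h3
  rw [h2] at h3
  linarith

/-- twin cost at full price: every symmetric kernel below the mean of the two one-sided
differences, with a price that does not change under the swap -/
theorem twin_le (hk : 5 ≤ k) (tf : ∀ a b c : V, G.Adj a b → G.Adj b c → ¬ G.Adj a c)
    (j : ZMod k) (K : V → V → ℝ) (P : (ZMod k → V) → ℝ) (hP : ∀ x ∈ Cyc G k, 0 ≤ P x)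
    (hPs : ∀ x ∈ Cyc G k, ∀ w ∈ T G k j x, P (Function.update x j w) = P x)
    (hK : ∀ u v, K u v ≤ (df G k u v + df G k v u) / 2) :
    ∑ x ∈ Cyc G k, ∑ w ∈ T G k j x, kap V k * (P x * K w (x j)) ≤
      ∑ x ∈ Cyc G k, ∑ y ∈ univ.filter (fun y => ¬ G.Adj (x j) y), kap V k *
        (P x * uu G k x j y) := by
  have e1 : ∀ x : ZMod k → V, ∑ w ∈ T G k j x, kap V k * (P x * df G k w (x j)) =
      ∑ y ∈ univ.filter (fun y => ¬ G.Adj (x j) y), kap V k * (P x * uu G k x j y) := by
    intro x
    simp_rw [df, uu, mu_eq_sum, mul_sum, sum_filter]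
    rw [sum_comm]
    refine sum_congr rfl fun y _ => ?_
    by_cases h1 : G.Adj (x j) y
    · simp only [h1, not_true_eq_false, if_false, and_false, sum_const_zero]
    · simp only [h1, not_false_eq_true, if_true, and_true]
  have e2 : ∀ x : ZMod k → V, ∑ w ∈ T G k j x, kap V k * (P x * df G k (x j) w) =
      ∑ y ∈ univ.filter (fun y => G.Adj (x j) y), kap V k * (P x * DD G k x j y) := by
    intro x
    simp_rw [df, DD, mu_eq_sum, mul_sum, sum_filter]
    rw [sum_comm]
    refine sum_congr rfl fun y _ => ?_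
    by_cases h1 : G.Adj (x j) y
    · simp only [h1, if_true, true_and]
    · simp only [h1, if_false, false_and, sum_const_zero]
  have h3 := flow_eq (G := G) hk tf j (fun x _ => P x) (fun x hx w hw _ => hPs x hx w hw)
  have h4 : ∑ x ∈ Cyc G k, ∑ w ∈ T G k j x, kap V k * (P x * K w (x j)) ≤
      ∑ x ∈ Cyc G k, ∑ w ∈ T G k j x, (kap V k * (P x * df G k w (x j)) / 2 +
        kap V k * (P x * df G k (x j) w) / 2) := by
    refine sum_le_sum fun x hx => sum_le_sum fun w _ => ?_
    have := mul_le_mul_of_nonneg_left (hK w (x j))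
      (mul_nonneg (kap_nonneg' (V := V) (k := k)) (hP x hx))
    linarith
  refine h4.trans (le_of_eq ?_)
  simp only [sum_add_distrib, ← sum_div]
  rw [sum_congr rfl fun x _ => e1 x, sum_congr rfl fun x _ => e2 x, h3]
  ring

/-- adjacency to the positions of a swapped cycle -/
lemma mem_Ty_update {x : ZMod k → V} {j i : ZMod k} {w y : V} :
    i ∈ Ty G k (Function.update x j w) y ↔ (if i = j then G.Adj w y else i ∈ Ty G k x y) := by
  by_cases h : i = j
  · subst h; simp [Ty]
  · simp [Ty, h]

lemma mem_T_iff {x : ZMod k → V} {j : ZMod k} {w : V} :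
    w ∈ T G k j x ↔ ∀ i : ZMod k, (G.Adj (x i) w ↔ (i = j - 1 ∨ i = j + 1)) := by
  constructor
  · intro h i; exact rot_adj_of_mem_T h i
  · intro h
    simp only [T, Ty, mem_filter, mem_univ, true_and]
    ext i
    simp only [mem_filter, mem_univ, true_and, mem_insert, mem_singleton]
    exact h i

/-- the class `T r` after a swap at a position `l` that is not a neighbour of `r` -/
lemma T_update_filter {x : ZMod k → V} {l r : ZMod k} (h1 : l ≠ r - 1) (h2 : l ≠ r + 1) (v z : V) :
    (z ∈ T G k r (Function.update x l v) ∧ ¬ G.Adj (x l) z) ↔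
      (z ∈ T G k r x ∧ ¬ G.Adj v z) := by
  have hl : ¬ (l = r - 1 ∨ l = r + 1) := by
    rintro (h | h)
    · exact h1 h
    · exact h2 h
  rw [mem_T_iff, mem_T_iff]
  constructor
  · rintro ⟨h3, h4⟩
    refine ⟨fun i => ?_, ?_⟩
    · by_cases hi : i = l
      · subst hi
        exact ⟨fun h => absurd h h4, fun h => absurd h hl⟩
      · have := h3 i
        rwa [Function.update_of_ne hi] at this
    · have := h3 l
      rw [Function.update_self] at this
      exact fun h => hl (this.1 h)
  · rintro ⟨h3, h4⟩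
    refine ⟨fun i => ?_, ?_⟩
    · by_cases hi : i = l
      · subst hi
        rw [Function.update_self]
        exact ⟨fun h => absurd h h4, fun h => absurd h hl⟩
      · rw [Function.update_of_ne hi]; exact h3 i
    · exact fun h => hl ((h3 l).1 h)

/-- swapping at `l` and at `r` together, for non-adjacent candidates -/
theorem double_swap (hk : 5 ≤ k) (tf : ∀ a b c : V, G.Adj a b → G.Adj b c → ¬ G.Adj a c)
    {l r : ZMod k} (h0 : l ≠ r) (h1 : l ≠ r - 1) (h2 : l ≠ r + 1)
    (Phi : (ZMod k → V) → V → V → ℝ) :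
    ∑ x ∈ Cyc G k, ∑ w ∈ T G k l x, ∑ w' ∈ (T G k r x).filter (fun w' => ¬ G.Adj w w'),
        Phi x w w' =
      ∑ x ∈ Cyc G k, ∑ v ∈ T G k l x, ∑ v' ∈ (T G k r x).filter (fun v' => ¬ G.Adj v v'),
        Phi (Function.update (Function.update x r v') l v) (x l) (x r) := by
  have h1' : r ≠ l - 1 := fun h => h2 (by rw [h]; ring)
  have h2' : r ≠ l + 1 := fun h => h1 (by rw [h]; ring)
  -- first swap at `l`
  have s1 := sum_swap hk tf l (fun x w =>
    ∑ w' ∈ (T G k r x).filter (fun w' => ¬ G.Adj w w'), Phi x w w')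
  -- the middle expression
  have e1 : ∀ x : ZMod k → V, ∀ v : V,
      (T G k r (Function.update x l v)).filter (fun w' => ¬ G.Adj (x l) w') =
        (T G k r x).filter (fun w' => ¬ G.Adj v w') := by
    intro x v
    ext z
    rw [mem_filter, mem_filter]
    exact T_update_filter h1 h2 v z
  rw [← s1]
  simp only [e1]
  -- exchange the two sums
  have e2 : ∀ x : ZMod k → V, ∑ v ∈ T G k l x,
      ∑ w' ∈ (T G k r x).filter (fun w' => ¬ G.Adj v w'),
        Phi (Function.update x l v) (x l) w' =
      ∑ w' ∈ T G k r x, ∑ v ∈ (T G k l x).filter (fun v => ¬ G.Adj w' v),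
        Phi (Function.update x l v) (x l) w' := by
    intro x
    simp_rw [sum_filter]
    rw [sum_comm]
    refine sum_congr rfl fun w' _ => sum_congr rfl fun v _ => ?_
    rw [G.adj_comm]
  rw [sum_congr rfl fun x _ => e2 x]
  have s2 := sum_swap hk tf r (fun x w' =>
    ∑ v ∈ (T G k l x).filter (fun v => ¬ G.Adj w' v), Phi (Function.update x l v) (x l) w')
  rw [← s2]
  have e3 : ∀ x : ZMod k → V, ∀ v' : V,
      (T G k l (Function.update x r v')).filter (fun v => ¬ G.Adj (x r) v) =
        (T G k l x).filter (fun v => ¬ G.Adj v' v) := by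
    intro x v'
    ext z
    rw [mem_filter, mem_filter]
    exact T_update_filter h1' h2' v' z
  simp only [e3, Function.update_of_ne h0]
  refine sum_congr rfl fun x _ => ?_
  simp_rw [sum_filter]
  rw [sum_comm]
  refine sum_congr rfl fun v _ => sum_congr rfl fun v' _ => ?_
  rw [G.adj_comm]

end

end Pool.Agent.ICyc.D
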