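import Pool.Agent.Lib.MP_131fce_co.D.FrameQ
import Pool.Agent.Lib.MP_131fce_co.D.Swap

/-!
# Induced k-cycles in triangle-free graphs: the lookahead rewards, vertex by vertex
-/

set_option autoImplicit false

namespace Pool.Agent.ICyc.D

open Finset Pool.Agent.ICyc
open scoped Classical

lemma psi_mono {s t : ℝ} (hs : 0 ≤ s) (hst : s ≤ t) (ht : t ≤ 1) : psi s ≤ psi t := by
  rcases hs.eq_or_lt with h | h
  · rw [← h]
    unfold psi
    rw [zero_mul]
    exact mul_nonneg (hs.trans hst) (Real.exp_pos _).le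
  · have h1 := JJ_anti h hst ht
    have h2 : 0 < t := h.trans_le hst
    have h3 : Real.log (psi s) ≤ Real.log (psi t) := by
      rw [log_psi h, log_psi h2]
      linarith
    exact (Real.log_le_log_iff (psi_pos h) (psi_pos h2)).1 h3

lemma psi_min_mono {s t : ℝ} (hs : 0 ≤ s) (hst : s ≤ t) : psi (min 1 s) ≤ psi (min 1 t) :=
  psi_mono (le_min zero_le_one hs) (min_le_min le_rfl hst) (min_le_left _ _)

variable {V : Type} [Fintype V] {G : SimpleGraph V} {k : ℕ} [NeZero k]

/-- mass of the neighbours of `y` outside the twin classes -/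
noncomputable def nn (G : SimpleGraph V) (k : ℕ) [NeZero k] (x : ZMod k → V) (y : V) : ℝ :=
  mu k ((nonT G k x).filter (fun z => G.Adj z y))

/-- the argument of the reward of the role `i` of `w` in the window `l` -/
noncomputable def arg (G : SimpleGraph V) (k : ℕ) [NeZero k] (x : ZMod k → V) (i : ZMod k) (l : ℕ)
    (w : V) : ℝ :=
  ∑ q ∈ Icc 2 (k - l - 2), uu G k x (i + (q : ZMod k)) w + nn G k x w

/-- the role `i` of `w` is its first role after `i - l, ..., i - 1` -/
def fst (G : SimpleGraph V) (k : ℕ) [NeZero k] (x : ZMod k → V) (i : ZMod k) (w : V)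
    (l : ℕ) : Prop :=
  ∀ m : ℕ, 1 ≤ m → m ≤ l → i - (m : ZMod k) ∉ Ty G k x w

/-- lookahead reward of the vertex `w` -/
noncomputable def rew (G : SimpleGraph V) (k : ℕ) [NeZero k] (L : ℕ) (x : ZMod k → V)
    (w : V) : ℝ :=
  ∑ i ∈ Ty G k x w, ∑ l ∈ (Icc L (k - 4)).filter (fst G k x i w),
    (1 - psi (min 1 (arg G k x i l w)))

lemma nn_nonneg (x : ZMod k → V) (y : V) : 0 ≤ nn G k x y := mu_nonneg _

lemma arg_nonneg (x : ZMod k → V) (i : ZMod k) (l : ℕ) (w : V) : 0 ≤ arg G k x i l w :=
  add_nonneg (sum_nonneg fun _ _ => uu_nonneg _ _ _) (nn_nonneg _ _)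

lemma rew_nonneg (L : ℕ) (x : ZMod k → V) (w : V) : 0 ≤ rew G k L x w :=
  sum_nonneg fun _ _ => sum_nonneg fun _ _ => sub_nonneg.2 (psi_le_one _)

/-- membership in the window `l` that ends at the position `i` -/
lemma mem_F_rot {x : ZMod k → V} {i : ZMod k} {l : ℕ} {w : V} :
    w ∈ F G k l (rot (i - (l : ZMod k)) x) ↔ i ∈ Ty G k x w ∧ fst G k x i w l := by
  rw [bas_mem_F, bas_mem_Ty]
  unfold rot fst
  have e1 : (l : ZMod k) + (i - (l : ZMod k)) = i := by ring
  rw [e1, and_comm]
  refine and_congr_right fun _ => ?_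
  constructor
  · intro h m h1 h2
    rw [bas_mem_Ty]
    have h3 := h (l - m) (by omega)
    have e2 : ((l - m : ℕ) : ZMod k) + (i - (l : ZMod k)) = i - (m : ZMod k) := by
      rw [Nat.cast_sub h2]; ring
    rwa [e2] at h3
  · intro h j hj
    have h3 := h (l - j) (by omega) (by omega)
    rw [bas_mem_Ty] at h3
    have e2 : (j : ZMod k) + (i - (l : ZMod k)) = i - ((l - j : ℕ) : ZMod k) := by
      rw [Nat.cast_sub hj.le]; ring
    rwa [e2]

/-- the vertices adjacent to `w` that the window has not hit: twins of the free positions, and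
vertices outside the twin classes -/
lemma rho_le_arg {x : ZMod k → V}
    (tf : ∀ a b c : V, G.Adj a b → G.Adj b c → ¬ G.Adj a c) {i : ZMod k} {l : ℕ} (hl : 2 ≤ l)
    (hlk : l + 4 ≤ k) {w : V} (hw : i ∈ Ty G k x w) :
    rho G k l (rot (i - (l : ZMod k)) x) w ≤ arg G k x i l w := by
  have hsub : (W G k l (rot (i - (l : ZMod k)) x)).filter (fun z => G.Adj w z) ⊆
      ((Icc 2 (k - l - 2)).biUnion (fun q : ℕ => (T G k (i + (q : ZMod k)) x).filter
        (fun z => G.Adj z w))) ∪ (nonT G k x).filter (fun z => G.Adj z w) := by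
    intro z hz
    rw [mem_filter, bas_mem_W] at hz
    obtain ⟨hz1, hz2⟩ := hz
    rw [bas_mem_Ty] at hw
    -- the positions `i - l, ..., i` are not adjacent to `z`
    have hfree : ∀ m : ℕ, m ≤ l → ¬ G.Adj (x (i - (m : ZMod k))) z := by
      intro m hm
      rcases Nat.eq_zero_or_pos m with h | h
      · rw [h, Nat.cast_zero, sub_zero]
        exact tf _ _ _ hw hz2
      · have h3 := hz1 (l - m) (by omega)
        unfold rot at h3
        have e2 : ((l - m : ℕ) : ZMod k) + (i - (l : ZMod k)) = i - (m : ZMod k) := by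
          rw [Nat.cast_sub hm]; ring
        rwa [e2] at h3
    by_cases hn : z ∈ nonT G k x
    · exact mem_union_right _ (mem_filter.2 ⟨hn, hz2.symm⟩)
    · have hT' : ∃ j : ZMod k, z ∈ T G k j x := by simpa [nonT] using hn
      obtain ⟨j, hj⟩ := hT'
      have h1 : G.Adj (x (j - 1)) z := (rot_adj_of_mem_T hj _).2 (Or.inl rfl)
      have h2 : G.Adj (x (j + 1)) z := (rot_adj_of_mem_T hj _).2 (Or.inr rfl)
      -- write `j = i + q`
      obtain ⟨q, hq, hqk⟩ : ∃ q : ℕ, j = i + (q : ZMod k) ∧ q < k := by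
        refine ⟨(j - i).val, ?_, ZMod.val_lt _⟩
        rw [ZMod.natCast_zmod_val]; ring
      have hq0 : q ≠ 0 := by
        rintro rfl
        apply hfree 1 (by omega)
        have : j - 1 = i - ((1 : ℕ) : ZMod k) := by rw [hq]; push_cast; ring
        rwa [← this]
      have hq1 : q ≠ 1 := by
        rintro rfl
        apply hfree 0 (by omega)
        have : j - 1 = i - ((0 : ℕ) : ZMod k) := by rw [hq]; push_cast; ring
        rwa [← this]
      have hqu : q ≤ k - l - 2 := by
        by_contra hcon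
        push Not at hcon
        -- `q + 1 ≥ k - l`, so the position `j + 1 = i - (k - q - 1)` is hit
        apply hfree (k - q - 1) (by omega)
        have : j + 1 = i - ((k - q - 1 : ℕ) : ZMod k) := by
          have e3 : ((k - q - 1 : ℕ) : ZMod k) = -(q : ZMod k) - 1 := by
            have e4 : ((k - q - 1 + q + 1 : ℕ) : ZMod k) = 0 := by
              have : k - q - 1 + q + 1 = k := by omega
              rw [this, ZMod.natCast_self]
            push_cast at e4
            linear_combination e4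
          rw [e3, hq]; ring
        rwa [← this]
      refine mem_union_left _ (mem_biUnion.2 ⟨q, mem_Icc.2 ⟨by omega, hqu⟩, ?_⟩)
      rw [mem_filter, ← hq]
      exact ⟨hj, hz2.symm⟩
  unfold rho arg
  refine (mu_mono hsub).trans ?_
  have hb : mu k ((Icc 2 (k - l - 2)).biUnion (fun q : ℕ => (T G k (i + (q : ZMod k)) x).filter
        (fun z => G.Adj z w))) ≤ ∑ q ∈ Icc 2 (k - l - 2), uu G k x (i + (q : ZMod k)) w := by
    unfold uu mu
    rw [← mul_sum]
    refine mul_le_mul_of_nonneg_left ?_ kap_nonneg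
    exact_mod_cast card_biUnion_le
  have hu : ∀ A B : Finset V, mu k (A ∪ B) ≤ mu k A + mu k B := by
    intro A B
    unfold mu
    rw [← mul_add]
    refine mul_le_mul_of_nonneg_left ?_ kap_nonneg
    exact_mod_cast card_union_le A B
  refine (hu _ _).trans ?_
  unfold nn
  linarith

/-- the rewards of the windows, vertex by vertex -/
theorem rew_le (hk : 6 ≤ k) (tf : ∀ a b c : V, G.Adj a b → G.Adj b c → ¬ G.Adj a c)
    (x : ZMod k → V) {L : ℕ} (hL : 3 ≤ L) :
    ∑ w : V, kap V k * rew G k L x w ≤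
      ∑ a : ZMod k, ∑ l ∈ Icc 2 (k - 3), RL G k L l (rot a x) := by
  have h1 : ∀ l ∈ Icc L (k - 4), ∀ i : ZMod k, kap V k * ∑ w : V,
      (if i ∈ Ty G k x w ∧ fst G k x i w l then 1 - psi (min 1 (arg G k x i l w)) else 0) ≤
        RL G k L l (rot (i - (l : ZMod k)) x) := by
    intro l hl i
    rw [mem_Icc] at hl
    unfold RL
    refine mul_le_mul_of_nonneg_left ?_ kap_nonneg
    rw [← sum_filter]
    have e : univ.filter (fun w : V => i ∈ Ty G k x w ∧ fst G k x i w l) =
        F G k l (rot (i - (l : ZMod k)) x) := by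
      ext w
      rw [mem_filter, mem_F_rot]
      simp
    rw [e]
    refine sum_le_sum fun w hw => ?_
    have hw' := (mem_F_rot.1 hw).1
    unfold gL
    rw [if_pos ⟨hl.1, by omega⟩]
    have h4 : rho G k l (rot (i - (l : ZMod k)) x) w ≤ arg G k x i l w :=
      rho_le_arg tf (by omega) (by omega) hw'
    have h5 : 0 ≤ rho G k l (rot (i - (l : ZMod k)) x) w := mu_nonneg _
    have h6 := psi_min_mono h5 h4
    linarith
  have h2 : ∑ l ∈ Icc L (k - 4), ∑ i : ZMod k, RL G k L l (rot (i - (l : ZMod k)) x) ≤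
      ∑ a : ZMod k, ∑ l ∈ Icc 2 (k - 3), RL G k L l (rot a x) := by
    rw [sum_comm (s := (univ : Finset (ZMod k)))]
    have e : ∀ l : ℕ, ∑ i : ZMod k, RL G k L l (rot (i - (l : ZMod k)) x) =
        ∑ a : ZMod k, RL G k L l (rot a x) := fun l =>
      Equiv.sum_comp (Equiv.subRight (l : ZMod k)) (fun a => RL G k L l (rot a x))
    rw [sum_congr rfl fun l _ => e l]
    refine sum_le_sum_of_subset_of_nonneg ?_ fun l _ _ => sum_nonneg fun a _ => RL_nonneg _ _ _
    intro l hl
    rw [mem_Icc] at hl ⊢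
    omega
  refine le_trans (le_of_eq ?_) ((sum_le_sum fun l hl => sum_le_sum fun i _ => h1 l hl i).trans h2)
  have h3 : ∀ w : V, rew G k L x w = ∑ l ∈ Icc L (k - 4), ∑ i : ZMod k,
      (if i ∈ Ty G k x w ∧ fst G k x i w l then 1 - psi (min 1 (arg G k x i l w)) else 0) := by
    intro w
    unfold rew
    rw [sum_comm]
    have e : ∀ i : ZMod k, ∑ l ∈ Icc L (k - 4), (if i ∈ Ty G k x w ∧ fst G k x i w l then
        1 - psi (min 1 (arg G k x i l w)) else 0) = if i ∈ Ty G k x w then
        ∑ l ∈ (Icc L (k - 4)).filter (fst G k x i w), (1 - psi (min 1 (arg G k x i l w)))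
        else 0 := by
      intro i
      by_cases h : i ∈ Ty G k x w
      · rw [if_pos h, sum_filter]
        exact sum_congr rfl fun l _ => by simp [h]
      · rw [if_neg h]
        exact sum_eq_zero fun l _ => if_neg fun h' => h h'.1
    rw [sum_congr rfl fun i _ => e i, ← sum_filter]
    congr 1
    ext i
    simp
  simp_rw [← mul_sum]
  congr 1
  rw [sum_congr rfl fun w _ => h3 w, sum_comm]
  refine sum_congr rfl fun l _ => ?_
  rw [sum_comm]

end Pool.Agent.ICyc.D
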