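import Pool.Agent.Lib.MP_131fce_co.D.Price
import Pool.Agent.Lib.MP_131fce_co.D.Flow
import Pool.Agent.Lib.MP_131fce_co.D.Rew

/-!
# Induced k-cycles in triangle-free graphs: the decoupled form of the frame

The flows, the twin price, the rewards and the degree multiplier are put together: what is
left is an inequality for every cycle (`asm`), with one term per vertex.
-/

set_option autoImplicit false

namespace Pool.Agent.ICyc.D

open Finset Pool.Agent.ICyc
open scoped Classical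

variable {V : Type} [Fintype V] {G : SimpleGraph V} {k : ℕ} [NeZero k]

/-- reflection -/
def rfx (x : ZMod k → V) : ZMod k → V := fun i => x (-i)

lemma mem_Ty_rfx {x : ZMod k → V} {i : ZMod k} {w : V} :
    i ∈ Ty G k (rfx x) w ↔ -i ∈ Ty G k x w := by
  rw [bas_mem_Ty, bas_mem_Ty]
  rfl

lemma Ty_rfx (x : ZMod k → V) (w : V) : Ty G k (rfx x) w = (Ty G k x w).image (fun i => -i) := by
  ext i
  rw [mem_Ty_rfx, mem_image]
  constructor
  · intro h
    exact ⟨-i, h, neg_neg i⟩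
  · rintro ⟨i', h, rfl⟩
    rwa [neg_neg]

lemma T_rfx (j : ZMod k) (x : ZMod k → V) : T G k j (rfx x) = T G k (-j) x := by
  ext w
  rw [mem_T_iff, mem_T_iff]
  constructor
  · intro h i
    have h1 := h (-i)
    have e : rfx x (-i) = x i := by unfold rfx; rw [neg_neg]
    rw [e] at h1
    rw [h1]
    constructor
    · rintro (h2 | h2)
      · right; linear_combination (-1 : ZMod k) * h2
      · left; linear_combination (-1 : ZMod k) * h2
    · rintro (h2 | h2)
      · right; linear_combination (-1 : ZMod k) * h2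
      · left; linear_combination (-1 : ZMod k) * h2
  · intro h i
    have h1 := h (-i)
    have e : rfx x i = x (-i) := rfl
    rw [e, h1]
    constructor
    · rintro (h2 | h2)
      · right; linear_combination (-1 : ZMod k) * h2
      · left; linear_combination (-1 : ZMod k) * h2
    · rintro (h2 | h2)
      · right; linear_combination (-1 : ZMod k) * h2
      · left; linear_combination (-1 : ZMod k) * h2

lemma nonT_rfx (x : ZMod k → V) : nonT G k (rfx x) = nonT G k x := by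
  ext w
  unfold nonT
  simp only [mem_filter, mem_univ, true_and, T_rfx]
  constructor
  · intro h j
    have := h (-j)
    rwa [neg_neg] at this
  · intro h j
    exact h (-j)

lemma uu_rfx (x : ZMod k → V) (j : ZMod k) (y : V) : uu G k (rfx x) j y = uu G k x (-j) y := by
  unfold uu
  rw [T_rfx]

lemma DD_rfx (x : ZMod k → V) (j : ZMod k) (y : V) : DD G k (rfx x) j y = DD G k x (-j) y := by
  unfold DD
  rw [T_rfx]

lemma nn_rfx (x : ZMod k → V) (y : V) : nn G k (rfx x) y = nn G k x y := by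
  unfold nn
  rw [nonT_rfx]

lemma arg_rfx (x : ZMod k → V) (i : ZMod k) (l : ℕ) (w : V) : arg G k (rfx x) i l w =
    ∑ q ∈ Icc 2 (k - l - 2), uu G k x (-i - (q : ZMod k)) w + nn G k x w := by
  unfold arg
  rw [nn_rfx]
  congr 1
  refine sum_congr rfl fun q _ => ?_
  rw [uu_rfx]
  congr 1
  ring

/-- own cost of `y`, mean of the two directions -/
noncomputable def ownS (G : SimpleGraph V) (k : ℕ) [NeZero k] (K : V → V → ℝ) (x : ZMod k → V)
    (y : V) : ℝ :=
  ∑ i ∈ Ty G k x y, (K y (x (i - 1)) + K y (x (i + 1))) / 2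

/-- own cost of `y`, one direction -/
noncomputable def ownD (G : SimpleGraph V) (k : ℕ) [NeZero k] (K : V → V → ℝ) (x : ZMod k → V)
    (y : V) : ℝ :=
  ∑ i ∈ Ty G k x y, K y (x (i - 1))

lemma sum_own_eq (K : V → V → ℝ) (x : ZMod k → V) :
    ∑ a : ZMod k, own G k K x a = ∑ y ∈ nonT G k x, kap V k * ownD G k K x y := by
  have h : ∀ a : ZMod k, own G k K x a =
      ∑ w ∈ nonT G k x, (if a + 1 ∈ Ty G k x w then kap V k * K w (x a) else 0) := by
    intro a
    unfold own
    rw [sum_filter]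
    refine sum_congr rfl fun w _ => ?_
    simp only [bas_mem_Ty]
  rw [sum_congr rfl fun a _ => h a, sum_comm]
  refine sum_congr rfl fun w _ => ?_
  unfold ownD
  rw [← sum_filter, mul_sum]
  refine sum_nbij' (fun a => a + 1) (fun i => i - 1) ?_ ?_ ?_ ?_ ?_
  · intro a ha
    rw [mem_filter] at ha
    exact ha.2
  · intro i hi
    rw [mem_filter]
    refine ⟨mem_univ _, ?_⟩
    rwa [sub_add_cancel]
  · intro a _
    exact add_sub_cancel_right a 1
  · intro i _
    exact sub_add_cancel i 1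
  · intro a _
    rw [add_sub_cancel_right]

lemma ownD_rfx (K : V → V → ℝ) (x : ZMod k → V) (y : V) :
    ownD G k K (rfx x) y = ∑ i ∈ Ty G k x y, K y (x (i + 1)) := by
  unfold ownD
  rw [Ty_rfx, sum_image (fun a _ b _ h => neg_injective h)]
  refine sum_congr rfl fun i _ => ?_
  unfold rfx
  congr 2
  ring

lemma ownS_eq (K : V → V → ℝ) (x : ZMod k → V) (y : V) :
    ownS G k K x y = (ownD G k K x y + ownD G k K (rfx x) y) / 2 := by
  rw [ownD_rfx]
  unfold ownS ownD
  rw [← sum_add_distrib, sum_div]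

theorem sum_ownS (K : V → V → ℝ) :
    ∑ x ∈ Cyc G k, ∑ a : ZMod k, own G k K x a =
      ∑ x ∈ Cyc G k, ∑ y ∈ nonT G k x, kap V k * ownS G k K x y := by
  have h1 : ∑ x ∈ Cyc G k, ∑ y ∈ nonT G k x, kap V k * ownD G k K (rfx x) y =
      ∑ x ∈ Cyc G k, ∑ y ∈ nonT G k x, kap V k * ownD G k K x y := by
    have := sum_refl (G := G) (k := k)
      (fun x => ∑ y ∈ nonT G k x, kap V k * ownD G k K x y)
    rw [← this]
    refine sum_congr rfl fun x _ => ?_
    have e : (fun i : ZMod k => x (-i)) = rfx x := rfl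
    rw [e, nonT_rfx]
  have h2 : ∑ x ∈ Cyc G k, ∑ y ∈ nonT G k x, kap V k * ownS G k K x y =
      (∑ x ∈ Cyc G k, ∑ y ∈ nonT G k x, kap V k * ownD G k K x y +
        ∑ x ∈ Cyc G k, ∑ y ∈ nonT G k x, kap V k * ownD G k K (rfx x) y) / 2 := by
    rw [← sum_add_distrib, sum_div]
    refine sum_congr rfl fun x _ => ?_
    rw [← sum_add_distrib, sum_div]
    refine sum_congr rfl fun y _ => ?_
    rw [ownS_eq]
    ring
  rw [h2, h1, sum_congr rfl fun x _ => sum_own_eq K x]
  ring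

/-- lookahead reward, mean of the two directions -/
noncomputable def rewS (G : SimpleGraph V) (k : ℕ) [NeZero k] (L : ℕ) (x : ZMod k → V)
    (w : V) : ℝ := (rew G k L x w + rew G k L (rfx x) w) / 2

theorem sum_rewS (hk : 6 ≤ k) (tf : ∀ a b c : V, G.Adj a b → G.Adj b c → ¬ G.Adj a c)
    {L : ℕ} (hL : 3 ≤ L) :
    ∑ x ∈ Cyc G k, ∑ w : V, kap V k * rewS G k L x w ≤
      ∑ x ∈ Cyc G k, ∑ a : ZMod k, ∑ l ∈ Icc 2 (k - 3), RL G k L l (rot a x) := by
  have h1 : ∑ x ∈ Cyc G k, ∑ w : V, kap V k * rew G k L (rfx x) w =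
      ∑ x ∈ Cyc G k, ∑ w : V, kap V k * rew G k L x w :=
    sum_refl (G := G) (k := k) (fun x => ∑ w : V, kap V k * rew G k L x w)
  have h2 : ∑ x ∈ Cyc G k, ∑ w : V, kap V k * rewS G k L x w =
      (∑ x ∈ Cyc G k, ∑ w : V, kap V k * rew G k L x w +
        ∑ x ∈ Cyc G k, ∑ w : V, kap V k * rew G k L (rfx x) w) / 2 := by
    rw [← sum_add_distrib, sum_div]
    refine sum_congr rfl fun x _ => ?_
    rw [← sum_add_distrib, sum_div]
    refine sum_congr rfl fun y _ => ?_
    unfold rewS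
    ring
  rw [h2, h1]
  have h3 := sum_le_sum fun x (_ : x ∈ Cyc G k) => rew_le hk tf x hL
  linarith

/-- neighbours outside the two classes next to `j` -/
noncomputable def irr (G : SimpleGraph V) (k : ℕ) [NeZero k] (x : ZMod k → V) (j : ZMod k)
    (w : V) : ℝ := dg G k w - uu G k x (j - 1) w - uu G k x (j + 1) w

/-- the twin cost: a price `r0` on the flows and a price `H` for the members of the classes -/
theorem twin_price (hk : 5 ≤ k) (tf : ∀ a b c : V, G.Adj a b → G.Adj b c → ¬ G.Adj a c)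
    {L : ℕ} (hL : 1 ≤ L) {r0 : ℝ} {H : ℝ → ℝ}
    (hH : ∀ s t : ℝ, 0 ≤ s → s ≤ t → H s ≤ H t) (hp : ∀ t : ℝ, 0 ≤ t → k2 L t - r0 * t ≤ H t) :
    ∑ x ∈ Cyc G k, ∑ j : ZMod k, twK G k (KL G k L) x j j ≤
      ∑ x ∈ Cyc G k, ∑ j : ZMod k, ∑ w ∈ T G k j x, kap V k * H (irr G k x j w) +
      ∑ x ∈ Cyc G k, ∑ y : V, kap V k * (r0 * ∑ l ∈ Ty G k x y, DD G k x l y) := by
  have e1 : ∑ x ∈ Cyc G k, ∑ y : V, kap V k * (r0 * ∑ l ∈ Ty G k x y, DD G k x l y) =
      ∑ j : ZMod k, r0 * ∑ x ∈ Cyc G k, ∑ y ∈ univ.filter (fun y => G.Adj (x j) y),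
        kap V k * DD G k x j y := by
    have e2 : ∀ x : ZMod k → V, ∑ y : V, kap V k * (r0 * ∑ l ∈ Ty G k x y, DD G k x l y) =
        ∑ j : ZMod k, r0 * ∑ y ∈ univ.filter (fun y => G.Adj (x j) y),
          kap V k * DD G k x j y := by
      intro x
      simp_rw [sum_filter, mul_sum]
      rw [sum_comm (s := (univ : Finset (ZMod k)))]
      refine sum_congr rfl fun y _ => ?_
      have e3 : Ty G k x y = univ.filter (fun l => G.Adj (x l) y) := rfl
      rw [e3, sum_filter]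
      refine sum_congr rfl fun l _ => ?_
      split_ifs <;> ring
    rw [sum_congr rfl fun x _ => e2 x, sum_comm]
    exact sum_congr rfl fun j _ => by rw [mul_sum]
  rw [sum_comm, e1, sum_comm (s := Cyc G k) (t := (univ : Finset (ZMod k)))
    (f := fun x j => ∑ w ∈ T G k j x, kap V k * H (irr G k x j w)), ← sum_add_distrib]
  refine sum_le_sum fun j _ => ?_
  have h := twK_price (G := G) hk tf j hL H r0 hH hp
  unfold irr
  linarith

/-- the part of the functional that belongs to the positions -/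
noncomputable def Pos (G : SimpleGraph V) (k : ℕ) [NeZero k] (L : ℕ) (K : V → V → ℝ)
    (x : ZMod k → V) : ℝ :=
  ∑ a : ZMod k, (1 - mu k (T G k (a + 2) x)) * (1 - K (x (a + 2)) (x a)) -
    ∑ a : ZMod k, (JJ (dg G k (x a) / 2) + JJ (ZK G k K (x a) (x (a + 1))) +
      JJ (mu k (T G k a x)) +
      ∑ l ∈ Icc 3 (k - 3), JJ (max 1 (mu k (F G k l (rot a x)) - RL G k L l (rot a x))))

/-- value of a vertex outside the classes -/
noncomputable def VN (G : SimpleGraph V) (k : ℕ) [NeZero k] (L : ℕ) (r0 : ℝ)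
    (Fl : (ZMod k → V) → V → ℝ) (g : V → ℝ) (x : ZMod k → V) (y : V) : ℝ :=
  rD k (Ty G k x y) - ownS G k (KL G k L) x y + rewS G k L x y -
    r0 * ∑ l ∈ Ty G k x y, DD G k x l y + Fl x y +
    g y * (((Ty G k x y).card : ℝ) - dg G k y)

/-- value of a member of the class `j` -/
noncomputable def VT (G : SimpleGraph V) (k : ℕ) [NeZero k] (L : ℕ) (r0 : ℝ) (H : ℝ → ℝ)
    (Fl : (ZMod k → V) → V → ℝ) (g : V → ℝ) (x : ZMod k → V) (j : ZMod k) (w : V) : ℝ :=
  rewS G k L x w - H (irr G k x j w) -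
    r0 * ∑ l ∈ Ty G k x w, DD G k x l w + Fl x w +
    g w * (((Ty G k x w).card : ℝ) - dg G k w)

/-- a sum over all vertices, by classes -/
lemma sum_classes (hk : 5 ≤ k) (x : ZMod k → V) (f : V → ℝ) :
    ∑ w : V, f w = ∑ w ∈ nonT G k x, f w + ∑ j : ZMod k, ∑ w ∈ T G k j x, f w := by
  have h1 : ∑ j : ZMod k, ∑ w ∈ T G k j x, f w =
      ∑ w : V, ∑ j : ZMod k, (if w ∈ T G k j x then f w else 0) := by
    rw [sum_comm]
    refine sum_congr rfl fun j _ => ?_
    rw [← sum_filter]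
    refine sum_congr ?_ fun _ _ => rfl
    ext w
    simp
  rw [h1, nonT, sum_filter, ← sum_add_distrib]
  refine sum_congr rfl fun w _ => ?_
  by_cases h : ∀ j : ZMod k, w ∉ T G k j x
  · rw [if_pos h, sum_eq_zero fun j _ => if_neg (h j), add_zero]
  · rw [if_neg h, zero_add]
    have hT' : ∃ j : ZMod k, w ∈ T G k j x := by simpa using h
    obtain ⟨j, hj⟩ := hT'
    rw [sum_eq_single j]
    · rw [if_pos hj]
    · intro j' _ hne
      rw [if_neg]
      intro h'
      exact hne (T_disjoint hk h' hj)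
    · intro h'
      exact absurd (mem_univ j) h'

/-- the decoupled form: an inequality for every cycle, up to a functional `Z` with sum zero -/
theorem asm (hk : 6 ≤ k) (tf : ∀ a b c : V, G.Adj a b → G.Adj b c → ¬ G.Adj a c)
    (hne : (Cyc G k).Nonempty) {L : ℕ} (hL : 3 ≤ L) (hLk : L + 3 ≤ k) {r0 : ℝ} {H : ℝ → ℝ}
    (hH : ∀ s t : ℝ, 0 ≤ s → s ≤ t → H s ≤ H t) (hp : ∀ t : ℝ, 0 ≤ t → k2 L t - r0 * t ≤ H t)
    (Fl : (ZMod k → V) → V → ℝ) (hFl : ∑ x ∈ Cyc G k, ∑ y : V, kap V k * Fl x y ≤ 0)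
    (g : V → ℝ) (Z : (ZMod k → V) → ℝ)
    (hZ : ∑ x ∈ Cyc G k, Z x ≤ 0)
    (hx : ∀ x ∈ Cyc G k, Pos G k L (KL G k L) x ≤
      ∑ y ∈ nonT G k x, kap V k * VN G k L r0 Fl g x y +
      ∑ j : ZMod k, ∑ w ∈ T G k j x, kap V k * VT G k L r0 H Fl g x j w + Z x) :
    (k : ℝ) * (NN G k * Real.log (NN G k * kap V k ^ k / (2 * (k : ℝ)))) ≤
      ∑ x ∈ Cyc G k, ∑ y : V, kap V k * (g y * (((Ty G k x y).card : ℝ) - dg G k y)) := by
  have hk5 : 5 ≤ k := by omega
  have h1 := frameQ hk tf hne hL hLk (Ker_KL (G := G) (k := k) (L := L) (by omega))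
  refine h1.trans ?_
  have h2 := twin_price (G := G) hk5 tf (L := L) (by omega) hH hp
  have h3 := sum_rewS (G := G) hk tf hL
  have h5 := sum_ownS (G := G) (k := k) (KL G k L)
  have e1 : ∑ x ∈ Cyc G k, QQ G k L (KL G k L) x =
      -∑ x ∈ Cyc G k, ∑ w ∈ nonT G k x, kap V k * rD k (Ty G k x w) +
      (∑ x ∈ Cyc G k, ∑ a : ZMod k, own G k (KL G k L) x a +
        ∑ x ∈ Cyc G k, ∑ a : ZMod k, twK G k (KL G k L) x a a) -
      ∑ x ∈ Cyc G k, ∑ a : ZMod k, ∑ l ∈ Icc 2 (k - 3), RL G k L l (rot a x) +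
      ∑ x ∈ Cyc G k, Pos G k L (KL G k L) x := by
    rw [← sum_neg_distrib, ← sum_add_distrib, ← sum_add_distrib, ← sum_sub_distrib,
      ← sum_add_distrib]
    refine sum_congr rfl fun x _ => ?_
    unfold QQ Pos
    rw [← sum_add_distrib (f := fun a => own G k (KL G k L) x a)]
    ring
  have e2 : ∀ x : ZMod k → V, ∑ y ∈ nonT G k x, kap V k * VN G k L r0 Fl g x y +
      ∑ j : ZMod k, ∑ w ∈ T G k j x, kap V k * VT G k L r0 H Fl g x j w =
      ∑ w ∈ nonT G k x, kap V k * rD k (Ty G k x w) -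
      ∑ y ∈ nonT G k x, kap V k * ownS G k (KL G k L) x y -
      ∑ j : ZMod k, ∑ w ∈ T G k j x, kap V k * H (irr G k x j w) +
      ∑ w : V, kap V k * rewS G k L x w -
      ∑ w : V, kap V k * (r0 * ∑ l ∈ Ty G k x w, DD G k x l w) +
      ∑ w : V, kap V k * Fl x w +
      ∑ w : V, kap V k * (g w * (((Ty G k x w).card : ℝ) - dg G k w)) := by
    intro x
    have s := sum_classes (G := G) hk5 x
    rw [s (fun w => kap V k * rewS G k L x w),
      s (fun w => kap V k * (r0 * ∑ l ∈ Ty G k x w, DD G k x l w)),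
      s (fun w => kap V k * Fl x w),
      s (fun w => kap V k * (g w * (((Ty G k x w).card : ℝ) - dg G k w)))]
    have a1 : ∑ y ∈ nonT G k x, kap V k * VN G k L r0 Fl g x y =
        ∑ w ∈ nonT G k x, kap V k * rD k (Ty G k x w) -
        ∑ y ∈ nonT G k x, kap V k * ownS G k (KL G k L) x y +
        ∑ w ∈ nonT G k x, kap V k * rewS G k L x w -
        ∑ w ∈ nonT G k x, kap V k * (r0 * ∑ l ∈ Ty G k x w, DD G k x l w) +
        ∑ w ∈ nonT G k x, kap V k * Fl x w +
        ∑ w ∈ nonT G k x, kap V k * (g w * (((Ty G k x w).card : ℝ) - dg G k w)) := by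
      rw [← sum_sub_distrib, ← sum_add_distrib, ← sum_sub_distrib, ← sum_add_distrib,
        ← sum_add_distrib]
      refine sum_congr rfl fun y _ => ?_
      unfold VN
      ring
    have a2 : ∑ j : ZMod k, ∑ w ∈ T G k j x, kap V k * VT G k L r0 H Fl g x j w =
        -∑ j : ZMod k, ∑ w ∈ T G k j x, kap V k * H (irr G k x j w) +
        ∑ j : ZMod k, ∑ w ∈ T G k j x, kap V k * rewS G k L x w -
        ∑ j : ZMod k, ∑ w ∈ T G k j x, kap V k * (r0 * ∑ l ∈ Ty G k x w, DD G k x l w) +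
        ∑ j : ZMod k, ∑ w ∈ T G k j x, kap V k * Fl x w +
        ∑ j : ZMod k, ∑ w ∈ T G k j x,
          kap V k * (g w * (((Ty G k x w).card : ℝ) - dg G k w)) := by
      rw [← sum_neg_distrib, ← sum_add_distrib, ← sum_sub_distrib, ← sum_add_distrib,
        ← sum_add_distrib]
      refine sum_congr rfl fun j _ => ?_
      rw [← sum_neg_distrib, ← sum_add_distrib, ← sum_sub_distrib, ← sum_add_distrib,
        ← sum_add_distrib]
      refine sum_congr rfl fun w _ => ?_
      unfold VT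
      ring
    rw [a1, a2]
    ring
  have h6 : ∑ x ∈ Cyc G k, Pos G k L (KL G k L) x ≤ ∑ x ∈ Cyc G k,
      (∑ w ∈ nonT G k x, kap V k * rD k (Ty G k x w) -
      ∑ y ∈ nonT G k x, kap V k * ownS G k (KL G k L) x y -
      ∑ j : ZMod k, ∑ w ∈ T G k j x, kap V k * H (irr G k x j w) +
      ∑ w : V, kap V k * rewS G k L x w -
      ∑ w : V, kap V k * (r0 * ∑ l ∈ Ty G k x w, DD G k x l w) +
      ∑ w : V, kap V k * Fl x w +
      ∑ w : V, kap V k * (g w * (((Ty G k x w).card : ℝ) - dg G k w)) + Z x) := by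
    refine sum_le_sum fun x hx' => ?_
    have h7 := hx x hx'
    rw [e2 x] at h7
    exact h7
  simp only [sum_add_distrib, sum_sub_distrib] at h6
  rw [e1]
  linarith

end Pool.Agent.ICyc.D
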