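import Pool.Agent.Lib.MP_131fce_co.D.Zeta
import Pool.Agent.Lib.MP_131fce_co.D.Flow

/-!
# Induced k-cycles in triangle-free graphs: charges along edges

An antisymmetric charge `chi y z` along the edges has total zero; the vertex functional of `y` is
then the mean of `chi y z` over the neighbours `z` of `y`.
-/

set_option autoImplicit false

namespace Pool.Agent.ICyc.D

open Finset Pool.Agent.ICyc
open scoped Classical

variable {V : Type} [Fintype V] {G : SimpleGraph V} {k : ℕ} [NeZero k]

/-- what the vertex `y` receives along its edges -/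
noncomputable def chg (G : SimpleGraph V) (k : ℕ) (chi : V → V → ℝ) (y : V) : ℝ :=
  ∑ z ∈ nb G y, kap V k * chi y z

omit [NeZero k] in
theorem sum_chg (chi : V → V → ℝ) (h : ∀ y z, G.Adj y z → chi y z + chi z y = 0) :
    ∑ y : V, kap V k * chg G k chi y = 0 := by
  have e : ∑ y : V, kap V k * chg G k chi y =
      ∑ y : V, ∑ z : V, (if G.Adj y z then kap V k * kap V k * chi y z else 0) := by
    refine sum_congr rfl fun y _ => ?_
    unfold chg nb
    rw [sum_filter, mul_sum]
    refine sum_congr rfl fun z _ => ?_
    split_ifs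
    · ring
    · ring
  have e2 : ∑ y : V, ∑ z : V, (if G.Adj y z then kap V k * kap V k * chi y z else 0) =
      ∑ y : V, ∑ z : V, (if G.Adj y z then kap V k * kap V k * chi z y else 0) := by
    rw [sum_comm]
    refine sum_congr rfl fun y _ => sum_congr rfl fun z _ => ?_
    by_cases hz : G.Adj y z
    · rw [if_pos hz, if_pos hz.symm]
    · rw [if_neg hz, if_neg fun h' => hz h'.symm]
  have e3 : ∑ y : V, ∑ z : V, (if G.Adj y z then kap V k * kap V k * chi y z else 0) +
      ∑ y : V, ∑ z : V, (if G.Adj y z then kap V k * kap V k * chi z y else 0) = 0 := by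
    rw [← sum_add_distrib]
    refine sum_eq_zero fun y _ => ?_
    rw [← sum_add_distrib]
    refine sum_eq_zero fun z _ => ?_
    split_ifs with hz
    · have := h y z hz
      have h2 : kap V k * kap V k * chi y z + kap V k * kap V k * chi z y =
          kap V k * kap V k * (chi y z + chi z y) := by ring
      rw [h2, this, mul_zero]
    · rw [add_zero]
  rw [e]
  linarith

omit [NeZero k] in
/-- the charge of `y` against a set `S` of neighbours only -/
theorem chg_eq {chi : V → V → ℝ} {y : V} {c : ℝ} {p : V → Prop}
    (h : ∀ z, G.Adj y z → chi y z = if p z then c else 0) :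
    chg G k chi y = c * mu k ((nb G y).filter p) := by
  unfold chg
  rw [mu_eq_sum, mul_sum, sum_filter]
  refine sum_congr rfl fun z hz => ?_
  rw [h z (bas_mem_nb.1 hz)]
  split_ifs
  · ring
  · rw [mul_zero]

/-- the charge of `y`, by classes: `c j` per unit of neighbours in `T j`, and `chi` on the
neighbours outside the classes -/
theorem chg_split (hk : 5 ≤ k) (x : ZMod k → V) {chi : V → V → ℝ} {y : V} {c : ZMod k → ℝ}
    (h : ∀ j, ∀ z ∈ T G k j x, G.Adj z y → chi y z = c j) :
    chg G k chi y = ∑ j : ZMod k, c j * uu G k x j y +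
      ∑ z ∈ (nonT G k x).filter (fun z => G.Adj y z), kap V k * chi y z := by
  have h1 := sum_classes (G := G) hk x (fun z => if G.Adj y z then kap V k * chi y z else 0)
  have h2 : chg G k chi y = ∑ z : V, if G.Adj y z then kap V k * chi y z else 0 := by
    unfold chg nb
    rw [sum_filter]
  rw [h2, h1, add_comm]
  congr 1
  · refine sum_congr rfl fun j _ => ?_
    unfold uu
    rw [mu_eq_sum, mul_sum, sum_filter]
    refine sum_congr rfl fun z hz => ?_
    by_cases hzy : G.Adj z y
    · rw [if_pos hzy, if_pos hzy.symm, h j z hz hzy]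
      ring
    · rw [if_neg hzy, if_neg fun h' => hzy h'.symm]
  · rw [sum_filter]

end Pool.Agent.ICyc.D
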