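import Pool.Agent.Lib.MP_131fce_co.Count

/-!
# Induced k-cycles in triangle-free graphs: the frozen statement from `NN kap ^ k ≤ 2k`, `k ≥ 9`
-/

set_option autoImplicit false

namespace Pool.Agent.ICyc.D

open Finset Pool.Agent.ICyc
open scoped Classical

/-- the bound for sets of vertices, from the bound for `NN` -/
theorem ncard_of_NN {k : ℕ} [NeZero k] (hk5 : 5 ≤ k) (V : Type) [Fintype V] (G : SimpleGraph V)
    (hNN : NN G k * kap V k ^ k ≤ 2 * (k : ℝ)) :
    (({S : Finset V | S.card = k ∧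
        Nonempty (G.induce (S : Set V) ≃g SimpleGraph.cycleGraph k)}.ncard : ℝ)
      ≤ ((Fintype.card V : ℝ) / (k : ℝ)) ^ k) := by
  have hkpos : (0 : ℝ) < (k : ℝ) := by
    have : 0 < k := by omega
    exact_mod_cast this
  have hcount := ncard_le (V := V) (G := G) (k := k) hk5
  by_cases hne : (Cyc G k).Nonempty
  · have hV : Nonempty V := by
      obtain ⟨x, _⟩ := hne
      exact ⟨x 0⟩
    have hn : (0 : ℝ) < (Fintype.card V : ℝ) := by
      exact_mod_cast Fintype.card_pos
    have hkap : (0 : ℝ) < kap V k := div_pos hkpos hn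
    have h1 : (2 * (k : ℝ)) * (({S : Finset V | S.card = k ∧
          Nonempty (G.induce (S : Set V) ≃g SimpleGraph.cycleGraph k)}.ncard : ℝ)) * kap V k ^ k ≤
        2 * (k : ℝ) := le_trans (mul_le_mul_of_nonneg_right hcount (pow_nonneg hkap.le k)) hNN
    have h2 : (({S : Finset V | S.card = k ∧
          Nonempty (G.induce (S : Set V) ≃g SimpleGraph.cycleGraph k)}.ncard : ℝ)) * kap V k ^ k
          ≤ 1 := by
      have h3 : (2 * (k : ℝ)) * ((({S : Finset V | S.card = k ∧
          Nonempty (G.induce (S : Set V) ≃g SimpleGraph.cycleGraph k)}.ncard : ℝ)) * kap V k ^ k)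
          ≤ (2 * (k : ℝ)) * 1 := by
        rw [mul_one, ← mul_assoc]
        exact h1
      exact le_of_mul_le_mul_left h3 (by positivity)
    have h4 : ((Fintype.card V : ℝ) / (k : ℝ)) ^ k = 1 / kap V k ^ k := by
      rw [← one_div_pow]
      congr 1
      rw [kap]
      field_simp
    rw [h4, le_div_iff₀ (pow_pos hkap k)]
    exact h2
  · have hN : NN G k = 0 := by
      rw [NN, Finset.not_nonempty_iff_eq_empty.mp hne]
      simp
    rw [hN] at hcount
    have h5 : (({S : Finset V | S.card = k ∧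
          Nonempty (G.induce (S : Set V) ≃g SimpleGraph.cycleGraph k)}.ncard : ℝ)) ≤ 0 := by
      have h6 : (0 : ℝ) < 2 * (k : ℝ) := by positivity
      by_contra h7
      push Not at h7
      have := mul_pos h6 h7
      linarith
    exact h5.trans (by positivity)

/-- the frozen statement, from the bound for all `k ≥ 9` and the small cases (`SmallCycles`) -/
theorem frozen_of (hs : ∀ k : ℕ, 5 ≤ k → k ≤ 8 → ∀ (V : Type) [Fintype V] (G : SimpleGraph V),
      G.CliqueFree 3 →
      (({S : Finset V | S.card = k ∧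
          Nonempty (G.induce (S : Set V) ≃g SimpleGraph.cycleGraph k)}.ncard : ℝ)
        ≤ ((Fintype.card V : ℝ) / (k : ℝ)) ^ k))
    (h : ∀ (k : ℕ) [NeZero k], 9 ≤ k → ∀ (V : Type) [Fintype V] (G : SimpleGraph V),
      (∀ a b c : V, G.Adj a b → G.Adj b c → ¬ G.Adj a c) → NN G k * kap V k ^ k ≤ 2 * (k : ℝ)) :
    ∀ k : ℕ, 5 ≤ k → ∀ (V : Type) [Fintype V] (G : SimpleGraph V), G.CliqueFree 3 →
      (({S : Finset V | S.card = k ∧
          Nonempty (G.induce (S : Set V) ≃g SimpleGraph.cycleGraph k)}.ncard : ℝ)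
        ≤ ((Fintype.card V : ℝ) / (k : ℝ)) ^ k) := by
  intro k h5 V _ G hG
  rcases Nat.lt_or_ge 8 k with h9 | h8
  · have : NeZero k := ⟨by omega⟩
    have tf : ∀ a b c : V, G.Adj a b → G.Adj b c → ¬ G.Adj a c := by
      intro a b c hab hbc hac
      exact hG {a, b, c} (SimpleGraph.is3Clique_triple_iff.mpr ⟨hab, hac, hbc⟩)
    exact ncard_of_NN h5 V G (h k (by omega) V G tf)
  · exact hs k h5 h8 V G hG

end Pool.Agent.ICyc.D
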