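import Pool.Agent.Lib.MP_131fce_co.D.Rows3

/-!
# Induced k-cycles in triangle-free graphs: the edge inequality as a functional

For a vertex `y` and a neighbour `v` of `y` in the class `l`, the neighbours of `y` in the class
`l + 1` are no neighbours of `v`: `u_{l+1}(y) ≤ D_{l+1}(v)`.
-/

set_option autoImplicit false

namespace Pool.Agent.ICyc.D

open Finset Pool.Agent.ICyc
open scoped Classical

noncomputable section

section

variable {k : ℕ} [NeZero k]

/-- gain of a vertex outside the classes -/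
def edN (we : Env k → Finset (ZMod k) → ZMod k → ℝ) (A : Finset (ZMod k))
    (N : Finset (ZMod k) → ℝ) (E : Env k) : ℝ :=
  ∑ l : ZMod k, we E A l * (2 * N (tT l) * N (tT (l + 1)))

/-- payment of a member of the class `j` -/
def edT (we : Env k → Finset (ZMod k) → ZMod k → ℝ) (j : ZMod k)
    (N : Finset (ZMod k) → ℝ) (E : Env k) : ℝ :=
  -∑ B ∈ univ.filter (fun B : Finset (ZMod k) => ∀ l, B ≠ tT l),
    N B * (we E B j * (E.tau (j + 1) - N (tT (j + 1))) +
      we E B (j - 1) * (E.tau (j - 1) - N (tT (j - 1))))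

end

section

variable {V : Type} [Fintype V] {G : SimpleGraph V} {k : ℕ} [NeZero k]

/-- the edge inequality -/
lemma uu_le_DD (tf : ∀ a b c : V, G.Adj a b → G.Adj b c → ¬ G.Adj a c) {x : ZMod k → V}
    {y v : V} (h : G.Adj v y) (l : ZMod k) : uu G k x l y ≤ DD G k x l v := by
  refine mu_sub_le fun z hz => ?_
  rw [mem_filter] at hz ⊢
  exact ⟨hz.1, fun h' => tf _ _ _ h' h hz.2⟩

lemma mem_nonT_iff {x : ZMod k → V} {y : V} : y ∈ nonT G k x ↔ ∀ l, Ty G k x y ≠ tT l := by
  unfold nonT
  rw [mem_filter]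
  constructor
  · intro h l hl
    exact h.2 l (bas_mem_T.2 hl)
  · intro h
    exact ⟨mem_univ _, fun l hl => h l (bas_mem_T.1 hl)⟩

theorem edge_functional (tf : ∀ a b c : V, G.Adj a b → G.Adj b c → ¬ G.Adj a c)
    {we : Env k → Finset (ZMod k) → ZMod k → ℝ} (hwe : ∀ E A l, 0 ≤ we E A l)
    (x : ZMod k → V) :
    ∑ y ∈ nonT G k x, kap V k * edN we (Ty G k x y) (NbM G k x y) (envX G k x) +
      ∑ j : ZMod k, ∑ w ∈ T G k j x, kap V k * edT we j (NbM G k x w) (envX G k x) ≤ 0 := by
  set E := envX G k x with hE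
  have hs1 : ∀ f : ZMod k → ℝ, ∑ j : ZMod k, f (j - 1) = ∑ j : ZMod k, f j := fun f =>
    Equiv.sum_comp (Equiv.subRight (1 : ZMod k)) f
  -- the payments, by edges
  have h1 : ∀ j : ZMod k, ∀ w : V, edT we j (NbM G k x w) E =
      -∑ y ∈ (nonT G k x).filter (fun y => G.Adj w y), kap V k *
        (we E (Ty G k x y) j * DD G k x (j + 1) w +
          we E (Ty G k x y) (j - 1) * DD G k x (j - 1) w) := by
    intro j w
    unfold edT
    congr 1
    have e1 := sum_nb_types (G := G) x w (fun B => if ∀ l, B ≠ tT l then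
      (we E B j * (E.tau (j + 1) - NbM G k x w (tT (j + 1))) +
      we E B (j - 1) * (E.tau (j - 1) - NbM G k x w (tT (j - 1)))) else 0)
    have e2 : ∀ l : ZMod k, E.tau l - NbM G k x w (tT l) = DD G k x l w :=
      fun l => (DD_eq_N x l w).symm
    rw [sum_filter]
    have e3 : ∑ B : Finset (ZMod k), (if ∀ l, B ≠ tT l then
        NbM G k x w B * (we E B j * (E.tau (j + 1) - NbM G k x w (tT (j + 1))) +
        we E B (j - 1) * (E.tau (j - 1) - NbM G k x w (tT (j - 1)))) else 0) =
        ∑ B : Finset (ZMod k), NbM G k x w B * (if ∀ l, B ≠ tT l then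
        (we E B j * (E.tau (j + 1) - NbM G k x w (tT (j + 1))) +
        we E B (j - 1) * (E.tau (j - 1) - NbM G k x w (tT (j - 1)))) else 0) := by
      refine sum_congr rfl fun B _ => ?_
      split_ifs
      · rfl
      · rw [mul_zero]
    rw [e3, ← e1, e2, e2]
    have e4 : (nonT G k x).filter (fun y => G.Adj w y) =
        (nb G w).filter (fun y => ∀ l, Ty G k x y ≠ tT l) := by
      ext y
      rw [mem_filter, mem_filter, mem_nonT_iff, bas_mem_nb, and_comm]
    rw [e4, sum_filter]
    refine sum_congr rfl fun y _ => ?_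
    split_ifs
    · rfl
    · rw [mul_zero]
  -- one vertex outside the classes
  have h2 : ∀ y : V, edN we (Ty G k x y) (NbM G k x y) E ≤
      ∑ j : ZMod k, ∑ w ∈ (T G k j x).filter (fun w => G.Adj w y), kap V k *
        (we E (Ty G k x y) j * DD G k x (j + 1) w +
          we E (Ty G k x y) (j - 1) * DD G k x (j - 1) w) := by
    intro y
    have e1 : ∀ j : ZMod k, uu G k x j y * (we E (Ty G k x y) j * uu G k x (j + 1) y +
        we E (Ty G k x y) (j - 1) * uu G k x (j - 1) y) ≤
        ∑ w ∈ (T G k j x).filter (fun w => G.Adj w y), kap V k *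
        (we E (Ty G k x y) j * DD G k x (j + 1) w +
          we E (Ty G k x y) (j - 1) * DD G k x (j - 1) w) := by
      intro j
      have e2 : uu G k x j y = ∑ _w ∈ (T G k j x).filter (fun w => G.Adj w y), kap V k := by
        unfold uu
        rw [mu_eq_sum]
      rw [e2, sum_mul]
      refine sum_le_sum fun w hw => ?_
      have hwy := (mem_filter.1 hw).2
      refine mul_le_mul_of_nonneg_left ?_ kap_nonneg'
      exact add_le_add (mul_le_mul_of_nonneg_left (uu_le_DD tf hwy _) (hwe _ _ _))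
        (mul_le_mul_of_nonneg_left (uu_le_DD tf hwy _) (hwe _ _ _))
    refine le_trans (le_of_eq ?_) (sum_le_sum fun j _ => e1 j)
    have e3 : ∑ j : ZMod k, uu G k x j y * (we E (Ty G k x y) j * uu G k x (j + 1) y +
        we E (Ty G k x y) (j - 1) * uu G k x (j - 1) y) =
        ∑ j : ZMod k, we E (Ty G k x y) j * (uu G k x j y * uu G k x (j + 1) y) +
        ∑ j : ZMod k, we E (Ty G k x y) (j - 1) * (uu G k x (j - 1) y *
          uu G k x (j - 1 + 1) y) := by
      rw [← sum_add_distrib]
      refine sum_congr rfl fun j _ => ?_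
      rw [sub_add_cancel]
      ring
    rw [e3, hs1 (fun j => we E (Ty G k x y) j * (uu G k x j y * uu G k x (j + 1) y))]
    unfold edN
    rw [← sum_add_distrib]
    refine sum_congr rfl fun j _ => ?_
    rw [← uu_eq_N, ← uu_eq_N]
    ring
  -- exchange the sums
  have h3 : ∑ j : ZMod k, ∑ w ∈ T G k j x, kap V k * edT we j (NbM G k x w) E =
      -∑ y ∈ nonT G k x, kap V k * ∑ j : ZMod k,
        ∑ w ∈ (T G k j x).filter (fun w => G.Adj w y), kap V k *
        (we E (Ty G k x y) j * DD G k x (j + 1) w +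
          we E (Ty G k x y) (j - 1) * DD G k x (j - 1) w) := by
    simp_rw [mul_sum]
    rw [sum_comm (s := nonT G k x), ← sum_neg_distrib]
    refine sum_congr rfl fun j _ => ?_
    simp_rw [sum_filter]
    rw [sum_comm (s := nonT G k x), ← sum_neg_distrib]
    refine sum_congr rfl fun w _ => ?_
    rw [h1, sum_filter, mul_neg, mul_sum]
    congr 1
    refine sum_congr rfl fun y _ => ?_
    split_ifs
    · rfl
    · rw [mul_zero]
  rw [h3, ← sub_eq_add_neg, sub_nonpos]
  exact sum_le_sum fun y _ => mul_le_mul_of_nonneg_left (h2 y) kap_nonneg'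

theorem edge_hX {we : Env k → Finset (ZMod k) → ZMod k → ℝ} (hwe : ∀ E A l, 0 ≤ we E A l)
    (U : Type) [Fintype U] (G : SimpleGraph U)
    (tf : ∀ a b c : U, G.Adj a b → G.Adj b c → ¬ G.Adj a c) :
    ∑ x ∈ Cyc G k, (∑ y ∈ nonT G k x, kap U k * edN we (Ty G k x y) (NbM G k x y) (envX G k x) +
        ∑ j : ZMod k, ∑ w ∈ T G k j x, kap U k * edT we j (NbM G k x w) (envX G k x)) ≤ 0 :=
  sum_nonpos fun x _ => edge_functional tf hwe x

end

end

end Pool.Agent.ICyc.D
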