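import Pool.Agent.Lib.MP_131fce_co.D.FrameEQ2

/-!
# Induced k-cycles in triangle-free graphs: the prediction error of scheme E

`sW G w u z` is the `w`-weighted proportion of `N(u)` adjacent to `z` (a prediction of the
conditional probability `tw`), `hh` is the mean of the proportions of the two neighbouring classes.
The error `hh - sW` is a sum over the neighbours of `x j`; the part of the vertices outside the two
classes (`RR`) is bounded by Cauchy-Schwarz.
-/

set_option autoImplicit false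

namespace Pool.Agent.ICyc.D

open Finset Pool.Agent.ICyc
open scoped Classical

variable {V : Type} [Fintype V] {G : SimpleGraph V} {k : ℕ} [NeZero k]

/-- total weight of the neighbours -/
noncomputable def Ww (G : SimpleGraph V) (w : V → ℝ) (u : V) : ℝ := ∑ v ∈ nb G u, w v

/-- weighted proportion of the neighbours of `u` that are adjacent to `z` -/
noncomputable def sW (G : SimpleGraph V) (w : V → ℝ) (u z : V) : ℝ :=
  (∑ v ∈ nb G u, w v * adj G v z) / Ww G w u

/-- mean of the proportions of the two neighbouring classes -/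
noncomputable def hh (G : SimpleGraph V) (k : ℕ) [NeZero k] (x : ZMod k → V) (j : ZMod k)
    (z : V) : ℝ := (pD G k x (j - 1) z + pD G k x (j + 1) z) / 2

/-- neighbours of `x j` outside the two neighbouring classes -/
noncomputable def RR (G : SimpleGraph V) (k : ℕ) [NeZero k] (x : ZMod k → V) (j : ZMod k) :
    Finset V := (nb G (x j)).filter (fun y => y ∉ T G k (j - 1) x ∧ y ∉ T G k (j + 1) x)

/-- the part of the two neighbouring classes in the error -/
noncomputable def TP (G : SimpleGraph V) (k : ℕ) [NeZero k] (w : V → ℝ) (x : ZMod k → V)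
    (j : ZMod k) (z : V) : ℝ :=
  ∑ v ∈ T G k (j - 1) x, w v * (hh G k x j z - adj G v z) +
    ∑ v ∈ T G k (j + 1) x, w v * (hh G k x j z - adj G v z)

omit [Fintype V] in
lemma adj_zero_or_one (u z : V) : adj G u z = 0 ∨ adj G u z = 1 := by
  unfold adj
  split_ifs
  · exact Or.inr rfl
  · exact Or.inl rfl

omit [Fintype V] in
lemma adj_nonneg (u z : V) : 0 ≤ adj G u z := by
  rcases adj_zero_or_one (G := G) u z with h | h <;> linarith

omit [Fintype V] in
lemma adj_le_one (u z : V) : adj G u z ≤ 1 := by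
  rcases adj_zero_or_one (G := G) u z with h | h <;> linarith

omit [Fintype V] in
lemma adj_sq (u z : V) : adj G u z ^ 2 = adj G u z := by
  rcases adj_zero_or_one (G := G) u z with h | h <;> (rw [h]; norm_num)

lemma hh_nonneg (x : ZMod k → V) (j : ZMod k) (z : V) : 0 ≤ hh G k x j z := by
  have h1 := pD_nonneg (G := G) x (j - 1) z
  have h2 := pD_nonneg (G := G) x (j + 1) z
  unfold hh
  linarith

lemma hh_le_one (x : ZMod k → V) (j : ZMod k) (z : V) : hh G k x j z ≤ 1 := by
  have h1 := pD_le_one (G := G) x (j - 1) z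
  have h2 := pD_le_one (G := G) x (j + 1) z
  unfold hh
  linarith

omit [NeZero k] in
lemma Ww_nonneg {w : V → ℝ} (hw : ∀ v, 0 ≤ w v) (u : V) : 0 ≤ Ww G w u :=
  sum_nonneg fun v _ => hw v

omit [NeZero k] in
lemma sW_nonneg {w : V → ℝ} (hw : ∀ v, 0 ≤ w v) (u z : V) : 0 ≤ sW G w u z :=
  div_nonneg (sum_nonneg fun v _ => mul_nonneg (hw v) (adj_nonneg v z)) (Ww_nonneg hw u)

omit [NeZero k] in
lemma sW_le_one {w : V → ℝ} (hw : ∀ v, 0 ≤ w v) (u z : V) : sW G w u z ≤ 1 := by
  unfold sW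
  refine div_le_one_of_le₀ ?_ (Ww_nonneg hw u)
  exact sum_le_sum fun v _ => mul_le_of_le_one_right (hw v) (adj_le_one v z)

/-- the classes `j - 1`, `j + 1` consist of neighbours of `x j` -/
lemma T_sub_nb {x : ZMod k → V} {j l : ZMod k} (h : l - 1 = j ∨ l + 1 = j) :
    T G k l x ⊆ nb G (x j) := by
  intro v hv
  rw [bas_mem_nb, ← bas_mem_Ty, bas_mem_T.1 hv, mem_insert, mem_singleton]
  rcases h with h | h
  · exact Or.inl h.symm
  · exact Or.inr h.symm

/-- the neighbours of `x j` -/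
lemma nb_split (hk : 5 ≤ k) {x : ZMod k → V} (j : ZMod k) (f : V → ℝ) :
    ∑ v ∈ nb G (x j), f v = ∑ v ∈ T G k (j - 1) x, f v + ∑ v ∈ T G k (j + 1) x, f v +
      ∑ v ∈ RR G k x j, f v := by
  have hs1 : T G k (j - 1) x ⊆ nb G (x j) := T_sub_nb (Or.inr (by ring))
  have hs2 : T G k (j + 1) x ⊆ nb G (x j) := T_sub_nb (Or.inl (by ring))
  have hd : Disjoint (T G k (j - 1) x) (T G k (j + 1) x) := by
    rw [disjoint_left]
    intro v h1 h2
    exact sub_ne_add' hk j (T_disjoint hk h1 h2)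
  have hR : RR G k x j = nb G (x j) \ (T G k (j - 1) x ∪ T G k (j + 1) x) := by
    ext v
    unfold RR
    rw [mem_filter, mem_sdiff, mem_union, not_or]
  rw [hR, ← sum_union hd, add_comm, sum_sdiff (union_subset hs1 hs2)]

/-- the error as a sum over the neighbours -/
lemma err_id (hk : 5 ≤ k) {w : V → ℝ} {x : ZMod k → V} {j : ZMod k} (hW : Ww G w (x j) ≠ 0)
    (z : V) : Ww G w (x j) * (hh G k x j z - sW G w (x j) z) =
      TP G k w x j z + ∑ y ∈ RR G k x j, w y * (hh G k x j z - adj G y z) := by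
  unfold TP
  rw [← nb_split hk j (fun v => w v * (hh G k x j z - adj G v z))]
  unfold sW
  rw [mul_sub, mul_div_cancel₀ _ hW]
  unfold Ww
  rw [sum_mul, ← sum_sub_distrib]
  exact sum_congr rfl fun v _ => by ring

/-- Cauchy-Schwarz for the vertices outside the classes -/
lemma jensen_RR {w : V → ℝ} (hw : ∀ v, 0 ≤ w v) (S : Finset V) (X : V → ℝ) :
    (∑ y ∈ S, w y * X y) ^ 2 ≤ (∑ y ∈ S, w y) * ∑ y ∈ S, w y * X y ^ 2 := by
  have h := sum_mul_sq_le_sq_mul_sq S (fun y => Real.sqrt (w y)) (fun y => Real.sqrt (w y) * X y)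
  have e1 : ∀ y, Real.sqrt (w y) * (Real.sqrt (w y) * X y) = w y * X y := by
    intro y
    rw [← mul_assoc, Real.mul_self_sqrt (hw y)]
  have e2 : ∀ y, Real.sqrt (w y) ^ 2 = w y := fun y => Real.sq_sqrt (hw y)
  have e3 : ∀ y, (Real.sqrt (w y) * X y) ^ 2 = w y * X y ^ 2 := by
    intro y
    rw [mul_pow, e2]
  simp only [e1, e2, e3] at h
  exact h

/-- the error, Jensen form -/
theorem err_le (hk : 5 ≤ k) {w : V → ℝ} (hw : ∀ v, 0 ≤ w v) {x : ZMod k → V} {j : ZMod k}
    (hW : 0 < Ww G w (x j)) {e : ℝ} (he : 0 < e) (z : V) :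
    (hh G k x j z - sW G w (x j) z) ^ 2 ≤
      (1 / Ww G w (x j) ^ 2) * ((1 + e) * ((∑ y ∈ RR G k x j, w y) *
        ∑ y ∈ RR G k x j, w y * (hh G k x j z - adj G y z) ^ 2) +
        (1 + 1 / e) * TP G k w x j z ^ 2) := by
  have h1 := err_id hk (G := G) hW.ne' z
  set W := Ww G w (x j)
  set A := TP G k w x j z
  set B := ∑ y ∈ RR G k x j, w y * (hh G k x j z - adj G y z)
  have h2 : B ^ 2 ≤ (∑ y ∈ RR G k x j, w y) *
      ∑ y ∈ RR G k x j, w y * (hh G k x j z - adj G y z) ^ 2 :=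
    jensen_RR hw _ (fun y => hh G k x j z - adj G y z)
  have h3 : (A + B) ^ 2 ≤ (1 + e) * B ^ 2 + (1 + 1 / e) * A ^ 2 := by
    have h4 : 0 ≤ (e * B - A) ^ 2 / e := by positivity
    have h5 : (e * B - A) ^ 2 / e = e * B ^ 2 - 2 * A * B + 1 / e * A ^ 2 := by
      field_simp
      ring
    nlinarith
  have h6 : (hh G k x j z - sW G w (x j) z) ^ 2 = (1 / W ^ 2) * (A + B) ^ 2 := by
    rw [← h1]
    field_simp
  rw [h6]
  refine mul_le_mul_of_nonneg_left ?_ (by positivity)
  have h7 : 0 < 1 + e := by linarith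
  nlinarith [mul_le_mul_of_nonneg_left h2 h7.le]

/-- the error when the two classes have a vanishing part -/
theorem err_le' (hk : 5 ≤ k) {w : V → ℝ} (hw : ∀ v, 0 ≤ w v) {x : ZMod k → V} {j : ZMod k}
    (hW : 0 < Ww G w (x j)) (z : V) (hT : TP G k w x j z = 0) :
    (hh G k x j z - sW G w (x j) z) ^ 2 ≤
      (1 / Ww G w (x j) ^ 2) * ((∑ y ∈ RR G k x j, w y) *
        ∑ y ∈ RR G k x j, w y * (hh G k x j z - adj G y z) ^ 2) := by
  have h1 := err_id hk (G := G) hW.ne' z
  rw [hT, zero_add] at h1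
  set W := Ww G w (x j)
  set B := ∑ y ∈ RR G k x j, w y * (hh G k x j z - adj G y z)
  have h2 : B ^ 2 ≤ (∑ y ∈ RR G k x j, w y) *
      ∑ y ∈ RR G k x j, w y * (hh G k x j z - adj G y z) ^ 2 :=
    jensen_RR hw _ (fun y => hh G k x j z - adj G y z)
  have h6 : (hh G k x j z - sW G w (x j) z) ^ 2 = (1 / W ^ 2) * B ^ 2 := by
    rw [← h1]
    field_simp
  rw [h6]
  exact mul_le_mul_of_nonneg_left h2 (by positivity)

/-- one class, constant weight -/
lemma T_part (hk : 5 ≤ k) {x : ZMod k → V} (hx : x ∈ Cyc G k) (l : ZMod k) (z : V) (h : ℝ) :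
    ∑ v ∈ T G k l x, (h - adj G v z) = ((T G k l x).card : ℝ) * (h - pD G k x l z) := by
  have hc : (0 : ℝ) < ((T G k l x).card : ℝ) := by
    exact_mod_cast card_pos.2 ⟨x l, self_mem_T hk hx l⟩
  rw [sum_sub_distrib, sum_const, nsmul_eq_mul]
  unfold adj pD
  rw [Finset.sum_boole]
  field_simp

/-- the part of the two classes for the constant weight -/
lemma TP_const (hk : 5 ≤ k) {x : ZMod k → V} (hx : x ∈ Cyc G k) (j : ZMod k) (z : V) (c : ℝ) :
    TP G k (fun _ => c) x j z = c * ((((T G k (j + 1) x).card : ℝ) -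
      ((T G k (j - 1) x).card : ℝ)) / 2 * (pD G k x (j - 1) z - pD G k x (j + 1) z)) := by
  unfold TP
  rw [← mul_sum, ← mul_sum, T_part hk hx, T_part hk hx]
  unfold hh
  ring

/-- the part of the two classes: constant weight plus the defect of the weight -/
lemma TP_eq (hk : 5 ≤ k) {x : ZMod k → V} (hx : x ∈ Cyc G k) (j : ZMod k) (z : V) (w : V → ℝ) :
    TP G k w x j z = (((T G k (j + 1) x).card : ℝ) -
      ((T G k (j - 1) x).card : ℝ)) / 2 * (pD G k x (j - 1) z - pD G k x (j + 1) z) -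
      (∑ v ∈ T G k (j - 1) x, (1 - w v) * (hh G k x j z - adj G v z) +
        ∑ v ∈ T G k (j + 1) x, (1 - w v) * (hh G k x j z - adj G v z)) := by
  have h := TP_const hk hx j z 1
  rw [one_mul] at h
  rw [← h]
  unfold TP
  simp only [one_mul, sub_mul, sum_sub_distrib]
  ring

/-! ### the charge of a vertex -/

/-- squared distance of the neighbourhood of `y` to the profile `hh` of the position `j` -/
noncomputable def qq2 (G : SimpleGraph V) (k : ℕ) [NeZero k] (om : V → V → ℝ) (x : ZMod k → V)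
    (j : ZMod k) (y : V) : ℝ :=
  kap V k * ∑ z : V, om (x j) z * (hh G k x j z - adj G y z) ^ 2

/-- the total error of the position `j` -/
theorem sum_err_le (hk : 5 ≤ k) {om : V → V → ℝ} (hom : ∀ u v, 0 ≤ om u v) {w : V → ℝ}
    (hw : ∀ v, 0 ≤ w v) {x : ZMod k → V} {j : ZMod k} (hW : 0 < Ww G w (x j)) {e : ℝ}
    (he : 0 < e) :
    kap V k * ∑ z : V, om (x j) z * (hh G k x j z - sW G w (x j) z) ^ 2 ≤
      (1 / Ww G w (x j) ^ 2) * ((1 + e) * ((∑ y ∈ RR G k x j, w y) *
        ∑ y ∈ RR G k x j, w y * qq2 G k om x j y) +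
        (1 + 1 / e) * (kap V k * ∑ z : V, om (x j) z * TP G k w x j z ^ 2)) := by
  have h1 : ∑ z : V, om (x j) z * (hh G k x j z - sW G w (x j) z) ^ 2 ≤
      ∑ z : V, om (x j) z * ((1 / Ww G w (x j) ^ 2) * ((1 + e) * ((∑ y ∈ RR G k x j, w y) *
        ∑ y ∈ RR G k x j, w y * (hh G k x j z - adj G y z) ^ 2) +
        (1 + 1 / e) * TP G k w x j z ^ 2)) :=
    sum_le_sum fun z _ => mul_le_mul_of_nonneg_left (err_le hk hw hW he z) (hom _ _)
  refine (mul_le_mul_of_nonneg_left h1 kap_nonneg).trans (le_of_eq ?_)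
  have h2 : ∑ y ∈ RR G k x j, w y * qq2 G k om x j y = kap V k * ∑ z : V, om (x j) z *
      ∑ y ∈ RR G k x j, w y * (hh G k x j z - adj G y z) ^ 2 := by
    unfold qq2
    simp only [mul_sum]
    rw [sum_comm]
    refine sum_congr rfl fun z _ => sum_congr rfl fun y _ => ?_
    ring
  have key : ∀ (c S : ℝ) (Q R : V → ℝ), kap V k * ∑ z : V, om (x j) z * (c * ((1 + e) *
      (S * Q z) + (1 + 1 / e) * R z)) = c * ((1 + e) * (S * (kap V k * ∑ z : V, om (x j) z * Q z)) +
      (1 + 1 / e) * (kap V k * ∑ z : V, om (x j) z * R z)) := by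
    intro c S Q R
    have e1 : ∑ z : V, om (x j) z * (c * ((1 + e) * (S * Q z) + (1 + 1 / e) * R z)) =
        c * (1 + e) * S * ∑ z : V, om (x j) z * Q z +
        c * (1 + 1 / e) * ∑ z : V, om (x j) z * R z := by
      rw [mul_sum, mul_sum, ← sum_add_distrib]
      exact sum_congr rfl fun z _ => by ring
    rw [e1]
    ring
  rw [h2]
  exact key _ _ (fun z => ∑ y ∈ RR G k x j, w y * (hh G k x j z - adj G y z) ^ 2)
    (fun z => TP G k w x j z ^ 2)

/-- the charge, expanded -/
lemma qq2_eq (om : V → V → ℝ) (x : ZMod k → V) (j : ZMod k) (y : V) :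
    qq2 G k om x j y = kap V k * ∑ z : V, om (x j) z * hh G k x j z ^ 2 +
      kap V k * ∑ z : V, om (x j) z * (adj G y z * (1 - 2 * hh G k x j z)) := by
  unfold qq2
  rw [← mul_add, ← sum_add_distrib]
  congr 1
  refine sum_congr rfl fun z _ => ?_
  have h := adj_sq (G := G) y z
  linear_combination om (x j) z * h

end Pool.Agent.ICyc.D
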