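import Pool.Agent.Lib.MP_131fce_co.Defs

/-!
# Optimal weights (MP_131fce_co)

If some triangle-free graph has more than `(n/k)^k` induced `k`-cycles, then there is a constant `c > 1` and, for every
`η > 0`, a triangle-free graph `H` with `NN H * kap ^ k ≥ 2 k c` in which every vertex lies in the right number of
labelled cycles up to a factor `1 ± η`: a blow-up of the first graph with weights close to the maximiser of the cycle
polynomial on the simplex.
-/

set_option autoImplicit false

namespace Pool.Agent.ICyc.D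

open Finset Filter Topology
open scoped Classical

noncomputable section

variable {V : Type} [Fintype V] (G : SimpleGraph V) (k : ℕ) [NeZero k]

/-- the cycle polynomial -/
def PW (w : V → ℝ) : ℝ := ∑ x ∈ Cyc G k, ∏ j : ZMod k, w (x j)

/-- its partial derivatives -/
def DW (w : V → ℝ) (v : V) : ℝ :=
  ∑ x ∈ Cyc G k, ∑ j : ZMod k, if x j = v then ∏ i ∈ univ.erase j, w (x i) else 0

theorem continuous_PW : Continuous (PW G k) := by
  unfold PW
  fun_prop

theorem continuous_DW (v : V) : Continuous (fun w => DW G k w v) := by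
  unfold DW
  refine continuous_finsetSum _ fun x _ => continuous_finsetSum _ fun j _ => ?_
  split_ifs <;> fun_prop

theorem PW_nonneg (w : V → ℝ) (hw : ∀ v, 0 ≤ w v) : 0 ≤ PW G k w :=
  sum_nonneg fun _ _ => prod_nonneg fun _ _ => hw _

theorem sum_DW (w : V → ℝ) : ∑ v, w v * DW G k w v = k * PW G k w := by
  unfold DW PW
  simp only [mul_sum]
  rw [sum_comm]
  refine sum_congr rfl fun x _ => ?_
  rw [sum_comm]
  have h : ∀ j : ZMod k, (∑ v : V, w v * if x j = v then ∏ i ∈ univ.erase j, w (x i) else 0) =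
      ∏ i : ZMod k, w (x i) := by
    intro j
    rw [Finset.sum_eq_single (x j)]
    · rw [if_pos rfl]
      exact mul_prod_erase univ (fun i => w (x i)) (mem_univ j)
    · intro v _ hv
      rw [if_neg (Ne.symm hv), mul_zero]
    · intro h; exact absurd (mem_univ _) h
  rw [sum_congr rfl fun j _ => h j]
  simp [ZMod.card]

theorem PW_smul (c : ℝ) (w : V → ℝ) : PW G k (fun v => c * w v) = c ^ k * PW G k w := by
  unfold PW
  rw [mul_sum]
  refine sum_congr rfl fun x _ => ?_
  rw [prod_mul_distrib]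
  simp [ZMod.card]

theorem DW_smul (c : ℝ) (w : V → ℝ) (v : V) :
    DW G k (fun v => c * w v) v = c ^ (k - 1) * DW G k w v := by
  unfold DW
  rw [mul_sum]
  refine sum_congr rfl fun x _ => ?_
  rw [mul_sum]
  refine sum_congr rfl fun j _ => ?_
  split_ifs
  · rw [prod_mul_distrib]
    simp [ZMod.card, card_erase_of_mem]
  · simp

theorem hasDerivAt_PW (w d : V → ℝ) :
    HasDerivAt (fun t : ℝ => PW G k (fun v => w v + t * d v)) (∑ v, d v * DW G k w v) 0 := by
  have h1 : (∑ v, d v * DW G k w v) =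
      ∑ x ∈ Cyc G k, ∑ j : ZMod k, (∏ i ∈ univ.erase j, (w (x i) + 0 * d (x i))) • d (x j) := by
    unfold DW
    simp only [mul_sum]
    rw [sum_comm]
    refine sum_congr rfl fun x _ => ?_
    rw [sum_comm]
    refine sum_congr rfl fun j _ => ?_
    rw [Finset.sum_eq_single (x j)]
    · rw [if_pos rfl]
      simp [mul_comm]
    · intro v _ hv
      rw [if_neg (Ne.symm hv), mul_zero]
    · intro h; exact absurd (mem_univ _) h
  rw [h1]
  unfold PW
  refine HasDerivAt.fun_sum fun x _ => ?_
  refine HasDerivAt.fun_finsetProd (u := univ) (f := fun (j : ZMod k) (t : ℝ) => w (x j) + t * d (x j))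
    (f' := fun j => d (x j)) fun j _ => ?_
  have := ((hasDerivAt_id (0 : ℝ)).mul_const (d (x j))).const_add (w (x j))
  simpa using this

/-- the maximiser -/
theorem exists_max [Nonempty V] : ∃ w : V → ℝ, (∀ v, 0 ≤ w v) ∧ ∑ v, w v = 1 ∧
    ∀ w' : V → ℝ, (∀ v, 0 ≤ w' v) → ∑ v, w' v = 1 → PW G k w' ≤ PW G k w := by
  obtain ⟨w, hw, hmax⟩ := (isCompact_stdSimplex ℝ V).exists_isMaxOn
    ⟨fun _ => 1 / (Fintype.card V : ℝ), by
      refine ⟨fun _ => by positivity, ?_⟩
      simp⟩ (continuous_PW G k).continuousOn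
  exact ⟨w, hw.1, hw.2, fun w' h1 h2 => hmax ⟨h1, h2⟩⟩

/-- Lagrange condition -/
theorem kkt (w : V → ℝ) (h0 : ∀ v, 0 ≤ w v) (h1 : ∑ v, w v = 1)
    (hmax : ∀ w' : V → ℝ, (∀ v, 0 ≤ w' v) → ∑ v, w' v = 1 → PW G k w' ≤ PW G k w) (v : V)
    (hv : 0 < w v) : DW G k w v = k * PW G k w := by
  have key : ∀ u v : V, 0 < w u → 0 < w v → DW G k w u = DW G k w v := by
    intro u v hu hv
    by_cases huv : u = v
    · rw [huv]
    set d : V → ℝ := fun a => (if a = u then 1 else 0) - (if a = v then 1 else 0) with hd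
    have hder := hasDerivAt_PW G k w d
    have hloc : IsLocalMax (fun t : ℝ => PW G k (fun v => w v + t * d v)) 0 := by
      have hε : ∀ᶠ t : ℝ in 𝓝 0, |t| < min (w u) (w v) := by
        have : Tendsto (fun t : ℝ => |t|) (𝓝 0) (𝓝 0) := by
          simpa using (continuous_abs.tendsto (0 : ℝ))
        exact this.eventually (gt_mem_nhds (lt_min hu hv))
      filter_upwards [hε] with t ht
      simp only [zero_mul, add_zero]
      refine hmax _ ?_ ?_
      · intro a
        have h3 : |t| < w u := lt_of_lt_of_le ht (min_le_left _ _)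
        have h4 : |t| < w v := lt_of_lt_of_le ht (min_le_right _ _)
        have h5 := abs_lt.mp h3
        have h6 := abs_lt.mp h4
        simp only [hd]
        by_cases ha : a = u
        · subst ha
          rw [if_pos rfl, if_neg huv]
          linarith [h5.1]
        · rw [if_neg ha]
          by_cases hb : a = v
          · subst hb
            rw [if_pos rfl]
            linarith [h6.2]
          · rw [if_neg hb]
            simpa using h0 a
      · rw [sum_add_distrib, h1, ← mul_sum, hd]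
        simp [sum_sub_distrib]
    have hz := hloc.hasDerivAt_eq_zero hder
    have h7 : (∑ a, d a * DW G k w a) = DW G k w u - DW G k w v := by
      simp only [hd, sub_mul, sum_sub_distrib]
      simp
    rw [h7] at hz
    linarith
  have h2 := sum_DW G k w
  have h3 : ∑ u, w u * DW G k w u = ∑ u, w u * DW G k w v := by
    refine sum_congr rfl fun u _ => ?_
    rcases (h0 u).eq_or_lt with h | h
    · rw [← h]; simp
    · rw [key u v h hv]
  rw [h3, ← sum_mul, h1, one_mul] at h2
  exact h2

section blowup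

variable {U : Type} [Fintype U] (π : U → V)

/-- size of the fibre of the blow-up -/
def fibc (v : V) : ℝ := ((univ.filter (fun u : U => π u = v)).card : ℝ)

theorem mem_Cyc_comap (x' : ZMod k → U) : x' ∈ Cyc (G.comap π) k ↔ (fun i => π (x' i)) ∈ Cyc G k := by
  unfold Cyc
  rw [mem_filter, mem_filter]
  exact ⟨fun h => ⟨mem_univ _, h.2⟩, fun h => ⟨mem_univ _, h.2⟩⟩

theorem fiber_eq (x : ZMod k → V) (hx : x ∈ Cyc G k) :
    (Cyc (G.comap π) k).filter (fun x' => (fun i => π (x' i)) = x) =
      Fintype.piFinset (fun i => univ.filter (fun u : U => π u = x i)) := by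
  ext x'
  rw [mem_filter, mem_Cyc_comap, Fintype.mem_piFinset]
  constructor
  · rintro ⟨_, h⟩ i
    rw [mem_filter]
    exact ⟨mem_univ _, congrFun h i⟩
  · intro h
    have h2 : (fun i => π (x' i)) = x := funext fun i => (mem_filter.mp (h i)).2
    rw [h2]
    exact ⟨hx, rfl⟩

theorem sum_Cyc_comap (f : (ZMod k → U) → ℝ) :
    ∑ x' ∈ Cyc (G.comap π) k, f x' =
      ∑ x ∈ Cyc G k, ∑ x' ∈ Fintype.piFinset (fun i => univ.filter (fun u : U => π u = x i)), f x' := by
  rw [← sum_fiberwise_of_maps_to (s := Cyc (G.comap π) k) (t := Cyc G k)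
    (g := fun x' => (fun i => π (x' i))) (fun x' h => (mem_Cyc_comap G k π x').mp h)]
  refine sum_congr rfl fun x hx => ?_
  rw [fiber_eq G k π x hx]

theorem NN_comap : NN (G.comap π) k = PW G k (fibc π) := by
  have h : NN (G.comap π) k = ∑ x' ∈ Cyc (G.comap π) k, (1 : ℝ) := by
    rw [NN, sum_const, nsmul_eq_mul, mul_one]
  rw [h, sum_Cyc_comap]
  unfold PW fibc
  refine sum_congr rfl fun x _ => ?_
  rw [sum_const, Fintype.card_piFinset, nsmul_eq_mul, mul_one, Nat.cast_prod]

omit [Fintype U] in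
theorem card_fix (s : ZMod k → Finset U) (j : ZMod k) (u : U) :
    (((Fintype.piFinset s).filter (fun x' => x' j = u)).card : ℝ) =
      if u ∈ s j then ∏ i ∈ univ.erase j, ((s i).card : ℝ) else 0 := by
  have h1 : (Fintype.piFinset s).filter (fun x' => x' j = u) =
      Fintype.piFinset (fun i => if i = j then s j ∩ {u} else s i) := by
    ext x'
    rw [mem_filter, Fintype.mem_piFinset, Fintype.mem_piFinset]
    constructor
    · rintro ⟨h, hj⟩ i
      by_cases hi : i = j
      · subst hi
        rw [if_pos rfl, mem_inter, mem_singleton]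
        exact ⟨h i, hj⟩
      · rw [if_neg hi]
        exact h i
    · intro h
      have hj := h j
      rw [if_pos rfl, mem_inter, mem_singleton] at hj
      refine ⟨fun i => ?_, hj.2⟩
      by_cases hi : i = j
      · subst hi
        exact hj.1
      · have := h i
        rwa [if_neg hi] at this
  rw [h1, Fintype.card_piFinset, Nat.cast_prod, ← mul_prod_erase univ _ (mem_univ j)]
  rw [if_pos rfl]
  have h2 : ∀ i ∈ univ.erase j, (((if i = j then s j ∩ {u} else s i : Finset U).card : ℕ) : ℝ) =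
      ((s i).card : ℝ) := by
    intro i hi
    rw [if_neg (ne_of_mem_erase hi)]
  rw [prod_congr rfl h2]
  by_cases hu : u ∈ s j
  · rw [if_pos hu]
    have : s j ∩ {u} = {u} := by
      rw [inter_eq_right, singleton_subset_iff]
      exact hu
    rw [this, card_singleton]
    simp
  · rw [if_neg hu]
    have : s j ∩ {u} = ∅ := by
      rw [← disjoint_iff_inter_eq_empty, disjoint_singleton_right]
      exact hu
    rw [this, card_empty]
    simp

/-- the cycle polynomial of a blow-up -/
theorem PW_comap (g : U → ℝ) :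
    PW (G.comap π) k g = PW G k (fun v => ∑ u ∈ univ.filter (fun u : U => π u = v), g u) := by
  unfold PW
  rw [sum_Cyc_comap]
  refine sum_congr rfl fun x _ => ?_
  rw [prod_univ_sum]

/-- number of incidences of a vertex with labelled cycles -/
def inc (H : SimpleGraph U) (u : U) : ℝ := ∑ x ∈ Cyc H k, ∑ j : ZMod k, if x j = u then (1 : ℝ) else 0

theorem inc_comap (u : U) : inc k (G.comap π) u = DW G k (fibc π) (π u) := by
  unfold inc
  rw [sum_Cyc_comap]
  unfold DW fibc
  refine sum_congr rfl fun x _ => ?_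
  rw [sum_comm]
  refine sum_congr rfl fun j _ => ?_
  rw [← sum_filter, sum_const, nsmul_eq_mul, mul_one,
    card_fix k (fun i => univ.filter (fun u : U => π u = x i)) j u]
  by_cases h : x j = π u
  · rw [if_pos h, if_pos (by rw [mem_filter]; exact ⟨mem_univ _, h.symm⟩)]
  · rw [if_neg h, if_neg (by rw [mem_filter]; exact fun h' => h h'.2.symm)]

end blowup

theorem PW_le_of_max (w : V → ℝ) (hmax : ∀ w' : V → ℝ, (∀ v, 0 ≤ w' v) → ∑ v, w' v = 1 → PW G k w' ≤ PW G k w)
    (g : V → ℝ) (hg : ∀ v, 0 ≤ g v) : PW G k g ≤ PW G k w * (∑ v, g v) ^ k := by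
  have hk0 : k ≠ 0 := NeZero.ne k
  rcases (sum_nonneg fun v (_ : v ∈ (univ : Finset V)) => hg v).eq_or_lt with h | h
  · have h2 : ∀ v, g v = 0 := fun v =>
      (sum_eq_zero_iff_of_nonneg fun v (_ : v ∈ (univ : Finset V)) => hg v).mp h.symm v (mem_univ v)
    have h3 : PW G k g = 0 := by
      unfold PW
      refine sum_eq_zero fun x _ => prod_eq_zero (mem_univ (0 : ZMod k)) (h2 _)
    rw [h3, ← h, zero_pow hk0, mul_zero]
  · have h4 := hmax (fun v => (∑ v, g v)⁻¹ * g v) (fun v => mul_nonneg (inv_nonneg.mpr h.le) (hg v)) (by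
      rw [← mul_sum]
      exact inv_mul_cancel₀ h.ne')
    rw [PW_smul, inv_pow] at h4
    have h5 : 0 < (∑ v, g v) ^ k := by positivity
    calc PW G k g = (((∑ v, g v) ^ k)⁻¹ * PW G k g) * (∑ v, g v) ^ k := by
          field_simp
      _ ≤ PW G k w * (∑ v, g v) ^ k := mul_le_mul_of_nonneg_right h4 h5.le

variable {G} {k}

theorem near_opt_full (tf : ∀ a b c : V, G.Adj a b → G.Adj b c → ¬ G.Adj a c)
    (h : 2 * (k : ℝ) < NN G k * kap V k ^ k) :
    ∃ c : ℝ, 1 < c ∧ ∀ η : ℝ, 0 < η → ∃ (U : Type) (_ : Fintype U) (H : SimpleGraph U),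
      (∀ a b c : U, H.Adj a b → H.Adj b c → ¬ H.Adj a c) ∧
      2 * (k : ℝ) * c ≤ NN H k * kap U k ^ k ∧
      (∀ u : U, |inc k H u - NN H k * kap U k| ≤ η * (NN H k * kap U k)) ∧
      ∀ g : U → ℝ, (∀ u, 0 ≤ g u) → PW H k g ≤ (1 + η) * NN H k * ((∑ u, g u) / Fintype.card U) ^ k := by
  have hk0 : 0 < k := Nat.pos_of_ne_zero (NeZero.ne k)
  have hk : (0 : ℝ) < k := by exact_mod_cast hk0
  have hNN : NN G k ≠ 0 := by
    intro h0
    rw [h0, zero_mul] at h
    linarith
  have hV : Nonempty V := by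
    by_contra hV
    apply hNN
    have : Cyc G k = ∅ := by
      rw [← not_nonempty_iff_eq_empty]
      rintro ⟨x, _⟩
      exact hV ⟨x 0⟩
    rw [NN, this]
    simp
  obtain ⟨w, h0, h1, hmax⟩ := exists_max G k
  set P0 := PW G k w with hP0
  have hm : (0 : ℝ) < Fintype.card V := by exact_mod_cast Fintype.card_pos
  have hP1 : 2 * (k : ℝ) < P0 * (k : ℝ) ^ k := by
    have h2 := hmax (fun _ => 1 / (Fintype.card V : ℝ)) (fun _ => by positivity) (by simp)
    have h3 : PW G k (fun _ => 1 / (Fintype.card V : ℝ)) = NN G k * (1 / (Fintype.card V : ℝ)) ^ k := by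
      unfold PW NN
      simp [ZMod.card]
    rw [h3] at h2
    calc 2 * (k : ℝ) < NN G k * kap V k ^ k := h
      _ = (NN G k * (1 / (Fintype.card V : ℝ)) ^ k) * (k : ℝ) ^ k := by
          unfold kap
          rw [mul_assoc, ← mul_pow]
          congr 2
          field_simp
      _ ≤ P0 * (k : ℝ) ^ k := mul_le_mul_of_nonneg_right h2 (by positivity)
  have hP0pos : 0 < P0 := by
    by_contra hn
    push Not at hn
    have : P0 * (k : ℝ) ^ k ≤ 0 := mul_nonpos_of_nonpos_of_nonneg hn (by positivity)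
    linarith
  set c0 := P0 * (k : ℝ) ^ k / (2 * k) with hc0
  have hc0' : 1 < c0 := by
    rw [hc0, lt_div_iff₀ (by positivity)]
    linarith
  have hcc : 2 * (k : ℝ) * c0 = P0 * (k : ℝ) ^ k := by
    rw [hc0]
    field_simp
  refine ⟨(1 + c0) / 2, by linarith, fun η hη => ?_⟩
  -- the approximating weights
  set a : ℕ → V → ℝ := fun N v => (⌊w v * (N : ℝ)⌋₊ : ℝ) / (N : ℝ) with ha
  have ta : ∀ v, Tendsto (fun N => a N v) atTop (𝓝 (w v)) := fun v =>
    (tendsto_nat_floor_mul_div_atTop (h0 v)).comp tendsto_natCast_atTop_atTop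
  have ta' : Tendsto a atTop (𝓝 w) := tendsto_pi_nhds.mpr ta
  have tP : Tendsto (fun N => PW G k (a N)) atTop (𝓝 P0) :=
    ((continuous_PW G k).tendsto w).comp ta'
  have tD : ∀ v, Tendsto (fun N => DW G k (a N) v) atTop (𝓝 (DW G k w v)) := fun v =>
    ((continuous_DW G k v).tendsto w).comp ta'
  have tS : Tendsto (fun N => ∑ v, a N v) atTop (𝓝 1) := by
    rw [← h1]
    exact tendsto_finsetSum _ fun v _ => ta v
  have tK : Tendsto (fun N => (k : ℝ) / ∑ v, a N v) atTop (𝓝 (k : ℝ)) := by
    have t0 := (tendsto_const_nhds (x := (k : ℝ)) (f := (atTop : Filter ℕ))).div tS one_ne_zero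
    rw [div_one] at t0
    exact t0
  have eA : ∀ᶠ N in atTop, 2 * (k : ℝ) * ((1 + c0) / 2) < PW G k (a N) * ((k : ℝ) / ∑ v, a N v) ^ k := by
    have t1 : Tendsto (fun N => PW G k (a N) * ((k : ℝ) / ∑ v, a N v) ^ k) atTop
        (𝓝 (P0 * (k : ℝ) ^ k)) := tP.mul (tK.pow k)
    refine t1.eventually (lt_mem_nhds ?_)
    rw [← hcc]
    have : (1 + c0) / 2 < c0 := by linarith
    exact mul_lt_mul_of_pos_left this (by positivity)
  have eB : ∀ᶠ N in atTop, ∀ v, 0 < w v →
      |DW G k (a N) v - PW G k (a N) * ((k : ℝ) / ∑ v, a N v)| ≤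
        η * (PW G k (a N) * ((k : ℝ) / ∑ v, a N v)) := by
    rw [eventually_all]
    intro v
    by_cases hv : 0 < w v
    · have t1 : Tendsto (fun N => |DW G k (a N) v - PW G k (a N) * ((k : ℝ) / ∑ v, a N v)|) atTop
          (𝓝 0) := by
        have t2 := ((tD v).sub (tP.mul tK)).abs
        rw [kkt G k w h0 h1 hmax v hv, ← hP0] at t2
        have : |(k : ℝ) * P0 - P0 * k| = 0 := by
          rw [abs_eq_zero]; ring
        rwa [this] at t2
      have t3 : Tendsto (fun N => η * (PW G k (a N) * ((k : ℝ) / ∑ v, a N v))) atTop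
          (𝓝 (η * (P0 * k))) := (tP.mul tK).const_mul η
      have t4 : 0 < η * (P0 * k) := by positivity
      filter_upwards [t1.eventually (gt_mem_nhds (half_pos t4)),
        t3.eventually (lt_mem_nhds (half_lt_self t4))] with N h5 h6 _
      linarith
    · exact Eventually.of_forall fun N hv' => absurd hv' hv
  have eC : ∀ᶠ N in atTop, 1 / 2 < ∑ v, a N v := tS.eventually (lt_mem_nhds (by norm_num))
  have eD : ∀ᶠ N in atTop, P0 < (1 + η) * (PW G k (a N) * (1 / ∑ v, a N v) ^ k) := by
    have t1 : Tendsto (fun N => (1 + η) * (PW G k (a N) * (1 / ∑ v, a N v) ^ k)) atTop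
        (𝓝 ((1 + η) * (P0 * (1 / 1) ^ k))) :=
      (tP.mul (((tendsto_const_nhds (x := (1 : ℝ)) (f := (atTop : Filter ℕ))).div tS one_ne_zero).pow k)).const_mul _
    refine t1.eventually (lt_mem_nhds ?_)
    rw [div_one, one_pow, mul_one]
    nlinarith
  obtain ⟨N, hA, hB, hC, hD, hN⟩ := (eA.and (eB.and (eC.and (eD.and (eventually_ge_atTop 1))))).exists
  have hN' : (0 : ℝ) < N := by exact_mod_cast hN
  -- the blow-up
  let U := Σ v : V, Fin ⌊w v * (N : ℝ)⌋₊
  let π : U → V := Sigma.fst
  have hfib : fibc π = fun v => (N : ℝ) * a N v := by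
    funext v
    have h5 : (univ.filter (fun u : U => π u = v)).card = ⌊w v * (N : ℝ)⌋₊ := by
      have h6 : univ.filter (fun u : U => π u = v) =
          (univ : Finset (Fin ⌊w v * (N : ℝ)⌋₊)).map ⟨fun b => (⟨v, b⟩ : U), by
            intro b b' hb
            simpa using hb⟩ := by
        ext u
        rw [mem_filter, Finset.mem_map]
        constructor
        · rintro ⟨_, rfl⟩
          exact ⟨u.2, mem_univ _, rfl⟩
        · rintro ⟨b, _, rfl⟩
          exact ⟨mem_univ _, rfl⟩
      rw [h6, card_map, card_univ, Fintype.card_fin]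
    show ((univ.filter (fun u : U => π u = v)).card : ℝ) = _
    rw [h5, ha]
    field_simp
  have hcard : (Fintype.card U : ℝ) = N * ∑ v, a N v := by
    have : Fintype.card U = ∑ v, ⌊w v * (N : ℝ)⌋₊ := by
      rw [Fintype.card_sigma]
      simp
    rw [this, Nat.cast_sum, mul_sum]
    refine sum_congr rfl fun v _ => ?_
    rw [ha]
    field_simp
  have hNNH : NN (G.comap π) k = (N : ℝ) ^ k * PW G k (a N) := by
    rw [NN_comap, hfib, PW_smul]
  have hkap : kap U k = ((k : ℝ) / ∑ v, a N v) / N := by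
    have hS : (∑ v, a N v) ≠ 0 := by linarith
    unfold kap
    rw [hcard]
    field_simp
  have hpw : (N : ℝ) ^ k = (N : ℝ) ^ (k - 1) * N := by
    rw [← pow_succ]
    congr 1
    omega
  have hNK : NN (G.comap π) k * kap U k =
      (N : ℝ) ^ (k - 1) * (PW G k (a N) * ((k : ℝ) / ∑ v, a N v)) := by
    rw [hNNH, hkap, hpw]
    field_simp
  refine ⟨U, inferInstance, G.comap π, ?_, ?_, ?_, ?_⟩
  · intro x y z hxy hyz hxz
    exact tf _ _ _ hxy hyz hxz
  · rw [hNNH, hkap, div_pow]
    have : (N : ℝ) ^ k * PW G k (a N) * (((k : ℝ) / ∑ v, a N v) ^ k / (N : ℝ) ^ k) =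
        PW G k (a N) * ((k : ℝ) / ∑ v, a N v) ^ k := by
      have hNk : (N : ℝ) ^ k ≠ 0 := by positivity
      field_simp
    rw [this]
    exact hA.le
  · intro u
    have hv : 0 < w (π u) := by
      rcases (h0 (π u)).eq_or_lt with h5 | h5
      · exfalso
        have h6 := u.2.2
        have h7 : ⌊w (π u) * (N : ℝ)⌋₊ = 0 := by
          rw [← h5]
          simp
        have h8 : (u.2 : ℕ) < ⌊w (π u) * (N : ℝ)⌋₊ := h6
        omega
      · exact h5
    rw [inc_comap, hfib, DW_smul, hNK, ← mul_sub, abs_mul, abs_of_pos (by positivity : (0 : ℝ) < (N : ℝ) ^ (k - 1))]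
    calc (N : ℝ) ^ (k - 1) * |DW G k (a N) (π u) - PW G k (a N) * ((k : ℝ) / ∑ v, a N v)|
        ≤ (N : ℝ) ^ (k - 1) * (η * (PW G k (a N) * ((k : ℝ) / ∑ v, a N v))) :=
          mul_le_mul_of_nonneg_left (hB _ hv) (by positivity)
      _ = _ := by ring
  · intro g hg
    have hS : (∑ v, a N v) ≠ 0 := by linarith
    have h5 : PW (G.comap π) k g ≤ P0 * (∑ u, g u) ^ k := by
      rw [PW_comap]
      have h6 := PW_le_of_max G k w hmax (fun v => ∑ u ∈ univ.filter (fun u : U => π u = v), g u)
        (fun v => sum_nonneg fun u _ => hg u)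
      have h7 : ∑ v, ∑ u ∈ univ.filter (fun u : U => π u = v), g u = ∑ u, g u :=
        sum_fiberwise_of_maps_to (s := univ) (t := univ) (g := π) (fun u _ => mem_univ _) g
      rw [h7] at h6
      exact h6
    refine le_trans h5 ?_
    have h8 : 0 ≤ (∑ u, g u) ^ k := pow_nonneg (sum_nonneg fun u _ => hg u) k
    refine le_trans (mul_le_mul_of_nonneg_right hD.le h8) (le_of_eq ?_)
    rw [hNNH, hcard, div_pow, div_pow, mul_pow, one_pow]
    have hNk : (N : ℝ) ^ k ≠ 0 := by positivity
    have hSk : (∑ v, a N v) ^ k ≠ 0 := pow_ne_zero _ hS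
    field_simp

theorem near_opt (tf : ∀ a b c : V, G.Adj a b → G.Adj b c → ¬ G.Adj a c)
    (h : 2 * (k : ℝ) < NN G k * kap V k ^ k) :
    ∃ c : ℝ, 1 < c ∧ ∀ η : ℝ, 0 < η → ∃ (U : Type) (_ : Fintype U) (H : SimpleGraph U),
      (∀ a b c : U, H.Adj a b → H.Adj b c → ¬ H.Adj a c) ∧
      2 * (k : ℝ) * c ≤ NN H k * kap U k ^ k ∧
      ∀ u : U, |inc k H u - NN H k * kap U k| ≤ η * (NN H k * kap U k) := by
  obtain ⟨c, hc, hη⟩ := near_opt_full tf h
  refine ⟨c, hc, fun η h0 => ?_⟩
  obtain ⟨U, i, H, h1, h2, h3, _⟩ := hη η h0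
  exact ⟨U, i, H, h1, h2, h3⟩

section identities

variable {U : Type} [Fintype U] {H : SimpleGraph U}

theorem NN_nonneg' : 0 ≤ NN H k := Nat.cast_nonneg _

omit [NeZero k] in
theorem kap_nonneg_opt : 0 ≤ kap U k := div_nonneg (Nat.cast_nonneg _) (Nat.cast_nonneg _)

/-- identity L1 (up to a factor `η`): the sum of `g` over a random cycle is the integral of `g` -/
theorem l1 {η : ℝ} (hinc : ∀ u : U, |inc k H u - NN H k * kap U k| ≤ η * (NN H k * kap U k))
    (g : U → ℝ) (B : ℝ) (hg : ∀ u, |g u| ≤ B) :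
    |∑ x ∈ Cyc H k, ∑ j : ZMod k, g (x j) - NN H k * ∑ u, kap U k * g u| ≤ η * B * (k * NN H k) := by
  have h1 : ∑ x ∈ Cyc H k, ∑ j : ZMod k, g (x j) = ∑ u, g u * inc k H u := by
    unfold inc
    simp only [mul_sum]
    conv_rhs => rw [sum_comm]
    refine sum_congr rfl fun x _ => ?_
    conv_rhs => rw [sum_comm]
    refine sum_congr rfl fun j _ => ?_
    rw [Finset.sum_eq_single (x j)]
    · rw [if_pos rfl, mul_one]
    · intro v _ hv
      rw [if_neg (Ne.symm hv), mul_zero]
    · intro h; exact absurd (mem_univ _) h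
  have h2 : NN H k * ∑ u, kap U k * g u = ∑ u, g u * (NN H k * kap U k) := by
    rw [mul_sum]
    exact sum_congr rfl fun u _ => by ring
  rw [h1, h2, ← sum_sub_distrib]
  by_cases hU : Nonempty U
  · obtain ⟨u0⟩ := hU
    have hB : 0 ≤ B := le_trans (abs_nonneg _) (hg u0)
    have hU' : (0 : ℝ) < Fintype.card U := by
      have : 0 < Fintype.card U := Fintype.card_pos_iff.mpr ⟨u0⟩
      exact_mod_cast this
    calc |∑ u, (g u * inc k H u - g u * (NN H k * kap U k))|
        ≤ ∑ u, |g u * inc k H u - g u * (NN H k * kap U k)| := abs_sum_le_sum_abs _ _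
      _ ≤ ∑ _u : U, B * (η * (NN H k * kap U k)) := by
          refine sum_le_sum fun u _ => ?_
          rw [← mul_sub, abs_mul]
          exact mul_le_mul (hg u) (hinc u) (abs_nonneg _) hB
      _ = η * B * (k * NN H k) := by
          rw [sum_const, card_univ, nsmul_eq_mul]
          unfold kap
          field_simp
  · have hU2 : IsEmpty U := not_nonempty_iff.mp hU
    have hC : NN H k = 0 := by
      have : Cyc H k = ∅ := by
        rw [← not_nonempty_iff_eq_empty]
        rintro ⟨x, _⟩
        exact hU ⟨x 0⟩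
      rw [NN, this]
      simp
    rw [hC]
    simp

/-- identity L2 (up to a factor `η`): the expected number of neighbours of `y` on a random cycle is its degree -/
theorem l2 {η : ℝ} (hinc : ∀ u : U, |inc k H u - NN H k * kap U k| ≤ η * (NN H k * kap U k))
    (g : U → ℝ) (B : ℝ) (hg : ∀ u, |g u| ≤ B) :
    |∑ x ∈ Cyc H k, ∑ y : U, kap U k * (g y * (((Ty H k x y).card : ℝ) - dg H k y))| ≤
      η * (B * k) * (k * NN H k) := by
  by_cases hU : Nonempty U
  swap
  · have hU2 : IsEmpty U := not_nonempty_iff.mp hU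
    have hC : NN H k = 0 := by
      have : Cyc H k = ∅ := by
        rw [← not_nonempty_iff_eq_empty]
        rintro ⟨x, _⟩
        exact hU ⟨x 0⟩
      rw [NN, this]
      simp
    rw [hC]
    simp
  obtain ⟨u0⟩ := hU
  have hB : 0 ≤ B := le_trans (abs_nonneg _) (hg u0)
  have hU' : (0 : ℝ) < Fintype.card U := by
    have : 0 < Fintype.card U := Fintype.card_pos_iff.mpr ⟨u0⟩
    exact_mod_cast this
  set f : U → ℝ := fun v => ∑ y : U, if H.Adj v y then kap U k * g y else 0 with hf
  have hfB : ∀ v, |f v| ≤ B * k := by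
    intro v
    calc |f v| ≤ ∑ y : U, |if H.Adj v y then kap U k * g y else 0| := abs_sum_le_sum_abs _ _
      _ ≤ ∑ _y : U, kap U k * B := by
          refine sum_le_sum fun y _ => ?_
          split_ifs
          · rw [abs_mul, abs_of_nonneg kap_nonneg_opt]
            exact mul_le_mul_of_nonneg_left (hg y) kap_nonneg_opt
          · rw [abs_zero]
            exact mul_nonneg kap_nonneg_opt hB
      _ = B * k := by
          rw [sum_const, card_univ, nsmul_eq_mul]
          unfold kap
          field_simp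
  have h1 := l1 hinc f (B * k) hfB
  have h2 : ∑ x ∈ Cyc H k, ∑ y : U, kap U k * (g y * (((Ty H k x y).card : ℝ) - dg H k y)) =
      ∑ x ∈ Cyc H k, ∑ j : ZMod k, f (x j) - NN H k * ∑ u, kap U k * f u := by
    have h3 : ∀ x : ZMod k → U, ∑ y : U, kap U k * (g y * ((Ty H k x y).card : ℝ)) =
        ∑ j : ZMod k, f (x j) := by
      intro x
      rw [hf]
      simp only
      rw [sum_comm]
      refine sum_congr rfl fun y _ => ?_
      rw [← sum_filter, sum_const, nsmul_eq_mul]
      unfold Ty
      ring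
    have h4 : ∑ y : U, kap U k * (g y * dg H k y) = ∑ u, kap U k * f u := by
      rw [hf]
      simp only [mul_sum]
      rw [sum_comm]
      refine sum_congr rfl fun y _ => ?_
      unfold dg mu nb
      have h5 : ∀ u : U, (kap U k * if H.Adj u y then kap U k * g y else 0) =
          if H.Adj y u then kap U k * (kap U k * g y) else 0 := by
        intro u
        simp only [H.adj_comm u y, mul_ite, mul_zero]
      rw [sum_congr rfl fun u _ => h5 u, ← sum_filter, sum_const, nsmul_eq_mul]
      ring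
    have h6 : NN H k * ∑ u, kap U k * f u = ∑ x ∈ Cyc H k, ∑ y : U, kap U k * (g y * dg H k y) := by
      rw [sum_const, nsmul_eq_mul, h4]
      rfl
    rw [h6, ← sum_sub_distrib]
    refine sum_congr rfl fun x _ => ?_
    rw [← h3, ← sum_sub_distrib]
    exact sum_congr rfl fun y _ => by ring
  rw [h2]
  exact h1

end identities

end

end Pool.Agent.ICyc.D
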