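import Pool.Agent.Lib.MP_131fce_co.D.Rew2
import Pool.Agent.Lib.MP_131fce_co.D.Opt

/-!
# Induced k-cycles in triangle-free graphs: from the inequality for every cycle to the theorem
-/

set_option autoImplicit false

namespace Pool.Agent.ICyc.D

open Finset Pool.Agent.ICyc
open scoped Classical

/-- an entropy inequality with an error that vanishes for near-optimal graphs suffices -/
theorem no_counter {k : ℕ} [NeZero k] {C : ℝ}
    (hQ : ∀ (U : Type) [Fintype U] (H : SimpleGraph U),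
      (∀ a b c : U, H.Adj a b → H.Adj b c → ¬ H.Adj a c) → ∀ η : ℝ, 0 < η →
      (∀ u : U, |inc k H u - NN H k * kap U k| ≤ η * (NN H k * kap U k)) →
      (Cyc H k).Nonempty →
      (k : ℝ) * (NN H k * Real.log (NN H k * kap U k ^ k / (2 * (k : ℝ)))) ≤ C * η * NN H k)
    {V : Type} [Fintype V] {G : SimpleGraph V}
    (tf : ∀ a b c : V, G.Adj a b → G.Adj b c → ¬ G.Adj a c) :
    NN G k * kap V k ^ k ≤ 2 * (k : ℝ) := by
  by_contra hcon
  push Not at hcon
  obtain ⟨c, hc, hη⟩ := near_opt tf hcon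
  have hk0 : (0 : ℝ) < k := by exact_mod_cast Nat.pos_of_ne_zero (NeZero.ne k)
  have hlog : 0 < Real.log c := Real.log_pos hc
  -- choose `η` with `C η < k log c`
  set η : ℝ := (k : ℝ) * Real.log c / (2 * (|C| + 1)) with hηdef
  have hC1 : 0 < |C| + 1 := by positivity
  have hη0 : 0 < η := by positivity
  obtain ⟨U, iU, H, tfH, hbig, hinc⟩ := hη η hη0
  have hpos : 0 < NN H k * kap U k ^ k := lt_of_lt_of_le (by positivity) hbig
  have hNN : 0 < NN H k := by
    have h0 : 0 ≤ NN H k := Nat.cast_nonneg _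
    rcases h0.eq_or_lt with h | h
    · rw [← h, zero_mul] at hpos
      exact absurd hpos (lt_irrefl _)
    · exact h
  have hne : (Cyc H k).Nonempty := by
    unfold NN at hNN
    rw [← card_pos]
    exact_mod_cast hNN
  have h1 := hQ U H tfH η hη0 hinc hne
  have h2 : Real.log c ≤ Real.log (NN H k * kap U k ^ k / (2 * (k : ℝ))) := by
    refine Real.log_le_log (by linarith) ?_
    rw [le_div_iff₀ (by positivity)]
    linarith
  have h3 : (k : ℝ) * (NN H k * Real.log c) ≤ C * η * NN H k := by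
    refine le_trans ?_ h1
    gcongr
  have h4 : (k : ℝ) * Real.log c ≤ C * η := by
    have : ((k : ℝ) * Real.log c) * NN H k ≤ (C * η) * NN H k := by linarith
    exact le_of_mul_le_mul_right this hNN
  have h5 : C * η ≤ |C| * η := mul_le_mul_of_nonneg_right (le_abs_self C) hη0.le
  have h6 : |C| * η < (k : ℝ) * Real.log c := by
    rw [hηdef, mul_div_assoc', div_lt_iff₀ (by positivity)]
    have h7 : 0 < (k : ℝ) * Real.log c := by positivity
    nlinarith [abs_nonneg C]
  linarith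

/-- **the reduction**: an inequality for every cycle of every triangle-free graph, with one term per
vertex and a bounded degree multiplier, gives the bound `(n/k)^k` (in the form `NN kap^k ≤ 2k`) -/
theorem reduction {k : ℕ} [NeZero k] (hk : 6 ≤ k) {L : ℕ} (hL : 3 ≤ L) (hLk : L + 3 ≤ k) {B : ℝ}
    (g : ℝ → ℝ) (hg : ∀ t, |g t| ≤ B)
    (hQ : ∀ (U : Type) [Fintype U] (H : SimpleGraph U),
      (∀ a b c : U, H.Adj a b → H.Adj b c → ¬ H.Adj a c) →
      ∃ Ow Rw Tw Fl : (ZMod k → U) → U → ℝ,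
      (∑ x ∈ Cyc H k, ∑ a : ZMod k, own H k (KL H k L) x a ≤
        ∑ x ∈ Cyc H k, ∑ y ∈ nonT H k x, kap U k * Ow x y) ∧
      (∑ x ∈ Cyc H k, ∑ w : U, kap U k * Rw x w ≤
        ∑ x ∈ Cyc H k, ∑ a : ZMod k, ∑ l ∈ Icc 2 (k - 3), RL H k L l (rot a x)) ∧
      (∑ x ∈ Cyc H k, ∑ a : ZMod k, twK H k (KL H k L) x a a ≤
        ∑ x ∈ Cyc H k, ∑ w : U, kap U k * Tw x w) ∧
      (∑ x ∈ Cyc H k, ∑ y : U, kap U k * Fl x y ≤ 0) ∧
      ∀ x ∈ Cyc H k, Pos H k L (KL H k L) x ≤
        ∑ y ∈ nonT H k x, kap U k * (rD k (Ty H k x y) - Ow x y) +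
        ∑ w : U, kap U k * (Rw x w - Tw x w + Fl x w +
          g (dg H k w) * (((Ty H k x w).card : ℝ) - dg H k w)))
    {V : Type} [Fintype V] {G : SimpleGraph V}
    (tf : ∀ a b c : V, G.Adj a b → G.Adj b c → ¬ G.Adj a c) :
    NN G k * kap V k ^ k ≤ 2 * (k : ℝ) := by
  refine no_counter (C := B * k * k) ?_ tf
  intro U _ H tfH η hη hinc hne
  obtain ⟨Ow, Rw, Tw, Fl, h1, h2, h3, h4, h5⟩ := hQ U H tfH
  have h6 := asmG hk tfH hne hL hLk (Ker_KL (G := H) (k := k) (L := L) (by omega)) Ow Rw Tw Fl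
    h1 h2 h3 h4 (fun u => g (dg H k u)) (fun _ => 0) (by simp) (by
      intro x hx
      have := h5 x hx
      rw [add_zero]
      exact this)
  refine h6.trans ((le_abs_self _).trans ((l2 hinc (fun u => g (dg H k u)) B
    (fun u => hg _)).trans (le_of_eq ?_)))
  ring

end Pool.Agent.ICyc.D
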