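import Pool.Agent.Lib.MP_131fce_co.D.KStar

/-!
# Induced k-cycles in triangle-free graphs: the price of the twins

A one-sided twin cost `phi (ff w (x j))` is split into a linear part, paid by the states
`y ~ x j` per unit of `DD`, and a part above the line, paid by the twin `w` itself and bounded
by a function of the mass of its neighbours outside the two neighbouring classes.
-/

set_option autoImplicit false

namespace Pool.Agent.ICyc.D

open Finset Pool.Agent.ICyc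
open scoped Classical

variable {V : Type} [Fintype V] {G : SimpleGraph V} {k : ℕ} [NeZero k]

lemma ff_nn (u v : V) : 0 ≤ ff G k u v := mu_nonneg _

/-- a member of `T j` is adjacent to the positions `j - 1` and `j + 1` only -/
lemma adj_of_T_left {x : ZMod k → V} {j : ZMod k} {z : V} (hz : z ∈ T G k (j - 1) x) :
    G.Adj (x j) z := (mem_T_iff.1 hz j).2 (Or.inr (by ring))

lemma adj_of_T_right {x : ZMod k → V} {j : ZMod k} {z : V} (hz : z ∈ T G k (j + 1) x) :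
    G.Adj (x j) z := (mem_T_iff.1 hz j).2 (Or.inl (by ring))

/-- the neighbours of `w` that are not neighbours of `x j`, and the neighbours of `w` in the two
neighbouring classes, are disjoint subsets of the neighbourhood of `w` -/
theorem ff_add_uu_le (hk : 5 ≤ k) (x : ZMod k → V) (j : ZMod k) (w : V) :
    ff G k w (x j) + uu G k x (j - 1) w + uu G k x (j + 1) w ≤ dg G k w := by
  have h1 : Disjoint ((T G k (j - 1) x).filter (fun z => G.Adj z w))
      ((T G k (j + 1) x).filter (fun z => G.Adj z w)) := by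
    rw [disjoint_left]
    intro z hz hz'
    have e := T_disjoint hk (mem_filter.1 hz).1 (mem_filter.1 hz').1
    have h2 := two_ne_zero' (k := k) hk
    apply h2
    linear_combination -e
  have h2 : Disjoint ((nb G w).filter (fun z => ¬ G.Adj (x j) z))
      ((T G k (j - 1) x).filter (fun z => G.Adj z w) ∪
        (T G k (j + 1) x).filter (fun z => G.Adj z w)) := by
    rw [disjoint_left]
    intro z hz hz'
    have h3 := (mem_filter.1 hz).2
    rcases mem_union.1 hz' with h | h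
    · exact h3 (adj_of_T_left (mem_filter.1 h).1)
    · exact h3 (adj_of_T_right (mem_filter.1 h).1)
  have h3 : (nb G w).filter (fun z => ¬ G.Adj (x j) z) ∪
      ((T G k (j - 1) x).filter (fun z => G.Adj z w) ∪
        (T G k (j + 1) x).filter (fun z => G.Adj z w)) ⊆ nb G w := by
    intro z hz
    rcases mem_union.1 hz with h | h
    · exact (mem_filter.1 h).1
    · rw [bas_mem_nb]
      rcases mem_union.1 h with h | h
      · exact (mem_filter.1 h).2.symm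
      · exact (mem_filter.1 h).2.symm
  have h4 := card_le_card h3
  rw [card_union_of_disjoint h2, card_union_of_disjoint h1] at h4
  unfold ff uu dg mu
  have h5 : (((nb G w).filter (fun z => ¬ G.Adj (x j) z)).card : ℝ) +
      ((((T G k (j - 1) x).filter (fun z => G.Adj z w)).card : ℝ) +
        ((T G k (j + 1) x).filter (fun z => G.Adj z w)).card) ≤ (nb G w).card := by
    exact_mod_cast h4
  have h6 := mul_le_mul_of_nonneg_left h5 (kap_nonneg' (V := V) (k := k))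
  linarith

theorem ff_le_irr (hk : 5 ≤ k) (x : ZMod k → V) (j : ZMod k) (w : V) :
    ff G k w (x j) ≤ dg G k w - uu G k x (j - 1) w - uu G k x (j + 1) w := by
  linarith [ff_add_uu_le (G := G) hk x j w]

/-- the split of a one-sided twin cost: `H` is a monotone bound of the part above the line with
slope `r0` -/
theorem price_phi (hk : 5 ≤ k) (tf : ∀ a b c : V, G.Adj a b → G.Adj b c → ¬ G.Adj a c)
    (j : ZMod k) (phi H : ℝ → ℝ) (r0 : ℝ)
    (hH : ∀ s t : ℝ, 0 ≤ s → s ≤ t → H s ≤ H t) (hp : ∀ t : ℝ, 0 ≤ t → phi t - r0 * t ≤ H t) :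
    ∑ x ∈ Cyc G k, ∑ w ∈ T G k j x, kap V k * phi (ff G k w (x j)) ≤
      r0 * ∑ x ∈ Cyc G k, ∑ y ∈ univ.filter (fun y => G.Adj (x j) y), kap V k * DD G k x j y +
      ∑ x ∈ Cyc G k, ∑ w ∈ T G k j x,
        kap V k * H (dg G k w - uu G k x (j - 1) w - uu G k x (j + 1) w) := by
  rw [← sum_ff_upper hk tf j, mul_sum, ← sum_add_distrib]
  refine sum_le_sum fun x _ => ?_
  rw [mul_sum, ← sum_add_distrib]
  refine sum_le_sum fun w _ => ?_
  have h0 : 0 ≤ ff G k w (x j) := ff_nn w (x j)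
  have h1 := hp _ h0
  have h2 := hH _ _ h0 (ff_le_irr (G := G) hk x j w)
  have h3 := mul_le_mul_of_nonneg_left (h1.trans h2) (kap_nonneg' (V := V) (k := k))
  linarith

/-- the price of the twins -/
theorem price (hk : 5 ≤ k) (tf : ∀ a b c : V, G.Adj a b → G.Adj b c → ¬ G.Adj a c)
    (j : ZMod k) (L : ℕ) (H : ℝ → ℝ) (r0 : ℝ)
    (hH : ∀ s t : ℝ, 0 ≤ s → s ≤ t → H s ≤ H t) (hp : ∀ t : ℝ, 0 ≤ t → k2 L t - r0 * t ≤ H t) :
    ∑ x ∈ Cyc G k, ∑ w ∈ T G k j x, kap V k * k2 L (ff G k w (x j)) ≤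
      r0 * ∑ x ∈ Cyc G k, ∑ y ∈ univ.filter (fun y => G.Adj (x j) y), kap V k * DD G k x j y +
      ∑ x ∈ Cyc G k, ∑ w ∈ T G k j x,
        kap V k * H (dg G k w - uu G k x (j - 1) w - uu G k x (j + 1) w) :=
  price_phi hk tf j (k2 L) H r0 hH hp

/-- the twin cost of the frame `frameQ` with the best kernel -/
theorem twK_price (hk : 5 ≤ k) (tf : ∀ a b c : V, G.Adj a b → G.Adj b c → ¬ G.Adj a c)
    (j : ZMod k) {L : ℕ} (hL : 1 ≤ L) (H : ℝ → ℝ) (r0 : ℝ)
    (hH : ∀ s t : ℝ, 0 ≤ s → s ≤ t → H s ≤ H t) (hp : ∀ t : ℝ, 0 ≤ t → k2 L t - r0 * t ≤ H t) :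
    ∑ x ∈ Cyc G k, twK G k (KL G k L) x j j ≤
      r0 * ∑ x ∈ Cyc G k, ∑ y ∈ univ.filter (fun y => G.Adj (x j) y), kap V k * DD G k x j y +
      ∑ x ∈ Cyc G k, ∑ w ∈ T G k j x,
        kap V k * H (dg G k w - uu G k x (j - 1) w - uu G k x (j + 1) w) :=
  (twK_le hk tf hL j).trans (price hk tf j L H r0 hH hp)

/-- the mass of the neighbours of `w` that are not neighbours of `v` is the degree minus the
common mass -/
theorem ff_eq (w v : V) :
    ff G k w v = dg G k w - mu k ((nb G w).filter (fun z => G.Adj v z)) := by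
  unfold ff dg mu
  have h := card_filter_add_card_filter_not (s := nb G w) (fun z => G.Adj v z)
  have h2 : (((nb G w).filter (fun z => G.Adj v z)).card : ℝ) +
      ((nb G w).filter (fun z => ¬ G.Adj v z)).card = (nb G w).card := by exact_mod_cast h
  rw [← h2]
  ring

/-- the split of a one-sided twin cost, exact form: the part above the line keeps its argument -/
theorem price_ff (hk : 5 ≤ k) (tf : ∀ a b c : V, G.Adj a b → G.Adj b c → ¬ G.Adj a c)
    (j : ZMod k) (phi H : ℝ → ℝ) (r0 : ℝ) (hp : ∀ t : ℝ, 0 ≤ t → phi t - r0 * t ≤ H t) :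
    ∑ x ∈ Cyc G k, ∑ w ∈ T G k j x, kap V k * phi (ff G k w (x j)) ≤
      r0 * ∑ x ∈ Cyc G k, ∑ y ∈ univ.filter (fun y => G.Adj (x j) y), kap V k * DD G k x j y +
      ∑ x ∈ Cyc G k, ∑ w ∈ T G k j x, kap V k * H (ff G k w (x j)) := by
  rw [← sum_ff_upper hk tf j, mul_sum, ← sum_add_distrib]
  refine sum_le_sum fun x _ => ?_
  rw [mul_sum, ← sum_add_distrib]
  refine sum_le_sum fun w _ => ?_
  have h0 : 0 ≤ ff G k w (x j) := ff_nn w (x j)
  have h3 := mul_le_mul_of_nonneg_left (hp _ h0) (kap_nonneg' (V := V) (k := k))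
  linarith

/-- the same with any share `a` of the part above the line paid by the other side: `H` may be
taken at `ff w (x j)` or at `ff (x j) w` -/
theorem price_share (hk : 5 ≤ k) (tf : ∀ a b c : V, G.Adj a b → G.Adj b c → ¬ G.Adj a c)
    (j : ZMod k) (H : ℝ → ℝ) (a : ℝ) :
    ∑ x ∈ Cyc G k, ∑ w ∈ T G k j x, kap V k * H (ff G k w (x j)) =
      (1 - a) * ∑ x ∈ Cyc G k, ∑ w ∈ T G k j x, kap V k * H (ff G k w (x j)) +
      a * ∑ x ∈ Cyc G k, ∑ w ∈ T G k j x, kap V k * H (ff G k (x j) w) := by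
  rw [sum_k2_swap hk tf j H]
  ring

/-- the price of the twins, exact form -/
theorem twK_price_ff (hk : 5 ≤ k) (tf : ∀ a b c : V, G.Adj a b → G.Adj b c → ¬ G.Adj a c)
    (j : ZMod k) {L : ℕ} (hL : 1 ≤ L) (H : ℝ → ℝ) (r0 : ℝ)
    (hp : ∀ t : ℝ, 0 ≤ t → k2 L t - r0 * t ≤ H t) :
    ∑ x ∈ Cyc G k, twK G k (KL G k L) x j j ≤
      r0 * ∑ x ∈ Cyc G k, ∑ y ∈ univ.filter (fun y => G.Adj (x j) y), kap V k * DD G k x j y +
      ∑ x ∈ Cyc G k, ∑ w ∈ T G k j x, kap V k * H (ff G k w (x j)) :=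
  (twK_le hk tf hL j).trans (price_ff hk tf j (k2 L) H r0 hp)

/-- the smallest monotone bound of `phi t - r0 t` above `0`, for a function with values at
most `1` -/
noncomputable def hgt (phi : ℝ → ℝ) (r0 t : ℝ) : ℝ :=
  sSup ((fun s => max 0 (phi s - r0 * s)) '' Set.Icc 0 t)

lemma hgt_bdd {phi : ℝ → ℝ} (h1 : ∀ s, phi s ≤ 1) {r0 : ℝ} (hr : 0 ≤ r0) (t : ℝ) :
    BddAbove ((fun s => max 0 (phi s - r0 * s)) '' Set.Icc 0 t) := by
  refine ⟨1, ?_⟩
  rintro _ ⟨s, hs, rfl⟩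
  refine max_le zero_le_one ?_
  have := mul_nonneg hr hs.1
  linarith [h1 s]

lemma le_hgt {phi : ℝ → ℝ} (h1 : ∀ s, phi s ≤ 1) {r0 : ℝ} (hr : 0 ≤ r0) {t : ℝ} (ht : 0 ≤ t) :
    phi t - r0 * t ≤ hgt phi r0 t :=
  (le_max_right _ _).trans (le_csSup (hgt_bdd h1 hr t) ⟨t, ⟨ht, le_rfl⟩, rfl⟩)

lemma hgt_nonneg {phi : ℝ → ℝ} (h1 : ∀ s, phi s ≤ 1) {r0 : ℝ} (hr : 0 ≤ r0) {t : ℝ}
    (ht : 0 ≤ t) : 0 ≤ hgt phi r0 t :=
  (le_max_left _ _).trans (le_csSup (hgt_bdd h1 hr t) ⟨t, ⟨ht, le_rfl⟩, rfl⟩)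

lemma hgt_mono {phi : ℝ → ℝ} (h1 : ∀ s, phi s ≤ 1) {r0 : ℝ} (hr : 0 ≤ r0) (s t : ℝ)
    (hs : 0 ≤ s) (hst : s ≤ t) : hgt phi r0 s ≤ hgt phi r0 t :=
  csSup_le_csSup (hgt_bdd h1 hr t) ⟨_, ⟨0, ⟨le_rfl, hs⟩, rfl⟩⟩
    (Set.image_mono (Set.Icc_subset_Icc_right hst))

lemma hgt_le {phi : ℝ → ℝ} {r0 t B : ℝ} (ht : 0 ≤ t) (hB : 0 ≤ B)
    (h : ∀ s, 0 ≤ s → s ≤ t → phi s - r0 * s ≤ B) : hgt phi r0 t ≤ B := by
  refine csSup_le ⟨_, ⟨0, ⟨le_rfl, ht⟩, rfl⟩⟩ ?_
  rintro _ ⟨s, hs, rfl⟩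
  exact max_le hB (h s hs.1 hs.2)

end Pool.Agent.ICyc.D
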