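import Pool.Agent.Lib.MP_131fce_co.D.Rew2
import Pool.Agent.Lib.MP_131fce_co.D.Price

/-!
# Induced k-cycles in triangle-free graphs: one vertex and the types of its neighbours

`cM w v` is the mass of the common neighbours of `w` and `v`, `cM3 w u v` of the common
neighbours of three vertices, `visS x w S` is the mass of the neighbours of `w` that see no
position of `S`.
-/

set_option autoImplicit false

namespace Pool.Agent.ICyc.D

open Finset Pool.Agent.ICyc
open scoped Classical

variable {V : Type} [Fintype V] {G : SimpleGraph V} {k : ℕ} [NeZero k]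

/-! ### masses -/

omit [NeZero k] in
lemma mu_disj_union {S S' : Finset V} (h : Disjoint S S') : mu k (S ∪ S') = mu k S + mu k S' := by
  unfold mu
  rw [card_union_of_disjoint h]
  push_cast
  ring

omit [NeZero k] in
lemma mu_filter_add (S : Finset V) (p : V → Prop) :
    mu k (S.filter p) + mu k (S.filter fun z => ¬ p z) = mu k S := by
  unfold mu
  rw [← mul_add]
  congr 1
  exact_mod_cast card_filter_add_card_filter_not (s := S) p

lemma mu_sub_le {S S' : Finset V} (h : S ⊆ S') : mu k S ≤ mu k S' := mu_mono h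

/-! ### common neighbours -/

/-- mass of the common neighbours -/
noncomputable def cM (G : SimpleGraph V) (k : ℕ) (w v : V) : ℝ :=
  mu k ((nb G w).filter (fun z => G.Adj v z))

/-- mass of the common neighbours of three vertices -/
noncomputable def cM3 (G : SimpleGraph V) (k : ℕ) (w u v : V) : ℝ :=
  mu k ((nb G w).filter (fun z => G.Adj u z ∧ G.Adj v z))

lemma cM_nonneg (w v : V) : 0 ≤ cM G k w v := mu_nonneg _

lemma cM3_nonneg (w u v : V) : 0 ≤ cM3 G k w u v := mu_nonneg _

omit [NeZero k] in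
lemma cM_comm (w v : V) : cM G k w v = cM G k v w := by
  unfold cM
  congr 1
  ext z
  rw [mem_filter, mem_filter, bas_mem_nb, bas_mem_nb, and_comm]

lemma cM_le_dg (w v : V) : cM G k w v ≤ dg G k w := mu_sub_le (filter_subset _ _)

lemma cM_le_dg' (w v : V) : cM G k w v ≤ dg G k v := by
  rw [cM_comm]; exact cM_le_dg v w

lemma cM3_le_left (w u v : V) : cM3 G k w u v ≤ cM G k w u := by
  refine mu_sub_le fun z hz => ?_
  rw [mem_filter] at hz ⊢
  exact ⟨hz.1, hz.2.1⟩

lemma cM3_le_right (w u v : V) : cM3 G k w u v ≤ cM G k w v := by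
  refine mu_sub_le fun z hz => ?_
  rw [mem_filter] at hz ⊢
  exact ⟨hz.1, hz.2.2⟩

lemma cM3_le_far (w u v : V) : cM3 G k w u v ≤ cM G k u v := by
  refine mu_sub_le fun z hz => ?_
  rw [mem_filter, bas_mem_nb] at hz ⊢
  exact ⟨hz.2.1, hz.2.2⟩

/-- the mass outside of the common part -/
lemma ff_eq_cM (w v : V) : ff G k w v = dg G k w - cM G k w v := ff_eq w v

lemma cM_add_ff (w v : V) : cM G k w v + ff G k w v = dg G k w := by
  rw [ff_eq_cM]; ring

/-- the other one-sided difference -/
lemma ff_eq_cM' (w v : V) : ff G k v w = dg G k v - cM G k w v := by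
  rw [ff_eq_cM, cM_comm]

omit [NeZero k] in
/-- adjacent vertices have no common neighbour -/
lemma cM_adj (tf : ∀ a b c : V, G.Adj a b → G.Adj b c → ¬ G.Adj a c) {w v : V}
    (h : G.Adj w v) : cM G k w v = 0 := by
  unfold cM mu
  rw [filter_false_of_mem, card_empty, Nat.cast_zero, mul_zero]
  intro z hz h2
  rw [bas_mem_nb] at hz
  exact tf w z v hz h2.symm h

/-- positions of the type of `w` see no neighbour of `w` -/
lemma cM_of_mem (tf : ∀ a b c : V, G.Adj a b → G.Adj b c → ¬ G.Adj a c) {x : ZMod k → V}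
    {w : V} {b : ZMod k} (h : b ∈ Ty G k x w) : cM G k w (x b) = 0 :=
  cM_adj tf (bas_mem_Ty.1 h).symm

lemma ff_of_mem (tf : ∀ a b c : V, G.Adj a b → G.Adj b c → ¬ G.Adj a c) {x : ZMod k → V}
    {w : V} {b : ZMod k} (h : b ∈ Ty G k x w) : ff G k w (x b) = dg G k w := by
  rw [ff_eq_cM, cM_of_mem tf h, sub_zero]

/-! ### visible neighbours -/

/-- mass of the neighbours of `w` that see no position of `S` -/
noncomputable def visS (G : SimpleGraph V) (k : ℕ) [NeZero k] (x : ZMod k → V) (w : V)
    (S : Finset (ZMod k)) : ℝ := mu k ((nb G w).filter (fun z => ∀ b ∈ S, b ∉ Ty G k x z))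

lemma visS_nonneg (x : ZMod k → V) (w : V) (S : Finset (ZMod k)) : 0 ≤ visS G k x w S :=
  mu_nonneg _

lemma visS_empty (x : ZMod k → V) (w : V) : visS G k x w ∅ = dg G k w := by
  unfold visS dg
  congr 1
  ext z
  simp

lemma visS_anti (x : ZMod k → V) (w : V) {S S' : Finset (ZMod k)} (h : S ⊆ S') :
    visS G k x w S' ≤ visS G k x w S := by
  refine mu_sub_le fun z hz => ?_
  rw [mem_filter] at hz ⊢
  exact ⟨hz.1, fun b hb => hz.2 b (h hb)⟩

lemma visS_le_dg (x : ZMod k → V) (w : V) (S : Finset (ZMod k)) : visS G k x w S ≤ dg G k w :=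
  mu_sub_le (filter_subset _ _)

lemma visS_singleton (x : ZMod k → V) (w : V) (b : ZMod k) :
    visS G k x w {b} = ff G k w (x b) := by
  unfold visS ff
  congr 1
  ext z
  rw [mem_filter, mem_filter]
  refine and_congr_right fun _ => ?_
  simp only [mem_singleton, forall_eq, bas_mem_Ty]

lemma visS_le_ff (x : ZMod k → V) (w : V) {S : Finset (ZMod k)} {b : ZMod k} (hb : b ∈ S) :
    visS G k x w S ≤ ff G k w (x b) := by
  rw [← visS_singleton]
  exact visS_anti x w (singleton_subset_iff.2 hb)

/-- inclusion and exclusion for two positions -/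
lemma visS_pair (x : ZMod k → V) (w : V) (a b : ZMod k) :
    visS G k x w {a, b} =
      dg G k w - cM G k w (x a) - cM G k w (x b) + cM3 G k w (x a) (x b) := by
  have h1 := mu_filter_add (k := k) (nb G w) (fun z => G.Adj (x a) z)
  have h2 := mu_filter_add (k := k) ((nb G w).filter fun z => ¬ G.Adj (x a) z)
    (fun z => G.Adj (x b) z)
  have h3 := mu_filter_add (k := k) ((nb G w).filter fun z => G.Adj (x b) z)
    (fun z => G.Adj (x a) z)
  have e1 : visS G k x w {a, b} =
      mu k (((nb G w).filter fun z => ¬ G.Adj (x a) z).filter fun z => ¬ G.Adj (x b) z) := by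
    unfold visS
    congr 1
    ext z
    rw [mem_filter, mem_filter, mem_filter, and_assoc]
    refine and_congr_right fun _ => ?_
    simp only [mem_insert, mem_singleton, forall_eq_or_imp, forall_eq, bas_mem_Ty]
  have e2 : ((nb G w).filter fun z => ¬ G.Adj (x a) z).filter (fun z => G.Adj (x b) z) =
      ((nb G w).filter fun z => G.Adj (x b) z).filter fun z => ¬ G.Adj (x a) z := by
    ext z
    rw [mem_filter, mem_filter, mem_filter, mem_filter]
    tauto
  have e3 : ((nb G w).filter fun z => G.Adj (x b) z).filter (fun z => G.Adj (x a) z) =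
      (nb G w).filter fun z => G.Adj (x a) z ∧ G.Adj (x b) z := by
    ext z
    rw [mem_filter, mem_filter, mem_filter]
    tauto
  rw [e2] at h2
  rw [e3] at h3
  rw [e1]
  unfold dg cM cM3
  linarith

/-- two positions of `S` -/
lemma visS_le_two (x : ZMod k → V) (w : V) {S : Finset (ZMod k)} {a b : ZMod k} (ha : a ∈ S)
    (hb : b ∈ S) : visS G k x w S ≤
      dg G k w - cM G k w (x a) - cM G k w (x b) + cM3 G k w (x a) (x b) := by
  rw [← visS_pair]
  refine visS_anti x w fun i hi => ?_
  rw [mem_insert, mem_singleton] at hi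
  rcases hi with h | h
  · rw [h]; exact ha
  · rw [h]; exact hb

/-- one more position -/
lemma visS_insert_ge (x : ZMod k → V) (w : V) (S : Finset (ZMod k)) (b : ZMod k) :
    visS G k x w S - cM G k w (x b) ≤ visS G k x w (insert b S) := by
  have h1 := mu_filter_add (k := k) ((nb G w).filter fun z => ∀ c ∈ S, c ∉ Ty G k x z)
    (fun z => G.Adj (x b) z)
  have h2 : mu k (((nb G w).filter fun z => ∀ c ∈ S, c ∉ Ty G k x z).filter
      fun z => G.Adj (x b) z) ≤ cM G k w (x b) := by
    refine mu_sub_le fun z hz => ?_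
    rw [mem_filter, mem_filter] at hz
    rw [mem_filter]
    exact ⟨hz.1.1, hz.2⟩
  have h3 : visS G k x w (insert b S) =
      mu k (((nb G w).filter fun z => ∀ c ∈ S, c ∉ Ty G k x z).filter
        fun z => ¬ G.Adj (x b) z) := by
    unfold visS
    congr 1
    ext z
    rw [mem_filter, mem_filter, mem_filter, and_assoc]
    refine and_congr_right fun _ => ?_
    simp only [mem_insert, forall_eq_or_imp, bas_mem_Ty]
    tauto
  rw [h3]
  unfold visS
  linarith

/-- lower bound of the visible mass -/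
lemma le_visS (x : ZMod k → V) (w : V) (S : Finset (ZMod k)) :
    dg G k w - ∑ b ∈ S, cM G k w (x b) ≤ visS G k x w S := by
  induction S using Finset.induction_on with
  | empty => rw [visS_empty, sum_empty, sub_zero]
  | insert b S hb ih =>
    rw [sum_insert hb]
    have := visS_insert_ge (G := G) x w S b
    linarith

/-- positions of the type of `w` hide nothing -/
lemma visS_insert_mem (tf : ∀ a b c : V, G.Adj a b → G.Adj b c → ¬ G.Adj a c)
    (x : ZMod k → V) {w : V} (S : Finset (ZMod k)) {b : ZMod k} (hb : b ∈ Ty G k x w) :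
    visS G k x w (insert b S) = visS G k x w S := by
  refine le_antisymm (visS_anti x w (subset_insert _ _)) ?_
  have := visS_insert_ge (G := G) x w S b
  rw [cM_of_mem tf hb] at this
  linarith

/-- the window as a set of positions -/
lemma visM_eq_visS (x : ZMod k → V) (i : ZMod k) (l : ℕ) (w : V) :
    visM G k x i l w = visS G k x w ((Icc 1 l).image fun m : ℕ => i - (m : ZMod k)) := by
  unfold visM visS
  congr 1
  refine filter_congr fun z _ => ?_
  unfold fst
  constructor
  · intro h b hb
    rw [mem_image] at hb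
    obtain ⟨m, hm, rfl⟩ := hb
    rw [mem_Icc] at hm
    exact h m hm.1 hm.2
  · intro h m h1 h2
    exact h _ (mem_image.2 ⟨m, mem_Icc.2 ⟨h1, h2⟩, rfl⟩)

lemma visM_nonneg (x : ZMod k → V) (i : ZMod k) (l : ℕ) (w : V) : 0 ≤ visM G k x i l w :=
  mu_nonneg _

lemma visM_anti (x : ZMod k → V) (i : ZMod k) {l l' : ℕ} (h : l ≤ l') (w : V) :
    visM G k x i l' w ≤ visM G k x i l w := by
  refine mu_sub_le fun z hz => ?_
  rw [mem_filter] at hz ⊢
  exact ⟨hz.1, fun m h1 h2 => hz.2 m h1 (h2.trans h)⟩

/-- the neighbours that see a position of the window are invisible -/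
lemma visM_le_ff (x : ZMod k → V) (i : ZMod k) {l m : ℕ} (h1 : 1 ≤ m) (h2 : m ≤ l) (w : V) :
    visM G k x i l w ≤ ff G k w (x (i - (m : ZMod k))) := by
  rw [visM_eq_visS]
  exact visS_le_ff x w (mem_image.2 ⟨m, mem_Icc.2 ⟨h1, h2⟩, rfl⟩)

lemma visM_le_ff_one (x : ZMod k → V) (i : ZMod k) {l : ℕ} (h : 1 ≤ l) (w : V) :
    visM G k x i l w ≤ ff G k w (x (i - 1)) := by
  have := visM_le_ff (G := G) x i le_rfl h w
  rwa [Nat.cast_one] at this

lemma visM_le_dg (x : ZMod k → V) (i : ZMod k) (l : ℕ) (w : V) : visM G k x i l w ≤ dg G k w :=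
  mu_sub_le (filter_subset _ _)

/-- two positions of the window -/
lemma visM_le_two (x : ZMod k → V) (i : ZMod k) {l m m' : ℕ} (h1 : 1 ≤ m) (h2 : m ≤ l)
    (h1' : 1 ≤ m') (h2' : m' ≤ l) (w : V) :
    visM G k x i l w ≤ dg G k w - cM G k w (x (i - (m : ZMod k))) -
      cM G k w (x (i - (m' : ZMod k))) +
        cM3 G k w (x (i - (m : ZMod k))) (x (i - (m' : ZMod k))) := by
  rw [visM_eq_visS]
  exact visS_le_two x w (mem_image.2 ⟨m, mem_Icc.2 ⟨h1, h2⟩, rfl⟩)
    (mem_image.2 ⟨m', mem_Icc.2 ⟨h1', h2'⟩, rfl⟩)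

/-- lower bound of the visible mass of a window -/
lemma le_visM (x : ZMod k → V) (i : ZMod k) {l : ℕ} (hl : l < k) (w : V) :
    dg G k w - ∑ m ∈ Icc 1 l, cM G k w (x (i - (m : ZMod k))) ≤ visM G k x i l w := by
  rw [visM_eq_visS]
  refine le_trans (le_of_eq ?_) (le_visS x w _)
  rw [sum_image]
  intro a ha b hb hab
  rw [mem_coe, mem_Icc] at ha hb
  have h1 : ((a : ℕ) : ZMod k) = ((b : ℕ) : ZMod k) := by
    simp only at hab
    linear_combination -hab
  exact (bas_cast_eq_iff (k := k) (i := a) (j := b) (by omega) (by omega)).1 h1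

/-! ### the neighbours by classes -/

/-- mass of the neighbours of `w` outside the twin classes that see the position `b` -/
noncomputable def nnb (G : SimpleGraph V) (k : ℕ) [NeZero k] (x : ZMod k → V) (b : ZMod k)
    (w : V) : ℝ := mu k ((nonT G k x).filter (fun z => G.Adj z w ∧ b ∈ Ty G k x z))

lemma nnb_nonneg (x : ZMod k → V) (b : ZMod k) (w : V) : 0 ≤ nnb G k x b w := mu_nonneg _

lemma nnb_le_nn (x : ZMod k → V) (b : ZMod k) (w : V) : nnb G k x b w ≤ nn G k x w := by
  refine mu_sub_le fun z hz => ?_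
  rw [mem_filter] at hz ⊢
  exact ⟨hz.1, hz.2.1⟩

/-- the common neighbours of `w` and `x b`: twins of `b - 1` and `b + 1`, and vertices outside
the twin classes -/
theorem cM_split (hk : 5 ≤ k) (x : ZMod k → V) (b : ZMod k) (w : V) :
    cM G k w (x b) = uu G k x (b - 1) w + uu G k x (b + 1) w + nnb G k x b w := by
  have hd1 : Disjoint ((T G k (b - 1) x).filter (fun z => G.Adj z w))
      ((T G k (b + 1) x).filter (fun z => G.Adj z w)) := by
    rw [disjoint_left]
    intro z hz hz'
    have e := T_disjoint hk (mem_filter.1 hz).1 (mem_filter.1 hz').1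
    exact sub_ne_add' hk b e
  have hd2 : Disjoint ((T G k (b - 1) x).filter (fun z => G.Adj z w) ∪
      (T G k (b + 1) x).filter (fun z => G.Adj z w))
      ((nonT G k x).filter (fun z => G.Adj z w ∧ b ∈ Ty G k x z)) := by
    rw [disjoint_left]
    intro z hz hz'
    have h1 := (mem_filter.1 hz').1
    unfold nonT at h1
    rw [mem_filter] at h1
    rcases mem_union.1 hz with h | h
    · exact h1.2 _ (mem_filter.1 h).1
    · exact h1.2 _ (mem_filter.1 h).1
  unfold cM uu nnb
  rw [← mu_disj_union hd1, ← mu_disj_union hd2]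
  congr 1
  ext z
  rw [mem_filter, bas_mem_nb, mem_union, mem_union, mem_filter, mem_filter, mem_filter]
  constructor
  · rintro ⟨h1, h2⟩
    by_cases hn : z ∈ nonT G k x
    · right; exact ⟨hn, h1.symm, bas_mem_Ty.2 h2⟩
    · left
      have hT' : ∃ j : ZMod k, z ∈ T G k j x := by simpa [nonT] using hn
      obtain ⟨j, hj⟩ := hT'
      rcases (rot_adj_of_mem_T hj b).1 h2 with h | h
      · right
        have e : j = b + 1 := by rw [h]; ring
        rw [← e]
        exact ⟨hj, h1.symm⟩
      · left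
        have e : j = b - 1 := by rw [h]; ring
        rw [← e]
        exact ⟨hj, h1.symm⟩
  · rintro ((⟨h1, h2⟩ | ⟨h1, h2⟩) | ⟨_, h2, h3⟩)
    · exact ⟨h2.symm, adj_of_T_left h1⟩
    · exact ⟨h2.symm, adj_of_T_right h1⟩
    · exact ⟨h2.symm, bas_mem_Ty.1 h3⟩

/-- the degree by classes -/
theorem dg_split (hk : 5 ≤ k) (x : ZMod k → V) (w : V) :
    dg G k w = ∑ j : ZMod k, uu G k x j w + nn G k x w := by
  have hd : Disjoint ((univ : Finset (ZMod k)).biUnion
      (fun j => (T G k j x).filter (fun z => G.Adj z w)))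
      ((nonT G k x).filter (fun z => G.Adj z w)) := by
    rw [disjoint_left]
    intro z hz hz'
    obtain ⟨j, _, h2⟩ := mem_biUnion.1 hz
    have h3 := (mem_filter.1 hz').1
    unfold nonT at h3
    rw [mem_filter] at h3
    exact h3.2 j (mem_filter.1 h2).1
  have e2 : nb G w = (univ : Finset (ZMod k)).biUnion
      (fun j => (T G k j x).filter (fun z => G.Adj z w)) ∪
      (nonT G k x).filter (fun z => G.Adj z w) := by
    ext z
    rw [mem_union, mem_filter, mem_biUnion, bas_mem_nb]
    constructor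
    · intro h2
      by_cases h3 : z ∈ nonT G k x
      · right; exact ⟨h3, h2.symm⟩
      · left
        have hT' : ∃ j : ZMod k, z ∈ T G k j x := by simpa [nonT] using h3
        obtain ⟨j, hj⟩ := hT'
        exact ⟨j, mem_univ _, mem_filter.2 ⟨hj, h2.symm⟩⟩
    · rintro (⟨j, _, h2⟩ | ⟨_, h2⟩)
      · rw [mem_filter] at h2
        exact h2.2.symm
      · exact h2.symm
  have e3 : mu k ((univ : Finset (ZMod k)).biUnion
      (fun j => (T G k j x).filter (fun z => G.Adj z w))) = ∑ j : ZMod k, uu G k x j w := by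
    unfold uu mu
    rw [card_biUnion, ← mul_sum]
    · push_cast
      rfl
    · intro i _ j _ hij
      rw [Function.onFun, disjoint_left]
      intro z hz hz'
      exact hij (T_disjoint hk (mem_filter.1 hz).1 (mem_filter.1 hz').1)
  unfold dg nn
  rw [e2, mu_disj_union hd, e3]

/-- sums over positions count the neighbours with the size of their type -/
theorem sum_cM (x : ZMod k → V) (w : V) (S : Finset (ZMod k)) :
    ∑ b ∈ S, cM G k w (x b) =
      ∑ z ∈ nb G w, kap V k * ((Ty G k x z ∩ S).card : ℝ) := by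
  have h : ∀ b ∈ S, cM G k w (x b) = ∑ z ∈ nb G w, if b ∈ Ty G k x z then kap V k else 0 := by
    intro b _
    unfold cM
    rw [mu_eq_sum, sum_filter]
    refine sum_congr rfl fun z _ => ?_
    simp only [bas_mem_Ty]
  rw [sum_congr rfl h, sum_comm]
  refine sum_congr rfl fun z _ => ?_
  rw [← sum_filter, sum_const, nsmul_eq_mul, mul_comm]
  congr 3
  ext b
  rw [mem_filter, mem_inter, and_comm]

/-- a class next to a position of the type of `w` has no neighbour of `w` -/
lemma uu_eq_zero (tf : ∀ a b c : V, G.Adj a b → G.Adj b c → ¬ G.Adj a c) {x : ZMod k → V}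
    {w : V} {j b : ZMod k} (hb : b ∈ Ty G k x w) (hj : b = j - 1 ∨ b = j + 1) :
    uu G k x j w = 0 := by
  unfold uu mu
  rw [filter_false_of_mem, card_empty, Nat.cast_zero, mul_zero]
  intro z hz h2
  have h3 := (rot_adj_of_mem_T hz b).2 hj
  exact tf (x b) z w h3 h2 (bas_mem_Ty.1 hb)

lemma DD_eq_mu (tf : ∀ a b c : V, G.Adj a b → G.Adj b c → ¬ G.Adj a c) {x : ZMod k → V}
    {w : V} {j b : ZMod k} (hb : b ∈ Ty G k x w) (hj : b = j - 1 ∨ b = j + 1) :
    DD G k x j w = mu k (T G k j x) := by
  have h1 := uu_add_DD (G := G) x j w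
  rw [uu_eq_zero tf hb hj] at h1
  linarith

lemma uu_le_mu (x : ZMod k → V) (j : ZMod k) (w : V) : uu G k x j w ≤ mu k (T G k j x) :=
  mu_sub_le (filter_subset _ _)

lemma DD_le_mu (x : ZMod k → V) (j : ZMod k) (w : V) : DD G k x j w ≤ mu k (T G k j x) :=
  mu_sub_le (filter_subset _ _)

/-- the class `T b` consists of neighbours of `x (b - 1)` and `x (b + 1)`: common part with a
vertex of the class -/
lemma uu_x_succ (hk : 5 ≤ k) {x : ZMod k → V} (j : ZMod k) :
    uu G k x j (x (j + 1)) = mu k (T G k j x) := by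
  unfold uu
  congr 1
  refine filter_true_of_mem fun z hz => ?_
  exact ((rot_adj_of_mem_T hz _).2 (Or.inr rfl)).symm

lemma uu_x_pred (hk : 5 ≤ k) {x : ZMod k → V} (j : ZMod k) :
    uu G k x j (x (j - 1)) = mu k (T G k j x) := by
  unfold uu
  congr 1
  refine filter_true_of_mem fun z hz => ?_
  exact ((rot_adj_of_mem_T hz _).2 (Or.inl rfl)).symm

/-! ### the position masses -/

/-- mass of the vertices outside the twin classes that see the position `b` -/
noncomputable def nB (G : SimpleGraph V) (k : ℕ) [NeZero k] (x : ZMod k → V) (b : ZMod k) : ℝ :=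
  mu k ((nonT G k x).filter (fun z => b ∈ Ty G k x z))

lemma nB_nonneg (x : ZMod k → V) (b : ZMod k) : 0 ≤ nB G k x b := mu_nonneg _

/-- the degree of a position -/
theorem dg_x (hk : 5 ≤ k) (x : ZMod k → V) (b : ZMod k) :
    dg G k (x b) = mu k (T G k (b - 1) x) + mu k (T G k (b + 1) x) + nB G k x b := by
  have hd1 : Disjoint (T G k (b - 1) x) (T G k (b + 1) x) := by
    rw [disjoint_left]
    intro z hz hz'
    exact sub_ne_add' hk b (T_disjoint hk hz hz')
  have hd2 : Disjoint (T G k (b - 1) x ∪ T G k (b + 1) x)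
      ((nonT G k x).filter (fun z => b ∈ Ty G k x z)) := by
    rw [disjoint_left]
    intro z hz hz'
    have h1 := (mem_filter.1 hz').1
    unfold nonT at h1
    rw [mem_filter] at h1
    rcases mem_union.1 hz with h | h
    · exact h1.2 _ h
    · exact h1.2 _ h
  unfold dg nB
  rw [← mu_disj_union hd1, ← mu_disj_union hd2]
  congr 1
  ext z
  rw [bas_mem_nb, mem_union, mem_union, mem_filter]
  constructor
  · intro h2
    by_cases hn : z ∈ nonT G k x
    · right; exact ⟨hn, bas_mem_Ty.2 h2⟩
    · left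
      have hT' : ∃ j : ZMod k, z ∈ T G k j x := by simpa [nonT] using hn
      obtain ⟨j, hj⟩ := hT'
      rcases (rot_adj_of_mem_T hj b).1 h2 with h | h
      · right
        have e : j = b + 1 := by rw [h]; ring
        rw [← e]
        exact hj
      · left
        have e : j = b - 1 := by rw [h]; ring
        rw [← e]
        exact hj
  · rintro ((h1 | h1) | ⟨_, h3⟩)
    · exact adj_of_T_left h1
    · exact adj_of_T_right h1
    · exact bas_mem_Ty.1 h3

/-- the masses `nB` count the vertices outside the twin classes with the size of their type -/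
theorem sum_nB (x : ZMod k → V) :
    ∑ b : ZMod k, nB G k x b = ∑ z ∈ nonT G k x, kap V k * ((Ty G k x z).card : ℝ) := by
  have h : ∀ b : ZMod k, nB G k x b =
      ∑ z ∈ nonT G k x, if b ∈ Ty G k x z then kap V k else 0 := by
    intro b
    unfold nB
    rw [mu_eq_sum, sum_filter]
  rw [sum_congr rfl fun b _ => h b, sum_comm]
  refine sum_congr rfl fun z _ => ?_
  rw [← sum_filter, sum_const, nsmul_eq_mul, mul_comm]
  congr 3
  ext b
  simp

omit [NeZero k] in
lemma mu_univ [Nonempty V] : mu k (univ : Finset V) = (k : ℝ) := by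
  unfold mu kap
  rw [card_univ]
  have : (Fintype.card V : ℝ) ≠ 0 := by exact_mod_cast Fintype.card_ne_zero
  field_simp

/-- the total mass is `k` -/
theorem sum_tau (hk : 5 ≤ k) [Nonempty V] (x : ZMod k → V) :
    ∑ b : ZMod k, mu k (T G k b x) + mu k (nonT G k x) = (k : ℝ) := by
  rw [← mu_univ (V := V) (k := k)]
  have hd : Disjoint ((univ : Finset (ZMod k)).biUnion (fun j => T G k j x))
      (nonT G k x) := by
    rw [disjoint_left]
    intro z hz h3
    obtain ⟨j, _, h2⟩ := mem_biUnion.1 hz
    unfold nonT at h3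
    rw [mem_filter] at h3
    exact h3.2 j h2
  have e2 : (univ : Finset V) = (univ : Finset (ZMod k)).biUnion (fun j => T G k j x) ∪
      nonT G k x := by
    ext z
    rw [mem_union, mem_biUnion]
    refine ⟨fun _ => ?_, fun _ => mem_univ _⟩
    by_cases h3 : z ∈ nonT G k x
    · right; exact h3
    · left
      have hT' : ∃ j : ZMod k, z ∈ T G k j x := by simpa [nonT] using h3
      obtain ⟨j, hj⟩ := hT'
      exact ⟨j, mem_univ _, hj⟩
  have e3 : mu k ((univ : Finset (ZMod k)).biUnion (fun j => T G k j x)) =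
      ∑ j : ZMod k, mu k (T G k j x) := by
    unfold mu
    rw [card_biUnion, ← mul_sum]
    · push_cast
      rfl
    · intro i _ j _ hij
      rw [Function.onFun, disjoint_left]
      intro z hz hz'
      exact hij (T_disjoint hk hz hz')
  rw [e2, mu_disj_union hd, e3]

/-- the missing masses of the classes sum to the mass outside the classes -/
theorem sum_one_sub_tau (hk : 5 ≤ k) [Nonempty V] (x : ZMod k → V) :
    ∑ b : ZMod k, (1 - mu k (T G k b x)) = mu k (nonT G k x) := by
  have h := sum_tau (G := G) hk x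
  rw [sum_sub_distrib, sum_const, card_univ, ZMod.card, nsmul_eq_mul, mul_one]
  linarith

/-- the degrees of the positions -/
theorem sum_dg_x (hk : 5 ≤ k) [Nonempty V] (x : ZMod k → V) :
    ∑ b : ZMod k, (dg G k (x b) - 2) =
      ∑ z ∈ nonT G k x, kap V k * (((Ty G k x z).card : ℝ) - 2) := by
  have h1 := sum_nB (G := G) x
  have h2 := sum_one_sub_tau (G := G) hk x
  have e1 : ∑ b : ZMod k, mu k (T G k (b - 1) x) = ∑ b : ZMod k, mu k (T G k b x) :=
    Equiv.sum_comp (Equiv.subRight (1 : ZMod k)) (fun b => mu k (T G k b x))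
  have e2 : ∑ b : ZMod k, mu k (T G k (b + 1) x) = ∑ b : ZMod k, mu k (T G k b x) :=
    Equiv.sum_comp (Equiv.addRight (1 : ZMod k)) (fun b => mu k (T G k b x))
  have e3 : ∑ z ∈ nonT G k x, kap V k * (((Ty G k x z).card : ℝ) - 2) =
      ∑ z ∈ nonT G k x, kap V k * ((Ty G k x z).card : ℝ) - 2 * mu k (nonT G k x) := by
    rw [mu_eq_sum, mul_sum, ← sum_sub_distrib]
    refine sum_congr rfl fun z _ => ?_
    ring
  rw [e3, ← h1, ← h2, sum_congr rfl fun b _ => by rw [dg_x (G := G) hk x b]]
  simp only [sum_sub_distrib, sum_add_distrib, mul_sub, mul_sum, e1, e2, sum_const, card_univ,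
    ZMod.card, nsmul_eq_mul]
  rw [← mul_sum]
  ring

/-! ### the type -/

/-- the type of `w` contains no two neighbouring positions -/
lemma not_mem_Ty_succ (tf : ∀ a b c : V, G.Adj a b → G.Adj b c → ¬ G.Adj a c) {x : ZMod k → V}
    (hx : x ∈ Cyc G k) {w : V} {i : ZMod k} (h : i ∈ Ty G k x w) : i + 1 ∉ Ty G k x w := by
  intro h2
  rw [bas_mem_Ty] at h h2
  exact tf _ _ _ (adj_succ hx i) h2 h

lemma not_mem_Ty_pred (tf : ∀ a b c : V, G.Adj a b → G.Adj b c → ¬ G.Adj a c) {x : ZMod k → V}
    (hx : x ∈ Cyc G k) {w : V} {i : ZMod k} (h : i ∈ Ty G k x w) : i - 1 ∉ Ty G k x w := by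
  intro h2
  apply not_mem_Ty_succ tf hx h2
  rwa [sub_add_cancel]

end Pool.Agent.ICyc.D
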