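import Pool.Agent.Lib.MP_131fce_co.D.Final
import Pool.Agent.Lib.MP_131fce_co.D.NbT

/-!
# Induced k-cycles in triangle-free graphs: the reduction with null functionals

`reduction2` allows in addition a multiplier that is bounded on `[0, k]` only (all degrees are at
most `k`), the functional `sum_j phi (d (x j)) - int phi (d)`, and exact null functionals.
`sum_class` moves a sum over the class `T b` to the position `b`.
-/

set_option autoImplicit false

namespace Pool.Agent.ICyc.D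

open Finset Pool.Agent.ICyc
open scoped Classical

section

variable {V : Type} [Fintype V] {G : SimpleGraph V} {k : ℕ} [NeZero k]

lemma dg_nonneg (w : V) : 0 ≤ dg G k w := mu_nonneg _

lemma dg_le_k (w : V) : dg G k w ≤ (k : ℝ) := by
  have hV : Nonempty V := ⟨w⟩
  rw [← mu_univ (V := V) (k := k)]
  exact mu_sub_le (subset_univ _)

/-- a sum over the class `T b` of data that do not see the position `b` -/
theorem sum_class (hk : 5 ≤ k) (tf : ∀ a b c : V, G.Adj a b → G.Adj b c → ¬ G.Adj a c)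
    (b : ZMod k) (F : (ZMod k → V) → V → ℝ)
    (hF : ∀ x ∈ Cyc G k, ∀ w ∈ T G k b x, F (Function.update x b w) (x b) = F x (x b)) :
    ∑ x ∈ Cyc G k, ∑ w ∈ T G k b x, kap V k * F x w =
      ∑ x ∈ Cyc G k, mu k (T G k b x) * F x (x b) := by
  rw [← sum_swap hk tf b (fun x w => kap V k * F x w)]
  refine sum_congr rfl fun x hx => ?_
  rw [mu_eq_sum, sum_mul]
  refine sum_congr rfl fun w hw => ?_
  rw [hF x hx w hw]

/-- the same for a function of the vertex only -/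
theorem sum_class' (hk : 5 ≤ k) (tf : ∀ a b c : V, G.Adj a b → G.Adj b c → ¬ G.Adj a c)
    (b : ZMod k) (F : V → ℝ) :
    ∑ x ∈ Cyc G k, ∑ w ∈ T G k b x, kap V k * F w =
      ∑ x ∈ Cyc G k, mu k (T G k b x) * F (x b) :=
  sum_class hk tf b (fun _ w => F w) fun _ _ _ _ => rfl

/-- all classes -/
theorem sum_classes_null (hk : 5 ≤ k) (tf : ∀ a b c : V, G.Adj a b → G.Adj b c → ¬ G.Adj a c)
    (F : V → ℝ) :
    ∑ x ∈ Cyc G k, (∑ b : ZMod k, mu k (T G k b x) * F (x b) -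
      ∑ b : ZMod k, ∑ w ∈ T G k b x, kap V k * F w) = 0 := by
  rw [sum_sub_distrib, sub_eq_zero, sum_comm]
  conv_rhs => rw [sum_comm]
  exact sum_congr rfl fun b _ => (sum_class' hk tf b F).symm

end

section

variable {V : Type} [Fintype V] {G : SimpleGraph V} {k : ℕ} [NeZero k]

/-- the decoupled form, with a functional `Z` of total at most `E` -/
theorem asmE (hk : 6 ≤ k) (tf : ∀ a b c : V, G.Adj a b → G.Adj b c → ¬ G.Adj a c)
    (hne : (Cyc G k).Nonempty) {L : ℕ} (hL : 3 ≤ L) (hLk : L + 3 ≤ k) {K : V → V → ℝ}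
    (hK : Ker G k L K) (Ow Rw Tw Fl : (ZMod k → V) → V → ℝ)
    (hOw : ∑ x ∈ Cyc G k, ∑ a : ZMod k, own G k K x a ≤
      ∑ x ∈ Cyc G k, ∑ y ∈ nonT G k x, kap V k * Ow x y)
    (hRw : ∑ x ∈ Cyc G k, ∑ w : V, kap V k * Rw x w ≤
      ∑ x ∈ Cyc G k, ∑ a : ZMod k, ∑ l ∈ Icc 2 (k - 3), RL G k L l (rot a x))
    (hTw : ∑ x ∈ Cyc G k, ∑ a : ZMod k, twK G k K x a a ≤
      ∑ x ∈ Cyc G k, ∑ w : V, kap V k * Tw x w)
    (hFl : ∑ x ∈ Cyc G k, ∑ y : V, kap V k * Fl x y ≤ 0)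
    (g : V → ℝ) (Z : (ZMod k → V) → ℝ) {E : ℝ} (hZ : ∑ x ∈ Cyc G k, Z x ≤ E)
    (hx : ∀ x ∈ Cyc G k, Pos G k L K x ≤
      ∑ y ∈ nonT G k x, kap V k * (rD k (Ty G k x y) - Ow x y) +
      ∑ w : V, kap V k * (Rw x w - Tw x w + Fl x w +
        g w * (((Ty G k x w).card : ℝ) - dg G k w)) + Z x) :
    (k : ℝ) * (NN G k * Real.log (NN G k * kap V k ^ k / (2 * (k : ℝ)))) ≤
      ∑ x ∈ Cyc G k, ∑ y : V, kap V k * (g y * (((Ty G k x y).card : ℝ) - dg G k y)) + E := by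
  have h1 := frameQ hk tf hne hL hLk hK
  refine h1.trans ?_
  have e1 : ∑ x ∈ Cyc G k, QQ G k L K x =
      -∑ x ∈ Cyc G k, ∑ w ∈ nonT G k x, kap V k * rD k (Ty G k x w) +
      (∑ x ∈ Cyc G k, ∑ a : ZMod k, own G k K x a +
        ∑ x ∈ Cyc G k, ∑ a : ZMod k, twK G k K x a a) -
      ∑ x ∈ Cyc G k, ∑ a : ZMod k, ∑ l ∈ Icc 2 (k - 3), RL G k L l (rot a x) +
      ∑ x ∈ Cyc G k, Pos G k L K x := by
    rw [← sum_neg_distrib, ← sum_add_distrib, ← sum_add_distrib, ← sum_sub_distrib,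
      ← sum_add_distrib]
    refine sum_congr rfl fun x _ => ?_
    unfold QQ Pos
    rw [← sum_add_distrib (f := fun a => own G k K x a)]
    ring
  have h6 := sum_le_sum hx
  simp only [mul_add, mul_sub, sum_add_distrib, sum_sub_distrib] at h6
  have e3 : ∑ x ∈ Cyc G k, ∑ y : V, kap V k * (g y * (((Ty G k x y).card : ℝ) - dg G k y)) =
      ∑ x ∈ Cyc G k, ∑ y : V, kap V k * (g y * ((Ty G k x y).card : ℝ)) -
      ∑ x ∈ Cyc G k, ∑ y : V, kap V k * (g y * dg G k y) := by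
    rw [← sum_sub_distrib]
    refine sum_congr rfl fun x _ => ?_
    rw [← sum_sub_distrib]
    refine sum_congr rfl fun y _ => ?_
    ring
  rw [e1, e3]
  linarith

end

/-- **the reduction, general form** -/
theorem reduction2 {k : ℕ} [NeZero k] (hk : 6 ≤ k) {L : ℕ} (hL : 3 ≤ L) (hLk : L + 3 ≤ k)
    {B B' : ℝ} (g phi : ℝ → ℝ) (hg : ∀ t, 0 ≤ t → t ≤ (k : ℝ) → |g t| ≤ B)
    (hphi : ∀ t, 0 ≤ t → t ≤ (k : ℝ) → |phi t| ≤ B')
    (hQ : ∀ (U : Type) [Fintype U] (H : SimpleGraph U),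
      (∀ a b c : U, H.Adj a b → H.Adj b c → ¬ H.Adj a c) →
      ∃ (Ow Rw Tw Fl : (ZMod k → U) → U → ℝ) (Z : (ZMod k → U) → ℝ),
      (∑ x ∈ Cyc H k, ∑ a : ZMod k, own H k (KL H k L) x a ≤
        ∑ x ∈ Cyc H k, ∑ y ∈ nonT H k x, kap U k * Ow x y) ∧
      (∑ x ∈ Cyc H k, ∑ w : U, kap U k * Rw x w ≤
        ∑ x ∈ Cyc H k, ∑ a : ZMod k, ∑ l ∈ Icc 2 (k - 3), RL H k L l (rot a x)) ∧
      (∑ x ∈ Cyc H k, ∑ a : ZMod k, twK H k (KL H k L) x a a ≤
        ∑ x ∈ Cyc H k, ∑ w : U, kap U k * Tw x w) ∧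
      (∑ x ∈ Cyc H k, ∑ y : U, kap U k * Fl x y ≤ 0) ∧
      (∑ x ∈ Cyc H k, Z x ≤ 0) ∧
      ∀ x ∈ Cyc H k, Pos H k L (KL H k L) x ≤
        ∑ y ∈ nonT H k x, kap U k * (rD k (Ty H k x y) - Ow x y) +
        ∑ w : U, kap U k * (Rw x w - Tw x w + Fl x w +
          g (dg H k w) * (((Ty H k x w).card : ℝ) - dg H k w)) + Z x +
        (∑ j : ZMod k, phi (dg H k (x j)) - ∑ u : U, kap U k * phi (dg H k u)))
    {V : Type} [Fintype V] {G : SimpleGraph V}
    (tf : ∀ a b c : V, G.Adj a b → G.Adj b c → ¬ G.Adj a c) :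
    NN G k * kap V k ^ k ≤ 2 * (k : ℝ) := by
  refine no_counter (C := B * k * k + B' * k) ?_ tf
  intro U _ H tfH η hη hinc hne
  obtain ⟨Ow, Rw, Tw, Fl, Z, h1, h2, h3, h4, h7, h5⟩ := hQ U H tfH
  -- the mean of the functional of `phi`
  set E : ℝ := ∑ x ∈ Cyc H k,
    (∑ j : ZMod k, phi (dg H k (x j)) - ∑ u : U, kap U k * phi (dg H k u)) with hE
  have hcard : ((Cyc H k).card : ℝ) = NN H k := rfl
  have hE' : E ≤ η * B' * (k * NN H k) := by
    have h8 := l1 hinc (fun u => phi (dg H k u)) B'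
      (fun u => hphi _ (dg_nonneg u) (dg_le_k u))
    have e1 : E = ∑ x ∈ Cyc H k, ∑ j : ZMod k, phi (dg H k (x j)) -
        NN H k * ∑ u : U, kap U k * phi (dg H k u) := by
      rw [hE, sum_sub_distrib, sum_const, nsmul_eq_mul, hcard]
    rw [e1]
    exact (le_abs_self _).trans h8
  have h6 := asmE hk tfH hne hL hLk (Ker_KL (G := H) (k := k) (L := L) (by omega)) Ow Rw Tw Fl
    h1 h2 h3 h4 (fun u => g (dg H k u))
    (fun x => Z x + (∑ j : ZMod k, phi (dg H k (x j)) - ∑ u : U, kap U k * phi (dg H k u)))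
    (E := η * B' * (k * NN H k)) (by
      rw [sum_add_distrib, ← hE]
      linarith) (by
      intro x hx
      have := h5 x hx
      linarith)
  have h9 := l2 hinc (fun u => g (dg H k u)) B (fun u => hg _ (dg_nonneg u) (dg_le_k u))
  have h10 := (le_abs_self _).trans h9
  refine h6.trans ?_
  have h11 : η * (B * k) * (k * NN H k) + η * B' * (k * NN H k) =
      (B * k * k + B' * k) * η * NN H k := by ring
  rw [← h11]
  exact add_le_add h10 le_rfl

end Pool.Agent.ICyc.D
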