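import Pool.Agent.Lib.MP_131fce_co.D.FrameL

/-!
# Induced k-cycles in triangle-free graphs: the frame of the kernel-free scheme, all `k ≥ 6`

The reference weight of the path `x 1, x 2, x 3` is `P(x 2 | x 1) * om (x 3)`; the normaliser is
computed exactly from the conditional independence of the two neighbours of a position.
-/

set_option autoImplicit false

namespace Pool.Agent.ICyc.D

open Finset Pool.Agent.ICyc
open scoped Classical

variable {V : Type} [Fintype V] {G : SimpleGraph V} {k : ℕ} [NeZero k]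

/-- number of cycles with `x 0 = a` -/
noncomputable def N1 (G : SimpleGraph V) (k : ℕ) [NeZero k] (a : V) : ℝ :=
  ∑ x ∈ Cyc G k, if x 0 = a then (1 : ℝ) else 0

/-- number of cycles with `x 0 = a`, `x 1 = b` -/
noncomputable def N2 (G : SimpleGraph V) (k : ℕ) [NeZero k] (a b : V) : ℝ :=
  ∑ x ∈ Cyc G k, if x 0 = a ∧ x 1 = b then (1 : ℝ) else 0

/-- conditional probability of `x 1 = b` given `x 0 = a` -/
noncomputable def lw (G : SimpleGraph V) (k : ℕ) [NeZero k] (a b : V) : ℝ := N2 G k a b / N1 G k a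

/-- conditional probability of `x 1 ~ z` given `x 0 = a` -/
noncomputable def tw (G : SimpleGraph V) (k : ℕ) [NeZero k] (a z : V) : ℝ :=
  ∑ c : V, if G.Adj c z then lw G k a c else 0

lemma N1_nonneg (a : V) : 0 ≤ N1 G k a := sum_nonneg fun x _ => by split_ifs <;> norm_num

lemma N2_nonneg (a b : V) : 0 ≤ N2 G k a b := sum_nonneg fun x _ => by split_ifs <;> norm_num

lemma lw_nonneg (a b : V) : 0 ≤ lw G k a b := div_nonneg (N2_nonneg _ _) (N1_nonneg _)

lemma tw_nonneg (a z : V) : 0 ≤ tw G k a z := sum_nonneg fun c _ => by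
  split_ifs
  · exact lw_nonneg _ _
  · exact le_rfl

/-- reading off the first vertex -/
lemma sum_one (φ : V → ℝ) : ∑ x ∈ Cyc G k, φ (x 0) = ∑ a : V, N1 G k a * φ a := by
  unfold N1
  simp_rw [sum_mul]
  rw [sum_comm]
  refine sum_congr rfl fun x _ => ?_
  simp

/-- reading off the first two vertices -/
lemma sum_two (φ : V → V → ℝ) :
    ∑ x ∈ Cyc G k, φ (x 0) (x 1) = ∑ a : V, ∑ b : V, N2 G k a b * φ a b := by
  unfold N2
  simp_rw [sum_mul]
  have e : ∀ a : V, ∑ b : V, ∑ x ∈ Cyc G k, (if x 0 = a ∧ x 1 = b then (1 : ℝ) else 0) * φ a b =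
      ∑ x ∈ Cyc G k, if x 0 = a then φ a (x 1) else 0 := by
    intro a
    rw [sum_comm]
    refine sum_congr rfl fun x _ => ?_
    by_cases h : x 0 = a
    · simp [h]
    · simp [h]
  rw [sum_congr rfl fun a _ => e a, sum_comm]
  refine sum_congr rfl fun x _ => ?_
  simp

lemma N1_eq (a : V) : N1 G k a = ∑ b : V, N2 G k a b := by
  unfold N1 N2
  rw [sum_comm]
  refine sum_congr rfl fun x _ => ?_
  by_cases h : x 0 = a
  · simp [h]
  · simp [h]

lemma N2_eq_zero {a b : V} (h : N1 G k a = 0) : N2 G k a b = 0 := by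
  have h1 := N1_eq (G := G) (k := k) a
  rw [h] at h1
  exact (sum_eq_zero_iff_of_nonneg fun b _ => N2_nonneg a b).1 h1.symm b (mem_univ b)

lemma N1_mul_lw (a b : V) : N1 G k a * lw G k a b = N2 G k a b := by
  unfold lw
  by_cases h : N1 G k a = 0
  · rw [N2_eq_zero h, h]; simp
  · field_simp

/-- the tower property -/
lemma tower2 (φ : V → V → ℝ) :
    ∑ x ∈ Cyc G k, φ (x 0) (x 1) = ∑ x ∈ Cyc G k, ∑ c : V, lw G k (x 0) c * φ (x 0) c := by
  rw [sum_two, sum_one (fun a => ∑ c : V, lw G k a c * φ a c)]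
  refine sum_congr rfl fun a _ => ?_
  rw [mul_sum]
  refine sum_congr rfl fun c _ => ?_
  rw [← mul_assoc, N1_mul_lw]

lemma N1_pos {x : ZMod k → V} (hx : x ∈ Cyc G k) : 0 < N1 G k (x 0) := by
  unfold N1
  refine lt_of_lt_of_le one_pos ?_
  have h := single_le_sum (f := fun y : ZMod k → V => if y 0 = x 0 then (1 : ℝ) else 0)
    (fun y _ => by split_ifs <;> norm_num) hx
  simpa using h

lemma N2_pos {x : ZMod k → V} (hx : x ∈ Cyc G k) : 0 < N2 G k (x 0) (x 1) := by
  unfold N2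
  refine lt_of_lt_of_le one_pos ?_
  have h := single_le_sum
    (f := fun y : ZMod k → V => if y 0 = x 0 ∧ y 1 = x 1 then (1 : ℝ) else 0)
    (fun y _ => by split_ifs <;> norm_num) hx
  simpa using h

lemma lw_pos {x : ZMod k → V} (hx : x ∈ Cyc G k) : 0 < lw G k (x 0) (x 1) :=
  div_pos (N2_pos hx) (N1_pos hx)

lemma sum_lw {x : ZMod k → V} (hx : x ∈ Cyc G k) : ∑ c : V, lw G k (x 0) c = 1 := by
  unfold lw
  rw [← sum_div, ← N1_eq, div_self (N1_pos hx).ne']

lemma lw_adj {a b : V} (h : 0 < lw G k a b) : G.Adj a b := by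
  have h2 : N2 G k a b ≠ 0 := by
    intro h0
    unfold lw at h
    rw [h0, zero_div] at h
    exact lt_irrefl _ h
  unfold N2 at h2
  obtain ⟨x, hx, hne⟩ := exists_ne_zero_of_sum_ne_zero h2
  have hc : x 0 = a ∧ x 1 = b := by
    by_contra hcon
    exact hne (if_neg hcon)
  rw [← hc.1, ← hc.2]
  exact (bas_mem_Cyc.1 hx 0 1).2 (Or.inl (by ring))

/-! ### symmetries -/

lemma sum_flip (f : (ZMod k → V) → ℝ) :
    ∑ x ∈ Cyc G k, f (fun i => x (1 - i)) = ∑ x ∈ Cyc G k, f x := by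
  have h1 := sum_refl (G := G) (k := k) (fun y => f (fun i => y (i - 1)))
  have h2 := sum_rot (G := G) (k := k) (-1) f
  have e1 : ∀ x : ZMod k → V, (fun i : ZMod k => x (-(i - 1))) = fun i => x (1 - i) := by
    intro x; funext i; congr 1; ring
  have e2 : ∀ x : ZMod k → V, (fun i : ZMod k => x (i + -1)) = fun i => x (i - 1) := by
    intro x; funext i; congr 1; ring
  simp only [e1] at h1
  simp only [e2] at h2
  rw [h1, h2]

lemma sum_10 (φ : V → V → ℝ) :
    ∑ x ∈ Cyc G k, φ (x 1) (x 0) = ∑ x ∈ Cyc G k, φ (x 0) (x 1) := by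
  have h := sum_flip (G := G) (k := k) (fun x => φ (x 0) (x 1))
  simp only [sub_zero, sub_self] at h
  exact h

lemma sum_0m (φ : V → V → ℝ) :
    ∑ x ∈ Cyc G k, φ (x 0) (x (-1)) = ∑ x ∈ Cyc G k, φ (x 0) (x 1) := by
  have h := sum_refl (G := G) (k := k) (fun x => φ (x 0) (x 1))
  simp only [neg_zero] at h
  exact h

lemma sum_12 (φ : V → V → ℝ) :
    ∑ x ∈ Cyc G k, φ (x 1) (x 2) = ∑ x ∈ Cyc G k, φ (x 0) (x 1) := by
  have h := sum_rot (G := G) (k := k) 1 (fun x => φ (x 0) (x 1))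
  have e : (1 : ZMod k) + 1 = 2 := by norm_num
  simp only [zero_add, e] at h
  exact h

lemma sum_3 (φ : V → ℝ) : ∑ x ∈ Cyc G k, φ (x 3) = ∑ x ∈ Cyc G k, φ (x 0) := by
  have h := sum_rot (G := G) (k := k) 3 (fun x => φ (x 0))
  simp only [zero_add] at h
  exact h

/-! ### the entropy of one step -/

lemma entropy_one :
    ∑ x ∈ Cyc G k, -Real.log (lw G k (x 0) (x 1)) ≤
      ∑ x ∈ Cyc G k, Real.log ((nb G (x 0)).card : ℝ) := by
  have hcard : ∀ x ∈ Cyc G k, (0 : ℝ) < ((nb G (x 0)).card : ℝ) := by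
    intro x hx
    have h01 : G.Adj (x 0) (x 1) := (bas_mem_Cyc.1 hx 0 1).2 (Or.inl (by ring))
    exact_mod_cast card_pos.2 ⟨x 1, by rw [bas_mem_nb]; exact h01⟩
  have h1 : ∀ x ∈ Cyc G k, -Real.log (lw G k (x 0) (x 1)) - Real.log ((nb G (x 0)).card : ℝ) ≤
      1 / (lw G k (x 0) (x 1) * ((nb G (x 0)).card : ℝ)) - 1 := by
    intro x hx
    have hp := lw_pos hx
    have hc := hcard x hx
    have h2 := Real.log_le_sub_one_of_pos
      (show 0 < 1 / (lw G k (x 0) (x 1) * ((nb G (x 0)).card : ℝ)) by positivity)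
    rw [one_div, Real.log_inv, Real.log_mul hp.ne' hc.ne'] at h2
    rw [one_div]
    linarith
  have h3 := tower2 (G := G) (k := k)
    (fun a b => if 0 < lw G k a b then 1 / (lw G k a b * ((nb G a).card : ℝ)) else 0)
  have h4 : ∀ x ∈ Cyc G k, ∑ c : V, lw G k (x 0) c *
      (if 0 < lw G k (x 0) c then 1 / (lw G k (x 0) c * ((nb G (x 0)).card : ℝ)) else 0) ≤ 1 := by
    intro x hx
    have hc := hcard x hx
    have h5 : ∀ c : V, lw G k (x 0) c *
        (if 0 < lw G k (x 0) c then 1 / (lw G k (x 0) c * ((nb G (x 0)).card : ℝ)) else 0) ≤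
        if c ∈ nb G (x 0) then 1 / ((nb G (x 0)).card : ℝ) else 0 := by
      intro c
      by_cases h : 0 < lw G k (x 0) c
      · rw [if_pos h, if_pos (by rw [bas_mem_nb]; exact lw_adj h)]
        refine le_of_eq ?_
        field_simp
      · rw [if_neg h, mul_zero]
        split_ifs <;> positivity
    refine (sum_le_sum fun c _ => h5 c).trans ?_
    rw [← sum_filter]
    have e : univ.filter (fun c => c ∈ nb G (x 0)) = nb G (x 0) := by ext; simp
    rw [e, sum_const, nsmul_eq_mul, mul_one_div, div_self hc.ne']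
  have h6 := sum_le_sum h4
  rw [← h3] at h6
  have h7 : ∑ x ∈ Cyc G k, (fun a b => if 0 < lw G k a b then
      1 / (lw G k a b * ((nb G a).card : ℝ)) else 0) (x 0) (x 1) =
      ∑ x ∈ Cyc G k, 1 / (lw G k (x 0) (x 1) * ((nb G (x 0)).card : ℝ)) :=
    sum_congr rfl fun x hx => if_pos (lw_pos hx)
  rw [h7] at h6
  have h8 := sum_le_sum h1
  rw [sum_sub_distrib, sum_sub_distrib] at h8
  linarith

/-! ### the normaliser -/

/-- the cost of the normaliser at one position: `ze` is the tangent point, `s` is an arbitrary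
guess of the conditional probability `tw` -/
noncomputable def CE (G : SimpleGraph V) (k : ℕ) [NeZero k] (om : V → ℝ) (s : V → V → ℝ)
    (ze : V → ℝ) (x : ZMod k → V) : ℝ :=
  Real.log (ze (x 0)) - 1 + 1 / ze (x 0) * (kap V k * ∑ w : V, om w * (2 * s (x 0) w ^ 2 +
    ((if G.Adj (x 1) w then (1 : ℝ) else 0) + (if G.Adj (x (-1)) w then (1 : ℝ) else 0)) *
      (1 - 2 * s (x 0) w)))

lemma ZO_leE {om : V → ℝ} (hom : ∀ v, 0 ≤ om v) (a b : V) :
    ZO G k (fun _ b c d => lw G k b c * om d) a b ≤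
      kap V k ^ 2 * ∑ d : V, om d * ((if G.Adj a d then (0 : ℝ) else 1) * tw G k b d) := by
  unfold ZO
  refine mul_le_mul_of_nonneg_left ?_ (sq_nonneg _)
  unfold ext tw
  rw [sum_filter, Fintype.sum_prod_type, sum_comm]
  refine sum_le_sum fun d _ => ?_
  rw [mul_sum, mul_sum]
  refine sum_le_sum fun c _ => ?_
  dsimp only
  by_cases h1 : G.Adj a d
  · rw [if_neg (fun h => h.2.2 h1), if_pos h1]
    simp
  · rw [if_neg h1, one_mul]
    by_cases h2 : G.Adj c d
    · rw [if_pos h2]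
      by_cases h3 : G.Adj b c
      · rw [if_pos ⟨h3, h2, h1⟩, mul_comm]
      · rw [if_neg (fun h => h3 h.1)]
        exact mul_nonneg (hom d) (lw_nonneg _ _)
    · rw [if_neg (fun h => h2 h.2.1), if_neg h2, mul_zero]

lemma sum_normaliser {om : V → ℝ} (hom : ∀ v, 0 ≤ om v) {ze : V → ℝ} (hze : ∀ v, 0 < ze v)
    (s : V → V → ℝ) :
    ∑ x ∈ Cyc G k, 1 / ze (x 1) * (2 * kap V k *
        ∑ d : V, om d * ((if G.Adj (x 0) d then (0 : ℝ) else 1) * tw G k (x 1) d)) ≤
      ∑ x ∈ Cyc G k, 1 / ze (x 0) * (kap V k * ∑ w : V, om w * (2 * s (x 0) w ^ 2 +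
        ((if G.Adj (x 1) w then (1 : ℝ) else 0) + (if G.Adj (x (-1)) w then (1 : ℝ) else 0)) *
          (1 - 2 * s (x 0) w))) := by
  have h1 := sum_10 (G := G) (k := k) (fun b a => 1 / ze b * (2 * kap V k *
        ∑ d : V, om d * ((if G.Adj a d then (0 : ℝ) else 1) * tw G k b d)))
  rw [h1, tower2 (fun b a => 1 / ze b * (2 * kap V k *
        ∑ d : V, om d * ((if G.Adj a d then (0 : ℝ) else 1) * tw G k b d)))]
  -- the right side by the tower property
  have h2 : ∑ x ∈ Cyc G k, 1 / ze (x 0) * (kap V k * ∑ w : V, om w * (2 * s (x 0) w ^ 2 +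
        ((if G.Adj (x 1) w then (1 : ℝ) else 0) + (if G.Adj (x (-1)) w then (1 : ℝ) else 0)) *
          (1 - 2 * s (x 0) w))) =
      ∑ x ∈ Cyc G k, 1 / ze (x 0) * (kap V k * ∑ w : V, om w * (2 * s (x 0) w ^ 2 +
        2 * tw G k (x 0) w * (1 - 2 * s (x 0) w))) := by
    have e1 : ∀ u v z : V, 1 / ze u * (kap V k * ∑ w : V, om w * (2 * s u w ^ 2 +
        ((if G.Adj v w then (1 : ℝ) else 0) + (if G.Adj z w then (1 : ℝ) else 0)) *
          (1 - 2 * s u w))) =
        1 / ze u * (kap V k * ∑ w : V, om w * (2 * s u w ^ 2)) +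
        1 / ze u * (kap V k * ∑ w : V, om w * ((if G.Adj v w then (1 : ℝ) else 0) *
          (1 - 2 * s u w))) +
        1 / ze u * (kap V k * ∑ w : V, om w * ((if G.Adj z w then (1 : ℝ) else 0) *
          (1 - 2 * s u w))) := by
      intro u v z
      rw [← mul_add, ← mul_add, ← mul_add, ← mul_add, ← sum_add_distrib, ← sum_add_distrib]
      congr 2
      refine sum_congr rfl fun w _ => ?_
      ring
    rw [sum_congr rfl fun x _ => e1 (x 0) (x 1) (x (-1)), sum_add_distrib, sum_add_distrib]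
    have h3 := sum_0m (G := G) (k := k) (fun u z => 1 / ze u * (kap V k *
      ∑ w : V, om w * ((if G.Adj z w then (1 : ℝ) else 0) * (1 - 2 * s u w))))
    have h4 := tower2 (G := G) (k := k) (fun u z => 1 / ze u * (kap V k *
      ∑ w : V, om w * ((if G.Adj z w then (1 : ℝ) else 0) * (1 - 2 * s u w))))
    have h5 : ∀ u : V, ∑ c : V, lw G k u c * (1 / ze u * (kap V k *
        ∑ w : V, om w * ((if G.Adj c w then (1 : ℝ) else 0) * (1 - 2 * s u w)))) =
        1 / ze u * (kap V k * ∑ w : V, om w * (tw G k u w * (1 - 2 * s u w))) := by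
      intro u
      unfold tw
      simp_rw [mul_sum]
      rw [sum_comm]
      refine sum_congr rfl fun w _ => ?_
      rw [sum_mul, mul_sum, mul_sum, mul_sum]
      refine sum_congr rfl fun c _ => ?_
      split_ifs <;> ring
    have h6 : ∑ x ∈ Cyc G k, ∑ c : V, lw G k (x 0) c * (1 / ze (x 0) * (kap V k *
        ∑ w : V, om w * ((if G.Adj c w then (1 : ℝ) else 0) * (1 - 2 * s (x 0) w)))) =
        ∑ x ∈ Cyc G k, 1 / ze (x 0) * (kap V k *
          ∑ w : V, om w * (tw G k (x 0) w * (1 - 2 * s (x 0) w))) :=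
      sum_congr rfl fun x _ => h5 (x 0)
    rw [h3, h4, h6, ← sum_add_distrib, ← sum_add_distrib]
    refine sum_congr rfl fun x _ => ?_
    rw [← mul_add, ← mul_add, ← mul_add, ← mul_add, ← sum_add_distrib, ← sum_add_distrib]
    congr 2
    refine sum_congr rfl fun w _ => ?_
    ring
  rw [h2]
  refine sum_le_sum fun x hx => ?_
  have hs := sum_lw hx
  -- the left side
  have h6 : ∑ c : V, lw G k (x 0) c * (1 / ze (x 0) * (2 * kap V k *
        ∑ d : V, om d * ((if G.Adj c d then (0 : ℝ) else 1) * tw G k (x 0) d))) =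
      1 / ze (x 0) * (kap V k * ∑ d : V, om d * (2 * tw G k (x 0) d * (1 - tw G k (x 0) d))) := by
    have h7 : ∀ d : V, ∑ c : V, lw G k (x 0) c * (if G.Adj c d then (0 : ℝ) else 1) =
        1 - tw G k (x 0) d := by
      intro d
      have e : ∑ c : V, lw G k (x 0) c * (if G.Adj c d then (0 : ℝ) else 1) =
          ∑ c : V, lw G k (x 0) c - tw G k (x 0) d := by
        unfold tw
        rw [← sum_sub_distrib]
        refine sum_congr rfl fun c _ => ?_
        split_ifs <;> ring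
      rw [e, hs]
    simp_rw [mul_sum]
    rw [sum_comm]
    refine sum_congr rfl fun d _ => ?_
    rw [← h7 d]
    simp_rw [mul_sum]
    refine sum_congr rfl fun c _ => ?_
    ring
  rw [h6]
  refine mul_le_mul_of_nonneg_left ?_ (by have := hze (x 0); positivity)
  refine mul_le_mul_of_nonneg_left ?_ kap_nonneg
  refine sum_le_sum fun w _ => mul_le_mul_of_nonneg_left ?_ (hom w)
  nlinarith [sq_nonneg (tw G k (x 0) w - s (x 0) w)]

/-- the frame -/
theorem frameE (hk : 6 ≤ k) (tf : ∀ a b c : V, G.Adj a b → G.Adj b c → ¬ G.Adj a c)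
    (hne : (Cyc G k).Nonempty) {om : V → ℝ} (hom : ∀ v, 0 < om v) {ze : V → ℝ}
    (hze : ∀ v, 0 < ze v) (s : V → V → ℝ) (g : ℕ → (ZMod k → V) → V → ℝ)
    (hg : ∀ l : ℕ, 3 ≤ l → l + 3 ≤ k → ∀ x ∈ Cyc G k, ∀ x' ∈ cyl G k l x, ∀ y,
      g l x' y = g l x y)
    (g0 : ∀ l x y, 0 ≤ g l x y)
    (gpos : ∀ l : ℕ, 3 ≤ l → l + 3 ≤ k → ∀ x ∈ Cyc G k, 0 < g l x (x ((l + 1 : ℕ) : ZMod k))) :
    NN G k * Real.log (NN G k * kap V k ^ k / (2 * (k : ℝ))) ≤
      ∑ x ∈ Cyc G k, (2 * Real.log (dg G k (x 0) / 2) - Real.log (om (x 0)) +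
        CE G k om s ze x +
        ∑ l ∈ Icc 3 (k - 3), (Real.log (kap V k * ∑ y ∈ F G k l x, g l x y) -
          Real.log (g l x (x ((l + 1 : ℕ) : ZMod k)))) + Real.log (mu k (T G k (-1) x))) := by
  have hk5 : 5 ≤ k := by omega
  obtain ⟨x0, hx0⟩ := id hne
  have : Nonempty V := ⟨x0 0⟩
  have hkap : 0 < kap V k := kap_pos
  have hOm0 : ∀ a b c d : V, 0 ≤ (fun _ b c d => lw G k b c * om d : V → V → V → V → ℝ) a b c d :=
    fun a b c d => mul_nonneg (lw_nonneg _ _) (hom d).le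
  have hlw12 : ∀ x ∈ Cyc G k, 0 < lw G k (x 1) (x 2) := by
    intro x hx
    have h := lw_pos (rot_mem_Cyc 1 hx)
    have e : (1 : ZMod k) + 1 = 2 := by norm_num
    simpa only [zero_add, e] using h
  have hOmp : ∀ x ∈ Cyc G k, 0 < (fun _ b c d => lw G k b c * om d : V → V → V → V → ℝ)
      (x 0) (x 1) (x 2) (x 3) := fun x hx => mul_pos (hlw12 x hx) (hom _)
  have hgib := gibbs4 hk tf hne (fun _ b c d => lw G k b c * om d) hOm0 hOmp g hg g0 gpos
  refine hgib.trans ?_
  -- positivity of the normaliser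
  have hZ : ∀ x ∈ Cyc G k, 0 < ZO G k (fun _ b c d => lw G k b c * om d) (x 0) (x 1) := by
    intro x hx
    unfold ZO
    refine mul_pos (by positivity) ?_
    exact lt_of_lt_of_le (hOmp x hx) (single_le_sum
      (f := fun p : V × V => lw G k (x 1) p.1 * om p.2)
      (fun p _ => mul_nonneg (lw_nonneg _ _) (hom _).le) (mem_ext' hk5 hx))
  -- pointwise: the normaliser
  have hpt : ∀ x ∈ Cyc G k,
      Real.log (ZO G k (fun _ b c d => lw G k b c * om d) (x 0) (x 1)) ≤
        Real.log (kap V k / 2) + (Real.log (ze (x 1)) - 1) + 1 / ze (x 1) * (2 * kap V k *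
        ∑ d : V, om d * ((if G.Adj (x 0) d then (0 : ℝ) else 1) * tw G k (x 1) d)) := by
    intro x hx
    set Z := ZO G k (fun _ b c d => lw G k b c * om d) (x 0) (x 1) with hZdef
    have hz := hZ x hx
    have hze1 := hze (x 1)
    have h1 := Real.log_le_sub_one_of_pos (show 0 < Z * 2 / kap V k / ze (x 1) by positivity)
    rw [Real.log_div (by positivity) hze1.ne', Real.log_div (by positivity) hkap.ne',
      Real.log_mul hz.ne' two_ne_zero] at h1
    have h2 : Real.log (kap V k / 2) = Real.log (kap V k) - Real.log 2 :=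
      Real.log_div hkap.ne' two_ne_zero
    have h3 : Z * 2 / kap V k / ze (x 1) ≤ 1 / ze (x 1) * (2 * kap V k *
        ∑ d : V, om d * ((if G.Adj (x 0) d then (0 : ℝ) else 1) * tw G k (x 1) d)) := by
      have h4 := ZO_leE (G := G) (k := k) (fun v => (hom v).le) (x 0) (x 1)
      rw [← hZdef] at h4
      have h5 : Z * 2 / kap V k ≤ 2 * kap V k *
          ∑ d : V, om d * ((if G.Adj (x 0) d then (0 : ℝ) else 1) * tw G k (x 1) d) := by
        rw [div_le_iff₀ hkap]
        nlinarith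
      calc Z * 2 / kap V k / ze (x 1) = 1 / ze (x 1) * (Z * 2 / kap V k) := by ring
        _ ≤ _ := mul_le_mul_of_nonneg_left h5 (by positivity)
    linarith
  have hsum := sum_le_sum hpt
  have hnorm := sum_normaliser (G := G) (k := k) (fun v => (hom v).le) hze s
  have hent := entropy_one (G := G) (k := k)
  have h12 := sum_12 (G := G) (k := k) (fun a b => Real.log (lw G k a b))
  have h3 := sum_3 (G := G) (k := k) (fun a => Real.log (om a))
  have hz1 := sum_10 (G := G) (k := k) (fun a _ => Real.log (ze a) - 1)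
  have hlogOm : ∀ x ∈ Cyc G k, Real.log ((fun _ b c d => lw G k b c * om d : V → V → V → V → ℝ)
      (x 0) (x 1) (x 2) (x 3)) = Real.log (lw G k (x 1) (x 2)) + Real.log (om (x 3)) :=
    fun x hx => Real.log_mul (hlw12 x hx).ne' (hom _).ne'
  have hdg : ∀ x ∈ Cyc G k, Real.log ((nb G (x 0)).card : ℝ) =
      Real.log (dg G k (x 0) / 2) - Real.log (kap V k / 2) := by
    intro x hx
    have h01 : G.Adj (x 0) (x 1) := (bas_mem_Cyc.1 hx 0 1).2 (Or.inl (by ring))
    have hc : (0 : ℝ) < ((nb G (x 0)).card : ℝ) := by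
      exact_mod_cast card_pos.2 ⟨x 1, by rw [bas_mem_nb]; exact h01⟩
    unfold dg mu
    rw [mul_div_right_comm, Real.log_mul (by positivity) hc.ne']
    ring
  have hLHS : ∑ x ∈ Cyc G k, (Real.log (dg G k (x 0) / 2) +
      Real.log (ZO G k (fun _ b c d => lw G k b c * om d) (x 0) (x 1)) -
        Real.log ((fun _ b c d => lw G k b c * om d : V → V → V → V → ℝ)
          (x 0) (x 1) (x 2) (x 3)) +
        ∑ l ∈ Icc 3 (k - 3), (Real.log (kap V k * ∑ y ∈ F G k l x, g l x y) -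
          Real.log (g l x (x ((l + 1 : ℕ) : ZMod k)))) + Real.log (mu k (T G k (-1) x))) =
      ∑ x ∈ Cyc G k, Real.log (dg G k (x 0) / 2) +
      ∑ x ∈ Cyc G k, Real.log (ZO G k (fun _ b c d => lw G k b c * om d) (x 0) (x 1)) -
      (∑ x ∈ Cyc G k, Real.log (lw G k (x 0) (x 1)) + ∑ x ∈ Cyc G k, Real.log (om (x 0))) +
      ∑ x ∈ Cyc G k, (∑ l ∈ Icc 3 (k - 3), (Real.log (kap V k * ∑ y ∈ F G k l x, g l x y) -
          Real.log (g l x (x ((l + 1 : ℕ) : ZMod k)))) + Real.log (mu k (T G k (-1) x))) := by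
    rw [← h12, ← h3, ← sum_add_distrib, ← sum_add_distrib, ← sum_sub_distrib, ← sum_add_distrib]
    refine sum_congr rfl fun x hx => ?_
    rw [hlogOm x hx]
    ring
  rw [hLHS]
  have hRHS : ∑ x ∈ Cyc G k, (2 * Real.log (dg G k (x 0) / 2) - Real.log (om (x 0)) +
        CE G k om s ze x +
        ∑ l ∈ Icc 3 (k - 3), (Real.log (kap V k * ∑ y ∈ F G k l x, g l x y) -
          Real.log (g l x (x ((l + 1 : ℕ) : ZMod k)))) + Real.log (mu k (T G k (-1) x))) =
      2 * ∑ x ∈ Cyc G k, Real.log (dg G k (x 0) / 2) - ∑ x ∈ Cyc G k, Real.log (om (x 0)) +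
      ∑ x ∈ Cyc G k, CE G k om s ze x +
      ∑ x ∈ Cyc G k, (∑ l ∈ Icc 3 (k - 3), (Real.log (kap V k * ∑ y ∈ F G k l x, g l x y) -
          Real.log (g l x (x ((l + 1 : ℕ) : ZMod k)))) + Real.log (mu k (T G k (-1) x))) := by
    rw [mul_sum, ← sum_sub_distrib, ← sum_add_distrib, ← sum_add_distrib]
    refine sum_congr rfl fun x _ => ?_
    ring
  rw [hRHS]
  have hCE : ∑ x ∈ Cyc G k, CE G k om s ze x = ∑ x ∈ Cyc G k, (Real.log (ze (x 0)) - 1) +
      ∑ x ∈ Cyc G k, 1 / ze (x 0) * (kap V k * ∑ w : V, om w * (2 * s (x 0) w ^ 2 +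
        ((if G.Adj (x 1) w then (1 : ℝ) else 0) + (if G.Adj (x (-1)) w then (1 : ℝ) else 0)) *
          (1 - 2 * s (x 0) w))) := by
    rw [← sum_add_distrib]
    exact sum_congr rfl fun x _ => rfl
  rw [hCE]
  rw [sum_congr rfl hdg, sum_neg_distrib, sum_sub_distrib] at hent
  rw [sum_add_distrib, sum_add_distrib, hz1] at hsum
  linarith

end Pool.Agent.ICyc.D
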