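import Pool.Agent.Lib.MP_131fce_co.D.FrameE

/-!
# Induced k-cycles in triangle-free graphs: scheme E with a weight of pairs, all `k ≥ 6`

The reference weight of the path `x 1, x 2, x 3` is `P(x 2 | x 1) * om (x 1) (x 3)`.
-/

set_option autoImplicit false

namespace Pool.Agent.ICyc.D

open Finset Pool.Agent.ICyc
open scoped Classical

variable {V : Type} [Fintype V] {G : SimpleGraph V} {k : ℕ} [NeZero k]

lemma sum_13 (φ : V → V → ℝ) :
    ∑ x ∈ Cyc G k, φ (x 1) (x 3) = ∑ x ∈ Cyc G k, φ (x (-1)) (x 1) := by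
  have h := sum_rot (G := G) (k := k) 2 (fun x => φ (x (-1)) (x 1))
  have e1 : (-1 : ZMod k) + 2 = 1 := by norm_num
  have e2 : (1 : ZMod k) + 2 = 3 := by norm_num
  simp only [e1, e2] at h
  exact h

/-! ### the normaliser -/

/-- the cost of the normaliser at one position: `ze` is the tangent point, `s` is an arbitrary
guess of the conditional probability `tw` -/
noncomputable def CE2 (G : SimpleGraph V) (k : ℕ) [NeZero k] (om : V → V → ℝ) (s : V → V → ℝ)
    (ze : V → ℝ) (x : ZMod k → V) : ℝ :=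
  Real.log (ze (x 0)) - 1 + 1 / ze (x 0) * (kap V k * ∑ w : V, om (x 0) w * (2 * s (x 0) w ^ 2 +
    ((if G.Adj (x 1) w then (1 : ℝ) else 0) + (if G.Adj (x (-1)) w then (1 : ℝ) else 0)) *
      (1 - 2 * s (x 0) w)))

lemma ZO_leE2 {om : V → V → ℝ} (hom : ∀ u v, 0 ≤ om u v) (a b : V) :
    ZO G k (fun _ b c d => lw G k b c * om b d) a b ≤
      kap V k ^ 2 * ∑ d : V, om b d * ((if G.Adj a d then (0 : ℝ) else 1) * tw G k b d) := by
  unfold ZO
  refine mul_le_mul_of_nonneg_left ?_ (sq_nonneg _)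
  unfold ext tw
  rw [sum_filter, Fintype.sum_prod_type, sum_comm]
  refine sum_le_sum fun d _ => ?_
  rw [mul_sum, mul_sum]
  refine sum_le_sum fun c _ => ?_
  dsimp only
  by_cases h1 : G.Adj a d
  · rw [if_neg (fun h => h.2.2 h1), if_pos h1]
    simp
  · rw [if_neg h1, one_mul]
    by_cases h2 : G.Adj c d
    · rw [if_pos h2]
      by_cases h3 : G.Adj b c
      · rw [if_pos ⟨h3, h2, h1⟩, mul_comm]
      · rw [if_neg (fun h => h3 h.1)]
        exact mul_nonneg (hom b d) (lw_nonneg _ _)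
    · rw [if_neg (fun h => h2 h.2.1), if_neg h2, mul_zero]

lemma sum_normaliser2 {om : V → V → ℝ} (hom : ∀ u v, 0 ≤ om u v) {ze : V → ℝ} (hze : ∀ v, 0 < ze v)
    (s : V → V → ℝ) :
    ∑ x ∈ Cyc G k, 1 / ze (x 1) * (2 * kap V k *
        ∑ d : V, om (x 1) d * ((if G.Adj (x 0) d then (0 : ℝ) else 1) * tw G k (x 1) d)) ≤
      ∑ x ∈ Cyc G k, 1 / ze (x 0) * (kap V k * ∑ w : V, om (x 0) w * (2 * s (x 0) w ^ 2 +
        ((if G.Adj (x 1) w then (1 : ℝ) else 0) + (if G.Adj (x (-1)) w then (1 : ℝ) else 0)) *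
          (1 - 2 * s (x 0) w))) := by
  have h1 := sum_10 (G := G) (k := k) (fun b a => 1 / ze b * (2 * kap V k *
        ∑ d : V, om b d * ((if G.Adj a d then (0 : ℝ) else 1) * tw G k b d)))
  rw [h1, tower2 (fun b a => 1 / ze b * (2 * kap V k *
        ∑ d : V, om b d * ((if G.Adj a d then (0 : ℝ) else 1) * tw G k b d)))]
  -- the right side by the tower property
  have h2 : ∑ x ∈ Cyc G k, 1 / ze (x 0) * (kap V k * ∑ w : V, om (x 0) w * (2 * s (x 0) w ^ 2 +
        ((if G.Adj (x 1) w then (1 : ℝ) else 0) + (if G.Adj (x (-1)) w then (1 : ℝ) else 0)) *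
          (1 - 2 * s (x 0) w))) =
      ∑ x ∈ Cyc G k, 1 / ze (x 0) * (kap V k * ∑ w : V, om (x 0) w * (2 * s (x 0) w ^ 2 +
        2 * tw G k (x 0) w * (1 - 2 * s (x 0) w))) := by
    have e1 : ∀ u v z : V, 1 / ze u * (kap V k * ∑ w : V, om u w * (2 * s u w ^ 2 +
        ((if G.Adj v w then (1 : ℝ) else 0) + (if G.Adj z w then (1 : ℝ) else 0)) *
          (1 - 2 * s u w))) =
        1 / ze u * (kap V k * ∑ w : V, om u w * (2 * s u w ^ 2)) +
        1 / ze u * (kap V k * ∑ w : V, om u w * ((if G.Adj v w then (1 : ℝ) else 0) *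
          (1 - 2 * s u w))) +
        1 / ze u * (kap V k * ∑ w : V, om u w * ((if G.Adj z w then (1 : ℝ) else 0) *
          (1 - 2 * s u w))) := by
      intro u v z
      rw [← mul_add, ← mul_add, ← mul_add, ← mul_add, ← sum_add_distrib, ← sum_add_distrib]
      congr 2
      refine sum_congr rfl fun w _ => ?_
      ring
    rw [sum_congr rfl fun x _ => e1 (x 0) (x 1) (x (-1)), sum_add_distrib, sum_add_distrib]
    have h3 := sum_0m (G := G) (k := k) (fun u z => 1 / ze u * (kap V k *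
      ∑ w : V, om u w * ((if G.Adj z w then (1 : ℝ) else 0) * (1 - 2 * s u w))))
    have h4 := tower2 (G := G) (k := k) (fun u z => 1 / ze u * (kap V k *
      ∑ w : V, om u w * ((if G.Adj z w then (1 : ℝ) else 0) * (1 - 2 * s u w))))
    have h5 : ∀ u : V, ∑ c : V, lw G k u c * (1 / ze u * (kap V k *
        ∑ w : V, om u w * ((if G.Adj c w then (1 : ℝ) else 0) * (1 - 2 * s u w)))) =
        1 / ze u * (kap V k * ∑ w : V, om u w * (tw G k u w * (1 - 2 * s u w))) := by
      intro u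
      unfold tw
      simp_rw [mul_sum]
      rw [sum_comm]
      refine sum_congr rfl fun w _ => ?_
      rw [sum_mul, mul_sum, mul_sum, mul_sum]
      refine sum_congr rfl fun c _ => ?_
      split_ifs <;> ring
    have h6 : ∑ x ∈ Cyc G k, ∑ c : V, lw G k (x 0) c * (1 / ze (x 0) * (kap V k *
        ∑ w : V, om (x 0) w * ((if G.Adj c w then (1 : ℝ) else 0) * (1 - 2 * s (x 0) w)))) =
        ∑ x ∈ Cyc G k, 1 / ze (x 0) * (kap V k *
          ∑ w : V, om (x 0) w * (tw G k (x 0) w * (1 - 2 * s (x 0) w))) :=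
      sum_congr rfl fun x _ => h5 (x 0)
    rw [h3, h4, h6, ← sum_add_distrib, ← sum_add_distrib]
    refine sum_congr rfl fun x _ => ?_
    rw [← mul_add, ← mul_add, ← mul_add, ← mul_add, ← sum_add_distrib, ← sum_add_distrib]
    congr 2
    refine sum_congr rfl fun w _ => ?_
    ring
  rw [h2]
  refine sum_le_sum fun x hx => ?_
  have hs := sum_lw hx
  -- the left side
  have h6 : ∑ c : V, lw G k (x 0) c * (1 / ze (x 0) * (2 * kap V k *
        ∑ d : V, om (x 0) d * ((if G.Adj c d then (0 : ℝ) else 1) * tw G k (x 0) d))) =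
      1 / ze (x 0) * (kap V k * ∑ d : V, om (x 0) d * (2 * tw G k (x 0) d * (1 - tw G k (x 0) d))) := by
    have h7 : ∀ d : V, ∑ c : V, lw G k (x 0) c * (if G.Adj c d then (0 : ℝ) else 1) =
        1 - tw G k (x 0) d := by
      intro d
      have e : ∑ c : V, lw G k (x 0) c * (if G.Adj c d then (0 : ℝ) else 1) =
          ∑ c : V, lw G k (x 0) c - tw G k (x 0) d := by
        unfold tw
        rw [← sum_sub_distrib]
        refine sum_congr rfl fun c _ => ?_
        split_ifs <;> ring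
      rw [e, hs]
    simp_rw [mul_sum]
    rw [sum_comm]
    refine sum_congr rfl fun d _ => ?_
    rw [← h7 d]
    simp_rw [mul_sum]
    refine sum_congr rfl fun c _ => ?_
    ring
  rw [h6]
  refine mul_le_mul_of_nonneg_left ?_ (by have := hze (x 0); positivity)
  refine mul_le_mul_of_nonneg_left ?_ kap_nonneg
  refine sum_le_sum fun w _ => mul_le_mul_of_nonneg_left ?_ (hom (x 0) w)
  nlinarith [sq_nonneg (tw G k (x 0) w - s (x 0) w)]

/-- the frame -/
theorem frameE2 (hk : 6 ≤ k) (tf : ∀ a b c : V, G.Adj a b → G.Adj b c → ¬ G.Adj a c)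
    (hne : (Cyc G k).Nonempty) {om : V → V → ℝ} (hom : ∀ u v, 0 < om u v) {ze : V → ℝ}
    (hze : ∀ v, 0 < ze v) (s : V → V → ℝ) (g : ℕ → (ZMod k → V) → V → ℝ)
    (hg : ∀ l : ℕ, 3 ≤ l → l + 3 ≤ k → ∀ x ∈ Cyc G k, ∀ x' ∈ cyl G k l x, ∀ y,
      g l x' y = g l x y)
    (g0 : ∀ l x y, 0 ≤ g l x y)
    (gpos : ∀ l : ℕ, 3 ≤ l → l + 3 ≤ k → ∀ x ∈ Cyc G k, 0 < g l x (x ((l + 1 : ℕ) : ZMod k))) :
    NN G k * Real.log (NN G k * kap V k ^ k / (2 * (k : ℝ))) ≤
      ∑ x ∈ Cyc G k, (2 * Real.log (dg G k (x 0) / 2) - Real.log (om (x (-1)) (x 1)) +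
        CE2 G k om s ze x +
        ∑ l ∈ Icc 3 (k - 3), (Real.log (kap V k * ∑ y ∈ F G k l x, g l x y) -
          Real.log (g l x (x ((l + 1 : ℕ) : ZMod k)))) + Real.log (mu k (T G k (-1) x))) := by
  have hk5 : 5 ≤ k := by omega
  obtain ⟨x0, hx0⟩ := id hne
  have : Nonempty V := ⟨x0 0⟩
  have hkap : 0 < kap V k := kap_pos
  have hOm0 : ∀ a b c d : V, 0 ≤ (fun _ b c d => lw G k b c * om b d : V → V → V → V → ℝ) a b c d :=
    fun a b c d => mul_nonneg (lw_nonneg _ _) (hom b d).le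
  have hlw12 : ∀ x ∈ Cyc G k, 0 < lw G k (x 1) (x 2) := by
    intro x hx
    have h := lw_pos (rot_mem_Cyc 1 hx)
    have e : (1 : ZMod k) + 1 = 2 := by norm_num
    simpa only [zero_add, e] using h
  have hOmp : ∀ x ∈ Cyc G k, 0 < (fun _ b c d => lw G k b c * om b d : V → V → V → V → ℝ)
      (x 0) (x 1) (x 2) (x 3) := fun x hx => mul_pos (hlw12 x hx) (hom _ _)
  have hgib := gibbs4 hk tf hne (fun _ b c d => lw G k b c * om b d) hOm0 hOmp g hg g0 gpos
  refine hgib.trans ?_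
  -- positivity of the normaliser
  have hZ : ∀ x ∈ Cyc G k, 0 < ZO G k (fun _ b c d => lw G k b c * om b d) (x 0) (x 1) := by
    intro x hx
    unfold ZO
    refine mul_pos (by positivity) ?_
    exact lt_of_lt_of_le (hOmp x hx) (single_le_sum
      (f := fun p : V × V => lw G k (x 1) p.1 * om (x 1) p.2)
      (fun p _ => mul_nonneg (lw_nonneg _ _) (hom _ _).le) (mem_ext' hk5 hx))
  -- pointwise: the normaliser
  have hpt : ∀ x ∈ Cyc G k,
      Real.log (ZO G k (fun _ b c d => lw G k b c * om b d) (x 0) (x 1)) ≤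
        Real.log (kap V k / 2) + (Real.log (ze (x 1)) - 1) + 1 / ze (x 1) * (2 * kap V k *
        ∑ d : V, om (x 1) d * ((if G.Adj (x 0) d then (0 : ℝ) else 1) * tw G k (x 1) d)) := by
    intro x hx
    set Z := ZO G k (fun _ b c d => lw G k b c * om b d) (x 0) (x 1) with hZdef
    have hz := hZ x hx
    have hze1 := hze (x 1)
    have h1 := Real.log_le_sub_one_of_pos (show 0 < Z * 2 / kap V k / ze (x 1) by positivity)
    rw [Real.log_div (by positivity) hze1.ne', Real.log_div (by positivity) hkap.ne',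
      Real.log_mul hz.ne' two_ne_zero] at h1
    have h2 : Real.log (kap V k / 2) = Real.log (kap V k) - Real.log 2 :=
      Real.log_div hkap.ne' two_ne_zero
    have h3 : Z * 2 / kap V k / ze (x 1) ≤ 1 / ze (x 1) * (2 * kap V k *
        ∑ d : V, om (x 1) d * ((if G.Adj (x 0) d then (0 : ℝ) else 1) * tw G k (x 1) d)) := by
      have h4 := ZO_leE2 (G := G) (k := k) (fun u v => (hom u v).le) (x 0) (x 1)
      rw [← hZdef] at h4
      have h5 : Z * 2 / kap V k ≤ 2 * kap V k *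
          ∑ d : V, om (x 1) d * ((if G.Adj (x 0) d then (0 : ℝ) else 1) * tw G k (x 1) d) := by
        rw [div_le_iff₀ hkap]
        nlinarith
      calc Z * 2 / kap V k / ze (x 1) = 1 / ze (x 1) * (Z * 2 / kap V k) := by ring
        _ ≤ _ := mul_le_mul_of_nonneg_left h5 (by positivity)
    linarith
  have hsum := sum_le_sum hpt
  have hnorm := sum_normaliser2 (G := G) (k := k) (fun u v => (hom u v).le) hze s
  have hent := entropy_one (G := G) (k := k)
  have h12 := sum_12 (G := G) (k := k) (fun a b => Real.log (lw G k a b))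
  have h3 := sum_13 (G := G) (k := k) (fun a b => Real.log (om a b))
  have hz1 := sum_10 (G := G) (k := k) (fun a _ => Real.log (ze a) - 1)
  have hlogOm : ∀ x ∈ Cyc G k, Real.log ((fun _ b c d => lw G k b c * om b d : V → V → V → V → ℝ)
      (x 0) (x 1) (x 2) (x 3)) = Real.log (lw G k (x 1) (x 2)) + Real.log (om (x 1) (x 3)) :=
    fun x hx => Real.log_mul (hlw12 x hx).ne' (hom _ _).ne'
  have hdg : ∀ x ∈ Cyc G k, Real.log ((nb G (x 0)).card : ℝ) =
      Real.log (dg G k (x 0) / 2) - Real.log (kap V k / 2) := by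
    intro x hx
    have h01 : G.Adj (x 0) (x 1) := (bas_mem_Cyc.1 hx 0 1).2 (Or.inl (by ring))
    have hc : (0 : ℝ) < ((nb G (x 0)).card : ℝ) := by
      exact_mod_cast card_pos.2 ⟨x 1, by rw [bas_mem_nb]; exact h01⟩
    unfold dg mu
    rw [mul_div_right_comm, Real.log_mul (by positivity) hc.ne']
    ring
  have hLHS : ∑ x ∈ Cyc G k, (Real.log (dg G k (x 0) / 2) +
      Real.log (ZO G k (fun _ b c d => lw G k b c * om b d) (x 0) (x 1)) -
        Real.log ((fun _ b c d => lw G k b c * om b d : V → V → V → V → ℝ)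
          (x 0) (x 1) (x 2) (x 3)) +
        ∑ l ∈ Icc 3 (k - 3), (Real.log (kap V k * ∑ y ∈ F G k l x, g l x y) -
          Real.log (g l x (x ((l + 1 : ℕ) : ZMod k)))) + Real.log (mu k (T G k (-1) x))) =
      ∑ x ∈ Cyc G k, Real.log (dg G k (x 0) / 2) +
      ∑ x ∈ Cyc G k, Real.log (ZO G k (fun _ b c d => lw G k b c * om b d) (x 0) (x 1)) -
      (∑ x ∈ Cyc G k, Real.log (lw G k (x 0) (x 1)) + ∑ x ∈ Cyc G k, Real.log (om (x (-1)) (x 1))) +
      ∑ x ∈ Cyc G k, (∑ l ∈ Icc 3 (k - 3), (Real.log (kap V k * ∑ y ∈ F G k l x, g l x y) -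
          Real.log (g l x (x ((l + 1 : ℕ) : ZMod k)))) + Real.log (mu k (T G k (-1) x))) := by
    rw [← h12, ← h3, ← sum_add_distrib, ← sum_add_distrib, ← sum_sub_distrib, ← sum_add_distrib]
    refine sum_congr rfl fun x hx => ?_
    rw [hlogOm x hx]
    ring
  rw [hLHS]
  have hRHS : ∑ x ∈ Cyc G k, (2 * Real.log (dg G k (x 0) / 2) - Real.log (om (x (-1)) (x 1)) +
        CE2 G k om s ze x +
        ∑ l ∈ Icc 3 (k - 3), (Real.log (kap V k * ∑ y ∈ F G k l x, g l x y) -
          Real.log (g l x (x ((l + 1 : ℕ) : ZMod k)))) + Real.log (mu k (T G k (-1) x))) =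
      2 * ∑ x ∈ Cyc G k, Real.log (dg G k (x 0) / 2) - ∑ x ∈ Cyc G k, Real.log (om (x (-1)) (x 1)) +
      ∑ x ∈ Cyc G k, CE2 G k om s ze x +
      ∑ x ∈ Cyc G k, (∑ l ∈ Icc 3 (k - 3), (Real.log (kap V k * ∑ y ∈ F G k l x, g l x y) -
          Real.log (g l x (x ((l + 1 : ℕ) : ZMod k)))) + Real.log (mu k (T G k (-1) x))) := by
    rw [mul_sum, ← sum_sub_distrib, ← sum_add_distrib, ← sum_add_distrib]
    refine sum_congr rfl fun x _ => ?_
    ring
  rw [hRHS]
  have hCE : ∑ x ∈ Cyc G k, CE2 G k om s ze x = ∑ x ∈ Cyc G k, (Real.log (ze (x 0)) - 1) +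
      ∑ x ∈ Cyc G k, 1 / ze (x 0) * (kap V k * ∑ w : V, om (x 0) w * (2 * s (x 0) w ^ 2 +
        ((if G.Adj (x 1) w then (1 : ℝ) else 0) + (if G.Adj (x (-1)) w then (1 : ℝ) else 0)) *
          (1 - 2 * s (x 0) w))) := by
    rw [← sum_add_distrib]
    exact sum_congr rfl fun x _ => rfl
  rw [hCE]
  rw [sum_congr rfl hdg, sum_neg_distrib, sum_sub_distrib] at hent
  rw [sum_add_distrib, sum_add_distrib, hz1] at hsum
  linarith

end Pool.Agent.ICyc.D
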