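import Pool.Agent.Lib.MP_131fce_co.Defs
import Pool.Agent.Lib.MP_131fce_co.Rot
import Pool.Agent.Lib.MP_131fce_co.CntLe
import Pool.Agent.Lib.MP_131fce_co.SumCoef

/-!
# Induced k-cycles in triangle-free graphs: the linear table, pointwise form, all `k ≥ 6`
-/

set_option autoImplicit false

namespace Pool.Agent.ICyc.D

open Finset Pool.Agent.ICyc
open scoped Classical

variable {V : Type} [Fintype V] {G : SimpleGraph V} {k : ℕ} [NeZero k]

/-- the vertices that are in no twin class -/
noncomputable def nonT (G : SimpleGraph V) (k : ℕ) [NeZero k] (x : ZMod k → V) : Finset V :=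
  univ.filter (fun w => ∀ j : ZMod k, w ∉ T G k j x)

/-- reward of a type (the share `1` of the normaliser included) -/
noncomputable def rD (k : ℕ) (S : Finset (ZMod k)) : ℝ :=
  if S.card = 0 then (k : ℝ) - 1 else if S.card = 1 then 5 / 2 else 3 / 2 * (S.card : ℝ) - 1

omit [NeZero k] in
theorem two_ne_zero' (hk : 5 ≤ k) : (2 : ZMod k) ≠ 0 := by
  intro h
  have h' : ((2 : ℕ) : ZMod k) = 0 := by exact_mod_cast h
  rw [ZMod.natCast_eq_zero_iff] at h'
  have := Nat.le_of_dvd (by norm_num) h'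
  omega

omit [NeZero k] in
theorem four_ne_zero' (hk : 5 ≤ k) : (4 : ZMod k) ≠ 0 := by
  intro h
  have h' : ((4 : ℕ) : ZMod k) = 0 := by exact_mod_cast h
  rw [ZMod.natCast_eq_zero_iff] at h'
  have := Nat.le_of_dvd (by norm_num) h'
  omega

omit [NeZero k] in
theorem sub_ne_add' (hk : 5 ≤ k) (j : ZMod k) : j - 1 ≠ j + 1 := by
  intro h
  apply two_ne_zero' hk
  have h2 : (2 : ZMod k) = (j + 1) - (j - 1) := by ring
  rw [h2, ← h]
  ring

omit [NeZero k] in
theorem pair_card' (hk : 5 ≤ k) (j : ZMod k) : ({j - 1, j + 1} : Finset (ZMod k)).card = 2 :=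
  Finset.card_pair (sub_ne_add' hk j)

omit [NeZero k] in
theorem pair_inj' (hk : 5 ≤ k) {i j : ZMod k}
    (h : ({i - 1, i + 1} : Finset (ZMod k)) = {j - 1, j + 1}) : i = j := by
  have h1 : i - 1 ∈ ({j - 1, j + 1} : Finset (ZMod k)) := by rw [← h]; simp
  have h2 : i + 1 ∈ ({j - 1, j + 1} : Finset (ZMod k)) := by rw [← h]; simp
  simp only [mem_insert, mem_singleton] at h1 h2
  rcases h1 with h1 | h1
  · linear_combination h1
  · rcases h2 with h2 | h2
    · exfalso
      apply four_ne_zero' hk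
      have h3 : (4 : ZMod k) = 0 := by linear_combination h2 - h1
      exact h3
    · linear_combination h2

theorem T_disjoint (hk : 5 ≤ k) {x : ZMod k → V} {i j : ZMod k} {w : V} (hi : w ∈ T G k i x)
    (hj : w ∈ T G k j x) : i = j := by
  rw [bas_mem_T] at hi hj
  exact pair_inj' hk (hi.symm.trans hj)

theorem sum_T_boole (hk : 5 ≤ k) {x : ZMod k → V} {w : V} {j : ZMod k}
    (hw : w ∈ T G k j x) (f : ZMod k → ℝ) :
    (∑ i : ZMod k, if w ∈ T G k i x then f i else 0) = f j := by
  rw [Finset.sum_eq_single j]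
  · rw [if_pos hw]
  · intro i _ hij
    rw [if_neg]
    intro h
    exact hij (T_disjoint hk h hw)
  · intro h
    exact absurd (mem_univ j) h

theorem cnt_one' (hk : 6 ≤ k) {x : ZMod k → V} {w : V} (h : (Ty G k x w).card = 1) :
    cnt G k x w ≤ (k : ℝ) - 4 := by
  obtain ⟨b, hb⟩ := Finset.card_eq_one.mp h
  unfold cnt
  rw [Finset.sum_comm]
  calc _ ≤ ∑ _l ∈ Finset.Icc 2 (k - 3), (1 : ℝ) := by
        apply Finset.sum_le_sum
        intro l _
        calc _ ≤ ∑ a : ZMod k, (if a = b - (l : ZMod k) then (1 : ℝ) else 0) := by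
              apply Finset.sum_le_sum
              intro a _
              split_ifs with h1 h2 h2
              · exact le_refl _
              · exfalso
                apply h2
                have := (ic15_mem_F_rot.mp h1).2
                rw [hb, Finset.mem_singleton] at this
                rw [← this]
                ring
              · norm_num
              · exact le_refl _
          _ = 1 := by simp
    _ = (k : ℝ) - 4 := by
        rw [Finset.sum_const, Nat.card_Icc, nsmul_eq_mul, mul_one]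
        have : k - 3 + 1 - 2 = k - 4 := by omega
        rw [this, Nat.cast_sub (by omega)]
        norm_num

theorem cnt_many' (tf : ∀ a b c : V, G.Adj a b → G.Adj b c → ¬ G.Adj a c)
    {x : ZMod k → V} (hx : x ∈ Cyc G k) (w : V) :
    cnt G k x w ≤ (k : ℝ) - 2 * ((Ty G k x w).card : ℝ) := by
  refine (ic15_cnt_le_free x w).trans ?_
  have h2 := ic15_card_free_pair (Ty G k x w) (fun i hi => ic15_Ty_indep_aux tf hx hi)
  have h3 : (((univ.filter (fun a : ZMod k => a ∉ Ty G k x w ∧ a + 1 ∉ Ty G k x w)).card : ℝ)) +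
      2 * ((Ty G k x w).card : ℝ) = (k : ℝ) := by
    exact_mod_cast h2
  linarith

/-- the coefficient of a vertex in the linear table -/
theorem coefD_le (hk : 6 ≤ k) (tf : ∀ a b c : V, G.Adj a b → G.Adj b c → ¬ G.Adj a c)
    {x : ZMod k → V} (hx : x ∈ Cyc G k) (w : V) :
    ((Ty G k x w).card : ℝ) / 2 + cnt G k x w +
      (∑ j : ZMod k, if w ∈ T G k j x then (1 : ℝ) else 0) - ((k : ℝ) - 2) ≤
      if w ∈ nonT G k x then -(rD k (Ty G k x w) - 1) else 0 := by
  have hm := cnt_many' tf hx w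
  by_cases hT : w ∈ nonT G k x
  · rw [if_pos hT]
    have hT' : ∀ j : ZMod k, w ∉ T G k j x := by
      simpa [nonT] using hT
    have e : (∑ j : ZMod k, if w ∈ T G k j x then (1 : ℝ) else 0) = 0 :=
      sum_eq_zero fun j _ => if_neg (hT' j)
    rw [e]
    unfold rD
    split_ifs with h0 h1
    · have := ic15_cnt_zero h0
      rw [this, h0]
      push_cast
      linarith
    · have := cnt_one' hk h1
      rw [h1]
      push_cast
      linarith
    · linarith
  · rw [if_neg hT]
    have hT' : ∃ j : ZMod k, w ∈ T G k j x := by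
      simpa [nonT] using hT
    obtain ⟨j, hj⟩ := hT'
    rw [sum_T_boole (by omega) hj (fun _ => (1 : ℝ))]
    have hcard : (Ty G k x w).card = 2 := by
      rw [bas_mem_T.1 hj]; exact pair_card' (by omega) j
    rw [hcard] at hm ⊢
    push_cast at hm ⊢
    linarith

theorem sum_dg (x : ZMod k → V) : ∑ a : ZMod k, dg G k (x a) =
    ∑ w : V, kap V k * ((Ty G k x w).card : ℝ) := by
  have h1 : ∀ w : V, ((Ty G k x w).card : ℝ) = ∑ i : ZMod k, if G.Adj (x i) w then (1 : ℝ) else 0 := by
    intro w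
    rw [Ty, Finset.sum_boole]
  have h2 : ∀ i : ZMod k, dg G k (x i) = ∑ w : V, kap V k * (if G.Adj (x i) w then (1 : ℝ) else 0) := by
    intro i
    rw [dg, nb, mu_filter_sc]
  rw [Finset.sum_congr rfl (fun i _ => h2 i), Finset.sum_comm]
  refine Finset.sum_congr rfl (fun w _ => ?_)
  rw [← Finset.mul_sum, ← h1 w]

theorem sum_T (x : ZMod k → V) : ∑ a : ZMod k, mu k (T G k a x) =
    ∑ w : V, kap V k * (∑ j : ZMod k, if w ∈ T G k j x then (1 : ℝ) else 0) := by
  have h3 : ∀ j : ZMod k, mu k (T G k j x) =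
      ∑ w : V, kap V k * (if w ∈ T G k j x then (1 : ℝ) else 0) := by
    intro j
    rw [mu, ← Finset.mul_sum, Finset.sum_boole]
    congr 2
    congr 1
    ext w
    simp
  rw [Finset.sum_congr rfl (fun j _ => h3 j), Finset.sum_comm]
  refine Finset.sum_congr rfl (fun w _ => ?_)
  rw [Finset.mul_sum]

theorem sum_F (x : ZMod k → V) :
    ∑ a : ZMod k, ∑ l ∈ Icc 2 (k - 3), mu k (F G k l (fun i => x (i + a))) =
      ∑ w : V, kap V k * cnt G k x w := by
  have h3 : ∀ (a : ZMod k) (l : ℕ), mu k (F G k l (fun i => x (i + a))) =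
      ∑ w : V, kap V k * (if w ∈ F G k l (fun i => x (i + a)) then (1 : ℝ) else 0) := by
    intro a l
    rw [mu, ← Finset.mul_sum, Finset.sum_boole]
    congr 2
    congr 1
    ext w
    simp
  simp_rw [h3]
  rw [show (∑ a : ZMod k, ∑ l ∈ Icc 2 (k - 3), ∑ w : V, kap V k *
      (if w ∈ F G k l (fun i => x (i + a)) then (1 : ℝ) else 0)) =
      ∑ a : ZMod k, ∑ w : V, ∑ l ∈ Icc 2 (k - 3), kap V k *
      (if w ∈ F G k l (fun i => x (i + a)) then (1 : ℝ) else 0) from
      sum_congr rfl fun a _ => sum_comm, sum_comm]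
  refine sum_congr rfl fun w _ => ?_
  unfold cnt
  rw [mul_sum]
  refine sum_congr rfl fun a _ => ?_
  rw [mul_sum]

/-- the linear table: the first order cost of one cycle, one direction -/
theorem table (hk : 6 ≤ k) (tf : ∀ a b c : V, G.Adj a b → G.Adj b c → ¬ G.Adj a c)
    {x : ZMod k → V} (hx : x ∈ Cyc G k) :
    ∑ a : ZMod k, ((dg G k (x a) / 2 - 1) +
        ∑ l ∈ Icc 2 (k - 3), (mu k (F G k l (fun i => x (i + a))) - 1) +
        (mu k (T G k a x) - 1)) ≤
      -∑ w ∈ nonT G k x, kap V k * (rD k (Ty G k x w) - 1) := by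
  have : Nonempty V := ⟨x 0⟩
  have hcard : ((Icc 2 (k - 3)).card : ℝ) = (k : ℝ) - 4 := by
    rw [Nat.card_Icc]
    have : k - 3 + 1 - 2 = k - 4 := by omega
    rw [this, Nat.cast_sub (by omega)]
    norm_num
  have e1 : ∑ a : ZMod k, ((dg G k (x a) / 2 - 1) +
        ∑ l ∈ Icc 2 (k - 3), (mu k (F G k l (fun i => x (i + a))) - 1) +
        (mu k (T G k a x) - 1)) =
      (∑ a : ZMod k, dg G k (x a)) / 2 +
        ∑ a : ZMod k, ∑ l ∈ Icc 2 (k - 3), mu k (F G k l (fun i => x (i + a))) +
        ∑ a : ZMod k, mu k (T G k a x) - (k : ℝ) * ((k : ℝ) - 2) := by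
    rw [sum_div, ← sum_add_distrib, ← sum_add_distrib]
    have : (k : ℝ) * ((k : ℝ) - 2) = ∑ _a : ZMod k, ((k : ℝ) - 2) := by
      rw [sum_const, card_univ, ZMod.card, nsmul_eq_mul]
    rw [this, ← sum_sub_distrib]
    refine sum_congr rfl fun a _ => ?_
    rw [sum_sub_distrib, sum_const, nsmul_eq_mul, hcard]
    ring
  have e2 : (k : ℝ) * ((k : ℝ) - 2) = ∑ _w : V, kap V k * ((k : ℝ) - 2) := by
    rw [← sum_mul, sum_kap]
  rw [e1, sum_dg, sum_F, sum_T, e2, sum_div, ← sum_add_distrib, ← sum_add_distrib,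
    ← sum_sub_distrib, ← sum_neg_distrib, nonT, sum_filter]
  refine sum_le_sum fun w _ => ?_
  have h := coefD_le hk tf hx w
  have hkap : 0 ≤ kap V k := kap_nonneg
  have h2 := mul_le_mul_of_nonneg_left h hkap
  have hmem : w ∈ nonT G k x ↔ ∀ j : ZMod k, w ∉ T G k j x := by simp [nonT]
  by_cases hT : w ∈ nonT G k x
  · rw [if_pos (hmem.1 hT)]
    rw [if_pos hT] at h2
    linarith
  · rw [if_neg (fun h => hT (hmem.2 h))]
    rw [if_neg hT] at h2
    linarith

end Pool.Agent.ICyc.D
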