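import Pool.Agent.Lib.MP_131fce_co.D.FrameL
import Pool.Agent.Lib.MP_131fce_co.D.Table

/-!
# Induced k-cycles in triangle-free graphs: the frame, summed over the rotations, with the kernel
mass split into own part, twins and true part
-/

set_option autoImplicit false

namespace Pool.Agent.ICyc.D

open Finset Pool.Agent.ICyc
open scoped Classical

variable {V : Type} [Fintype V] {G : SimpleGraph V} {k : ℕ} [NeZero k]

/-- rotation -/
def rot (a : ZMod k) (x : ZMod k → V) : ZMod k → V := fun i => x (i + a)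

/-- kernel mass of the neighbours of `x (a + 1)` that are not twins, base `x a` -/
noncomputable def own (G : SimpleGraph V) (k : ℕ) [NeZero k] (K : V → V → ℝ) (x : ZMod k → V)
    (a : ZMod k) : ℝ :=
  ∑ w ∈ (nonT G k x).filter (fun w => G.Adj (x (a + 1)) w), kap V k * K w (x a)

/-- kernel mass of the twins of `x b`, base `x a` -/
noncomputable def twK (G : SimpleGraph V) (k : ℕ) [NeZero k] (K : V → V → ℝ) (x : ZMod k → V)
    (b a : ZMod k) : ℝ :=
  ∑ w ∈ T G k b x, kap V k * K w (x a)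

lemma adj_succ {x : ZMod k → V} (hx : x ∈ Cyc G k) (i : ZMod k) : G.Adj (x i) (x (i + 1)) :=
  (bas_mem_Cyc.1 hx i (i + 1)).2 (Or.inl rfl)

lemma mem_T_adj_succ {x : ZMod k → V} {j i : ZMod k} {w : V} (hw : w ∈ T G k j x) :
    G.Adj (x i) w ↔ (i = j - 1 ∨ i = j + 1) := by
  rw [bas_mem_T] at hw
  rw [← bas_mem_Ty, hw, mem_insert, mem_singleton]

/-- the neighbours of `x (a + 1)` -/
lemma ZK_split (hk : 5 ≤ k) (K : V → V → ℝ) (x : ZMod k → V) (a : ZMod k) :
    ZK G k K (x a) (x (a + 1)) = own G k K x a + twK G k K x a a + twK G k K x (a + 2) a := by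
  have e1 : nb G (x (a + 1)) = ((nonT G k x).filter (fun w => G.Adj (x (a + 1)) w) ∪
      (T G k a x ∪ T G k (a + 2) x)) := by
    ext w
    rw [bas_mem_nb, mem_union, mem_union, mem_filter]
    constructor
    · intro h
      by_cases hw : w ∈ nonT G k x
      · exact Or.inl ⟨hw, h⟩
      · right
        have : ∃ j : ZMod k, w ∈ T G k j x := by
          by_contra hcon
          push Not at hcon
          exact hw (by simpa [nonT] using hcon)
        obtain ⟨j, hj⟩ := this
        rcases (mem_T_adj_succ hj).1 h with h1 | h1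
        · right
          have : j = a + 2 := by linear_combination (-1 : ZMod k) * h1
          rwa [this] at hj
        · left
          have : j = a := by linear_combination (-1 : ZMod k) * h1
          rwa [this] at hj
    · rintro (h | h | h)
      · exact h.2
      · exact (mem_T_adj_succ h).2 (Or.inr rfl)
      · exact (mem_T_adj_succ h).2 (Or.inl (by ring))
  have hd1 : Disjoint ((nonT G k x).filter (fun w => G.Adj (x (a + 1)) w))
      (T G k a x ∪ T G k (a + 2) x) := by
    rw [disjoint_left]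
    intro w h1 h2
    rw [mem_filter] at h1
    have h3 : ∀ j : ZMod k, w ∉ T G k j x := by simpa [nonT] using h1.1
    rcases mem_union.1 h2 with h | h
    · exact h3 _ h
    · exact h3 _ h
  have hd2 : Disjoint (T G k a x) (T G k (a + 2) x) := by
    rw [disjoint_left]
    intro w h1 h2
    have h := T_disjoint hk h1 h2
    exact two_ne_zero' hk (by linear_combination (-1 : ZMod k) * h)
  unfold ZK own twK
  rw [e1, sum_union hd1, sum_union hd2, mul_add, mul_add, mul_sum, mul_sum, mul_sum]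
  ring


lemma T_rot (a j : ZMod k) (x : ZMod k → V) : T G k j (rot a x) = T G k (j + a) x := by
  have hTy : ∀ w : V, Ty G k (rot a x) w = (Ty G k x w).image (fun i => i - a) := by
    intro w
    ext i
    rw [mem_image]
    constructor
    · intro h
      exact ⟨i + a, (mem_Ty_rot a x w i).1 h, by ring⟩
    · rintro ⟨i', h, rfl⟩
      refine (mem_Ty_rot a x w (i' - a)).2 ?_
      rwa [sub_add_cancel]
  have hinj : Function.Injective (fun i : ZMod k => i - a) := fun u v h => by
    simpa using h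
  ext w
  rw [bas_mem_T, bas_mem_T, hTy]
  have e : ({j - 1, j + 1} : Finset (ZMod k)) = ({j + a - 1, j + a + 1} : Finset (ZMod k)).image
      (fun i => i - a) := by
    rw [image_insert, image_singleton]
    congr 1
    · ring
    · congr 1; ring
  rw [e]
  exact (image_injective hinj).eq_iff

/-- the total mass -/
lemma mass_split (hk : 5 ≤ k) [Nonempty V] (x : ZMod k → V) :
    (k : ℝ) = ∑ _w ∈ nonT G k x, kap V k + ∑ a : ZMod k, mu k (T G k a x) := by
  rw [sum_T, ← sum_kap (V := V) (k := k), nonT, sum_filter, ← sum_add_distrib]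
  refine sum_congr rfl fun w _ => ?_
  by_cases h : ∀ j : ZMod k, w ∉ T G k j x
  · rw [if_pos h, sum_eq_zero fun j _ => if_neg (h j), mul_zero, add_zero]
  · rw [if_neg h, zero_add]
    have hT' : ∃ j : ZMod k, w ∈ T G k j x := by simpa using h
    obtain ⟨j, hj⟩ := hT'
    rw [sum_T_boole hk hj (fun _ => (1 : ℝ)), mul_one]

/-- the functional summed over the rotations, pointwise -/
noncomputable def QQ (G : SimpleGraph V) (k : ℕ) [NeZero k] (L : ℕ) (K : V → V → ℝ)
    (x : ZMod k → V) : ℝ :=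
  -∑ w ∈ nonT G k x, kap V k * rD k (Ty G k x w) +
    ∑ a : ZMod k, (own G k K x a + twK G k K x a a) +
    ∑ a : ZMod k, (1 - mu k (T G k (a + 2) x)) * (1 - K (x (a + 2)) (x a)) -
    ∑ a : ZMod k, ∑ l ∈ Icc 2 (k - 3), RL G k L l (rot a x) -
    ∑ a : ZMod k, (JJ (dg G k (x a) / 2) + JJ (ZK G k K (x a) (x (a + 1))) +
      JJ (mu k (T G k a x)) +
      ∑ l ∈ Icc 3 (k - 3), JJ (max 1 (mu k (F G k l (rot a x)) - RL G k L l (rot a x))))

lemma GG_rot (L : ℕ) (K : V → V → ℝ) (x : ZMod k → V) (a : ZMod k) :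
    GG G k L K (rot a x) = ((dg G k (x a) / 2 - 1) +
      ∑ l ∈ Icc 2 (k - 3), (mu k (F G k l (fun i => x (i + a))) - 1)) +
      (mu k (T G k (a - 1) x) - 1) +
      (ZK G k K (x a) (x (a + 1)) - 1) + (1 - K (x (a + 2)) (x a)) -
      ∑ l ∈ Icc 2 (k - 3), RL G k L l (rot a x) -
      (JJ (dg G k (x a) / 2) + JJ (ZK G k K (x a) (x (a + 1))) +
      ∑ l ∈ Icc 3 (k - 3), JJ (max 1 (mu k (F G k l (rot a x)) - RL G k L l (rot a x)))) -
      JJ (mu k (T G k (a - 1) x)) := by
  have e0 : rot a x 0 = x a := by unfold rot; rw [zero_add]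
  have e1 : rot a x 1 = x (a + 1) := by unfold rot; rw [add_comm]
  have e2 : rot a x 2 = x (a + 2) := by unfold rot; rw [add_comm]
  have e3 : (-1 : ZMod k) + a = a - 1 := by ring
  unfold GG
  rw [e0, e1, e2, T_rot, e3]
  have e4 : ∑ l ∈ Icc 2 (k - 3), (mu k (F G k l (rot a x)) - 1 - RL G k L l (rot a x)) =
      ∑ l ∈ Icc 2 (k - 3), (mu k (F G k l (fun i => x (i + a))) - 1) -
      ∑ l ∈ Icc 2 (k - 3), RL G k L l (rot a x) := sum_sub_distrib _ _
  rw [e4]
  unfold JJ
  ring

theorem frameP (hk : 6 ≤ k) (tf : ∀ a b c : V, G.Adj a b → G.Adj b c → ¬ G.Adj a c)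
    {x : ZMod k → V} (hx : x ∈ Cyc G k) (L : ℕ) (K : V → V → ℝ) :
    ∑ a : ZMod k, GG G k L K (rot a x) ≤ QQ G k L K x +
      ∑ a : ZMod k, (twK G k K x (a + 2) a - mu k (T G k (a + 2) x) * K (x (a + 2)) (x a)) := by
  have hk5 : 5 ≤ k := by omega
  have : Nonempty V := ⟨x 0⟩
  have hs1 : ∀ f : ZMod k → ℝ, ∑ a : ZMod k, f (a - 1) = ∑ a : ZMod k, f a := fun f =>
    Equiv.sum_comp (Equiv.subRight (1 : ZMod k)) f
  have hs2 : ∀ f : ZMod k → ℝ, ∑ a : ZMod k, f (a + 2) = ∑ a : ZMod k, f a := fun f =>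
    Equiv.sum_comp (Equiv.addRight (2 : ZMod k)) f
  have ht := table hk tf hx
  have hm := mass_split (G := G) hk5 x
  have hZ : ∑ a : ZMod k, (ZK G k K (x a) (x (a + 1)) - 1) =
      ∑ a : ZMod k, (own G k K x a + twK G k K x a a) + ∑ a : ZMod k, twK G k K x (a + 2) a -
        (k : ℝ) := by
    rw [sum_sub_distrib, sum_const, card_univ, ZMod.card, nsmul_eq_mul, mul_one, ← sum_add_distrib]
    congr 1
    exact sum_congr rfl fun a _ => ZK_split hk5 K x a
  have hr : ∑ w ∈ nonT G k x, kap V k * (rD k (Ty G k x w) - 1) =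
      ∑ w ∈ nonT G k x, kap V k * rD k (Ty G k x w) - ∑ _w ∈ nonT G k x, kap V k := by
    rw [← sum_sub_distrib]
    exact sum_congr rfl fun w _ => by ring
  have h1 := hs1 (fun a => mu k (T G k a x) - 1)
  have h2 := hs1 (fun a => JJ (mu k (T G k a x)))
  have h3 := hs2 (fun a => mu k (T G k a x))
  rw [sum_congr rfl fun a _ => GG_rot L K x a]
  unfold QQ
  simp only [sub_mul, mul_sub, one_mul, mul_one, sum_add_distrib, sum_sub_distrib] at *
  linarith

theorem frameQ (hk : 6 ≤ k) (tf : ∀ a b c : V, G.Adj a b → G.Adj b c → ¬ G.Adj a c)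
    (hne : (Cyc G k).Nonempty) {L : ℕ} (hL : 3 ≤ L) (hLk : L + 3 ≤ k) {K : V → V → ℝ}
    (hK : Ker G k L K) :
    (k : ℝ) * (NN G k * Real.log (NN G k * kap V k ^ k / (2 * (k : ℝ)))) ≤
      ∑ x ∈ Cyc G k, QQ G k L K x := by
  have hk5 : 5 ≤ k := by omega
  have h1 := frameL hk tf hne hL hLk hK
  have hk0 : (0 : ℝ) ≤ (k : ℝ) := Nat.cast_nonneg _
  have h2 := mul_le_mul_of_nonneg_left h1 hk0
  refine h2.trans ?_
  have e1 : (k : ℝ) * ∑ x ∈ Cyc G k, GG G k L K x =
      ∑ x ∈ Cyc G k, ∑ a : ZMod k, GG G k L K (rot a x) := by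
    have e0 : ∀ a : ZMod k, ∑ x ∈ Cyc G k, GG G k L K (rot a x) =
        ∑ x ∈ Cyc G k, GG G k L K x := fun a => sum_rot (G := G) (k := k) a (GG G k L K)
    rw [sum_comm, sum_congr rfl fun a _ => e0 a, sum_const, card_univ, ZMod.card, nsmul_eq_mul]
  rw [e1]
  refine (sum_le_sum fun x hx => frameP hk tf hx L K).trans ?_
  rw [sum_add_distrib]
  have e2 : ∑ x ∈ Cyc G k, ∑ a : ZMod k, (twK G k K x (a + 2) a -
      mu k (T G k (a + 2) x) * K (x (a + 2)) (x a)) = 0 := by
    rw [sum_comm]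
    refine sum_eq_zero fun a _ => ?_
    rw [sum_sub_distrib, sub_eq_zero]
    have h := sum_swap (G := G) hk5 tf (a + 2) (fun x v => kap V k * K v (x a))
    have hne2 : a ≠ a + 2 := by
      intro h
      exact two_ne_zero' hk5 (by linear_combination (-1 : ZMod k) * h)
    unfold twK
    rw [← h]
    refine sum_congr rfl fun x _ => ?_
    simp only [Function.update_of_ne hne2]
    rw [sum_const, nsmul_eq_mul]
    unfold mu
    ring
  rw [e2, add_zero]

end Pool.Agent.ICyc.D
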