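import Pool.Agent.Lib.MP_131fce_co.D.Swap

/-!
# Induced k-cycles in triangle-free graphs (MP_131fce_co): classes after a swap

A swap at `j` does not change the classes `T (j + 2)` and `T (j - 2)`.
-/

set_option autoImplicit false

namespace Pool.Agent.ICyc.D

open Finset Pool.Agent.ICyc
open scoped Classical

noncomputable section

variable {V : Type} [Fintype V] {G : SimpleGraph V} {k : ℕ} [NeZero k]

/-- the class `T m` after a swap at `j`, if a neighbour `p` of the position `j` is a neighbour of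
the position `m` -/
lemma T_update_common (hk : 5 ≤ k) {x : ZMod k → V} (hx : x ∈ Cyc G k) {j m p : ZMod k} {v : V}
    (hv : v ∈ T G k j x) (tf : ∀ a b c : V, G.Adj a b → G.Adj b c → ¬ G.Adj a c)
    (hp : p = j - 1 ∨ p = j + 1) (hm : p = m - 1 ∨ p = m + 1)
    (hjm : ¬ (j = m - 1 ∨ j = m + 1)) :
    T G k m (Function.update x j v) = T G k m x := by
  have hx' : IsCyc G k x := bas_mem_Cyc.1 hx
  have h1 := rot_one_ne_zero (k := k) hk
  have hpj : p ≠ j := by
    rcases hp with h | h
    · rw [h]; intro h2; apply h1; linear_combination (-1 : ZMod k) * h2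
    · rw [h]; intro h2; apply h1; linear_combination (1 : ZMod k) * h2
  have hpv : G.Adj (x p) v := (rot_adj_of_mem_T hv _).2 hp
  have hpx : G.Adj (x p) (x j) := by
    rw [hx' p j]
    rcases hp with h | h
    · left; rw [h]; ring
    · right; exact h
  ext w
  constructor
  · intro hw
    have h2 := rot_adj_of_mem_T hw
    have h3 : G.Adj (x p) w := by
      have := (h2 p).2 hm
      rwa [Function.update_of_ne hpj] at this
    rw [mem_T_iff]
    intro i
    by_cases hi : i = j
    · subst hi
      have h4 : ¬ G.Adj (x i) w := fun h => tf _ _ _ h3.symm hpx h.symm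
      exact ⟨fun h => absurd h h4, fun h => absurd h hjm⟩
    · have := h2 i
      rwa [Function.update_of_ne hi] at this
  · intro hw
    have h2 := rot_adj_of_mem_T hw
    have h3 : G.Adj (x p) w := (h2 p).2 hm
    rw [mem_T_iff]
    intro i
    by_cases hi : i = j
    · subst hi
      rw [Function.update_self]
      have h4 : ¬ G.Adj v w := fun h => tf _ _ _ h3.symm hpv h.symm
      exact ⟨fun h => absurd h h4, fun h => absurd h hjm⟩
    · rw [Function.update_of_ne hi]
      exact h2 i

omit [NeZero k] in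
lemma ne_add_int (hk : 5 ≤ k) (j : ZMod k) {a : ℤ} (h1 : a ≠ 0) (h2 : a.natAbs < 5) :
    j + (a : ZMod k) ≠ j := by
  intro h
  have h3 : ((a : ℤ) : ZMod k) = 0 := by
    have := add_eq_left.1 h
    exact this
  rw [ZMod.intCast_zmod_eq_zero_iff_dvd] at h3
  have h5 : k ∣ a.natAbs := Int.natCast_dvd.1 h3
  have h4 := Nat.le_of_dvd (Int.natAbs_pos.2 h1) h5
  omega

lemma T_update_add_two (hk : 5 ≤ k) {x : ZMod k → V} (hx : x ∈ Cyc G k) {j : ZMod k} {v : V}
    (hv : v ∈ T G k j x) (tf : ∀ a b c : V, G.Adj a b → G.Adj b c → ¬ G.Adj a c) :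
    T G k (j + 2) (Function.update x j v) = T G k (j + 2) x := by
  refine T_update_common hk hx hv tf (p := j + 1) (Or.inr rfl) (Or.inl (by ring)) ?_
  rintro (h | h)
  · have := ne_add_int hk j (a := 1) (by norm_num) (by norm_num)
    apply this
    push_cast
    linear_combination (-1 : ZMod k) * h
  · have := ne_add_int hk j (a := 3) (by norm_num) (by norm_num)
    apply this
    push_cast
    linear_combination (-1 : ZMod k) * h

lemma T_update_sub_two (hk : 5 ≤ k) {x : ZMod k → V} (hx : x ∈ Cyc G k) {j : ZMod k} {v : V}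
    (hv : v ∈ T G k j x) (tf : ∀ a b c : V, G.Adj a b → G.Adj b c → ¬ G.Adj a c) :
    T G k (j - 2) (Function.update x j v) = T G k (j - 2) x := by
  refine T_update_common hk hx hv tf (p := j - 1) (Or.inl rfl) (Or.inr (by ring)) ?_
  rintro (h | h)
  · have := ne_add_int hk j (a := -3) (by norm_num) (by norm_num)
    apply this
    push_cast
    linear_combination (-1 : ZMod k) * h
  · have := ne_add_int hk j (a := -1) (by norm_num) (by norm_num)
    apply this
    push_cast
    linear_combination (-1 : ZMod k) * h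

lemma uu_update_add_two (hk : 5 ≤ k) {x : ZMod k → V} (hx : x ∈ Cyc G k) {j : ZMod k} {v : V}
    (hv : v ∈ T G k j x) (tf : ∀ a b c : V, G.Adj a b → G.Adj b c → ¬ G.Adj a c) (y : V) :
    uu G k (Function.update x j v) (j + 2) y = uu G k x (j + 2) y := by
  unfold uu; rw [T_update_add_two hk hx hv tf]

lemma uu_update_sub_two (hk : 5 ≤ k) {x : ZMod k → V} (hx : x ∈ Cyc G k) {j : ZMod k} {v : V}
    (hv : v ∈ T G k j x) (tf : ∀ a b c : V, G.Adj a b → G.Adj b c → ¬ G.Adj a c) (y : V) :
    uu G k (Function.update x j v) (j - 2) y = uu G k x (j - 2) y := by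
  unfold uu; rw [T_update_sub_two hk hx hv tf]

lemma DD_update_add_two (hk : 5 ≤ k) {x : ZMod k → V} (hx : x ∈ Cyc G k) {j : ZMod k} {v : V}
    (hv : v ∈ T G k j x) (tf : ∀ a b c : V, G.Adj a b → G.Adj b c → ¬ G.Adj a c) (y : V) :
    DD G k (Function.update x j v) (j + 2) y = DD G k x (j + 2) y := by
  unfold DD; rw [T_update_add_two hk hx hv tf]

lemma DD_update_sub_two (hk : 5 ≤ k) {x : ZMod k → V} (hx : x ∈ Cyc G k) {j : ZMod k} {v : V}
    (hv : v ∈ T G k j x) (tf : ∀ a b c : V, G.Adj a b → G.Adj b c → ¬ G.Adj a c) (y : V) :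
    DD G k (Function.update x j v) (j - 2) y = DD G k x (j - 2) y := by
  unfold DD; rw [T_update_sub_two hk hx hv tf]

lemma uu_update_self (hk : 5 ≤ k) {x : ZMod k → V} (hx : x ∈ Cyc G k) {j : ZMod k} {v : V}
    (hv : v ∈ T G k j x) (tf : ∀ a b c : V, G.Adj a b → G.Adj b c → ¬ G.Adj a c) (y : V) :
    uu G k (Function.update x j v) j y = uu G k x j y := by
  unfold uu; rw [T_update hk hx hv tf]

lemma DD_update_self (hk : 5 ≤ k) {x : ZMod k → V} (hx : x ∈ Cyc G k) {j : ZMod k} {v : V}
    (hv : v ∈ T G k j x) (tf : ∀ a b c : V, G.Adj a b → G.Adj b c → ¬ G.Adj a c) (y : V) :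
    DD G k (Function.update x j v) j y = DD G k x j y := by
  unfold DD; rw [T_update hk hx hv tf]

end

end Pool.Agent.ICyc.D
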