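import Pool.Agent.Lib.MP_131fce_co.D.FrameE
import Pool.Agent.Lib.MP_131fce_co.D.FrameQ
import Pool.Agent.Lib.MP_131fce_co.D.SwapT

/-!
# Induced k-cycles in triangle-free graphs: the kernel-free frame summed over the rotations, the
linear table, and its normal form after resampling
-/

set_option autoImplicit false

namespace Pool.Agent.ICyc.D

open Finset Pool.Agent.ICyc
open scoped Classical

variable {V : Type} [Fintype V] {G : SimpleGraph V} {k : ℕ} [NeZero k]

/-! ### the table -/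

/-- number of pairs of roles at distance two -/
noncomputable def gg (S : Finset (ZMod k)) : ℝ := ((S.filter (fun i => i + 2 ∈ S)).card : ℝ)

/-- reward of a type -/
noncomputable def R0 (k : ℕ) (S : Finset (ZMod k)) : ℝ :=
  2 * (S.card : ℝ) - 1 - gg S + (if S.card = 0 then (k : ℝ) else 0) +
    (if S.card = 1 then 2 else 0)

omit [NeZero k] in
lemma gg_zero {S : Finset (ZMod k)} (h : S.card = 0) : gg S = 0 := by
  unfold gg
  rw [card_eq_zero.1 h]
  simp

omit [NeZero k] in
lemma gg_one (hk : 5 ≤ k) {S : Finset (ZMod k)} (h : S.card = 1) : gg S = 0 := by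
  obtain ⟨b, hb⟩ := card_eq_one.1 h
  unfold gg
  rw [hb]
  have e : ({b} : Finset (ZMod k)).filter (fun i => i + 2 ∈ ({b} : Finset (ZMod k))) = ∅ := by
    ext i
    simp only [mem_filter, mem_singleton, notMem_empty, iff_false, not_and]
    intro hi h2
    apply two_ne_zero' hk
    rw [hi] at h2
    linear_combination h2
  rw [e]
  simp

lemma gg_eq_sum (S : Finset (ZMod k)) :
    gg S = ∑ a : ZMod k, if a + 2 ∈ S ∧ a ∈ S then (1 : ℝ) else 0 := by
  unfold gg
  rw [Finset.sum_boole]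
  congr 2
  ext i
  simp only [mem_filter, mem_univ, true_and]
  exact and_comm

lemma mem_F_two {x : ZMod k → V} (hx : x ∈ Cyc G k)
    (tf : ∀ a b c : V, G.Adj a b → G.Adj b c → ¬ G.Adj a c) {a : ZMod k} {w : V} :
    w ∈ F G k 2 (fun i => x (i + a)) ↔ a + 2 ∈ Ty G k x w ∧ a ∉ Ty G k x w := by
  have hx' : IsCyc G k x := bas_mem_Cyc.1 hx
  rw [bas_mem_F, bas_mem_Ty, bas_mem_Ty]
  have e2 : ((2 : ℕ) : ZMod k) + a = a + 2 := by push_cast; ring
  rw [e2]
  constructor
  · rintro ⟨h1, h2⟩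
    refine ⟨h2, ?_⟩
    have := h1 0 (by norm_num)
    simpa using this
  · rintro ⟨h1, h2⟩
    refine ⟨fun i hi => ?_, h1⟩
    interval_cases i
    · simpa using h2
    · have e1 : ((1 : ℕ) : ZMod k) + a = a + 1 := by push_cast; ring
      rw [e1]
      have h3 : G.Adj (x (a + 1)) (x (a + 2)) := (hx' _ _).2 (Or.inl (by ring))
      exact tf _ _ _ h3 h1

lemma sum_F_two' {x : ZMod k → V} (hx : x ∈ Cyc G k)
    (tf : ∀ a b c : V, G.Adj a b → G.Adj b c → ¬ G.Adj a c) :
    ∑ a : ZMod k, mu k (F G k 2 (fun i => x (i + a))) =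
      ∑ w : V, kap V k * (((Ty G k x w).card : ℝ) - gg (Ty G k x w)) := by
  have h3 : ∀ a : ZMod k, mu k (F G k 2 (fun i => x (i + a))) =
      ∑ w : V, kap V k * (if a + 2 ∈ Ty G k x w ∧ a ∉ Ty G k x w then (1 : ℝ) else 0) := by
    intro a
    rw [mu, ← Finset.mul_sum, Finset.sum_boole]
    congr 2
    congr 1
    ext w
    rw [mem_F_two hx tf]
    simp
  rw [sum_congr rfl fun a _ => h3 a, sum_comm]
  refine sum_congr rfl fun w _ => ?_
  rw [← mul_sum]
  congr 1
  set S := Ty G k x w with hS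
  have e1 : ((S.card : ℕ) : ℝ) = ∑ a : ZMod k, if a + 2 ∈ S then (1 : ℝ) else 0 := by
    rw [Finset.sum_boole, Nat.cast_inj]
    refine card_nbij' (fun a => a - 2) (fun a => a + 2) ?_ ?_ ?_ ?_
    · intro a ha
      have h : a - 2 + 2 ∈ S := by rwa [sub_add_cancel]
      simpa using h
    · intro a ha
      have h : a + 2 ∈ S := by simpa using ha
      exact h
    · intro a _
      simp
    · intro a _
      simp
  rw [e1, gg_eq_sum, ← sum_sub_distrib]
  refine sum_congr rfl fun a _ => ?_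
  by_cases h1 : a + 2 ∈ S <;> by_cases h2 : a ∈ S <;> simp [h1, h2]

/-- the linear table of the kernel-free scheme -/
theorem tableEQ (hk : 6 ≤ k) (tf : ∀ a b c : V, G.Adj a b → G.Adj b c → ¬ G.Adj a c)
    {x : ZMod k → V} (hx : x ∈ Cyc G k) :
    ∑ a : ZMod k, ((dg G k (x a) - 2) +
        ∑ l ∈ Icc 3 (k - 3), (mu k (F G k l (fun i => x (i + a))) - 1) +
        (mu k (T G k a x) - 1) - 1) ≤
      -∑ w : V, kap V k * (R0 k (Ty G k x w) - if w ∈ nonT G k x then 0 else 1) := by
  have hk5 : 5 ≤ k := by omega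
  have : Nonempty V := ⟨x 0⟩
  have ht := table hk tf hx
  have hF := sum_F_two' hx tf
  have hd := sum_dg (G := G) (k := k) x
  have e5 : Icc 2 (k - 3) = insert 2 (Icc 3 (k - 3)) := by
    ext l
    rw [mem_insert, mem_Icc, mem_Icc]
    omega
  have hn : (2 : ℕ) ∉ Icc 3 (k - 3) := by rw [mem_Icc]; omega
  have hkk : (k : ℝ) = ∑ _w : V, kap V k := by
    rw [← sum_kap (V := V) (k := k)]
  have e1 : ∑ a : ZMod k, ((dg G k (x a) - 2) +
        ∑ l ∈ Icc 3 (k - 3), (mu k (F G k l (fun i => x (i + a))) - 1) +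
        (mu k (T G k a x) - 1) - 1) =
      ∑ a : ZMod k, ((dg G k (x a) / 2 - 1) +
        ∑ l ∈ Icc 2 (k - 3), (mu k (F G k l (fun i => x (i + a))) - 1) +
        (mu k (T G k a x) - 1)) +
      (∑ a : ZMod k, dg G k (x a)) / 2 - ∑ a : ZMod k, mu k (F G k 2 (fun i => x (i + a))) -
      (k : ℝ) := by
    have e2 : (k : ℝ) = ∑ _a : ZMod k, (1 : ℝ) := by
      rw [sum_const, card_univ, ZMod.card, nsmul_eq_mul, mul_one]
    rw [e2, sum_div, ← sum_add_distrib, ← sum_sub_distrib, ← sum_sub_distrib]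
    refine sum_congr rfl fun a _ => ?_
    rw [e5, sum_insert hn]
    ring
  rw [e1, hd, hF]
  have hpt : ∀ w : V, (if w ∈ nonT G k x then -(kap V k * (rD k (Ty G k x w) - 1)) else 0) +
      kap V k * ((Ty G k x w).card : ℝ) / 2 -
      kap V k * (((Ty G k x w).card : ℝ) - gg (Ty G k x w)) - kap V k ≤
      -(kap V k * (R0 k (Ty G k x w) - if w ∈ nonT G k x then 0 else 1)) := by
    intro w
    have hkap : 0 ≤ kap V k := kap_nonneg
    by_cases h : w ∈ nonT G k x
    · rw [if_pos h, if_pos h]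
      refine le_of_eq ?_
      unfold R0 rD
      by_cases h0 : (Ty G k x w).card = 0
      · rw [if_pos h0, if_pos h0, if_neg (by omega), h0, gg_zero h0]
        push_cast
        ring
      · by_cases h1 : (Ty G k x w).card = 1
        · rw [if_neg h0, if_neg h0, if_pos h1, if_pos h1, h1, gg_one hk5 h1]
          push_cast
          ring
        · rw [if_neg h0, if_neg h0, if_neg h1, if_neg h1]
          ring
    · rw [if_neg h, if_neg h]
      have hT' : ∃ j : ZMod k, w ∈ T G k j x := by simpa [nonT] using h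
      obtain ⟨j, hj⟩ := hT'
      have hcard : (Ty G k x w).card = 2 := by
        rw [bas_mem_T.1 hj]; exact pair_card' (by omega) j
      refine le_of_eq ?_
      unfold R0
      rw [if_neg (by omega), if_neg (by omega), hcard]
      push_cast
      ring
  have hsum := sum_le_sum (s := univ) fun w _ => hpt w
  rw [sum_sub_distrib, sum_sub_distrib, sum_add_distrib, sum_neg_distrib, ← sum_filter,
    sum_neg_distrib] at hsum
  have e3 : univ.filter (fun w => w ∈ nonT G k x) = nonT G k x := by ext; simp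
  rw [e3, ← sum_div, ← hkk] at hsum
  linarith

/-! ### the functional, summed over the rotations -/

/-- indicator of adjacency -/
noncomputable def adj (G : SimpleGraph V) (u w : V) : ℝ := if G.Adj u w then 1 else 0

/-- what remains positive -/
noncomputable def cred (G : SimpleGraph V) (k : ℕ) [NeZero k] (om : V → ℝ)
    (x : ZMod k → V) : ℝ :=
  ∑ a : ZMod k, (2 * JJ (dg G k (x a) / 2) + Real.log (om (x a)) + JJ (mu k (T G k a x)) +
    ∑ l ∈ Icc 3 (k - 3), JJ (mu k (F G k l (rot a x))))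

/-- the functional of one cycle -/
noncomputable def QE (G : SimpleGraph V) (k : ℕ) [NeZero k] (om : V → ℝ) (s : V → V → ℝ)
    (ze : V → ℝ) (x : ZMod k → V) : ℝ :=
  -∑ w : V, kap V k * (R0 k (Ty G k x w) - if w ∈ nonT G k x then 0 else 1) +
    ∑ a : ZMod k, (Real.log (ze (x a)) + 1 / ze (x a) * (kap V k * ∑ w : V, om w *
      (2 * s (x a) w ^ 2 + (adj G (x (a + 1)) w + adj G (x (a - 1)) w) *
        (1 - 2 * s (x a) w)))) - cred G k om x

theorem frameEQ (hk : 6 ≤ k) (tf : ∀ a b c : V, G.Adj a b → G.Adj b c → ¬ G.Adj a c)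
    (hne : (Cyc G k).Nonempty) {om : V → ℝ} (hom : ∀ v, 0 < om v) {ze : V → ℝ}
    (hze : ∀ v, 0 < ze v) (s : V → V → ℝ) :
    (k : ℝ) * (NN G k * Real.log (NN G k * kap V k ^ k / (2 * (k : ℝ)))) ≤
      ∑ x ∈ Cyc G k, QE G k om s ze x := by
  have hk5 : 5 ≤ k := by omega
  have h1 := frameE hk tf hne hom hze s (fun _ _ _ => 1) (fun _ _ _ _ _ _ _ _ => rfl)
    (fun _ _ _ => zero_le_one) (fun _ _ _ _ _ => one_pos)
  have hk0 : (0 : ℝ) ≤ (k : ℝ) := Nat.cast_nonneg _
  refine (mul_le_mul_of_nonneg_left h1 hk0).trans ?_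
  set f : (ZMod k → V) → ℝ := fun x => 2 * Real.log (dg G k (x 0) / 2) - Real.log (om (x 0)) +
        CE G k om s ze x +
        ∑ l ∈ Icc 3 (k - 3), (Real.log (kap V k * ∑ _y ∈ F G k l x, (1 : ℝ)) -
          Real.log (1 : ℝ)) + Real.log (mu k (T G k (-1) x)) with hf
  have e1 : (k : ℝ) * ∑ x ∈ Cyc G k, f x = ∑ x ∈ Cyc G k, ∑ a : ZMod k, f (rot a x) := by
    have e0 : ∀ a : ZMod k, ∑ x ∈ Cyc G k, f (rot a x) = ∑ x ∈ Cyc G k, f x :=
      fun a => sum_rot (G := G) (k := k) a f
    rw [sum_comm, sum_congr rfl fun a _ => e0 a, sum_const, card_univ, ZMod.card, nsmul_eq_mul]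
  rw [e1]
  refine sum_le_sum fun x hx => ?_
  have htab := tableEQ hk tf hx
  have hf2 : ∀ a : ZMod k, f (rot a x) = ((dg G k (x a) - 2) +
        ∑ l ∈ Icc 3 (k - 3), (mu k (F G k l (fun i => x (i + a))) - 1) +
        (mu k (T G k (a - 1) x) - 1) - 1) + (Real.log (ze (x a)) + 1 / ze (x a) *
        (kap V k * ∑ w : V, om w * (2 * s (x a) w ^ 2 +
        (adj G (x (a + 1)) w + adj G (x (a - 1)) w) * (1 - 2 * s (x a) w)))) -
        (2 * JJ (dg G k (x a) / 2) + Real.log (om (x a)) + JJ (mu k (T G k (a - 1) x)) +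
          ∑ l ∈ Icc 3 (k - 3), JJ (mu k (F G k l (rot a x)))) := by
    intro a
    have e0 : rot a x 0 = x a := by unfold rot; rw [zero_add]
    have e1 : rot a x 1 = x (a + 1) := by unfold rot; rw [add_comm]
    have e2 : rot a x (-1) = x (a - 1) := by unfold rot; congr 1; ring
    have e3 : (-1 : ZMod k) + a = a - 1 := by ring
    rw [hf]
    dsimp only
    unfold CE
    rw [e0, e1, e2, T_rot, e3]
    have e4 : ∀ l ∈ Icc 3 (k - 3), Real.log (kap V k * ∑ _y ∈ F G k l (rot a x), (1 : ℝ)) -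
        Real.log (1 : ℝ) = (mu k (F G k l (fun i => x (i + a))) - 1) -
        JJ (mu k (F G k l (rot a x))) := by
      intro l _
      rw [sum_const, nsmul_eq_mul, mul_one, Real.log_one, sub_zero]
      show Real.log (mu k (F G k l (rot a x))) = (mu k (F G k l (rot a x)) - 1) -
        JJ (mu k (F G k l (rot a x)))
      unfold JJ
      ring
    rw [sum_congr rfl e4, sum_sub_distrib]
    have e5 : 2 * Real.log (dg G k (x a) / 2) = (dg G k (x a) - 2) -
        2 * JJ (dg G k (x a) / 2) := by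
      unfold JJ; ring
    have e6 : Real.log (mu k (T G k (a - 1) x)) = (mu k (T G k (a - 1) x) - 1) -
        JJ (mu k (T G k (a - 1) x)) := by
      unfold JJ; ring
    rw [e5, e6]
    unfold adj
    ring
  rw [sum_congr rfl fun a _ => hf2 a]
  have hs1 : ∀ f : ZMod k → ℝ, ∑ a : ZMod k, f (a - 1) = ∑ a : ZMod k, f a := fun f =>
    Equiv.sum_comp (Equiv.subRight (1 : ZMod k)) f
  have h3 := hs1 (fun a => mu k (T G k a x))
  have h4 := hs1 (fun a => JJ (mu k (T G k a x)))
  unfold QE cred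
  simp only [sum_add_distrib, sum_sub_distrib] at htab ⊢
  linarith

/-! ### resampling -/

/-- the vertex at `j` may be replaced by the mean over its class -/
theorem resample (hk : 5 ≤ k) (tf : ∀ a b c : V, G.Adj a b → G.Adj b c → ¬ G.Adj a c)
    (j : ZMod k) (f : (ZMod k → V) → ℝ) :
    ∑ x ∈ Cyc G k, f x = ∑ x ∈ Cyc G k,
      (∑ v ∈ T G k j x, f (Function.update x j v)) / ((T G k j x).card : ℝ) := by
  have h := sum_swap hk tf j (fun x _ => f x / ((T G k j x).card : ℝ))
  have e1 : ∑ x ∈ Cyc G k, ∑ _v ∈ T G k j x, f x / ((T G k j x).card : ℝ) =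
      ∑ x ∈ Cyc G k, f x := by
    refine sum_congr rfl fun x hx => ?_
    have hc : (0 : ℝ) < ((T G k j x).card : ℝ) := by
      exact_mod_cast card_pos.2 ⟨x j, self_mem_T hk hx j⟩
    rw [sum_const, nsmul_eq_mul]
    field_simp
  rw [e1] at h
  rw [← h]
  refine sum_congr rfl fun x hx => ?_
  rw [sum_div]
  refine sum_congr rfl fun v hv => ?_
  rw [T_update hk hx hv tf]

/-- proportion of the class `T j` adjacent to `w` -/
noncomputable def pD (G : SimpleGraph V) (k : ℕ) [NeZero k] (x : ZMod k → V) (j : ZMod k)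
    (w : V) : ℝ := (((T G k j x).filter (fun v => G.Adj v w)).card : ℝ) / ((T G k j x).card : ℝ)

lemma pD_nonneg (x : ZMod k → V) (j : ZMod k) (w : V) : 0 ≤ pD G k x j w := by
  unfold pD; positivity

lemma pD_le_one (x : ZMod k → V) (j : ZMod k) (w : V) : pD G k x j w ≤ 1 := by
  unfold pD
  refine div_le_one_of_le₀ ?_ (Nat.cast_nonneg _)
  exact_mod_cast card_le_card (filter_subset _ _)

/-- `uu` is the proportion times the mass of the class -/
lemma uu_eq_pD (hk : 5 ≤ k) {x : ZMod k → V} (hx : x ∈ Cyc G k) (j : ZMod k) (w : V) :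
    uu G k x j w = pD G k x j w * mu k (T G k j x) := by
  have hc : (0 : ℝ) < ((T G k j x).card : ℝ) := by
    exact_mod_cast card_pos.2 ⟨x j, self_mem_T hk hx j⟩
  unfold uu pD mu
  field_simp

/-- averaging an adjacency over the class -/
lemma resample_adj (hk : 5 ≤ k) (tf : ∀ a b c : V, G.Adj a b → G.Adj b c → ¬ G.Adj a c)
    (j : ZMod k) (c : (ZMod k → V) → V → ℝ)
    (hc : ∀ x ∈ Cyc G k, ∀ v ∈ T G k j x, ∀ w, c (Function.update x j v) w = c x w) :
    ∑ x ∈ Cyc G k, ∑ w : V, c x w * adj G (x j) w =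
      ∑ x ∈ Cyc G k, ∑ w : V, c x w * pD G k x j w := by
  rw [resample hk tf j (fun x => ∑ w : V, c x w * adj G (x j) w)]
  refine sum_congr rfl fun x hx => ?_
  have e1 : ∀ v ∈ T G k j x, ∑ w : V, c (Function.update x j v) w *
      adj G (Function.update x j v j) w = ∑ w : V, c x w * adj G v w := by
    intro v hv
    rw [Function.update_self]
    exact sum_congr rfl fun w _ => by rw [hc x hx v hv w]
  rw [sum_congr rfl e1, sum_comm, sum_div]
  refine sum_congr rfl fun w _ => ?_
  rw [← mul_sum, mul_div_assoc]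
  congr 1
  unfold adj pD
  rw [Finset.sum_boole]

omit [NeZero k] in
lemma ne_one (hk : 5 ≤ k) (a : ZMod k) : a ≠ a + 1 := by
  intro h
  have := ne_add_int hk a (a := 1) (by norm_num) (by norm_num)
  apply this
  push_cast
  exact h.symm

omit [NeZero k] in
lemma ne_two (hk : 5 ≤ k) (a : ZMod k) : a ≠ a + 2 := by
  intro h
  have := ne_add_int hk a (a := 2) (by norm_num) (by norm_num)
  apply this
  push_cast
  exact h.symm

/-- the pairs of roles at distance two -/
lemma resample_pair (hk : 5 ≤ k) (tf : ∀ a b c : V, G.Adj a b → G.Adj b c → ¬ G.Adj a c)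
    (l : ZMod k) :
    ∑ x ∈ Cyc G k, ∑ w : V, adj G (x (l + 2)) w * adj G (x l) w =
      ∑ x ∈ Cyc G k, ∑ w : V, pD G k x l w * pD G k x (l + 2) w := by
  rw [resample_adj hk tf l (fun x w => adj G (x (l + 2)) w) (by
    intro x _ v _ w
    rw [Function.update_of_ne (ne_two hk l).symm])]
  have e : ∑ x ∈ Cyc G k, ∑ w : V, adj G (x (l + 2)) w * pD G k x l w =
      ∑ x ∈ Cyc G k, ∑ w : V, pD G k x l w * adj G (x (l + 2)) w :=
    sum_congr rfl fun x _ => sum_congr rfl fun w _ => mul_comm _ _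
  rw [e]
  exact resample_adj hk tf (l + 2) (fun x w => pD G k x l w) (by
    intro x hx v hv w
    have h := T_update_sub_two hk hx hv tf
    have e2 : l + 2 - 2 = l := by ring
    rw [e2] at h
    unfold pD
    rw [h])

/-! ### the normal form -/

/-- exceptional part of the reward -/
noncomputable def exc (G : SimpleGraph V) (k : ℕ) [NeZero k] (x : ZMod k → V) (w : V) : ℝ :=
  (if (Ty G k x w).card = 0 then (k : ℝ) else 0) + (if (Ty G k x w).card = 1 then 2 else 0) -
    (if w ∈ nonT G k x then 0 else 1)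

/-- the functional in normal form -/
noncomputable def NF (G : SimpleGraph V) (k : ℕ) [NeZero k] (om : V → ℝ) (s : V → V → ℝ)
    (ze : V → ℝ) (x : ZMod k → V) : ℝ :=
  -∑ w : V, kap V k * (∑ l : ZMod k, (2 * pD G k x l w - pD G k x l w * pD G k x (l + 2) w) - 1 +
      exc G k x w) +
    ∑ a : ZMod k, (Real.log (ze (x a)) + 1 / ze (x a) * (kap V k * ∑ w : V, om w *
      (2 * s (x a) w ^ 2 + (pD G k x (a + 1) w + pD G k x (a - 1) w) *
        (1 - 2 * s (x a) w)))) - cred G k om x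

theorem sum_QE (hk : 6 ≤ k) (tf : ∀ a b c : V, G.Adj a b → G.Adj b c → ¬ G.Adj a c)
    (om : V → ℝ) (s : V → V → ℝ) (ze : V → ℝ) :
    ∑ x ∈ Cyc G k, QE G k om s ze x = ∑ x ∈ Cyc G k, NF G k om s ze x := by
  have hk5 : 5 ≤ k := by omega
  -- the roles
  have hA : ∑ x ∈ Cyc G k, ∑ w : V, kap V k * ((Ty G k x w).card : ℝ) =
      ∑ x ∈ Cyc G k, ∑ w : V, kap V k * ∑ l : ZMod k, pD G k x l w := by
    have e1 : ∀ x : ZMod k → V, ∑ w : V, kap V k * ((Ty G k x w).card : ℝ) =
        ∑ l : ZMod k, ∑ w : V, kap V k * adj G (x l) w := by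
      intro x
      rw [sum_comm]
      refine sum_congr rfl fun w _ => ?_
      rw [← mul_sum]
      congr 1
      unfold adj
      rw [Ty, Finset.sum_boole]
    have e2 : ∀ x : ZMod k → V, ∑ w : V, kap V k * ∑ l : ZMod k, pD G k x l w =
        ∑ l : ZMod k, ∑ w : V, kap V k * pD G k x l w := by
      intro x
      rw [sum_comm]
      exact sum_congr rfl fun w _ => mul_sum _ _ _
    rw [sum_congr rfl fun x _ => e1 x, sum_congr rfl fun x _ => e2 x, sum_comm,
      sum_comm (s := Cyc G k)]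
    exact sum_congr rfl fun l _ => resample_adj hk5 tf l (fun _ _ => kap V k)
      (fun _ _ _ _ _ => rfl)
  have hB : ∑ x ∈ Cyc G k, ∑ w : V, kap V k * gg (Ty G k x w) =
      ∑ x ∈ Cyc G k, ∑ w : V, kap V k * ∑ l : ZMod k, pD G k x l w * pD G k x (l + 2) w := by
    have e1 : ∀ x : ZMod k → V, ∑ w : V, kap V k * gg (Ty G k x w) =
        kap V k * ∑ l : ZMod k, ∑ w : V, adj G (x (l + 2)) w * adj G (x l) w := by
      intro x
      rw [sum_comm, mul_sum]
      refine sum_congr rfl fun w _ => ?_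
      congr 1
      rw [gg_eq_sum]
      refine sum_congr rfl fun l _ => ?_
      simp only [bas_mem_Ty]
      unfold adj
      by_cases h1 : G.Adj (x (l + 2)) w <;> by_cases h2 : G.Adj (x l) w <;> simp [h1, h2]
    have e2 : ∀ x : ZMod k → V, ∑ w : V, kap V k *
        ∑ l : ZMod k, pD G k x l w * pD G k x (l + 2) w =
        kap V k * ∑ l : ZMod k, ∑ w : V, pD G k x l w * pD G k x (l + 2) w := by
      intro x
      rw [sum_comm, mul_sum]
    rw [sum_congr rfl fun x _ => e1 x, sum_congr rfl fun x _ => e2 x, ← mul_sum, ← mul_sum,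
      sum_comm, sum_comm (s := Cyc G k)]
    congr 1
    exact sum_congr rfl fun l _ => resample_pair hk5 tf l
  -- the costs
  have hC : ∀ b a : ZMod k, a ≠ b → ∑ x ∈ Cyc G k, 1 / ze (x a) * (kap V k * ∑ w : V, om w *
      (adj G (x b) w * (1 - 2 * s (x a) w))) =
      ∑ x ∈ Cyc G k, 1 / ze (x a) * (kap V k * ∑ w : V, om w *
      (pD G k x b w * (1 - 2 * s (x a) w))) := by
    intro b a hab
    have h := resample_adj hk5 tf b
      (fun x w => 1 / ze (x a) * kap V k * om w * (1 - 2 * s (x a) w)) (by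
        intro x _ v _ w
        rw [Function.update_of_ne hab])
    have e1 : ∀ (x : ZMod k → V) (f : V → ℝ), 1 / ze (x a) * (kap V k * ∑ w : V, om w *
        (f w * (1 - 2 * s (x a) w))) =
        ∑ w : V, 1 / ze (x a) * kap V k * om w * (1 - 2 * s (x a) w) * f w := by
      intro x f
      rw [← mul_assoc, mul_sum]
      exact sum_congr rfl fun w _ => by ring
    rw [sum_congr rfl fun x _ => e1 x (fun w => adj G (x b) w),
      sum_congr rfl fun x _ => e1 x (fun w => pD G k x b w)]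
    exact h
  -- assemble
  have hR : ∀ x ∈ Cyc G k, -∑ w : V, kap V k *
      (R0 k (Ty G k x w) - if w ∈ nonT G k x then 0 else 1) =
      -(2 * ∑ w : V, kap V k * ((Ty G k x w).card : ℝ)) + ∑ w : V, kap V k * gg (Ty G k x w) -
        ∑ w : V, kap V k * (-1 + exc G k x w) := by
    intro x _
    rw [mul_sum, ← sum_neg_distrib, ← sum_neg_distrib, ← sum_add_distrib, ← sum_sub_distrib]
    refine sum_congr rfl fun w _ => ?_
    unfold R0 exc
    ring
  have hR2 : ∀ x ∈ Cyc G k, -∑ w : V, kap V k * (∑ l : ZMod k, (2 * pD G k x l w -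
      pD G k x l w * pD G k x (l + 2) w) - 1 + exc G k x w) =
      -(2 * ∑ w : V, kap V k * ∑ l : ZMod k, pD G k x l w) +
        ∑ w : V, kap V k * (∑ l : ZMod k, pD G k x l w * pD G k x (l + 2) w) -
        ∑ w : V, kap V k * (-1 + exc G k x w) := by
    intro x _
    rw [mul_sum, ← sum_neg_distrib, ← sum_neg_distrib, ← sum_add_distrib, ← sum_sub_distrib]
    refine sum_congr rfl fun w _ => ?_
    rw [sum_sub_distrib, ← mul_sum]
    ring
  have hS : ∀ (x : ZMod k → V) (a : ZMod k) (f g : V → ℝ), Real.log (ze (x a)) + 1 / ze (x a) *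
      (kap V k * ∑ w : V, om w * (2 * s (x a) w ^ 2 + (f w + g w) * (1 - 2 * s (x a) w))) =
      (Real.log (ze (x a)) + 1 / ze (x a) * (kap V k * ∑ w : V, om w * (2 * s (x a) w ^ 2))) +
      1 / ze (x a) * (kap V k * ∑ w : V, om w * (f w * (1 - 2 * s (x a) w))) +
      1 / ze (x a) * (kap V k * ∑ w : V, om w * (g w * (1 - 2 * s (x a) w))) := by
    intro x a f g
    rw [add_assoc, add_assoc, ← mul_add, ← mul_add, ← mul_add, ← mul_add, ← sum_add_distrib,
      ← sum_add_distrib]
    congr 3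
    refine sum_congr rfl fun w _ => ?_
    ring
  have hR' : ∑ x ∈ Cyc G k, -∑ w : V, kap V k *
      (R0 k (Ty G k x w) - if w ∈ nonT G k x then 0 else 1) =
      -(2 * ∑ x ∈ Cyc G k, ∑ w : V, kap V k * ((Ty G k x w).card : ℝ)) +
        ∑ x ∈ Cyc G k, ∑ w : V, kap V k * gg (Ty G k x w) -
        ∑ x ∈ Cyc G k, ∑ w : V, kap V k * (-1 + exc G k x w) := by
    rw [sum_congr rfl hR, sum_sub_distrib, sum_add_distrib, sum_neg_distrib, ← mul_sum]
  have hR2' : ∑ x ∈ Cyc G k, -∑ w : V, kap V k * (∑ l : ZMod k, (2 * pD G k x l w -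
      pD G k x l w * pD G k x (l + 2) w) - 1 + exc G k x w) =
      -(2 * ∑ x ∈ Cyc G k, ∑ w : V, kap V k * ∑ l : ZMod k, pD G k x l w) +
        ∑ x ∈ Cyc G k, ∑ w : V, kap V k *
          (∑ l : ZMod k, pD G k x l w * pD G k x (l + 2) w) -
        ∑ x ∈ Cyc G k, ∑ w : V, kap V k * (-1 + exc G k x w) := by
    rw [sum_congr rfl hR2, sum_sub_distrib, sum_add_distrib, sum_neg_distrib, ← mul_sum]
  unfold QE NF
  rw [sum_sub_distrib, sum_sub_distrib, sum_add_distrib, sum_add_distrib, hR', hR2']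
  have hcost : ∑ x ∈ Cyc G k, ∑ a : ZMod k, (Real.log (ze (x a)) + 1 / ze (x a) *
      (kap V k * ∑ w : V, om w * (2 * s (x a) w ^ 2 +
        (adj G (x (a + 1)) w + adj G (x (a - 1)) w) * (1 - 2 * s (x a) w)))) =
      ∑ x ∈ Cyc G k, ∑ a : ZMod k, (Real.log (ze (x a)) + 1 / ze (x a) *
      (kap V k * ∑ w : V, om w * (2 * s (x a) w ^ 2 +
        (pD G k x (a + 1) w + pD G k x (a - 1) w) * (1 - 2 * s (x a) w)))) := by
    rw [sum_comm, sum_comm (s := Cyc G k)]
    refine sum_congr rfl fun a _ => ?_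
    rw [sum_congr rfl fun x _ => hS x a (fun w => adj G (x (a + 1)) w)
      (fun w => adj G (x (a - 1)) w), sum_congr rfl fun x _ => hS x a
      (fun w => pD G k x (a + 1) w) (fun w => pD G k x (a - 1) w)]
    simp only [sum_add_distrib]
    rw [hC (a + 1) a (ne_one hk5 a), hC (a - 1) a (by
        have := ne_one hk5 (a - 1)
        rw [sub_add_cancel] at this
        exact this.symm)]
  rw [hcost, hA, hB]

end Pool.Agent.ICyc.D
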