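import Pool.Agent.Lib.MP_131fce_co.D.FrameE2
import Pool.Agent.Lib.MP_131fce_co.D.FrameEQ

/-!
# Induced k-cycles in triangle-free graphs: scheme E with a weight of pairs, summed over the
rotations, and its normal form after resampling
-/

set_option autoImplicit false

namespace Pool.Agent.ICyc.D

open Finset Pool.Agent.ICyc
open scoped Classical

variable {V : Type} [Fintype V] {G : SimpleGraph V} {k : ℕ} [NeZero k]

/-- what remains positive -/
noncomputable def cred2 (G : SimpleGraph V) (k : ℕ) [NeZero k] (om : V → V → ℝ)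
    (x : ZMod k → V) : ℝ :=
  ∑ a : ZMod k, (2 * JJ (dg G k (x a) / 2) + Real.log (om (x (a - 1)) (x (a + 1))) + JJ (mu k (T G k a x)) +
    ∑ l ∈ Icc 3 (k - 3), JJ (mu k (F G k l (rot a x))))

/-- the functional of one cycle -/
noncomputable def QE2 (G : SimpleGraph V) (k : ℕ) [NeZero k] (om : V → V → ℝ) (s : V → V → ℝ)
    (ze : V → ℝ) (x : ZMod k → V) : ℝ :=
  -∑ w : V, kap V k * (R0 k (Ty G k x w) - if w ∈ nonT G k x then 0 else 1) +
    ∑ a : ZMod k, (Real.log (ze (x a)) + 1 / ze (x a) * (kap V k * ∑ w : V, om (x a) w *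
      (2 * s (x a) w ^ 2 + (adj G (x (a + 1)) w + adj G (x (a - 1)) w) *
        (1 - 2 * s (x a) w)))) - cred2 G k om x

theorem frameEQ2 (hk : 6 ≤ k) (tf : ∀ a b c : V, G.Adj a b → G.Adj b c → ¬ G.Adj a c)
    (hne : (Cyc G k).Nonempty) {om : V → V → ℝ} (hom : ∀ u v, 0 < om u v) {ze : V → ℝ}
    (hze : ∀ v, 0 < ze v) (s : V → V → ℝ) :
    (k : ℝ) * (NN G k * Real.log (NN G k * kap V k ^ k / (2 * (k : ℝ)))) ≤
      ∑ x ∈ Cyc G k, QE2 G k om s ze x := by
  have hk5 : 5 ≤ k := by omega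
  have h1 := frameE2 hk tf hne hom hze s (fun _ _ _ => 1) (fun _ _ _ _ _ _ _ _ => rfl)
    (fun _ _ _ => zero_le_one) (fun _ _ _ _ _ => one_pos)
  have hk0 : (0 : ℝ) ≤ (k : ℝ) := Nat.cast_nonneg _
  refine (mul_le_mul_of_nonneg_left h1 hk0).trans ?_
  set f : (ZMod k → V) → ℝ := fun x => 2 * Real.log (dg G k (x 0) / 2) - Real.log (om (x (-1)) (x 1)) +
        CE2 G k om s ze x +
        ∑ l ∈ Icc 3 (k - 3), (Real.log (kap V k * ∑ _y ∈ F G k l x, (1 : ℝ)) -
          Real.log (1 : ℝ)) + Real.log (mu k (T G k (-1) x)) with hf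
  have e1 : (k : ℝ) * ∑ x ∈ Cyc G k, f x = ∑ x ∈ Cyc G k, ∑ a : ZMod k, f (rot a x) := by
    have e0 : ∀ a : ZMod k, ∑ x ∈ Cyc G k, f (rot a x) = ∑ x ∈ Cyc G k, f x :=
      fun a => sum_rot (G := G) (k := k) a f
    rw [sum_comm, sum_congr rfl fun a _ => e0 a, sum_const, card_univ, ZMod.card, nsmul_eq_mul]
  rw [e1]
  refine sum_le_sum fun x hx => ?_
  have htab := tableEQ hk tf hx
  have hf2 : ∀ a : ZMod k, f (rot a x) = ((dg G k (x a) - 2) +
        ∑ l ∈ Icc 3 (k - 3), (mu k (F G k l (fun i => x (i + a))) - 1) +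
        (mu k (T G k (a - 1) x) - 1) - 1) + (Real.log (ze (x a)) + 1 / ze (x a) *
        (kap V k * ∑ w : V, om (x a) w * (2 * s (x a) w ^ 2 +
        (adj G (x (a + 1)) w + adj G (x (a - 1)) w) * (1 - 2 * s (x a) w)))) -
        (2 * JJ (dg G k (x a) / 2) + Real.log (om (x (a - 1)) (x (a + 1))) + JJ (mu k (T G k (a - 1) x)) +
          ∑ l ∈ Icc 3 (k - 3), JJ (mu k (F G k l (rot a x)))) := by
    intro a
    have e0 : rot a x 0 = x a := by unfold rot; rw [zero_add]
    have e1 : rot a x 1 = x (a + 1) := by unfold rot; rw [add_comm]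
    have e2 : rot a x (-1) = x (a - 1) := by unfold rot; congr 1; ring
    have e3 : (-1 : ZMod k) + a = a - 1 := by ring
    rw [hf]
    dsimp only
    unfold CE2
    rw [e0, e1, e2, T_rot, e3]
    have e4 : ∀ l ∈ Icc 3 (k - 3), Real.log (kap V k * ∑ _y ∈ F G k l (rot a x), (1 : ℝ)) -
        Real.log (1 : ℝ) = (mu k (F G k l (fun i => x (i + a))) - 1) -
        JJ (mu k (F G k l (rot a x))) := by
      intro l _
      rw [sum_const, nsmul_eq_mul, mul_one, Real.log_one, sub_zero]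
      show Real.log (mu k (F G k l (rot a x))) = (mu k (F G k l (rot a x)) - 1) -
        JJ (mu k (F G k l (rot a x)))
      unfold JJ
      ring
    rw [sum_congr rfl e4, sum_sub_distrib]
    have e5 : 2 * Real.log (dg G k (x a) / 2) = (dg G k (x a) - 2) -
        2 * JJ (dg G k (x a) / 2) := by
      unfold JJ; ring
    have e6 : Real.log (mu k (T G k (a - 1) x)) = (mu k (T G k (a - 1) x) - 1) -
        JJ (mu k (T G k (a - 1) x)) := by
      unfold JJ; ring
    rw [e5, e6]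
    unfold adj
    ring
  rw [sum_congr rfl fun a _ => hf2 a]
  have hs1 : ∀ f : ZMod k → ℝ, ∑ a : ZMod k, f (a - 1) = ∑ a : ZMod k, f a := fun f =>
    Equiv.sum_comp (Equiv.subRight (1 : ZMod k)) f
  have h3 := hs1 (fun a => mu k (T G k a x))
  have h4 := hs1 (fun a => JJ (mu k (T G k a x)))
  unfold QE2 cred2
  simp only [sum_add_distrib, sum_sub_distrib] at htab ⊢
  linarith

/-- the functional in normal form -/
noncomputable def NF2 (G : SimpleGraph V) (k : ℕ) [NeZero k] (om : V → V → ℝ) (s : V → V → ℝ)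
    (ze : V → ℝ) (x : ZMod k → V) : ℝ :=
  -∑ w : V, kap V k * (∑ l : ZMod k, (2 * pD G k x l w - pD G k x l w * pD G k x (l + 2) w) - 1 +
      exc G k x w) +
    ∑ a : ZMod k, (Real.log (ze (x a)) + 1 / ze (x a) * (kap V k * ∑ w : V, om (x a) w *
      (2 * s (x a) w ^ 2 + (pD G k x (a + 1) w + pD G k x (a - 1) w) *
        (1 - 2 * s (x a) w)))) - cred2 G k om x

theorem sum_QE2 (hk : 6 ≤ k) (tf : ∀ a b c : V, G.Adj a b → G.Adj b c → ¬ G.Adj a c)
    (om : V → V → ℝ) (s : V → V → ℝ) (ze : V → ℝ) :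
    ∑ x ∈ Cyc G k, QE2 G k om s ze x = ∑ x ∈ Cyc G k, NF2 G k om s ze x := by
  have hk5 : 5 ≤ k := by omega
  -- the roles
  have hA : ∑ x ∈ Cyc G k, ∑ w : V, kap V k * ((Ty G k x w).card : ℝ) =
      ∑ x ∈ Cyc G k, ∑ w : V, kap V k * ∑ l : ZMod k, pD G k x l w := by
    have e1 : ∀ x : ZMod k → V, ∑ w : V, kap V k * ((Ty G k x w).card : ℝ) =
        ∑ l : ZMod k, ∑ w : V, kap V k * adj G (x l) w := by
      intro x
      rw [sum_comm]
      refine sum_congr rfl fun w _ => ?_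
      rw [← mul_sum]
      congr 1
      unfold adj
      rw [Ty, Finset.sum_boole]
    have e2 : ∀ x : ZMod k → V, ∑ w : V, kap V k * ∑ l : ZMod k, pD G k x l w =
        ∑ l : ZMod k, ∑ w : V, kap V k * pD G k x l w := by
      intro x
      rw [sum_comm]
      exact sum_congr rfl fun w _ => mul_sum _ _ _
    rw [sum_congr rfl fun x _ => e1 x, sum_congr rfl fun x _ => e2 x, sum_comm,
      sum_comm (s := Cyc G k)]
    exact sum_congr rfl fun l _ => resample_adj hk5 tf l (fun _ _ => kap V k)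
      (fun _ _ _ _ _ => rfl)
  have hB : ∑ x ∈ Cyc G k, ∑ w : V, kap V k * gg (Ty G k x w) =
      ∑ x ∈ Cyc G k, ∑ w : V, kap V k * ∑ l : ZMod k, pD G k x l w * pD G k x (l + 2) w := by
    have e1 : ∀ x : ZMod k → V, ∑ w : V, kap V k * gg (Ty G k x w) =
        kap V k * ∑ l : ZMod k, ∑ w : V, adj G (x (l + 2)) w * adj G (x l) w := by
      intro x
      rw [sum_comm, mul_sum]
      refine sum_congr rfl fun w _ => ?_
      congr 1
      rw [gg_eq_sum]
      refine sum_congr rfl fun l _ => ?_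
      simp only [bas_mem_Ty]
      unfold adj
      by_cases h1 : G.Adj (x (l + 2)) w <;> by_cases h2 : G.Adj (x l) w <;> simp [h1, h2]
    have e2 : ∀ x : ZMod k → V, ∑ w : V, kap V k *
        ∑ l : ZMod k, pD G k x l w * pD G k x (l + 2) w =
        kap V k * ∑ l : ZMod k, ∑ w : V, pD G k x l w * pD G k x (l + 2) w := by
      intro x
      rw [sum_comm, mul_sum]
    rw [sum_congr rfl fun x _ => e1 x, sum_congr rfl fun x _ => e2 x, ← mul_sum, ← mul_sum,
      sum_comm, sum_comm (s := Cyc G k)]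
    congr 1
    exact sum_congr rfl fun l _ => resample_pair hk5 tf l
  -- the costs
  have hC : ∀ b a : ZMod k, a ≠ b → ∑ x ∈ Cyc G k, 1 / ze (x a) * (kap V k * ∑ w : V, om (x a) w *
      (adj G (x b) w * (1 - 2 * s (x a) w))) =
      ∑ x ∈ Cyc G k, 1 / ze (x a) * (kap V k * ∑ w : V, om (x a) w *
      (pD G k x b w * (1 - 2 * s (x a) w))) := by
    intro b a hab
    have h := resample_adj hk5 tf b
      (fun x w => 1 / ze (x a) * kap V k * om (x a) w * (1 - 2 * s (x a) w)) (by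
        intro x _ v _ w
        rw [Function.update_of_ne hab])
    have e1 : ∀ (x : ZMod k → V) (f : V → ℝ), 1 / ze (x a) * (kap V k * ∑ w : V, om (x a) w *
        (f w * (1 - 2 * s (x a) w))) =
        ∑ w : V, 1 / ze (x a) * kap V k * om (x a) w * (1 - 2 * s (x a) w) * f w := by
      intro x f
      rw [← mul_assoc, mul_sum]
      exact sum_congr rfl fun w _ => by ring
    rw [sum_congr rfl fun x _ => e1 x (fun w => adj G (x b) w),
      sum_congr rfl fun x _ => e1 x (fun w => pD G k x b w)]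
    exact h
  -- assemble
  have hR : ∀ x ∈ Cyc G k, -∑ w : V, kap V k *
      (R0 k (Ty G k x w) - if w ∈ nonT G k x then 0 else 1) =
      -(2 * ∑ w : V, kap V k * ((Ty G k x w).card : ℝ)) + ∑ w : V, kap V k * gg (Ty G k x w) -
        ∑ w : V, kap V k * (-1 + exc G k x w) := by
    intro x _
    rw [mul_sum, ← sum_neg_distrib, ← sum_neg_distrib, ← sum_add_distrib, ← sum_sub_distrib]
    refine sum_congr rfl fun w _ => ?_
    unfold R0 exc
    ring
  have hR2 : ∀ x ∈ Cyc G k, -∑ w : V, kap V k * (∑ l : ZMod k, (2 * pD G k x l w -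
      pD G k x l w * pD G k x (l + 2) w) - 1 + exc G k x w) =
      -(2 * ∑ w : V, kap V k * ∑ l : ZMod k, pD G k x l w) +
        ∑ w : V, kap V k * (∑ l : ZMod k, pD G k x l w * pD G k x (l + 2) w) -
        ∑ w : V, kap V k * (-1 + exc G k x w) := by
    intro x _
    rw [mul_sum, ← sum_neg_distrib, ← sum_neg_distrib, ← sum_add_distrib, ← sum_sub_distrib]
    refine sum_congr rfl fun w _ => ?_
    rw [sum_sub_distrib, ← mul_sum]
    ring
  have hS : ∀ (x : ZMod k → V) (a : ZMod k) (f g : V → ℝ), Real.log (ze (x a)) + 1 / ze (x a) *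
      (kap V k * ∑ w : V, om (x a) w * (2 * s (x a) w ^ 2 + (f w + g w) * (1 - 2 * s (x a) w))) =
      (Real.log (ze (x a)) + 1 / ze (x a) * (kap V k * ∑ w : V, om (x a) w * (2 * s (x a) w ^ 2))) +
      1 / ze (x a) * (kap V k * ∑ w : V, om (x a) w * (f w * (1 - 2 * s (x a) w))) +
      1 / ze (x a) * (kap V k * ∑ w : V, om (x a) w * (g w * (1 - 2 * s (x a) w))) := by
    intro x a f g
    rw [add_assoc, add_assoc, ← mul_add, ← mul_add, ← mul_add, ← mul_add, ← sum_add_distrib,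
      ← sum_add_distrib]
    congr 3
    refine sum_congr rfl fun w _ => ?_
    ring
  have hR' : ∑ x ∈ Cyc G k, -∑ w : V, kap V k *
      (R0 k (Ty G k x w) - if w ∈ nonT G k x then 0 else 1) =
      -(2 * ∑ x ∈ Cyc G k, ∑ w : V, kap V k * ((Ty G k x w).card : ℝ)) +
        ∑ x ∈ Cyc G k, ∑ w : V, kap V k * gg (Ty G k x w) -
        ∑ x ∈ Cyc G k, ∑ w : V, kap V k * (-1 + exc G k x w) := by
    rw [sum_congr rfl hR, sum_sub_distrib, sum_add_distrib, sum_neg_distrib, ← mul_sum]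
  have hR2' : ∑ x ∈ Cyc G k, -∑ w : V, kap V k * (∑ l : ZMod k, (2 * pD G k x l w -
      pD G k x l w * pD G k x (l + 2) w) - 1 + exc G k x w) =
      -(2 * ∑ x ∈ Cyc G k, ∑ w : V, kap V k * ∑ l : ZMod k, pD G k x l w) +
        ∑ x ∈ Cyc G k, ∑ w : V, kap V k *
          (∑ l : ZMod k, pD G k x l w * pD G k x (l + 2) w) -
        ∑ x ∈ Cyc G k, ∑ w : V, kap V k * (-1 + exc G k x w) := by
    rw [sum_congr rfl hR2, sum_sub_distrib, sum_add_distrib, sum_neg_distrib, ← mul_sum]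
  unfold QE2 NF2
  rw [sum_sub_distrib, sum_sub_distrib, sum_add_distrib, sum_add_distrib, hR', hR2']
  have hcost : ∑ x ∈ Cyc G k, ∑ a : ZMod k, (Real.log (ze (x a)) + 1 / ze (x a) *
      (kap V k * ∑ w : V, om (x a) w * (2 * s (x a) w ^ 2 +
        (adj G (x (a + 1)) w + adj G (x (a - 1)) w) * (1 - 2 * s (x a) w)))) =
      ∑ x ∈ Cyc G k, ∑ a : ZMod k, (Real.log (ze (x a)) + 1 / ze (x a) *
      (kap V k * ∑ w : V, om (x a) w * (2 * s (x a) w ^ 2 +
        (pD G k x (a + 1) w + pD G k x (a - 1) w) * (1 - 2 * s (x a) w)))) := by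
    rw [sum_comm, sum_comm (s := Cyc G k)]
    refine sum_congr rfl fun a _ => ?_
    rw [sum_congr rfl fun x _ => hS x a (fun w => adj G (x (a + 1)) w)
      (fun w => adj G (x (a - 1)) w), sum_congr rfl fun x _ => hS x a
      (fun w => pD G k x (a + 1) w) (fun w => pD G k x (a - 1) w)]
    simp only [sum_add_distrib]
    rw [hC (a + 1) a (ne_one hk5 a), hC (a - 1) a (by
        have := ne_one hk5 (a - 1)
        rw [sub_add_cancel] at this
        exact this.symm)]
  rw [hcost, hA, hB]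

end Pool.Agent.ICyc.D
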