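import Pool.Agent.Lib.MP_131fce_co.D.Gibbs4
import Pool.Agent.Lib.MP_131fce_co.RealIneq

/-!
# Induced k-cycles in triangle-free graphs: the frame of the scheme with a symmetric kernel on
`(x 0, x 2)` and lookahead windows, all `k ≥ 6`
-/

set_option autoImplicit false

namespace Pool.Agent.ICyc.D

open Finset Pool.Agent.ICyc
open scoped Classical

/-- `t * exp (1 - t)` -/
noncomputable def psi (t : ℝ) : ℝ := t * Real.exp (1 - t)

lemma psi_nonneg {t : ℝ} (ht : 0 ≤ t) : 0 ≤ psi t := mul_nonneg ht (Real.exp_pos _).le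

lemma psi_pos {t : ℝ} (ht : 0 < t) : 0 < psi t := mul_pos ht (Real.exp_pos _)

lemma psi_le_one (t : ℝ) : psi t ≤ 1 := by
  unfold psi
  have h := Real.add_one_le_exp (t - 1)
  have h2 : Real.exp (1 - t) = 1 / Real.exp (t - 1) := by
    rw [one_div, ← Real.exp_neg]; congr 1; ring
  rw [h2, mul_one_div, div_le_one (Real.exp_pos _)]
  linarith

lemma log_psi {t : ℝ} (ht : 0 < t) : Real.log (psi t) = -JJ t := by
  unfold psi JJ
  rw [Real.log_mul ht.ne' (Real.exp_pos _).ne', Real.log_exp]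
  ring

lemma JJ_one : JJ 1 = 0 := by unfold JJ; simp

lemma JJ_anti {s t : ℝ} (hs : 0 < s) (hst : s ≤ t) (ht : t ≤ 1) : JJ t ≤ JJ s := by
  unfold JJ
  have h0 : 0 < t := lt_of_lt_of_le hs hst
  have h1 := Real.log_le_sub_one_of_pos (div_pos hs h0)
  rw [Real.log_div hs.ne' h0.ne'] at h1
  have h2 : s / t - 1 ≤ s - t := by
    rw [div_sub_one h0.ne', div_le_iff₀ h0]
    nlinarith
  linarith

lemma JJ_mono {s t : ℝ} (hs : 1 ≤ s) (hst : s ≤ t) : JJ s ≤ JJ t := by
  unfold JJ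
  have h0 : 0 < s := by linarith
  have h3 : 0 < t := by linarith
  have h1 := Real.log_le_sub_one_of_pos (div_pos h3 h0)
  rw [Real.log_div h3.ne' h0.ne'] at h1
  have h2 : t / s - 1 ≤ t - s := by
    rw [div_sub_one h0.ne', div_le_iff₀ h0]
    nlinarith
  linarith

lemma JJ_split {F R : ℝ} (hR : 0 ≤ R) (hRF : R < F) :
    JJ (max 1 (F - R)) + JJ (min 1 F) ≤ JJ (F - R) := by
  rcases le_total 1 (F - R) with h | h
  · rw [max_eq_right h, min_eq_left (by linarith), JJ_one]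
    linarith
  · rw [max_eq_left h, JJ_one, zero_add]
    exact JJ_anti (by linarith) (le_min h (by linarith)) (min_le_left _ _)

variable {V : Type} [Fintype V] {G : SimpleGraph V} {k : ℕ} [NeZero k]

/-- mass of the neighbours of `u` that are not neighbours of `v` -/
noncomputable def ff (G : SimpleGraph V) (k : ℕ) (u v : V) : ℝ :=
  mu k ((nb G u).filter (fun z => ¬ G.Adj v z))

/-- mass of the neighbours of `b`, weighted by the kernel with respect to `a` -/
noncomputable def ZK (G : SimpleGraph V) (k : ℕ) (K : V → V → ℝ) (a b : V) : ℝ :=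
  kap V k * ∑ w ∈ nb G b, K w a

/-- the lookahead weight of the step `l` -/
noncomputable def gL (G : SimpleGraph V) (k : ℕ) [NeZero k] (L l : ℕ) (x : ZMod k → V) (y : V) :
    ℝ := if L ≤ l ∧ l + 4 ≤ k then psi (min 1 (rho G k l x y)) else 1

/-- reward of the window `l` -/
noncomputable def RL (G : SimpleGraph V) (k : ℕ) [NeZero k] (L l : ℕ) (x : ZMod k → V) : ℝ :=
  kap V k * ∑ y ∈ F G k l x, (1 - gL G k L l x y)

lemma gL_nonneg (L l : ℕ) (x : ZMod k → V) (y : V) : 0 ≤ gL G k L l x y := by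
  unfold gL
  split_ifs
  · exact psi_nonneg (le_min zero_le_one (mu_nonneg _))
  · exact zero_le_one

lemma gL_le_one (L l : ℕ) (x : ZMod k → V) (y : V) : gL G k L l x y ≤ 1 := by
  unfold gL
  split_ifs
  · exact psi_le_one _
  · exact le_rfl

lemma RL_nonneg (L l : ℕ) (x : ZMod k → V) : 0 ≤ RL G k L l x := by
  unfold RL
  exact mul_nonneg kap_nonneg (sum_nonneg fun y _ => by linarith [gL_le_one (G := G) L l x y])

lemma RL_of_lt {L l : ℕ} (h : l < L) (x : ZMod k → V) : RL G k L l x = 0 := by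
  unfold RL
  rw [sum_eq_zero, mul_zero]
  intro y _
  unfold gL
  rw [if_neg (by omega)]
  ring

lemma RL_last {L l : ℕ} (h : k < l + 4) (x : ZMod k → V) : RL G k L l x = 0 := by
  unfold RL
  rw [sum_eq_zero, mul_zero]
  intro y _
  unfold gL
  rw [if_neg (by omega)]
  ring

lemma sum_gL (L l : ℕ) (x : ZMod k → V) :
    kap V k * ∑ y ∈ F G k l x, gL G k L l x y = mu k (F G k l x) - RL G k L l x := by
  unfold RL mu
  rw [sum_sub_distrib, sum_const, nsmul_eq_mul, mul_one]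
  ring

lemma rho_true (hk : 5 ≤ k) (tf : ∀ a b c : V, G.Adj a b → G.Adj b c → ¬ G.Adj a c)
    {x : ZMod k → V} (hx : x ∈ Cyc G k) {l : ℕ} (hl : l + 3 ≤ k) :
    rho G k l x (x ((l + 1 : ℕ) : ZMod k)) = mu k (F G k (l + 1) x) := by
  have h1 : G.Adj (x (l : ZMod k)) (x ((l + 1 : ℕ) : ZMod k)) :=
    (adj_nat hk hx (i := l) (j := l + 1) (by omega) (by omega)).2 (Or.inl rfl)
  rw [mu_F_eq_rho, rho_succ_of_adj tf h1]

lemma mu_F_pos (hk : 5 ≤ k) {x : ZMod k → V} (hx : x ∈ Cyc G k) {l : ℕ} (hl : l + 3 ≤ k) :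
    0 < mu k (F G k l x) := by
  have : Nonempty V := ⟨x 0⟩
  unfold mu
  exact mul_pos kap_pos (by exact_mod_cast card_pos.2 ⟨_, mem_F_succ hk hx hl⟩)

lemma gL_true_pos (hk : 5 ≤ k) (tf : ∀ a b c : V, G.Adj a b → G.Adj b c → ¬ G.Adj a c)
    {x : ZMod k → V} (hx : x ∈ Cyc G k) {L l : ℕ} (hl : l + 3 ≤ k) :
    0 < gL G k L l x (x ((l + 1 : ℕ) : ZMod k)) := by
  unfold gL
  split_ifs with h
  · rw [rho_true hk tf hx hl]
    exact psi_pos (lt_min zero_lt_one (mu_F_pos hk hx (by omega)))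
  · exact zero_lt_one

/-- `F l x` is contained in the neighbours of `x l` that are not neighbours of `x (l - 2)` -/
lemma mu_F_le_ff {x : ZMod k → V} {l : ℕ} (hl : 2 ≤ l) :
    mu k (F G k l x) ≤ ff G k (x (l : ZMod k)) (x ((l - 2 : ℕ) : ZMod k)) := by
  apply mu_mono
  intro z hz
  rw [bas_mem_F] at hz
  rw [mem_filter, bas_mem_nb]
  exact ⟨hz.2, hz.1 (l - 2) (by omega)⟩

lemma mu_F_two (hk : 5 ≤ k) (tf : ∀ a b c : V, G.Adj a b → G.Adj b c → ¬ G.Adj a c)
    {x : ZMod k → V} (hx : x ∈ Cyc G k) :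
    mu k (F G k 2 x) = ff G k (x 2) (x 0) := by
  unfold ff
  congr 1
  ext z
  rw [bas_mem_F, mem_filter, bas_mem_nb]
  have hc2 : ((2 : ℕ) : ZMod k) = 2 := by norm_cast
  have h12 : G.Adj (x ((1 : ℕ) : ZMod k)) (x ((2 : ℕ) : ZMod k)) :=
    (adj_nat hk hx (i := 1) (j := 2) (by omega) (by omega)).2 (Or.inl rfl)
  rw [hc2] at h12 ⊢
  constructor
  · rintro ⟨h1, h2⟩
    exact ⟨h2, by have := h1 0 (by omega); rwa [Nat.cast_zero] at this⟩
  · rintro ⟨h1, h2⟩
    refine ⟨fun i hi => ?_, h1⟩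
    interval_cases i
    · rwa [Nat.cast_zero]
    · exact tf _ _ _ h12 h1

/-- the normaliser of the chain is at most the kernel mass -/
lemma ZO_le (K : V → V → ℝ) (hK0 : ∀ u v, 0 ≤ K u v) (a b : V) :
    ZO G k (fun a _ c _ => K c a / ff G k c a) a b ≤ ZK G k K a b := by
  have e1 : ∑ p ∈ ext G a b, K p.1 a / ff G k p.1 a =
      ∑ c ∈ nb G b, ∑ d ∈ (nb G c).filter (fun z => ¬ G.Adj a z), K c a / ff G k c a := by
    unfold ext nb
    rw [sum_filter, Fintype.sum_prod_type, sum_filter]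
    refine sum_congr rfl fun c _ => ?_
    by_cases hc : G.Adj b c
    · rw [if_pos hc, filter_filter, sum_filter]
      refine sum_congr rfl fun d _ => ?_
      by_cases h : G.Adj c d ∧ ¬ G.Adj a d
      · rw [if_pos h, if_pos ⟨hc, h⟩]
      · rw [if_neg h, if_neg (fun h' => h h'.2)]
    · rw [if_neg hc]
      refine sum_eq_zero fun d _ => ?_
      rw [if_neg (fun h' => hc h'.1)]
  unfold ZO ZK
  dsimp only
  rw [e1, pow_two, mul_assoc]
  refine mul_le_mul_of_nonneg_left ?_ kap_nonneg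
  rw [mul_sum]
  refine sum_le_sum fun c _ => ?_
  rw [sum_const, nsmul_eq_mul]
  have h : kap V k * ((((nb G c).filter (fun z => ¬ G.Adj a z)).card : ℝ) *
      (K c a / ff G k c a)) = K c a * (ff G k c a / ff G k c a) := by
    unfold ff mu
    ring
  rw [h]
  exact mul_le_of_le_one_right (hK0 c a) (div_self_le_one _)


/-- the hypotheses on the kernel: its cost is payable by the windows `2, ..., L` -/
structure Ker (G : SimpleGraph V) (k L : ℕ) (K : V → V → ℝ) : Prop where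
  nn : ∀ u v, 0 ≤ K u v
  symm : ∀ u v, K u v = K v u
  pos : ∀ u v, 0 < ff G k u v → 0 < ff G k v u → 0 < K u v
  cost : ∀ u v, 0 < ff G k u v → 0 < ff G k v u → JJ (K u v) ≤
    ((L : ℝ) - 1) / 2 * (JJ (min 1 (ff G k u v)) + JJ (min 1 (ff G k v u))) +
      1 / 2 * (JJ (max 1 (ff G k u v)) + JJ (max 1 (ff G k v u)))

/-- the functional of one cycle (one base, one direction); the kernel has been paid -/
noncomputable def GG (G : SimpleGraph V) (k : ℕ) [NeZero k] (L : ℕ) (K : V → V → ℝ)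
    (x : ZMod k → V) : ℝ :=
  Real.log (dg G k (x 0) / 2) + Real.log (ZK G k K (x 0) (x 1)) + (1 - K (x 2) (x 0)) +
  ∑ l ∈ Icc 2 (k - 3), (mu k (F G k l x) - 1 - RL G k L l x) -
  ∑ l ∈ Icc 3 (k - 3), JJ (max 1 (mu k (F G k l x) - RL G k L l x)) +
  Real.log (mu k (T G k (-1) x))

lemma sum_rr (f : (ZMod k → V) → ℝ) :
    ∑ x ∈ Cyc G k, f (fun i => x (2 - i)) = ∑ x ∈ Cyc G k, f x := by
  have h1 := sum_refl (G := G) (k := k) (fun y => f (fun i => y (i - 2)))
  have h2 := sum_rot (G := G) (k := k) (-2) f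
  have e1 : ∀ x : ZMod k → V, (fun i : ZMod k => x (-(i - 2))) = fun i => x (2 - i) := by
    intro x; funext i; congr 1; ring
  have e2 : ∀ x : ZMod k → V, (fun i : ZMod k => x (i + -2)) = fun i => x (i - 2) := by
    intro x; funext i; congr 1; ring
  simp only [e1] at h1
  simp only [e2] at h2
  rw [h1, h2]

lemma rr_mem {x : ZMod k → V} (hx : x ∈ Cyc G k) : (fun i => x (2 - i)) ∈ Cyc G k := by
  have h1 := refl_mem_Cyc hx
  have h2 := rot_mem_Cyc (-2) h1
  have e : (fun i : ZMod k => x (-(i + -2))) = fun i => x (2 - i) := by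
    funext i; congr 1; ring
  simpa only [e] using h2

lemma ff_pos (hk : 5 ≤ k) (tf : ∀ a b c : V, G.Adj a b → G.Adj b c → ¬ G.Adj a c)
    {x : ZMod k → V} (hx : x ∈ Cyc G k) :
    0 < ff G k (x 2) (x 0) ∧ 0 < ff G k (x 0) (x 2) := by
  constructor
  · rw [← mu_F_two hk tf hx]
    exact mu_F_pos hk hx (by omega)
  · have h := mu_F_two hk tf (rr_mem hx)
    simp only [sub_self, sub_zero] at h
    rw [← h]
    exact mu_F_pos hk (rr_mem hx) (by omega)

lemma mem_ext' (hk : 5 ≤ k) {x : ZMod k → V} (hx : x ∈ Cyc G k) :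
    (x 2, x 3) ∈ ext G (x 0) (x 1) := by
  have hc1 : ((1 : ℕ) : ZMod k) = 1 := by norm_cast
  have hc2 : ((2 : ℕ) : ZMod k) = 2 := by norm_cast
  have hc3 : ((3 : ℕ) : ZMod k) = 3 := by norm_cast
  have h12 : G.Adj (x 1) (x 2) := by
    have := (adj_nat hk hx (i := 1) (j := 2) (by omega) (by omega)).2 (Or.inl rfl)
    rwa [hc1, hc2] at this
  have h23 : G.Adj (x 2) (x 3) := by
    have := (adj_nat hk hx (i := 2) (j := 3) (by omega) (by omega)).2 (Or.inl rfl)
    rwa [hc2, hc3] at this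
  have h03 : ¬ G.Adj (x 0) (x 3) := by
    intro h
    have := (adj_nat hk hx (i := 0) (j := 3) (by omega) (by omega)).1
      (by rw [Nat.cast_zero, hc3]; exact h)
    omega
  simp only [ext, mem_filter, mem_univ, true_and]
  exact ⟨h12, h23, h03⟩

/-- the windows of one cycle -/
lemma windows_le (hk : 6 ≤ k) (tf : ∀ a b c : V, G.Adj a b → G.Adj b c → ¬ G.Adj a c)
    {L : ℕ} (hL : 3 ≤ L) (hLk : L + 3 ≤ k) {x : ZMod k → V} (hx : x ∈ Cyc G k) :
    ∑ l ∈ Icc 3 (k - 3), (Real.log (kap V k * ∑ y ∈ F G k l x, gL G k L l x y) -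
          Real.log (gL G k L l x (x ((l + 1 : ℕ) : ZMod k)))) ≤
      ∑ l ∈ Icc 3 (k - 3), ((mu k (F G k l x) - 1 - RL G k L l x) -
        JJ (max 1 (mu k (F G k l x) - RL G k L l x))) -
      ∑ l ∈ Icc 3 L, JJ (min 1 (mu k (F G k l x))) := by
  have hk5 : 5 ≤ k := by omega
  set a : ℕ → ℝ := fun l => JJ (min 1 (mu k (F G k l x))) with ha
  have h1 : ∀ l ∈ Icc 3 (k - 3), Real.log (kap V k * ∑ y ∈ F G k l x, gL G k L l x y) -
          Real.log (gL G k L l x (x ((l + 1 : ℕ) : ZMod k))) ≤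
        ((mu k (F G k l x) - 1 - RL G k L l x) -
        JJ (max 1 (mu k (F G k l x) - RL G k L l x)) - a l) +
        (if L ≤ l ∧ l + 4 ≤ k then a (l + 1) else 0) := by
    intro l hl
    rw [mem_Icc] at hl
    have hl3 : l + 3 ≤ k := by omega
    have : Nonempty V := ⟨x 0⟩
    have hs : 0 < kap V k * ∑ y ∈ F G k l x, gL G k L l x y :=
      mul_pos kap_pos (lt_of_lt_of_le (gL_true_pos hk5 tf hx hl3)
        (single_le_sum (f := fun y => gL G k L l x y) (fun y _ => gL_nonneg L l x y)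
          (mem_F_succ hk5 hx hl3)))
    rw [sum_gL] at hs ⊢
    have e1 : Real.log (mu k (F G k l x) - RL G k L l x) =
        (mu k (F G k l x) - 1 - RL G k L l x) - JJ (mu k (F G k l x) - RL G k L l x) := by
      unfold JJ; ring
    have h2 := JJ_split (RL_nonneg (G := G) (k := k) L l x)
      (show RL G k L l x < mu k (F G k l x) by linarith)
    have h3 : -Real.log (gL G k L l x (x ((l + 1 : ℕ) : ZMod k))) =
        if L ≤ l ∧ l + 4 ≤ k then a (l + 1) else 0 := by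
      unfold gL
      split_ifs with h
      · rw [rho_true hk5 tf hx hl3, log_psi (lt_min zero_lt_one (mu_F_pos hk5 hx (by omega))),
          neg_neg]
      · rw [Real.log_one, neg_zero]
    rw [sub_eq_add_neg, h3, e1]
    have h4 : JJ (max 1 (mu k (F G k l x) - RL G k L l x)) + a l ≤
        JJ (mu k (F G k l x) - RL G k L l x) := h2
    linarith
  refine (sum_le_sum h1).trans ?_
  rw [sum_add_distrib, sum_sub_distrib]
  have e2 : ∑ l ∈ Icc 3 (k - 3), (if L ≤ l ∧ l + 4 ≤ k then a (l + 1) else 0) =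
      ∑ l ∈ Icc (L + 1) (k - 3), a l := by
    rw [← sum_filter]
    refine sum_nbij' (fun l => l + 1) (fun l => l - 1) ?_ ?_ ?_ ?_ (fun _ _ => rfl)
    · intro l hl
      rw [mem_filter, mem_Icc] at hl
      rw [mem_Icc]; omega
    · intro l hl
      rw [mem_Icc] at hl
      rw [mem_filter, mem_Icc]; omega
    · intro l hl
      simp
    · intro l hl
      rw [mem_Icc] at hl
      omega
  have e3 : ∑ l ∈ Icc 3 (k - 3), a l = ∑ l ∈ Icc 3 L, a l + ∑ l ∈ Icc (L + 1) (k - 3), a l := by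
    rw [← sum_union]
    · refine sum_congr ?_ fun _ _ => rfl
      ext l
      rw [mem_union, mem_Icc, mem_Icc, mem_Icc]
      omega
    · rw [disjoint_left]
      intro l h1 h2
      rw [mem_Icc] at h1 h2
      omega
  rw [e2, e3]
  linarith

theorem frameL (hk : 6 ≤ k) (tf : ∀ a b c : V, G.Adj a b → G.Adj b c → ¬ G.Adj a c)
    (hne : (Cyc G k).Nonempty) {L : ℕ} (hL : 3 ≤ L) (hLk : L + 3 ≤ k) {K : V → V → ℝ}
    (hK : Ker G k L K) :
    NN G k * Real.log (NN G k * kap V k ^ k / (2 * (k : ℝ))) ≤ ∑ x ∈ Cyc G k, GG G k L K x := by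
  have hk5 : 5 ≤ k := by omega
  have hc2 : ((2 : ℕ) : ZMod k) = 2 := by norm_cast
  obtain ⟨x0, hx0⟩ := id hne
  have : Nonempty V := ⟨x0 0⟩
  have hOm0 : ∀ a b c d : V, 0 ≤ (fun a _ c _ => K c a / ff G k c a : V → V → V → V → ℝ) a b c d :=
    fun a b c d => div_nonneg (hK.nn _ _) (mu_nonneg _)
  have hOmp : ∀ x ∈ Cyc G k, 0 < (fun a _ c _ => K c a / ff G k c a : V → V → V → V → ℝ)
      (x 0) (x 1) (x 2) (x 3) := by
    intro x hx
    obtain ⟨h1, h2⟩ := ff_pos hk5 tf hx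
    exact div_pos (hK.pos _ _ h1 h2) h1
  have hg := gibbs4 hk tf hne (fun a _ c _ => K c a / ff G k c a) hOm0 hOmp
    (fun l => gL G k L l) (by
      intro l h3 hl x hx x' hx' y
      show gL G k L l x' y = gL G k L l x y
      unfold gL
      rw [rho_congr (by omega) hx'])
    (fun l x y => gL_nonneg L l x y)
    (fun l h3 hl x hx => gL_true_pos hk5 tf hx hl)
  refine hg.trans ?_
  -- pointwise bound
  set f1 : (ZMod k → V) → ℝ := fun x => JJ (min 1 (ff G k (x 2) (x 0))) with hf1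
  set f2 : (ZMod k → V) → ℝ := fun x => JJ (max 1 (ff G k (x 2) (x 0))) with hf2
  have hpt : ∀ x ∈ Cyc G k, (Real.log (dg G k (x 0) / 2) +
      Real.log (ZO G k (fun a _ c _ => K c a / ff G k c a) (x 0) (x 1)) -
        Real.log ((fun a _ c _ => K c a / ff G k c a : V → V → V → V → ℝ)
          (x 0) (x 1) (x 2) (x 3)) +
        ∑ l ∈ Icc 3 (k - 3), (Real.log (kap V k * ∑ y ∈ F G k l x, gL G k L l x y) -
          Real.log (gL G k L l x (x ((l + 1 : ℕ) : ZMod k)))) + Real.log (mu k (T G k (-1) x))) ≤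
      GG G k L K x + ((((L : ℝ) - 1) / 2 * (f1 x + f1 (fun i => x (2 - i))) +
        1 / 2 * (f2 x + f2 (fun i => x (2 - i)))) - f2 x -
        ∑ l ∈ Icc 2 L, f1 (fun i => x (i + ((l - 2 : ℕ) : ZMod k)))) := by
    intro x hx
    obtain ⟨h1, h2⟩ := ff_pos hk5 tf hx
    have hKp := hK.pos _ _ h1 h2
    have hcost := hK.cost _ _ h1 h2
    have hZ : Real.log (ZO G k (fun a _ c _ => K c a / ff G k c a) (x 0) (x 1)) ≤
        Real.log (ZK G k K (x 0) (x 1)) := by
      refine Real.log_le_log ?_ (ZO_le K hK.nn _ _)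
      unfold ZO
      have : 0 < kap V k := kap_pos
      refine mul_pos (by positivity) ?_
      exact lt_of_lt_of_le (hOmp x hx) (single_le_sum
        (f := fun p : V × V => K p.1 (x 0) / ff G k p.1 (x 0))
        (fun p _ => div_nonneg (hK.nn _ _) (mu_nonneg _)) (mem_ext' hk5 hx))
    have hw := windows_le hk tf hL hLk hx
    have e1 : Real.log ((fun a _ c _ => K c a / ff G k c a : V → V → V → V → ℝ)
          (x 0) (x 1) (x 2) (x 3)) = Real.log (K (x 2) (x 0)) - Real.log (ff G k (x 2) (x 0)) := by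
      dsimp only
      rw [Real.log_div hKp.ne' h1.ne']
    have e2 : -Real.log (K (x 2) (x 0)) = JJ (K (x 2) (x 0)) + (1 - K (x 2) (x 0)) := by
      unfold JJ; ring
    have e3 : Real.log (ff G k (x 2) (x 0)) = (mu k (F G k 2 x) - 1 - RL G k L 2 x) -
        JJ (ff G k (x 2) (x 0)) := by
      rw [RL_of_lt (by omega), mu_F_two hk5 tf hx]
      unfold JJ; ring
    have e4 : f2 x + f1 x ≤ JJ (ff G k (x 2) (x 0)) := by
      have := JJ_split (le_refl (0 : ℝ)) h1
      simpa only [sub_zero] using this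
    have e5 : Icc 2 (k - 3) = insert 2 (Icc 3 (k - 3)) := by
      ext l
      rw [mem_insert, mem_Icc, mem_Icc]
      omega
    have e6 : Icc 2 L = insert 2 (Icc 3 L) := by
      ext l
      rw [mem_insert, mem_Icc, mem_Icc]
      omega
    have hn : (2 : ℕ) ∉ Icc 3 (k - 3) := by rw [mem_Icc]; omega
    have hn' : (2 : ℕ) ∉ Icc 3 L := by rw [mem_Icc]; omega
    have e7 : ∑ l ∈ Icc 3 L, f1 (fun i => x (i + ((l - 2 : ℕ) : ZMod k))) ≤
        ∑ l ∈ Icc 3 L, JJ (min 1 (mu k (F G k l x))) := by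
      refine sum_le_sum fun l hl => ?_
      rw [mem_Icc] at hl
      have hm : mu k (F G k l x) ≤ ff G k (x (l : ZMod k)) (x ((l - 2 : ℕ) : ZMod k)) :=
        mu_F_le_ff (by omega)
      have hp : 0 < mu k (F G k l x) := mu_F_pos hk5 hx (by omega)
      have e8 : f1 (fun i => x (i + ((l - 2 : ℕ) : ZMod k))) =
          JJ (min 1 (ff G k (x (l : ZMod k)) (x ((l - 2 : ℕ) : ZMod k)))) := by
        show JJ (min 1 (ff G k (x (2 + ((l - 2 : ℕ) : ZMod k))) (x (0 + ((l - 2 : ℕ) : ZMod k))))) = _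
        rw [zero_add]
        have : (2 : ZMod k) + ((l - 2 : ℕ) : ZMod k) = ((l : ℕ) : ZMod k) := by
          rw [← hc2, ← Nat.cast_add]; congr 1; omega
        rw [this]
      rw [e8]
      exact JJ_anti (lt_min zero_lt_one hp) (min_le_min le_rfl hm) (min_le_left _ _)
    have e9 : f1 (fun i => x (i + ((2 - 2 : ℕ) : ZMod k))) = f1 x := by
      simp
    have e10 : f1 (fun i => x (2 - i)) = JJ (min 1 (ff G k (x 0) (x 2))) := by
      show JJ (min 1 (ff G k (x (2 - 2)) (x (2 - 0)))) = _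
      rw [sub_self, sub_zero]
    have e11 : f2 (fun i => x (2 - i)) = JJ (max 1 (ff G k (x 0) (x 2))) := by
      show JJ (max 1 (ff G k (x (2 - 2)) (x (2 - 0)))) = _
      rw [sub_self, sub_zero]
    unfold GG
    rw [e5, e6, sum_insert hn, sum_insert hn', e9, e10, e11, e1]
    simp only [sum_sub_distrib] at hw ⊢
    have hc' : JJ (K (x 2) (x 0)) ≤ ((L : ℝ) - 1) / 2 * (f1 x + JJ (min 1 (ff G k (x 0) (x 2)))) +
      1 / 2 * (f2 x + JJ (max 1 (ff G k (x 0) (x 2)))) := hcost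
    linarith
  refine (sum_le_sum hpt).trans ?_
  rw [sum_add_distrib]
  have hz : ∑ x ∈ Cyc G k, ((((L : ℝ) - 1) / 2 * (f1 x + f1 (fun i => x (2 - i))) +
        1 / 2 * (f2 x + f2 (fun i => x (2 - i)))) - f2 x -
        ∑ l ∈ Icc 2 L, f1 (fun i => x (i + ((l - 2 : ℕ) : ZMod k)))) = 0 := by
    rw [sum_sub_distrib, sum_sub_distrib, sum_add_distrib, ← mul_sum, ← mul_sum,
      sum_add_distrib, sum_add_distrib, sum_rr, sum_rr, sum_comm]
    have e : ∑ l ∈ Icc 2 L, ∑ x ∈ Cyc G k, f1 (fun i => x (i + ((l - 2 : ℕ) : ZMod k))) =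
        ((L : ℝ) - 1) * ∑ x ∈ Cyc G k, f1 x := by
      rw [sum_congr rfl fun l _ => sum_rot (G := G) (k := k) ((l - 2 : ℕ) : ZMod k) f1, sum_const,
        nsmul_eq_mul, Nat.card_Icc]
      congr 1
      have : L + 1 - 2 = L - 1 := by omega
      rw [this, Nat.cast_sub (by omega)]
      norm_num
    rw [e]
    ring
  rw [hz, add_zero]

end Pool.Agent.ICyc.D
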