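import Pool.Agent.Lib.MP_131fce_co.D.Zeta

/-!
# Induced k-cycles in triangle-free graphs: the frame with the unused part of the window credits

`crK u v` is the part of the window credits that the kernel `K` does not use. It stays in the
functional. For the kernel `KL` it is zero, for a larger kernel it is a gain of the positions.
-/

set_option autoImplicit false

namespace Pool.Agent.ICyc.D

open Finset Pool.Agent.ICyc
open scoped Classical

variable {V : Type} [Fintype V] {G : SimpleGraph V} {k : ℕ} [NeZero k]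

/-- the window credits that the kernel does not use -/
noncomputable def crK (G : SimpleGraph V) (k L : ℕ) (K : V → V → ℝ) (u v : V) : ℝ :=
  ((L : ℝ) - 1) / 2 * (JJ (min 1 (ff G k u v)) + JJ (min 1 (ff G k v u))) +
    1 / 2 * (JJ (max 1 (ff G k u v)) + JJ (max 1 (ff G k v u))) - JJ (K u v)

theorem frameLc (hk : 6 ≤ k) (tf : ∀ a b c : V, G.Adj a b → G.Adj b c → ¬ G.Adj a c)
    (hne : (Cyc G k).Nonempty) {L : ℕ} (hL : 3 ≤ L) (hLk : L + 3 ≤ k) {K : V → V → ℝ}
    (hK : Ker G k L K) :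
    NN G k * Real.log (NN G k * kap V k ^ k / (2 * (k : ℝ))) ≤
      ∑ x ∈ Cyc G k, (GG G k L K x - crK G k L K (x 2) (x 0)) := by
  have hk5 : 5 ≤ k := by omega
  have hc2 : ((2 : ℕ) : ZMod k) = 2 := by norm_cast
  obtain ⟨x0, hx0⟩ := id hne
  have : Nonempty V := ⟨x0 0⟩
  have hOm0 : ∀ a b c d : V, 0 ≤ (fun a _ c _ => K c a / ff G k c a : V → V → V → V → ℝ) a b c d :=
    fun a b c d => div_nonneg (hK.nn _ _) (mu_nonneg _)
  have hOmp : ∀ x ∈ Cyc G k, 0 < (fun a _ c _ => K c a / ff G k c a : V → V → V → V → ℝ)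
      (x 0) (x 1) (x 2) (x 3) := by
    intro x hx
    obtain ⟨h1, h2⟩ := ff_pos hk5 tf hx
    exact div_pos (hK.pos _ _ h1 h2) h1
  have hg := gibbs4 hk tf hne (fun a _ c _ => K c a / ff G k c a) hOm0 hOmp
    (fun l => gL G k L l) (by
      intro l h3 hl x hx x' hx' y
      show gL G k L l x' y = gL G k L l x y
      unfold gL
      rw [rho_congr (by omega) hx'])
    (fun l x y => gL_nonneg L l x y)
    (fun l h3 hl x hx => gL_true_pos hk5 tf hx hl)
  refine hg.trans ?_
  -- pointwise bound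
  set f1 : (ZMod k → V) → ℝ := fun x => JJ (min 1 (ff G k (x 2) (x 0))) with hf1
  set f2 : (ZMod k → V) → ℝ := fun x => JJ (max 1 (ff G k (x 2) (x 0))) with hf2
  have hpt : ∀ x ∈ Cyc G k, (Real.log (dg G k (x 0) / 2) +
      Real.log (ZO G k (fun a _ c _ => K c a / ff G k c a) (x 0) (x 1)) -
        Real.log ((fun a _ c _ => K c a / ff G k c a : V → V → V → V → ℝ)
          (x 0) (x 1) (x 2) (x 3)) +
        ∑ l ∈ Icc 3 (k - 3), (Real.log (kap V k * ∑ y ∈ F G k l x, gL G k L l x y) -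
          Real.log (gL G k L l x (x ((l + 1 : ℕ) : ZMod k)))) + Real.log (mu k (T G k (-1) x))) ≤
      (GG G k L K x - crK G k L K (x 2) (x 0)) + ((((L : ℝ) - 1) / 2 * (f1 x + f1 (fun i => x (2 - i))) +
        1 / 2 * (f2 x + f2 (fun i => x (2 - i)))) - f2 x -
        ∑ l ∈ Icc 2 L, f1 (fun i => x (i + ((l - 2 : ℕ) : ZMod k)))) := by
    intro x hx
    obtain ⟨h1, h2⟩ := ff_pos hk5 tf hx
    have hKp := hK.pos _ _ h1 h2
    have hZ : Real.log (ZO G k (fun a _ c _ => K c a / ff G k c a) (x 0) (x 1)) ≤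
        Real.log (ZK G k K (x 0) (x 1)) := by
      refine Real.log_le_log ?_ (ZO_le K hK.nn _ _)
      unfold ZO
      have : 0 < kap V k := kap_pos
      refine mul_pos (by positivity) ?_
      exact lt_of_lt_of_le (hOmp x hx) (single_le_sum
        (f := fun p : V × V => K p.1 (x 0) / ff G k p.1 (x 0))
        (fun p _ => div_nonneg (hK.nn _ _) (mu_nonneg _)) (mem_ext' hk5 hx))
    have hw := windows_le hk tf hL hLk hx
    have e1 : Real.log ((fun a _ c _ => K c a / ff G k c a : V → V → V → V → ℝ)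
          (x 0) (x 1) (x 2) (x 3)) = Real.log (K (x 2) (x 0)) - Real.log (ff G k (x 2) (x 0)) := by
      dsimp only
      rw [Real.log_div hKp.ne' h1.ne']
    have e2 : -Real.log (K (x 2) (x 0)) = JJ (K (x 2) (x 0)) + (1 - K (x 2) (x 0)) := by
      unfold JJ; ring
    have e3 : Real.log (ff G k (x 2) (x 0)) = (mu k (F G k 2 x) - 1 - RL G k L 2 x) -
        JJ (ff G k (x 2) (x 0)) := by
      rw [RL_of_lt (by omega), mu_F_two hk5 tf hx]
      unfold JJ; ring
    have e4 : f2 x + f1 x ≤ JJ (ff G k (x 2) (x 0)) := by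
      have := JJ_split (le_refl (0 : ℝ)) h1
      simpa only [sub_zero] using this
    have e5 : Icc 2 (k - 3) = insert 2 (Icc 3 (k - 3)) := by
      ext l
      rw [mem_insert, mem_Icc, mem_Icc]
      omega
    have e6 : Icc 2 L = insert 2 (Icc 3 L) := by
      ext l
      rw [mem_insert, mem_Icc, mem_Icc]
      omega
    have hn : (2 : ℕ) ∉ Icc 3 (k - 3) := by rw [mem_Icc]; omega
    have hn' : (2 : ℕ) ∉ Icc 3 L := by rw [mem_Icc]; omega
    have e7 : ∑ l ∈ Icc 3 L, f1 (fun i => x (i + ((l - 2 : ℕ) : ZMod k))) ≤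
        ∑ l ∈ Icc 3 L, JJ (min 1 (mu k (F G k l x))) := by
      refine sum_le_sum fun l hl => ?_
      rw [mem_Icc] at hl
      have hm : mu k (F G k l x) ≤ ff G k (x (l : ZMod k)) (x ((l - 2 : ℕ) : ZMod k)) :=
        mu_F_le_ff (by omega)
      have hp : 0 < mu k (F G k l x) := mu_F_pos hk5 hx (by omega)
      have e8 : f1 (fun i => x (i + ((l - 2 : ℕ) : ZMod k))) =
          JJ (min 1 (ff G k (x (l : ZMod k)) (x ((l - 2 : ℕ) : ZMod k)))) := by
        show JJ (min 1 (ff G k (x (2 + ((l - 2 : ℕ) : ZMod k))) (x (0 + ((l - 2 : ℕ) : ZMod k))))) = _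
        rw [zero_add]
        have : (2 : ZMod k) + ((l - 2 : ℕ) : ZMod k) = ((l : ℕ) : ZMod k) := by
          rw [← hc2, ← Nat.cast_add]; congr 1; omega
        rw [this]
      rw [e8]
      exact JJ_anti (lt_min zero_lt_one hp) (min_le_min le_rfl hm) (min_le_left _ _)
    have e9 : f1 (fun i => x (i + ((2 - 2 : ℕ) : ZMod k))) = f1 x := by
      simp
    have e10 : f1 (fun i => x (2 - i)) = JJ (min 1 (ff G k (x 0) (x 2))) := by
      show JJ (min 1 (ff G k (x (2 - 2)) (x (2 - 0)))) = _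
      rw [sub_self, sub_zero]
    have e11 : f2 (fun i => x (2 - i)) = JJ (max 1 (ff G k (x 0) (x 2))) := by
      show JJ (max 1 (ff G k (x (2 - 2)) (x (2 - 0)))) = _
      rw [sub_self, sub_zero]
    unfold GG
    rw [e5, e6, sum_insert hn, sum_insert hn', e9, e10, e11, e1]
    simp only [sum_sub_distrib] at hw ⊢
    have hc' : JJ (K (x 2) (x 0)) + crK G k L K (x 2) (x 0) =
      ((L : ℝ) - 1) / 2 * (f1 x + JJ (min 1 (ff G k (x 0) (x 2)))) +
      1 / 2 * (f2 x + JJ (max 1 (ff G k (x 0) (x 2)))) := by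
      show _ + (((L : ℝ) - 1) / 2 * (JJ (min 1 (ff G k (x 2) (x 0))) +
        JJ (min 1 (ff G k (x 0) (x 2)))) + 1 / 2 * (JJ (max 1 (ff G k (x 2) (x 0))) +
        JJ (max 1 (ff G k (x 0) (x 2)))) - JJ (K (x 2) (x 0))) = _
      ring
    linarith
  refine (sum_le_sum hpt).trans ?_
  rw [sum_add_distrib]
  have hz : ∑ x ∈ Cyc G k, ((((L : ℝ) - 1) / 2 * (f1 x + f1 (fun i => x (2 - i))) +
        1 / 2 * (f2 x + f2 (fun i => x (2 - i)))) - f2 x -
        ∑ l ∈ Icc 2 L, f1 (fun i => x (i + ((l - 2 : ℕ) : ZMod k)))) = 0 := by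
    rw [sum_sub_distrib, sum_sub_distrib, sum_add_distrib, ← mul_sum, ← mul_sum,
      sum_add_distrib, sum_add_distrib, sum_rr, sum_rr, sum_comm]
    have e : ∑ l ∈ Icc 2 L, ∑ x ∈ Cyc G k, f1 (fun i => x (i + ((l - 2 : ℕ) : ZMod k))) =
        ((L : ℝ) - 1) * ∑ x ∈ Cyc G k, f1 x := by
      rw [sum_congr rfl fun l _ => sum_rot (G := G) (k := k) ((l - 2 : ℕ) : ZMod k) f1, sum_const,
        nsmul_eq_mul, Nat.card_Icc]
      congr 1
      have : L + 1 - 2 = L - 1 := by omega
      rw [this, Nat.cast_sub (by omega)]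
      norm_num
    rw [e]
    ring
  rw [hz, add_zero]


end Pool.Agent.ICyc.D
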