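import Pool.Agent.Lib.MP_131fce_co.D.Rows5
import Pool.Agent.Lib.MP_131fce_co.D.Edge

/-!
# Induced k-cycles in triangle-free graphs: general potentials and class functionals

The potentials at the position `l` are arbitrary functions of all the data with `l` forgotten: the
masses of the types of the environment and of the neighbours, where the types that differ only in
`l` are identified.  The functional of the class `j` is an arbitrary function of the data with `j`
forgotten; its value at the members of the class is on average its value at the position.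
-/

set_option autoImplicit false

namespace Pool.Agent.ICyc.D

open Finset Pool.Agent.ICyc
open scoped Classical

noncomputable section

section

variable {k : ℕ} [NeZero k]

/-- the masses, with the position `j` forgotten -/
def forg (j : ZMod k) (m : Finset (ZMod k) → ℝ) : Finset (ZMod k) → ℝ :=
  fun B => if j ∈ B then 0 else m B + m (insert j B)

/-- the neighbours of the position `j`, with the position `j` forgotten -/
def atp (j : ZMod k) (m : Finset (ZMod k) → ℝ) : Finset (ZMod k) → ℝ :=
  fun B => if j ∈ B then 0 else m (insert j B)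

/-- general potentials: lower state, position, neighbours, environment, degrees of the other
positions -/
abbrev PotG (k : ℕ) := Finset (ZMod k) → ZMod k → (Finset (ZMod k) → ℝ) →
  (Finset (ZMod k) → ℝ) → (ZMod k → ℝ) → ℝ

/-- the potential in terms of the data -/
def potGN (pot : PotG k) (A : Finset (ZMod k)) (N : Finset (ZMod k) → ℝ) (E : Env k)
    (l : ZMod k) : ℝ :=
  pot (A.erase l) l (forg l N) (forg l E.m) (msk l E.dx)

/-- flow of a general potential -/
def flowG (pot : PotG k) (A : Finset (ZMod k)) (N : Finset (ZMod k) → ℝ) (E : Env k) : ℝ :=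
  ∑ l ∈ A, potGN pot A N E l * (E.tau l - N (tT l)) -
    ∑ l ∈ Aᶜ, potGN pot A N E l * N (tT l)

/-- class functionals: position, neighbours, environment, degrees of the other positions -/
abbrev FunT (k : ℕ) := ZMod k → (Finset (ZMod k) → ℝ) → (Finset (ZMod k) → ℝ) →
  (ZMod k → ℝ) → ℝ

/-- the class functional at a member of the class -/
def funW (F : FunT k) (j : ZMod k) (N : Finset (ZMod k) → ℝ) (E : Env k) : ℝ :=
  F j (forg j N) (forg j E.m) (msk j E.dx)

/-- the class functional at the position -/
def funX (F : FunT k) (j : ZMod k) (E : Env k) : ℝ :=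
  F j (atp j E.m) (forg j E.m) (msk j E.dx)

omit [NeZero k] in
lemma forg_apply {j : ZMod k} {m : Finset (ZMod k) → ℝ} {B : Finset (ZMod k)} (h : j ∉ B) :
    forg j m B = m B + m (insert j B) := if_neg h

omit [NeZero k] in
lemma atp_apply {j : ZMod k} {m : Finset (ZMod k) → ℝ} {B : Finset (ZMod k)} (h : j ∉ B) :
    atp j m B = m (insert j B) := if_neg h

/-- sums of a function that does not see the position -/
lemma sum_forg (j : ZMod k) (m : Finset (ZMod k) → ℝ) (p : Finset (ZMod k) → Prop)
    (hp : ∀ B, j ∉ B → (p (insert j B) ↔ p B)) :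
    ∑ B ∈ univ.filter (fun B => p B), m B =
      ∑ B ∈ univ.filter (fun B => p B), forg j m B := by
  have h1 : ∑ B ∈ univ.filter (fun B => p B), m B =
      ∑ B ∈ univ.filter (fun B : Finset (ZMod k) => p B ∧ j ∉ B), m B +
      ∑ B ∈ univ.filter (fun B : Finset (ZMod k) => p B ∧ j ∈ B), m B := by
    rw [← sum_filter_add_sum_filter_not (univ.filter (fun B => p B)) (fun B => j ∉ B),
      filter_filter, filter_filter]
    congr 1
    refine sum_congr ?_ fun _ _ => rfl
    ext B
    simp
  have h2 : ∑ B ∈ univ.filter (fun B => p B), forg j m B =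
      ∑ B ∈ univ.filter (fun B : Finset (ZMod k) => p B ∧ j ∉ B), (m B + m (insert j B)) := by
    have e : univ.filter (fun B : Finset (ZMod k) => p B ∧ j ∉ B) =
        (univ.filter (fun B => p B)).filter (fun B => j ∉ B) := (filter_filter _ _ _).symm
    rw [e, sum_filter (s := univ.filter (fun B => p B))]
    refine sum_congr rfl fun B _ => ?_
    unfold forg
    by_cases hj : j ∈ B
    · rw [if_pos hj, if_neg (not_not.2 hj)]
    · rw [if_neg hj, if_pos hj]
  have h3 : ∑ B ∈ univ.filter (fun B : Finset (ZMod k) => p B ∧ j ∈ B), m B =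
      ∑ B ∈ univ.filter (fun B : Finset (ZMod k) => p B ∧ j ∉ B), m (insert j B) := by
    refine sum_bij' (fun B _ => B.erase j) (fun B _ => insert j B) ?_ ?_ ?_ ?_ ?_
    · intro B hB
      rw [mem_filter] at hB ⊢
      refine ⟨mem_univ _, ?_, notMem_erase j B⟩
      rw [← hp _ (notMem_erase j B), insert_erase hB.2.2]
      exact hB.2.1
    · intro B hB
      rw [mem_filter] at hB ⊢
      exact ⟨mem_univ _, (hp B hB.2.2).2 hB.2.1, mem_insert_self _ _⟩
    · intro B hB
      rw [mem_filter] at hB
      exact insert_erase hB.2.2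
    · intro B hB
      rw [mem_filter] at hB
      exact erase_insert hB.2.2
    · intro B hB
      rw [mem_filter] at hB
      rw [insert_erase hB.2.2]
  rw [h1, h2, h3, sum_add_distrib]

/-- the visible mass does not see a position outside of the window -/
lemma vN_forg {j s i : ZMod k} {l : ℕ} (N : Finset (ZMod k) → ℝ)
    (hj : ∀ m : ℕ, 1 ≤ m → m ≤ l → i + s * (m : ZMod k) ≠ j) :
    vN N s i l = vN (forg j N) s i l := by
  unfold vN
  refine sum_forg j N _ fun B _ => ?_
  unfold miss
  refine forall_congr' fun m => forall_congr' fun h1 => forall_congr' fun h2 => ?_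
  rw [mem_insert, not_or]
  exact ⟨fun h => h.2, fun h => ⟨hj m h1 h2, h⟩⟩

end

section

variable {V : Type} [Fintype V] {G : SimpleGraph V} {k : ℕ} [NeZero k]

/-- a set of vertices, with a position forgotten -/
lemma forg_mu (x : ZMod k → V) (S : Finset V) {j : ZMod k} {B : Finset (ZMod k)} (hj : j ∉ B) :
    mu k (S.filter (fun z => Ty G k x z = B)) + mu k (S.filter (fun z => Ty G k x z = insert j B)) =
      mu k (S.filter (fun z => (Ty G k x z).erase j = B)) := by
  have hd : Disjoint (S.filter (fun z => Ty G k x z = B))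
      (S.filter (fun z => Ty G k x z = insert j B)) := by
    rw [disjoint_filter]
    intro z _ h1 h2
    rw [h1] at h2
    exact hj (h2 ▸ mem_insert_self j B)
  have hu : S.filter (fun z => (Ty G k x z).erase j = B) =
      (S.filter (fun z => Ty G k x z = B)) ∪ (S.filter (fun z => Ty G k x z = insert j B)) := by
    ext z
    rw [mem_union, mem_filter, mem_filter, mem_filter]
    constructor
    · rintro ⟨h1, h2⟩
      by_cases hz : j ∈ Ty G k x z
      · right
        exact ⟨h1, by rw [← h2, insert_erase hz]⟩
      · left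
        exact ⟨h1, by rw [← h2, erase_eq_of_notMem hz]⟩
    · rintro (⟨h1, h2⟩ | ⟨h1, h2⟩)
      · exact ⟨h1, by rw [h2, erase_eq_of_notMem hj]⟩
      · exact ⟨h1, by rw [h2, erase_insert hj]⟩
  rw [hu]
  unfold mu
  rw [card_union_of_disjoint hd]
  push_cast
  ring

/-- the masses of the neighbours, with a position forgotten, do not change by the swap -/
lemma forg_NbM_update (x : ZMod k → V) (l : ZMod k) (w y : V) :
    forg l (NbM G k (Function.update x l w) y) = forg l (NbM G k x y) := by
  funext B
  unfold forg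
  by_cases h : l ∈ B
  · rw [if_pos h, if_pos h]
  · rw [if_neg h, if_neg h]
    unfold NbM
    rw [forg_mu _ _ h, forg_mu _ _ h]
    simp only [Ty_update_erase]

lemma forg_m_update (x : ZMod k → V) (l : ZMod k) (w : V) :
    forg l (envX G k (Function.update x l w)).m = forg l (envX G k x).m := by
  funext B
  unfold forg
  by_cases h : l ∈ B
  · rw [if_pos h, if_pos h]
  · rw [if_neg h, if_neg h]
    show mu k (YT G k _ B) + mu k (YT G k _ (insert l B)) = mu k (YT G k _ B) +
      mu k (YT G k _ (insert l B))
    unfold YT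
    rw [forg_mu _ _ h, forg_mu _ _ h]
    simp only [Ty_update_erase]

lemma msk_dx_update (x : ZMod k → V) (l : ZMod k) (w : V) :
    msk l (envX G k (Function.update x l w)).dx = msk l (envX G k x).dx := by
  funext b
  show msk l (dX G k (Function.update x l w)) b = msk l (dX G k x) b
  unfold msk
  by_cases hb : b = l
  · rw [if_pos hb, if_pos hb]
  · rw [if_neg hb, if_neg hb]
    unfold dX
    rw [Function.update_of_ne hb]

/-- the neighbours of the position -/
lemma forg_NbM_self (x : ZMod k → V) (j : ZMod k) :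
    forg j (NbM G k x (x j)) = atp j (envX G k x).m := by
  funext B
  unfold forg atp
  by_cases h : j ∈ B
  · rw [if_pos h, if_pos h]
  · rw [if_neg h, if_neg h]
    have h1 : NbM G k x (x j) B = 0 := by
      unfold NbM
      have : (nb G (x j)).filter (fun z => Ty G k x z = B) = ∅ := by
        rw [filter_eq_empty_iff]
        intro z hz hB
        apply h
        rw [← hB]
        unfold nb at hz
        rw [mem_filter] at hz
        exact bas_mem_Ty.2 hz.2
      rw [this]
      simp [mu]
    have h2 : NbM G k x (x j) (insert j B) = (envX G k x).m (insert j B) := by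
      show mu k _ = mu k _
      congr 1
      unfold YT
      ext z
      rw [mem_filter, mem_filter]
      constructor
      · rintro ⟨_, h2⟩
        exact ⟨mem_univ _, h2⟩
      · rintro ⟨_, h2⟩
        refine ⟨?_, h2⟩
        unfold nb
        rw [mem_filter]
        refine ⟨mem_univ _, ?_⟩
        have : j ∈ Ty G k x z := by rw [h2]; exact mem_insert_self _ _
        exact bas_mem_Ty.1 this
    rw [h1, h2, zero_add]

/-- the general potential on the graph side -/
def potGX (G : SimpleGraph V) (k : ℕ) [NeZero k] (pot : PotG k) (x : ZMod k → V) (l : ZMod k)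
    (y : V) : ℝ := potGN pot (Ty G k x y) (NbM G k x y) (envX G k x) l

lemma gflowG_eq (pot : PotG k) (x : ZMod k → V) (y : V) :
    gflow G k (potGX G k pot) x y = flowG pot (Ty G k x y) (NbM G k x y) (envX G k x) := by
  unfold gflow flowG
  congr 1
  · refine sum_congr rfl fun l _ => ?_
    rw [DD_eq_N]
    rfl
  · refine sum_congr rfl fun l _ => ?_
    rw [uu_eq_N]
    rfl

theorem potGX_sum (hk : 5 ≤ k) (tf : ∀ a b c : V, G.Adj a b → G.Adj b c → ¬ G.Adj a c)
    (pot : PotG k) :
    ∑ x ∈ Cyc G k, ∑ y : V, kap V k *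
      flowG pot (Ty G k x y) (NbM G k x y) (envX G k x) = 0 := by
  have h := gflow_sum (G := G) hk tf (potGX G k pot) fun x _ l w _ y => by
    unfold potGX potGN
    rw [forg_NbM_update, forg_m_update, msk_dx_update, Ty_update_erase]
  rw [← h]
  refine sum_congr rfl fun x _ => sum_congr rfl fun y _ => ?_
  rw [gflowG_eq]

/-- the class functional at the members of the class and at the position -/
theorem funT_sum (hk : 5 ≤ k) (tf : ∀ a b c : V, G.Adj a b → G.Adj b c → ¬ G.Adj a c)
    (F : FunT k) (j : ZMod k) :
    ∑ x ∈ Cyc G k, ∑ w ∈ T G k j x, kap V k *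
      (funW F j (NbM G k x w) (envX G k x) - funX F j (envX G k x)) = 0 := by
  have h := sum_swap (G := G) hk tf j (fun x w => kap V k * funW F j (NbM G k x w) (envX G k x))
  simp only [mul_sub, sum_sub_distrib]
  rw [sub_eq_zero, ← h]
  refine sum_congr rfl fun x _ => sum_congr rfl fun w _ => ?_
  unfold funW funX
  rw [forg_NbM_update, forg_m_update, msk_dx_update, forg_NbM_self]

/-- the general potentials and the class functionals as extra null functionals -/
theorem gen_hX {k : ℕ} [NeZero k] (hk : 5 ≤ k) (pot : PotG k) (F : FunT k)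
    (U : Type) [Fintype U] (G : SimpleGraph U)
    (tf : ∀ a b c : U, G.Adj a b → G.Adj b c → ¬ G.Adj a c) :
    ∑ x ∈ Cyc G k, (∑ y ∈ nonT G k x, kap U k *
        flowG pot (Ty G k x y) (NbM G k x y) (envX G k x) +
      ∑ j : ZMod k, ∑ w ∈ T G k j x, kap U k *
        (flowG pot (tT j) (NbM G k x w) (envX G k x) +
          (funW F j (NbM G k x w) (envX G k x) - funX F j (envX G k x)))) = 0 := by
  have h1 := potGX_sum (G := G) hk tf pot
  have h2 : ∑ x ∈ Cyc G k, ∑ j : ZMod k, ∑ w ∈ T G k j x, kap U k *
      (funW F j (NbM G k x w) (envX G k x) - funX F j (envX G k x)) = 0 := by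
    rw [sum_comm]
    exact sum_eq_zero fun j _ => funT_sum hk tf F j
  have h3 : ∀ x : ZMod k → U, ∑ y : U, kap U k *
      flowG pot (Ty G k x y) (NbM G k x y) (envX G k x) =
      ∑ y ∈ nonT G k x, kap U k * flowG pot (Ty G k x y) (NbM G k x y) (envX G k x) +
      ∑ j : ZMod k, ∑ w ∈ T G k j x, kap U k *
        flowG pot (tT j) (NbM G k x w) (envX G k x) := by
    intro x
    have h := sum_classes (G := G) hk x (fun w => kap U k *
      flowG pot (Ty G k x w) (NbM G k x w) (envX G k x))
    rw [h]
    congr 1
    refine sum_congr rfl fun j _ => sum_congr rfl fun w hw => ?_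
    have hty : Ty G k x w = tT j := bas_mem_T.1 hw
    rw [hty]
  rw [sum_congr rfl fun x _ => h3 x] at h1
  rw [sum_add_distrib] at h1 ⊢
  simp only [mul_add, sum_add_distrib] at h1 h2 ⊢
  linarith

end

/-! ### the rewards of the classes at the positions -/

section

variable {k : ℕ} [NeZero k]

lemma window_up {k : ℕ} [NeZero k] {j : ZMod k} {m : ℕ} (h1 : 1 ≤ m) (h2 : m + 4 ≤ k) :
    j + 1 + 1 * (m : ZMod k) ≠ j := by
  intro h
  have h3 : ((m + 1 : ℕ) : ZMod k) = 0 := by
    push_cast
    linear_combination h
  rw [ZMod.natCast_eq_zero_iff] at h3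
  have := Nat.le_of_dvd (by omega) h3
  omega

lemma window_dn {k : ℕ} [NeZero k] {j : ZMod k} {m : ℕ} (h1 : 1 ≤ m) (h2 : m + 4 ≤ k) :
    j - 1 + (-1) * (m : ZMod k) ≠ j := by
  intro h
  have h3 : ((m + 1 : ℕ) : ZMod k) = 0 := by
    push_cast
    linear_combination -h
  rw [ZMod.natCast_eq_zero_iff] at h3
  have := Nat.le_of_dvd (by omega) h3
  omega

/-- the reward of a member of a class does not see the position -/
lemma rewN_forg {L : ℕ} (hL : 3 ≤ L) (j s : ZMod k) (hs : s = 1 ∨ s = -1)
    (N : Finset (ZMod k) → ℝ) : rewN L s (tT j) N = rewN L s (tT j) (forg j N) := by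
  unfold rewN
  refine sum_congr rfl fun i hi => sum_congr rfl fun l hl => ?_
  rw [mem_filter, mem_Icc] at hl
  obtain ⟨⟨hl1, hl2⟩, hl3⟩ := hl
  rw [vN_forg (j := j) N ?_]
  intro m hm1 hm2
  unfold tT at hi
  rw [mem_insert, mem_singleton] at hi
  rcases hs with rfl | rfl
  · rcases hi with rfl | rfl
    · exfalso
      have h := hl3 2 (by omega) (by omega)
      apply h
      unfold tT
      rw [mem_insert, mem_singleton]
      right
      push_cast
      ring
    · exact window_up hm1 (by omega)
  · rcases hi with rfl | rfl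
    · exact window_dn hm1 (by omega)
    · exfalso
      have h := hl3 2 (by omega) (by omega)
      apply h
      unfold tT
      rw [mem_insert, mem_singleton]
      left
      push_cast
      ring

/-- the reward of the position `j` -/
def rewP (L : ℕ) (j : ZMod k) (E : Env k) : ℝ :=
  (rewN L (-1) (tT j) (atp j E.m) + rewN L 1 (tT j) (atp j E.m)) / 2

/-- the rewards of the classes as class functionals -/
def FunR (L : ℕ) (F : FunT k) : FunT k := fun j N' m' dx' =>
  1 / max 1 (m' (tT j)) * ((rewN L (-1) (tT j) N' + rewN L 1 (tT j) N') / 2) + F j N' m' dx'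

lemma forg_tT {E : Env k} (hE : EnvOK E) (hk : 5 ≤ k) (j : ZMod k) :
    forg j E.m (tT j) = E.tau j := by
  have h1 : j ∉ tT j := by
    have h0 : (1 : ZMod k) ≠ 0 := by
      intro h
      have h3 : ((1 : ℕ) : ZMod k) = 0 := by exact_mod_cast h
      rw [ZMod.natCast_eq_zero_iff] at h3
      have := Nat.le_of_dvd (by omega) h3
      omega
    unfold tT
    rw [mem_insert, mem_singleton]
    rintro (h | h)
    · apply h0
      linear_combination h
    · apply h0
      linear_combination -h
  rw [forg_apply h1, hE.m_T]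
  have h2 : E.m (insert j (tT j)) = 0 := by
    by_contra h
    refine hE.m_ind _ h (j - 1) ?_ ?_
    · unfold tT; simp
    · rw [sub_add_cancel]; exact mem_insert_self _ _
  rw [h2, add_zero]

end

/-- **the interface with general potentials, class functionals and the rewards of the classes at
the positions** -/
theorem reductionRowsX {k : ℕ} [NeZero k] (hk : 6 ≤ k) {L : ℕ} (hL : 3 ≤ L) (hLk : L + 3 ≤ k)
    {B B' : ℝ} (g phi : ℝ → ℝ) (hg : ∀ t, 0 ≤ t → t ≤ (k : ℝ) → |g t| ≤ B)
    (hphi : ∀ t, 0 ≤ t → t ≤ (k : ℝ) → |phi t| ≤ B') {KF : ℝ → ℝ → ℝ} (hK : KerF L KF)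
    {Phi : ℝ → ℝ → ℝ → ℝ} (hpos : ∀ d s t, 0 < Phi d s t)
    (hsymm : ∀ d s t, Phi d s t = Phi d t s) (Xi : Xfer k)
    {Hx : Env k → ZMod k → ℝ → ℝ → ℝ} {rr : Env k → ZMod k → ℝ}
    (hH : ∀ (E : Env k) (j : ZMod k) (s t : ℝ), 0 ≤ s → 0 ≤ t →
      KF s t * iz Phi E.tau E.dx j + Xi j (E.tau j) (msk j E.dx) s t -
        Xi j (E.tau j) (msk j E.dx) t s ≤ Hx E j s t + rr E j * t)
    (pot : Pot k) {chi : Env k → Finset (ZMod k) → Finset (ZMod k) → ℝ}
    (hchi : ∀ E A D, chi E A D + chi E D A = 0)
    (potG : PotG k) (F : FunT k)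
    {we : Env k → Finset (ZMod k) → ZMod k → ℝ} (hwe : ∀ E A l, 0 ≤ we E A l)
    (rN : Finset (ZMod k) → Env k → ℝ) (rT : ZMod k → Env k → ℝ)
    (hN : ∀ (A : Finset (ZMod k)) (N : Finset (ZMod k) → ℝ) (E : Env k),
      DataE A N E → (∀ j, A ≠ tT j) →
        rN A E ≤ valNK L KF Phi rr pot g phi chi A N E + flowG potG A N E + edN we A N E)
    (hT : ∀ (j : ZMod k) (N : Finset (ZMod k) → ℝ) (E : Env k),
      DataE (tT j) N E → rT j E ≤ valTR Hx rr pot g phi chi j N E + flowG potG (tT j) N E +
        edT we j N E - funW F j N E)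
    (hP : ∀ E : Env k, EnvOK E → posK L KF Phi phi E ≤
      ∑ A ∈ univ.filter (fun A : Finset (ZMod k) => ∀ j, A ≠ tT j), E.m A * rN A E +
        ∑ j : ZMod k, E.tau j * (rT j E + 1 / max 1 (E.tau j) * rewP L j E + funX F j E))
    {V : Type} [Fintype V] {G : SimpleGraph V}
    (tf : ∀ a b c : V, G.Adj a b → G.Adj b c → ¬ G.Adj a c) :
    NN G k * kap V k ^ k ≤ 2 * (k : ℝ) := by
  have hk5 : 5 ≤ k := by omega
  refine reductionRowsK hk hL hLk g phi hg hphi hK hpos hsymm Xi hH pot hchi
    (fun A N E => flowG potG A N E + edN we A N E)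
    (fun j N E => (flowG potG (tT j) N E +
      (funW (fun j N' m' dx' => -FunR L F j N' m' dx') j N E -
        funX (fun j N' m' dx' => -FunR L F j N' m' dx') j E)) + edT we j N E) ?_ rN
    (fun j E => rT j E + funX (FunR L F) j E) ?_ ?_ ?_ tf
  · intro U _ G tfG
    have h1 := gen_hX hk5 potG (fun j N' m' dx' => -FunR L F j N' m' dx') U G tfG
    have h2 := edge_hX (k := k) hwe U G tfG
    rw [sum_add_distrib] at h1 h2 ⊢
    simp only [mul_add, sum_add_distrib] at h1 h2 ⊢
    linarith
  · intro A N E hD hA
    have h := hN A N E hD hA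
    linarith
  · intro j N E hD
    have h := hT j N E hD
    have hE := hD.env
    have e1 := forg_tT hE hk5 j
    have e2 := rewN_forg (k := k) hL j 1 (Or.inl rfl) N
    have e3 := rewN_forg (k := k) hL j (-1) (Or.inr rfl) N
    unfold valTK
    unfold funW funX at *
    unfold FunR
    dsimp only
    rw [e1, ← e2, ← e3]
    linarith
  · intro E hE
    refine (hP E hE).trans (le_of_eq ?_)
    congr 1
    refine sum_congr rfl fun j _ => ?_
    have e1 := forg_tT hE hk5 j
    unfold rewP funX FunR
    rw [e1]
    ring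

end

end Pool.Agent.ICyc.D
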