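import Pool.Agent.Lib.MP_131fce_co.D.LogCyl
import Pool.Agent.Lib.MP_131fce_co.Deficit

/-!
# Induced k-cycles in triangle-free graphs: the Gibbs inequality with an arbitrary weight on the
first four vertices and arbitrary weights in the windows, all `k ≥ 6`
-/

set_option autoImplicit false

namespace Pool.Agent.ICyc.D

open Finset Pool.Agent.ICyc
open scoped Classical

variable {V : Type} [Fintype V] {G : SimpleGraph V} {k : ℕ} [NeZero k]

/-- induced paths `a, b, w, z` that start with `a, b` -/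
noncomputable def ext (G : SimpleGraph V) (a b : V) : Finset (V × V) :=
  univ.filter (fun p => G.Adj b p.1 ∧ G.Adj p.1 p.2 ∧ ¬ G.Adj a p.2)

/-- the normaliser of the weight `Om` on the paths that start with `a, b` -/
noncomputable def ZO (G : SimpleGraph V) (k : ℕ) (Om : V → V → V → V → ℝ) (a b : V) : ℝ :=
  kap V k ^ 2 * ∑ p ∈ ext G a b, Om a b p.1 p.2

/-- law of the first four vertices -/
noncomputable def Q4 (G : SimpleGraph V) (Om : V → V → V → V → ℝ) (t : V × V × V × V) : ℝ :=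
  (1 / (Fintype.card V : ℝ)) * ((if t.2.1 ∈ nb G t.1 then 1 / ((nb G t.1).card : ℝ) else 0) *
    (if (t.2.2.1, t.2.2.2) ∈ ext G t.1 t.2.1 then
      Om t.1 t.2.1 t.2.2.1 t.2.2.2 / ∑ p ∈ ext G t.1 t.2.1, Om t.1 t.2.1 p.1 p.2 else 0))

lemma Q4_nonneg {Om : V → V → V → V → ℝ} (h0 : ∀ a b c d, 0 ≤ Om a b c d)
    (t : V × V × V × V) : 0 ≤ Q4 G Om t := by
  unfold Q4
  refine mul_nonneg (by positivity) (mul_nonneg ?_ ?_)
  · split_ifs <;> positivity
  · split_ifs
    · exact div_nonneg (h0 _ _ _ _) (sum_nonneg fun p _ => h0 _ _ _ _)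
    · exact le_rfl

lemma Q4_sum {Om : V → V → V → V → ℝ} (h0 : ∀ a b c d, 0 ≤ Om a b c d) :
    ∑ t : V × V × V × V, Q4 G Om t ≤ 1 := by
  have h1 : ∀ a b : V, ∑ p : V × V, (if (p.1, p.2) ∈ ext G a b then
      Om a b p.1 p.2 / ∑ p ∈ ext G a b, Om a b p.1 p.2 else 0) ≤ 1 := by
    intro a b
    have e : ∑ p : V × V, (if (p.1, p.2) ∈ ext G a b then
      Om a b p.1 p.2 / ∑ p ∈ ext G a b, Om a b p.1 p.2 else 0) =
        (∑ p ∈ ext G a b, Om a b p.1 p.2) / ∑ p ∈ ext G a b, Om a b p.1 p.2 := by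
      rw [sum_div, ← sum_filter]
      refine sum_congr ?_ fun p _ => rfl
      ext p
      simp
    rw [e]
    exact div_self_le_one _
  have h2 : ∀ a : V, ∑ b : V, (if b ∈ nb G a then 1 / ((nb G a).card : ℝ) else 0) ≤ 1 := by
    intro a
    rw [← sum_filter]
    have e : univ.filter (fun b => b ∈ nb G a) = nb G a := by ext; simp
    rw [e, sum_const, nsmul_eq_mul, mul_one_div]
    exact div_self_le_one _
  rw [Fintype.sum_prod_type]
  simp_rw [Fintype.sum_prod_type (f := fun q : V × V × V => Q4 G Om (_, q))]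
  have h3 : ∀ a b : V, ∑ p : V × V, Q4 G Om (a, b, p) ≤
      (1 / (Fintype.card V : ℝ)) * (if b ∈ nb G a then 1 / ((nb G a).card : ℝ) else 0) := by
    intro a b
    have e : ∀ p : V × V, Q4 G Om (a, b, p) = ((1 / (Fintype.card V : ℝ)) *
        (if b ∈ nb G a then 1 / ((nb G a).card : ℝ) else 0)) *
        (if (p.1, p.2) ∈ ext G a b then
          Om a b p.1 p.2 / ∑ p ∈ ext G a b, Om a b p.1 p.2 else 0) := by
      intro p
      unfold Q4
      dsimp only
      rw [mul_assoc]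
    rw [sum_congr rfl fun p _ => e p, ← mul_sum]
    refine mul_le_of_le_one_right ?_ (h1 a b)
    refine mul_nonneg (by positivity) ?_
    split_ifs <;> positivity
  refine (sum_le_sum fun a _ => sum_le_sum fun b _ => h3 a b).trans ?_
  have h4 : ∀ a : V, ∑ b : V, (1 / (Fintype.card V : ℝ)) *
      (if b ∈ nb G a then 1 / ((nb G a).card : ℝ) else 0) ≤ 1 / (Fintype.card V : ℝ) := by
    intro a
    rw [← mul_sum]
    exact mul_le_of_le_one_right (by positivity) (h2 a)
  refine (sum_le_sum fun a _ => h4 a).trans ?_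
  rw [sum_const, card_univ, nsmul_eq_mul, mul_one_div]
  exact div_self_le_one _

/-- the first four vertices -/
def first4 (k : ℕ) (x : ZMod k → V) : V × V × V × V := (x 0, x 1, x 2, x 3)

lemma cyl_three {x : ZMod k → V} :
    cyl G k 3 x = (Cyc G k).filter (fun x' => first4 k x' = first4 k x) := by
  unfold cyl
  apply filter_congr
  intro x' _
  unfold first4
  constructor
  · intro h
    have e0 := h 0 (by omega)
    have e1 := h 1 (by omega)
    have e2 := h 2 (by omega)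
    have e3 := h 3 (by omega)
    norm_num at e0 e1 e2 e3
    rw [e0, e1, e2, e3]
  · intro h i hi
    simp only [Prod.mk.injEq] at h
    obtain ⟨e0, e1, e2, e3⟩ := h
    interval_cases i
    · simpa using e0
    · simpa using e1
    · simpa using e2
    · simpa using e3

lemma sub_prob4 {Om : V → V → V → V → ℝ} (h0 : ∀ a b c d, 0 ≤ Om a b c d) :
    ∑ x ∈ Cyc G k, Q4 G Om (first4 k x) / ((cyl G k 3 x).card : ℝ) ≤ 1 := by
  rw [← sum_fiberwise (Cyc G k) (first4 k)]
  refine le_trans (sum_le_sum (g := fun t => Q4 G Om t) ?_) (Q4_sum h0)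
  intro t _
  have hfib : ∀ x ∈ (Cyc G k).filter (fun x => first4 k x = t),
      Q4 G Om (first4 k x) / ((cyl G k 3 x).card : ℝ) =
        Q4 G Om t / (((Cyc G k).filter (fun x => first4 k x = t)).card : ℝ) := by
    intro x hx
    rw [mem_filter] at hx
    obtain ⟨hx1, hx2⟩ := hx
    subst hx2
    rw [cyl_three]
  rw [sum_congr rfl hfib, sum_const, nsmul_eq_mul]
  rcases Nat.eq_zero_or_pos ((Cyc G k).filter (fun x => first4 k x = t)).card with h1 | h1
  · rw [h1]; simpa using Q4_nonneg h0 t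
  · have : (0 : ℝ) < (((Cyc G k).filter (fun x => first4 k x = t)).card : ℝ) := by
      exact_mod_cast h1
    rw [mul_div_cancel₀ _ this.ne']

/-- one window: the entropy of the step is at most the mean of `log Z - log g` -/
theorem step_gibbs (hk : 5 ≤ k) {l : ℕ} (hl : l + 3 ≤ k) (g : (ZMod k → V) → V → ℝ)
    (hg : ∀ x ∈ Cyc G k, ∀ x' ∈ cyl G k l x, ∀ y, g x' y = g x y)
    (g0 : ∀ x y, 0 ≤ g x y)
    (gpos : ∀ x ∈ Cyc G k, 0 < g x (x ((l + 1 : ℕ) : ZMod k))) :
    ∑ x ∈ Cyc G k, -Real.log (pr G k l x (x ((l + 1 : ℕ) : ZMod k))) ≤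
      ∑ x ∈ Cyc G k, (Real.log (∑ y ∈ F G k l x, g x y) -
        Real.log (g x (x ((l + 1 : ℕ) : ZMod k)))) := by
  have hS : ∀ x ∈ Cyc G k, 0 < ∑ y ∈ F G k l x, g x y := by
    intro x hx
    exact lt_of_lt_of_le (gpos x hx)
      (single_le_sum (f := fun y => g x y) (fun y _ => g0 x y) (mem_F_succ hk hx hl))
  have h1 : ∀ x ∈ Cyc G k, -Real.log (pr G k l x (x ((l + 1 : ℕ) : ZMod k))) -
      (Real.log (∑ y ∈ F G k l x, g x y) - Real.log (g x (x ((l + 1 : ℕ) : ZMod k)))) ≤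
      g x (x ((l + 1 : ℕ) : ZMod k)) / ((∑ y ∈ F G k l x, g x y) *
        pr G k l x (x ((l + 1 : ℕ) : ZMod k))) - 1 := by
    intro x hx
    have hp := pr_pos hx l
    have hs := hS x hx
    have hgp := gpos x hx
    have h2 := Real.log_le_sub_one_of_pos (x := g x (x ((l + 1 : ℕ) : ZMod k)) /
      ((∑ y ∈ F G k l x, g x y) * pr G k l x (x ((l + 1 : ℕ) : ZMod k)))) (by positivity)
    rw [Real.log_div hgp.ne' (by positivity), Real.log_mul hs.ne' hp.ne'] at h2
    linarith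
  have h3 := tower (G := G) (k := k) l
    (fun x y => g x y / ((∑ y ∈ F G k l x, g x y) * pr G k l x y))
    (fun x hx x' hx' y => by
      show g x' y / ((∑ y ∈ F G k l x', g x' y) * pr G k l x' y) =
        g x y / ((∑ y ∈ F G k l x, g x y) * pr G k l x y)
      rw [pr_congr hx' y, F_congr le_rfl hx', hg x hx x' hx' y]
      congr 2
      exact sum_congr rfl fun z _ => hg x hx x' hx' z)
  have h4 : ∀ x ∈ Cyc G k, ∑ y : V, pr G k l x y *
      (g x y / ((∑ y ∈ F G k l x, g x y) * pr G k l x y)) ≤ 1 := by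
    intro x hx
    have hs := hS x hx
    have h5 : ∀ y : V, pr G k l x y *
        (g x y / ((∑ y ∈ F G k l x, g x y) * pr G k l x y)) ≤
        if y ∈ F G k l x then g x y / ∑ y ∈ F G k l x, g x y else 0 := by
      intro y
      by_cases hy : y ∈ F G k l x
      · rw [if_pos hy]
        rcases (pr_nonneg (G := G) l x y).eq_or_lt with h | h
        · rw [← h]
          simp only [zero_mul]
          exact div_nonneg (g0 x y) hs.le
        · refine le_of_eq ?_
          field_simp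
      · rw [if_neg hy, pr_eq_zero hk hl hy]
        simp
    refine (sum_le_sum fun y _ => h5 y).trans ?_
    rw [← sum_filter]
    have e : univ.filter (fun y => y ∈ F G k l x) = F G k l x := by ext; simp
    rw [e, ← sum_div, div_self hs.ne']
  have h6 := sum_le_sum h1
  rw [sum_sub_distrib, sum_sub_distrib (f := fun x => g x (x ((l + 1 : ℕ) : ZMod k)) /
    ((∑ y ∈ F G k l x, g x y) * pr G k l x (x ((l + 1 : ℕ) : ZMod k))))] at h6
  rw [h3] at h6
  have h7 := sum_le_sum h4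
  linarith

theorem gibbs4 (hk : 6 ≤ k) (tf : ∀ a b c : V, G.Adj a b → G.Adj b c → ¬ G.Adj a c)
    (hne : (Cyc G k).Nonempty) (Om : V → V → V → V → ℝ) (h0 : ∀ a b c d, 0 ≤ Om a b c d)
    (hpos : ∀ x ∈ Cyc G k, 0 < Om (x 0) (x 1) (x 2) (x 3))
    (g : ℕ → (ZMod k → V) → V → ℝ)
    (hg : ∀ l : ℕ, 3 ≤ l → l + 3 ≤ k → ∀ x ∈ Cyc G k, ∀ x' ∈ cyl G k l x, ∀ y,
      g l x' y = g l x y)
    (g0 : ∀ l x y, 0 ≤ g l x y)
    (gpos : ∀ l : ℕ, 3 ≤ l → l + 3 ≤ k → ∀ x ∈ Cyc G k, 0 < g l x (x ((l + 1 : ℕ) : ZMod k))) :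
    NN G k * Real.log (NN G k * kap V k ^ k / (2 * (k : ℝ))) ≤
      ∑ x ∈ Cyc G k, (Real.log (dg G k (x 0) / 2) + Real.log (ZO G k Om (x 0) (x 1)) -
        Real.log (Om (x 0) (x 1) (x 2) (x 3)) +
        ∑ l ∈ Icc 3 (k - 3), (Real.log (kap V k * ∑ y ∈ F G k l x, g l x y) -
          Real.log (g l x (x ((l + 1 : ℕ) : ZMod k)))) + Real.log (mu k (T G k (-1) x))) := by
  obtain ⟨x0, hx0⟩ := hne
  have : Nonempty V := ⟨x0 0⟩
  have hk5 : 5 ≤ k := by omega
  have hkap : 0 < kap V k := kap_pos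
  have hk0 : (0 : ℝ) < (k : ℝ) := by exact_mod_cast (by omega : 0 < k)
  have hn : (0 : ℝ) < (Fintype.card V : ℝ) := by exact_mod_cast Fintype.card_pos
  have hN : 0 < NN G k := by
    unfold NN
    exact_mod_cast card_pos.2 ⟨x0, hx0⟩
  have hNdef : NN G k = ∑ _x ∈ Cyc G k, (1 : ℝ) := by
    unfold NN; rw [sum_const, nsmul_eq_mul, mul_one]
  -- adjacency facts
  have hc1 : ((1 : ℕ) : ZMod k) = 1 := by norm_cast
  have hc2 : ((2 : ℕ) : ZMod k) = 2 := by norm_cast
  have hc3 : ((3 : ℕ) : ZMod k) = 3 := by norm_cast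
  have hadj : ∀ x ∈ Cyc G k, G.Adj (x 0) (x 1) ∧ (x 2, x 3) ∈ ext G (x 0) (x 1) := by
    intro x hx
    have h01 : G.Adj (x 0) (x 1) := by
      have := (adj_nat hk5 hx (i := 0) (j := 1) (by omega) (by omega)).2 (Or.inl rfl)
      rwa [hc1, Nat.cast_zero] at this
    have h12 : G.Adj (x 1) (x 2) := by
      have := (adj_nat hk5 hx (i := 1) (j := 2) (by omega) (by omega)).2 (Or.inl rfl)
      rwa [hc1, hc2] at this
    have h23 : G.Adj (x 2) (x 3) := by
      have := (adj_nat hk5 hx (i := 2) (j := 3) (by omega) (by omega)).2 (Or.inl rfl)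
      rwa [hc2, hc3] at this
    have h03 : ¬ G.Adj (x 0) (x 3) := by
      intro h
      have := (adj_nat hk5 hx (i := 0) (j := 3) (by omega) (by omega)).1
        (by rw [Nat.cast_zero, hc3]; exact h)
      omega
    refine ⟨h01, ?_⟩
    simp only [ext, mem_filter, mem_univ, true_and]
    exact ⟨h12, h23, h03⟩
  -- positivity
  have hQ : ∀ x ∈ Cyc G k, 0 < Q4 G Om (first4 k x) ∧
      -Real.log (Q4 G Om (first4 k x)) = Real.log (Fintype.card V : ℝ) +
        Real.log ((nb G (x 0)).card : ℝ) + Real.log (∑ p ∈ ext G (x 0) (x 1),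
          Om (x 0) (x 1) p.1 p.2) - Real.log (Om (x 0) (x 1) (x 2) (x 3)) ∧
      (0 : ℝ) < ((nb G (x 0)).card : ℝ) ∧
      0 < ∑ p ∈ ext G (x 0) (x 1), Om (x 0) (x 1) p.1 p.2 := by
    intro x hx
    obtain ⟨h01, hext⟩ := hadj x hx
    have hmem : x 1 ∈ nb G (x 0) := by simp [nb, h01]
    have hA : (0 : ℝ) < ((nb G (x 0)).card : ℝ) := by exact_mod_cast card_pos.2 ⟨_, hmem⟩
    have hO := hpos x hx
    have hS : 0 < ∑ p ∈ ext G (x 0) (x 1), Om (x 0) (x 1) p.1 p.2 :=
      lt_of_lt_of_le hO (single_le_sum (f := fun p : V × V => Om (x 0) (x 1) p.1 p.2)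
        (fun p _ => h0 _ _ _ _) hext)
    have hq : Q4 G Om (first4 k x) = (1 / (Fintype.card V : ℝ)) *
        ((1 / ((nb G (x 0)).card : ℝ)) * (Om (x 0) (x 1) (x 2) (x 3) /
          ∑ p ∈ ext G (x 0) (x 1), Om (x 0) (x 1) p.1 p.2)) := by
      unfold Q4 first4
      dsimp only
      rw [if_pos hmem, if_pos hext]
    refine ⟨by rw [hq]; positivity, ?_, hA, hS⟩
    rw [hq, Real.log_mul (by positivity) (by positivity), Real.log_mul (by positivity)
      (by positivity), Real.log_div hO.ne' hS.ne', Real.log_div one_ne_zero hn.ne',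
      Real.log_div one_ne_zero hA.ne', Real.log_one]
    ring
  -- Gibbs
  have hgib : NN G k * Real.log (NN G k) ≤
      ∑ x ∈ Cyc G k, (-Real.log (Q4 G Om (first4 k x)) +
        Real.log ((cyl G k 3 x).card : ℝ)) := by
    have hsub := sub_prob4 (G := G) (k := k) h0
    have h1 : ∀ x ∈ Cyc G k, Real.log (NN G k) - (-Real.log (Q4 G Om (first4 k x)) +
        Real.log ((cyl G k 3 x).card : ℝ)) ≤
        NN G k * (Q4 G Om (first4 k x) / ((cyl G k 3 x).card : ℝ)) - 1 := by
      intro x hx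
      have hq := (hQ x hx).1
      have hc : (0 : ℝ) < ((cyl G k 3 x).card : ℝ) := by
        exact_mod_cast card_pos.2 ⟨x, self_mem_cyl hx 3⟩
      have h2 : Real.log (NN G k * (Q4 G Om (first4 k x) / ((cyl G k 3 x).card : ℝ))) ≤
          NN G k * (Q4 G Om (first4 k x) / ((cyl G k 3 x).card : ℝ)) - 1 :=
        Real.log_le_sub_one_of_pos (by positivity)
      rw [Real.log_mul hN.ne' (by positivity), Real.log_div hq.ne' hc.ne'] at h2
      linarith
    have h3 := sum_le_sum h1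
    rw [sum_sub_distrib, sum_sub_distrib, ← mul_sum] at h3
    have h4 : NN G k * ∑ x ∈ Cyc G k, Q4 G Om (first4 k x) / ((cyl G k 3 x).card : ℝ) ≤
        NN G k := by
      have := mul_le_mul_of_nonneg_left hsub hN.le
      rwa [mul_one] at this
    rw [sum_const, nsmul_eq_mul] at h3
    have h5 : ((Cyc G k).card : ℝ) = NN G k := rfl
    rw [h5, ← hNdef] at h3
    linarith
  -- windows
  have hcyl : ∑ x ∈ Cyc G k, Real.log ((cyl G k 3 x).card : ℝ) ≤
      ∑ x ∈ Cyc G k, (∑ l ∈ Icc 3 (k - 3), (Real.log (∑ y ∈ F G k l x, g l x y) -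
        Real.log (g l x (x ((l + 1 : ℕ) : ZMod k)))) + Real.log ((T G k (-1) x).card : ℝ)) := by
    have e1 : ∑ x ∈ Cyc G k, Real.log ((cyl G k 3 x).card : ℝ) =
        ∑ l ∈ Icc 3 (k - 3), ∑ x ∈ Cyc G k,
          -Real.log (pr G k l x (x ((l + 1 : ℕ) : ZMod k))) +
          ∑ x ∈ Cyc G k, Real.log ((T G k (-1) x).card : ℝ) := by
      rw [sum_comm, ← sum_add_distrib]
      exact sum_congr rfl fun x hx => log_card_cyl hk tf hx
    rw [e1, sum_add_distrib, sum_comm (s := Cyc G k)]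
    refine add_le_add (sum_le_sum fun l hl => ?_) le_rfl
    rw [mem_Icc] at hl
    exact step_gibbs hk5 (by omega) (g l) (hg l hl.1 (by omega)) (g0 l)
      (gpos l hl.1 (by omega))
  have hlog : Real.log (NN G k * kap V k ^ k / (2 * (k : ℝ))) =
      Real.log (NN G k) + (k : ℝ) * Real.log (kap V k) - Real.log (2 * (k : ℝ)) := by
    rw [Real.log_div (by positivity) (by positivity), Real.log_mul hN.ne' (by positivity),
      Real.log_pow]
  rw [hlog]
  have hcard : ((Icc 3 (k - 3)).card : ℝ) = (k : ℝ) - 5 := by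
    rw [Nat.card_Icc]
    have : k - 3 + 1 - 3 = k - 5 := by omega
    rw [this, Nat.cast_sub (by omega)]
    norm_num
  have hlk : Real.log (kap V k) = Real.log (k : ℝ) - Real.log (Fintype.card V : ℝ) := by
    unfold kap
    rw [Real.log_div hk0.ne' hn.ne']
  have hl2 : Real.log (2 * (k : ℝ)) = Real.log 2 + Real.log (k : ℝ) :=
    Real.log_mul two_ne_zero hk0.ne'
  -- pointwise comparison
  have hpt : ∀ x ∈ Cyc G k, -Real.log (Q4 G Om (first4 k x)) +
      (∑ l ∈ Icc 3 (k - 3), (Real.log (∑ y ∈ F G k l x, g l x y) -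
        Real.log (g l x (x ((l + 1 : ℕ) : ZMod k)))) + Real.log ((T G k (-1) x).card : ℝ)) =
      (Real.log (dg G k (x 0) / 2) + Real.log (ZO G k Om (x 0) (x 1)) -
        Real.log (Om (x 0) (x 1) (x 2) (x 3)) +
        ∑ l ∈ Icc 3 (k - 3), (Real.log (kap V k * ∑ y ∈ F G k l x, g l x y) -
          Real.log (g l x (x ((l + 1 : ℕ) : ZMod k)))) + Real.log (mu k (T G k (-1) x))) -
        ((k : ℝ) * Real.log (kap V k) - Real.log (2 * (k : ℝ))) := by
    intro x hx
    obtain ⟨_, hq, hA, hS⟩ := hQ x hx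
    have hTn : (T G k (-1) x).Nonempty := ⟨x (-1), self_mem_T hk5 hx (-1)⟩
    have hT : (0 : ℝ) < ((T G k (-1) x).card : ℝ) := Nat.cast_pos.2 (card_pos.2 hTn)
    have e1 : Real.log (dg G k (x 0) / 2) = Real.log (kap V k) +
        Real.log ((nb G (x 0)).card : ℝ) - Real.log 2 := by
      unfold dg mu
      rw [Real.log_div (by positivity) two_ne_zero, Real.log_mul hkap.ne' hA.ne']
    have e2 : Real.log (ZO G k Om (x 0) (x 1)) = 2 * Real.log (kap V k) +
        Real.log (∑ p ∈ ext G (x 0) (x 1), Om (x 0) (x 1) p.1 p.2) := by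
      unfold ZO
      rw [Real.log_mul (by positivity) hS.ne', Real.log_pow]
      norm_num
    have e3 : Real.log (mu k (T G k (-1) x)) = Real.log (kap V k) +
        Real.log ((T G k (-1) x).card : ℝ) := by
      unfold mu
      rw [Real.log_mul hkap.ne' hT.ne']
    have e4 : ∑ l ∈ Icc 3 (k - 3), (Real.log (kap V k * ∑ y ∈ F G k l x, g l x y) -
          Real.log (g l x (x ((l + 1 : ℕ) : ZMod k)))) =
        ∑ l ∈ Icc 3 (k - 3), (Real.log (∑ y ∈ F G k l x, g l x y) -
          Real.log (g l x (x ((l + 1 : ℕ) : ZMod k)))) + ((k : ℝ) - 5) * Real.log (kap V k) := by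
      rw [← hcard, ← nsmul_eq_mul, ← sum_const, ← sum_add_distrib]
      refine sum_congr rfl fun l hl => ?_
      rw [mem_Icc] at hl
      have hs : 0 < ∑ y ∈ F G k l x, g l x y :=
        lt_of_lt_of_le (gpos l hl.1 (by omega) x hx)
          (single_le_sum (f := fun y => g l x y) (fun y _ => g0 l x y)
            (mem_F_succ hk5 hx (by omega)))
      rw [Real.log_mul hkap.ne' hs.ne']
      ring
    rw [hq, e1, e2, e3, e4, hl2, hlk]
    ring
  have hsum : ∑ x ∈ Cyc G k, (-Real.log (Q4 G Om (first4 k x)) +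
      (∑ l ∈ Icc 3 (k - 3), (Real.log (∑ y ∈ F G k l x, g l x y) -
        Real.log (g l x (x ((l + 1 : ℕ) : ZMod k)))) + Real.log ((T G k (-1) x).card : ℝ))) =
      ∑ x ∈ Cyc G k, (Real.log (dg G k (x 0) / 2) + Real.log (ZO G k Om (x 0) (x 1)) -
        Real.log (Om (x 0) (x 1) (x 2) (x 3)) +
        ∑ l ∈ Icc 3 (k - 3), (Real.log (kap V k * ∑ y ∈ F G k l x, g l x y) -
          Real.log (g l x (x ((l + 1 : ℕ) : ZMod k)))) + Real.log (mu k (T G k (-1) x))) -
        NN G k * ((k : ℝ) * Real.log (kap V k) - Real.log (2 * (k : ℝ))) := by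
    rw [sum_congr rfl hpt, sum_sub_distrib, sum_const, nsmul_eq_mul]
    rfl
  have h8 : ∑ x ∈ Cyc G k, (-Real.log (Q4 G Om (first4 k x)) +
        Real.log ((cyl G k 3 x).card : ℝ)) ≤
      ∑ x ∈ Cyc G k, (-Real.log (Q4 G Om (first4 k x)) +
      (∑ l ∈ Icc 3 (k - 3), (Real.log (∑ y ∈ F G k l x, g l x y) -
        Real.log (g l x (x ((l + 1 : ℕ) : ZMod k)))) + Real.log ((T G k (-1) x).card : ℝ))) := by
    rw [sum_add_distrib, sum_add_distrib (f := fun x => -Real.log (Q4 G Om (first4 k x)))]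
    exact add_le_add le_rfl hcyl
  have h9 := hgib.trans (h8.trans_eq hsum)
  linarith

end Pool.Agent.ICyc.D
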