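import Pool.Agent.Lib.MP_131fce_co.D.FrameEQ2

/-!
# Induced k-cycles in triangle-free graphs: the error of the guess `s(x_a, w)` = weighted proportion
of the neighbours of `x_a` adjacent to `w` (scheme E)

`wt` is any weight of vertices, `DNE = ∑_{v ~ x_a} wt v`, `sGE x_a w = (∑_{v ~ x_a} wt v * adj v w) / DNE`.
* `je_nb_split`: the neighbours of `x a` are `T (a-1)`, `T (a+1)` and `RRE a = nonT ∩ N(x a)`.
* `err_exact`: `h - s = alE - NRE / DNE * (average over RRE)`, with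
  `alE = ∑_{T(a-1)} (1/(2|T(a-1)|) - wt/DNE) adj + ∑_{T(a+1)} (...)`.
* `err_jensen`: `(h - s)² ≤ (1/NRE) ∑_{v ∈ RRE} wt v (alE - NRE/DNE adj v w)²`.
* `alE_eq`: for `wt = 1` on the two classes `alE = NRE/DNE * h + be * (p_- - p_+)`,
  `be = (|T_+| - |T_-|) / (2 DNE)`.
* `err_le`, `err_sum_le`: the summed forms with a free parameter `th > 0`.
-/

set_option autoImplicit false

namespace Pool.Agent.ICyc.D

open Finset Pool.Agent.ICyc
open scoped Classical

variable {V : Type} [Fintype V] {G : SimpleGraph V} {k : ℕ} [NeZero k]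

/-- the neighbours of `x a` which are not of type `T` -/
noncomputable def RRE (G : SimpleGraph V) (k : ℕ) [NeZero k] (x : ZMod k → V) (a : ZMod k) :
    Finset V := (nonT G k x).filter (fun w => G.Adj (x a) w)

/-- total weight of the neighbours -/
noncomputable def DNE (G : SimpleGraph V) (wt : V → ℝ) (u : V) : ℝ := ∑ v ∈ nb G u, wt v

/-- the guess -/
noncomputable def sGE (G : SimpleGraph V) (wt : V → ℝ) (u w : V) : ℝ :=
  (∑ v ∈ nb G u, wt v * adj G v w) / DNE G wt u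

/-- weight of `RRE` -/
noncomputable def NRE (G : SimpleGraph V) (k : ℕ) [NeZero k] (wt : V → ℝ) (x : ZMod k → V)
    (a : ZMod k) : ℝ := ∑ v ∈ RRE G k x a, wt v

/-- the part of `h - s` which comes from the two classes -/
noncomputable def alE (G : SimpleGraph V) (k : ℕ) [NeZero k] (wt : V → ℝ) (x : ZMod k → V)
    (a : ZMod k) (w : V) : ℝ :=
  (pD G k x (a - 1) w + pD G k x (a + 1) w) / 2 -
    (∑ v ∈ T G k (a - 1) x, wt v * adj G v w + ∑ v ∈ T G k (a + 1) x, wt v * adj G v w) / DNE G wt (x a)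

omit [NeZero k] [Fintype V] in
lemma je_adj01 (u w : V) : adj G u w = 0 ∨ adj G u w = 1 := by
  unfold adj
  split_ifs <;> simp

omit [NeZero k] [Fintype V] in
lemma je_adj_nonneg (u w : V) : 0 ≤ adj G u w := by
  rcases je_adj01 (G := G) u w with h | h <;> rw [h] <;> norm_num

/-- the neighbours of `x a` -/
lemma je_nb_split (hk : 5 ≤ k) (x : ZMod k → V) (a : ZMod k) (f : V → ℝ) :
    ∑ v ∈ nb G (x a), f v = ∑ v ∈ T G k (a - 1) x, f v + ∑ v ∈ T G k (a + 1) x, f v +
      ∑ v ∈ RRE G k x a, f v := by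
  have e1 : nb G (x a) = (T G k (a - 1) x ∪ T G k (a + 1) x) ∪ RRE G k x a := by
    ext w
    rw [bas_mem_nb, mem_union, mem_union, RRE, mem_filter]
    constructor
    · intro h
      by_cases hw : w ∈ nonT G k x
      · exact Or.inr ⟨hw, h⟩
      · left
        have : ∃ j : ZMod k, w ∈ T G k j x := by
          by_contra hcon
          push Not at hcon
          exact hw (by simpa [nonT] using hcon)
        obtain ⟨j, hj⟩ := this
        rcases (mem_T_adj_succ hj).1 h with h1 | h1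
        · right
          have : j = a + 1 := by linear_combination (-1 : ZMod k) * h1
          rwa [this] at hj
        · left
          have : j = a - 1 := by linear_combination (-1 : ZMod k) * h1
          rwa [this] at hj
    · rintro ((h | h) | h)
      · exact (mem_T_adj_succ h).2 (Or.inr (by ring))
      · exact (mem_T_adj_succ h).2 (Or.inl (by ring))
      · exact h.2
  have hd1 : Disjoint (T G k (a - 1) x ∪ T G k (a + 1) x) (RRE G k x a) := by
    rw [disjoint_right]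
    intro w h1 h2
    rw [RRE, mem_filter] at h1
    have h3 : ∀ j : ZMod k, w ∉ T G k j x := by simpa [nonT] using h1.1
    rcases mem_union.1 h2 with h | h
    · exact h3 _ h
    · exact h3 _ h
  have hd2 : Disjoint (T G k (a - 1) x) (T G k (a + 1) x) := by
    rw [disjoint_left]
    intro w h1 h2
    have h := T_disjoint hk h1 h2
    exact two_ne_zero' hk (by linear_combination (-1 : ZMod k) * h)
  rw [e1, sum_union hd1, sum_union hd2]

/-- exact form of the error -/
lemma err_exact (hk : 5 ≤ k) (wt : V → ℝ) (x : ZMod k → V) (a : ZMod k) (w : V) :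
    (pD G k x (a - 1) w + pD G k x (a + 1) w) / 2 - sGE G wt (x a) w =
      alE G k wt x a w - (∑ v ∈ RRE G k x a, wt v * adj G v w) / DNE G wt (x a) := by
  unfold sGE alE
  rw [je_nb_split hk x a (fun v => wt v * adj G v w)]
  ring

omit [NeZero k] [Fintype V] in
/-- Jensen's inequality -/
lemma je_jensen_sq {R : Finset V} {wt : V → ℝ} (hwt : ∀ v ∈ R, 0 ≤ wt v) (hN : 0 < ∑ v ∈ R, wt v)
    (b : ℝ) (c : V → ℝ) :
    (b - (∑ v ∈ R, wt v * c v) / ∑ v ∈ R, wt v) ^ 2 ≤
      (∑ v ∈ R, wt v * (b - c v) ^ 2) / ∑ v ∈ R, wt v := by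
  set N : ℝ := ∑ v ∈ R, wt v with hNdef
  set m : ℝ := (∑ v ∈ R, wt v * c v) / N with hm
  have h1 : ∑ v ∈ R, wt v * c v = m * N := by rw [hm]; field_simp
  have h2 : 0 ≤ ∑ v ∈ R, wt v * (m - c v) ^ 2 :=
    sum_nonneg fun v hv => mul_nonneg (hwt v hv) (sq_nonneg _)
  have h3 : ∑ v ∈ R, wt v * (b - c v) ^ 2 = ∑ v ∈ R, wt v * (m - c v) ^ 2 + (b - m) ^ 2 * N := by
    have e : ∀ v ∈ R, wt v * (b - c v) ^ 2 = wt v * (m - c v) ^ 2 +
        ((b - m) * (b + m) * wt v - 2 * (b - m) * (wt v * c v)) := fun v _ => by ring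
    rw [sum_congr rfl e, sum_add_distrib, sum_sub_distrib, ← mul_sum, ← mul_sum, ← hNdef, h1]
    ring
  rw [le_div_iff₀ hN, h3]
  linarith

/-- the error, by Jensen's inequality over the neighbours which are not of type `T` -/
lemma err_jensen (hk : 5 ≤ k) {wt : V → ℝ} (hwt : ∀ v, 0 ≤ wt v) (x : ZMod k → V) (a : ZMod k)
    (hN : 0 < NRE G k wt x a) (w : V) :
    ((pD G k x (a - 1) w + pD G k x (a + 1) w) / 2 - sGE G wt (x a) w) ^ 2 ≤
      (∑ v ∈ RRE G k x a, wt v * (alE G k wt x a w -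
        NRE G k wt x a / DNE G wt (x a) * adj G v w) ^ 2) / NRE G k wt x a := by
  rw [err_exact hk]
  have h := je_jensen_sq (R := RRE G k x a) (wt := wt) (fun v _ => hwt v) hN (alE G k wt x a w)
    (fun v => NRE G k wt x a / DNE G wt (x a) * adj G v w)
  have e : (∑ v ∈ RRE G k x a, wt v * (NRE G k wt x a / DNE G wt (x a) * adj G v w)) /
      ∑ v ∈ RRE G k x a, wt v = (∑ v ∈ RRE G k x a, wt v * adj G v w) / DNE G wt (x a) := by
    have e1 : ∑ v ∈ RRE G k x a, wt v * (NRE G k wt x a / DNE G wt (x a) * adj G v w) =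
        NRE G k wt x a / DNE G wt (x a) * ∑ v ∈ RRE G k x a, wt v * adj G v w := by
      rw [mul_sum]
      exact sum_congr rfl fun v _ => by ring
    have hN' : (∑ v ∈ RRE G k x a, wt v) ≠ 0 := hN.ne'
    rw [e1]
    unfold NRE
    field_simp
  rw [e] at h
  exact h

/-- without such neighbours -/
lemma err_zero (hk : 5 ≤ k) {wt : V → ℝ} (hwt : ∀ v, 0 ≤ wt v) (x : ZMod k → V) (a : ZMod k)
    (hN : NRE G k wt x a = 0) (w : V) :
    (pD G k x (a - 1) w + pD G k x (a + 1) w) / 2 - sGE G wt (x a) w = alE G k wt x a w := by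
  rw [err_exact hk]
  have h1 : ∀ v ∈ RRE G k x a, wt v = 0 :=
    (sum_eq_zero_iff_of_nonneg fun v _ => hwt v).1 hN
  have h2 : ∑ v ∈ RRE G k x a, wt v * adj G v w = 0 :=
    sum_eq_zero fun v hv => by rw [h1 v hv, zero_mul]
  rw [h2, zero_div, sub_zero]

lemma DNE_eq (hk : 5 ≤ k) {wt : V → ℝ} {x : ZMod k → V} {a : ZMod k}
    (h1 : ∀ v ∈ T G k (a - 1) x, wt v = 1) (h2 : ∀ v ∈ T G k (a + 1) x, wt v = 1) :
    DNE G wt (x a) = ((T G k (a - 1) x).card : ℝ) + ((T G k (a + 1) x).card : ℝ) +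
      NRE G k wt x a := by
  unfold DNE NRE
  rw [je_nb_split hk x a wt, sum_congr rfl h1, sum_congr rfl h2, sum_const, sum_const, nsmul_eq_mul,
    nsmul_eq_mul, mul_one, mul_one]

lemma je_sum_T_adj {wt : V → ℝ} {x : ZMod k → V} {j : ZMod k} (h : ∀ v ∈ T G k j x, wt v = 1)
    (w : V) : ∑ v ∈ T G k j x, wt v * adj G v w = ((T G k j x).card : ℝ) * pD G k x j w := by
  have e1 : ∑ v ∈ T G k j x, wt v * adj G v w =
      (((T G k j x).filter (fun v => G.Adj v w)).card : ℝ) := by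
    rw [sum_congr rfl fun v hv => by rw [h v hv, one_mul]]
    unfold adj
    rw [Finset.sum_boole]
  rw [e1]
  unfold pD
  by_cases hc : ((T G k j x).card : ℝ) = 0
  · have h0 : T G k j x = ∅ := card_eq_zero.1 (by exact_mod_cast hc)
    rw [h0]
    simp
  · field_simp

/-- weight one on the two classes -/
lemma alE_eq (hk : 5 ≤ k) {wt : V → ℝ} {x : ZMod k → V} {a : ZMod k}
    (h1 : ∀ v ∈ T G k (a - 1) x, wt v = 1) (h2 : ∀ v ∈ T G k (a + 1) x, wt v = 1)
    (hD : 0 < DNE G wt (x a)) (w : V) :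
    alE G k wt x a w = NRE G k wt x a / DNE G wt (x a) *
        ((pD G k x (a - 1) w + pD G k x (a + 1) w) / 2) +
      (((T G k (a + 1) x).card : ℝ) - ((T G k (a - 1) x).card : ℝ)) / (2 * DNE G wt (x a)) *
        (pD G k x (a - 1) w - pD G k x (a + 1) w) := by
  unfold alE
  rw [je_sum_T_adj h1, je_sum_T_adj h2]
  have hDD := DNE_eq hk h1 h2
  have hN : NRE G k wt x a = DNE G wt (x a) - ((T G k (a - 1) x).card : ℝ) -
      ((T G k (a + 1) x).card : ℝ) := by linarith
  rw [hN]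
  field_simp
  ring

omit [NeZero k] [Fintype V] in
/-- splitting a square -/
lemma je_sq_add_le {th : ℝ} (hth : 0 < th) (u v : ℝ) :
    (u + v) ^ 2 ≤ (1 + th) * u ^ 2 + (1 + 1 / th) * v ^ 2 := by
  have h : 0 ≤ (th * u - v) ^ 2 / th := by positivity
  have e : (1 + th) * u ^ 2 + (1 + 1 / th) * v ^ 2 - (u + v) ^ 2 = (th * u - v) ^ 2 / th := by
    field_simp
    ring
  linarith

/-- the error with weight one on the two classes: the part of `y ∈ RRE` is
`(1 + th) (N / D²) wt y (h - 1[y ~ w])²` -/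
lemma err_le (hk : 5 ≤ k) {wt : V → ℝ} (hwt : ∀ v, 0 ≤ wt v) {x : ZMod k → V} {a : ZMod k}
    (h1 : ∀ v ∈ T G k (a - 1) x, wt v = 1) (h2 : ∀ v ∈ T G k (a + 1) x, wt v = 1)
    (hD : 0 < DNE G wt (x a)) {th : ℝ} (hth : 0 < th) (w : V) :
    ((pD G k x (a - 1) w + pD G k x (a + 1) w) / 2 - sGE G wt (x a) w) ^ 2 ≤
      (1 + th) * (NRE G k wt x a / DNE G wt (x a) ^ 2 * ∑ v ∈ RRE G k x a, wt v *
        ((pD G k x (a - 1) w + pD G k x (a + 1) w) / 2 - adj G v w) ^ 2) +
      (1 + 1 / th) * ((((T G k (a + 1) x).card : ℝ) - ((T G k (a - 1) x).card : ℝ)) /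
        (2 * DNE G wt (x a)) * (pD G k x (a - 1) w - pD G k x (a + 1) w)) ^ 2 := by
  have hN0 : 0 ≤ NRE G k wt x a := sum_nonneg fun v _ => hwt v
  rcases hN0.eq_or_lt with hN | hN
  · rw [err_zero hk hwt x a hN.symm, alE_eq hk h1 h2 hD, ← hN]
    have h := je_sq_add_le hth (0 : ℝ) ((((T G k (a + 1) x).card : ℝ) -
      ((T G k (a - 1) x).card : ℝ)) / (2 * DNE G wt (x a)) *
        (pD G k x (a - 1) w - pD G k x (a + 1) w))
    simp only [zero_div, zero_mul, zero_add] at h ⊢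
    simpa using h
  · refine (err_jensen hk hwt x a hN w).trans ?_
    rw [div_le_iff₀ hN]
    have hpt : ∀ v ∈ RRE G k x a, wt v * (alE G k wt x a w -
        NRE G k wt x a / DNE G wt (x a) * adj G v w) ^ 2 ≤
        wt v * ((1 + th) * ((NRE G k wt x a / DNE G wt (x a)) ^ 2 *
          ((pD G k x (a - 1) w + pD G k x (a + 1) w) / 2 - adj G v w) ^ 2)) +
        wt v * ((1 + 1 / th) * ((((T G k (a + 1) x).card : ℝ) -
          ((T G k (a - 1) x).card : ℝ)) / (2 * DNE G wt (x a)) *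
          (pD G k x (a - 1) w - pD G k x (a + 1) w)) ^ 2) := by
      intro v _
      rw [← mul_add]
      refine mul_le_mul_of_nonneg_left ?_ (hwt v)
      have e : alE G k wt x a w - NRE G k wt x a / DNE G wt (x a) * adj G v w =
          NRE G k wt x a / DNE G wt (x a) *
            ((pD G k x (a - 1) w + pD G k x (a + 1) w) / 2 - adj G v w) +
          (((T G k (a + 1) x).card : ℝ) - ((T G k (a - 1) x).card : ℝ)) /
            (2 * DNE G wt (x a)) * (pD G k x (a - 1) w - pD G k x (a + 1) w) := by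
        rw [alE_eq hk h1 h2 hD]
        ring
      rw [e, ← mul_pow]
      exact je_sq_add_le hth _ _
    refine (sum_le_sum hpt).trans (le_of_eq ?_)
    rw [sum_add_distrib, ← sum_mul]
    have e2 : ∑ v ∈ RRE G k x a, wt v * ((1 + th) * ((NRE G k wt x a / DNE G wt (x a)) ^ 2 *
          ((pD G k x (a - 1) w + pD G k x (a + 1) w) / 2 - adj G v w) ^ 2)) =
        (1 + th) * (NRE G k wt x a / DNE G wt (x a)) ^ 2 * ∑ v ∈ RRE G k x a, wt v *
          ((pD G k x (a - 1) w + pD G k x (a + 1) w) / 2 - adj G v w) ^ 2 := by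
      rw [mul_sum]
      exact sum_congr rfl fun v _ => by ring
    rw [e2]
    have e3 : ∑ v ∈ RRE G k x a, wt v = NRE G k wt x a := rfl
    rw [e3]
    field_simp

/-- the summed form, with any nonnegative weight of the vertices `w` -/
lemma err_sum_le (hk : 5 ≤ k) {wt : V → ℝ} (hwt : ∀ v, 0 ≤ wt v) {om : V → ℝ}
    (hom : ∀ w, 0 ≤ om w) {x : ZMod k → V} {a : ZMod k}
    (h1 : ∀ v ∈ T G k (a - 1) x, wt v = 1) (h2 : ∀ v ∈ T G k (a + 1) x, wt v = 1)
    (hD : 0 < DNE G wt (x a)) {th : ℝ} (hth : 0 < th) :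
    ∑ w : V, om w * ((pD G k x (a - 1) w + pD G k x (a + 1) w) / 2 - sGE G wt (x a) w) ^ 2 ≤
      (1 + th) * (NRE G k wt x a / DNE G wt (x a) ^ 2 * ∑ v ∈ RRE G k x a, wt v *
        ∑ w : V, om w * ((pD G k x (a - 1) w + pD G k x (a + 1) w) / 2 - adj G v w) ^ 2) +
      (1 + 1 / th) * (((((T G k (a + 1) x).card : ℝ) - ((T G k (a - 1) x).card : ℝ)) /
        (2 * DNE G wt (x a))) ^ 2 * ∑ w : V, om w *
          (pD G k x (a - 1) w - pD G k x (a + 1) w) ^ 2) := by
  refine (sum_le_sum fun w _ => mul_le_mul_of_nonneg_left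
    (err_le hk hwt h1 h2 hD hth w) (hom w)).trans (le_of_eq ?_)
  have e1 : ∀ w : V, om w * ((1 + th) * (NRE G k wt x a / DNE G wt (x a) ^ 2 *
        ∑ v ∈ RRE G k x a, wt v *
        ((pD G k x (a - 1) w + pD G k x (a + 1) w) / 2 - adj G v w) ^ 2) +
      (1 + 1 / th) * ((((T G k (a + 1) x).card : ℝ) - ((T G k (a - 1) x).card : ℝ)) /
        (2 * DNE G wt (x a)) * (pD G k x (a - 1) w - pD G k x (a + 1) w)) ^ 2) =
      (1 + th) * (NRE G k wt x a / DNE G wt (x a) ^ 2) * (∑ v ∈ RRE G k x a, wt v * (om w *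
        ((pD G k x (a - 1) w + pD G k x (a + 1) w) / 2 - adj G v w) ^ 2)) +
      (1 + 1 / th) * ((((T G k (a + 1) x).card : ℝ) - ((T G k (a - 1) x).card : ℝ)) /
        (2 * DNE G wt (x a))) ^ 2 * (om w * (pD G k x (a - 1) w - pD G k x (a + 1) w) ^ 2) := by
    intro w
    have e0 : ∑ v ∈ RRE G k x a, wt v * (om w *
        ((pD G k x (a - 1) w + pD G k x (a + 1) w) / 2 - adj G v w) ^ 2) =
        om w * ∑ v ∈ RRE G k x a, wt v *
        ((pD G k x (a - 1) w + pD G k x (a + 1) w) / 2 - adj G v w) ^ 2 := by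
      rw [mul_sum]
      exact sum_congr rfl fun v _ => by ring
    rw [e0]
    ring
  rw [sum_congr rfl fun w _ => e1 w, sum_add_distrib, ← mul_sum, ← mul_sum, sum_comm]
  have e2 : ∑ v ∈ RRE G k x a, ∑ w : V, wt v * (om w *
        ((pD G k x (a - 1) w + pD G k x (a + 1) w) / 2 - adj G v w) ^ 2) =
      ∑ v ∈ RRE G k x a, wt v * ∑ w : V, om w *
        ((pD G k x (a - 1) w + pD G k x (a + 1) w) / 2 - adj G v w) ^ 2 :=
    sum_congr rfl fun v _ => (mul_sum _ _ _).symm
  rw [e2]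
  ring

end Pool.Agent.ICyc.D
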