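import Pool.Agent.Lib.MP_131fce_co.D.KStar

/-!
# Induced k-cycles in triangle-free graphs: explicit bounds of the one-sided kernels `k2 3`, `k2 4`

* `k2_three_le`: `k2 3 t ≤ t (59 + 41 t) / 100` on `[0, 1]`; `k2_four_le`: `k2 4 t ≤ t (27 + 73 t) / 100`.
* `k2_three_le_sq`: `k2 3 t ≤ 68/25 t²`.
* `k2_le_self`: `k2 L t ≤ t`; `k2_le_inv`: `k2 L t ≤ 1 / t` for `t ≥ 1`.
* `H_three`: `k2 3 t - t/2 ≤ 13/25 t²`, `H_four`: `k2 4 t - t/2 ≤ t²/2` for all `t ≥ 0`.
* `k2_three_le_half`: `k2 3 t ≤ t / 2` for `t ≤ 27/100`.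
* `KL_le_left`, `KL_le_right`, `KL_le_invs`: for `L ≥ 3` the kernel is at most `f`, `f'` and
  `1 / √(max 1 f * max 1 f')`.
-/

set_option autoImplicit false

namespace Pool.Agent.ICyc.D

open Finset Pool.Agent.ICyc
open scoped Classical

/-- `log` of a quotient `≥ 1` from below -/
lemma kb_log {a b : ℝ} (ha : 0 < a) (hb : a ≤ b) :
    2 * (b - a) / (b + a) ≤ Real.log b - Real.log a := by
  have hb0 : 0 < b := lt_of_lt_of_le ha hb
  have h := Real.le_log_one_add_of_nonneg (x := (b - a) / a) (div_nonneg (by linarith) ha.le)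
  have e1 : 1 + (b - a) / a = b / a := by field_simp; ring
  have e2 : 2 * ((b - a) / a) / ((b - a) / a + 2) = 2 * (b - a) / (b + a) := by
    have : (b - a) / a + 2 = (b + a) / a := by field_simp; ring
    rw [this]
    field_simp
  rw [e1, Real.log_div hb0.ne' ha.ne', e2] at h
  exact h

lemma kb_cL_of_le {L : ℕ} {t : ℝ} (ht : t ≤ 1) : cL L t = ((L : ℝ) - 1) * JJ t := by
  unfold cL
  rw [min_eq_right ht, max_eq_left ht, JJ_one, add_zero]

/-- the one-sided kernel at `t ≤ 0` -/
lemma kb_nonpos {L : ℕ} {t : ℝ} (ht : t ≤ 0) : k2 L t = 0 := by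
  unfold k2
  rw [if_neg (not_lt.2 ht)]

lemma k2_le_self {L : ℕ} (hL : 2 ≤ L) {t : ℝ} (ht : 0 ≤ t) : k2 L t ≤ t := by
  rcases ht.eq_or_lt with h | h
  · rw [← h, kb_nonpos le_rfl]
  · rcases le_or_gt t 1 with h1 | h1
    · refine k2_le (by omega) h fun _ => ?_
      rw [kb_cL_of_le h1]
      have h2 : (2 : ℝ) ≤ L := by exact_mod_cast hL
      have h3 : 0 ≤ JJ t := JJ_nonneg h
      nlinarith
    · exact (k2_le_one L t).trans h1.le

lemma k2_le_inv {L : ℕ} (hL : 1 ≤ L) {t : ℝ} (ht : 1 ≤ t) : k2 L t ≤ 1 / t := by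
  refine (k2_le_of_one_le hL ht).trans ?_
  have h0 : 0 < t := by linarith
  rw [div_le_div_iff₀ (by positivity) h0]
  nlinarith [sq_nonneg (t - 1)]

theorem k2_three_le {t : ℝ} (h0 : 0 ≤ t) (h1 : t ≤ 1) : k2 3 t ≤ t * (59 + 41 * t) / 100 := by
  rcases h0.eq_or_lt with h | h
  · rw [← h, kb_nonpos le_rfl]; norm_num
  refine k2_le (by norm_num) (by positivity) fun _ => ?_
  rw [kb_cL_of_le h1]
  have hb : 0 < (59 + 41 * t) / 100 := by positivity
  have e : t * (59 + 41 * t) / 100 = t * ((59 + 41 * t) / 100) := by ring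
  have hlog := kb_log (a := t) (b := (59 + 41 * t) / 100) h (by linarith)
  rw [e]
  unfold JJ
  rw [Real.log_mul h.ne' hb.ne']
  push_cast
  have hkey : (1 - t) * (1 - 41 / 100 * t) ≤ 2 * ((59 + 41 * t) / 100 - t) /
      ((59 + 41 * t) / 100 + t) := by
    rw [le_div_iff₀ (by positivity)]
    nlinarith [mul_nonneg (mul_nonneg (sub_nonneg.2 h1) (sub_nonneg.2 h1)) h0,
      mul_nonneg (sub_nonneg.2 h1) (sub_nonneg.2 h1)]
  nlinarith

theorem k2_four_le {t : ℝ} (h0 : 0 ≤ t) (h1 : t ≤ 1) : k2 4 t ≤ t * (27 + 73 * t) / 100 := by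
  rcases h0.eq_or_lt with h | h
  · rw [← h, kb_nonpos le_rfl]; norm_num
  refine k2_le (by norm_num) (by positivity) fun _ => ?_
  rw [kb_cL_of_le h1]
  have hb : 0 < (27 + 73 * t) / 100 := by positivity
  have e : t * (27 + 73 * t) / 100 = t * ((27 + 73 * t) / 100) := by ring
  have hlog := kb_log (a := t) (b := (27 + 73 * t) / 100) h (by linarith)
  have hlog2 := kb_log (a := t) (b := 1) h h1
  rw [Real.log_one] at hlog2
  rw [e]
  unfold JJ
  rw [Real.log_mul h.ne' hb.ne']
  push_cast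
  have hkey : 2 - 273 / 100 * t + 73 / 100 * t ^ 2 ≤ 2 * ((27 + 73 * t) / 100 - t) /
      ((27 + 73 * t) / 100 + t) + 2 * (1 - t) / (1 + t) := by
    rw [div_add_div _ _ (by positivity) (by positivity), le_div_iff₀ (by positivity)]
    nlinarith [mul_nonneg (mul_nonneg (sub_nonneg.2 h1) (sub_nonneg.2 h1)) h0,
      mul_nonneg (sub_nonneg.2 h1) (sub_nonneg.2 h1),
      mul_nonneg (mul_nonneg (mul_nonneg (sub_nonneg.2 h1) (sub_nonneg.2 h1)) h0) h0]
  nlinarith

/-- `k2 3 t ≤ e t²` up to rounding -/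
theorem k2_three_le_sq {t : ℝ} (h0 : 0 ≤ t) : k2 3 t ≤ 68 / 25 * t ^ 2 := by
  rcases h0.eq_or_lt with h | h
  · rw [← h, kb_nonpos le_rfl]; norm_num
  rcases le_or_gt t (7 / 10) with h1 | h1
  · refine k2_le (by norm_num) (by positivity) fun _ => ?_
    rw [kb_cL_of_le (by linarith)]
    unfold JJ
    rw [Real.log_mul (by norm_num) (by positivity), Real.log_pow]
    push_cast
    have hlog : 1 ≤ Real.log (68 / 25) := by
      rw [Real.le_log_iff_exp_le (by norm_num)]
      have := Real.exp_one_lt_d9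
      linarith
    nlinarith
  · refine (k2_le_one 3 t).trans ?_
    nlinarith

theorem H_three {t : ℝ} (h0 : 0 ≤ t) : k2 3 t - t / 2 ≤ 13 / 25 * t ^ 2 := by
  rcases h0.eq_or_lt with h | h
  · rw [← h, kb_nonpos le_rfl]; norm_num
  rcases le_or_gt 1 (t / 2 + 13 / 25 * t ^ 2) with h1 | h1
  · have := k2_le_one 3 t
    linarith
  · have ht1 : t ≤ 1 := by
      by_contra hcon
      push Not at hcon
      nlinarith
    have ht2 : t ≤ 98 / 100 + 7 / 1000 := by
      by_contra hcon
      push Not at hcon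
      nlinarith
    have hle : k2 3 t ≤ t / 2 + 13 / 25 * t ^ 2 := by
      refine k2_le (by norm_num) (by positivity) fun _ => ?_
      rw [kb_cL_of_le ht1]
      have hb : 0 < 1 / 2 + 13 / 25 * t := by positivity
      have e : t / 2 + 13 / 25 * t ^ 2 = t * (1 / 2 + 13 / 25 * t) := by ring
      have hlog := kb_log (a := t) (b := 1 / 2 + 13 / 25 * t) h (by linarith)
      rw [e]
      unfold JJ
      rw [Real.log_mul h.ne' hb.ne']
      push_cast
      have hkey : 1 - 3 / 2 * t + 13 / 25 * t ^ 2 ≤ 2 * (1 / 2 + 13 / 25 * t - t) /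
          (1 / 2 + 13 / 25 * t + t) := by
        rw [le_div_iff₀ (by positivity)]
        have hp : 0 ≤ 1 / 2 - 173 / 100 * t + 202 / 100 * t ^ 2 - 7904 / 10000 * t ^ 3 := by
          rcases le_or_gt t (9 / 10) with h3 | h3
          · nlinarith [mul_nonneg (sq_nonneg (t - 81 / 100)) h0, sq_nonneg (t - 81 / 100),
              mul_nonneg (sq_nonneg (t - 81 / 100)) (sub_nonneg.2 h3)]
          · nlinarith [mul_nonneg (sub_nonneg.2 h3.le) (sub_nonneg.2 ht2),
              mul_nonneg (mul_nonneg (sub_nonneg.2 h3.le) (sub_nonneg.2 ht2)) h0]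
        nlinarith
      nlinarith
    linarith

theorem H_four {t : ℝ} (h0 : 0 ≤ t) : k2 4 t - t / 2 ≤ t ^ 2 / 2 := by
  rcases le_or_gt t 1 with h1 | h1
  · have := k2_four_le h0 h1
    nlinarith [mul_nonneg h0 (sub_nonneg.2 h1)]
  · have := k2_le_one 4 t
    nlinarith

/-- for small arguments the quadratic price is already below `t / 2` -/
theorem k2_three_le_half {t : ℝ} (h0 : 0 ≤ t) (h1 : t ≤ 27 / 100) : k2 3 t ≤ t / 2 := by
  rcases h0.eq_or_lt with h | h
  · rw [← h, kb_nonpos le_rfl]; norm_num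
  refine k2_le (by norm_num) (by positivity) fun _ => ?_
  rw [kb_cL_of_le (by linarith)]
  unfold JJ
  rw [Real.log_div h.ne' (by norm_num)]
  push_cast
  have h2 : Real.log t ≤ Real.log (27 / 100) + (t / (27 / 100) - 1) := by
    have := Real.log_le_sub_one_of_pos (show 0 < t / (27 / 100) by positivity)
    rw [Real.log_div h.ne' (by norm_num)] at this
    linarith
  have h3 : Real.log (27 / 100) ≤ - (13 / 10) := by
    rw [Real.log_le_iff_le_exp (by norm_num)]
    rw [Real.exp_neg]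
    have h4 : Real.exp (13 / 10) ≤ 100 / 27 := by
      have e : Real.exp (13 / 10) = Real.exp (13 / 20) ^ 2 := by
        rw [← Real.exp_nat_mul]; norm_num
      have h5 := Real.exp_bound' (x := 13 / 20) (by norm_num) (by norm_num) (n := 7) (by norm_num)
      have h6 : Real.exp (13 / 20) ≤ 19162 / 10000 := by
        refine h5.trans ?_
        norm_num [Finset.sum_range_succ, Nat.factorial]
      rw [e]
      have h7 := Real.exp_pos (13 / 20)
      nlinarith
    rw [le_inv_comm₀ (by norm_num) (Real.exp_pos _)]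
    norm_num at h4 ⊢
    exact h4
  have h4 : Real.log 2 ≤ 7 / 10 := by
    have := Real.log_two_lt_d9
    linarith
  nlinarith

variable {V : Type} [Fintype V] {G : SimpleGraph V} {k : ℕ} [NeZero k]

lemma kb_JJ_inv_le {s : ℝ} (hs : 1 ≤ s) : JJ (1 / s) ≤ JJ s := by
  have h0 : 0 < s := by linarith
  unfold JJ
  rw [one_div, Real.log_inv]
  have h := kb_log (a := 1) (b := s) one_pos hs
  rw [Real.log_one, sub_zero] at h
  -- `2 log s ≤ s - 1/s`
  have h1 : 2 * Real.log s ≤ s - s⁻¹ := by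
    have h2 := Real.log_le_sub_one_of_pos (show 0 < Real.sqrt s by positivity)
    have hs1 : 1 ≤ Real.sqrt s := by
      rw [Real.one_le_sqrt]; exact hs
    have h3 : Real.sqrt s * Real.sqrt s = s := Real.mul_self_sqrt h0.le
    -- monotonicity of `s - 1/s - 2 log s` through the integral free bound on `sqrt`
    have hm : MonotoneOn (fun y : ℝ => y - y⁻¹ - 2 * Real.log y) (Set.Ici 1) := by
      have hd : ∀ y : ℝ, 1 ≤ y → HasDerivAt (fun y : ℝ => y - y⁻¹ - 2 * Real.log y)
          (1 - (-(y ^ 2)⁻¹) - 2 * y⁻¹) y := by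
        intro y hy
        have hy0 : y ≠ 0 := by positivity
        exact ((hasDerivAt_id y).sub (hasDerivAt_inv hy0)).sub
          ((Real.hasDerivAt_log hy0).const_mul 2)
      refine monotoneOn_of_deriv_nonneg (convex_Ici 1) ?_ ?_ ?_
      · exact fun y hy => (hd y hy).continuousAt.continuousWithinAt
      · intro y hy
        rw [interior_Ici] at hy
        exact (hd y (le_of_lt hy)).differentiableAt.differentiableWithinAt
      · intro y hy
        rw [interior_Ici] at hy
        have hy1 : (1 : ℝ) ≤ y := le_of_lt hy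
        rw [(hd y hy1).deriv]
        have hy0 : y ≠ 0 := by positivity
        have e : 1 - (-(y ^ 2)⁻¹) - 2 * y⁻¹ = (1 - y⁻¹) ^ 2 := by
          field_simp
          ring
        rw [e]
        positivity
    have h4 := hm (Set.mem_Ici.2 le_rfl) (Set.mem_Ici.2 hs) hs
    simp only [inv_one, Real.log_one, mul_zero, sub_zero, sub_self] at h4
    linarith
  linarith

lemma kb_cL_ge_left {L : ℕ} (hL : 1 ≤ L) {t : ℝ} (ht : 0 < t) (h1 : t ≤ 1) {c : ℝ}
    (hc : 0 ≤ c) (h3 : 3 ≤ L) : JJ t ≤ (cL L t + c) / 2 := by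
  rw [kb_cL_of_le h1]
  have h2 : (3 : ℝ) ≤ L := by exact_mod_cast h3
  have h4 : 0 ≤ JJ t := JJ_nonneg ht
  nlinarith

/-- for `L ≥ 3` the kernel is at most the one-sided difference -/
theorem KL_le_left {L : ℕ} (hL : 3 ≤ L) {u v : V} (h : 0 ≤ ff G k u v) :
    KL G k L u v ≤ ff G k u v := by
  unfold KL
  split_ifs with h0
  · rcases le_or_gt (ff G k u v) 1 with h1 | h1
    · exact kk_le (by
        have := cL_nonneg (L := L) (by omega) h0.1
        have := cL_nonneg (L := L) (by omega) h0.2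
        positivity) h0.1
        (kb_cL_ge_left (by omega) h0.1 h1 (cL_nonneg (by omega) h0.2) hL)
    · exact (kk_le_one _).trans h1.le
  · exact h

theorem KL_le_right {L : ℕ} (hL : 3 ≤ L) {u v : V} (h : 0 ≤ ff G k v u) :
    KL G k L u v ≤ ff G k v u := by
  rw [KL_symm]
  exact KL_le_left hL h

/-- the kernel is at most the inverse of the geometric mean of the differences above `1` -/
theorem KL_le_invs {L : ℕ} (hL : 1 ≤ L) (u v : V) :
    KL G k L u v ≤ 1 / Real.sqrt (max 1 (ff G k u v) * max 1 (ff G k v u)) := by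
  set a := max 1 (ff G k u v) with ha
  set b := max 1 (ff G k v u) with hb
  have ha1 : 1 ≤ a := le_max_left _ _
  have hb1 : 1 ≤ b := le_max_left _ _
  have hab : 1 ≤ Real.sqrt (a * b) := by
    rw [Real.one_le_sqrt]
    nlinarith
  unfold KL
  split_ifs with h0
  · refine kk_le (by
        have := cL_nonneg (L := L) hL h0.1
        have := cL_nonneg (L := L) hL h0.2
        positivity) (by positivity) ?_
    refine (kb_JJ_inv_le hab).trans ((JJ_sqrt_mul (by linarith) (by linarith)).trans ?_)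
    have h2 : (1 : ℝ) ≤ L := by exact_mod_cast hL
    have h3 : ∀ t : ℝ, 0 < t → JJ (max 1 t) ≤ cL L t := by
      intro t ht
      unfold cL
      have h4 : 0 ≤ JJ (min 1 t) := JJ_nonneg (lt_min one_pos ht)
      nlinarith
    have h5 := h3 _ h0.1
    have h6 := h3 _ h0.2
    rw [← ha] at h5
    rw [← hb] at h6
    linarith
  · positivity

end Pool.Agent.ICyc.D
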