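import Pool.Agent.Lib.MP_131fce_co.D.KLp
import Pool.Agent.Lib.MP_131fce_co.D.K2Bd

/-!
# Induced k-cycles in triangle-free graphs: bounds of the kernel as a function of two numbers

`KFp L q s t` is the kernel with the share `q` as a function of the two differences `s` and `t`
(`q = 1 / 2` is the function `KF` of `Rows.lean`).
-/

set_option autoImplicit false

namespace Pool.Agent.ICyc.D

open Pool.Agent.ICyc

/-- the kernel as a function of the two differences -/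
noncomputable def KFp (L : ℕ) (q s t : ℝ) : ℝ :=
  if 0 < s ∧ 0 < t then kk ((cLp L q s + cLp L q t) / 2) else 0

/-- the kernel when only one difference is known -/
noncomputable def k1p (L : ℕ) (q t : ℝ) : ℝ := if 0 < t then kk (cLp L q t / 2) else 0

lemma KFp_nonneg (L : ℕ) (q s t : ℝ) : 0 ≤ KFp L q s t := by
  unfold KFp
  split_ifs
  · exact (kk_pos _).le
  · exact le_rfl

lemma KFp_le_one (L : ℕ) (q s t : ℝ) : KFp L q s t ≤ 1 := by
  unfold KFp
  split_ifs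
  · exact kk_le_one _
  · exact zero_le_one

lemma KFp_symm (L : ℕ) (q s t : ℝ) : KFp L q s t = KFp L q t s := by
  unfold KFp
  by_cases h : 0 < s ∧ 0 < t
  · rw [if_pos h, if_pos h.symm, add_comm]
  · rw [if_neg h, if_neg (fun h' => h h'.symm)]

lemma KFp_pos (L : ℕ) (q : ℝ) {s t : ℝ} (hs : 0 < s) (ht : 0 < t) : 0 < KFp L q s t := by
  unfold KFp
  rw [if_pos ⟨hs, ht⟩]
  exact kk_pos _

lemma KFp_of_nonpos (L : ℕ) (q : ℝ) {s : ℝ} (t : ℝ) (hs : s ≤ 0) : KFp L q s t = 0 := by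
  unfold KFp
  rw [if_neg fun h => absurd h.1 (not_lt.2 hs)]

lemma k1p_nonneg (L : ℕ) (q t : ℝ) : 0 ≤ k1p L q t := by
  unfold k1p
  split_ifs
  · exact (kk_pos _).le
  · exact le_rfl

lemma k1p_le_one (L : ℕ) (q t : ℝ) : k1p L q t ≤ 1 := by
  unfold k1p
  split_ifs
  · exact kk_le_one _
  · exact zero_le_one

lemma cLp_one (L : ℕ) (q : ℝ) : cLp L q 1 = 0 := by
  unfold cLp
  rw [min_self, max_self, JJ_one, mul_zero, mul_zero, add_zero]

lemma cLp_of_le {L : ℕ} {q t : ℝ} (ht : t ≤ 1) : cLp L q t = ((L : ℝ) - 1) * JJ t := by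
  unfold cLp
  rw [min_eq_right ht, max_eq_left ht, JJ_one, mul_zero, add_zero]

lemma cLp_of_ge {L : ℕ} {q t : ℝ} (ht : 1 ≤ t) : cLp L q t = 2 * q * JJ t := by
  unfold cLp
  rw [min_eq_left ht, max_eq_right ht, JJ_one, mul_zero, zero_add]

/-- below `1` the cost decreases -/
lemma cLp_anti {L : ℕ} (hL : 1 ≤ L) {q s t : ℝ} (hs : 0 < s) (hst : s ≤ t) (ht : t ≤ 1) :
    cLp L q t ≤ cLp L q s := by
  rw [cLp_of_le ht, cLp_of_le (hst.trans ht)]
  have h3 : (1 : ℝ) ≤ L := by exact_mod_cast hL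
  exact mul_le_mul_of_nonneg_left (JJ_anti hs hst ht) (by linarith)

/-- above `1` the cost increases -/
lemma cLp_mono {L : ℕ} {q s t : ℝ} (hq : 0 ≤ q) (hs : 1 ≤ s) (hst : s ≤ t) :
    cLp L q s ≤ cLp L q t := by
  rw [cLp_of_ge hs, cLp_of_ge (hs.trans hst)]
  exact mul_le_mul_of_nonneg_left (JJ_mono hs hst) (by linarith)

/-- the way to bound the kernel from above -/
lemma KFp_le {L : ℕ} (hL : 1 ≤ L) {q s t B : ℝ} (hq : 0 ≤ q) (hB : 0 < B)
    (h : 0 < s → 0 < t → JJ B ≤ (cLp L q s + cLp L q t) / 2) : KFp L q s t ≤ B := by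
  unfold KFp
  split_ifs with h0
  · refine kk_le ?_ hB (h h0.1 h0.2)
    have := cLp_nonneg hL hq h0.1
    have := cLp_nonneg hL hq h0.2
    linarith
  · exact hB.le

/-- the way to bound the kernel from below -/
lemma le_KFp {L : ℕ} (hL : 1 ≤ L) {q s t B : ℝ} (hq : 0 ≤ q) (hs : 0 < s) (ht : 0 < t)
    (hB : B ≤ 1) (h : (cLp L q s + cLp L q t) / 2 ≤ JJ B) : B ≤ KFp L q s t := by
  unfold KFp
  rw [if_pos ⟨hs, ht⟩]
  refine le_kk ?_ hB h
  have := cLp_nonneg hL hq hs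
  have := cLp_nonneg hL hq ht
  linarith

lemma JJ_KFp {L : ℕ} (hL : 1 ≤ L) {q s t : ℝ} (hq : 0 ≤ q) (hs : 0 < s) (ht : 0 < t) :
    JJ (KFp L q s t) = (cLp L q s + cLp L q t) / 2 := by
  unfold KFp
  rw [if_pos ⟨hs, ht⟩]
  refine JJ_kk ?_
  have := cLp_nonneg hL hq hs
  have := cLp_nonneg hL hq ht
  linarith

/-- comparison by the costs -/
lemma KFp_anti_cost {L : ℕ} (hL : 1 ≤ L) {q s t s' t' : ℝ} (hq : 0 ≤ q)
    (hp : 0 < s → 0 < t → 0 < s' ∧ 0 < t')
    (h : 0 < s → 0 < t → cLp L q s' + cLp L q t' ≤ cLp L q s + cLp L q t) :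
    KFp L q s t ≤ KFp L q s' t' := by
  by_cases h0 : 0 < s ∧ 0 < t
  · have h1 := hp h0.1 h0.2
    unfold KFp
    rw [if_pos h0, if_pos h1]
    refine kk_anti ?_ (by linarith [h h0.1 h0.2])
    have := cLp_nonneg hL hq h1.1
    have := cLp_nonneg hL hq h1.2
    linarith
  · unfold KFp
    rw [if_neg h0]
    exact KFp_nonneg L q s' t'

/-- below `1` the kernel increases in the first variable -/
lemma KFp_mono_left {L : ℕ} (hL : 1 ≤ L) {q s s' t : ℝ} (hq : 0 ≤ q) (hs : s ≤ s')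
    (hs1 : s' ≤ 1) : KFp L q s t ≤ KFp L q s' t :=
  KFp_anti_cost hL hq (fun h1 h2 => ⟨lt_of_lt_of_le h1 hs, h2⟩)
    (fun h1 _ => by linarith [cLp_anti (q := q) hL h1 hs hs1])

lemma KFp_mono_right {L : ℕ} (hL : 1 ≤ L) {q s t t' : ℝ} (hq : 0 ≤ q) (ht : t ≤ t')
    (ht1 : t' ≤ 1) : KFp L q s t ≤ KFp L q s t' := by
  rw [KFp_symm, KFp_symm L q s]
  exact KFp_mono_left hL hq ht ht1

/-- above `1` the kernel decreases in the first variable -/
lemma KFp_anti_left {L : ℕ} (hL : 1 ≤ L) {q s s' t : ℝ} (hq : 0 ≤ q) (hs1 : 1 ≤ s)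
    (hs : s ≤ s') : KFp L q s' t ≤ KFp L q s t :=
  KFp_anti_cost hL hq (fun _ h2 => ⟨by linarith, h2⟩)
    (fun _ _ => by linarith [cLp_mono (L := L) hq hs1 hs])

lemma KFp_anti_right {L : ℕ} (hL : 1 ≤ L) {q s t t' : ℝ} (hq : 0 ≤ q) (ht1 : 1 ≤ t)
    (ht : t ≤ t') : KFp L q s t' ≤ KFp L q s t := by
  rw [KFp_symm, KFp_symm L q s]
  exact KFp_anti_left hL hq ht1 ht

/-- the kernel is at most the one-variable kernel -/
lemma KFp_le_k1p {L : ℕ} (hL : 1 ≤ L) {q : ℝ} (hq : 0 ≤ q) (s t : ℝ) :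
    KFp L q s t ≤ k1p L q s := by
  by_cases h0 : 0 < s ∧ 0 < t
  · unfold KFp k1p
    rw [if_pos h0, if_pos h0.1]
    have h1 := cLp_nonneg hL hq h0.1
    have h2 := cLp_nonneg hL hq h0.2
    exact kk_anti (by linarith) (by linarith)
  · unfold KFp
    rw [if_neg h0]
    exact k1p_nonneg L q s

lemma KFp_le_k1p' {L : ℕ} (hL : 1 ≤ L) {q : ℝ} (hq : 0 ≤ q) (s t : ℝ) :
    KFp L q s t ≤ k1p L q t := by
  rw [KFp_symm]
  exact KFp_le_k1p hL hq t s

/-- the kernel is at most the geometric mean of the one-sided kernels -/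
lemma KFp_le_sqrt {L : ℕ} (hL : 1 ≤ L) {q : ℝ} (hq : 0 ≤ q) (s t : ℝ) :
    KFp L q s t ≤ Real.sqrt (k2p L q s * k2p L q t) := by
  unfold KFp
  split_ifs with h
  · unfold k2p
    rw [if_pos h.1, if_pos h.2]
    exact kk_mid_sqrt (cLp_nonneg hL hq h.1) (cLp_nonneg hL hq h.2)
  · exact Real.sqrt_nonneg _

/-- the kernel is at most the mean of the one-sided kernels -/
lemma KFp_le_mean {L : ℕ} (hL : 1 ≤ L) {q : ℝ} (hq : 0 ≤ q) (s t : ℝ) :
    KFp L q s t ≤ (k2p L q s + k2p L q t) / 2 := by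
  refine (KFp_le_sqrt hL hq s t).trans ?_
  have h1 := k2p_nonneg L q s
  have h2 := k2p_nonneg L q t
  rw [Real.sqrt_le_left (by positivity)]
  nlinarith [sq_nonneg (k2p L q s - k2p L q t)]

/-- product form -/
lemma KFp_le_mul {L : ℕ} (hL : 1 ≤ L) {q : ℝ} (hq : 0 ≤ q) {s t a b : ℝ} (ha : 0 ≤ a)
    (hb : 0 ≤ b) (h1 : k2p L q s ≤ a ^ 2) (h2 : k2p L q t ≤ b ^ 2) :
    KFp L q s t ≤ a * b := by
  refine (KFp_le_sqrt hL hq s t).trans ?_
  rw [Real.sqrt_le_left (mul_nonneg ha hb), mul_pow]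
  exact mul_le_mul h1 h2 (k2p_nonneg _ _ _) (sq_nonneg a)

/-- for `L ≥ 3` the one-variable kernel is at most the difference -/
lemma k1p_le_self {L : ℕ} (hL : 3 ≤ L) {q t : ℝ} (hq : 0 ≤ q) (ht : 0 ≤ t) : k1p L q t ≤ t := by
  unfold k1p
  split_ifs with h
  · rcases le_total 1 t with h1 | h1
    · exact (kk_le_one _).trans h1
    · have hL1 : 1 ≤ L := by omega
      have c1 := cLp_nonneg hL1 hq h
      refine kk_le (by positivity) h ?_
      have h3 : (3 : ℝ) ≤ L := by exact_mod_cast hL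
      rw [cLp_of_le h1]
      have := JJ_nonneg h
      nlinarith
  · exact ht

/-- for `L ≥ 3` the kernel is at most each of the differences -/
lemma KFp_le_left {L : ℕ} (hL : 3 ≤ L) {q s : ℝ} (hq : 0 ≤ q) (hs : 0 ≤ s) (t : ℝ) :
    KFp L q s t ≤ s :=
  (KFp_le_k1p (by omega) hq s t).trans (k1p_le_self hL hq hs)

lemma KFp_le_right {L : ℕ} (hL : 3 ≤ L) {q t : ℝ} (hq : 0 ≤ q) (s : ℝ) (ht : 0 ≤ t) :
    KFp L q s t ≤ t := by
  rw [KFp_symm]
  exact KFp_le_left hL hq ht s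

/-- any convex combination of the bounds `1` and `s` -/
lemma KFp_le_mix {L : ℕ} (hL : 3 ≤ L) {q s : ℝ} (hq : 0 ≤ q) (hs : 0 ≤ s) (t : ℝ) {th : ℝ}
    (h0 : 0 ≤ th) (h1 : th ≤ 1) : KFp L q s t ≤ th + (1 - th) * s := by
  have a := KFp_le_left hL hq hs t
  have b := KFp_le_one L q s t
  nlinarith

/-! ### chords above `1` -/

/-- the chord inequality: a line through `(1, 1)` that is admissible at `1 + Y` is admissible on
the whole interval -/
theorem JJ_chord {q b Y y : ℝ} (hq : 0 ≤ q) (hb : 0 ≤ b) (hbY : b * Y < 1)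
    (hY : JJ (1 - b * Y) ≤ q * JJ (1 + Y)) (h0 : 0 ≤ y) (h1 : y ≤ Y) :
    JJ (1 - b * y) ≤ q * JJ (1 + y) := by
  -- the function h with derivative y (q - b^2 - (q b + b^2) y) / ((1 + y)(1 - b y))
  set h : ℝ → ℝ := fun y => (q + b) * y - q * Real.log (1 + y) + Real.log (1 - b * y) with hh
  have e : ∀ y : ℝ, q * JJ (1 + y) - JJ (1 - b * y) = h y := by
    intro y
    rw [hh]
    unfold JJ
    ring
  have hY0 : 0 ≤ Y := h0.trans h1
  have hpos : ∀ z, 0 ≤ z → z ≤ Y → 0 < 1 - b * z := fun z _ hz => by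
    have := mul_le_mul_of_nonneg_left hz hb
    linarith
  have hcont : ContinuousOn h (Set.Icc 0 Y) := by
    rw [hh]
    refine ContinuousOn.add (ContinuousOn.sub (by fun_prop) ?_) ?_
    · refine ContinuousOn.mul (by fun_prop) (ContinuousOn.log (by fun_prop) ?_)
      intro z hz
      have := hz.1
      positivity
    · refine ContinuousOn.log (by fun_prop) ?_
      intro z hz
      exact (hpos z hz.1 hz.2).ne'
  have hder : ∀ z, 0 ≤ z → z ≤ Y → HasDerivAt h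
      (z * (q - b ^ 2 - (q * b + b ^ 2) * z) / ((1 + z) * (1 - b * z))) z := by
    intro z hz0 hz1
    have p1 : (0 : ℝ) < 1 + z := by linarith
    have p2 := hpos z hz0 hz1
    have d1 : HasDerivAt (fun y : ℝ => (q + b) * y) (q + b) z := by
      simpa using (hasDerivAt_id z).const_mul (q + b)
    have d2 : HasDerivAt (fun y : ℝ => q * Real.log (1 + y)) (q * (1 / (1 + z))) z := by
      have := ((hasDerivAt_id z).const_add 1).log p1.ne'
      simpa using this.const_mul q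
    have d3 : HasDerivAt (fun y : ℝ => Real.log (1 - b * y)) (-b / (1 - b * z)) z := by
      have d4 : HasDerivAt (fun y : ℝ => 1 - b * y) (-b) z := by
        simpa using ((hasDerivAt_id z).const_mul b).const_sub 1
      exact d4.log p2.ne'
    have := (d1.sub d2).add d3
    refine this.congr_deriv ?_
    field_simp
    ring
  by_contra hcon
  push Not at hcon
  have hy : h y < 0 := by rw [← e]; linarith
  have hYn : 0 ≤ h Y := by rw [← e]; linarith
  have h00 : h 0 = 0 := by rw [hh]; simp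
  have hy0 : 0 < y := by
    rcases h0.lt_or_eq with h2 | h2
    · exact h2
    · rw [← h2, h00] at hy
      exact absurd hy (lt_irrefl 0)
  have hyY : y < Y := by
    rcases h1.lt_or_eq with h2 | h2
    · exact h2
    · rw [h2] at hy
      exact absurd hy (not_lt.2 hYn)
  -- mean value points
  obtain ⟨c1, hc1, hd1⟩ := exists_hasDerivAt_eq_slope h _ hy0
    (hcont.mono (Set.Icc_subset_Icc le_rfl h1))
    (fun z hz => hder z hz.1.le (hz.2.le.trans h1))
  obtain ⟨c2, hc2, hd2⟩ := exists_hasDerivAt_eq_slope h _ hyY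
    (hcont.mono (Set.Icc_subset_Icc h0 le_rfl))
    (fun z hz => hder z (h0.trans hz.1.le) hz.2.le)
  have s1 : (h y - h 0) / (y - 0) < 0 := by
    rw [h00]
    exact div_neg_of_neg_of_pos (by linarith) (by linarith)
  have s2 : 0 < (h Y - h y) / (Y - y) := div_pos (by linarith) (by linarith)
  rw [← hd1] at s1
  rw [← hd2] at s2
  have c1p : 0 < c1 := hc1.1
  have c2p : 0 < c2 := lt_trans hy0 hc2.1
  have n1 : q - b ^ 2 - (q * b + b ^ 2) * c1 < 0 := by
    by_contra h5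
    push Not at h5
    have p1 : 0 < (1 + c1) * (1 - b * c1) :=
      mul_pos (by linarith) (hpos c1 c1p.le (hc1.2.le.trans h1))
    have : 0 ≤ c1 * (q - b ^ 2 - (q * b + b ^ 2) * c1) / ((1 + c1) * (1 - b * c1)) :=
      div_nonneg (mul_nonneg c1p.le h5) p1.le
    linarith
  have n2 : 0 < q - b ^ 2 - (q * b + b ^ 2) * c2 := by
    by_contra h5
    push Not at h5
    have p1 : 0 < (1 + c2) * (1 - b * c2) :=
      mul_pos (by linarith) (hpos c2 c2p.le hc2.2.le)
    have : c2 * (q - b ^ 2 - (q * b + b ^ 2) * c2) / ((1 + c2) * (1 - b * c2)) ≤ 0 :=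
      div_nonpos_of_nonpos_of_nonneg (mul_nonpos_of_nonneg_of_nonpos c2p.le h5) p1.le
    linarith
  have c12 : c1 < c2 := lt_trans hc1.2 hc2.1
  have : (q * b + b ^ 2) * c1 ≤ (q * b + b ^ 2) * c2 :=
    mul_le_mul_of_nonneg_left c12.le (by positivity)
  linarith

/-- the chord bound of the one-variable kernel -/
theorem k1p_le_chord {L : ℕ} (hL : 1 ≤ L) {q b Y s : ℝ} (hq : 0 ≤ q) (hb : 0 ≤ b)
    (hbY : b * Y < 1) (hY : JJ (1 - b * Y) ≤ q * JJ (1 + Y)) (h0 : 1 ≤ s)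
    (h1 : s ≤ 1 + Y) : k1p L q s ≤ 1 - b * (s - 1) := by
  have h2 := JJ_chord hq hb hbY hY (y := s - 1) (by linarith) (by linarith)
  have h3 : (1 : ℝ) + (s - 1) = s := by ring
  rw [h3] at h2
  unfold k1p
  rw [if_pos (by linarith)]
  refine kk_le ?_ ?_ ?_
  · have := cLp_nonneg hL hq (by linarith : (0 : ℝ) < s)
    linarith
  · have := mul_le_mul_of_nonneg_left (by linarith : s - 1 ≤ Y) hb
    linarith
  · rw [cLp_of_ge h0]
    linarith

/-- the chord bound of the kernel, all `s ∈ [0, 1 + Y]` -/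
theorem KFp_le_chord {L : ℕ} (hL : 1 ≤ L) {q b Y s : ℝ} (hq : 0 ≤ q) (hb : 0 ≤ b)
    (hbY : b * Y < 1) (hY : JJ (1 - b * Y) ≤ q * JJ (1 + Y))
    (h1 : s ≤ 1 + Y) (t : ℝ) : KFp L q s t ≤ 1 - b * (s - 1) := by
  rcases le_total s 1 with h | h
  · refine (KFp_le_one L q s t).trans ?_
    have : b * (s - 1) ≤ 0 := mul_nonpos_of_nonneg_of_nonpos hb (by linarith)
    linarith
  · exact (KFp_le_k1p hL hq s t).trans (k1p_le_chord hL hq hb hbY hY h h1)

/-- the chord bound in both variables: with both differences on the chord the costs add up -/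
theorem KFp_le_chord2 {L : ℕ} (hL : 1 ≤ L) {q b Y s t : ℝ} (hq : 0 ≤ q) (hb : 0 ≤ b)
    (hbY : b * Y < 1) (hY : JJ (1 - b * Y) ≤ 2 * q * JJ (1 + Y))
    (h0 : 1 ≤ s) (h1 : s ≤ 1 + Y) (h2 : s ≤ t) : KFp L q s t ≤ 1 - b * (s - 1) := by
  have h3 := JJ_chord (q := 2 * q) (by linarith) hb hbY hY (y := s - 1) (by linarith)
    (by linarith)
  have h4 : (1 : ℝ) + (s - 1) = s := by ring
  rw [h4] at h3
  refine KFp_le hL hq ?_ fun _ _ => ?_
  · have := mul_le_mul_of_nonneg_left (by linarith : s - 1 ≤ Y) hb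
    linarith
  · have h5 := cLp_mono (L := L) hq h0 h2
    rw [cLp_of_ge h0] at h5 ⊢
    linarith

/-- power bound: above `1` the kernel is at most `s ^ (-r)` for `r ^ 2 ≤ q` -/
theorem JJ_exp_le {q r x : ℝ} (hr : 0 ≤ r) (hrq : r ^ 2 ≤ q) (hx : 0 ≤ x) :
    JJ (Real.exp (-(r * x))) ≤ q * JJ (Real.exp x) := by
  unfold JJ
  rw [Real.log_exp, Real.log_exp]
  have h1 : Real.exp (-(r * x)) ≤ 1 - r * x + (r * x) ^ 2 / 2 := by
    have hu : 0 ≤ r * x := mul_nonneg hr hx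
    have a := Real.quadratic_le_exp_of_nonneg hu
    rw [Real.exp_neg]
    refine inv_le_of_inv_le₀ ?_ ?_
    · nlinarith [sq_nonneg (r * x - 1)]
    · refine le_trans ?_ a
      rw [inv_le_comm₀ (by nlinarith [sq_nonneg (r * x - 1)]) (by positivity)]
      rw [inv_le_iff_one_le_mul₀ (by positivity)]
      nlinarith [sq_nonneg ((r * x) ^ 2)]
  have h2 : 1 + x + x ^ 2 / 2 ≤ Real.exp x := Real.quadratic_le_exp_of_nonneg hx
  have h3 : r ^ 2 * (x ^ 2 / 2) ≤ q * (Real.exp x - 1 - x) := by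
    have h4 : 0 ≤ x ^ 2 / 2 := by positivity
    calc r ^ 2 * (x ^ 2 / 2) ≤ q * (x ^ 2 / 2) := mul_le_mul_of_nonneg_right hrq h4
      _ ≤ q * (Real.exp x - 1 - x) :=
        mul_le_mul_of_nonneg_left (by linarith) ((sq_nonneg r).trans hrq)
  nlinarith

lemma KFp_half (L : ℕ) (s t : ℝ) : KFp L (1 / 2) s t =
    if 0 < s ∧ 0 < t then kk ((cL L s + cL L t) / 2) else 0 := by
  unfold KFp
  rw [cLp_half, cLp_half]

end Pool.Agent.ICyc.D
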