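import Pool.Agent.Lib.MP_131fce_co.D.FrameLc

/-!
# Induced k-cycles in triangle-free graphs: kernels that use a share `q` of the upper window credit

`KLp` with `q = 1 / 2` is the kernel `KL`; with `q = 0` it is `1` as soon as both differences are at
least `1`, and the upper credits of the window `2` stay with the positions.
-/

set_option autoImplicit false

namespace Pool.Agent.ICyc.D

open Finset Pool.Agent.ICyc
open scoped Classical

/-- the cost of one side -/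
noncomputable def cLp (L : ℕ) (q t : ℝ) : ℝ := ((L : ℝ) - 1) * JJ (min 1 t) + 2 * q * JJ (max 1 t)

lemma JJ_min_nonneg {t : ℝ} (ht : 0 < t) : 0 ≤ JJ (min 1 t) := JJ_nonneg (lt_min one_pos ht)

lemma JJ_max_nonneg (t : ℝ) : 0 ≤ JJ (max 1 t) :=
  JJ_nonneg (lt_of_lt_of_le one_pos (le_max_left _ _))

lemma cLp_nonneg {L : ℕ} (hL : 1 ≤ L) {q t : ℝ} (hq : 0 ≤ q) (ht : 0 < t) : 0 ≤ cLp L q t := by
  unfold cLp
  have h1 := JJ_min_nonneg ht
  have h2 := JJ_max_nonneg t
  have h3 : (1 : ℝ) ≤ L := by exact_mod_cast hL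
  have h4 : 0 ≤ ((L : ℝ) - 1) * JJ (min 1 t) := mul_nonneg (by linarith) h1
  have h5 : 0 ≤ 2 * q * JJ (max 1 t) := mul_nonneg (by linarith) h2
  linarith

/-- the one-sided kernel -/
noncomputable def k2p (L : ℕ) (q t : ℝ) : ℝ := if 0 < t then kk (cLp L q t) else 0

lemma k2p_nonneg (L : ℕ) (q t : ℝ) : 0 ≤ k2p L q t := by
  unfold k2p
  split_ifs
  · exact (kk_pos _).le
  · exact le_rfl

lemma k2p_le_one (L : ℕ) (q t : ℝ) : k2p L q t ≤ 1 := by
  unfold k2p
  split_ifs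
  · exact kk_le_one _
  · exact zero_le_one

lemma k2p_le {L : ℕ} (hL : 1 ≤ L) {q t B : ℝ} (hq : 0 ≤ q) (hB : 0 < B)
    (h : 0 < t → JJ B ≤ cLp L q t) : k2p L q t ≤ B := by
  unfold k2p
  split_ifs with ht
  · exact kk_le (cLp_nonneg hL hq ht) hB (h ht)
  · exact hB.le

lemma k2p_pos {L : ℕ} {q t : ℝ} (ht : 0 < t) : 0 < k2p L q t := by
  unfold k2p
  rw [if_pos ht]
  exact kk_pos _

/-- below `1` the one-sided kernel increases -/
lemma k2p_mono {L : ℕ} (hL : 1 ≤ L) {q s t : ℝ} (hq : 0 ≤ q) (hst : s ≤ t) (ht : t ≤ 1) :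
    k2p L q s ≤ k2p L q t := by
  rcases le_or_gt s 0 with h0 | h0
  · unfold k2p
    rw [if_neg (not_lt.2 h0)]
    exact k2p_nonneg L q t
  · have h1 : 0 < t := lt_of_lt_of_le h0 hst
    unfold k2p
    rw [if_pos h0, if_pos h1]
    refine kk_anti (cLp_nonneg hL hq h1) ?_
    unfold cLp
    rw [min_eq_right ht, min_eq_right (hst.trans ht), max_eq_left ht, max_eq_left (hst.trans ht)]
    have h3 : (1 : ℝ) ≤ L := by exact_mod_cast hL
    have h4 := mul_le_mul_of_nonneg_left (JJ_anti h0 hst ht) (by linarith : (0 : ℝ) ≤ (L : ℝ) - 1)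
    linarith

/-- above `1` the one-sided kernel decreases -/
lemma k2p_anti {L : ℕ} (hL : 1 ≤ L) {q s t : ℝ} (hq : 0 ≤ q) (hs : 1 ≤ s) (hst : s ≤ t) :
    k2p L q t ≤ k2p L q s := by
  have h0 : 0 < s := by linarith
  have h1 : 0 < t := by linarith
  unfold k2p
  rw [if_pos h0, if_pos h1]
  refine kk_anti (cLp_nonneg hL hq h0) ?_
  unfold cLp
  rw [min_eq_left hs, min_eq_left (hs.trans hst), max_eq_right hs, max_eq_right (hs.trans hst)]
  have h4 := mul_le_mul_of_nonneg_left (JJ_mono hs hst) (by linarith : 0 ≤ 2 * q)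
  linarith

/-- `q = 0`: above `1` the one-sided kernel is `1` -/
lemma k2p_zero_of_one_le {L : ℕ} {t : ℝ} (ht : 1 ≤ t) : k2p L 0 t = 1 := by
  unfold k2p cLp
  rw [if_pos (by linarith), min_eq_left ht, JJ_one, mul_zero, mul_zero, zero_mul, add_zero,
    kk_zero]

lemma cLp_half (L : ℕ) (t : ℝ) : cLp L (1 / 2) t = cL L t := by
  unfold cLp cL
  ring

lemma k2p_half (L : ℕ) (t : ℝ) : k2p L (1 / 2) t = k2 L t := by
  unfold k2p k2
  rw [cLp_half]

variable {V : Type} [Fintype V] {G : SimpleGraph V} {k : ℕ} [NeZero k]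

/-- the kernel with the share `q` -/
noncomputable def KLp (G : SimpleGraph V) (k L : ℕ) (q : ℝ) (u v : V) : ℝ :=
  if 0 < ff G k u v ∧ 0 < ff G k v u then
    kk ((cLp L q (ff G k u v) + cLp L q (ff G k v u)) / 2) else 0

lemma KLp_half (L : ℕ) (u v : V) : KLp G k L (1 / 2) u v = KL G k L u v := by
  unfold KLp KL
  rw [cLp_half, cLp_half]

lemma KLp_nonneg (L : ℕ) (q : ℝ) (u v : V) : 0 ≤ KLp G k L q u v := by
  unfold KLp
  split_ifs
  · exact (kk_pos _).le
  · exact le_rfl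

lemma KLp_le_one (L : ℕ) (q : ℝ) (u v : V) : KLp G k L q u v ≤ 1 := by
  unfold KLp
  split_ifs
  · exact kk_le_one _
  · exact zero_le_one

lemma KLp_symm (L : ℕ) (q : ℝ) (u v : V) : KLp G k L q u v = KLp G k L q v u := by
  unfold KLp
  by_cases h : 0 < ff G k u v ∧ 0 < ff G k v u
  · rw [if_pos h, if_pos h.symm, add_comm]
  · rw [if_neg h, if_neg (fun h' => h h'.symm)]

lemma KLp_pos (L : ℕ) (q : ℝ) {u v : V} (h1 : 0 < ff G k u v) (h2 : 0 < ff G k v u) :
    0 < KLp G k L q u v := by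
  unfold KLp
  rw [if_pos ⟨h1, h2⟩]
  exact kk_pos _

/-- the unused credit -/
lemma crK_KLp {L : ℕ} (hL : 1 ≤ L) {q : ℝ} (hq : 0 ≤ q) {u v : V} (h1 : 0 < ff G k u v)
    (h2 : 0 < ff G k v u) :
    crK G k L (KLp G k L q) u v =
      (1 / 2 - q) * (JJ (max 1 (ff G k u v)) + JJ (max 1 (ff G k v u))) := by
  unfold crK KLp
  rw [if_pos ⟨h1, h2⟩, JJ_kk (by
    have := cLp_nonneg hL hq h1
    have := cLp_nonneg hL hq h2
    positivity)]
  unfold cLp
  ring

theorem Ker_KLp {L : ℕ} (hL : 1 ≤ L) {q : ℝ} (hq : 0 ≤ q) (hq' : q ≤ 1 / 2) :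
    Ker G k L (KLp G k L q) where
  nn := KLp_nonneg L q
  symm := KLp_symm L q
  pos := fun u v h1 h2 => KLp_pos L q h1 h2
  cost := by
    intro u v h1 h2
    have h3 := crK_KLp (G := G) (k := k) hL hq h1 h2
    have h4 : 0 ≤ (1 / 2 - q) * (JJ (max 1 (ff G k u v)) + JJ (max 1 (ff G k v u))) :=
      mul_nonneg (by linarith) (add_nonneg (JJ_max_nonneg _) (JJ_max_nonneg _))
    unfold crK at h3
    linarith

/-- the kernel is at most the geometric mean of the one-sided kernels -/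
lemma KLp_le_sqrt {L : ℕ} (hL : 1 ≤ L) {q : ℝ} (hq : 0 ≤ q) (u v : V) :
    KLp G k L q u v ≤ Real.sqrt (k2p L q (ff G k u v) * k2p L q (ff G k v u)) := by
  unfold KLp
  split_ifs with h
  · unfold k2p
    rw [if_pos h.1, if_pos h.2]
    exact kk_mid_sqrt (cLp_nonneg hL hq h.1) (cLp_nonneg hL hq h.2)
  · exact Real.sqrt_nonneg _

/-- the kernel is at most the mean of the one-sided kernels -/
lemma KLp_le_mean {L : ℕ} (hL : 1 ≤ L) {q : ℝ} (hq : 0 ≤ q) (u v : V) :
    KLp G k L q u v ≤ (k2p L q (ff G k u v) + k2p L q (ff G k v u)) / 2 := by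
  refine (KLp_le_sqrt hL hq u v).trans ?_
  have h1 := k2p_nonneg L q (ff G k u v)
  have h2 := k2p_nonneg L q (ff G k v u)
  rw [Real.sqrt_le_left (by positivity)]
  nlinarith [sq_nonneg (k2p L q (ff G k u v) - k2p L q (ff G k v u))]

/-- product form: any two bounds of the roots of the one-sided kernels -/
lemma KLp_le_mul {L : ℕ} (hL : 1 ≤ L) {q : ℝ} (hq : 0 ≤ q) {u v : V} {a b : ℝ} (ha : 0 ≤ a)
    (hb : 0 ≤ b) (h1 : k2p L q (ff G k u v) ≤ a ^ 2) (h2 : k2p L q (ff G k v u) ≤ b ^ 2) :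
    KLp G k L q u v ≤ a * b := by
  refine (KLp_le_sqrt hL hq u v).trans ?_
  rw [Real.sqrt_le_left (mul_nonneg ha hb), mul_pow]
  exact mul_le_mul h1 h2 (k2p_nonneg _ _ _) (sq_nonneg a)

/-- for `L ≥ 3` the kernel is at most each of the differences -/
lemma KLp_le_left {L : ℕ} (hL : 3 ≤ L) {q : ℝ} (hq : 0 ≤ q) (u v : V) :
    KLp G k L q u v ≤ ff G k u v := by
  have hf : 0 ≤ ff G k u v := mu_nonneg _
  unfold KLp
  split_ifs with h
  · rcases le_total 1 (ff G k u v) with h1 | h1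
    · exact (kk_le_one _).trans h1
    · have hL1 : 1 ≤ L := by omega
      have c2 := cLp_nonneg hL1 hq h.2
      have c1 := cLp_nonneg hL1 hq h.1
      refine kk_le (by positivity) h.1 ?_
      have h3 : (3 : ℝ) ≤ L := by exact_mod_cast hL
      have h4 : 2 * JJ (ff G k u v) ≤ cLp L q (ff G k u v) := by
        unfold cLp
        rw [min_eq_right h1, max_eq_left h1, JJ_one, mul_zero, add_zero]
        have := JJ_nonneg h.1
        nlinarith
      linarith
  · exact hf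

lemma KLp_le_right {L : ℕ} (hL : 3 ≤ L) {q : ℝ} (hq : 0 ≤ q) (u v : V) :
    KLp G k L q u v ≤ ff G k v u := by
  rw [KLp_symm]
  exact KLp_le_left hL hq v u

end Pool.Agent.ICyc.D
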