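import Pool.Agent.Lib.MP_131fce_co.D.FrameQ
import Pool.Agent.Lib.MP_131fce_co.D.Swap

/-!
# Induced k-cycles in triangle-free graphs: the best kernel of the frame `frameQ`

`kk c` is the solution `K` in `(0, 1]` of `JJ K = c`.  `KL G k L` is the largest kernel that the
windows `2, ..., L` can pay.  It is at most the mean of two one-sided functions `k2`, and each
of them has explicit bounds.
-/

set_option autoImplicit false

namespace Pool.Agent.ICyc.D

open Finset Pool.Agent.ICyc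
open scoped Classical

lemma exists_kk (c : ℝ) (hc : 0 ≤ c) : ∃ K : ℝ, 0 < K ∧ K ≤ 1 ∧ JJ K = c := by
  have h0 : 0 < Real.exp (-(c + 1)) := Real.exp_pos _
  have h1 : Real.exp (-(c + 1)) ≤ 1 := by
    rw [Real.exp_le_one_iff]; linarith
  have hcont : ContinuousOn JJ (Set.Icc (Real.exp (-(c + 1))) 1) := by
    unfold JJ
    refine ContinuousOn.sub (by fun_prop) ?_
    exact Real.continuousOn_log.mono fun t ht => by
      have : 0 < t := lt_of_lt_of_le h0 ht.1
      simpa using this.ne'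
  have h2 := intermediate_value_Icc' h1 hcont
  have h3 : c ∈ Set.Icc (JJ 1) (JJ (Real.exp (-(c + 1)))) := by
    rw [JJ_one]
    refine ⟨hc, ?_⟩
    unfold JJ
    rw [Real.log_exp]
    linarith
  obtain ⟨K, hK, hKc⟩ := h2 h3
  exact ⟨K, lt_of_lt_of_le h0 hK.1, hK.2, hKc⟩

/-- the solution in `(0, 1]` of `JJ K = c` -/
noncomputable def kk (c : ℝ) : ℝ := if h : 0 ≤ c then Classical.choose (exists_kk c h) else 1

lemma kk_pos (c : ℝ) : 0 < kk c := by
  unfold kk
  split_ifs with h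
  · exact (Classical.choose_spec (exists_kk c h)).1
  · exact one_pos

lemma kk_le_one (c : ℝ) : kk c ≤ 1 := by
  unfold kk
  split_ifs with h
  · exact (Classical.choose_spec (exists_kk c h)).2.1
  · exact le_rfl

lemma JJ_kk {c : ℝ} (hc : 0 ≤ c) : JJ (kk c) = c := by
  unfold kk
  rw [dif_pos hc]
  exact (Classical.choose_spec (exists_kk c hc)).2.2

lemma JJ_strictAnti {s t : ℝ} (hs : 0 < s) (hst : s < t) (ht : t ≤ 1) : JJ t < JJ s := by
  unfold JJ
  have h0 : 0 < t := lt_trans hs hst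
  have h1 := Real.log_lt_sub_one_of_pos (div_pos hs h0) (by
    intro h
    rw [div_eq_one_iff_eq h0.ne'] at h
    linarith)
  rw [Real.log_div hs.ne' h0.ne'] at h1
  have h2 : s / t - 1 ≤ s - t := by
    rw [div_sub_one h0.ne', div_le_iff₀ h0]
    nlinarith
  linarith

/-- the way to bound `kk` from above -/
lemma kk_le {c K0 : ℝ} (hc : 0 ≤ c) (h0 : 0 < K0) (h : JJ K0 ≤ c) : kk c ≤ K0 := by
  by_contra hcon
  push Not at hcon
  have h1 := JJ_strictAnti h0 hcon (kk_le_one c)
  rw [JJ_kk hc] at h1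
  linarith

/-- the way to bound `kk` from below -/
lemma le_kk {c K0 : ℝ} (hc : 0 ≤ c) (h1 : K0 ≤ 1) (h : c ≤ JJ K0) : K0 ≤ kk c := by
  by_contra hcon
  push Not at hcon
  have h2 := JJ_strictAnti (kk_pos c) hcon h1
  rw [JJ_kk hc] at h2
  linarith

lemma kk_anti {c c' : ℝ} (hc : 0 ≤ c) (h : c ≤ c') : kk c' ≤ kk c :=
  kk_le (hc.trans h) (kk_pos c) (by rw [JJ_kk hc]; exact h)

lemma kk_zero : kk 0 = 1 := le_antisymm (kk_le_one 0) (le_kk le_rfl le_rfl (by rw [JJ_one]))

/-- `JJ` at a geometric mean -/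
lemma JJ_sqrt_mul {s t : ℝ} (hs : 0 < s) (ht : 0 < t) :
    JJ (Real.sqrt (s * t)) ≤ (JJ s + JJ t) / 2 := by
  unfold JJ
  rw [Real.log_sqrt (mul_pos hs ht).le, Real.log_mul hs.ne' ht.ne']
  have h1 : Real.sqrt (s * t) ≤ (s + t) / 2 := by
    rw [Real.sqrt_le_left (by positivity)]
    nlinarith [sq_nonneg (s - t)]
  linarith

/-- the kernel of a mean cost is at most the geometric mean of the kernels -/
lemma kk_mid_sqrt {c c' : ℝ} (hc : 0 ≤ c) (hc' : 0 ≤ c') :
    kk ((c + c') / 2) ≤ Real.sqrt (kk c * kk c') := by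
  refine kk_le (by positivity) (Real.sqrt_pos.2 (mul_pos (kk_pos c) (kk_pos c'))) ?_
  have h := JJ_sqrt_mul (kk_pos c) (kk_pos c')
  rwa [JJ_kk hc, JJ_kk hc'] at h

/-- the kernel of a mean cost is at most the mean of the kernels -/
lemma kk_mid {c c' : ℝ} (hc : 0 ≤ c) (hc' : 0 ≤ c') :
    kk ((c + c') / 2) ≤ (kk c + kk c') / 2 := by
  refine (kk_mid_sqrt hc hc').trans ?_
  have h1 := kk_pos c
  have h2 := kk_pos c'
  rw [Real.sqrt_le_left (by positivity)]
  nlinarith [sq_nonneg (kk c - kk c')]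

/-- the cost of one side -/
noncomputable def cL (L : ℕ) (t : ℝ) : ℝ := ((L : ℝ) - 1) * JJ (min 1 t) + JJ (max 1 t)

lemma cL_nonneg {L : ℕ} (hL : 1 ≤ L) {t : ℝ} (ht : 0 < t) : 0 ≤ cL L t := by
  unfold cL
  have h1 : 0 ≤ JJ (min 1 t) := JJ_nonneg (lt_min one_pos ht)
  have h2 : 0 ≤ JJ (max 1 t) := JJ_nonneg (lt_of_lt_of_le one_pos (le_max_left _ _))
  have h3 : (1 : ℝ) ≤ L := by exact_mod_cast hL
  have h4 : 0 ≤ ((L : ℝ) - 1) * JJ (min 1 t) := mul_nonneg (by linarith) h1
  linarith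

/-- the one-sided kernel -/
noncomputable def k2 (L : ℕ) (t : ℝ) : ℝ := if 0 < t then kk (cL L t) else 0

lemma k2_nonneg (L : ℕ) (t : ℝ) : 0 ≤ k2 L t := by
  unfold k2
  split_ifs
  · exact (kk_pos _).le
  · exact le_rfl

lemma k2_le_one (L : ℕ) (t : ℝ) : k2 L t ≤ 1 := by
  unfold k2
  split_ifs
  · exact kk_le_one _
  · exact zero_le_one

lemma k2_le {L : ℕ} (hL : 1 ≤ L) {t B : ℝ} (hB : 0 < B) (h : 0 < t → JJ B ≤ cL L t) :
    k2 L t ≤ B := by
  unfold k2
  split_ifs with ht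
  · exact kk_le (cL_nonneg hL ht) hB (h ht)
  · exact hB.le

lemma k2_pos {L : ℕ} {t : ℝ} (ht : 0 < t) : 0 < k2 L t := by
  unfold k2
  rw [if_pos ht]
  exact kk_pos _

lemma k2_one {L : ℕ} : k2 L 1 = 1 := by
  unfold k2 cL
  rw [if_pos one_pos, min_self, max_self, JJ_one, mul_zero, add_zero, kk_zero]

/-- below `1` the one-sided kernel increases -/
lemma k2_mono {L : ℕ} (hL : 1 ≤ L) {s t : ℝ} (hst : s ≤ t) (ht : t ≤ 1) :
    k2 L s ≤ k2 L t := by
  rcases le_or_gt s 0 with h0 | h0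
  · unfold k2
    rw [if_neg (not_lt.2 h0)]
    exact k2_nonneg L t
  · have h1 : 0 < t := lt_of_lt_of_le h0 hst
    unfold k2
    rw [if_pos h0, if_pos h1]
    refine kk_anti (cL_nonneg hL h1) ?_
    unfold cL
    rw [min_eq_right ht, min_eq_right (hst.trans ht), max_eq_left ht, max_eq_left (hst.trans ht)]
    have h3 : (1 : ℝ) ≤ L := by exact_mod_cast hL
    have h4 := mul_le_mul_of_nonneg_left (JJ_anti h0 hst ht) (by linarith : (0 : ℝ) ≤ (L : ℝ) - 1)
    linarith

/-- above `1` the one-sided kernel decreases -/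
lemma k2_anti {L : ℕ} (hL : 1 ≤ L) {s t : ℝ} (hs : 1 ≤ s) (hst : s ≤ t) :
    k2 L t ≤ k2 L s := by
  have h0 : 0 < s := by linarith
  have h1 : 0 < t := by linarith
  unfold k2
  rw [if_pos h0, if_pos h1]
  refine kk_anti (cL_nonneg hL h0) ?_
  unfold cL
  rw [min_eq_left hs, min_eq_left (hs.trans hst), max_eq_right hs, max_eq_right (hs.trans hst)]
  have h4 := JJ_mono hs hst
  linarith

lemma JJ_exp_neg (s : ℝ) : JJ (Real.exp (-s)) = Real.exp (-s) - 1 + s := by
  unfold JJ
  rw [Real.log_exp]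
  ring

/-- above `1` the one-sided kernel is at most `4 / (t + 1) ^ 2` -/
lemma k2_le_of_one_le {L : ℕ} (hL : 1 ≤ L) {t : ℝ} (ht : 1 ≤ t) : k2 L t ≤ 4 / (t + 1) ^ 2 := by
  refine k2_le hL (by positivity) fun _ => ?_
  unfold cL
  rw [min_eq_left ht, max_eq_right ht, JJ_one, mul_zero, zero_add]
  -- `psi t = t - log t - 4 / (t + 1) ^ 2 - 2 log ((t + 1) / 2)` increases on `[1, ∞)`
  have hmono : MonotoneOn (fun t : ℝ => t - Real.log t - 4 / (t + 1) ^ 2 -
      2 * Real.log ((t + 1) / 2)) (Set.Ici 1) := by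
    have hd : ∀ y : ℝ, 1 ≤ y → HasDerivAt (fun t : ℝ => t - Real.log t - 4 / (t + 1) ^ 2 -
      2 * Real.log ((t + 1) / 2)) (1 - 1 / y + 8 / (y + 1) ^ 3 - 2 / (y + 1)) y := by
      intro y hy
      have hy0 : y ≠ 0 := by positivity
      have hy1 : y + 1 ≠ 0 := by positivity
      have a1 := (hasDerivAt_id y).sub (Real.hasDerivAt_log hy0)
      have a2 : HasDerivAt (fun t : ℝ => 4 / (t + 1) ^ 2) (-(8 / (y + 1) ^ 3)) y := by
        have b1 : HasDerivAt (fun t : ℝ => (t + 1) ^ 2) (2 * (y + 1)) y := by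
          have h3 : HasDerivAt (fun t : ℝ => t + 1) 1 y := (hasDerivAt_id y).add_const 1
          refine (h3.fun_pow 2).congr_deriv ?_
          norm_num
        have b2 := (b1.inv (by positivity)).const_mul (4 : ℝ)
        refine b2.congr_deriv ?_ |>.congr_of_eventuallyEq ?_
        · field_simp
          ring
        · exact Filter.Eventually.of_forall fun z => by
            simp [div_eq_mul_inv]
      have a3 : HasDerivAt (fun t : ℝ => 2 * Real.log ((t + 1) / 2)) (2 / (y + 1)) y := by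
        have b1 : HasDerivAt (fun t : ℝ => (t + 1) / 2) (1 / 2) y := by
          have := ((hasDerivAt_id y).add_const (1 : ℝ)).div_const 2
          simpa using this
        have b2 := (b1.log (by positivity)).const_mul (2 : ℝ)
        refine b2.congr_deriv ?_
        field_simp
      have a4 := (a1.sub a2).sub a3
      refine a4.congr_deriv ?_
      rw [one_div]
      ring
    refine monotoneOn_of_deriv_nonneg (convex_Ici 1) ?_ ?_ ?_
    · exact fun y hy => (hd y hy).continuousAt.continuousWithinAt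
    · intro y hy
      rw [interior_Ici] at hy
      exact (hd y (le_of_lt hy)).differentiableAt.differentiableWithinAt
    · intro y hy
      rw [interior_Ici] at hy
      have hy1 : (1 : ℝ) ≤ y := le_of_lt hy
      rw [(hd y hy1).deriv]
      have e : 1 - 1 / y + 8 / (y + 1) ^ 3 - 2 / (y + 1) =
          ((y - 1) * (y + 1) ^ 3 + 8 * y - 2 * y * (y + 1) ^ 2) / (y * (y + 1) ^ 3) := by
        field_simp
      rw [e]
      apply div_nonneg _ (by positivity)
      have e2 : (y - 1) * (y + 1) ^ 3 + 8 * y - 2 * y * (y + 1) ^ 2 =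
          (y - 1) ^ 2 * ((y - 1) ^ 2 + 4 * (y - 1) + 2) := by ring
      rw [e2]
      have : 0 ≤ y - 1 := by linarith
      positivity
  have h := hmono (Set.mem_Ici.2 le_rfl) (Set.mem_Ici.2 ht) ht
  simp only at h
  unfold JJ
  have e1 : Real.log (4 / (t + 1) ^ 2) = -(2 * Real.log ((t + 1) / 2)) := by
    have : 4 / (t + 1) ^ 2 = (((t + 1) / 2) ^ 2)⁻¹ := by
      field_simp
      norm_num
    rw [this, Real.log_inv, Real.log_pow]
    push_cast
    ring
  rw [e1]
  norm_num at h ⊢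
  linarith

variable {V : Type} [Fintype V] {G : SimpleGraph V} {k : ℕ} [NeZero k]

/-- the largest kernel payable by the windows `2, ..., L` -/
noncomputable def KL (G : SimpleGraph V) (k L : ℕ) (u v : V) : ℝ :=
  if 0 < ff G k u v ∧ 0 < ff G k v u then
    kk ((cL L (ff G k u v) + cL L (ff G k v u)) / 2) else 0

lemma KL_nonneg (L : ℕ) (u v : V) : 0 ≤ KL G k L u v := by
  unfold KL
  split_ifs
  · exact (kk_pos _).le
  · exact le_rfl

lemma KL_le_one (L : ℕ) (u v : V) : KL G k L u v ≤ 1 := by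
  unfold KL
  split_ifs
  · exact kk_le_one _
  · exact zero_le_one

lemma KL_symm (L : ℕ) (u v : V) : KL G k L u v = KL G k L v u := by
  unfold KL
  by_cases h : 0 < ff G k u v ∧ 0 < ff G k v u
  · rw [if_pos h, if_pos h.symm, add_comm]
  · rw [if_neg h, if_neg (fun h' => h h'.symm)]

theorem Ker_KL {L : ℕ} (hL : 1 ≤ L) : Ker G k L (KL G k L) where
  nn := KL_nonneg L
  symm := KL_symm L
  pos := by
    intro u v h1 h2
    unfold KL
    rw [if_pos ⟨h1, h2⟩]
    exact kk_pos _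
  cost := by
    intro u v h1 h2
    unfold KL
    rw [if_pos ⟨h1, h2⟩, JJ_kk (by
      have := cL_nonneg hL h1
      have := cL_nonneg hL h2
      positivity)]
    unfold cL
    apply le_of_eq
    ring

/-- the kernel is at most the geometric mean of the one-sided kernels -/
lemma KL_le_sqrt {L : ℕ} (hL : 1 ≤ L) (u v : V) :
    KL G k L u v ≤ Real.sqrt (k2 L (ff G k u v) * k2 L (ff G k v u)) := by
  unfold KL
  split_ifs with h
  · unfold k2
    rw [if_pos h.1, if_pos h.2]
    exact kk_mid_sqrt (cL_nonneg hL h.1) (cL_nonneg hL h.2)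
  · exact Real.sqrt_nonneg _

/-- the kernel is at most the mean of the one-sided kernels -/
lemma KL_le_mean {L : ℕ} (hL : 1 ≤ L) (u v : V) :
    KL G k L u v ≤ (k2 L (ff G k u v) + k2 L (ff G k v u)) / 2 := by
  refine (KL_le_sqrt hL u v).trans ?_
  have h1 := k2_nonneg L (ff G k u v)
  have h2 := k2_nonneg L (ff G k v u)
  rw [Real.sqrt_le_left (by positivity)]
  nlinarith [sq_nonneg (k2 L (ff G k u v) - k2 L (ff G k v u))]

/-- product form: any two bounds of the roots of the one-sided kernels -/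
lemma KL_le_mul {L : ℕ} (hL : 1 ≤ L) {u v : V} {a b : ℝ} (ha : 0 ≤ a) (hb : 0 ≤ b)
    (h1 : k2 L (ff G k u v) ≤ a ^ 2) (h2 : k2 L (ff G k v u) ≤ b ^ 2) :
    KL G k L u v ≤ a * b := by
  refine (KL_le_sqrt hL u v).trans ?_
  rw [Real.sqrt_le_left (mul_nonneg ha hb), mul_pow]
  exact mul_le_mul h1 h2 (k2_nonneg _ _) (sq_nonneg a)

/-- the twin cost is carried by one side only -/
theorem twK_le (hk : 5 ≤ k) (tf : ∀ a b c : V, G.Adj a b → G.Adj b c → ¬ G.Adj a c)
    {L : ℕ} (hL : 1 ≤ L) (j : ZMod k) :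
    ∑ x ∈ Cyc G k, twK G k (KL G k L) x j j ≤
      ∑ x ∈ Cyc G k, ∑ w ∈ T G k j x, kap V k * k2 L (ff G k w (x j)) := by
  have h := sum_swap (G := G) hk tf j (fun x w => kap V k * k2 L (ff G k w (x j)))
  simp only [Function.update_self] at h
  have h1 : ∑ x ∈ Cyc G k, twK G k (KL G k L) x j j ≤ ∑ x ∈ Cyc G k, ∑ w ∈ T G k j x,
      (kap V k * k2 L (ff G k w (x j)) / 2 + kap V k * k2 L (ff G k (x j) w) / 2) := by
    unfold twK
    refine sum_le_sum fun x _ => sum_le_sum fun w _ => ?_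
    have := mul_le_mul_of_nonneg_left (KL_le_mean (G := G) (k := k) hL w (x j))
      (kap_nonneg (V := V) (k := k))
    linarith
  refine h1.trans (le_of_eq ?_)
  simp only [sum_add_distrib, ← sum_div]
  rw [h]
  ring

/-- the two one-sided forms of the twin cost agree -/
theorem sum_k2_swap (hk : 5 ≤ k) (tf : ∀ a b c : V, G.Adj a b → G.Adj b c → ¬ G.Adj a c)
    (j : ZMod k) (phi : ℝ → ℝ) :
    ∑ x ∈ Cyc G k, ∑ w ∈ T G k j x, kap V k * phi (ff G k (x j) w) =
      ∑ x ∈ Cyc G k, ∑ w ∈ T G k j x, kap V k * phi (ff G k w (x j)) := by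
  have h := sum_swap (G := G) hk tf j (fun x w => kap V k * phi (ff G k w (x j)))
  simp only [Function.update_self] at h
  exact h

/-- a linear price on the one-sided differences is a price per unit of `DD` for the upper
states -/
theorem sum_ff_upper (hk : 5 ≤ k) (tf : ∀ a b c : V, G.Adj a b → G.Adj b c → ¬ G.Adj a c)
    (j : ZMod k) :
    ∑ x ∈ Cyc G k, ∑ w ∈ T G k j x, kap V k * ff G k w (x j) =
      ∑ x ∈ Cyc G k, ∑ y ∈ univ.filter (fun y => G.Adj (x j) y), kap V k * DD G k x j y := by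
  rw [← sum_k2_swap hk tf j (fun t => t)]
  refine sum_congr rfl fun x _ => ?_
  simp_rw [ff, DD, mu_eq_sum, mul_sum, sum_filter]
  unfold nb
  simp_rw [sum_filter]
  rw [sum_comm]
  refine sum_congr rfl fun y _ => ?_
  by_cases h1 : G.Adj (x j) y
  · simp only [h1, if_true]
  · simp only [h1, if_false, sum_const_zero]

end Pool.Agent.ICyc.D
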