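import Pool.Agent.Lib.MP_131fce_co.D.KFb

/-!
# Induced k-cycles in triangle-free graphs: two explicit kernels

`K0 q s t` solves `K (2 - K) = exp (-Q)` where `Q` is the cost of the pair with the share `q` of the
upper window credits. `K3 s t` is the mean of the differences cut at `1`. Both satisfy the cost
condition for `L = 3`. `k0 c` is the solution in `(0, 1]` of `K (2 - K) = exp (-c)`.
-/

set_option autoImplicit false

namespace Pool.Agent.ICyc.D

open Pool.Agent.ICyc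

/-- the solution in `(0, 1]` of `K (2 - K) = exp (-c)` -/
noncomputable def k0 (c : ℝ) : ℝ := 1 - Real.sqrt (1 - Real.exp (-c))

lemma k0_le_one (c : ℝ) : k0 c ≤ 1 := by
  unfold k0
  have := Real.sqrt_nonneg (1 - Real.exp (-c))
  linarith

lemma k0_pos (c : ℝ) : 0 < k0 c := by
  unfold k0
  have h : Real.sqrt (1 - Real.exp (-c)) < 1 := by
    rw [Real.sqrt_lt' one_pos]
    have := Real.exp_pos (-c)
    linarith
  linarith

lemma k0_zero : k0 0 = 1 := by
  unfold k0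
  rw [neg_zero, Real.exp_zero, sub_self, Real.sqrt_zero, sub_zero]

lemma k0_mul {c : ℝ} (hc : 0 ≤ c) : k0 c * (2 - k0 c) = Real.exp (-c) := by
  unfold k0
  have h : 0 ≤ 1 - Real.exp (-c) := by
    have : Real.exp (-c) ≤ 1 := by rw [Real.exp_le_one_iff]; linarith
    linarith
  nlinarith [Real.sq_sqrt h]

/-- the way to bound `k0` from above -/
lemma k0_le {c K : ℝ} (hc : 0 ≤ c) (h : Real.exp (-c) ≤ K * (2 - K)) : k0 c ≤ K := by
  by_contra hcon
  push Not at hcon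
  have h1 := k0_mul hc
  have h2 := k0_le_one c
  nlinarith

/-- the way to bound `k0` from below -/
lemma le_k0 {c K : ℝ} (hc : 0 ≤ c) (hK : K ≤ 1) (h : K * (2 - K) ≤ Real.exp (-c)) : K ≤ k0 c := by
  by_contra hcon
  push Not at hcon
  have h1 := k0_mul hc
  nlinarith

lemma k0_anti {c c' : ℝ} (hc : 0 ≤ c) (h : c ≤ c') : k0 c' ≤ k0 c := by
  refine k0_le (hc.trans h) ?_
  rw [k0_mul hc]
  exact Real.exp_le_exp.2 (by linarith)

/-- `k0 c` has the logarithmic form -/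
lemma log_k0 {c : ℝ} (hc : 0 ≤ c) : Real.log (k0 c) + Real.log (2 - k0 c) = -c := by
  have h1 := k0_pos c
  have h2 := k0_le_one c
  rw [← Real.log_mul h1.ne' (by linarith), k0_mul hc, Real.log_exp]

/-- the cost of `k0 c` -/
lemma JJ_k0 {c : ℝ} (hc : 0 ≤ c) : JJ (k0 c) = c - JJ (2 - k0 c) := by
  have h := log_k0 hc
  unfold JJ
  linarith

lemma JJ_k0_le {c : ℝ} (hc : 0 ≤ c) : JJ (k0 c) ≤ c := by
  rw [JJ_k0 hc]
  have h2 := k0_le_one c
  have := JJ_nonneg (show 0 < 2 - k0 c by linarith)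
  linarith

lemma kk_le_k0 {c : ℝ} (hc : 0 ≤ c) : kk c ≤ k0 c := kk_le hc (k0_pos c) (JJ_k0_le hc)

/-- `JJ` above `1` is at most `JJ` below `1` -/
lemma JJ_refl {x : ℝ} (h0 : 0 ≤ x) (h1 : x < 1) : JJ (1 + x) ≤ JJ (1 - x) := by
  unfold JJ
  have h : Real.log (1 - x) ≤ Real.log (1 + x) - 2 * x := by
    -- `log (1 + x) - log (1 - x) - 2 x` has a nonnegative derivative
    have hmono : MonotoneOn (fun y : ℝ => Real.log (1 + y) - Real.log (1 - y) - 2 * y)
        (Set.Ico 0 1) := by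
      have hd : ∀ y : ℝ, 0 ≤ y → y < 1 → HasDerivAt
          (fun y : ℝ => Real.log (1 + y) - Real.log (1 - y) - 2 * y)
          (1 / (1 + y) - (-1) / (1 - y) - 2) y := by
        intro y hy0 hy1
        have a1 : HasDerivAt (fun y : ℝ => Real.log (1 + y)) (1 / (1 + y)) y :=
          ((hasDerivAt_id y).const_add 1).log (by simp only [id]; positivity)
        have a2 : HasDerivAt (fun y : ℝ => Real.log (1 - y)) ((-1) / (1 - y)) y :=
          ((hasDerivAt_id y).const_sub 1).log (by simp only [id]; linarith)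
        have a3 : HasDerivAt (fun y : ℝ => 2 * y) 2 y := by
          simpa using (hasDerivAt_id y).const_mul (2 : ℝ)
        exact (a1.sub a2).sub a3
      refine monotoneOn_of_deriv_nonneg (convex_Ico 0 1) ?_ ?_ ?_
      · exact fun y hy => (hd y hy.1 hy.2).continuousAt.continuousWithinAt
      · intro y hy
        rw [interior_Ico] at hy
        exact (hd y hy.1.le hy.2).differentiableAt.differentiableWithinAt
      · intro y hy
        rw [interior_Ico] at hy
        obtain ⟨hy0, hy1⟩ := hy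
        rw [(hd y hy0.le hy1).deriv]
        have p1 : 0 < 1 + y := by linarith
        have p2 : 0 < 1 - y := by linarith
        have e : 1 / (1 + y) - (-1) / (1 - y) - 2 = 2 * y ^ 2 / ((1 + y) * (1 - y)) := by
          field_simp
          ring
        rw [e]
        positivity
    have h := hmono (Set.mem_Ico.2 ⟨le_rfl, one_pos⟩) (Set.mem_Ico.2 ⟨h0, h1⟩) h0
    simp only [add_zero, sub_zero, Real.log_one, mul_zero] at h
    linarith
  linarith

/-- the logarithmic form of the value `K (2 - K)` -/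
lemma neg_log_mul {K : ℝ} (h0 : 0 < K) (h2 : K < 2) :
    -Real.log (K * (2 - K)) = JJ K + JJ (2 - K) := by
  rw [Real.log_mul h0.ne' (by linarith)]
  unfold JJ
  ring

lemma JJ_add_refl_le {K : ℝ} (h0 : 0 < K) (h1 : K ≤ 1) : JJ K + JJ (2 - K) ≤ 2 * JJ K := by
  have h := JJ_refl (x := 1 - K) (by linarith) (by linarith)
  rw [show 1 + (1 - K) = 2 - K by ring, show 1 - (1 - K) = K by ring] at h
  linarith

/-- `exp (-2 JJ K) ≤ K (2 - K)` -/
lemma exp_le_mul {K : ℝ} (h0 : 0 < K) (h1 : K ≤ 1) : Real.exp (-(2 * JJ K)) ≤ K * (2 - K) := by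
  have hp : 0 < K * (2 - K) := mul_pos h0 (by linarith)
  rw [← Real.log_le_log_iff (Real.exp_pos _) hp, Real.log_exp]
  have a := neg_log_mul h0 (by linarith)
  have b := JJ_add_refl_le h0 h1
  linarith

/-- `JJ` is convex at the middle -/
lemma JJ_mid_le {s t : ℝ} (hs : 0 < s) (ht : 0 < t) : JJ ((s + t) / 2) ≤ (JJ s + JJ t) / 2 := by
  have h : (Real.log s + Real.log t) / 2 ≤ Real.log ((s + t) / 2) := by
    have h1 : Real.log (s * t) ≤ Real.log (((s + t) / 2) ^ 2) :=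
      Real.log_le_log (mul_pos hs ht) (by nlinarith [sq_nonneg (s - t)])
    rw [Real.log_mul hs.ne' ht.ne', Real.log_pow] at h1
    push_cast at h1
    linarith
  unfold JJ
  linarith

/-- `k0` is convex at the middle -/
lemma k0_mid {a b : ℝ} (ha : 0 ≤ a) (hb : 0 ≤ b) : k0 ((a + b) / 2) ≤ (k0 a + k0 b) / 2 := by
  have h1 := k0_le_one a
  have h2 := k0_le_one b
  refine k0_le (by positivity) ?_
  have e : Real.exp (-((a + b) / 2)) ≤ (Real.exp (-a) + Real.exp (-b)) / 2 := by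
    have e1 : Real.exp (-a) = Real.exp (-a / 2) ^ 2 := by
      rw [← Real.exp_nat_mul]; congr 1; push_cast; ring
    have e2 : Real.exp (-b) = Real.exp (-b / 2) ^ 2 := by
      rw [← Real.exp_nat_mul]; congr 1; push_cast; ring
    have e3 : Real.exp (-((a + b) / 2)) = Real.exp (-a / 2) * Real.exp (-b / 2) := by
      rw [← Real.exp_add]; congr 1; ring
    rw [e1, e2, e3]
    nlinarith [sq_nonneg (Real.exp (-a / 2) - Real.exp (-b / 2))]
  refine e.trans ?_
  rw [← k0_mul ha, ← k0_mul hb]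
  nlinarith [sq_nonneg (k0 a - k0 b)]

/-! ### the one-sided cost and the kernel `K0` -/

/-- the cost of one side, with the share `q` of the upper credit -/
noncomputable def c0 (q t : ℝ) : ℝ := JJ (min 1 t) + q * JJ (max 1 t)

lemma c0_nonneg {q t : ℝ} (hq : 0 ≤ q) (ht : 0 < t) : 0 ≤ c0 q t := by
  unfold c0
  have h1 := JJ_min_nonneg ht
  have h2 := mul_nonneg hq (JJ_max_nonneg t)
  linarith

lemma c0_of_le {q t : ℝ} (ht : t ≤ 1) : c0 q t = JJ t := by
  unfold c0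
  rw [min_eq_right ht, max_eq_left ht, JJ_one, mul_zero, add_zero]

lemma c0_of_ge {q t : ℝ} (ht : 1 ≤ t) : c0 q t = q * JJ t := by
  unfold c0
  rw [min_eq_left ht, max_eq_right ht, JJ_one, zero_add]

lemma c0_anti {q s t : ℝ} (hs : 0 < s) (hst : s ≤ t) (ht : t ≤ 1) : c0 q t ≤ c0 q s := by
  rw [c0_of_le ht, c0_of_le (hst.trans ht)]
  exact JJ_anti hs hst ht

lemma c0_mono {q s t : ℝ} (hq : 0 ≤ q) (hs : 1 ≤ s) (hst : s ≤ t) : c0 q s ≤ c0 q t := by
  rw [c0_of_ge hs, c0_of_ge (hs.trans hst)]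
  exact mul_le_mul_of_nonneg_left (JJ_mono hs hst) hq

lemma c0_q_mono {q q' t : ℝ} (h : q ≤ q') : c0 q t ≤ c0 q' t := by
  unfold c0
  have := mul_le_mul_of_nonneg_right h (JJ_max_nonneg t)
  linarith

/-- the cost of one side and the cost for `L = 3` -/
lemma cL_three_c0 (q t : ℝ) : cL 3 t / 2 = c0 q t + (1 / 2 - q) * JJ (max 1 t) := by
  unfold cL c0
  push_cast
  ring

lemma cLp_three_c0 (q t : ℝ) : cLp 3 q t / 2 = c0 q t := by
  unfold cLp c0
  push_cast
  ring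

/-- the kernel of helper50 -/
noncomputable def K0 (q s t : ℝ) : ℝ := if 0 < s ∧ 0 < t then k0 (c0 q s + c0 q t) else 0

lemma K0_nonneg (q s t : ℝ) : 0 ≤ K0 q s t := by
  unfold K0
  split_ifs
  · exact (k0_pos _).le
  · exact le_rfl

lemma K0_le_one (q s t : ℝ) : K0 q s t ≤ 1 := by
  unfold K0
  split_ifs
  · exact k0_le_one _
  · exact zero_le_one

lemma K0_symm (q s t : ℝ) : K0 q s t = K0 q t s := by
  unfold K0
  by_cases h : 0 < s ∧ 0 < t
  · rw [if_pos h, if_pos h.symm, add_comm]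
  · rw [if_neg h, if_neg (fun h' => h h'.symm)]

lemma K0_pos (q : ℝ) {s t : ℝ} (hs : 0 < s) (ht : 0 < t) : 0 < K0 q s t := by
  unfold K0
  rw [if_pos ⟨hs, ht⟩]
  exact k0_pos _

lemma K0_of_nonpos_left (q : ℝ) {s : ℝ} (t : ℝ) (hs : s ≤ 0) : K0 q s t = 0 := by
  unfold K0
  rw [if_neg fun h => absurd h.1 (not_lt.2 hs)]

lemma K0_of_nonpos_right (q s : ℝ) {t : ℝ} (ht : t ≤ 0) : K0 q s t = 0 := by
  unfold K0
  rw [if_neg fun h => absurd h.2 (not_lt.2 ht)]

lemma K0_of_pos (q : ℝ) {s t : ℝ} (hs : 0 < s) (ht : 0 < t) :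
    K0 q s t = k0 (c0 q s + c0 q t) := by
  unfold K0
  rw [if_pos ⟨hs, ht⟩]

lemma cost0_nonneg {q s t : ℝ} (hq : 0 ≤ q) (hs : 0 < s) (ht : 0 < t) :
    0 ≤ c0 q s + c0 q t := add_nonneg (c0_nonneg hq hs) (c0_nonneg hq ht)

/-- the product form -/
lemma K0_mul {q s t : ℝ} (hq : 0 ≤ q) (hs : 0 < s) (ht : 0 < t) :
    K0 q s t * (2 - K0 q s t) = Real.exp (-(c0 q s + c0 q t)) := by
  rw [K0_of_pos q hs ht, k0_mul (cost0_nonneg hq hs ht)]

/-- the cost of the kernel: the window credits that the kernel does not use are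
`JJ (2 - K) + (1 / 2 - q) (JJ (max 1 s) + JJ (max 1 t))` -/
lemma K0_cost_eq {q s t : ℝ} (hq : 0 ≤ q) (hs : 0 < s) (ht : 0 < t) :
    (cL 3 s + cL 3 t) / 2 - JJ (K0 q s t) =
      JJ (2 - K0 q s t) + (1 / 2 - q) * (JJ (max 1 s) + JJ (max 1 t)) := by
  have h := JJ_k0 (cost0_nonneg hq hs ht)
  rw [K0_of_pos q hs ht]
  have a := cL_three_c0 q s
  have b := cL_three_c0 q t
  linarith

lemma K0_cost {q s t : ℝ} (hq : 0 ≤ q) (hq' : q ≤ 1 / 2) (hs : 0 < s) (ht : 0 < t) :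
    JJ (K0 q s t) ≤ (cL 3 s + cL 3 t) / 2 := by
  have h := K0_cost_eq hq hs ht
  have h1 := K0_le_one q s t
  have h2 := JJ_nonneg (show 0 < 2 - K0 q s t by linarith)
  have h3 := mul_nonneg (show (0 : ℝ) ≤ 1 / 2 - q by linarith)
    (add_nonneg (JJ_max_nonneg s) (JJ_max_nonneg t))
  linarith

/-- the sharp kernel is at most `K0` -/
lemma KFp_le_K0 {q s t : ℝ} (hq : 0 ≤ q) : KFp 3 q s t ≤ K0 q s t := by
  by_cases h : 0 < s ∧ 0 < t
  · unfold KFp
    rw [if_pos h, K0_of_pos q h.1 h.2]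
    have e : (cLp 3 q s + cLp 3 q t) / 2 = c0 q s + c0 q t := by
      have a := cLp_three_c0 q s
      have b := cLp_three_c0 q t
      linarith
    rw [e]
    exact kk_le_k0 (cost0_nonneg hq h.1 h.2)
  · unfold KFp
    rw [if_neg h]
    exact K0_nonneg q s t

lemma K0_q_anti {q q' s t : ℝ} (hq : 0 ≤ q) (h : q ≤ q') : K0 q' s t ≤ K0 q s t := by
  by_cases h0 : 0 < s ∧ 0 < t
  · rw [K0_of_pos q h0.1 h0.2, K0_of_pos q' h0.1 h0.2]
    exact k0_anti (cost0_nonneg hq h0.1 h0.2) (add_le_add (c0_q_mono h) (c0_q_mono h))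
  · unfold K0
    rw [if_neg h0, if_neg h0]

/-- comparison by the costs -/
lemma K0_anti_cost {q s t s' t' : ℝ} (hq : 0 ≤ q) (hp : 0 < s → 0 < t → 0 < s' ∧ 0 < t')
    (h : 0 < s → 0 < t → c0 q s' + c0 q t' ≤ c0 q s + c0 q t) : K0 q s t ≤ K0 q s' t' := by
  by_cases h0 : 0 < s ∧ 0 < t
  · have h1 := hp h0.1 h0.2
    rw [K0_of_pos q h0.1 h0.2, K0_of_pos q h1.1 h1.2]
    exact k0_anti (cost0_nonneg hq h1.1 h1.2) (h h0.1 h0.2)
  · unfold K0
    rw [if_neg h0]
    exact K0_nonneg q s' t'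

/-- below `1` the kernel increases -/
lemma K0_mono_left {q s s' t : ℝ} (hq : 0 ≤ q) (hs : s ≤ s') (hs1 : s' ≤ 1) :
    K0 q s t ≤ K0 q s' t :=
  K0_anti_cost hq (fun h1 h2 => ⟨lt_of_lt_of_le h1 hs, h2⟩)
    (fun h1 _ => by linarith [c0_anti (q := q) h1 hs hs1])

lemma K0_mono_right {q s t t' : ℝ} (hq : 0 ≤ q) (ht : t ≤ t') (ht1 : t' ≤ 1) :
    K0 q s t ≤ K0 q s t' := by
  rw [K0_symm, K0_symm q s]
  exact K0_mono_left hq ht ht1

/-- above `1` the kernel decreases -/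
lemma K0_anti_left {q s s' t : ℝ} (hq : 0 ≤ q) (hs1 : 1 ≤ s) (hs : s ≤ s') :
    K0 q s' t ≤ K0 q s t :=
  K0_anti_cost hq (fun _ h2 => ⟨by linarith, h2⟩)
    (fun _ _ => by linarith [c0_mono (q := q) hq hs1 hs])

lemma K0_anti_right {q s t t' : ℝ} (hq : 0 ≤ q) (ht1 : 1 ≤ t) (ht : t ≤ t') :
    K0 q s t' ≤ K0 q s t := by
  rw [K0_symm, K0_symm q s]
  exact K0_anti_left hq ht1 ht

/-- the largest value for a given difference is the value at `(s, 1)` -/
lemma K0_le_at_one {q s : ℝ} (t : ℝ) (hq : 0 ≤ q) : K0 q s t ≤ K0 q s 1 :=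
  K0_anti_cost hq (fun h1 _ => ⟨h1, one_pos⟩) (fun _ h2 => by
    have h := c0_nonneg hq h2
    rw [c0_of_le (q := q) le_rfl, JJ_one]
    linarith)

/-- the one-sided kernel: the diagonal of `K0` -/
noncomputable def u0 (q t : ℝ) : ℝ := if 0 < t then k0 (2 * c0 q t) else 0

lemma u0_nonneg (q t : ℝ) : 0 ≤ u0 q t := by
  unfold u0
  split_ifs
  · exact (k0_pos _).le
  · exact le_rfl

lemma u0_le_one (q t : ℝ) : u0 q t ≤ 1 := by
  unfold u0
  split_ifs
  · exact k0_le_one _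
  · exact zero_le_one

lemma u0_eq (q t : ℝ) : u0 q t = K0 q t t := by
  unfold u0 K0
  by_cases h : 0 < t
  · rw [if_pos h, if_pos ⟨h, h⟩, two_mul]
  · rw [if_neg h, if_neg fun h' => h h'.1]

/-- the kernel is at most the mean of the one-sided kernels -/
lemma K0_le_mean {q : ℝ} (hq : 0 ≤ q) (s t : ℝ) : K0 q s t ≤ (u0 q s + u0 q t) / 2 := by
  by_cases h : 0 < s ∧ 0 < t
  · have h1 := c0_nonneg hq h.1
    have h2 := c0_nonneg hq h.2
    have h3 := k0_mid (a := 2 * c0 q s) (b := 2 * c0 q t) (by linarith) (by linarith)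
    rw [K0_of_pos q h.1 h.2]
    unfold u0
    rw [if_pos h.1, if_pos h.2]
    rwa [show (2 * c0 q s + 2 * c0 q t) / 2 = c0 q s + c0 q t by ring] at h3
  · unfold K0
    rw [if_neg h]
    have h1 := u0_nonneg q s
    have h2 := u0_nonneg q t
    linarith

/-- the one-sided kernel is at most the difference cut at `1` -/
lemma u0_le_min {q t : ℝ} (ht : 0 ≤ t) : u0 q t ≤ min 1 t := by
  refine le_min (u0_le_one q t) ?_
  unfold u0
  split_ifs with h
  · rcases le_total 1 t with h1 | h1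
    · exact (k0_le_one _).trans h1
    · rw [c0_of_le h1]
      exact k0_le (by have := JJ_nonneg h; linarith) (exp_le_mul h h1)
  · exact ht

/-! ### the kernel `K3` -/

/-- the mean of the differences cut at `1` -/
noncomputable def K3 (s t : ℝ) : ℝ := if 0 < s ∧ 0 < t then (min 1 s + min 1 t) / 2 else 0

lemma K3_of_pos {s t : ℝ} (hs : 0 < s) (ht : 0 < t) : K3 s t = (min 1 s + min 1 t) / 2 := by
  unfold K3
  rw [if_pos ⟨hs, ht⟩]

lemma K3_nonneg (s t : ℝ) : 0 ≤ K3 s t := by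
  unfold K3
  split_ifs with h
  · have h1 := lt_min one_pos h.1
    have h2 := lt_min one_pos h.2
    linarith
  · exact le_rfl

lemma K3_le_one (s t : ℝ) : K3 s t ≤ 1 := by
  unfold K3
  split_ifs with h
  · have h1 := min_le_left 1 s
    have h2 := min_le_left 1 t
    linarith
  · exact zero_le_one

lemma K3_symm (s t : ℝ) : K3 s t = K3 t s := by
  unfold K3
  by_cases h : 0 < s ∧ 0 < t
  · rw [if_pos h, if_pos h.symm, add_comm]
  · rw [if_neg h, if_neg (fun h' => h h'.symm)]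

lemma K3_pos {s t : ℝ} (hs : 0 < s) (ht : 0 < t) : 0 < K3 s t := by
  rw [K3_of_pos hs ht]
  have h1 := lt_min one_pos hs
  have h2 := lt_min one_pos ht
  linarith

lemma K3_le {s t : ℝ} (hs : 0 ≤ s) (ht : 0 ≤ t) : K3 s t ≤ (min 1 s + min 1 t) / 2 := by
  unfold K3
  split_ifs
  · exact le_rfl
  · have h1 := le_min zero_le_one hs
    have h2 := le_min zero_le_one ht
    linarith

lemma JJ_K3 {s t : ℝ} (hs : 0 < s) (ht : 0 < t) :
    JJ (K3 s t) ≤ (JJ (min 1 s) + JJ (min 1 t)) / 2 := by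
  rw [K3_of_pos hs ht]
  exact JJ_mid_le (lt_min one_pos hs) (lt_min one_pos ht)

/-- the window credits that the kernel does not use are at least
`JJ (2 - K) + 1 / 2 (JJ (max 1 s) + JJ (max 1 t))` -/
lemma K3_cost_ge {s t : ℝ} (hs : 0 < s) (ht : 0 < t) :
    JJ (2 - K3 s t) + 1 / 2 * (JJ (max 1 s) + JJ (max 1 t)) ≤
      (cL 3 s + cL 3 t) / 2 - JJ (K3 s t) := by
  have h1 := JJ_K3 hs ht
  have h2 := JJ_add_refl_le (K3_pos hs ht) (K3_le_one s t)
  have a := cL_three_c0 0 s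
  have b := cL_three_c0 0 t
  unfold c0 at a b
  linarith

/-- they are also at least the half of the lower window costs -/
lemma K3_cost_ge' {s t : ℝ} (hs : 0 < s) (ht : 0 < t) :
    (JJ (min 1 s) + JJ (min 1 t)) / 2 + 1 / 2 * (JJ (max 1 s) + JJ (max 1 t)) ≤
      (cL 3 s + cL 3 t) / 2 - JJ (K3 s t) := by
  have h1 := JJ_K3 hs ht
  have a := cL_three_c0 0 s
  have b := cL_three_c0 0 t
  unfold c0 at a b
  linarith

lemma K3_cost {s t : ℝ} (hs : 0 < s) (ht : 0 < t) : JJ (K3 s t) ≤ (cL 3 s + cL 3 t) / 2 := by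
  have h := K3_cost_ge hs ht
  have h1 := K3_le_one s t
  have h2 := JJ_nonneg (show 0 < 2 - K3 s t by linarith)
  have h3 := JJ_max_nonneg s
  have h4 := JJ_max_nonneg t
  linarith

/-- `K0` is at most `K3` -/
lemma K0_le_K3 {q : ℝ} (hq : 0 ≤ q) (s t : ℝ) : K0 q s t ≤ K3 s t := by
  by_cases h : 0 < s ∧ 0 < t
  · rw [K3_of_pos h.1 h.2]
    refine (K0_le_mean hq s t).trans ?_
    have h1 := u0_le_min (q := q) h.1.le
    have h2 := u0_le_min (q := q) h.2.le
    linarith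
  · unfold K0 K3
    rw [if_neg h, if_neg h]

/-- the sharp kernel is at most `K3` -/
lemma KFp_le_K3 {q : ℝ} (hq : 0 ≤ q) (s t : ℝ) : KFp 3 q s t ≤ K3 s t :=
  (KFp_le_K0 hq).trans (K0_le_K3 hq s t)

/-- below `1` the kernel increases -/
lemma K3_mono {s s' t t' : ℝ} (hs : s ≤ s') (ht : t ≤ t') : K3 s t ≤ K3 s' t' := by
  by_cases h : 0 < s ∧ 0 < t
  · rw [K3_of_pos h.1 h.2, K3_of_pos (lt_of_lt_of_le h.1 hs) (lt_of_lt_of_le h.2 ht)]
    have h1 := min_le_min (le_refl (1 : ℝ)) hs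
    have h2 := min_le_min (le_refl (1 : ℝ)) ht
    linarith
  · unfold K3
    rw [if_neg h]
    exact K3_nonneg s' t'

end Pool.Agent.ICyc.D
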