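import Pool.Agent.Lib.MP_131fce_co.D.FrameL

/-!
# Induced k-cycles in triangle-free graphs: the best kernel

`KK v` is the solution `t` in `(0,1]` of `JJ t = v`, and `Ks L a b` is the kernel for two masses
`a, b`, whose cost is exactly payable by the windows.
-/

set_option autoImplicit false

namespace Pool.Agent.ICyc.D

open Finset Pool.Agent.ICyc
open scoped Classical

/-! ### the function `JJ` -/

lemma JJ_strictAnti {s t : ℝ} (hs : 0 < s) (hst : s < t) (ht : t ≤ 1) : JJ t < JJ s := by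
  unfold JJ
  have h0 : 0 < t := lt_trans hs hst
  have hne : s / t ≠ 1 := by
    intro h
    rw [div_eq_one_iff_eq h0.ne'] at h
    exact hst.ne h
  have h1 := Real.log_lt_sub_one_of_pos (div_pos hs h0) hne
  rw [Real.log_div hs.ne' h0.ne'] at h1
  have h2 : s / t - 1 ≤ s - t := by
    rw [div_sub_one h0.ne', div_le_iff₀ h0]
    nlinarith
  linarith

lemma JJ_convex {s t : ℝ} (hs : 0 < s) (ht : 0 < t) :
    JJ ((s + t) / 2) ≤ (JJ s + JJ t) / 2 := by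
  unfold JJ
  have hm : 0 < (s + t) / 2 := by linarith
  have h1 : Real.log (s / ((s + t) / 2)) ≤ s / ((s + t) / 2) - 1 :=
    Real.log_le_sub_one_of_pos (by positivity)
  have h2 : Real.log (t / ((s + t) / 2)) ≤ t / ((s + t) / 2) - 1 :=
    Real.log_le_sub_one_of_pos (by positivity)
  rw [Real.log_div hs.ne' hm.ne'] at h1
  rw [Real.log_div ht.ne' hm.ne'] at h2
  have h3 : s / ((s + t) / 2) + t / ((s + t) / 2) = 2 := by
    field_simp
  linarith

lemma JJ_continuousOn : ContinuousOn JJ (Set.Ioi 0) := by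
  unfold JJ
  refine ContinuousOn.sub (by fun_prop) ?_
  exact Real.continuousOn_log.mono fun x hx => (ne_of_gt hx : x ≠ 0)

/-- the inverse of `JJ` on `(0, 1]` -/
lemma exists_JJ {v : ℝ} (hv : 0 ≤ v) : ∃ t : ℝ, 0 < t ∧ t ≤ 1 ∧ JJ t = v := by
  have he : 0 < Real.exp (-(v + 1)) := Real.exp_pos _
  have he1 : Real.exp (-(v + 1)) ≤ 1 := by
    rw [Real.exp_le_one_iff]; linarith
  have hval : v ≤ JJ (Real.exp (-(v + 1))) := by
    unfold JJ
    rw [Real.log_exp]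
    linarith
  have hc : ContinuousOn JJ (Set.Icc (Real.exp (-(v + 1))) 1) :=
    JJ_continuousOn.mono fun x hx => lt_of_lt_of_le he hx.1
  have h := intermediate_value_Icc' he1 hc
  have hmem : v ∈ Set.Icc (JJ 1) (JJ (Real.exp (-(v + 1)))) := ⟨by rw [JJ_one]; exact hv, hval⟩
  obtain ⟨t, ht, hJ⟩ := h hmem
  exact ⟨t, lt_of_lt_of_le he ht.1, ht.2, hJ⟩

/-- the solution `t` in `(0, 1]` of `JJ t = v` -/
noncomputable def KJ (v : ℝ) : ℝ :=
  if h : 0 ≤ v then Classical.choose (exists_JJ h) else 1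

lemma KJ_pos (v : ℝ) : 0 < KJ v := by
  unfold KJ
  split_ifs with h
  · exact (Classical.choose_spec (exists_JJ h)).1
  · exact one_pos

lemma KJ_le_one (v : ℝ) : KJ v ≤ 1 := by
  unfold KJ
  split_ifs with h
  · exact (Classical.choose_spec (exists_JJ h)).2.1
  · exact le_rfl

lemma JJ_KJ {v : ℝ} (hv : 0 ≤ v) : JJ (KJ v) = v := by
  unfold KJ
  rw [dif_pos hv]
  exact (Classical.choose_spec (exists_JJ hv)).2.2

/-- upper bounds for `KJ` -/
lemma KJ_le {v t : ℝ} (ht : 0 < t) (h : JJ t ≤ v) : KJ v ≤ t := by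
  have hv : 0 ≤ v := (JJ_nonneg ht).trans h
  by_contra hcon
  push Not at hcon
  have h1 := JJ_strictAnti ht hcon (KJ_le_one v)
  rw [JJ_KJ hv] at h1
  linarith

/-- lower bounds for `KJ` -/
lemma le_KJ {v t : ℝ} (ht1 : t ≤ 1) (hv : 0 ≤ v) (h : v ≤ JJ t) : t ≤ KJ v := by
  by_contra hcon
  push Not at hcon
  have h1 := JJ_strictAnti (KJ_pos v) hcon ht1
  rw [JJ_KJ hv] at h1
  linarith

lemma KJ_anti {v w : ℝ} (hv : 0 ≤ v) (h : v ≤ w) : KJ w ≤ KJ v :=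
  KJ_le (KJ_pos v) (by rw [JJ_KJ hv]; exact h)

lemma KJ_zero : KJ 0 = 1 :=
  le_antisymm (KJ_le_one 0) (le_KJ le_rfl le_rfl (by rw [JJ_one]))

/-! ### the cost of a pair of masses -/

/-- what the windows pay for the masses `a, b` -/
noncomputable def cst (L : ℕ) (a b : ℝ) : ℝ :=
  ((L : ℝ) - 1) / 2 * (JJ (min 1 a) + JJ (min 1 b)) + 1 / 2 * (JJ (max 1 a) + JJ (max 1 b))

lemma cst_comm (L : ℕ) (a b : ℝ) : cst L a b = cst L b a := by
  unfold cst; ring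

lemma JJ_max_nonneg (a : ℝ) : 0 ≤ JJ (max 1 a) := JJ_nonneg (lt_of_lt_of_le one_pos (le_max_left _ _))

lemma JJ_min_nonneg {a : ℝ} (ha : 0 < a) : 0 ≤ JJ (min 1 a) := JJ_nonneg (lt_min one_pos ha)

lemma JJ_min_add_max (a : ℝ) : JJ (min 1 a) + JJ (max 1 a) = JJ a := by
  rcases le_total a 1 with h | h
  · rw [min_eq_right h, max_eq_left h, JJ_one, add_zero]
  · rw [min_eq_left h, max_eq_right h, JJ_one, zero_add]

lemma cst_nonneg {L : ℕ} (hL : 1 ≤ L) {a b : ℝ} (ha : 0 < a) (hb : 0 < b) : 0 ≤ cst L a b := by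
  have hL' : (1 : ℝ) ≤ (L : ℝ) := by exact_mod_cast hL
  unfold cst
  have h1 := JJ_min_nonneg ha
  have h2 := JJ_min_nonneg hb
  have h3 := JJ_max_nonneg a
  have h4 := JJ_max_nonneg b
  have h5 : 0 ≤ ((L : ℝ) - 1) / 2 * (JJ (min 1 a) + JJ (min 1 b)) :=
    mul_nonneg (by linarith) (by linarith)
  linarith

/-- the kernel of two masses: `0` if one of them is not positive -/
noncomputable def Ks (L : ℕ) (a b : ℝ) : ℝ := if 0 < a ∧ 0 < b then KJ (cst L a b) else 0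

lemma Ks_nonneg (L : ℕ) (a b : ℝ) : 0 ≤ Ks L a b := by
  unfold Ks
  split_ifs
  · exact (KJ_pos _).le
  · exact le_rfl

lemma Ks_pos (L : ℕ) {a b : ℝ} (ha : 0 < a) (hb : 0 < b) : 0 < Ks L a b := by
  unfold Ks
  rw [if_pos ⟨ha, hb⟩]
  exact KJ_pos _

lemma Ks_le_one (L : ℕ) (a b : ℝ) : Ks L a b ≤ 1 := by
  unfold Ks
  split_ifs
  · exact KJ_le_one _
  · exact zero_le_one

lemma Ks_comm (L : ℕ) (a b : ℝ) : Ks L a b = Ks L b a := by
  unfold Ks
  rw [cst_comm]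
  by_cases h : 0 < a ∧ 0 < b
  · rw [if_pos h, if_pos ⟨h.2, h.1⟩]
  · rw [if_neg h, if_neg fun h' => h ⟨h'.2, h'.1⟩]

lemma JJ_Ks {L : ℕ} (hL : 1 ≤ L) {a b : ℝ} (ha : 0 < a) (hb : 0 < b) :
    JJ (Ks L a b) = cst L a b := by
  unfold Ks
  rw [if_pos ⟨ha, hb⟩]
  exact JJ_KJ (cst_nonneg hL ha hb)

/-- the way to bound the kernel from above -/
lemma Ks_le {L : ℕ} {a b t : ℝ} (ht : 0 ≤ t)
    (h : 0 < a → 0 < b → 0 < t ∧ JJ t ≤ cst L a b) : Ks L a b ≤ t := by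
  unfold Ks
  split_ifs with hp
  · obtain ⟨h1, h2⟩ := h hp.1 hp.2
    exact KJ_le h1 h2
  · exact ht

/-- the way to bound the kernel from below -/
lemma le_Ks {L : ℕ} (hL : 1 ≤ L) {a b t : ℝ} (ha : 0 < a) (hb : 0 < b) (ht1 : t ≤ 1)
    (h : cst L a b ≤ JJ t) : t ≤ Ks L a b := by
  unfold Ks
  rw [if_pos ⟨ha, hb⟩]
  exact le_KJ ht1 (cst_nonneg hL ha hb) h

/-- the price of a flow is at most one -/
theorem Ks_le_mean {L : ℕ} (hL : 2 ≤ L) {a b : ℝ} (ha : 0 ≤ a) (hb : 0 ≤ b) :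
    Ks L a b ≤ (a + b) / 2 := by
  have hL' : (2 : ℝ) ≤ (L : ℝ) := by exact_mod_cast hL
  refine Ks_le (by linarith) fun h1 h2 => ⟨by linarith, ?_⟩
  have h3 := JJ_convex h1 h2
  have e1 := JJ_min_add_max a
  have e2 := JJ_min_add_max b
  have h4 := JJ_min_nonneg h1
  have h5 := JJ_min_nonneg h2
  unfold cst
  nlinarith

/-- the kernel is at most each of the two masses, `L ≥ 3` -/
theorem Ks_le_left {L : ℕ} (hL : 3 ≤ L) {a b : ℝ} (ha : 0 ≤ a) : Ks L a b ≤ a := by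
  have hL' : (3 : ℝ) ≤ (L : ℝ) := by exact_mod_cast hL
  rcases le_total 1 a with h | h
  · exact (Ks_le_one L a b).trans h
  · refine Ks_le ha fun h1 h2 => ⟨h1, ?_⟩
    have h4 := JJ_min_nonneg h1
    have h5 := JJ_min_nonneg h2
    have h6 := JJ_max_nonneg a
    have h7 := JJ_max_nonneg b
    unfold cst
    rw [min_eq_right h] at h4 ⊢
    nlinarith

theorem Ks_le_right {L : ℕ} (hL : 3 ≤ L) {a b : ℝ} (hb : 0 ≤ b) : Ks L a b ≤ b := by
  rw [Ks_comm]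
  exact Ks_le_left hL hb

/-- the kernel is monotone in the masses below `1` -/
theorem Ks_mono {L : ℕ} (hL : 1 ≤ L) {a a' b b' : ℝ} (ha : a ≤ a') (hb : b ≤ b')
    (ha1 : a' ≤ 1) (hb1 : b' ≤ 1) : Ks L a b ≤ Ks L a' b' := by
  have hL' : (1 : ℝ) ≤ (L : ℝ) := by exact_mod_cast hL
  by_cases h : 0 < a ∧ 0 < b
  · obtain ⟨h1, h2⟩ := h
    refine Ks_le (Ks_nonneg _ _ _) fun _ _ => ⟨Ks_pos L (by linarith) (by linarith), ?_⟩
    rw [JJ_Ks hL (by linarith) (by linarith)]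
    unfold cst
    rw [min_eq_right ha1, min_eq_right hb1, max_eq_left ha1, max_eq_left hb1,
      min_eq_right (ha.trans ha1), min_eq_right (hb.trans hb1), max_eq_left (ha.trans ha1),
      max_eq_left (hb.trans hb1)]
    have h3 := JJ_anti h1 ha ha1
    have h4 := JJ_anti h2 hb hb1
    have h5 : ((L : ℝ) - 1) / 2 * (JJ a' + JJ b') ≤ ((L : ℝ) - 1) / 2 * (JJ a + JJ b) :=
      mul_le_mul_of_nonneg_left (by linarith) (by linarith)
    linarith
  · unfold Ks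
    rw [if_neg h]
    exact Ks_nonneg L a' b'

/-! ### the kernel on a graph -/

variable {V : Type} [Fintype V] {G : SimpleGraph V} {k : ℕ} [NeZero k]

/-- the kernel -/
noncomputable def KG (G : SimpleGraph V) (k L : ℕ) (u v : V) : ℝ := Ks L (ff G k u v) (ff G k v u)

lemma ff_nonneg (u v : V) : 0 ≤ ff G k u v := mu_nonneg _

theorem KG_ker {L : ℕ} (hL : 1 ≤ L) : Ker G k L (KG G k L) where
  nn _ _ := Ks_nonneg _ _ _
  symm _ _ := Ks_comm _ _ _
  pos _ _ h1 h2 := Ks_pos L h1 h2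
  cost _ _ h1 h2 := (JJ_Ks hL h1 h2).le

lemma KG_nonneg (L : ℕ) (u v : V) : 0 ≤ KG G k L u v := Ks_nonneg _ _ _

lemma KG_le_one (L : ℕ) (u v : V) : KG G k L u v ≤ 1 := Ks_le_one _ _ _

lemma KG_symm (L : ℕ) (u v : V) : KG G k L u v = KG G k L v u := Ks_comm _ _ _

lemma KG_le_mean {L : ℕ} (hL : 2 ≤ L) (u v : V) :
    KG G k L u v ≤ (ff G k u v + ff G k v u) / 2 := Ks_le_mean hL (ff_nonneg _ _) (ff_nonneg _ _)

lemma KG_le_left {L : ℕ} (hL : 3 ≤ L) (u v : V) : KG G k L u v ≤ ff G k u v :=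
  Ks_le_left hL (ff_nonneg _ _)

lemma KG_le_right {L : ℕ} (hL : 3 ≤ L) (u v : V) : KG G k L u v ≤ ff G k v u :=
  Ks_le_right hL (ff_nonneg _ _)

end Pool.Agent.ICyc.D
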