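import Pool.Agent.Lib.MP_131fce_co.Defs
import Pool.Agent.Lib.MP_131fce_co.Rot
import Pool.Agent.Lib.MP_131fce_co.Cond
import Pool.Agent.Lib.MP_131fce_co.LogCard

/-!
# Induced k-cycles in triangle-free graphs: the number of cycles through a window, all `k ≥ 6`
-/

set_option autoImplicit false

namespace Pool.Agent.ICyc.D

open Finset Pool.Agent.ICyc
open scoped Classical

variable {V : Type} [Fintype V] {G : SimpleGraph V} {k : ℕ} [NeZero k]

omit [NeZero k] in
lemma neg_one_eq (hk : 6 ≤ k) : ((k - 1 : ℕ) : ZMod k) = -1 := by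
  have h1 : ((k - 1 : ℕ) : ZMod k) + ((1 : ℕ) : ZMod k) = ((k : ℕ) : ZMod k) := by
    rw [← Nat.cast_add]; congr 1; omega
  rw [ZMod.natCast_self, Nat.cast_one] at h1
  exact eq_neg_of_add_eq_zero_left h1

lemma card_cyl (hk : 6 ≤ k) (tf : ∀ a b c : V, G.Adj a b → G.Adj b c → ¬ G.Adj a c)
    {x : ZMod k → V} (hx : x ∈ Cyc G k) :
    (cyl G k (k - 2) x).card = (T G k (-1) x).card := by
  apply card_nbij' (fun x' => x' (-1)) (fun v => Function.update x (-1) v)
  · -- maps to
    intro x' hx'
    have hx'' : x' ∈ cyl G k (k - 2) x := hx'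
    unfold cyl at hx''
    rw [mem_filter] at hx''
    obtain ⟨hc', hag⟩ := hx''
    have hag' : ∀ i : ZMod k, i ≠ -1 → x' i = x i := by
      intro i hi
      obtain ⟨n, hn, rfl⟩ := lc_exists_nat i
      apply hag
      by_contra hcon
      have : n = k - 1 := by omega
      subst this
      exact hi (neg_one_eq hk)
    have hcy' : IsCyc G k x' := by
      have := hc'; unfold Cyc at this; exact (mem_filter.1 this).2
    have hcy : IsCyc G k x := by
      have := hx; unfold Cyc at this; exact (mem_filter.1 this).2
    show x' (-1) ∈ T G k (-1) x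
    unfold T
    rw [mem_filter]
    refine ⟨mem_univ _, ?_⟩
    ext i
    unfold Ty
    rw [mem_filter]
    have hz : (0 : ZMod k) ≠ -1 := by
      rw [← neg_one_eq hk]
      intro h
      have h2 := congrArg ZMod.val h
      rw [ZMod.val_zero, ZMod.val_natCast_of_lt (by omega)] at h2
      omega
    by_cases hi : i = -1
    · subst hi
      have h0 : G.Adj (x (-1)) (x 0) := (hcy _ _).2 (Or.inl (by ring))
      have h0' : G.Adj (x' (-1)) (x' 0) := (hcy' _ _).2 (Or.inl (by ring))
      rw [hag' 0 hz] at h0'
      have hn : ¬ G.Adj (x (-1)) (x' (-1)) := tf _ _ _ h0 h0'.symm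
      have hne : ¬ ((-1 : ZMod k) ∈ ({-1 - 1, -1 + 1} : Finset (ZMod k))) := by
        rw [mem_insert, mem_singleton]
        rintro (h | h)
        · have h1 : (1 : ZMod k) = 0 := by
            have := congrArg (fun t : ZMod k => t + 1 + 1) h
            simpa using this
          have h2 := congrArg (fun t : ZMod k => -t) h1
          simp only [neg_zero] at h2
          exact hz h2.symm
        · apply hz
          rw [← neg_add_cancel (1 : ZMod k)]
          exact h.symm
      constructor
      · intro h; exact absurd h.2 hn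
      · intro h; exact absurd h hne
    · rw [← hag' i hi, hcy' i (-1)]
      rw [mem_insert, mem_singleton]
      constructor
      · rintro ⟨_, h | h⟩
        · left; rw [h]; ring
        · right; exact h
      · rintro (h | h)
        · exact ⟨mem_univ _, Or.inl (by rw [h]; ring)⟩
        · exact ⟨mem_univ _, Or.inr h⟩
  · -- inverse maps to
    intro v hv
    have hv' : v ∈ T G k (-1) x := hv
    show Function.update x (-1) v ∈ cyl G k (k - 2) x
    unfold cyl
    rw [mem_filter]
    refine ⟨update_mem_Cyc (by omega) hx hv', fun i hi => ?_⟩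
    rw [Function.update_of_ne]
    intro h
    rw [← neg_one_eq hk] at h
    have h2 := congrArg ZMod.val h
    rw [ZMod.val_natCast_of_lt (by omega), ZMod.val_natCast_of_lt (by omega)] at h2
    omega
  · -- left inverse
    intro x' hx'
    have hx'' : x' ∈ cyl G k (k - 2) x := hx'
    unfold cyl at hx''
    rw [mem_filter] at hx''
    obtain ⟨_, hag⟩ := hx''
    show Function.update x (-1) (x' (-1)) = x'
    funext i
    by_cases hi : i = -1
    · subst hi; simp
    · rw [Function.update_of_ne hi]
      obtain ⟨n, hn, rfl⟩ := lc_exists_nat i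
      symm
      apply hag
      by_contra hcon
      have : n = k - 1 := by omega
      subst this
      exact hi (neg_one_eq hk)
  · intro v _
    show Function.update x (-1) v (-1) = v
    simp

theorem log_card_cyl (hk : 6 ≤ k) (tf : ∀ a b c : V, G.Adj a b → G.Adj b c → ¬ G.Adj a c)
    {x : ZMod k → V} (hx : x ∈ Cyc G k) :
    Real.log ((cyl G k 3 x).card : ℝ) =
      ∑ l ∈ Icc 3 (k - 3), -Real.log (pr G k l x (x ((l + 1 : ℕ) : ZMod k))) +
        Real.log ((T G k (-1) x).card : ℝ) := by
  obtain ⟨m, rfl⟩ : ∃ m, k = m + 6 := ⟨k - 6, by omega⟩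
  have h := lc_telescope hx m
  have e1 : m + 6 - 3 = m + 3 := by omega
  have e2 : m + 6 - 2 = m + 4 := by omega
  rw [e1, h, ← card_cyl hk tf hx, e2]
  ring

end Pool.Agent.ICyc.D
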