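import Pool.Agent.Lib.MP_131fce_co.D.Table
import Pool.Agent.Lib.MP_131fce_co.D.SwapT

/-!
# Induced k-cycles in triangle-free graphs: averages over one position, and the linear table of
scheme E
-/

set_option autoImplicit false

namespace Pool.Agent.ICyc.D

open Finset Pool.Agent.ICyc
open scoped Classical

noncomputable section

variable {V : Type} [Fintype V] {G : SimpleGraph V} {k : ℕ} [NeZero k]

/-- fraction of the twin class of the position `l` that is adjacent to `z` -/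
def pp (G : SimpleGraph V) (k : ℕ) [NeZero k] (x : ZMod k → V) (l : ZMod k) (z : V) : ℝ :=
  uu G k x l z / mu k (T G k l x)

/-- indicator of adjacency to the position `l` -/
def aj (G : SimpleGraph V) (k : ℕ) [NeZero k] (x : ZMod k → V) (l : ZMod k) (z : V) : ℝ :=
  if G.Adj (x l) z then 1 else 0

lemma card_T_pos (hk : 5 ≤ k) {x : ZMod k → V} (hx : x ∈ Cyc G k) (l : ZMod k) :
    0 < ((T G k l x).card : ℝ) := by
  exact_mod_cast card_pos.2 ⟨_, self_mem_T hk hx l⟩

lemma mu_T_pos (hk : 5 ≤ k) {x : ZMod k → V} (hx : x ∈ Cyc G k) (l : ZMod k) :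
    0 < mu k (T G k l x) := by
  have : Nonempty V := ⟨x 0⟩
  exact mul_pos kap_pos (card_T_pos hk hx l)

lemma pp_eq_card (hk : 5 ≤ k) {x : ZMod k → V} (hx : x ∈ Cyc G k) (l : ZMod k) (z : V) :
    pp G k x l z = (((T G k l x).filter (fun w => G.Adj w z)).card : ℝ) /
      ((T G k l x).card : ℝ) := by
  have : Nonempty V := ⟨x 0⟩
  have h1 : kap V k ≠ 0 := (kap_pos (V := V) (k := k)).ne'
  have h2 := (card_T_pos hk hx l).ne'
  unfold pp uu mu
  rw [div_eq_div_iff (mul_ne_zero h1 h2) h2]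
  ring

lemma pp_nonneg (x : ZMod k → V) (l : ZMod k) (z : V) : 0 ≤ pp G k x l z :=
  div_nonneg (uu_nonneg _ _ _) (mu_nonneg _)

lemma pp_le_one (x : ZMod k → V) (l : ZMod k) (z : V) : pp G k x l z ≤ 1 := by
  unfold pp
  refine div_le_one_of_le₀ ?_ (mu_nonneg _)
  have := uu_add_DD (G := G) x l z
  have := DD_nonneg (G := G) x l z
  linarith

lemma uu_eq_mul (hk : 5 ≤ k) {x : ZMod k → V} (hx : x ∈ Cyc G k) (l : ZMod k) (z : V) :
    uu G k x l z = pp G k x l z * mu k (T G k l x) := by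
  unfold pp
  rw [div_mul_cancel₀ _ (mu_T_pos hk hx l).ne']

lemma DD_eq_mul (hk : 5 ≤ k) {x : ZMod k → V} (hx : x ∈ Cyc G k) (l : ZMod k) (z : V) :
    DD G k x l z = (1 - pp G k x l z) * mu k (T G k l x) := by
  have h1 := uu_add_DD (G := G) x l z
  have h2 := uu_eq_mul hk hx l z
  linarith

/-- averaging over the position `l`: adjacency to `x l` may be replaced by its fraction, in front
of every weight that does not change under the swap at `l` -/
theorem avg (hk : 5 ≤ k) (tf : ∀ a b c : V, G.Adj a b → G.Adj b c → ¬ G.Adj a c)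
    (l : ZMod k) (z : V) (Phi : (ZMod k → V) → ℝ)
    (hPhi : ∀ x ∈ Cyc G k, ∀ w ∈ T G k l x, Phi (Function.update x l w) = Phi x) :
    ∑ x ∈ Cyc G k, Phi x * aj G k x l z = ∑ x ∈ Cyc G k, Phi x * pp G k x l z := by
  have h := sum_swap hk tf l (fun x _ =>
    Phi x / ((T G k l x).card : ℝ) * (if G.Adj (x l) z then (1 : ℝ) else 0))
  have h1 : ∀ x ∈ Cyc G k, ∑ v ∈ T G k l x, Phi (Function.update x l v) /
      ((T G k l (Function.update x l v)).card : ℝ) *
        (if G.Adj (Function.update x l v l) z then (1 : ℝ) else 0) = Phi x * pp G k x l z := by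
    intro x hx
    have e : ∀ v ∈ T G k l x, Phi (Function.update x l v) /
      ((T G k l (Function.update x l v)).card : ℝ) *
        (if G.Adj (Function.update x l v l) z then (1 : ℝ) else 0) =
        Phi x / ((T G k l x).card : ℝ) * (if G.Adj v z then (1 : ℝ) else 0) := by
      intro v hv
      rw [hPhi x hx v hv, T_update hk hx hv tf, Function.update_self]
    rw [sum_congr rfl e, ← mul_sum, sum_boole, pp_eq_card hk hx]
    ring
  have h2 : ∀ x ∈ Cyc G k, ∑ _v ∈ T G k l x, Phi x / ((T G k l x).card : ℝ) *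
      (if G.Adj (x l) z then (1 : ℝ) else 0) = Phi x * aj G k x l z := by
    intro x hx
    rw [sum_const, nsmul_eq_mul]
    have := (card_T_pos hk hx l).ne'
    unfold aj
    field_simp
  rw [sum_congr rfl h1, sum_congr rfl h2] at h
  exact h.symm

/-- potentials: every potential that does not change under the swap at `l` -/
theorem pot (hk : 5 ≤ k) (tf : ∀ a b c : V, G.Adj a b → G.Adj b c → ¬ G.Adj a c)
    (l : ZMod k) (z : V) (g : (ZMod k → V) → ℝ)
    (hg : ∀ x ∈ Cyc G k, ∀ w ∈ T G k l x, g (Function.update x l w) = g x) :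
    ∑ x ∈ Cyc G k, g x * (aj G k x l z - pp G k x l z) = 0 := by
  simp only [mul_sub, sum_sub_distrib]
  rw [avg hk tf l z g hg, sub_self]

lemma pp_update_self (hk : 5 ≤ k) {x : ZMod k → V} (hx : x ∈ Cyc G k) {j : ZMod k} {v : V}
    (hv : v ∈ T G k j x) (tf : ∀ a b c : V, G.Adj a b → G.Adj b c → ¬ G.Adj a c) (z : V) :
    pp G k (Function.update x j v) j z = pp G k x j z := by
  unfold pp uu; rw [T_update hk hx hv tf]

lemma pp_update_add_two (hk : 5 ≤ k) {x : ZMod k → V} (hx : x ∈ Cyc G k) {j : ZMod k} {v : V}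
    (hv : v ∈ T G k j x) (tf : ∀ a b c : V, G.Adj a b → G.Adj b c → ¬ G.Adj a c) (z : V) :
    pp G k (Function.update x j v) (j + 2) z = pp G k x (j + 2) z := by
  unfold pp uu; rw [T_update_add_two hk hx hv tf]

lemma pp_update_sub_two (hk : 5 ≤ k) {x : ZMod k → V} (hx : x ∈ Cyc G k) {j : ZMod k} {v : V}
    (hv : v ∈ T G k j x) (tf : ∀ a b c : V, G.Adj a b → G.Adj b c → ¬ G.Adj a c) (z : V) :
    pp G k (Function.update x j v) (j - 2) z = pp G k x (j - 2) z := by
  unfold pp uu; rw [T_update_sub_two hk hx hv tf]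

omit [NeZero k] in
lemma ne_add_two (hk : 5 ≤ k) (j : ZMod k) : j + 2 ≠ j := by
  intro h
  exact two_ne_zero' hk (by linear_combination h)

omit [NeZero k] in
lemma ne_add_one' (hk : 5 ≤ k) (j : ZMod k) : j + 1 ≠ j := by
  have := ne_add_int hk j (a := 1) (by norm_num) (by norm_num)
  simpa using this

omit [NeZero k] in
lemma ne_sub_one' (hk : 5 ≤ k) (j : ZMod k) : j - 1 ≠ j := by
  have := ne_add_int hk j (a := -1) (by norm_num) (by norm_num)
  intro h
  apply this
  push_cast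
  linear_combination h

lemma aj_update_of_ne {x : ZMod k → V} {j l : ZMod k} {v : V} (h : l ≠ j) (z : V) :
    aj G k (Function.update x j v) l z = aj G k x l z := by
  unfold aj; rw [Function.update_of_ne h]

/-- averaging over the positions `l` and `l + 2` -/
theorem avg_two (hk : 5 ≤ k) (tf : ∀ a b c : V, G.Adj a b → G.Adj b c → ¬ G.Adj a c)
    (l : ZMod k) (z : V) (Phi : (ZMod k → V) → ℝ)
    (h1 : ∀ x ∈ Cyc G k, ∀ w ∈ T G k l x, Phi (Function.update x l w) = Phi x)
    (h2 : ∀ x ∈ Cyc G k, ∀ w ∈ T G k (l + 2) x, Phi (Function.update x (l + 2) w) = Phi x) :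
    ∑ x ∈ Cyc G k, Phi x * (aj G k x l z * aj G k x (l + 2) z) =
      ∑ x ∈ Cyc G k, Phi x * (pp G k x l z * pp G k x (l + 2) z) := by
  have e1 := avg hk tf l z (fun x => Phi x * aj G k x (l + 2) z) (by
    intro x hx w hw
    rw [h1 x hx w hw, aj_update_of_ne (ne_add_two hk l)])
  have e2 := avg hk tf (l + 2) z (fun x => Phi x * pp G k x l z) (by
    intro x hx w hw
    have h3 := pp_update_sub_two hk hx hw tf z
    rw [add_sub_cancel_right] at h3
    rw [h2 x hx w hw, h3])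
  calc _ = ∑ x ∈ Cyc G k, Phi x * aj G k x (l + 2) z * aj G k x l z :=
        sum_congr rfl fun x _ => by ring
    _ = ∑ x ∈ Cyc G k, Phi x * pp G k x l z * aj G k x (l + 2) z := by
        rw [e1]; exact sum_congr rfl fun x _ => by ring
    _ = _ := by rw [e2]; exact sum_congr rfl fun x _ => by ring

/-- the costs of scheme E, averaged over the two neighbouring positions -/
theorem avg_nbr (hk : 5 ≤ k) (tf : ∀ a b c : V, G.Adj a b → G.Adj b c → ¬ G.Adj a c)
    (c : V → V → ℝ) :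
    ∑ x ∈ Cyc G k, ∑ a : ZMod k, ∑ z : V, c (x a) z *
        (aj G k x (a - 1) z + aj G k x (a + 1) z) =
      ∑ x ∈ Cyc G k, ∑ a : ZMod k, ∑ z : V, c (x a) z *
        (pp G k x (a - 1) z + pp G k x (a + 1) z) := by
  have e : ∀ f : (ZMod k → V) → ZMod k → V → ℝ, ∑ x ∈ Cyc G k, ∑ a : ZMod k, ∑ z : V, f x a z =
      ∑ a : ZMod k, ∑ z : V, ∑ x ∈ Cyc G k, f x a z := by
    intro f
    rw [sum_comm]
    exact sum_congr rfl fun a _ => sum_comm
  rw [e, e]
  refine sum_congr rfl fun a _ => sum_congr rfl fun z _ => ?_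
  simp only [mul_add, sum_add_distrib]
  have h1 := avg hk tf (a - 1) z (fun x => c (x a) z) (by
    intro x _ w _
    rw [Function.update_of_ne (ne_sub_one' hk a).symm])
  have h2 := avg hk tf (a + 1) z (fun x => c (x a) z) (by
    intro x _ w _
    rw [Function.update_of_ne (ne_add_one' hk a).symm])
  rw [h1, h2]

/-- number of pairs `i, i + 2` in a type -/
def g2 (k : ℕ) (S : Finset (ZMod k)) : ℝ := ((S.filter (fun i => i + 2 ∈ S)).card : ℝ)

lemma card_Ty_eq (x : ZMod k → V) (z : V) :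
    ((Ty G k x z).card : ℝ) = ∑ l : ZMod k, aj G k x l z := by
  unfold aj
  rw [Ty, sum_boole]

lemma g2_eq (x : ZMod k → V) (z : V) :
    g2 k (Ty G k x z) = ∑ l : ZMod k, aj G k x l z * aj G k x (l + 2) z := by
  unfold g2 aj
  have : ∀ l : ZMod k, (if G.Adj (x l) z then (1 : ℝ) else 0) *
      (if G.Adj (x (l + 2)) z then (1 : ℝ) else 0) =
      if G.Adj (x l) z ∧ G.Adj (x (l + 2)) z then (1 : ℝ) else 0 := by
    intro l
    split_ifs <;> simp_all
  rw [sum_congr rfl fun l _ => this l, sum_boole]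
  congr 2
  ext i
  simp [Ty]

/-- the average of the size of the types -/
theorem avg_card (hk : 5 ≤ k) (tf : ∀ a b c : V, G.Adj a b → G.Adj b c → ¬ G.Adj a c)
    (phi : V → ℝ) :
    ∑ x ∈ Cyc G k, ∑ z : V, phi z * ((Ty G k x z).card : ℝ) =
      ∑ x ∈ Cyc G k, ∑ z : V, phi z * ∑ l : ZMod k, pp G k x l z := by
  simp only [card_Ty_eq]
  rw [sum_comm, sum_comm (s := Cyc G k)]
  refine sum_congr rfl fun z _ => ?_
  simp only [mul_sum]
  rw [sum_comm, sum_comm (s := Cyc G k)]
  refine sum_congr rfl fun l _ => ?_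
  exact avg hk tf l z (fun _ => phi z) (fun _ _ _ _ => rfl)

/-- the average of the number of pairs `i, i + 2` -/
theorem avg_g2 (hk : 5 ≤ k) (tf : ∀ a b c : V, G.Adj a b → G.Adj b c → ¬ G.Adj a c)
    (phi : V → ℝ) :
    ∑ x ∈ Cyc G k, ∑ z : V, phi z * g2 k (Ty G k x z) =
      ∑ x ∈ Cyc G k, ∑ z : V, phi z * ∑ l : ZMod k, pp G k x l z * pp G k x (l + 2) z := by
  simp only [g2_eq]
  rw [sum_comm, sum_comm (s := Cyc G k)]
  refine sum_congr rfl fun z _ => ?_
  simp only [mul_sum]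
  rw [sum_comm, sum_comm (s := Cyc G k)]
  refine sum_congr rfl fun l _ => ?_
  exact avg_two hk tf l z (fun _ => phi z) (fun _ _ _ _ => rfl) (fun _ _ _ _ => rfl)

/-- reward of a vertex in scheme E: `k - 1` (empty), `3` (one neighbour), `1` (twin),
`2 a - 1 - g2` otherwise -/
def r0E (G : SimpleGraph V) (k : ℕ) [NeZero k] (x : ZMod k → V) (w : V) : ℝ :=
  (if (Ty G k x w).card = 0 then (k : ℝ) else 0) + (if (Ty G k x w).card = 1 then 2 else 0) +
    2 * ((Ty G k x w).card : ℝ) - 1 - g2 k (Ty G k x w) -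
    ∑ j : ZMod k, (if w ∈ T G k j x then (1 : ℝ) else 0)

/-- number of rotations and steps `l ≥ 3` at which `w` is a candidate -/
def cntE (G : SimpleGraph V) (k : ℕ) [NeZero k] (x : ZMod k → V) (w : V) : ℝ :=
  ∑ a : ZMod k, ∑ l ∈ Finset.Icc 3 (k - 3),
    if w ∈ F G k l (fun i => x (i + a)) then (1 : ℝ) else 0

/-- the windows `l = 2` -/
lemma sum_F_two (tf : ∀ a b c : V, G.Adj a b → G.Adj b c → ¬ G.Adj a c)
    {x : ZMod k → V} (hx : x ∈ Cyc G k) (w : V) :
    ∑ a : ZMod k, (if w ∈ F G k 2 (fun i => x (i + a)) then (1 : ℝ) else 0) =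
      ((Ty G k x w).card : ℝ) - g2 k (Ty G k x w) := by
  have e1 : ∀ a : ZMod k, (w ∈ F G k 2 (fun i => x (i + a))) ↔
      (a + 2 ∈ Ty G k x w ∧ a ∉ Ty G k x w) := by
    intro a
    rw [ic15_mem_F_rot]
    have c2 : ((2 : ℕ) : ZMod k) + a = a + 2 := by push_cast; ring
    rw [c2]
    constructor
    · rintro ⟨h1, h2⟩
      have h3 := h1 0 (by omega)
      rw [Nat.cast_zero, zero_add] at h3
      exact ⟨h2, h3⟩
    · rintro ⟨h2, h3⟩
      refine ⟨fun i hi => ?_, h2⟩
      interval_cases i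
      · rwa [Nat.cast_zero, zero_add]
      · intro h4
        have h5 := Ty_indep tf hx h4
        apply h5
        have : ((1 : ℕ) : ZMod k) + a + 1 = a + 2 := by push_cast; ring
        rwa [this]
  have e2 : ∑ a : ZMod k, (if w ∈ F G k 2 (fun i => x (i + a)) then (1 : ℝ) else 0) =
      ∑ a : ZMod k, ((if a + 2 ∈ Ty G k x w then (1 : ℝ) else 0) -
        (if a ∈ Ty G k x w ∧ a + 2 ∈ Ty G k x w then (1 : ℝ) else 0)) := by
    refine sum_congr rfl fun a _ => ?_
    rw [if_congr (e1 a) rfl rfl]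
    by_cases h1 : a ∈ Ty G k x w <;> by_cases h2 : a + 2 ∈ Ty G k x w <;> simp [h1, h2]
  rw [e2, sum_sub_distrib]
  have e3 : ∑ a : ZMod k, (if a + 2 ∈ Ty G k x w then (1 : ℝ) else 0) =
      ∑ a : ZMod k, (if a ∈ Ty G k x w then (1 : ℝ) else 0) :=
    Equiv.sum_comp (Equiv.addRight (2 : ZMod k)) (fun a => if a ∈ Ty G k x w then (1 : ℝ) else 0)
  rw [e3, sum_boole, sum_boole]
  unfold g2
  congr 2
  · congr 1
    ext i
    simp
  · congr 1
    ext i
    simp

lemma cnt_eq (hk : 6 ≤ k) (x : ZMod k → V) (w : V) :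
    cnt G k x w = ∑ a : ZMod k, (if w ∈ F G k 2 (fun i => x (i + a)) then (1 : ℝ) else 0) +
      cntE G k x w := by
  unfold cnt cntE
  rw [← sum_add_distrib]
  refine sum_congr rfl fun a _ => ?_
  have e5 : Icc 2 (k - 3) = insert 2 (Icc 3 (k - 3)) := by
    ext l
    rw [mem_insert, mem_Icc, mem_Icc]
    omega
  have hn : (2 : ℕ) ∉ Icc 3 (k - 3) := by rw [mem_Icc]; omega
  rw [e5, sum_insert hn]

lemma g2_nonneg (S : Finset (ZMod k)) : 0 ≤ g2 k S := Nat.cast_nonneg _

lemma g2_card_one (hk : 5 ≤ k) {S : Finset (ZMod k)} (h : S.card = 1) : g2 k S = 0 := by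
  obtain ⟨b, hb⟩ := Finset.card_eq_one.mp h
  unfold g2
  have : S.filter (fun i => i + 2 ∈ S) = ∅ := by
    apply filter_eq_empty_iff.2
    intro i hi h2
    rw [hb, mem_singleton] at hi h2
    rw [hi] at h2
    exact ne_add_two hk b h2
  rw [this]
  simp

lemma g2_card_zero {S : Finset (ZMod k)} (h : S.card = 0) : g2 k S = 0 := by
  rw [card_eq_zero] at h
  unfold g2
  rw [h]
  simp

/-- the coefficient of a vertex in the linear table of scheme E -/
theorem coefE_le (hk : 6 ≤ k) (tf : ∀ a b c : V, G.Adj a b → G.Adj b c → ¬ G.Adj a c)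
    {x : ZMod k → V} (hx : x ∈ Cyc G k) (w : V) :
    ((Ty G k x w).card : ℝ) + cntE G k x w +
      (∑ j : ZMod k, if w ∈ T G k j x then (1 : ℝ) else 0) - ((k : ℝ) - 1) ≤ -r0E G k x w := by
  have hk5 : 5 ≤ k := by omega
  have h1 := cnt_eq (G := G) hk x w
  have h2 := sum_F_two tf hx w
  have hm := cnt_many' tf hx w
  rw [h1, h2] at hm
  unfold r0E
  by_cases h0 : (Ty G k x w).card = 0
  · have hc := ic15_cnt_zero h0
    rw [h1, h2] at hc
    rw [if_pos h0, if_neg (by omega)]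
    rw [h0] at hc ⊢
    rw [g2_card_zero h0] at hc ⊢
    push_cast at hc ⊢
    linarith
  · rw [if_neg h0]
    by_cases h3 : (Ty G k x w).card = 1
    · have hc := cnt_one' hk h3
      rw [h1, h2] at hc
      rw [if_pos h3]
      rw [h3] at hc ⊢
      rw [g2_card_one hk5 h3] at hc ⊢
      push_cast at hc ⊢
      linarith
    · rw [if_neg h3]
      linarith

theorem sum_F3 (x : ZMod k → V) :
    ∑ a : ZMod k, ∑ l ∈ Icc 3 (k - 3), mu k (F G k l (fun i => x (i + a))) =
      ∑ w : V, kap V k * cntE G k x w := by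
  have h3 : ∀ (a : ZMod k) (l : ℕ), mu k (F G k l (fun i => x (i + a))) =
      ∑ w : V, kap V k * (if w ∈ F G k l (fun i => x (i + a)) then (1 : ℝ) else 0) := by
    intro a l
    rw [mu, ← Finset.mul_sum, Finset.sum_boole]
    congr 2
    congr 1
    ext w
    simp
  simp_rw [h3]
  rw [show (∑ a : ZMod k, ∑ l ∈ Icc 3 (k - 3), ∑ w : V, kap V k *
      (if w ∈ F G k l (fun i => x (i + a)) then (1 : ℝ) else 0)) =
      ∑ a : ZMod k, ∑ w : V, ∑ l ∈ Icc 3 (k - 3), kap V k *
      (if w ∈ F G k l (fun i => x (i + a)) then (1 : ℝ) else 0) from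
      sum_congr rfl fun a _ => sum_comm, sum_comm]
  refine sum_congr rfl fun w _ => ?_
  unfold cntE
  rw [mul_sum]
  refine sum_congr rfl fun a _ => ?_
  rw [mul_sum]

/-- the linear table of scheme E -/
theorem tableE (hk : 6 ≤ k) (tf : ∀ a b c : V, G.Adj a b → G.Adj b c → ¬ G.Adj a c)
    {x : ZMod k → V} (hx : x ∈ Cyc G k) :
    ∑ a : ZMod k, ((dg G k (x a) - 2) - 1 +
        ∑ l ∈ Icc 3 (k - 3), (mu k (F G k l (fun i => x (i + a))) - 1) +
        (mu k (T G k a x) - 1)) ≤ -∑ w : V, kap V k * r0E G k x w := by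
  have : Nonempty V := ⟨x 0⟩
  have hcard : ((Icc 3 (k - 3)).card : ℝ) = (k : ℝ) - 5 := by
    rw [Nat.card_Icc]
    have : k - 3 + 1 - 3 = k - 5 := by omega
    rw [this, Nat.cast_sub (by omega)]
    norm_num
  have e1 : ∑ a : ZMod k, ((dg G k (x a) - 2) - 1 +
        ∑ l ∈ Icc 3 (k - 3), (mu k (F G k l (fun i => x (i + a))) - 1) +
        (mu k (T G k a x) - 1)) =
      (∑ a : ZMod k, dg G k (x a)) +
        ∑ a : ZMod k, ∑ l ∈ Icc 3 (k - 3), mu k (F G k l (fun i => x (i + a))) +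
        ∑ a : ZMod k, mu k (T G k a x) - (k : ℝ) * ((k : ℝ) - 1) := by
    rw [← sum_add_distrib, ← sum_add_distrib]
    have : (k : ℝ) * ((k : ℝ) - 1) = ∑ _a : ZMod k, ((k : ℝ) - 1) := by
      rw [sum_const, card_univ, ZMod.card, nsmul_eq_mul]
    rw [this, ← sum_sub_distrib]
    refine sum_congr rfl fun a _ => ?_
    rw [sum_sub_distrib, sum_const, nsmul_eq_mul, hcard]
    ring
  have e2 : (k : ℝ) * ((k : ℝ) - 1) = ∑ _w : V, kap V k * ((k : ℝ) - 1) := by
    rw [← sum_mul, sum_kap]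
  rw [e1, sum_dg, sum_F3, sum_T, e2, ← sum_add_distrib, ← sum_add_distrib,
    ← sum_sub_distrib, ← sum_neg_distrib]
  refine sum_le_sum fun w _ => ?_
  have h := coefE_le hk tf hx w
  have hkap : 0 ≤ kap V k := kap_nonneg
  have h2 := mul_le_mul_of_nonneg_left h hkap
  linarith

end

end Pool.Agent.ICyc.D
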