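import Pool.Agent.Lib.MP_131fce_co.D.Gen

/-!
# Induced k-cycles in triangle-free graphs: pair functionals, potentials in p-form, final interface

The pair functional of the class `j` is an arbitrary function of the neighbours of the member `w`
only, of the neighbours of the position `x j` only, and of the common neighbours, everything with
`j` forgotten; it is exchanged by the swap.
-/

set_option autoImplicit false

namespace Pool.Agent.ICyc.D

open Finset Pool.Agent.ICyc
open scoped Classical

noncomputable section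

section

variable {k : ℕ} [NeZero k]

/-- the neighbours of a member of the class `j` that are not neighbours of the position -/
def onl (j : ZMod k) (N : Finset (ZMod k) → ℝ) : Finset (ZMod k) → ℝ :=
  fun B => if j ∈ B then 0 else N B

/-- the neighbours of the position that are not neighbours of the member -/
def onx (j : ZMod k) (N m : Finset (ZMod k) → ℝ) : Finset (ZMod k) → ℝ :=
  fun B => if j ∈ B then 0 else m (insert j B) - N (insert j B)

/-- pair functionals: position, neighbours of the first vertex only, of the second vertex only,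
common neighbours, environment, degrees of the other positions -/
abbrev FunP (k : ℕ) := ZMod k → (Finset (ZMod k) → ℝ) → (Finset (ZMod k) → ℝ) →
  (Finset (ZMod k) → ℝ) → (Finset (ZMod k) → ℝ) → (ZMod k → ℝ) → ℝ

/-- the pair functional, first the member and then the position -/
def prW (P : FunP k) (j : ZMod k) (N : Finset (ZMod k) → ℝ) (E : Env k) : ℝ :=
  P j (onl j N) (onx j N E.m) (atp j N) (forg j E.m) (msk j E.dx)

/-- the pair functional, first the position and then the member -/
def prX (P : FunP k) (j : ZMod k) (N : Finset (ZMod k) → ℝ) (E : Env k) : ℝ :=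
  P j (onx j N E.m) (onl j N) (atp j N) (forg j E.m) (msk j E.dx)

lemma dN_forg (l : ZMod k) (N : Finset (ZMod k) → ℝ) : dN (forg l N) = dN N := by
  have h := sum_forg l N (fun _ => True) (fun _ _ => Iff.rfl)
  unfold dN
  simpa using h.symm

lemma cN_forg {l b : ZMod k} (h : b ≠ l) (N : Finset (ZMod k) → ℝ) :
    cN (forg l N) b = cN N b := by
  unfold cN
  have h1 := sum_forg l N (fun B => b ∈ B) fun B _ => by
    rw [mem_insert]
    exact ⟨fun h' => h'.resolve_left h, Or.inr⟩
  convert h1.symm

lemma dN_onl (j : ZMod k) (N : Finset (ZMod k) → ℝ) : dN (onl j N) = dN N - cN N j := by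
  have h : dN N = dN (onl j N) + cN N j := by
    unfold dN cN onl
    rw [sum_filter, ← sum_add_distrib]
    refine sum_congr rfl fun B _ => ?_
    by_cases hB : j ∈ B
    · rw [if_pos hB, if_pos hB, zero_add]
    · rw [if_neg hB, if_neg hB, add_zero]
  linarith

lemma sum_insert_in (j : ZMod k) (m : Finset (ZMod k) → ℝ) :
    ∑ B : Finset (ZMod k), (if j ∈ B then 0 else m (insert j B)) =
      ∑ B ∈ univ.filter (fun B : Finset (ZMod k) => j ∈ B), m B := by
  have h1 : ∑ B : Finset (ZMod k), (if j ∈ B then 0 else m (insert j B)) =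
      ∑ B ∈ univ.filter (fun B : Finset (ZMod k) => j ∉ B), m (insert j B) := by
    rw [sum_filter]
    refine sum_congr rfl fun B _ => ?_
    by_cases hB : j ∈ B
    · rw [if_pos hB, if_neg (not_not.2 hB)]
    · rw [if_neg hB, if_pos hB]
  rw [h1]
  refine sum_bij' (fun B _ => insert j B) (fun B _ => B.erase j) ?_ ?_ ?_ ?_ ?_
  · intro B _
    rw [mem_filter]
    exact ⟨mem_univ _, mem_insert_self _ _⟩
  · intro B _
    rw [mem_filter]
    exact ⟨mem_univ _, notMem_erase j B⟩
  · intro B hB
    rw [mem_filter] at hB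
    exact erase_insert hB.2
  · intro B hB
    rw [mem_filter] at hB
    exact insert_erase hB.2
  · intro B _
    rfl

lemma dN_onx {j : ZMod k} {N : Finset (ZMod k) → ℝ} {E : Env k} (hE : EnvOK E) :
    dN (onx j N E.m) = E.dx j - cN N j := by
  have h1 := sum_insert_in j (fun B => E.m B - N B)
  have h2 := hE.m_dx j
  unfold dN onx
  rw [h1, sum_sub_distrib, h2]
  rfl

lemma dN_atp (j : ZMod k) (N : Finset (ZMod k) → ℝ) : dN (atp j N) = cN N j := by
  unfold dN atp cN
  exact sum_insert_in j N

end

section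

variable {V : Type} [Fintype V] {G : SimpleGraph V} {k : ℕ} [NeZero k]

/-- the swap exchanges the neighbours of the member only and of the position only -/
lemma onl_update {x : ZMod k → V} {j : ZMod k} (w : V) :
    onl j (NbM G k (Function.update x j w) (x j)) = onx j (NbM G k x w) (envX G k x).m := by
  funext B
  unfold onl onx
  by_cases h : j ∈ B
  · rw [if_pos h, if_pos h]
  · rw [if_neg h, if_neg h]
    show NbM G k (Function.update x j w) (x j) B = mu k (YT G k x (insert j B)) -
      NbM G k x w (insert j B)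
    have e : YT G k x (insert j B) = (nb G w).filter (fun z => Ty G k x z = insert j B) ∪
        (nb G (x j)).filter (fun z => Ty G k (Function.update x j w) z = B) := by
      unfold YT nb
      ext z
      simp only [mem_union, mem_filter, mem_univ, true_and]
      constructor
      · intro hz
        have hj : G.Adj (x j) z := by
          have : j ∈ Ty G k x z := by rw [hz]; exact mem_insert_self _ _
          exact bas_mem_Ty.1 this
        by_cases hw : G.Adj w z
        · exact Or.inl ⟨hw, hz⟩
        · refine Or.inr ⟨hj, ?_⟩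
          have h1 : j ∉ Ty G k (Function.update x j w) z := by
            rw [mem_Ty_update, if_pos rfl]
            exact hw
          rw [← erase_eq_of_notMem h1, Ty_update_erase, hz, erase_insert h]
      · rintro (⟨_, hz⟩ | ⟨hj, hz⟩)
        · exact hz
        · have h1 : (Ty G k x z).erase j = B := by
            rw [← Ty_update_erase (w := w), hz, erase_eq_of_notMem h]
          rw [← h1, insert_erase (bas_mem_Ty.2 hj)]
    have hd : Disjoint ((nb G w).filter (fun z => Ty G k x z = insert j B))
        ((nb G (x j)).filter (fun z => Ty G k (Function.update x j w) z = B)) := by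
      rw [disjoint_left]
      intro z hz hz'
      unfold nb at hz hz'
      simp only [mem_filter, mem_univ, true_and] at hz hz'
      apply h
      rw [← hz'.2, mem_Ty_update, if_pos rfl]
      exact hz.1
    rw [e]
    unfold NbM
    unfold mu
    rw [card_union_of_disjoint hd]
    push_cast
    ring

lemma atp_update {x : ZMod k → V} {j : ZMod k} (w : V) :
    atp j (NbM G k (Function.update x j w) (x j)) = atp j (NbM G k x w) := by
  funext B
  unfold atp
  by_cases h : j ∈ B
  · rw [if_pos h, if_pos h]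
  · rw [if_neg h, if_neg h]
    unfold NbM
    congr 1
    unfold nb
    ext z
    simp only [mem_filter, mem_univ, true_and]
    constructor
    · rintro ⟨hj, hz⟩
      have hw : G.Adj w z := by
        have : j ∈ Ty G k (Function.update x j w) z := by rw [hz]; exact mem_insert_self _ _
        rw [mem_Ty_update, if_pos rfl] at this
        exact this
      refine ⟨hw, ?_⟩
      have h1 : (Ty G k x z).erase j = B := by
        rw [← Ty_update_erase (w := w), hz, erase_insert h]
      rw [← h1, insert_erase (bas_mem_Ty.2 hj)]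
    · rintro ⟨hw, hz⟩
      have hj : G.Adj (x j) z := by
        have : j ∈ Ty G k x z := by rw [hz]; exact mem_insert_self _ _
        exact bas_mem_Ty.1 this
      refine ⟨hj, ?_⟩
      have h1 : (Ty G k (Function.update x j w) z).erase j = B := by
        rw [Ty_update_erase, hz, erase_insert h]
      have h2 : j ∈ Ty G k (Function.update x j w) z := by
        rw [mem_Ty_update, if_pos rfl]
        exact hw
      rw [← h1, insert_erase h2]

lemma onx_update {x : ZMod k → V} {j : ZMod k} (w : V) :
    onx j (NbM G k (Function.update x j w) (x j)) (envX G k (Function.update x j w)).m =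
      onl j (NbM G k x w) := by
  have h := onl_update (G := G) (x := Function.update x j w) (j := j) (x j)
  have e1 : Function.update (Function.update x j w) j (x j) = x := by
    rw [Function.update_idem, Function.update_eq_self]
  rw [e1, Function.update_self] at h
  exact h.symm

/-- pair functionals are exchanged -/
theorem funP_sum (hk : 5 ≤ k) (tf : ∀ a b c : V, G.Adj a b → G.Adj b c → ¬ G.Adj a c)
    (P : FunP k) (j : ZMod k) :
    ∑ x ∈ Cyc G k, ∑ w ∈ T G k j x, kap V k *
      (prW P j (NbM G k x w) (envX G k x) - prX P j (NbM G k x w) (envX G k x)) = 0 := by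
  have h := sum_swap (G := G) hk tf j (fun x w => kap V k * prW P j (NbM G k x w) (envX G k x))
  simp only [mul_sub, sum_sub_distrib]
  rw [sub_eq_zero, ← h]
  refine sum_congr rfl fun x _ => sum_congr rfl fun w _ => ?_
  unfold prW prX
  rw [onl_update, onx_update, atp_update, forg_m_update, msk_dx_update]

end

/-! ### potentials in p-form -/

section

variable {k : ℕ} [NeZero k]

/-- mean of the kernels of a vertex with the two neighbours of the position `l` -/
def ownl (KF : ℝ → ℝ → ℝ) (N : Finset (ZMod k) → ℝ) (dx : ZMod k → ℝ) (l : ZMod k) : ℝ :=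
  (KF (dN N - cN N (l - 1)) (dx (l - 1) - cN N (l - 1)) +
    KF (dN N - cN N (l + 1)) (dx (l + 1) - cN N (l + 1))) / 2

lemma ownK_eq_ownl (KF : ℝ → ℝ → ℝ) (Phi : ℝ → ℝ → ℝ → ℝ) (A : Finset (ZMod k))
    (N : Finset (ZMod k) → ℝ) (tau dx : ZMod k → ℝ) :
    ownK KF Phi A N tau dx = ∑ l ∈ A, ownl KF N dx l / zN Phi tau dx l := by
  unfold ownK ownl
  refine sum_congr rfl fun i _ => ?_
  rw [div_div]

omit [NeZero k] in
lemma one_ne_zero_Z (hk : 2 ≤ k) : (1 : ZMod k) ≠ 0 := by
  intro h
  have h3 : ((1 : ℕ) : ZMod k) = 0 := by exact_mod_cast h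
  rw [ZMod.natCast_eq_zero_iff] at h3
  have := Nat.le_of_dvd (by omega) h3
  omega

/-- `ownl` does not see the position -/
lemma ownl_forg (hk : 2 ≤ k) (KF : ℝ → ℝ → ℝ) (N : Finset (ZMod k) → ℝ) (dx : ZMod k → ℝ)
    (l : ZMod k) : ownl KF (forg l N) (msk l dx) l = ownl KF N dx l := by
  have h1 : l - 1 ≠ l := by
    intro h
    exact one_ne_zero_Z hk (by linear_combination -h)
  have h2 : l + 1 ≠ l := by
    intro h
    exact one_ne_zero_Z hk (by linear_combination h)
  unfold ownl
  rw [dN_forg, cN_forg h1, cN_forg h2]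
  unfold msk
  rw [if_neg h1, if_neg h2]

/-- the potential `X` times a function of the mass of the class -/
def pfm (X : PotG k) (sg : ℝ → ℝ) : PotG k :=
  fun A l N' m' dx' => X A l N' m' dx' * sg (m' (tT l))

/-- the flow of a potential in p-form -/
lemma flowG_pfm (hk : 5 ≤ k) (X : PotG k) (sg : ℝ → ℝ) (A : Finset (ZMod k))
    (N : Finset (ZMod k) → ℝ) {E : Env k} (hE : EnvOK E) :
    flowG (pfm X sg) A N E =
      ∑ l ∈ A, X (A.erase l) l (forg l N) (forg l E.m) (msk l E.dx) *
          (sg (E.tau l) * (E.tau l - N (tT l))) -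
        ∑ l ∈ Aᶜ, X A l (forg l N) (forg l E.m) (msk l E.dx) * (sg (E.tau l) * N (tT l)) := by
  unfold flowG potGN pfm
  congr 1
  · refine sum_congr rfl fun l _ => ?_
    rw [forg_tT hE hk]
    ring
  · refine sum_congr rfl fun l hl => ?_
    rw [mem_compl] at hl
    rw [forg_tT hE hk, erase_eq_of_notMem hl]
    ring

/-- the additive part of a potential in p-form -/
def addP (KF : ℝ → ℝ → ℝ) (al : ℝ) (g2 : ℝ → ℝ) : PotG k :=
  fun _ l N' _ dx' => al * ownl KF N' dx' l + g2 (dN N')

/-- **the flow of the additive part** -/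
lemma flowG_addP (hk : 5 ≤ k) (KF : ℝ → ℝ → ℝ) (al : ℝ) (g2 : ℝ → ℝ) (sg : ℝ → ℝ)
    (A : Finset (ZMod k)) (N : Finset (ZMod k) → ℝ) {E : Env k} (hE : EnvOK E) :
    flowG (pfm (addP KF al g2) sg) A N E =
      ∑ l ∈ A, (al * ownl KF N E.dx l + g2 (dN N)) * (sg (E.tau l) * E.tau l) -
        ∑ l : ZMod k, (al * ownl KF N E.dx l + g2 (dN N)) * (sg (E.tau l) * N (tT l)) := by
  rw [flowG_pfm hk _ sg A N hE]
  have e : ∀ (C : Finset (ZMod k)) (l : ZMod k),
      addP KF al g2 C l (forg l N) (forg l E.m) (msk l E.dx) =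
      al * ownl KF N E.dx l + g2 (dN N) := by
    intro C l
    unfold addP
    rw [ownl_forg (by omega), dN_forg]
  simp only [e]
  have h := sum_add_sum_compl A (fun l => (al * ownl KF N E.dx l + g2 (dN N)) *
    (sg (E.tau l) * N (tT l)))
  rw [← h]
  have h2 : ∑ l ∈ A, (al * ownl KF N E.dx l + g2 (dN N)) *
      (sg (E.tau l) * (E.tau l - N (tT l))) =
      ∑ l ∈ A, (al * ownl KF N E.dx l + g2 (dN N)) * (sg (E.tau l) * E.tau l) -
      ∑ l ∈ A, (al * ownl KF N E.dx l + g2 (dN N)) * (sg (E.tau l) * N (tT l)) := by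
    rw [← sum_sub_distrib]
    refine sum_congr rfl fun l _ => ?_
    ring
  rw [h2]
  ring

lemma flowG_add (X Y : PotG k) (A : Finset (ZMod k)) (N : Finset (ZMod k) → ℝ) (E : Env k) :
    flowG (fun C l N' m' dx' => X C l N' m' dx' + Y C l N' m' dx') A N E =
      flowG X A N E + flowG Y A N E := by
  unfold flowG potGN
  simp only [add_mul, sum_add_distrib]
  ring

omit [NeZero k] in
/-- sums over the elements of the type of a class -/
lemma sum_tT (hk : 5 ≤ k) (j : ZMod k) (f : ZMod k → ℝ) :
    ∑ l ∈ (tT j : Finset (ZMod k)), f l = f (j - 1) + f (j + 1) := by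
  unfold tT
  rw [sum_pair]
  intro h
  have h2 : ((2 : ℕ) : ZMod k) = 0 := by
    push_cast
    linear_combination -h
  rw [ZMod.natCast_eq_zero_iff] at h2
  have := Nat.le_of_dvd (by omega) h2
  omega

/-- the own prices of a member of a class -/
lemma ownl_tT (hk : 5 ≤ k) (KF : ℝ → ℝ → ℝ) (N : Finset (ZMod k) → ℝ) (dx : ZMod k → ℝ)
    (j : ZMod k) : ∑ l ∈ (tT j : Finset (ZMod k)), ownl KF N dx l =
      KF (dN N - cN N j) (dx j - cN N j) +
        (KF (dN N - cN N (j - 2)) (dx (j - 2) - cN N (j - 2)) +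
          KF (dN N - cN N (j + 2)) (dx (j + 2) - cN N (j + 2))) / 2 := by
  rw [sum_tT hk]
  unfold ownl
  have e1 : j - 1 - 1 = j - 2 := by ring
  have e2 : j - 1 + 1 = j := by ring
  have e3 : j + 1 - 1 = j := by ring
  have e4 : j + 1 + 1 = j + 2 := by ring
  rw [e1, e2, e3, e4]
  ring

end

/-! ### the final interface -/

section

variable {k : ℕ} [NeZero k]

/-- value of a vertex outside the classes -/
def rowN (L : ℕ) (KF : ℝ → ℝ → ℝ) (Phi : ℝ → ℝ → ℝ → ℝ) (rr : Env k → ZMod k → ℝ)
    (pot : PotG k) (g phi : ℝ → ℝ) (chi : Env k → Finset (ZMod k) → Finset (ZMod k) → ℝ)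
    (we : Env k → Finset (ZMod k) → ZMod k → ℝ)
    (A : Finset (ZMod k)) (N : Finset (ZMod k) → ℝ) (E : Env k) : ℝ :=
  rD k A - ∑ l ∈ A, ownl KF N E.dx l / zN Phi E.tau E.dx l +
    (rewN L (-1) A N + rewN L 1 A N) / 2 - ∑ l ∈ A, rr E l * (E.tau l - N (tT l)) +
    flowG pot A N E + g (dN N) * ((A.card : ℝ) - dN N) +
    ∑ B : Finset (ZMod k), N B * chi E A B - phi (dN N) + edN we A N E

/-- value of a member of the class `j` -/
def rowT (KF : ℝ → ℝ → ℝ) (Phi : ℝ → ℝ → ℝ → ℝ) (rr : Env k → ZMod k → ℝ)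
    (pot : PotG k) (g phi : ℝ → ℝ) (chi : Env k → Finset (ZMod k) → Finset (ZMod k) → ℝ)
    (we : Env k → Finset (ZMod k) → ZMod k → ℝ) (F : FunT k) (P : FunP k)
    (j : ZMod k) (N : Finset (ZMod k) → ℝ) (E : Env k) : ℝ :=
  -(KF (dN N - cN N j) (E.dx j - cN N j) * iz Phi E.tau E.dx j) +
    rr E j * (E.dx j - cN N j) -
    (rr E (j - 1) * (E.tau (j - 1) - N (tT (j - 1))) +
      rr E (j + 1) * (E.tau (j + 1) - N (tT (j + 1)))) +
    flowG pot (tT j) N E + g (dN N) * (2 - dN N) +
    ∑ B : Finset (ZMod k), N B * chi E (tT j) B - phi (dN N) + edT we j N E -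
    funW F j N E + (prW P j N E - prX P j N E)

lemma card_tT (hk : 5 ≤ k) (j : ZMod k) : ((tT j : Finset (ZMod k)).card : ℝ) = 2 := by
  have h := sum_tT hk j (fun _ => (1 : ℝ))
  rw [sum_const, nsmul_eq_mul, mul_one] at h
  rw [h]
  norm_num

end

/-- **the final interface** -/
theorem reductionRowsY {k : ℕ} [NeZero k] (hk : 6 ≤ k) {L : ℕ} (hL : 3 ≤ L) (hLk : L + 3 ≤ k)
    {B B' : ℝ} (g phi : ℝ → ℝ) (hg : ∀ t, 0 ≤ t → t ≤ (k : ℝ) → |g t| ≤ B)
    (hphi : ∀ t, 0 ≤ t → t ≤ (k : ℝ) → |phi t| ≤ B') {KF : ℝ → ℝ → ℝ} (hK : KerF L KF)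
    {Phi : ℝ → ℝ → ℝ → ℝ} (hpos : ∀ d s t, 0 < Phi d s t)
    (hsymm : ∀ d s t, Phi d s t = Phi d t s) (rr : Env k → ZMod k → ℝ)
    (pot : PotG k) {chi : Env k → Finset (ZMod k) → Finset (ZMod k) → ℝ}
    (hchi : ∀ E A D, chi E A D + chi E D A = 0)
    (F : FunT k) (P : FunP k)
    {we : Env k → Finset (ZMod k) → ZMod k → ℝ} (hwe : ∀ E A l, 0 ≤ we E A l)
    (rN : Finset (ZMod k) → Env k → ℝ) (rT : ZMod k → Env k → ℝ)
    (hN : ∀ (A : Finset (ZMod k)) (N : Finset (ZMod k) → ℝ) (E : Env k),
      DataE A N E → (∀ j, A ≠ tT j) → rN A E ≤ rowN L KF Phi rr pot g phi chi we A N E)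
    (hT : ∀ (j : ZMod k) (N : Finset (ZMod k) → ℝ) (E : Env k),
      DataE (tT j) N E → rT j E ≤ rowT KF Phi rr pot g phi chi we F P j N E)
    (hP : ∀ E : Env k, EnvOK E → posK L KF Phi phi E ≤
      ∑ A ∈ univ.filter (fun A : Finset (ZMod k) => ∀ j, A ≠ tT j), E.m A * rN A E +
        ∑ j : ZMod k, E.tau j * (rT j E + 1 / max 1 (E.tau j) * rewP L j E + funX F j E))
    {V : Type} [Fintype V] {G : SimpleGraph V}
    (tf : ∀ a b c : V, G.Adj a b → G.Adj b c → ¬ G.Adj a c) :
    NN G k * kap V k ^ k ≤ 2 * (k : ℝ) := by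
  have hk5 : 5 ≤ k := by omega
  have hflow0 : ∀ (A : Finset (ZMod k)) (N : Finset (ZMod k) → ℝ) (tau dx : ZMod k → ℝ),
      flowN (k := k) (fun _ _ _ _ _ _ _ _ _ _ _ => 0) A N tau dx = 0 := by
    intro A N tau dx
    unfold flowN potN
    simp
  refine reductionRowsK hk hL hLk g phi hg hphi hK hpos hsymm
    (fun _ _ _ _ _ => 0) (Hx := fun E j s t => KF s t * iz Phi E.tau E.dx j - rr E j * t)
    (rr := rr) ?_ (fun _ _ _ _ _ _ _ _ _ _ _ => 0) hchi
    (fun A N E => flowG pot A N E + edN we A N E)
    (fun j N E => (flowG pot (tT j) N E +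
      (funW (fun j N' m' dx' => -FunR L F j N' m' dx') j N E -
        funX (fun j N' m' dx' => -FunR L F j N' m' dx') j E)) + edT we j N E +
      (prW P j N E - prX P j N E)) ?_ rN
    (fun j E => rT j E + funX (FunR L F) j E) ?_ ?_ ?_ tf
  · intro E j s t _ _
    exact le_of_eq (by ring)
  · intro U _ G tfG
    have h1 := gen_hX hk5 pot (fun j N' m' dx' => -FunR L F j N' m' dx') U G tfG
    have h2 := edge_hX (k := k) hwe U G tfG
    have h3 : ∑ x ∈ Cyc G k, ∑ j : ZMod k, ∑ w ∈ T G k j x, kap U k *
        (prW P j (NbM G k x w) (envX G k x) - prX P j (NbM G k x w) (envX G k x)) = 0 := by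
      rw [sum_comm]
      exact sum_eq_zero fun j _ => funP_sum hk5 tfG P j
    rw [sum_add_distrib] at h1 h2 ⊢
    simp only [mul_add, sum_add_distrib] at h1 h2 h3 ⊢
    linarith
  · intro A N E hD hA
    refine (hN A N E hD hA).trans (le_of_eq ?_)
    unfold rowN valNK comE
    rw [hflow0, ownK_eq_ownl]
    ring
  · intro j N E hD
    have h := hT j N E hD
    have hE := hD.env
    have e1 := forg_tT hE hk5 j
    have e2 := rewN_forg (k := k) hL j 1 (Or.inl rfl) N
    have e3 := rewN_forg (k := k) hL j (-1) (Or.inr rfl) N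
    have e4 := sum_tT hk5 j (fun l => rr E l * (E.tau l - N (tT l)))
    have e5 := card_tT hk5 j
    unfold rowT at h
    unfold valTK valTR
    rw [hflow0, e4, e5]
    unfold funW funX at *
    unfold FunR
    dsimp only
    rw [e1, ← e2, ← e3]
    linarith
  · intro E hE
    refine (hP E hE).trans (le_of_eq ?_)
    congr 1
    refine sum_congr rfl fun j _ => ?_
    have e1 := forg_tT hE hk5 j
    unfold rewP funX FunR
    rw [e1]
    ring

end

end Pool.Agent.ICyc.D
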