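import Pool.Agent.Lib.MP_131fce_co.D.PForm

/-!
# Induced k-cycles in triangle-free graphs: the interface in p-form

`p_l = N (tT l) / tau l` is the fraction of the class `l` that is adjacent to the vertex.  The twin
price is `theta (f')`, by the pair functional `theta / 2`.
-/

set_option autoImplicit false

namespace Pool.Agent.ICyc.D

open Finset Pool.Agent.ICyc
open scoped Classical

noncomputable section

section

variable {k : ℕ} [NeZero k]

/-- the fraction of the class `l` among the neighbours -/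
def pN (N : Finset (ZMod k) → ℝ) (E : Env k) (l : ZMod k) : ℝ := N (tT l) / E.tau l

omit [NeZero k] in
lemma not_mem_tT (hk : 2 ≤ k) (l : ZMod k) : l ∉ (tT l : Finset (ZMod k)) := by
  unfold tT
  rw [mem_insert, mem_singleton]
  rintro (h | h)
  · exact one_ne_zero_Z hk (by linear_combination h)
  · exact one_ne_zero_Z hk (by linear_combination -h)

/-- the data do not see the position -/
lemma forgN_tT {A : Finset (ZMod k)} {N : Finset (ZMod k) → ℝ} {E : Env k} (h : DataE A N E)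
    (hk : 2 ≤ k) (l : ZMod k) : forg l N (tT l) = N (tT l) := by
  rw [forg_apply (not_mem_tT hk l)]
  have h2 : N (insert l (tT l)) = 0 := by
    by_contra h0
    refine h.indN _ h0 (l - 1) ?_ ?_
    · unfold tT; simp
    · rw [sub_add_cancel]; exact mem_insert_self _ _
  rw [h2, add_zero]

lemma pN_mul {A : Finset (ZMod k)} {N : Finset (ZMod k) → ℝ} {E : Env k} (h : DataE A N E)
    (l : ZMod k) : E.tau l * pN N E l = N (tT l) := by
  unfold pN
  field_simp [(h.pos l).ne']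

lemma pN_nn {A : Finset (ZMod k)} {N : Finset (ZMod k) → ℝ} {E : Env k} (h : DataE A N E)
    (l : ZMod k) : 0 ≤ pN N E l := div_nonneg (h.nn _) (h.pos l).le

lemma pN_le_one {A : Finset (ZMod k)} {N : Finset (ZMod k) → ℝ} {E : Env k} (h : DataE A N E)
    (l : ZMod k) : pN N E l ≤ 1 := (div_le_one (h.pos l)).2 (h.le l)

lemma pN_eq_zero {A : Finset (ZMod k)} {N : Finset (ZMod k) → ℝ} {E : Env k} (h : DataE A N E)
    {l : ZMod k} (hl : ¬ Disjoint A (tT l)) : pN N E l = 0 := by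
  unfold pN
  have h1 : N (tT l) = 0 := by
    by_contra h0
    exact hl (h.disj _ h0)
  rw [h1, zero_div]

/-- a neighbour of the position `l` sees nothing of the classes `l - 1` and `l + 1` -/
lemma pN_pred {A : Finset (ZMod k)} {N : Finset (ZMod k) → ℝ} {E : Env k} (h : DataE A N E)
    {l : ZMod k} (hl : l ∈ A) : pN N E (l - 1) = 0 := by
  refine pN_eq_zero h ?_
  rw [not_disjoint_iff]
  refine ⟨l, hl, ?_⟩
  unfold tT
  rw [mem_insert, mem_singleton]
  right
  ring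

lemma pN_succ {A : Finset (ZMod k)} {N : Finset (ZMod k) → ℝ} {E : Env k} (h : DataE A N E)
    {l : ZMod k} (hl : l ∈ A) : pN N E (l + 1) = 0 := by
  refine pN_eq_zero h ?_
  rw [not_disjoint_iff]
  refine ⟨l, hl, ?_⟩
  unfold tT
  rw [mem_insert, mem_singleton]
  left
  ring

/-- potentials in p-form: the own price, a function of the degree, a constant and a multiple of the
fraction, both free functions of the lower state, of the position and of the environment without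
the position -/
def potP (KF : ℝ → ℝ → ℝ) (al : ℝ) (g2 : ℝ → ℝ)
    (cc pp : Finset (ZMod k) → ZMod k → (Finset (ZMod k) → ℝ) → (ZMod k → ℝ) → ℝ)
    (sg : ℝ → ℝ) : PotG k :=
  fun C l N' m' dx' => (al * ownl KF N' dx' l + g2 (dN N') + cc C l m' dx' +
    pp C l m' dx' * (N' (tT l) / m' (tT l))) * sg (m' (tT l))

/-- one value of the potential -/
def potV (KF : ℝ → ℝ → ℝ) (al : ℝ) (g2 : ℝ → ℝ)
    (cc pp : Finset (ZMod k) → ZMod k → (Finset (ZMod k) → ℝ) → (ZMod k → ℝ) → ℝ)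
    (C : Finset (ZMod k)) (l : ZMod k) (N : Finset (ZMod k) → ℝ) (E : Env k) : ℝ :=
  al * ownl KF N E.dx l + g2 (dN N) + cc C l (forg l E.m) (msk l E.dx) +
    pp C l (forg l E.m) (msk l E.dx) * pN N E l

/-- the flow in p-form -/
def flowP (KF : ℝ → ℝ → ℝ) (al : ℝ) (g2 : ℝ → ℝ)
    (cc pp : Finset (ZMod k) → ZMod k → (Finset (ZMod k) → ℝ) → (ZMod k → ℝ) → ℝ) (sg : ℝ → ℝ)
    (A : Finset (ZMod k)) (N : Finset (ZMod k) → ℝ) (E : Env k) : ℝ :=
  ∑ l ∈ A, E.tau l * sg (E.tau l) * (1 - pN N E l) * potV KF al g2 cc pp (A.erase l) l N E -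
    ∑ l ∈ Aᶜ, E.tau l * sg (E.tau l) * pN N E l * potV KF al g2 cc pp A l N E

/-- **the flow in p-form** -/
lemma flowG_potP (hk : 5 ≤ k) (KF : ℝ → ℝ → ℝ) (al : ℝ) (g2 : ℝ → ℝ)
    (cc pp : Finset (ZMod k) → ZMod k → (Finset (ZMod k) → ℝ) → (ZMod k → ℝ) → ℝ)
    (sg : ℝ → ℝ) {A : Finset (ZMod k)} {N : Finset (ZMod k) → ℝ} {E : Env k}
    (h : DataE A N E) :
    flowG (potP KF al g2 cc pp sg) A N E = flowP KF al g2 cc pp sg A N E := by
  have hk2 : 2 ≤ k := by omega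
  have hE := h.env
  have e : ∀ (C : Finset (ZMod k)) (l : ZMod k),
      potP KF al g2 cc pp sg C l (forg l N) (forg l E.m) (msk l E.dx) =
      potV KF al g2 cc pp C l N E * sg (E.tau l) := by
    intro C l
    unfold potP potV pN
    rw [ownl_forg hk2, dN_forg, forg_tT hE hk, forgN_tT h hk2]
  unfold flowG potGN flowP
  congr 1
  · refine sum_congr rfl fun l _ => ?_
    rw [e, ← pN_mul h l]
    ring
  · refine sum_congr rfl fun l hl => ?_
    rw [mem_compl] at hl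
    rw [e, erase_eq_of_notMem hl, ← pN_mul h l]
    ring

omit [NeZero k] in
lemma succ_ne_pred (hk : 5 ≤ k) (j : ZMod k) : j - 1 ≠ j + 1 := by
  intro h
  have h2 : ((2 : ℕ) : ZMod k) = 0 := by
    push_cast
    linear_combination -h
  rw [ZMod.natCast_eq_zero_iff] at h2
  have := Nat.le_of_dvd (by omega) h2
  omega

omit [NeZero k] in
lemma erase_tT_pred (hk : 5 ≤ k) (j : ZMod k) : (tT j).erase (j - 1) = {j + 1} := by
  unfold tT
  rw [erase_insert]
  rw [mem_singleton]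
  exact succ_ne_pred hk j

omit [NeZero k] in
lemma erase_tT_succ (hk : 5 ≤ k) (j : ZMod k) : (tT j).erase (j + 1) = {j - 1} := by
  unfold tT
  rw [pair_comm, erase_insert]
  rw [mem_singleton]
  exact (succ_ne_pred hk j).symm

/-- the flow of a member of the class `j` -/
lemma flowP_tT (hk : 5 ≤ k) (KF : ℝ → ℝ → ℝ) (al : ℝ) (g2 : ℝ → ℝ)
    (cc pp : Finset (ZMod k) → ZMod k → (Finset (ZMod k) → ℝ) → (ZMod k → ℝ) → ℝ)
    (sg : ℝ → ℝ) (j : ZMod k) (N : Finset (ZMod k) → ℝ) (E : Env k) :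
    flowP KF al g2 cc pp sg (tT j) N E =
      E.tau (j - 1) * sg (E.tau (j - 1)) * (1 - pN N E (j - 1)) *
        potV KF al g2 cc pp {j + 1} (j - 1) N E +
      E.tau (j + 1) * sg (E.tau (j + 1)) * (1 - pN N E (j + 1)) *
        potV KF al g2 cc pp {j - 1} (j + 1) N E -
      ∑ l ∈ (tT j)ᶜ, E.tau l * sg (E.tau l) * pN N E l *
        potV KF al g2 cc pp (tT j) l N E := by
  unfold flowP
  rw [sum_tT hk, erase_tT_pred hk, erase_tT_succ hk]

/-- value of a vertex outside the classes, p-form -/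
def rowNP (L : ℕ) (KF : ℝ → ℝ → ℝ) (al : ℝ) (g2 : ℝ → ℝ)
    (cc pp : Finset (ZMod k) → ZMod k → (Finset (ZMod k) → ℝ) → (ZMod k → ℝ) → ℝ)
    (sg : ℝ → ℝ) (rr : Env k → ZMod k → ℝ) (g phi : ℝ → ℝ)
    (chi : Env k → Finset (ZMod k) → Finset (ZMod k) → ℝ)
    (we : Env k → Finset (ZMod k) → ZMod k → ℝ)
    (A : Finset (ZMod k)) (N : Finset (ZMod k) → ℝ) (E : Env k) : ℝ :=
  rD k A - ∑ l ∈ A, ownl KF N E.dx l + (rewN L (-1) A N + rewN L 1 A N) / 2 -
    ∑ l ∈ A, rr E l * (E.tau l * (1 - pN N E l)) + flowP KF al g2 cc pp sg A N E +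
    g (dN N) * ((A.card : ℝ) - dN N) - phi (dN N) +
    ∑ B : Finset (ZMod k), N B * chi E A B + edN we A N E

/-- value of a member of the class `j`, p-form, twin price `theta (f')` -/
def rowTP (KF : ℝ → ℝ → ℝ) (theta : ℝ → ℝ) (al : ℝ) (g2 : ℝ → ℝ)
    (cc pp : Finset (ZMod k) → ZMod k → (Finset (ZMod k) → ℝ) → (ZMod k → ℝ) → ℝ)
    (sg : ℝ → ℝ) (rr : Env k → ZMod k → ℝ) (g phi : ℝ → ℝ)
    (chi : Env k → Finset (ZMod k) → Finset (ZMod k) → ℝ)
    (we : Env k → Finset (ZMod k) → ZMod k → ℝ) (F : FunT k) (P : FunP k)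
    (j : ZMod k) (N : Finset (ZMod k) → ℝ) (E : Env k) : ℝ :=
  -theta (E.dx j - cN N j) + rr E j * (E.dx j - cN N j) -
    (rr E (j - 1) * (E.tau (j - 1) * (1 - pN N E (j - 1))) +
      rr E (j + 1) * (E.tau (j + 1) * (1 - pN N E (j + 1)))) +
    (E.tau (j - 1) * sg (E.tau (j - 1)) * (1 - pN N E (j - 1)) *
        potV KF al g2 cc pp {j + 1} (j - 1) N E +
      E.tau (j + 1) * sg (E.tau (j + 1)) * (1 - pN N E (j + 1)) *
        potV KF al g2 cc pp {j - 1} (j + 1) N E -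
      ∑ l ∈ (tT j)ᶜ, E.tau l * sg (E.tau l) * pN N E l *
        potV KF al g2 cc pp (tT j) l N E) +
    g (dN N) * (2 - dN N) - phi (dN N) + ∑ B : Finset (ZMod k), N B * chi E (tT j) B +
    edT we j N E - funW F j N E + (prW P j N E - prX P j N E)

/-- the position block with normaliser one -/
def posP (L : ℕ) (KF : ℝ → ℝ → ℝ) (phi : ℝ → ℝ) (E : Env k) : ℝ :=
  (k : ℝ) - ∑ a : ZMod k, E.tau a -
    ∑ a : ZMod k, KF (fUp E a) (fDn E a) * (1 - (E.tau a + E.tau (a + 2)) / 2) -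
    ∑ a : ZMod k, ((cL L (fUp E a) + cL L (fDn E a)) / 2 - JJ (KF (fUp E a) (fDn E a))) -
    ∑ a : ZMod k, (JJ (E.dx a / 2) + JJ (E.tau a) + phi (E.dx a)) -
    ((k : ℝ) - 5) * ∑ a : ZMod k, JJ (max 1 (E.tau a))

lemma posK_one (L : ℕ) (KF : ℝ → ℝ → ℝ) (phi : ℝ → ℝ) (E : Env k) :
    posK L KF (fun _ _ _ => 1) phi E = posP L KF phi E := by
  have h1 : ∑ a : ZMod k, pairK L KF (fun _ _ _ => 1) E a =
      (k : ℝ) - ∑ a : ZMod k, E.tau a -
      ∑ a : ZMod k, KF (fUp E a) (fDn E a) * (1 - (E.tau a + E.tau (a + 2)) / 2) -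
      ∑ a : ZMod k, ((cL L (fUp E a) + cL L (fDn E a)) / 2 - JJ (KF (fUp E a) (fDn E a))) := by
    have e1 : ∑ a : ZMod k, E.tau (a + 2) = ∑ a : ZMod k, E.tau a :=
      Equiv.sum_comp (Equiv.addRight (2 : ZMod k)) E.tau
    have e2 : ∑ _a : ZMod k, (1 : ℝ) = (k : ℝ) := by
      rw [sum_const, card_univ, ZMod.card, nsmul_eq_mul, mul_one]
    have e3 : ∀ a : ZMod k, pairK L KF (fun _ _ _ => 1) E a =
        1 - (E.tau a / 2 + E.tau (a + 2) / 2) -
        KF (fUp E a) (fDn E a) * (1 - (E.tau a + E.tau (a + 2)) / 2) -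
        ((cL L (fUp E a) + cL L (fDn E a)) / 2 - JJ (KF (fUp E a) (fDn E a))) := by
      intro a
      unfold pairK zN
      rw [Real.log_one]
      ring
    rw [sum_congr rfl fun a _ => e3 a, sum_sub_distrib, sum_sub_distrib, sum_sub_distrib, e2,
      sum_add_distrib, ← sum_div, ← sum_div, e1]
    ring
  unfold posK posP
  rw [h1]

end

/-- **the interface in p-form** -/
theorem reductionP {k : ℕ} [NeZero k] (hk : 6 ≤ k) {L : ℕ} (hL : 3 ≤ L) (hLk : L + 3 ≤ k)
    {B B' : ℝ} (g phi : ℝ → ℝ) (hg : ∀ t, 0 ≤ t → t ≤ (k : ℝ) → |g t| ≤ B)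
    (hphi : ∀ t, 0 ≤ t → t ≤ (k : ℝ) → |phi t| ≤ B') {KF : ℝ → ℝ → ℝ} (hK : KerF L KF)
    (theta : ℝ → ℝ) (hth : ∀ s t, 0 ≤ s → 0 ≤ t → KF s t ≤ (theta s + theta t) / 2)
    (al : ℝ) (g2 : ℝ → ℝ)
    (cc pp : Finset (ZMod k) → ZMod k → (Finset (ZMod k) → ℝ) → (ZMod k → ℝ) → ℝ)
    (sg : ℝ → ℝ) (rr : Env k → ZMod k → ℝ)
    {chi : Env k → Finset (ZMod k) → Finset (ZMod k) → ℝ}
    (hchi : ∀ E A D, chi E A D + chi E D A = 0)
    (F : FunT k) (P : FunP k)
    {we : Env k → Finset (ZMod k) → ZMod k → ℝ} (hwe : ∀ E A l, 0 ≤ we E A l)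
    (rN : Finset (ZMod k) → Env k → ℝ) (rT : ZMod k → Env k → ℝ)
    (hN : ∀ (A : Finset (ZMod k)) (N : Finset (ZMod k) → ℝ) (E : Env k),
      DataE A N E → (∀ j, A ≠ tT j) →
        rN A E ≤ rowNP L KF al g2 cc pp sg rr g phi chi we A N E)
    (hT : ∀ (j : ZMod k) (N : Finset (ZMod k) → ℝ) (E : Env k),
      DataE (tT j) N E → rT j E ≤ rowTP KF theta al g2 cc pp sg rr g phi chi we F P j N E)
    (hP : ∀ E : Env k, EnvOK E → posP L KF phi E ≤
      ∑ A ∈ univ.filter (fun A : Finset (ZMod k) => ∀ j, A ≠ tT j), E.m A * rN A E +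
        ∑ j : ZMod k, E.tau j * (rT j E + 1 / max 1 (E.tau j) * rewP L j E + funX F j E))
    {V : Type} [Fintype V] {G : SimpleGraph V}
    (tf : ∀ a b c : V, G.Adj a b → G.Adj b c → ¬ G.Adj a c) :
    NN G k * kap V k ^ k ≤ 2 * (k : ℝ) := by
  have hk5 : 5 ≤ k := by omega
  refine reductionRowsY hk hL hLk g phi hg hphi hK (Phi := fun _ _ _ => 1)
    (fun _ _ _ => one_pos) (fun _ _ _ => rfl) rr (potP KF al g2 cc pp sg) hchi F
    (fun j N1 N2 c m' dx' => theta (dN N1) / 2 + P j N1 N2 c m' dx') hwe rN rT ?_ ?_ ?_ tf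
  · intro A N E hD hA
    refine (hN A N E hD hA).trans (le_of_eq ?_)
    unfold rowNP rowN
    rw [flowG_potP hk5 KF al g2 cc pp sg hD]
    have e1 : ∑ l ∈ A, ownl KF N E.dx l / zN (fun _ _ _ => 1) E.tau E.dx l =
        ∑ l ∈ A, ownl KF N E.dx l := by
      refine sum_congr rfl fun l _ => ?_
      unfold zN
      rw [div_one]
    have e2 : ∑ l ∈ A, rr E l * (E.tau l * (1 - pN N E l)) =
        ∑ l ∈ A, rr E l * (E.tau l - N (tT l)) := by
      refine sum_congr rfl fun l _ => ?_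
      rw [mul_sub, mul_one, pN_mul hD]
    rw [e1, e2]
    ring
  · intro j N E hD
    refine (hT j N E hD).trans ?_
    unfold rowTP rowT
    rw [flowG_potP hk5 KF al g2 cc pp sg hD, flowP_tT hk5]
    have e1 : E.tau (j - 1) * (1 - pN N E (j - 1)) = E.tau (j - 1) - N (tT (j - 1)) := by
      rw [mul_sub, mul_one, pN_mul hD]
    have e2 : E.tau (j + 1) * (1 - pN N E (j + 1)) = E.tau (j + 1) - N (tT (j + 1)) := by
      rw [mul_sub, mul_one, pN_mul hD]
    have e3 : prW (fun j N1 N2 c m' dx' => theta (dN N1) / 2 + P j N1 N2 c m' dx') j N E =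
        theta (dN N - cN N j) / 2 + prW P j N E := by
      unfold prW
      dsimp only
      rw [dN_onl]
    have e4 : prX (fun j N1 N2 c m' dx' => theta (dN N1) / 2 + P j N1 N2 c m' dx') j N E =
        theta (E.dx j - cN N j) / 2 + prX P j N E := by
      unfold prX
      dsimp only
      rw [dN_onx hD.env]
    have e5 : iz (fun _ _ _ => 1) E.tau E.dx j = 1 := by
      unfold iz zN
      norm_num
    have h1 : 0 ≤ dN N - cN N j := by
      rw [← dN_onl]
      unfold dN onl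
      refine sum_nonneg fun B _ => ?_
      split_ifs
      · exact le_refl _
      · exact hD.nn _
    have h2 : 0 ≤ E.dx j - cN N j := by
      rw [← dN_onx hD.env]
      unfold dN onx
      refine sum_nonneg fun B _ => ?_
      split_ifs
      · exact le_refl _
      · exact sub_nonneg.2 (hD.N_le _)
    have h3 := hth _ _ h1 h2
    rw [e1, e2, e3, e4, e5, mul_one]
    linarith
  · intro E hE
    rw [posK_one]
    exact hP E hE

end

end Pool.Agent.ICyc.D
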