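import Pool.Agent.Lib.MP_131fce_co.D.Swap

/-!
# Induced k-cycles in triangle-free graphs (MP_131fce_co): the pair identity

States of a vertex `y`: the type `{c - 2, c, c + 2}` against the type `{c}`; both outer positions
are swapped.  Adjacent pairs of candidates are charged to vertices of type
`{c + 1, c + 3, c - 2}` and `{c - 3, c - 1, c + 2}`.
-/

set_option autoImplicit false

namespace Pool.Agent.ICyc.D

open Finset Pool.Agent.ICyc
open scoped Classical

noncomputable section

variable {V : Type} [Fintype V] {G : SimpleGraph V} {k : ℕ} [NeZero k]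

omit [NeZero k] in
lemma zne (hk : 6 ≤ k) {a : ℤ} (h1 : a ≠ 0) (h2 : a.natAbs < 6) : ((a : ℤ) : ZMod k) ≠ 0 := by
  intro h
  rw [ZMod.intCast_zmod_eq_zero_iff_dvd] at h
  have h3 : k ∣ a.natAbs := Int.natCast_dvd.1 h
  have h4 := Nat.le_of_dvd (Int.natAbs_pos.2 h1) h3
  omega

omit [NeZero k] in
lemma shift_ne (hk : 6 ≤ k) (c : ZMod k) {a b : ℤ} (h1 : a ≠ b) (h2 : (a - b).natAbs < 6) :
    c + (a : ZMod k) ≠ c + (b : ZMod k) := by
  intro h
  have h3 : (((a - b : ℤ)) : ZMod k) = 0 := by
    push_cast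
    have := add_left_cancel h
    rw [this, sub_self]
  exact zne hk (sub_ne_zero.2 h1) h2 h3

/-- the vertices of a given type -/
def YT (G : SimpleGraph V) (k : ℕ) [NeZero k] (x : ZMod k → V) (S : Finset (ZMod k)) : Finset V :=
  univ.filter (fun y => Ty G k x y = S)

/-- error sum of the pair identity, before the swap -/
def EE (G : SimpleGraph V) (k : ℕ) [NeZero k] (c l r : ZMod k) : ℝ :=
  ∑ x ∈ Cyc G k, ∑ w ∈ T G k l x, ∑ w' ∈ (T G k r x).filter (fun w' => G.Adj w w'),
    ∑ _y ∈ (YT G k x {l, c, r}).filter (fun y => ¬ G.Adj w y ∧ ¬ G.Adj w' y),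
      kap V k * (kap V k * kap V k)

/-- one of the two bounds for the adjacent pairs of candidates -/
theorem EE_le (hk : 6 ≤ k) (tf : ∀ a b c : V, G.Adj a b → G.Adj b c → ¬ G.Adj a c)
    {c l r m : ZMod k} (hlc : l ≠ c) (hlr : l ≠ r) (h1 : l ≠ r - 1) (h2 : l ≠ r + 1)
    (hm : ({c, r} : Finset (ZMod k)) = {m - 1, m + 1}) :
    EE G k c l r ≤ ∑ x ∈ Cyc G k, ∑ z ∈ YT G k x {r - 1, r + 1, l},
      kap V k * (DD G k x l z * DD G k x m z) := by
  have hk5 : 5 ≤ k := by omega
  unfold EE
  have s1 := sum_swap hk5 tf l (fun x w =>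
    ∑ w' ∈ (T G k r x).filter (fun w' => G.Adj w w'),
      ∑ _y ∈ (YT G k x {l, c, r}).filter (fun y => ¬ G.Adj w y ∧ ¬ G.Adj w' y),
        kap V k * (kap V k * kap V k))
  rw [← s1]
  refine sum_le_sum fun x hx => ?_
  have hk3 : 0 ≤ kap V k * (kap V k * kap V k) :=
    mul_nonneg kap_nonneg' (mul_nonneg kap_nonneg' kap_nonneg')
  have e1 : ∑ z ∈ YT G k x {r - 1, r + 1, l}, kap V k * (DD G k x l z * DD G k x m z) =
      ∑ v ∈ T G k l x, ∑ z ∈ (YT G k x {r - 1, r + 1, l}).filter (fun z => ¬ G.Adj v z),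
        ∑ _y ∈ (T G k m x).filter (fun y => ¬ G.Adj y z), kap V k * (kap V k * kap V k) := by
    simp_rw [DD, mu_eq_sum, sum_mul_sum, mul_sum, sum_filter]
    rw [sum_comm]
  rw [e1]
  refine sum_le_sum fun v hv => ?_
  -- the index set of `w'`
  have hsub : (T G k r (Function.update x l v)).filter (fun w' => G.Adj (x l) w') ⊆
      (YT G k x {r - 1, r + 1, l}).filter (fun z => ¬ G.Adj v z) := by
    intro z hz
    rw [mem_filter] at hz
    have hz1 := mem_T_iff.1 hz.1
    rw [mem_filter]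
    refine ⟨?_, ?_⟩
    · rw [YT, mem_filter]
      refine ⟨mem_univ _, ?_⟩
      ext i
      have hi : i ∈ Ty G k x z ↔ G.Adj (x i) z := by simp [Ty]
      rw [hi]
      by_cases hil : i = l
      · subst hil
        simp [hz.2]
      · have h3 := hz1 i
        rw [Function.update_of_ne hil] at h3
        rw [h3]
        simp [hil]
    · have h3 := hz1 l
      rw [Function.update_self] at h3
      intro h4
      rcases h3.1 h4 with h | h
      · exact h1 h
      · exact h2 h
  have hin : ∀ w' ∈ (T G k r (Function.update x l v)).filter (fun w' => G.Adj (x l) w'),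
      ∑ _y ∈ (YT G k (Function.update x l v) {l, c, r}).filter
          (fun y => ¬ G.Adj (x l) y ∧ ¬ G.Adj w' y), kap V k * (kap V k * kap V k) ≤
        ∑ _y ∈ (T G k m x).filter (fun y => ¬ G.Adj y w'), kap V k * (kap V k * kap V k) := by
    intro w' _
    refine sum_le_sum_of_subset_of_nonneg ?_ fun _ _ _ => hk3
    intro y hy
    rw [mem_filter, YT, mem_filter] at hy
    obtain ⟨⟨_, hy1⟩, hy2, hy3⟩ := hy
    rw [mem_filter]
    refine ⟨?_, fun h => hy3 h.symm⟩
    rw [T, mem_filter]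
    refine ⟨mem_univ _, ?_⟩
    rw [← hm]
    ext i
    by_cases hil : i = l
    · subst hil
      have hi : i ∈ Ty G k x y ↔ G.Adj (x i) y := by simp [Ty]
      rw [hi]
      simp [hy2, hlc, hlr]
    · have h3 : i ∈ Ty G k (Function.update x l v) y ↔ i ∈ Ty G k x y := by
        rw [mem_Ty_update, if_neg hil]
      rw [← h3, hy1]
      simp [hil]
  refine (sum_le_sum hin).trans ?_
  exact sum_le_sum_of_subset_of_nonneg hsub fun _ _ _ => sum_nonneg fun _ _ => hk3

lemma expandD (S : Finset V) (x : ZMod k → V) (l r : ZMod k) (f : V → ℝ) :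
    ∑ y ∈ S, kap V k * (f y * (DD G k x l y * DD G k x r y)) =
      ∑ w ∈ T G k l x, ∑ w' ∈ T G k r x, ∑ y ∈ S.filter (fun y => ¬ G.Adj w y ∧ ¬ G.Adj w' y),
        kap V k * (kap V k * kap V k) * f y := by
  have e1 : ∀ y, kap V k * (f y * (DD G k x l y * DD G k x r y)) =
      ∑ w ∈ T G k l x, ∑ w' ∈ T G k r x, (if ¬ G.Adj w y ∧ ¬ G.Adj w' y then
        kap V k * (kap V k * kap V k) * f y else 0) := by
    intro y
    simp_rw [DD, mu_eq_sum, sum_filter, sum_mul_sum, mul_sum]
    refine sum_congr rfl fun w _ => sum_congr rfl fun w' _ => ?_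
    by_cases a1 : G.Adj w y <;> by_cases a2 : G.Adj w' y <;> simp [a1, a2]
    ring
  rw [sum_congr rfl fun y _ => e1 y, sum_comm]
  refine sum_congr rfl fun w _ => ?_
  rw [sum_comm]
  refine sum_congr rfl fun w' _ => ?_
  rw [sum_filter]

lemma expandU (S : Finset V) (x : ZMod k → V) (l r : ZMod k) (f : V → ℝ) :
    ∑ y ∈ S, kap V k * (f y * (uu G k x l y * uu G k x r y)) =
      ∑ w ∈ T G k l x, ∑ w' ∈ T G k r x, ∑ y ∈ S.filter (fun y => G.Adj w y ∧ G.Adj w' y),
        kap V k * (kap V k * kap V k) * f y := by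
  have e1 : ∀ y, kap V k * (f y * (uu G k x l y * uu G k x r y)) =
      ∑ w ∈ T G k l x, ∑ w' ∈ T G k r x, (if G.Adj w y ∧ G.Adj w' y then
        kap V k * (kap V k * kap V k) * f y else 0) := by
    intro y
    simp_rw [uu, mu_eq_sum, sum_filter, sum_mul_sum, mul_sum]
    refine sum_congr rfl fun w _ => sum_congr rfl fun w' _ => ?_
    by_cases a1 : G.Adj w y <;> by_cases a2 : G.Adj w' y <;> simp [a1, a2]
    ring
  rw [sum_congr rfl fun y _ => e1 y, sum_comm]
  refine sum_congr rfl fun w _ => ?_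
  rw [sum_comm]
  refine sum_congr rfl fun w' _ => ?_
  rw [sum_filter]

/-- the inner sum over the vertices of the upper type -/
def PU (G : SimpleGraph V) (k : ℕ) [NeZero k] (c l r : ZMod k) (phiUp : (ZMod k → V) → V → ℝ)
    (x : ZMod k → V) (w w' : V) : ℝ :=
  ∑ y ∈ (YT G k x {l, c, r}).filter (fun y => ¬ G.Adj w y ∧ ¬ G.Adj w' y),
    kap V k * (kap V k * kap V k) * phiUp x y

lemma types_swap {c l r : ZMod k} (hlc : l ≠ c) (hrc : r ≠ c) (hlr : l ≠ r)
    (x : ZMod k → V) (v v' y : V) :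
    (Ty G k (Function.update (Function.update x r v') l v) y = {l, c, r} ∧
      ¬ G.Adj (x l) y ∧ ¬ G.Adj (x r) y) ↔
      (Ty G k x y = {c} ∧ G.Adj v y ∧ G.Adj v' y) := by
  have hi : ∀ i, i ∈ Ty G k x y ↔ G.Adj (x i) y := fun i => by simp [Ty]
  have hu : ∀ i, i ∈ Ty G k (Function.update (Function.update x r v') l v) y ↔
      (if i = l then G.Adj v y else if i = r then G.Adj v' y else i ∈ Ty G k x y) := by
    intro i
    rw [mem_Ty_update, mem_Ty_update]
  constructor
  · rintro ⟨hy, hyl, hyr⟩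
    have hl : G.Adj v y := by
      have := hu l
      rw [hy, if_pos rfl] at this
      exact this.1 (by simp)
    have hr : G.Adj v' y := by
      have := hu r
      rw [hy, if_neg hlr.symm, if_pos rfl] at this
      exact this.1 (by simp)
    refine ⟨?_, hl, hr⟩
    ext i
    rw [mem_singleton]
    by_cases hil : i = l
    · subst hil
      exact ⟨fun h => absurd ((hi _).1 h) hyl, fun h => absurd h hlc⟩
    · by_cases hir : i = r
      · subst hir
        exact ⟨fun h => absurd ((hi _).1 h) hyr, fun h => absurd h hrc⟩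
      · have := hu i
        rw [if_neg hil, if_neg hir, hy, mem_insert, mem_insert, mem_singleton] at this
        rw [← this]
        constructor
        · rintro (h | h | h)
          · exact absurd h hil
          · exact h
          · exact absurd h hir
        · intro h; right; left; exact h
  · rintro ⟨hy, hl, hr⟩
    refine ⟨?_, ?_, ?_⟩
    · ext i
      rw [hu i, mem_insert, mem_insert, mem_singleton]
      by_cases hil : i = l
      · rw [if_pos hil]
        exact ⟨fun _ => Or.inl hil, fun _ => hl⟩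
      · rw [if_neg hil]
        by_cases hir : i = r
        · rw [if_pos hir]
          exact ⟨fun _ => Or.inr (Or.inr hir), fun _ => hr⟩
        · rw [if_neg hir, hy, mem_singleton]
          constructor
          · intro h; right; left; exact h
          · rintro (h | h | h)
            · exact absurd h hil
            · exact h
            · exact absurd h hir
    · rw [← hi, hy, mem_singleton]; exact hlc
    · rw [← hi, hy, mem_singleton]; exact hrc

lemma PU_update {c l r : ZMod k} (hlc : l ≠ c) (hrc : r ≠ c) (hlr : l ≠ r)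
    (phiUp : (ZMod k → V) → V → ℝ) (x : ZMod k → V) (v v' : V) :
    PU G k c l r phiUp (Function.update (Function.update x r v') l v) (x l) (x r) =
      ∑ y ∈ (YT G k x {c}).filter (fun y => G.Adj v y ∧ G.Adj v' y),
        kap V k * (kap V k * kap V k) *
          phiUp (Function.update (Function.update x r v') l v) y := by
  unfold PU
  refine sum_congr ?_ fun _ _ => rfl
  ext y
  rw [mem_filter, mem_filter, YT, YT, mem_filter, mem_filter]
  have := types_swap (G := G) hlc hrc hlr x v v' y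
  constructor
  · rintro ⟨⟨_, h1⟩, h2⟩
    have := this.1 ⟨h1, h2⟩
    exact ⟨⟨mem_univ _, this.1⟩, this.2⟩
  · rintro ⟨⟨_, h1⟩, h2⟩
    have := this.2 ⟨h1, h2⟩
    exact ⟨⟨mem_univ _, this.1⟩, this.2⟩

/-- **pair identity** (inequality form).  The state `{l, c, r}` receives `phiUp` per unit of
`D_l D_r`, the state `{c}` pays `phiLow` per unit of `u_l u_r`; the adjacent pairs of candidates
are the sum `EE`. -/
theorem pair_le (hk : 6 ≤ k) (tf : ∀ a b c : V, G.Adj a b → G.Adj b c → ¬ G.Adj a c)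
    {c l r : ZMod k} (hlc : l ≠ c) (hrc : r ≠ c) (hlr : l ≠ r) (h1 : l ≠ r - 1) (h2 : l ≠ r + 1)
    (phiUp phiLow : (ZMod k → V) → V → ℝ) (B : ℝ)
    (hB : ∀ x ∈ Cyc G k, ∀ y, phiUp x y ≤ B)
    (h : ∀ x ∈ Cyc G k, ∀ v ∈ T G k l x, ∀ v' ∈ T G k r x, ∀ y, Ty G k x y = {c} →
      G.Adj v y → G.Adj v' y →
      phiUp (Function.update (Function.update x r v') l v) y ≤ phiLow x y) :
    ∑ x ∈ Cyc G k, ∑ y ∈ YT G k x {l, c, r},
        kap V k * (phiUp x y * (DD G k x l y * DD G k x r y)) ≤
      ∑ x ∈ Cyc G k, ∑ y ∈ YT G k x {c}, kap V k * (phiLow x y * (uu G k x l y * uu G k x r y)) +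
        B * EE G k c l r := by
  have hk5 : 5 ≤ k := by omega
  have hk3 : 0 ≤ kap V k * (kap V k * kap V k) :=
    mul_nonneg kap_nonneg' (mul_nonneg kap_nonneg' kap_nonneg')
  have hL : ∑ x ∈ Cyc G k, ∑ y ∈ YT G k x {l, c, r},
        kap V k * (phiUp x y * (DD G k x l y * DD G k x r y)) =
      ∑ x ∈ Cyc G k, ∑ w ∈ T G k l x, ∑ w' ∈ T G k r x, PU G k c l r phiUp x w w' :=
    sum_congr rfl fun x _ => expandD (YT G k x {l, c, r}) x l r (fun y => phiUp x y)
  have hR : ∑ x ∈ Cyc G k, ∑ y ∈ YT G k x {c},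
        kap V k * (phiLow x y * (uu G k x l y * uu G k x r y)) =
      ∑ x ∈ Cyc G k, ∑ v ∈ T G k l x, ∑ v' ∈ T G k r x,
        ∑ y ∈ (YT G k x {c}).filter (fun y => G.Adj v y ∧ G.Adj v' y),
          kap V k * (kap V k * kap V k) * phiLow x y :=
    sum_congr rfl fun x _ => expandU (YT G k x {c}) x l r (fun y => phiLow x y)
  rw [hL, hR]
  -- split by adjacency of the candidates
  have hsplit : ∀ x ∈ Cyc G k, ∑ w ∈ T G k l x, ∑ w' ∈ T G k r x, PU G k c l r phiUp x w w' ≤
      ∑ w ∈ T G k l x, ∑ w' ∈ (T G k r x).filter (fun w' => ¬ G.Adj w w'),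
        PU G k c l r phiUp x w w' +
      B * ∑ w ∈ T G k l x, ∑ w' ∈ (T G k r x).filter (fun w' => G.Adj w w'),
        ∑ _y ∈ (YT G k x {l, c, r}).filter (fun y => ¬ G.Adj w y ∧ ¬ G.Adj w' y),
          kap V k * (kap V k * kap V k) := by
    intro x hx
    rw [mul_sum, ← sum_add_distrib]
    refine sum_le_sum fun w _ => ?_
    rw [← sum_filter_add_sum_filter_not (T G k r x) (fun w' => G.Adj w w'), add_comm]
    refine add_le_add le_rfl ?_
    rw [mul_sum]
    refine sum_le_sum fun w' _ => ?_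
    unfold PU
    rw [mul_sum]
    refine sum_le_sum fun y _ => ?_
    have := mul_le_mul_of_nonneg_left (hB x hx y) hk3
    linarith
  refine (sum_le_sum hsplit).trans ?_
  rw [sum_add_distrib, ← mul_sum]
  refine add_le_add ?_ le_rfl
  refine (double_swap hk5 tf hlr h1 h2 (PU G k c l r phiUp)).le.trans ?_
  refine sum_le_sum fun x hx => sum_le_sum fun v hv => ?_
  have hzero : ∀ v' ∈ T G k r x, v' ∉ (T G k r x).filter (fun v' => ¬ G.Adj v v') →
      ∑ y ∈ (YT G k x {c}).filter (fun y => G.Adj v y ∧ G.Adj v' y),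
        kap V k * (kap V k * kap V k) * phiLow x y = 0 := by
    intro v' hv' hn
    rw [mem_filter] at hn
    have hadj : G.Adj v v' := by
      by_contra hna
      exact hn ⟨hv', hna⟩
    refine sum_eq_zero fun y hy => ?_
    rw [mem_filter] at hy
    exact absurd hy.2.1 (tf v v' y hadj hy.2.2)
  rw [← sum_subset (filter_subset _ _) hzero]
  refine sum_le_sum fun v' hv' => ?_
  rw [PU_update hlc hrc hlr phiUp x v v']
  refine sum_le_sum fun y hy => ?_
  rw [mem_filter] at hy hv'
  have hy1 : Ty G k x y = {c} := by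
    have := hy.1
    rw [YT, mem_filter] at this
    exact this.2
  exact mul_le_mul_of_nonneg_left (h x hx v hv v' hv'.1 y hy1 hy.2.1 hy.2.2) hk3

lemma EE_nonneg (c l r : ZMod k) : 0 ≤ EE G k c l r := by
  unfold EE
  have hk3 : 0 ≤ kap V k * (kap V k * kap V k) :=
    mul_nonneg kap_nonneg' (mul_nonneg kap_nonneg' kap_nonneg')
  exact sum_nonneg fun _ _ => sum_nonneg fun _ _ => sum_nonneg fun _ _ => sum_nonneg fun _ _ => hk3

/-- `EE` is symmetric in the two outer positions -/
lemma EE_symm (c l r : ZMod k) : EE G k c l r = EE G k c r l := by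
  unfold EE
  refine sum_congr rfl fun x _ => ?_
  simp_rw [sum_filter (s := T G k r x), sum_filter (s := T G k l x)]
  rw [sum_comm]
  refine sum_congr rfl fun w' _ => sum_congr rfl fun w _ => ?_
  have e : ({l, c, r} : Finset (ZMod k)) = {r, c, l} := by
    ext i; simp; tauto
  rw [e, G.adj_comm w w']
  by_cases h3 : G.Adj w' w
  · rw [if_pos h3, if_pos h3]
    refine sum_congr ?_ fun _ _ => rfl
    ext y
    simp only [mem_filter]
    tauto
  · rw [if_neg h3, if_neg h3]

/-- **the pair identity for `{c - 2, c, c + 2}`** with one-vertex corrections -/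
theorem pair_identity (hk : 6 ≤ k) (tf : ∀ a b c : V, G.Adj a b → G.Adj b c → ¬ G.Adj a c)
    (c : ZMod k) (phiUp phiLow : (ZMod k → V) → V → ℝ) (B : ℝ) (hB0 : 0 ≤ B)
    (hB : ∀ x ∈ Cyc G k, ∀ y, phiUp x y ≤ B)
    (h : ∀ x ∈ Cyc G k, ∀ v ∈ T G k (c - 2) x, ∀ v' ∈ T G k (c + 2) x, ∀ y,
      Ty G k x y = {c} → G.Adj v y → G.Adj v' y →
      phiUp (Function.update (Function.update x (c + 2) v') (c - 2) v) y ≤ phiLow x y) :
    ∑ x ∈ Cyc G k, ∑ y ∈ YT G k x {c - 2, c, c + 2},
        kap V k * (phiUp x y * (DD G k x (c - 2) y * DD G k x (c + 2) y)) ≤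
      ∑ x ∈ Cyc G k, (∑ y ∈ YT G k x {c},
          kap V k * (phiLow x y * (uu G k x (c - 2) y * uu G k x (c + 2) y)) +
        B / 2 * ∑ z ∈ YT G k x {c + 1, c + 3, c - 2},
          kap V k * (DD G k x (c - 2) z * DD G k x (c + 1) z) +
        B / 2 * ∑ z ∈ YT G k x {c - 3, c - 1, c + 2},
          kap V k * (DD G k x (c + 2) z * DD G k x (c - 1) z)) := by
  have n1 : c - 2 ≠ c := by
    have := shift_ne hk c (a := -2) (b := 0) (by norm_num) (by norm_num)
    push_cast at this
    simpa [sub_eq_add_neg] using this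
  have n2 : c + 2 ≠ c := by
    have := shift_ne hk c (a := 2) (b := 0) (by norm_num) (by norm_num)
    push_cast at this
    simpa using this
  have n3 : c - 2 ≠ c + 2 := by
    have := shift_ne hk c (a := -2) (b := 2) (by norm_num) (by norm_num)
    push_cast at this
    simpa [sub_eq_add_neg] using this
  have n4 : c - 2 ≠ c + 2 - 1 := by
    have := shift_ne hk c (a := -2) (b := 1) (by norm_num) (by norm_num)
    push_cast at this
    intro h
    apply this
    rw [← sub_eq_add_neg, h]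
    ring
  have n5 : c - 2 ≠ c + 2 + 1 := by
    have := shift_ne hk c (a := -2) (b := 3) (by norm_num) (by norm_num)
    push_cast at this
    intro h
    apply this
    rw [← sub_eq_add_neg, h]
    ring
  have n4' : c + 2 ≠ c - 2 - 1 := fun h => n5 (by rw [h]; ring)
  have n5' : c + 2 ≠ c - 2 + 1 := fun h => n4 (by rw [h]; ring)
  have hp := pair_le hk tf n1 n2 n3 n4 n5 phiUp phiLow B hB h
  have q1 := EE_le (G := G) hk tf (c := c) (l := c - 2) (r := c + 2) (m := c + 1) n1 n3 n4 n5
    (by ext i; simp; constructor <;> (rintro (h | h) <;> [left; right]) <;> rw [h] <;> ring)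
  have q2 := EE_le (G := G) hk tf (c := c) (l := c + 2) (r := c - 2) (m := c - 1) n2 n3.symm
    n4' n5' (by
      ext i
      simp only [mem_insert, mem_singleton]
      constructor
      · rintro (h | h)
        · right; rw [h]; ring
        · left; rw [h]; ring
      · rintro (h | h)
        · right; rw [h]; ring
        · left; rw [h]; ring)
  rw [EE_symm c (c + 2) (c - 2)] at q2
  have a1 : ({c + 2 - 1, c + 2 + 1, c - 2} : Finset (ZMod k)) = {c + 1, c + 3, c - 2} := by
    have e1 : c + 2 - 1 = c + 1 := by ring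
    have e2 : c + 2 + 1 = c + 3 := by ring
    rw [e1, e2]
  have a2 : ({c - 2 - 1, c - 2 + 1, c + 2} : Finset (ZMod k)) = {c - 3, c - 1, c + 2} := by
    have e1 : c - 2 - 1 = c - 3 := by ring
    have e2 : c - 2 + 1 = c - 1 := by ring
    rw [e1, e2]
  rw [a1] at q1
  rw [a2] at q2
  simp only [sum_add_distrib, ← mul_sum]
  have q3 : B * EE G k c (c - 2) (c + 2) ≤ B / 2 * (∑ x ∈ Cyc G k,
      ∑ z ∈ YT G k x {c + 1, c + 3, c - 2},
        kap V k * (DD G k x (c - 2) z * DD G k x (c + 1) z)) +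
      B / 2 * (∑ x ∈ Cyc G k, ∑ z ∈ YT G k x {c - 3, c - 1, c + 2},
        kap V k * (DD G k x (c + 2) z * DD G k x (c - 1) z)) := by
    have w1 := mul_le_mul_of_nonneg_left q1 (by positivity : (0 : ℝ) ≤ B / 2)
    have w2 := mul_le_mul_of_nonneg_left q2 (by positivity : (0 : ℝ) ≤ B / 2)
    linarith
  simp only [mul_sum] at hp q3 ⊢
  linarith

end

end Pool.Agent.ICyc.D
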