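import Pool.Agent.Lib.MP_131fce_co.D.KStar

/-!
# Induced k-cycles in triangle-free graphs: scalar inequalities of the position lemma

`c ↦ 1 - kk c` is subadditive, `1 - kk (JJ t) = 1 - t` for `0 < t ≤ 1`, and a Young inequality.
-/

set_option autoImplicit false

namespace Pool.Agent.ICyc.D

open Finset Pool.Agent.ICyc
open scoped Classical

lemma kk_JJ {t : ℝ} (h0 : 0 < t) (h1 : t ≤ 1) : kk (JJ t) = t :=
  le_antisymm (kk_le (JJ_nonneg h0) h0 le_rfl) (le_kk (JJ_nonneg h0) h1 le_rfl)

/-- `1 - kk` is subadditive -/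
lemma one_sub_kk_add {c c' : ℝ} (hc : 0 ≤ c) (hc' : 0 ≤ c') :
    1 - kk (c + c') ≤ (1 - kk c) + (1 - kk c') := by
  have h1 := kk_pos c
  have h2 := kk_pos c'
  have h3 := kk_le_one c
  have h4 := kk_le_one c'
  rcases le_or_gt (kk c + kk c' - 1) 0 with h | h
  · have := kk_pos (c + c')
    linarith
  · have h5 : kk c + kk c' - 1 ≤ kk (c + c') := by
      refine le_kk (by positivity) (by linarith) ?_
      have e1 := JJ_kk hc
      have e2 := JJ_kk hc'
      have h6 : Real.log (kk c + kk c' - 1) ≤ Real.log (kk c * kk c') := by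
        refine Real.log_le_log h ?_
        nlinarith
      rw [Real.log_mul h1.ne' h2.ne'] at h6
      unfold JJ at e1 e2 ⊢
      linarith
    linarith

/-- `t - log (1 + t) ≤ t ^ 2 / 2` -/
lemma JJ_one_add_le {t : ℝ} (ht : 0 ≤ t) : JJ (1 + t) ≤ t ^ 2 / 2 := by
  unfold JJ
  have hmono : MonotoneOn (fun t : ℝ => t ^ 2 / 2 - t + Real.log (1 + t)) (Set.Ici 0) := by
    have hd : ∀ y : ℝ, 0 ≤ y → HasDerivAt (fun t : ℝ => t ^ 2 / 2 - t + Real.log (1 + t))
        (y - 1 + 1 / (1 + y)) y := by
      intro y hy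
      have hy0 : (1 : ℝ) + y ≠ 0 := by positivity
      have a1 : HasDerivAt (fun t : ℝ => t ^ 2 / 2) y y := by
        have := ((hasDerivAt_id y).pow 2).div_const 2
        refine this.congr_deriv ?_
        simp
      have a2 : HasDerivAt (fun t : ℝ => Real.log (1 + t)) (1 / (1 + y)) y := by
        have := ((hasDerivAt_id y).const_add (1 : ℝ)).log hy0
        simpa using this
      exact (a1.sub (hasDerivAt_id y)).add a2
    refine monotoneOn_of_deriv_nonneg (convex_Ici 0) ?_ ?_ ?_
    · exact fun y hy => (hd y hy).continuousAt.continuousWithinAt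
    · intro y hy
      rw [interior_Ici] at hy
      exact (hd y (le_of_lt hy)).differentiableAt.differentiableWithinAt
    · intro y hy
      rw [interior_Ici] at hy
      have hy0 : (0 : ℝ) ≤ y := le_of_lt hy
      rw [(hd y hy0).deriv]
      have e : y - 1 + 1 / (1 + y) = y ^ 2 / (1 + y) := by
        field_simp
        ring
      rw [e]
      positivity
  have h := hmono (Set.mem_Ici.2 le_rfl) (Set.mem_Ici.2 ht) ht
  simp only at h
  norm_num at h
  linarith

/-- `s ^ 2 / 2 ≤ JJ (1 - s)` -/
lemma JJ_one_sub_ge {s : ℝ} (h0 : 0 ≤ s) (h1 : s < 1) : s ^ 2 / 2 ≤ JJ (1 - s) := by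
  unfold JJ
  have hmono : MonotoneOn (fun t : ℝ => -t - t ^ 2 / 2 - Real.log (1 - t)) (Set.Ico 0 1) := by
    have hd : ∀ y : ℝ, y < 1 → HasDerivAt (fun t : ℝ => -t - t ^ 2 / 2 - Real.log (1 - t))
        (-1 - y + 1 / (1 - y)) y := by
      intro y hy
      have hy0 : (1 : ℝ) - y ≠ 0 := by
        have : 0 < 1 - y := by linarith
        exact this.ne'
      have a1 : HasDerivAt (fun t : ℝ => t ^ 2 / 2) y y := by
        have := ((hasDerivAt_id y).pow 2).div_const 2
        refine this.congr_deriv ?_
        simp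
      have a2 : HasDerivAt (fun t : ℝ => Real.log (1 - t)) (-1 / (1 - y)) y := by
        have := ((hasDerivAt_id y).const_sub (1 : ℝ)).log hy0
        simpa using this
      have a3 := ((hasDerivAt_id y).neg.sub a1).sub a2
      refine a3.congr_deriv ?_
      ring
    refine monotoneOn_of_deriv_nonneg (convex_Ico 0 1) ?_ ?_ ?_
    · exact fun y hy => (hd y hy.2).continuousAt.continuousWithinAt
    · intro y hy
      rw [interior_Ico] at hy
      exact (hd y hy.2).differentiableAt.differentiableWithinAt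
    · intro y hy
      rw [interior_Ico] at hy
      rw [(hd y hy.2).deriv]
      have hy1 : 0 < 1 - y := by linarith [hy.2]
      have e : -1 - y + 1 / (1 - y) = y ^ 2 / (1 - y) := by
        field_simp
        ring
      rw [e]
      positivity
  have h := hmono (Set.mem_Ico.2 ⟨le_rfl, one_pos⟩) (Set.mem_Ico.2 ⟨h0, h1⟩) h0
  simp only at h
  norm_num at h
  linarith

/-- the part above `1` -/
lemma one_sub_kk_half {t : ℝ} (ht : 0 ≤ t) : 1 - kk (JJ (1 + t) / 2) ≤ 71 / 100 * t := by
  have h0 := JJ_nonneg (show 0 < 1 + t by linarith)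
  rcases le_or_gt 1 (71 / 100 * t) with h | h
  · have := kk_pos (JJ (1 + t) / 2)
    linarith
  · have h1 : 1 - 71 / 100 * t ≤ kk (JJ (1 + t) / 2) := by
      refine le_kk (by positivity) (by linarith [mul_nonneg (show (0 : ℝ) ≤ 71 / 100 by norm_num) ht]) ?_
      have h2 := JJ_one_add_le ht
      have h3 := JJ_one_sub_ge (s := 71 / 100 * t) (by positivity) h
      nlinarith [sq_nonneg t]
    linarith

/-- Young inequality for `1 - kk` -/
lemma young_kk {v S al : ℝ} (hv : 0 ≤ v) (hS : 0 ≤ S) (hal : 0 < al) :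
    (1 - kk v) * S ≤ al * v + S - al * Real.log (1 + S / al) := by
  have h1 := kk_pos v
  have e1 := JJ_kk hv
  have hz : 0 < 1 + S / al := by positivity
  have h2 := JJ_nonneg (mul_pos h1 hz)
  have h3 : 0 ≤ al * JJ (kk v * (1 + S / al)) := mul_nonneg hal.le h2
  have e2 : al * JJ (kk v * (1 + S / al)) =
      al * (kk v - 1 - Real.log (kk v)) + kk v * S - al * Real.log (1 + S / al) := by
    unfold JJ
    rw [Real.log_mul h1.ne' hz.ne']
    field_simp
    ring
  rw [e2] at h3
  unfold JJ at e1
  rw [e1] at h3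
  linarith

lemma cL_three (t : ℝ) : cL 3 t = 2 * JJ (min 1 t) + JJ (max 1 t) := by
  unfold cL
  norm_num

lemma one_sub_kk_JJ_min {t s : ℝ} (ht : 0 < t) (hs : s ≤ t) :
    1 - kk (JJ (min 1 t)) ≤ max 0 (1 - s) := by
  rw [kk_JJ (lt_min one_pos ht) (min_le_left _ _)]
  rcases le_total 1 t with h | h
  · rw [min_eq_left h]
    simp
  · rw [min_eq_right h]
    exact le_max_of_le_right (by linarith)

lemma one_sub_kk_JJ_max {t : ℝ} : 1 - kk (JJ (max 1 t) / 2) ≤ 71 / 100 * max 0 (t - 1) := by
  rcases le_total 1 t with h | h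
  · rw [max_eq_right h, max_eq_right (by linarith)]
    have := one_sub_kk_half (t := t - 1) (by linarith)
    rwa [add_sub_cancel] at this
  · rw [max_eq_left h, max_eq_left (by linarith), JJ_one, zero_div, kk_zero]
    norm_num

/-- linear bound of `1 - kk` for the costs of the window length `L = 3` -/
lemma one_sub_kk_cL {f f' s s' : ℝ} (hf : 0 < f) (hf' : 0 < f') (hs : s ≤ f) (hs' : s' ≤ f') :
    1 - kk ((cL 3 f + cL 3 f') / 2) ≤ max 0 (1 - s) + max 0 (1 - s') +
      71 / 100 * (max 0 (f - 1) + max 0 (f' - 1)) := by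
  have a1 := JJ_nonneg (lt_min one_pos hf)
  have a2 := JJ_nonneg (lt_min one_pos hf')
  have a3 := JJ_nonneg (lt_of_lt_of_le one_pos (le_max_left 1 f))
  have a4 := JJ_nonneg (lt_of_lt_of_le one_pos (le_max_left 1 f'))
  have e : (cL 3 f + cL 3 f') / 2 =
      (JJ (min 1 f) + JJ (min 1 f')) + (JJ (max 1 f) / 2 + JJ (max 1 f') / 2) := by
    rw [cL_three, cL_three]
    ring
  rw [e]
  have h1 := one_sub_kk_add (c := JJ (min 1 f) + JJ (min 1 f'))
    (c' := JJ (max 1 f) / 2 + JJ (max 1 f') / 2) (by positivity) (by positivity)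
  have h2 := one_sub_kk_add (c := JJ (min 1 f)) (c' := JJ (min 1 f')) a1 a2
  have h3 := one_sub_kk_add (c := JJ (max 1 f) / 2) (c' := JJ (max 1 f') / 2)
    (by positivity) (by positivity)
  have h4 := one_sub_kk_JJ_min hf hs
  have h5 := one_sub_kk_JJ_min hf' hs'
  have h6 := one_sub_kk_JJ_max (t := f)
  have h7 := one_sub_kk_JJ_max (t := f')
  linarith

/-- `2 (b - a) / (b + a) ≤ log b - log a` -/
lemma pa_log {a b : ℝ} (ha : 0 < a) (hb : a ≤ b) :
    2 * (b - a) / (b + a) ≤ Real.log b - Real.log a := by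
  have hmono : MonotoneOn (fun t : ℝ => Real.log t - 2 * (t - a) / (t + a)) (Set.Ici a) := by
    have hd : ∀ y : ℝ, a ≤ y → HasDerivAt (fun t : ℝ => Real.log t - 2 * (t - a) / (t + a))
        (1 / y - 4 * a / (y + a) ^ 2) y := by
      intro y hy
      have hy0 : 0 < y := lt_of_lt_of_le ha hy
      have a1 := Real.hasDerivAt_log hy0.ne'
      have a2 : HasDerivAt (fun t : ℝ => 2 * (t - a)) 2 y := by
        have := ((hasDerivAt_id y).sub_const a).const_mul (2 : ℝ)
        simpa using this
      have a3 : HasDerivAt (fun t : ℝ => t + a) 1 y := (hasDerivAt_id y).add_const a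
      have a4 := a2.div a3 (by positivity)
      refine (a1.sub a4).congr_deriv ?_
      field_simp
      ring
    refine monotoneOn_of_deriv_nonneg (convex_Ici a) ?_ ?_ ?_
    · exact fun y hy => (hd y hy).continuousAt.continuousWithinAt
    · intro y hy
      rw [interior_Ici] at hy
      exact (hd y (le_of_lt hy)).differentiableAt.differentiableWithinAt
    · intro y hy
      rw [interior_Ici] at hy
      have hy1 : a ≤ y := le_of_lt hy
      have hy0 : 0 < y := lt_of_lt_of_le ha hy1
      rw [(hd y hy1).deriv, sub_nonneg, div_le_div_iff₀ (by positivity) hy0]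
      nlinarith [sq_nonneg (y - a)]
  have h := hmono (Set.mem_Ici.2 le_rfl) (Set.mem_Ici.2 hb) hb
  simp only at h
  rw [sub_self, mul_zero, zero_div, sub_zero] at h
  linarith

/-- the row inequality, abstract form: the derivative of
`del s + (1 - 2 al) JJ (1 - s) - s + al log (1 + s / al)` changes sign at `r1` and `r2` -/
lemma row_abs {al del r1 r2 c : ℝ} (hal : 0 < al) (hr1 : 0 ≤ r1) (hr : r1 ≤ r2) (hr2 : r2 < 1)
    (hc : 0 ≤ c)
    (hN : ∀ s : ℝ, del * ((1 - s) * (s + al)) + (1 - 2 * al) * (s * (s + al)) - s * (1 - s) =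
      c * ((s - r1) * (s - r2)))
    (h2 : 0 ≤ del * r2 + (1 - 2 * al) * JJ (1 - r2) - r2 + al * Real.log (1 + r2 / al))
    {s : ℝ} (h0 : 0 ≤ s) (h1 : s < 1) :
    (2 * al - 1) * JJ (1 - s) + s - al * Real.log (1 + s / al) ≤ del * s := by
  set f : ℝ → ℝ := fun t => del * t + (1 - 2 * al) * (-t - Real.log (1 - t)) - t +
    al * Real.log (1 + t / al) with hf
  have hfs : ∀ t : ℝ, f t = del * t + (1 - 2 * al) * JJ (1 - t) - t +
      al * Real.log (1 + t / al) := by
    intro t
    rw [hf]
    dsimp only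
    unfold JJ
    ring
  have hd : ∀ y : ℝ, 0 ≤ y → y < 1 → HasDerivAt f
      (c * ((y - r1) * (y - r2)) / ((1 - y) * (y + al))) y := by
    intro y hy0 hy1
    have e1 : (1 : ℝ) - y ≠ 0 := by
      have : 0 < 1 - y := by linarith
      exact this.ne'
    have e2 : (1 : ℝ) + y / al ≠ 0 := by positivity
    have a1 : HasDerivAt (fun t : ℝ => Real.log (1 - t)) (-1 / (1 - y)) y := by
      have := ((hasDerivAt_id y).const_sub (1 : ℝ)).log e1
      simpa using this
    have a2 : HasDerivAt (fun t : ℝ => Real.log (1 + t / al)) (1 / al / (1 + y / al)) y := by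
      have := (((hasDerivAt_id y).div_const al).const_add (1 : ℝ)).log e2
      simpa using this
    have a3 := ((((hasDerivAt_id y).const_mul del).add
      (((hasDerivAt_id y).neg.sub a1).const_mul (1 - 2 * al))).sub (hasDerivAt_id y)).add
      (a2.const_mul al)
    refine a3.congr_deriv ?_
    rw [← hN y]
    have e3 : y + al ≠ 0 := by positivity
    field_simp
    ring
  have hcont : ∀ y : ℝ, 0 ≤ y → y < 1 → ContinuousAt f y := fun y a b => (hd y a b).continuousAt
  have hf0 : f 0 = 0 := by
    rw [hf]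
    norm_num
  have hf2 : 0 ≤ f r2 := by rw [hfs]; exact h2
  have key : 0 ≤ f s := by
    rcases le_total s r1 with hs1 | hs1
    · have hm : MonotoneOn f (Set.Icc 0 r1) := by
        refine monotoneOn_of_deriv_nonneg (convex_Icc 0 r1) ?_ ?_ ?_
        · exact fun y hy => (hcont y hy.1 (by linarith [hy.2])).continuousWithinAt
        · intro y hy
          rw [interior_Icc] at hy
          exact (hd y hy.1.le (by linarith [hy.2])).differentiableAt.differentiableWithinAt
        · intro y hy
          rw [interior_Icc] at hy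
          have b1 : y < 1 := by linarith [hy.2]
          rw [(hd y hy.1.le b1).deriv]
          have b2 : 0 ≤ (y - r1) * (y - r2) :=
            mul_nonneg_of_nonpos_of_nonpos (by linarith [hy.2]) (by linarith [hy.2])
          have b3 : 0 < (1 - y) * (y + al) := mul_pos (by linarith) (by linarith [hy.1])
          exact div_nonneg (mul_nonneg hc b2) b3.le
      have := hm (Set.mem_Icc.2 ⟨le_rfl, hr1⟩) (Set.mem_Icc.2 ⟨h0, hs1⟩) h0
      rw [hf0] at this
      exact this
    · rcases le_total s r2 with hs2 | hs2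
      · have hm : AntitoneOn f (Set.Icc r1 r2) := by
          refine antitoneOn_of_deriv_nonpos (convex_Icc r1 r2) ?_ ?_ ?_
          · exact fun y hy => (hcont y (hr1.trans hy.1) (by linarith [hy.2])).continuousWithinAt
          · intro y hy
            rw [interior_Icc] at hy
            exact (hd y (by linarith [hy.1]) (by linarith [hy.2])).differentiableAt.differentiableWithinAt
          · intro y hy
            rw [interior_Icc] at hy
            have b0 : 0 ≤ y := by linarith [hy.1]
            have b1 : y < 1 := by linarith [hy.2]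
            rw [(hd y b0 b1).deriv]
            have b2 : (y - r1) * (y - r2) ≤ 0 :=
              mul_nonpos_of_nonneg_of_nonpos (by linarith [hy.1]) (by linarith [hy.2])
            have b3 : 0 < (1 - y) * (y + al) := mul_pos (by linarith) (by linarith)
            exact div_nonpos_of_nonpos_of_nonneg (mul_nonpos_of_nonneg_of_nonpos hc b2) b3.le
        exact hf2.trans (hm (Set.mem_Icc.2 ⟨hs1, hs2⟩) (Set.mem_Icc.2 ⟨hr, le_rfl⟩) hs2)
      · have hm : MonotoneOn f (Set.Ico r2 1) := by
          refine monotoneOn_of_deriv_nonneg (convex_Ico r2 1) ?_ ?_ ?_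
          · exact fun y hy => (hcont y (by linarith [hy.1]) hy.2).continuousWithinAt
          · intro y hy
            rw [interior_Ico] at hy
            exact (hd y (by linarith [hy.1]) hy.2).differentiableAt.differentiableWithinAt
          · intro y hy
            rw [interior_Ico] at hy
            have b0 : 0 ≤ y := by linarith [hy.1]
            rw [(hd y b0 hy.2).deriv]
            have b2 : 0 ≤ (y - r1) * (y - r2) :=
              mul_nonneg (by linarith [hy.1]) (by linarith [hy.1])
            have b3 : 0 < (1 - y) * (y + al) := mul_pos (by linarith [hy.2]) (by linarith)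
            exact div_nonneg (mul_nonneg hc b2) b3.le
        exact hf2.trans (hm (Set.mem_Ico.2 ⟨le_rfl, hr2⟩) (Set.mem_Ico.2 ⟨hs2, h1⟩) hs2)
  rw [hfs] at key
  linarith

/-- the row inequality, `al = 3 / 10`, slope `3 / 10` -/
lemma row_three {s : ℝ} (h0 : 0 ≤ s) (h1 : s < 1) :
    (2 * (3 / 10) - 1) * JJ (1 - s) + s - 3 / 10 * Real.log (1 + s / (3 / 10)) ≤ 3 / 10 * s := by
  refine row_abs (al := 3 / 10) (del := 3 / 10) (r1 := 1 / 5) (r2 := 9 / 22) (c := 11 / 10)
    (by norm_num) (by norm_num) (by norm_num) (by norm_num) (by norm_num) (fun s => by ring) ?_ h0 h1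
  have a1 := pa_log (a := 13) (b := 22) (by norm_num) (by norm_num)
  have a2 := pa_log (a := 11) (b := 13) (by norm_num) (by norm_num)
  have a3 := Real.log_two_gt_d9
  have e1 : Real.log (1 - 9 / 22) = Real.log 13 - Real.log 22 := by
    rw [← Real.log_div (by norm_num) (by norm_num)]
    norm_num
  have e2 : Real.log (1 + 9 / 22 / (3 / 10)) = Real.log 2 + Real.log 13 - Real.log 11 := by
    rw [← Real.log_mul (by norm_num) (by norm_num), ← Real.log_div (by norm_num) (by norm_num)]
    norm_num
  unfold JJ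
  rw [e1, e2]
  norm_num at a1 a2
  linarith

/-- the row inequality, `al = 1 / 4`, slope `3 / 10` -/
lemma row_quarter {s : ℝ} (h0 : 0 ≤ s) (h1 : s < 1) :
    (2 * (1 / 4) - 1) * JJ (1 - s) + s - 1 / 4 * Real.log (1 + s / (1 / 4)) ≤ 3 / 10 * s := by
  refine row_abs (al := 1 / 4) (del := 3 / 10) (r1 := 1 / 6) (r2 := 3 / 8) (c := 6 / 5)
    (by norm_num) (by norm_num) (by norm_num) (by norm_num) (by norm_num) (fun s => by ring) ?_ h0 h1
  have a1 := pa_log (a := 5) (b := 8) (by norm_num) (by norm_num)
  have a2 := pa_log (a := 4) (b := 5) (by norm_num) (by norm_num)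
  have a3 := Real.log_two_gt_d9
  have e1 : Real.log (1 - 3 / 8) = Real.log 5 - Real.log 8 := by
    rw [← Real.log_div (by norm_num) (by norm_num)]
    norm_num
  have e2 : Real.log (1 + 3 / 8 / (1 / 4)) = Real.log 2 + Real.log 5 - Real.log 4 := by
    rw [← Real.log_mul (by norm_num) (by norm_num), ← Real.log_div (by norm_num) (by norm_num)]
    norm_num
  unfold JJ
  rw [e1, e2]
  norm_num at a1 a2
  linarith

/-- `x - al log (1 + x / al)` is convex: chord from `0` -/
lemma young_chord {al x M : ℝ} (hal : 0 < al) (hx : 0 ≤ x) (hxM : x ≤ M) (hM : 0 < M) :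
    x - al * Real.log (1 + x / al) ≤ x / M * (M - al * Real.log (1 + M / al)) := by
  have ht0 : 0 ≤ x / M := by positivity
  have ht1 : x / M ≤ 1 := by rw [div_le_one hM]; exact hxM
  have hc := strictConcaveOn_log_Ioi.concaveOn.2 (x := 1 + M / al) (y := 1)
    (Set.mem_Ioi.2 (by positivity)) (Set.mem_Ioi.2 one_pos) ht0 (sub_nonneg.2 ht1) (by ring)
  simp only [smul_eq_mul, Real.log_one, mul_zero, add_zero] at hc
  have e : x / M * (1 + M / al) + (1 - x / M) * 1 = 1 + x / al := by
    field_simp
    ring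
  rw [e] at hc
  have h2 := mul_le_mul_of_nonneg_left hc hal.le
  have e2 : x / M * (M - al * Real.log (1 + M / al)) =
      x - al * (x / M * Real.log (1 + M / al)) := by
    field_simp
  rw [e2]
  linarith

end Pool.Agent.ICyc.D
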