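import Mathlib

/-!
MP_131fce_co, position lemma, regime B: a quadratic inequality on the cycle.

`quad`: for `s ≥ 0` on `ZMod k`, `k ≥ 9`, `∑ s j s (j + 1) + ∑ s j s (j + 3) ≤ (∑ s) ^ 2 / 6 + (∑ s ^ 2) / 2`.
Proof: `(∑ s) ^ 2 ≥ c 0 + 2 (c 1 + c 2 + c 3 + c 4)`, `c m = ∑ s j s (j + m)`, and the difference is
`(1 / 6) ∑ (s j - s (j + 1) - s (j + 3) + s (j + 4)) ^ 2`.
-/

set_option autoImplicit false

namespace Pool.Agent.ICyc.D

open Finset

variable {k : ℕ} [NeZero k]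

/-- the cyclic correlations -/
def cor (s : ZMod k → ℝ) (m : ZMod k) : ℝ := ∑ j, s j * s (j + m)

theorem cor_shift (s : ZMod k → ℝ) (a b : ZMod k) : ∑ j, s (j + a) * s (j + b) = cor s (b - a) := by
  unfold cor
  refine Fintype.sum_equiv (Equiv.addRight a) _ _ fun j => ?_
  simp only [Equiv.coe_addRight]
  congr 2
  ring

theorem cor_neg (s : ZMod k → ℝ) (m : ZMod k) : cor s (-m) = cor s m := by
  have h := cor_shift s m 0
  rw [zero_sub] at h
  rw [← h]
  unfold cor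
  refine Finset.sum_congr rfl fun j _ => ?_
  rw [add_zero, mul_comm]

theorem sq_sum (s : ZMod k → ℝ) : (∑ j, s j) ^ 2 = ∑ m, cor s m := by
  unfold cor
  rw [Finset.sum_comm, sq, Finset.sum_mul_sum]
  refine Finset.sum_congr rfl fun j _ => ?_
  exact (Fintype.sum_equiv (Equiv.addLeft j) (fun m => s j * s (j + m)) (fun i => s j * s i)
    fun m => rfl).symm

theorem cor_nonneg (s : ZMod k → ℝ) (hs : ∀ j, 0 ≤ s j) (m : ZMod k) : 0 ≤ cor s m :=
  Finset.sum_nonneg fun j _ => mul_nonneg (hs j) (hs _)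

omit [NeZero k] in
/-- nine different residues -/
theorem nine (hk : 9 ≤ k) : Function.Injective (fun i : Fin 9 => (((i : ℕ) : ZMod k) - 4)) := by
  intro a b h
  simp only [sub_left_inj] at h
  rw [ZMod.natCast_eq_natCast_iff] at h
  have := Nat.ModEq.eq_of_lt_of_lt h (by omega) (by omega)
  exact Fin.ext this

theorem sq_sum_ge (hk : 9 ≤ k) (s : ZMod k → ℝ) (hs : ∀ j, 0 ≤ s j) :
    cor s 0 + 2 * cor s 1 + 2 * cor s 2 + 2 * cor s 3 + 2 * cor s 4 ≤ (∑ j, s j) ^ 2 := by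
  rw [sq_sum]
  have h1 : ∑ i : Fin 9, cor s (((i : ℕ) : ZMod k) - 4) ≤ ∑ m, cor s m := by
    rw [← Finset.sum_image (s := Finset.univ) (g := fun i : Fin 9 => (((i : ℕ) : ZMod k) - 4))
      (f := fun m => cor s m) (fun a _ b _ h => nine hk h)]
    exact Finset.sum_le_sum_of_subset_of_nonneg (Finset.subset_univ _)
      fun m _ _ => cor_nonneg s hs m
  have e : ∑ i : Fin 9, cor s (((i : ℕ) : ZMod k) - 4) =
      cor s 0 + 2 * cor s 1 + 2 * cor s 2 + 2 * cor s 3 + 2 * cor s 4 := by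
    have a1 := cor_neg s 1
    have a2 := cor_neg s 2
    have a3 := cor_neg s 3
    have a4 := cor_neg s 4
    rw [Fin.sum_univ_succ, Fin.sum_univ_succ, Fin.sum_univ_succ, Fin.sum_univ_succ,
      Fin.sum_univ_succ, Fin.sum_univ_succ, Fin.sum_univ_succ, Fin.sum_univ_succ,
      Fin.sum_univ_succ]
    simp
    ring_nf
    ring_nf at a1 a2 a3 a4
    linarith
  rw [← e]
  exact h1

/-- the quadratic inequality of regime B -/
theorem quad (hk : 9 ≤ k) (s : ZMod k → ℝ) (hs : ∀ j, 0 ≤ s j) :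
    ∑ j, s j * s (j + 1) + ∑ j, s j * s (j + 3) ≤ (∑ j, s j) ^ 2 / 6 + (∑ j, s j ^ 2) / 2 := by
  have h := sq_sum_ge hk s hs
  have h0 : ∑ j, s j ^ 2 = cor s 0 := by
    unfold cor
    refine Finset.sum_congr rfl fun j _ => ?_
    rw [add_zero, sq]
  have h1 : 0 ≤ ∑ j, (s j - s (j + 1) - s (j + 3) + s (j + 4)) ^ 2 :=
    Finset.sum_nonneg fun j _ => sq_nonneg _
  have e : ∑ j, (s j - s (j + 1) - s (j + 3) + s (j + 4)) ^ 2 =
      4 * cor s 0 - 4 * cor s 1 + 2 * cor s 2 - 4 * cor s 3 + 2 * cor s 4 := by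
    have c01 := cor_shift s 0 1
    have c03 := cor_shift s 0 3
    have c04 := cor_shift s 0 4
    have c13 := cor_shift s 1 3
    have c14 := cor_shift s 1 4
    have c34 := cor_shift s 3 4
    have d0 := cor_shift s 0 0
    have d1 := cor_shift s 1 1
    have d3 := cor_shift s 3 3
    have d4 := cor_shift s 4 4
    have hx : ∀ j : ZMod k, (s j - s (j + 1) - s (j + 3) + s (j + 4)) ^ 2 =
        s (j + 0) * s (j + 0) + s (j + 1) * s (j + 1) + s (j + 3) * s (j + 3) +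
        s (j + 4) * s (j + 4) - 2 * (s (j + 0) * s (j + 1)) - 2 * (s (j + 0) * s (j + 3)) +
        2 * (s (j + 0) * s (j + 4)) + 2 * (s (j + 1) * s (j + 3)) -
        2 * (s (j + 1) * s (j + 4)) - 2 * (s (j + 3) * s (j + 4)) := by
      intro j
      rw [add_zero]
      ring
    rw [Finset.sum_congr rfl fun j _ => hx j]
    simp only [Finset.sum_add_distrib, Finset.sum_sub_distrib, ← Finset.mul_sum]
    rw [sub_zero] at c01 c03 c04 d0
    rw [sub_self] at d1 d3 d4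
    rw [show (3 : ZMod k) - 1 = 2 by norm_num] at c13
    rw [show (4 : ZMod k) - 1 = 3 by norm_num] at c14
    rw [show (4 : ZMod k) - 3 = 1 by norm_num] at c34
    rw [c01, c03, c04, c13, c14, c34, d0, d1, d3, d4]
    ring
  have f1 : ∑ j, s j * s (j + 1) = cor s 1 := rfl
  have f3 : ∑ j, s j * s (j + 3) = cor s 3 := rfl
  rw [h0, f1, f3]
  linarith

end Pool.Agent.ICyc.D
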