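import Pool.Agent.Lib.MP_131fce_co.D.PosS

/-!
# Induced k-cycles in triangle-free graphs: the window credit of the heavy classes

The windows `l = 3, ..., k - 3` pay `JJ (max 1 tau_j)` each, if the lookahead rewards of the members
of the class `j` are reduced by the factor `1 / max 1 tau_j`.
-/

set_option autoImplicit false

namespace Pool.Agent.ICyc.D

open Finset Pool.Agent.ICyc
open scoped Classical

/-- tangent of the window function at a heavy mass -/
lemma JJ_max_tangent {t r : ℝ} (hr : 0 ≤ r) :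
    JJ (max 1 t) - (1 - 1 / max 1 t) * r ≤ JJ (max 1 (t - r)) := by
  set m := max 1 t with hm
  have h1 : (1 : ℝ) ≤ m := le_max_left _ _
  have hm0 : 0 < m := by linarith
  set s := max 1 (t - r) with hs
  have h2 : (1 : ℝ) ≤ s := le_max_left _ _
  have hs0 : 0 < s := by linarith
  have h3 : Real.log s - Real.log m ≤ s / m - 1 := by
    have h := Real.log_le_sub_one_of_pos (div_pos hs0 hm0)
    rwa [Real.log_div hs0.ne' hm0.ne'] at h
  have h4 : m - r ≤ s := by
    rcases le_total 1 t with h | h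
    · rw [hm, max_eq_right h]
      exact le_max_right _ _
    · rw [hm, max_eq_left h]
      linarith
  have h5 : 0 ≤ 1 - 1 / m := by
    rw [sub_nonneg, div_le_one hm0]
    exact h1
  have h6 := mul_le_mul_of_nonneg_left h4 h5
  have e1 : (1 - 1 / m) * s = s - s / m := by ring
  have e2 : (1 - 1 / m) * (m - r) = m - 1 - (1 - 1 / m) * r := by
    field_simp
  rw [e1, e2] at h6
  unfold JJ
  linarith

lemma JJ_max_mono {s t : ℝ} (h : s ≤ t) : JJ (max 1 s) ≤ JJ (max 1 t) :=
  JJ_mono (le_max_left _ _) (max_le_max le_rfl h)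

section

variable {V : Type} [Fintype V] {G : SimpleGraph V} {k : ℕ} [NeZero k]

/-- the reward of the windows of a member `w` of the class `j` -/
noncomputable def rwT (G : SimpleGraph V) (k : ℕ) [NeZero k] (L : ℕ) (x : ZMod k → V) (j : ZMod k)
    (w : V) : ℝ := ∑ l ∈ Icc L (k - 4), (1 - psi (min 1 (visM G k x (j - 1) l w)))

omit [NeZero k] in
lemma cast_ne_zero_of_lt {m : ℕ} (h0 : 0 < m) (h1 : m < k) : ((m : ℕ) : ZMod k) ≠ 0 := by
  intro h
  rw [ZMod.natCast_eq_zero_iff] at h
  exact absurd (Nat.le_of_dvd h0 h) (by omega)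

/-- the class of the position `i + 1` lies in the window that ends at `i` -/
lemma T_sub_F {x : ZMod k → V} {j : ZMod k} {l : ℕ} (hl : l + 3 ≤ k) :
    T G k j x ⊆ F G k l (rot (j - 1 - (l : ZMod k)) x) := by
  intro w hw
  have hty := bas_mem_T.1 hw
  rw [mem_F_rot, hty]
  refine ⟨mem_insert_self _ _, ?_⟩
  intro m h1 h2 h3
  rw [hty, mem_insert, mem_singleton] at h3
  rcases h3 with h | h
  · apply cast_ne_zero_of_lt (k := k) (m := m) (by omega) (by omega)
    linear_combination -h
  · apply cast_ne_zero_of_lt (k := k) (m := m + 2) (by omega) (by omega)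
    push_cast
    linear_combination -h

/-- the rewards of a member of a class contain `rwT` -/
lemma rwT_le {L : ℕ} (hk : 4 ≤ k) {x : ZMod k → V} {j : ZMod k} {w : V} (hw : w ∈ T G k j x) :
    rwT G k L x j w ≤ rewX G k L x w := by
  have hty := bas_mem_T.1 hw
  unfold rwT rewX
  have h1 : (Icc L (k - 4)).filter (fst G k x (j - 1) w) = Icc L (k - 4) := by
    refine filter_true_of_mem fun l hl => ?_
    rw [mem_Icc] at hl
    intro m h1 h2 h3
    rw [hty, mem_insert, mem_singleton] at h3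
    rcases h3 with h | h
    · apply cast_ne_zero_of_lt (k := k) (m := m) (by omega) (by omega)
      linear_combination -h
    · apply cast_ne_zero_of_lt (k := k) (m := m + 2) (by omega) (by omega)
      push_cast
      linear_combination -h
  have h2 : j - 1 ∈ Ty G k x w := by rw [hty]; exact mem_insert_self _ _
  refine le_trans (le_of_eq ?_) (single_le_sum
    (f := fun i => ∑ l ∈ (Icc L (k - 4)).filter (fst G k x i w),
      (1 - psi (min 1 (visM G k x i l w)))) (fun i _ => sum_nonneg fun l _ =>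
        sub_nonneg.2 (psi_le_one _)) h2)
  rw [h1]

/-- one window -/
lemma win_one (hk : 4 ≤ k) (x : ZMod k → V) {L l : ℕ} (hl : l + 3 ≤ k) (j : ZMod k) :
    JJ (max 1 (mu k (T G k j x))) - (1 - 1 / max 1 (mu k (T G k j x))) *
      ∑ w ∈ T G k j x, kap V k * (if l ∈ Icc L (k - 4) then
        1 - psi (min 1 (visM G k x (j - 1) l w)) else 0) ≤
    JJ (max 1 (mu k (F G k l (rot (j - 1 - (l : ZMod k)) x)) -
      RL G k L l (rot (j - 1 - (l : ZMod k)) x))) := by
  have hr : 0 ≤ ∑ w ∈ T G k j x, kap V k * (if l ∈ Icc L (k - 4) then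
        1 - psi (min 1 (visM G k x (j - 1) l w)) else 0) := by
    refine sum_nonneg fun w _ => mul_nonneg kap_nonneg ?_
    split_ifs
    · exact sub_nonneg.2 (psi_le_one _)
    · exact le_rfl
  refine (JJ_max_tangent hr).trans (JJ_max_mono ?_)
  rw [← sum_gL]
  have h1 : ∑ w ∈ T G k j x, gL G k L l (rot (j - 1 - (l : ZMod k)) x) w ≤
      ∑ w ∈ F G k l (rot (j - 1 - (l : ZMod k)) x), gL G k L l (rot (j - 1 - (l : ZMod k)) x) w :=
    sum_le_sum_of_subset_of_nonneg (T_sub_F hl) fun w _ _ => gL_nonneg _ _ _ _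
  refine le_trans (le_of_eq ?_) (mul_le_mul_of_nonneg_left h1 kap_nonneg)
  rw [mu_eq_sum, mul_sum, ← sum_sub_distrib]
  refine sum_congr rfl fun w _ => ?_
  have e : gL G k L l (rot (j - 1 - (l : ZMod k)) x) w =
      1 - (if l ∈ Icc L (k - 4) then 1 - psi (min 1 (visM G k x (j - 1) l w)) else 0) := by
    unfold gL
    rw [rho_eq_visM]
    by_cases h : L ≤ l ∧ l + 4 ≤ k
    · rw [if_pos h, if_pos (mem_Icc.2 ⟨h.1, by omega⟩)]
      ring
    · rw [if_neg h, if_neg (fun h' => h ⟨(mem_Icc.1 h').1, by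
        have := (mem_Icc.1 h').2
        omega⟩)]
      ring
  rw [e]
  ring

/-- **the window credit of the heavy classes**, one direction -/
theorem win_credit {L : ℕ} (hk : 6 ≤ k) (hL : 3 ≤ L) (x : ZMod k → V) :
    ((k : ℝ) - 5) * ∑ j : ZMod k, JJ (max 1 (mu k (T G k j x))) -
      ∑ j : ZMod k, (1 - 1 / max 1 (mu k (T G k j x))) *
        ∑ w ∈ T G k j x, kap V k * rwT G k L x j w ≤
    ∑ a : ZMod k, ∑ l ∈ Icc 3 (k - 3),
      JJ (max 1 (mu k (F G k l (rot a x)) - RL G k L l (rot a x))) := by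
  have h1 : ∀ l ∈ Icc 3 (k - 3), ∀ j : ZMod k,
      JJ (max 1 (mu k (T G k j x))) - (1 - 1 / max 1 (mu k (T G k j x))) *
      ∑ w ∈ T G k j x, kap V k * (if l ∈ Icc L (k - 4) then
        1 - psi (min 1 (visM G k x (j - 1) l w)) else 0) ≤
      JJ (max 1 (mu k (F G k l (rot (j - 1 - (l : ZMod k)) x)) -
        RL G k L l (rot (j - 1 - (l : ZMod k)) x))) := by
    intro l hl j
    rw [mem_Icc] at hl
    exact win_one (by omega) x (by omega) j
  have h2 := sum_le_sum fun l (hl : l ∈ Icc 3 (k - 3)) =>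
    sum_le_sum fun j (_ : j ∈ (univ : Finset (ZMod k))) => h1 l hl j
  have h3 : ∀ l : ℕ, ∑ j : ZMod k, JJ (max 1 (mu k (F G k l (rot (j - 1 - (l : ZMod k)) x)) -
        RL G k L l (rot (j - 1 - (l : ZMod k)) x))) =
      ∑ a : ZMod k, JJ (max 1 (mu k (F G k l (rot a x)) - RL G k L l (rot a x))) := by
    intro l
    have e := Equiv.sum_comp (Equiv.subRight (1 + (l : ZMod k)))
      (fun a => JJ (max 1 (mu k (F G k l (rot a x)) - RL G k L l (rot a x))))
    rw [← e]
    refine sum_congr rfl fun j _ => ?_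
    have e2 : (Equiv.subRight (1 + (l : ZMod k))) j = j - 1 - (l : ZMod k) := by
      show j - (1 + (l : ZMod k)) = j - 1 - (l : ZMod k)
      ring
    rw [e2]
  rw [sum_congr rfl fun l _ => h3 l] at h2
  rw [sum_comm (s := (univ : Finset (ZMod k)))]
  refine le_trans (le_of_eq ?_) h2
  simp only [sum_sub_distrib]
  congr 1
  · rw [sum_const, Nat.card_Icc, nsmul_eq_mul]
    have e : ((k - 3 + 1 - 3 : ℕ) : ℝ) = (k : ℝ) - 5 := by
      have h5 : k - 3 + 1 - 3 = k - 5 := by omega
      rw [h5, Nat.cast_sub (by omega)]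
      norm_num
    rw [e]
  · rw [sum_comm]
    refine sum_congr rfl fun j _ => ?_
    conv_rhs => rw [← mul_sum, sum_comm]
    congr 1
    refine sum_congr rfl fun w _ => ?_
    conv_rhs => rw [← mul_sum]
    congr 1
    unfold rwT
    rw [← sum_filter]
    refine sum_congr ?_ fun _ _ => rfl
    ext l
    rw [mem_filter, mem_Icc, mem_Icc]
    omega

end

end Pool.Agent.ICyc.D
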