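import Pool.Agent.Lib.MP_131fce_co.D.Rows4
import Pool.Agent.Lib.MP_131fce_co.D.PosW

/-!
# Induced k-cycles in triangle-free graphs: the interface with a general kernel

The kernel is any function of the two differences whose price is at most the credit; what is not
used stays with the positions.  The rewards of the members of the class `j` are divided by
`max 1 tau_j`, and the windows count with the full mass of the classes.
-/

set_option autoImplicit false

namespace Pool.Agent.ICyc.D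

open Finset Pool.Agent.ICyc
open scoped Classical

noncomputable section

/-- admissible kernels -/
structure KerF (L : ℕ) (KF : ℝ → ℝ → ℝ) : Prop where
  nn : ∀ s t, 0 ≤ KF s t
  symm : ∀ s t, KF s t = KF t s
  pos : ∀ s t, 0 < s → 0 < t → 0 < KF s t
  cost : ∀ s t, 0 < s → 0 < t → JJ (KF s t) ≤ (cL L s + cL L t) / 2

section

variable {V : Type} [Fintype V] {G : SimpleGraph V} {k : ℕ} [NeZero k]

/-- the kernel -/
def KG (G : SimpleGraph V) (k : ℕ) (KF : ℝ → ℝ → ℝ) (u v : V) : ℝ := KF (ff G k u v) (ff G k v u)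

/-- the unused credit -/
def crG (G : SimpleGraph V) (k L : ℕ) (KF : ℝ → ℝ → ℝ) (u v : V) : ℝ :=
  (cL L (ff G k u v) + cL L (ff G k v u)) / 2 - JJ (KF (ff G k u v) (ff G k v u))

omit [NeZero k] in
lemma crK_KG (L : ℕ) (KF : ℝ → ℝ → ℝ) (u v : V) :
    crK G k L (KG G k KF) u v = crG G k L KF u v := by
  unfold crK KG crG cL
  ring

omit [NeZero k] in
lemma crG_symm {L : ℕ} {KF : ℝ → ℝ → ℝ} (hKs : ∀ s t, KF s t = KF t s) (u v : V) :
    crG G k L KF u v = crG G k L KF v u := by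
  unfold crG
  rw [hKs]
  ring

omit [NeZero k] in
theorem Ker_KG {L : ℕ} {KF : ℝ → ℝ → ℝ} (hK : KerF L KF) : Ker G k L (KG G k KF) where
  nn := fun u v => hK.nn _ _
  symm := fun u v => hK.symm _ _
  pos := fun u v h1 h2 => hK.pos _ _ h1 h2
  cost := by
    intro u v h1 h2
    have h3 := hK.cost _ _ h1 h2
    unfold cL at h3
    unfold KG
    linarith

end

section

variable {k : ℕ} [NeZero k]

/-- own cost -/
def ownK (KF : ℝ → ℝ → ℝ) (Phi : ℝ → ℝ → ℝ → ℝ) (A : Finset (ZMod k)) (N : Finset (ZMod k) → ℝ)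
    (tau dx : ZMod k → ℝ) : ℝ :=
  ∑ i ∈ A, (KF (dN N - cN N (i - 1)) (dx (i - 1) - cN N (i - 1)) +
    KF (dN N - cN N (i + 1)) (dx (i + 1) - cN N (i + 1))) / (2 * zN Phi tau dx i)

/-- value of a vertex outside the classes -/
def valNK (L : ℕ) (KF : ℝ → ℝ → ℝ) (Phi : ℝ → ℝ → ℝ → ℝ) (rr : Env k → ZMod k → ℝ) (pot : Pot k)
    (g phi : ℝ → ℝ) (chi : Env k → Finset (ZMod k) → Finset (ZMod k) → ℝ)
    (A : Finset (ZMod k)) (N : Finset (ZMod k) → ℝ) (E : Env k) : ℝ :=
  rD k A - ownK KF Phi A N E.tau E.dx + comE L rr pot g phi chi A N E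

end

section

variable {V : Type} [Fintype V] {G : SimpleGraph V} {k : ℕ} [NeZero k]

lemma ownK_eq (KF : ℝ → ℝ → ℝ) (Phi : ℝ → ℝ → ℝ → ℝ) (x : ZMod k → V) (y : V) :
    ownZ G k (KG G k KF) (zeF G k Phi) x y =
      ownK KF Phi (Ty G k x y) (NbM G k x y) (tauX G k x) (dX G k x) := by
  unfold ownZ ownK KG
  refine sum_congr rfl fun i _ => ?_
  rw [zeF_eq_zN, ff_eq_N, ff_eq_N, ff_eq_N', ff_eq_N']

/-- one pair of positions at distance two -/
def pairXK (G : SimpleGraph V) (k : ℕ) [NeZero k] (L : ℕ) (KF : ℝ → ℝ → ℝ)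
    (Phi : ℝ → ℝ → ℝ → ℝ) (x : ZMod k → V) (a : ZMod k) : ℝ :=
  1 - (tauX G k x a + tauX G k x (a + 2)) / 2 - KG G k KF (x (a + 2)) (x a) +
    (tauX G k x a + tauX G k x (a + 2)) / 2 * KG G k KF (x (a + 2)) (x a) /
      zN Phi (tauX G k x) (dX G k x) (a + 1) +
    Real.log (zN Phi (tauX G k x) (dX G k x) (a + 1)) -
    crG G k L KF (x (a + 2)) (x a)

/-- the positions, symmetric form -/
def posSK (G : SimpleGraph V) (k : ℕ) [NeZero k] (L : ℕ) (KF : ℝ → ℝ → ℝ)
    (Phi : ℝ → ℝ → ℝ → ℝ) (phi : ℝ → ℝ) (x : ZMod k → V) : ℝ :=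
  ∑ a : ZMod k, pairXK G k L KF Phi x a -
    ∑ a : ZMod k, (JJ (dX G k x a / 2) + JJ (tauX G k x a) + phi (dX G k x a)) -
    (winX G k L x + winX G k L (rfx x)) / 2

/-- the positions, one direction -/
def posDK (G : SimpleGraph V) (k : ℕ) [NeZero k] (L : ℕ) (KF : ℝ → ℝ → ℝ)
    (Phi : ℝ → ℝ → ℝ → ℝ) (phi : ℝ → ℝ) (x : ZMod k → V) : ℝ :=
  ∑ a : ZMod k, (1 - tauX G k x (a + 2) - KG G k KF (x (a + 2)) (x a) +
    tauX G k x (a + 2) * KG G k KF (x (a + 2)) (x a) /
      zN Phi (tauX G k x) (dX G k x) (a + 1) +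
    Real.log (zN Phi (tauX G k x) (dX G k x) (a + 1)) -
    crG G k L KF (x (a + 2)) (x a)) -
    ∑ a : ZMod k, (JJ (dX G k x a / 2) + JJ (tauX G k x a) + phi (dX G k x a)) - winX G k L x

lemma posDK_rfx {L : ℕ} {KF : ℝ → ℝ → ℝ} (hKs : ∀ s t, KF s t = KF t s) {Phi : ℝ → ℝ → ℝ → ℝ}
    (hsymm : ∀ d s t, Phi d s t = Phi d t s) (phi : ℝ → ℝ) (x : ZMod k → V) :
    (posDK G k L KF Phi phi x + posDK G k L KF Phi phi (rfx x)) / 2 = posSK G k L KF Phi phi x := by
  have hneg : ∀ f : ZMod k → ℝ, ∑ j : ZMod k, f (-j) = ∑ j : ZMod k, f j := fun f =>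
    Equiv.sum_comp (Equiv.neg (ZMod k)) f
  have hsh : ∀ f : ZMod k → ℝ, ∑ j : ZMod k, f (-j - 2) = ∑ j : ZMod k, f j := fun f => by
    have := Equiv.sum_comp (Equiv.addRight (-2 : ZMod k)) f
    rw [← this, ← hneg (fun j => f ((Equiv.addRight (-2 : ZMod k)) j))]
    refine sum_congr rfl fun j _ => ?_
    show f (-j - 2) = f (-j + -2)
    rw [sub_eq_add_neg]
  have h1 : ∑ a : ZMod k, (1 - tauX G k (rfx x) (a + 2) -
      KG G k KF (rfx x (a + 2)) (rfx x a) +
      tauX G k (rfx x) (a + 2) * KG G k KF (rfx x (a + 2)) (rfx x a) /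
        zN Phi (tauX G k (rfx x)) (dX G k (rfx x)) (a + 1) +
      Real.log (zN Phi (tauX G k (rfx x)) (dX G k (rfx x)) (a + 1)) -
      crG G k L KF (rfx x (a + 2)) (rfx x a)) =
      ∑ a : ZMod k, (1 - tauX G k x a - KG G k KF (x (a + 2)) (x a) +
      tauX G k x a * KG G k KF (x (a + 2)) (x a) / zN Phi (tauX G k x) (dX G k x) (a + 1) +
      Real.log (zN Phi (tauX G k x) (dX G k x) (a + 1)) -
      crG G k L KF (x (a + 2)) (x a)) := by
    rw [← hsh (fun a => (1 - tauX G k x a - KG G k KF (x (a + 2)) (x a) +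
      tauX G k x a * KG G k KF (x (a + 2)) (x a) / zN Phi (tauX G k x) (dX G k x) (a + 1) +
      Real.log (zN Phi (tauX G k x) (dX G k x) (a + 1)) -
      crG G k L KF (x (a + 2)) (x a)))]
    refine sum_congr rfl fun a _ => ?_
    rw [zN_rfx hsymm, tauX_rfx]
    have e1 : -(a + 2) = -a - 2 := by ring
    have e2 : -(a + 1) = -a - 2 + 1 := by ring
    have e3 : rfx x (a + 2) = x (-a - 2) := by unfold rfx; rw [e1]
    have e4 : rfx x a = x (-a - 2 + 2) := by unfold rfx; congr 1; ring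
    have e5 : KG G k KF (x (-a - 2)) (x (-a - 2 + 2)) =
        KG G k KF (x (-a - 2 + 2)) (x (-a - 2)) := hKs _ _
    have e6 : crG G k L KF (x (-a - 2)) (x (-a - 2 + 2)) =
        crG G k L KF (x (-a - 2 + 2)) (x (-a - 2)) := crG_symm hKs _ _
    rw [e1, e2, e3, e4, e5, e6]
  have h2 : ∑ a : ZMod k, (JJ (dX G k (rfx x) a / 2) + JJ (tauX G k (rfx x) a) +
      phi (dX G k (rfx x) a)) =
      ∑ a : ZMod k, (JJ (dX G k x a / 2) + JJ (tauX G k x a) + phi (dX G k x a)) := by
    rw [← hneg (fun a => JJ (dX G k x a / 2) + JJ (tauX G k x a) + phi (dX G k x a))]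
    refine sum_congr rfl fun a _ => ?_
    rw [tauX_rfx, dX_rfx]
  unfold posDK posSK
  rw [h1, h2]
  have h3 : ∑ a : ZMod k, pairXK G k L KF Phi x a =
      (∑ a : ZMod k, (1 - tauX G k x (a + 2) - KG G k KF (x (a + 2)) (x a) +
      tauX G k x (a + 2) * KG G k KF (x (a + 2)) (x a) /
        zN Phi (tauX G k x) (dX G k x) (a + 1) +
      Real.log (zN Phi (tauX G k x) (dX G k x) (a + 1)) -
      crG G k L KF (x (a + 2)) (x a)) +
      ∑ a : ZMod k, (1 - tauX G k x a - KG G k KF (x (a + 2)) (x a) +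
      tauX G k x a * KG G k KF (x (a + 2)) (x a) / zN Phi (tauX G k x) (dX G k x) (a + 1) +
      Real.log (zN Phi (tauX G k x) (dX G k x) (a + 1)) -
      crG G k L KF (x (a + 2)) (x a))) / 2 := by
    rw [← sum_add_distrib, sum_div]
    refine sum_congr rfl fun a _ => ?_
    unfold pairXK
    ring
  rw [h3]
  ring

/-- the twin cost with a slope that depends on the environment -/
theorem sum_twG (hk : 5 ≤ k) (tf : ∀ a b c : V, G.Adj a b → G.Adj b c → ¬ G.Adj a c)
    {KF : ℝ → ℝ → ℝ} {Phi : ℝ → ℝ → ℝ → ℝ} (hpos : ∀ d s t, 0 < Phi d s t)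
    (hsymm : ∀ d s t, Phi d s t = Phi d t s) (Xi : Xfer k)
    {Hx : Env k → ZMod k → ℝ → ℝ → ℝ} {rr : Env k → ZMod k → ℝ}
    (hp : ∀ (E : Env k) (j : ZMod k) (s t : ℝ), 0 ≤ s → 0 ≤ t →
      KF s t * iz Phi E.tau E.dx j + Xi j (E.tau j) (msk j E.dx) s t -
        Xi j (E.tau j) (msk j E.dx) t s ≤ Hx E j s t + rr E j * t) :
    ∑ x ∈ Cyc G k, ∑ a : ZMod k, twK G k (KG G k KF) x a a / zeF G k Phi x (a + 1) ≤
      ∑ x ∈ Cyc G k, ∑ j : ZMod k, ∑ w ∈ T G k j x,
        kap V k * Hx (envX G k x) j (ff G k w (x j)) (ff G k (x j) w) +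
      ∑ x ∈ Cyc G k, ∑ y : V, kap V k * ∑ l ∈ Ty G k x y,
        rr (envX G k x) l * DD G k x l y := by
  have hze := zeF_ok (G := G) hk tf Phi hpos hsymm
  have hneg : ∀ f : ZMod k → ℝ, ∑ j : ZMod k, f (-j) = ∑ j : ZMod k, f j := fun f =>
    Equiv.sum_comp (Equiv.neg (ZMod k)) f
  -- symmetrise the two directions
  set R : (ZMod k → V) → ℝ :=
    fun x => ∑ a : ZMod k, twK G k (KG G k KF) x a a / zeF G k Phi x (a + 1) with hR
  have h2 : ∑ x ∈ Cyc G k, R (rfx x) = ∑ x ∈ Cyc G k, R x := sum_refl (G := G) (k := k) R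
  have h3 : ∀ x : ZMod k → V, R (rfx x) =
      ∑ a : ZMod k, twK G k (KG G k KF) x a a / zeF G k Phi x (a - 1) := by
    intro x
    rw [hR]
    dsimp only
    rw [← hneg (fun a => twK G k (KG G k KF) x a a / zeF G k Phi x (a - 1))]
    refine sum_congr rfl fun a _ => ?_
    have e1 : -(a + 1) = -a - 1 := by ring
    rw [hze.symm, e1]
    congr 1
    unfold twK
    rw [T_rfx]
    rfl
  have h4 : ∑ x ∈ Cyc G k, ∑ a : ZMod k, twK G k (KG G k KF) x a a / zeF G k Phi x (a + 1) =
      ∑ x ∈ Cyc G k, ∑ j : ZMod k, ∑ w ∈ T G k j x, kap V k *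
        (KF (ff G k w (x j)) (ff G k (x j) w) * iz Phi (tauX G k x) (dX G k x) j) := by
    have h5 : ∑ x ∈ Cyc G k, R x = ∑ x ∈ Cyc G k, (R x + R (rfx x)) / 2 := by
      rw [← sum_div, sum_add_distrib, h2]
      ring
    rw [show ∑ x ∈ Cyc G k, ∑ a : ZMod k, twK G k (KG G k KF) x a a / zeF G k Phi x (a + 1) =
      ∑ x ∈ Cyc G k, R x from rfl, h5]
    refine sum_congr rfl fun x _ => ?_
    rw [h3, hR]
    dsimp only
    rw [← sum_add_distrib, sum_div]
    refine sum_congr rfl fun a _ => ?_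
    have e4 : (twK G k (KG G k KF) x a a / zeF G k Phi x (a + 1) +
        twK G k (KG G k KF) x a a / zeF G k Phi x (a - 1)) / 2 =
        twK G k (KG G k KF) x a a * iz Phi (tauX G k x) (dX G k x) a := by
      unfold iz
      rw [← zeF_eq_zN, ← zeF_eq_zN]
      ring
    rw [e4]
    unfold twK
    rw [sum_mul]
    refine sum_congr rfl fun w _ => ?_
    unfold KG
    ring
  -- the transfers
  have h6 : ∀ j : ZMod k, ∑ x ∈ Cyc G k, ∑ w ∈ T G k j x, kap V k *
      (Xi j (tauX G k x j) (msk j (dX G k x)) (ff G k w (x j)) (ff G k (x j) w) -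
        Xi j (tauX G k x j) (msk j (dX G k x)) (ff G k (x j) w) (ff G k w (x j))) = 0 := by
    intro j
    have h := sum_swap (G := G) hk tf j (fun x w => kap V k *
      Xi j (tauX G k x j) (msk j (dX G k x)) (ff G k w (x j)) (ff G k (x j) w))
    have h7 : ∑ x ∈ Cyc G k, ∑ w ∈ T G k j x, kap V k *
        Xi j (tauX G k x j) (msk j (dX G k x)) (ff G k (x j) w) (ff G k w (x j)) =
        ∑ x ∈ Cyc G k, ∑ w ∈ T G k j x, kap V k *
        Xi j (tauX G k x j) (msk j (dX G k x)) (ff G k w (x j)) (ff G k (x j) w) := by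
      rw [← h]
      refine sum_congr rfl fun x hx => sum_congr rfl fun w hw => ?_
      have e1 : tauX G k (Function.update x j w) j = tauX G k x j := by
        unfold tauX
        rw [T_update hk hx hw tf]
      have e2 : msk j (dX G k (Function.update x j w)) = msk j (dX G k x) := by
        funext b
        unfold msk
        by_cases hb : b = j
        · rw [if_pos hb, if_pos hb]
        · rw [if_neg hb, if_neg hb]
          unfold dX
          rw [Function.update_of_ne hb]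
      rw [e1, e2, Function.update_self]
    simp only [mul_sub, sum_sub_distrib]
    rw [h7, sub_self]
  -- the price of the differences, same cycle
  have h8 : ∀ x : ZMod k → V, ∑ y : V, kap V k * ∑ l ∈ Ty G k x y,
        rr (envX G k x) l * DD G k x l y =
      ∑ j : ZMod k, ∑ w ∈ T G k j x, kap V k * (rr (envX G k x) j * ff G k (x j) w) := by
    intro x
    have e2 : ∀ j : ZMod k, ∑ w ∈ T G k j x, kap V k *
        (rr (envX G k x) j * ff G k (x j) w) =
        ∑ y : V, (if G.Adj (x j) y then kap V k *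
          (rr (envX G k x) j * DD G k x j y) else 0) := by
      intro j
      simp_rw [ff, DD, mu_eq_sum, mul_sum, sum_filter]
      unfold nb
      simp_rw [sum_filter]
      rw [sum_comm]
      refine sum_congr rfl fun y _ => ?_
      by_cases h1 : G.Adj (x j) y
      · simp only [h1, if_true]
      · simp only [h1, if_false, sum_const_zero]
    rw [sum_congr rfl fun j _ => e2 j, sum_comm]
    refine sum_congr rfl fun y _ => ?_
    rw [mul_sum]
    have e3 : Ty G k x y = univ.filter (fun l => G.Adj (x l) y) := rfl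
    rw [e3, sum_filter]
  have h9 : ∑ x ∈ Cyc G k, ∑ j : ZMod k, ∑ w ∈ T G k j x, kap V k *
      (Xi j (tauX G k x j) (msk j (dX G k x)) (ff G k w (x j)) (ff G k (x j) w) -
        Xi j (tauX G k x j) (msk j (dX G k x)) (ff G k (x j) w) (ff G k w (x j))) = 0 := by
    rw [sum_comm]
    exact sum_eq_zero fun j _ => h6 j
  rw [h4, sum_congr rfl fun x _ => h8 x]
  have h10 : ∑ x ∈ Cyc G k, ∑ j : ZMod k, ∑ w ∈ T G k j x, kap V k *
        (KF (ff G k w (x j)) (ff G k (x j) w) * iz Phi (tauX G k x) (dX G k x) j) =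
      ∑ x ∈ Cyc G k, ∑ j : ZMod k, ∑ w ∈ T G k j x, (kap V k *
        (KF (ff G k w (x j)) (ff G k (x j) w) * iz Phi (tauX G k x) (dX G k x) j) + kap V k *
      (Xi j (tauX G k x j) (msk j (dX G k x)) (ff G k w (x j)) (ff G k (x j) w) -
        Xi j (tauX G k x j) (msk j (dX G k x)) (ff G k (x j) w) (ff G k w (x j)))) := by
    simp only [sum_add_distrib]
    rw [h9, add_zero]
  rw [h10, ← sum_add_distrib]
  refine sum_le_sum fun x _ => ?_
  rw [← sum_add_distrib]
  refine sum_le_sum fun j _ => ?_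
  rw [← sum_add_distrib]
  refine sum_le_sum fun w _ => ?_
  have a0 := hp (envX G k x) j _ _ (ff_nn (G := G) (k := k) w (x j))
    (ff_nn (G := G) (k := k) (x j) w)
  have a1 : KF (ff G k w (x j)) (ff G k (x j) w) * iz Phi (tauX G k x) (dX G k x) j +
      Xi j (tauX G k x j) (msk j (dX G k x)) (ff G k w (x j)) (ff G k (x j) w) -
      Xi j (tauX G k x j) (msk j (dX G k x)) (ff G k (x j) w) (ff G k w (x j)) ≤
      Hx (envX G k x) j (ff G k w (x j)) (ff G k (x j) w) +
        rr (envX G k x) j * ff G k (x j) w := a0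
  have a3 := mul_le_mul_of_nonneg_left a1 (kap_nonneg' (V := V) (k := k))
  linarith

end

/-- **the interface, one inequality for every cycle** -/
theorem reductionRowsGK {k : ℕ} [NeZero k] (hk : 6 ≤ k) {L : ℕ} (hL : 3 ≤ L) (hLk : L + 3 ≤ k)
    {B B' : ℝ} (g phi : ℝ → ℝ) (hg : ∀ t, 0 ≤ t → t ≤ (k : ℝ) → |g t| ≤ B)
    (hphi : ∀ t, 0 ≤ t → t ≤ (k : ℝ) → |phi t| ≤ B') {KF : ℝ → ℝ → ℝ} (hK : KerF L KF)
    {Phi : ℝ → ℝ → ℝ → ℝ} (hpos : ∀ d s t, 0 < Phi d s t)
    (hsymm : ∀ d s t, Phi d s t = Phi d t s) (Xi : Xfer k)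
    {Hx : Env k → ZMod k → ℝ → ℝ → ℝ} {rr : Env k → ZMod k → ℝ}
    (hH : ∀ (E : Env k) (j : ZMod k) (s t : ℝ), 0 ≤ s → 0 ≤ t →
      KF s t * iz Phi E.tau E.dx j + Xi j (E.tau j) (msk j E.dx) s t -
        Xi j (E.tau j) (msk j E.dx) t s ≤ Hx E j s t + rr E j * t)
    (pot : Pot k) {chi : Env k → Finset (ZMod k) → Finset (ZMod k) → ℝ}
    (hchi : ∀ E A D, chi E A D + chi E D A = 0)
    (XN : Finset (ZMod k) → (Finset (ZMod k) → ℝ) → Env k → ℝ)
    (XT : ZMod k → (Finset (ZMod k) → ℝ) → Env k → ℝ)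
    (hX : ∀ (U : Type) [Fintype U] (G : SimpleGraph U),
      (∀ a b c : U, G.Adj a b → G.Adj b c → ¬ G.Adj a c) →
      ∑ x ∈ Cyc G k, (∑ y ∈ nonT G k x, kap U k * XN (Ty G k x y) (NbM G k x y) (envX G k x) +
        ∑ j : ZMod k, ∑ w ∈ T G k j x, kap U k * XT j (NbM G k x w) (envX G k x)) ≤ 0)
    (hAll : ∀ (U : Type) [Fintype U] (G : SimpleGraph U),
      (∀ a b c : U, G.Adj a b → G.Adj b c → ¬ G.Adj a c) → ∀ x ∈ Cyc G k,
      posSK G k L KF Phi phi x ≤
        ∑ y ∈ nonT G k x, kap U k *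
          (valNK L KF Phi rr pot g phi chi (Ty G k x y) (NbM G k x y) (envX G k x) +
            XN (Ty G k x y) (NbM G k x y) (envX G k x)) +
        ∑ j : ZMod k, ∑ w ∈ T G k j x, kap U k *
          (valTE L Hx rr pot g phi chi j (NbM G k x w) (envX G k x) +
            XT j (NbM G k x w) (envX G k x)))
    {V : Type} [Fintype V] {G : SimpleGraph V}
    (tf : ∀ a b c : V, G.Adj a b → G.Adj b c → ¬ G.Adj a c) :
    NN G k * kap V k ^ k ≤ 2 * (k : ℝ) := by
  have hk5 : 5 ≤ k := by omega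
  refine reductionZc hk hL hLk g phi hg hphi ?_ tf
  intro U _ G tfG
  have hze := zeF_ok (G := G) hk5 tfG Phi hpos hsymm
  have hXG := hX U G tfG
  refine ⟨KG G k KF, zeF G k Phi,
    fun x y => ownK KF Phi (Ty G k x y) (NbM G k x y) (tauX G k x) (dX G k x),
    fun x w => (rewN L (-1) (Ty G k x w) (NbM G k x w) + rewN L 1 (Ty G k x w) (NbM G k x w)) / 2,
    fun x w => ∑ l ∈ Ty G k x w, rr (envX G k x) l * DD G k x l w +
      ∑ j : ZMod k, (if w ∈ T G k j x then
        Hx (envX G k x) j (ff G k w (x j)) (ff G k (x j) w) else 0),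
    fun x w => flowN pot (Ty G k x w) (NbM G k x w) (tauX G k x) (dX G k x) +
      ∑ D : Finset (ZMod k), NbM G k x w D * chi (envX G k x) (Ty G k x w) D,
    fun x => ∑ a : ZMod k, tauX G k x (a + 2) * KG G k KF (x (a + 2)) (x a) /
      zN Phi (tauX G k x) (dX G k x) (a + 1),
    fun x => (posDK G k L KF Phi phi x - posDK G k L KF Phi phi (rfx x)) / 2 +
      (∑ y ∈ nonT G k x, kap U k * XN (Ty G k x y) (NbM G k x y) (envX G k x) +
        ∑ j : ZMod k, ∑ w ∈ T G k j x, kap U k * XT j (NbM G k x w) (envX G k x)),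
    Ker_KG hK, fun x hx i => hpos _ _ _, ?_, ?_, ?_, ?_, ?_, ?_, ?_⟩
  · rw [sum_ownZ (KG G k KF) hze.symm]
    refine le_of_eq (sum_congr rfl fun x _ => sum_congr rfl fun y _ => ?_)
    rw [ownK_eq]
  · refine le_trans (le_of_eq ?_) (sum_rewXS (G := G) hk hL)
    refine sum_congr rfl fun x _ => sum_congr rfl fun w _ => ?_
    rw [rewXS_eq]
  · refine (sum_twG hk5 tfG hpos hsymm Xi hH).trans (le_of_eq ?_)
    rw [← sum_add_distrib]
    refine sum_congr rfl fun x _ => ?_
    have e1 : ∑ w : U, kap U k * (∑ l ∈ Ty G k x w, rr (envX G k x) l * DD G k x l w +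
        ∑ j : ZMod k, (if w ∈ T G k j x then
        Hx (envX G k x) j (ff G k w (x j)) (ff G k (x j) w) else 0)) =
        ∑ w : U, kap U k * ∑ l ∈ Ty G k x w, rr (envX G k x) l * DD G k x l w +
        ∑ j : ZMod k, ∑ w : U, (if w ∈ T G k j x then
          kap U k * Hx (envX G k x) j (ff G k w (x j)) (ff G k (x j) w) else 0) := by
      have e0 : ∑ j : ZMod k, ∑ w : U, (if w ∈ T G k j x then
          kap U k * Hx (envX G k x) j (ff G k w (x j)) (ff G k (x j) w) else 0) =
          ∑ w : U, ∑ j : ZMod k, (if w ∈ T G k j x then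
          kap U k * Hx (envX G k x) j (ff G k w (x j)) (ff G k (x j) w) else 0) := sum_comm
      rw [e0, ← sum_add_distrib]
      refine sum_congr rfl fun w _ => ?_
      have e5 : kap U k * ∑ j : ZMod k, (if w ∈ T G k j x then
          Hx (envX G k x) j (ff G k w (x j)) (ff G k (x j) w) else 0) =
          ∑ j : ZMod k, (if w ∈ T G k j x then
          kap U k * Hx (envX G k x) j (ff G k w (x j)) (ff G k (x j) w) else 0) := by
        rw [mul_sum]
        refine sum_congr rfl fun j _ => ?_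
        split_ifs
        · rfl
        · rw [mul_zero]
      rw [mul_add, e5]
    rw [e1, add_comm]
    congr 1
    refine sum_congr rfl fun j _ => ?_
    rw [← sum_filter]
    refine sum_congr ?_ fun _ _ => rfl
    ext w
    simp
  · refine le_of_eq ((sum_tw2_ze hk5 tfG (KG G k KF) hze).trans ?_)
    rfl
  · have h1 := potX_sum (G := G) hk5 tfG pot
    have h2 : ∀ x : ZMod k → U, ∑ y : U, kap U k *
        ∑ D : Finset (ZMod k), NbM G k x y D * chi (envX G k x) (Ty G k x y) D = 0 := by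
      intro x
      have h3 := sum_chg (G := G) (k := k)
        (fun u v => chi (envX G k x) (Ty G k x u) (Ty G k x v))
        (fun y z _ => hchi _ _ _)
      rw [← h3]
      refine sum_congr rfl fun y _ => ?_
      rw [chg_types (chi (envX G k x))]
    refine le_of_eq ?_
    rw [← h1]
    refine sum_congr rfl fun x _ => ?_
    simp only [mul_add, sum_add_distrib]
    rw [h2 x, add_zero]
    refine sum_congr rfl fun y _ => ?_
    rw [gflow_eq]
  · have h1 := sum_refl (G := G) (k := k) (posDK G k L KF Phi phi)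
    have h2 : ∑ x ∈ Cyc G k, posDK G k L KF Phi phi (rfx x) =
        ∑ x ∈ Cyc G k, posDK G k L KF Phi phi x := h1
    have h3 : ∑ x ∈ Cyc G k, (posDK G k L KF Phi phi x - posDK G k L KF Phi phi (rfx x)) / 2 = 0 := by
      rw [← sum_div, sum_sub_distrib, h2]
      simp
    rw [sum_add_distrib, h3, zero_add]
    exact hXG
  · intro x hx
    have hP' := hAll U G tfG x hx
    rw [← posDK_rfx hK.symm hsymm phi x] at hP'
    have hcl := sum_classes (G := G) hk5 x (fun w => kap U k *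
      (comE L rr pot g phi chi (Ty G k x w) (NbM G k x w) (envX G k x)))
    have hvT : ∑ j : ZMod k, ∑ w ∈ T G k j x, kap U k *
        (valTE L Hx rr pot g phi chi j (NbM G k x w) (envX G k x) +
          XT j (NbM G k x w) (envX G k x)) =
        ∑ j : ZMod k, ∑ w ∈ T G k j x, kap U k * comE L rr pot g phi chi (Ty G k x w)
          (NbM G k x w) (envX G k x) -
        ∑ j : ZMod k, ∑ w ∈ T G k j x, kap U k * Hx (envX G k x) j (ff G k w (x j))
          (ff G k (x j) w) +
        ∑ j : ZMod k, ∑ w ∈ T G k j x, kap U k * XT j (NbM G k x w) (envX G k x) := by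
      rw [← sum_sub_distrib, ← sum_add_distrib]
      refine sum_congr rfl fun j _ => ?_
      rw [← sum_sub_distrib, ← sum_add_distrib]
      refine sum_congr rfl fun w hw => ?_
      have hty : Ty G k x w = tT j := bas_mem_T.1 hw
      have e1 : (envX G k x).dx j = dX G k x j := rfl
      unfold valTE
      rw [hty, e1, ff_eq_N, ff_eq_N']
      ring
    have hvN : ∑ y ∈ nonT G k x, kap U k *
        (valNK L KF Phi rr pot g phi chi (Ty G k x y) (NbM G k x y) (envX G k x) +
          XN (Ty G k x y) (NbM G k x y) (envX G k x)) =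
        ∑ y ∈ nonT G k x, kap U k * (rD k (Ty G k x y) -
          ownK KF Phi (Ty G k x y) (NbM G k x y) (tauX G k x) (dX G k x)) +
        ∑ y ∈ nonT G k x, kap U k * comE L rr pot g phi chi (Ty G k x y) (NbM G k x y)
          (envX G k x) +
        ∑ y ∈ nonT G k x, kap U k * XN (Ty G k x y) (NbM G k x y) (envX G k x) := by
      rw [← sum_add_distrib, ← sum_add_distrib]
      refine sum_congr rfl fun y _ => ?_
      have e1 : (envX G k x).dx = dX G k x := rfl
      have e2 : (envX G k x).tau = tauX G k x := rfl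
      unfold valNK
      rw [e1, e2]
      ring
    have hTw : ∑ w : U, kap U k * ∑ j : ZMod k, (if w ∈ T G k j x then
        Hx (envX G k x) j (ff G k w (x j)) (ff G k (x j) w) else 0) =
        ∑ j : ZMod k, ∑ w ∈ T G k j x, kap U k * Hx (envX G k x) j (ff G k w (x j))
          (ff G k (x j) w) := by
      simp_rw [mul_sum]
      rw [sum_comm]
      refine sum_congr rfl fun j _ => ?_
      have e : ∀ w : U, kap U k * (if w ∈ T G k j x then
          Hx (envX G k x) j (ff G k w (x j)) (ff G k (x j) w) else 0) =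
          if w ∈ T G k j x then kap U k * Hx (envX G k x) j (ff G k w (x j))
            (ff G k (x j) w) else 0 := by
        intro w
        split_ifs
        · rfl
        · rw [mul_zero]
      rw [sum_congr rfl fun w _ => e w, ← sum_filter]
      refine sum_congr ?_ fun _ _ => rfl
      ext w
      simp
    have hcom : ∑ w : U, kap U k * comE L rr pot g phi chi (Ty G k x w) (NbM G k x w)
          (envX G k x) =
        ∑ w : U, kap U k * ((rewN L (-1) (Ty G k x w) (NbM G k x w) +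
            rewN L 1 (Ty G k x w) (NbM G k x w)) / 2 -
          (∑ l ∈ Ty G k x w, rr (envX G k x) l * DD G k x l w) +
          (flowN pot (Ty G k x w) (NbM G k x w) (tauX G k x) (dX G k x) +
            ∑ D : Finset (ZMod k), NbM G k x w D * chi (envX G k x) (Ty G k x w) D) +
          g (dg G k w) * (((Ty G k x w).card : ℝ) - dg G k w)) -
        ∑ w : U, kap U k * phi (dg G k w) := by
      rw [← sum_sub_distrib]
      refine sum_congr rfl fun w _ => ?_
      unfold comE
      have e1 : (envX G k x).dx = dX G k x := rfl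
      have e2 : (envX G k x).tau = tauX G k x := rfl
      have e : ∀ l : ZMod k, DD G k x l w = tauX G k x l - NbM G k x w (tT l) :=
        fun l => DD_eq_N x l w
      rw [e1, e2]
      simp only [e, ← dg_eq_dN]
      ring
    have hgoal : ∑ w : U, kap U k * ((rewN L (-1) (Ty G k x w) (NbM G k x w) +
            rewN L 1 (Ty G k x w) (NbM G k x w)) / 2 -
          (∑ l ∈ Ty G k x w, rr (envX G k x) l * DD G k x l w +
            ∑ j : ZMod k, (if w ∈ T G k j x then
              Hx (envX G k x) j (ff G k w (x j)) (ff G k (x j) w) else 0)) +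
          (flowN pot (Ty G k x w) (NbM G k x w) (tauX G k x) (dX G k x) +
            ∑ D : Finset (ZMod k), NbM G k x w D * chi (envX G k x) (Ty G k x w) D) +
          g (dg G k w) * (((Ty G k x w).card : ℝ) - dg G k w)) =
        ∑ w : U, kap U k * ((rewN L (-1) (Ty G k x w) (NbM G k x w) +
            rewN L 1 (Ty G k x w) (NbM G k x w)) / 2 -
          (∑ l ∈ Ty G k x w, rr (envX G k x) l * DD G k x l w) +
          (flowN pot (Ty G k x w) (NbM G k x w) (tauX G k x) (dX G k x) +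
            ∑ D : Finset (ZMod k), NbM G k x w D * chi (envX G k x) (Ty G k x w) D) +
          g (dg G k w) * (((Ty G k x w).card : ℝ) - dg G k w)) -
        ∑ w : U, kap U k * ∑ j : ZMod k, (if w ∈ T G k j x then
              Hx (envX G k x) j (ff G k w (x j)) (ff G k (x j) w) else 0) := by
      rw [← sum_sub_distrib]
      refine sum_congr rfl fun w _ => ?_
      ring
    have hcr : ∀ a : ZMod k, crK G k L (KG G k KF) (x (a + 2)) (x a) =
        crG G k L KF (x (a + 2)) (x a) := by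
      intro a
      have hr : rot a x ∈ Cyc G k := rot_mem_Cyc a hx
      obtain ⟨h1, h2⟩ := ff_pos hk5 tfG hr
      have e0 : rot a x 0 = x a := by unfold rot; rw [zero_add]
      have e2 : rot a x 2 = x (a + 2) := by unfold rot; rw [add_comm]
      rw [e0, e2] at h1 h2
      exact crK_KG _ _ _ _
    have hposE : PosZ G k L (KG G k KF) (zeF G k Phi x) x -
          ∑ a : ZMod k, crK G k L (KG G k KF) (x (a + 2)) (x a) +
        ∑ a : ZMod k, tauX G k x (a + 2) * KG G k KF (x (a + 2)) (x a) /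
          zN Phi (tauX G k x) (dX G k x) (a + 1) =
        posDK G k L KF Phi phi x + ∑ j : ZMod k, phi (dg G k (x j)) := by
      rw [sum_congr rfl fun a _ => hcr a]
      unfold PosZ posDK winX
      have e2 : ∀ i : ZMod k, zeF G k Phi x i = zN Phi (tauX G k x) (dX G k x) i := fun _ => rfl
      have e3 : ∀ j : ZMod k, mu k (T G k j x) = tauX G k x j := fun _ => rfl
      have e4 : ∀ j : ZMod k, dg G k (x j) = dX G k x j := fun _ => rfl
      simp only [e2, e3, e4, sum_add_distrib, sum_sub_distrib]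
      ring
    rw [hposE, hgoal, hTw]
    rw [hcom] at hcl
    rw [hvN, hvT] at hP'
    linarith

section

variable {k : ℕ} [NeZero k]

/-- one pair of positions at distance two -/
def pairK (L : ℕ) (KF : ℝ → ℝ → ℝ) (Phi : ℝ → ℝ → ℝ → ℝ) (E : Env k) (a : ZMod k) : ℝ :=
  1 - (E.tau a + E.tau (a + 2)) / 2 - KF (fUp E a) (fDn E a) +
    (E.tau a + E.tau (a + 2)) / 2 * KF (fUp E a) (fDn E a) / zN Phi E.tau E.dx (a + 1) +
    Real.log (zN Phi E.tau E.dx (a + 1)) -
    ((cL L (fUp E a) + cL L (fDn E a)) / 2 - JJ (KF (fUp E a) (fDn E a)))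

/-- the position block -/
def posK (L : ℕ) (KF : ℝ → ℝ → ℝ) (Phi : ℝ → ℝ → ℝ → ℝ) (phi : ℝ → ℝ) (E : Env k) : ℝ :=
  ∑ a : ZMod k, pairK L KF Phi E a -
    ∑ a : ZMod k, (JJ (E.dx a / 2) + JJ (E.tau a) + phi (E.dx a)) -
    ((k : ℝ) - 5) * ∑ a : ZMod k, JJ (max 1 (E.tau a))

/-- value of a member of the class `j` -/
def valTK (L : ℕ) (Hx : Env k → ZMod k → ℝ → ℝ → ℝ) (rr : Env k → ZMod k → ℝ)
    (pot : Pot k) (g phi : ℝ → ℝ) (chi : Env k → Finset (ZMod k) → Finset (ZMod k) → ℝ)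
    (j : ZMod k) (N : Finset (ZMod k) → ℝ) (E : Env k) : ℝ :=
  1 / max 1 (E.tau j) * ((rewN L (-1) (tT j) N + rewN L 1 (tT j) N) / 2) +
    valTR Hx rr pot g phi chi j N E

end

section

variable {V : Type} [Fintype V] {G : SimpleGraph V} {k : ℕ} [NeZero k]

/-- the window credit of the heavy classes, mean of the two directions -/
theorem win_creditS {L : ℕ} (hk : 6 ≤ k) (hL : 3 ≤ L) (x : ZMod k → V) :
    ((k : ℝ) - 5) * ∑ j : ZMod k, JJ (max 1 (tauX G k x j)) -
      ∑ j : ZMod k, (1 - 1 / max 1 (tauX G k x j)) *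
        ∑ w ∈ T G k j x, kap V k * rewXS G k L x w ≤
    (winX G k L x + winX G k L (rfx x)) / 2 := by
  have hc : ∀ j : ZMod k, 0 ≤ 1 - 1 / max 1 (tauX G k x j) := by
    intro j
    have h : (1 : ℝ) ≤ max 1 (tauX G k x j) := le_max_left _ _
    rw [sub_nonneg, div_le_one (by linarith)]
    exact h
  have hgen : ∀ z : ZMod k → V,
      ((k : ℝ) - 5) * ∑ j : ZMod k, JJ (max 1 (tauX G k z j)) -
      ∑ j : ZMod k, (1 - 1 / max 1 (tauX G k z j)) *
        ∑ w ∈ T G k j z, kap V k * rewX G k L z w ≤ winX G k L z := by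
    intro z
    have h := win_credit (G := G) hk hL z
    have h2 : ∑ j : ZMod k, (1 - 1 / max 1 (mu k (T G k j z))) *
        ∑ w ∈ T G k j z, kap V k * rwT G k L z j w ≤
        ∑ j : ZMod k, (1 - 1 / max 1 (tauX G k z j)) *
        ∑ w ∈ T G k j z, kap V k * rewX G k L z w := by
      refine sum_le_sum fun j _ => mul_le_mul_of_nonneg_left ?_ ?_
      · exact sum_le_sum fun w hw => mul_le_mul_of_nonneg_left (rwT_le (by omega) hw) kap_nonneg'
      · have h : (1 : ℝ) ≤ max 1 (mu k (T G k j z)) := le_max_left _ _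
        rw [sub_nonneg, div_le_one (by linarith)]
        exact h
    have e1 : ∀ j : ZMod k, mu k (T G k j z) = tauX G k z j := fun _ => rfl
    unfold winX
    simp only [e1] at h h2
    linarith
  have h1 := hgen x
  have h2 := hgen (rfx x)
  have hneg : ∀ f : ZMod k → ℝ, ∑ j : ZMod k, f (-j) = ∑ j : ZMod k, f j := fun f =>
    Equiv.sum_comp (Equiv.neg (ZMod k)) f
  have e1 : ∑ j : ZMod k, JJ (max 1 (tauX G k (rfx x) j)) =
      ∑ j : ZMod k, JJ (max 1 (tauX G k x j)) := by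
    simp_rw [tauX_rfx]
    exact hneg fun j => JJ (max 1 (tauX G k x j))
  have e2 : ∑ j : ZMod k, (1 - 1 / max 1 (tauX G k (rfx x) j)) *
        ∑ w ∈ T G k j (rfx x), kap V k * rewX G k L (rfx x) w =
      ∑ j : ZMod k, (1 - 1 / max 1 (tauX G k x j)) *
        ∑ w ∈ T G k j x, kap V k * rewX G k L (rfx x) w := by
    simp_rw [tauX_rfx, T_rfx]
    exact hneg fun j => (1 - 1 / max 1 (tauX G k x j)) *
        ∑ w ∈ T G k j x, kap V k * rewX G k L (rfx x) w
  rw [e1, e2] at h2
  have e3 : ∑ j : ZMod k, (1 - 1 / max 1 (tauX G k x j)) *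
        ∑ w ∈ T G k j x, kap V k * rewXS G k L x w =
      (∑ j : ZMod k, (1 - 1 / max 1 (tauX G k x j)) *
        ∑ w ∈ T G k j x, kap V k * rewX G k L x w +
      ∑ j : ZMod k, (1 - 1 / max 1 (tauX G k x j)) *
        ∑ w ∈ T G k j x, kap V k * rewX G k L (rfx x) w) / 2 := by
    rw [← sum_add_distrib, sum_div]
    refine sum_congr rfl fun j _ => ?_
    rw [← mul_add, ← sum_add_distrib, mul_div_assoc, sum_div]
    congr 1
    refine sum_congr rfl fun w _ => ?_
    unfold rewXS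
    ring
  rw [e3]
  linarith

lemma pairXK_eq (L : ℕ) (KF : ℝ → ℝ → ℝ) (Phi : ℝ → ℝ → ℝ → ℝ) (x : ZMod k → V)
    (a : ZMod k) : pairXK G k L KF Phi x a = pairK L KF Phi (envX G k x) a := by
  unfold pairXK pairK KG crG
  rw [ff_fUp, ff_fDn]
  rfl

/-- the position block and the environment -/
theorem posSK_le (hk : 6 ≤ k) (x : ZMod k → V) {L : ℕ} (hL : 3 ≤ L) (KF : ℝ → ℝ → ℝ)
    (Phi : ℝ → ℝ → ℝ → ℝ) (phi : ℝ → ℝ) :
    posSK G k L KF Phi phi x ≤ posK L KF Phi phi (envX G k x) +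
      ∑ j : ZMod k, (1 - 1 / max 1 (tauX G k x j)) *
        ∑ w ∈ T G k j x, kap V k * rewXS G k L x w := by
  have h1 := win_creditS (G := G) hk hL x
  unfold posSK posK
  rw [sum_congr rfl fun a _ => pairXK_eq L KF Phi x a]
  have e1 : (envX G k x).tau = tauX G k x := rfl
  have e2 : (envX G k x).dx = dX G k x := rfl
  rw [e1, e2]
  linarith

/-- **the interface, final form with a general kernel** -/
theorem reductionRowsK {k : ℕ} [NeZero k] (hk : 6 ≤ k) {L : ℕ} (hL : 3 ≤ L) (hLk : L + 3 ≤ k)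
    {B B' : ℝ} (g phi : ℝ → ℝ) (hg : ∀ t, 0 ≤ t → t ≤ (k : ℝ) → |g t| ≤ B)
    (hphi : ∀ t, 0 ≤ t → t ≤ (k : ℝ) → |phi t| ≤ B') {KF : ℝ → ℝ → ℝ} (hK : KerF L KF)
    {Phi : ℝ → ℝ → ℝ → ℝ} (hpos : ∀ d s t, 0 < Phi d s t)
    (hsymm : ∀ d s t, Phi d s t = Phi d t s) (Xi : Xfer k)
    {Hx : Env k → ZMod k → ℝ → ℝ → ℝ} {rr : Env k → ZMod k → ℝ}
    (hH : ∀ (E : Env k) (j : ZMod k) (s t : ℝ), 0 ≤ s → 0 ≤ t →
      KF s t * iz Phi E.tau E.dx j + Xi j (E.tau j) (msk j E.dx) s t -
        Xi j (E.tau j) (msk j E.dx) t s ≤ Hx E j s t + rr E j * t)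
    (pot : Pot k) {chi : Env k → Finset (ZMod k) → Finset (ZMod k) → ℝ}
    (hchi : ∀ E A D, chi E A D + chi E D A = 0)
    (XN : Finset (ZMod k) → (Finset (ZMod k) → ℝ) → Env k → ℝ)
    (XT : ZMod k → (Finset (ZMod k) → ℝ) → Env k → ℝ)
    (hX : ∀ (U : Type) [Fintype U] (G : SimpleGraph U),
      (∀ a b c : U, G.Adj a b → G.Adj b c → ¬ G.Adj a c) →
      ∑ x ∈ Cyc G k, (∑ y ∈ nonT G k x, kap U k * XN (Ty G k x y) (NbM G k x y) (envX G k x) +
        ∑ j : ZMod k, ∑ w ∈ T G k j x, kap U k * XT j (NbM G k x w) (envX G k x)) ≤ 0)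
    (rN : Finset (ZMod k) → Env k → ℝ) (rT : ZMod k → Env k → ℝ)
    (hN : ∀ (A : Finset (ZMod k)) (N : Finset (ZMod k) → ℝ) (E : Env k),
      DataE A N E → (∀ j, A ≠ tT j) →
        rN A E ≤ valNK L KF Phi rr pot g phi chi A N E + XN A N E)
    (hT : ∀ (j : ZMod k) (N : Finset (ZMod k) → ℝ) (E : Env k),
      DataE (tT j) N E → rT j E ≤ valTK L Hx rr pot g phi chi j N E + XT j N E)
    (hP : ∀ E : Env k, EnvOK E → posK L KF Phi phi E ≤
      ∑ A ∈ univ.filter (fun A : Finset (ZMod k) => ∀ j, A ≠ tT j), E.m A * rN A E +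
        ∑ j : ZMod k, E.tau j * rT j E)
    {V : Type} [Fintype V] {G : SimpleGraph V}
    (tf : ∀ a b c : V, G.Adj a b → G.Adj b c → ¬ G.Adj a c) :
    NN G k * kap V k ^ k ≤ 2 * (k : ℝ) := by
  have hk5 : 5 ≤ k := by omega
  refine reductionRowsGK hk hL hLk g phi hg hphi hK hpos hsymm Xi hH pot hchi XN XT hX ?_ tf
  intro U _ G tfG x hx
  have hE := env_ok hk5 tfG hx
  have h1 := posSK_le (G := G) hk x hL KF Phi phi
  have h2 := hP _ hE
  have h3 : ∑ A ∈ univ.filter (fun A : Finset (ZMod k) => ∀ j, A ≠ tT j),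
      (envX G k x).m A * rN A (envX G k x) =
      ∑ y ∈ nonT G k x, kap U k * rN (Ty G k x y) (envX G k x) := by
    have h := sum_types (G := G) x
      (fun A => if ∀ j, A ≠ tT j then rN A (envX G k x) else 0)
    have e1 : ∑ y : U, kap U k *
        (if ∀ j, Ty G k x y ≠ tT j then rN (Ty G k x y) (envX G k x) else 0) =
        ∑ y ∈ nonT G k x, kap U k * rN (Ty G k x y) (envX G k x) := by
      unfold nonT
      rw [sum_filter]
      refine sum_congr rfl fun y _ => ?_
      by_cases hy : ∀ j, Ty G k x y ≠ tT j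
      · rw [if_pos hy, if_pos fun j hj => hy j (bas_mem_T.1 hj)]
      · rw [if_neg hy, if_neg fun h' => hy fun j hj => h' j (bas_mem_T.2 hj), mul_zero]
    rw [← e1, h, sum_filter]
    refine sum_congr rfl fun A _ => ?_
    split_ifs
    · rfl
    · rw [mul_zero]
  have hn : ∀ y ∈ nonT G k x, kap U k * rN (Ty G k x y) (envX G k x) ≤
      kap U k * (valNK L KF Phi rr pot g phi chi (Ty G k x y) (NbM G k x y) (envX G k x) +
        XN (Ty G k x y) (NbM G k x y) (envX G k x)) := by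
    intro y hy
    refine mul_le_mul_of_nonneg_left (hN _ _ _ (dataE_ok hk5 tfG hx y) ?_) kap_nonneg
    intro j hj
    have h1 : ∀ j : ZMod k, y ∉ T G k j x := by simpa [nonT] using hy
    exact h1 j (bas_mem_T.2 hj)
  have ht : ∀ j : ZMod k, (envX G k x).tau j * rT j (envX G k x) +
      (1 - 1 / max 1 (tauX G k x j)) * ∑ w ∈ T G k j x, kap U k * rewXS G k L x w ≤
      ∑ w ∈ T G k j x, kap U k * (valTE L Hx rr pot g phi chi j (NbM G k x w) (envX G k x) +
        XT j (NbM G k x w) (envX G k x)) := by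
    intro j
    have e : (envX G k x).tau j * rT j (envX G k x) =
        ∑ w ∈ T G k j x, kap U k * rT j (envX G k x) := by
      show mu k (T G k j x) * _ = _
      rw [mu_eq_sum, sum_mul]
    rw [e, mul_sum, ← sum_add_distrib]
    refine sum_le_sum fun w hw => ?_
    have e2 : kap U k * rT j (envX G k x) +
        (1 - 1 / max 1 (tauX G k x j)) * (kap U k * rewXS G k L x w) =
        kap U k * (rT j (envX G k x) + (1 - 1 / max 1 (tauX G k x j)) * rewXS G k L x w) := by
      ring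
    rw [e2]
    refine mul_le_mul_of_nonneg_left ?_ kap_nonneg
    have hty : Ty G k x w = tT j := bas_mem_T.1 hw
    have hd := dataE_ok hk5 tfG hx w
    rw [hty] at hd
    have h4 := hT j _ _ hd
    have e3 : (envX G k x).tau j = tauX G k x j := rfl
    unfold valTK at h4
    rw [e3] at h4
    rw [valTE_eq, rewXS_eq, hty]
    linarith
  have hsn := sum_le_sum hn
  have hst := sum_le_sum fun j (_ : j ∈ (univ : Finset (ZMod k))) => ht j
  rw [sum_add_distrib] at hst
  rw [h3] at h2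
  linarith

end

end

end Pool.Agent.ICyc.D
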