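import Pool.Agent.Lib.MP_131fce_co.D.Ker0
import Pool.Agent.Lib.MP_131fce_co.D.Rows5

/-!
# Induced k-cycles in triangle-free graphs: the position block with an explicit kernel

One pair of positions at distance two, with the whole deficit `JJ (tau)` of the two positions:
the supremum over the two masses is `-log (kappa (2 - kappa))` minus the window credits, where
`kappa = K / zeta`.
-/

set_option autoImplicit false

namespace Pool.Agent.ICyc.D

open Finset Pool.Agent.ICyc
open scoped Classical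

/-- the supremum over the mass of a class -/
theorem sup_tau {x t : ℝ} (hx : -1 < x) (ht : 0 < t) : (1 - t) * x - JJ t ≤ JJ (1 + x) := by
  have h1 : 0 < 1 + x := by linarith
  have h := Real.log_le_sub_one_of_pos (mul_pos ht h1)
  rw [Real.log_mul ht.ne' h1.ne'] at h
  unfold JJ
  linarith

/-- the same with a share `w` of the deficit -/
theorem sup_tau_w {w x t : ℝ} (hw : 0 < w) (hx : -w < x) (ht : 0 < t) :
    (1 - t) * x - w * JJ t ≤ w * JJ (1 + x / w) := by
  have h1 : -1 < x / w := by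
    rw [lt_div_iff₀ hw]
    linarith
  have h := mul_le_mul_of_nonneg_left (sup_tau h1 ht) hw.le
  have e : w * ((1 - t) * (x / w) - JJ t) = (1 - t) * x - w * JJ t := by
    field_simp
  linarith

/-- **one pair of positions**: the exact supremum over the two masses -/
theorem pair_exact {K z t t' : ℝ} (hK : 0 < K) (hz : 0 < z) (hKz : K < 2 * z) (ht : 0 < t)
    (ht' : 0 < t') :
    1 - (t + t') / 2 - K + (t + t') / 2 * K / z + Real.log z + JJ K ≤
      (JJ t + JJ t') / 2 - Real.log (K / z * (2 - K / z)) := by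
  have hk1 : 0 < K / z := div_pos hK hz
  have hk2 : K / z < 2 := by
    rw [div_lt_iff₀ hz]
    linarith
  have h1 := sup_tau (x := 1 - K / z) (by linarith) ht
  have h2 := sup_tau (x := 1 - K / z) (by linarith) ht'
  have e1 : JJ (1 + (1 - K / z)) = 1 - K / z - Real.log (2 - K / z) := by
    rw [show 1 + (1 - K / z) = 2 - K / z by ring]
    unfold JJ
    ring
  rw [e1] at h1 h2
  have e2 : Real.log (K / z * (2 - K / z)) = Real.log K - Real.log z + Real.log (2 - K / z) := by
    rw [Real.log_mul hk1.ne' (by linarith), Real.log_div hK.ne' hz.ne']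
  have e3 : (t + t') / 2 * K / z = (t + t') / 2 * (K / z) := by ring
  have e4 : JJ K = K - 1 - Real.log K := rfl
  rw [e2, e3, e4]
  nlinarith

/-- the loss of the normaliser -/
noncomputable def zloss (K z : ℝ) : ℝ := 2 * Real.log z - Real.log ((2 * z - K) / (2 - K))

lemma log_kappa {K z : ℝ} (hK : 0 < K) (hK1 : K < 2) (hz : 0 < z) (hKz : K < 2 * z) :
    -Real.log (K / z * (2 - K / z)) = -Real.log (K * (2 - K)) + zloss K z := by
  have h1 : 0 < 2 * z - K := by linarith
  have h2 : 0 < 2 - K := by linarith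
  have e : K / z * (2 - K / z) = K * (2 * z - K) / z ^ 2 := by
    field_simp
  unfold zloss
  rw [e, Real.log_div (mul_pos hK h1).ne' (by positivity), Real.log_mul hK.ne' h1.ne',
    Real.log_mul hK.ne' h2.ne', Real.log_div h1.ne' h2.ne', Real.log_pow]
  push_cast
  ring

/-- the loss of the normaliser is nonnegative for `K ≤ 1 ≤ z` -/
lemma zloss_nonneg {K z : ℝ} (hK1 : K ≤ 1) (hz : 1 ≤ z) : 0 ≤ zloss K z := by
  unfold zloss
  have h1 : 0 < 2 - K := by linarith
  have h2 : (2 * z - K) / (2 - K) ≤ z ^ 2 := by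
    rw [div_le_iff₀ h1]
    nlinarith [mul_nonneg (show 0 ≤ 1 - K by linarith) (show 0 ≤ z ^ 2 - 1 by nlinarith),
      sq_nonneg (z - 1)]
  have h3 := Real.log_le_log (div_pos (by linarith) h1) h2
  rw [Real.log_pow] at h3
  push_cast at h3
  linarith

/-- the loss of the normaliser -/
lemma zloss_le {K z : ℝ} (hK1 : K ≤ 1) (hz : 1 ≤ z) :
    zloss K z ≤ ((z - 1) ^ 2 * (2 - K) + 2 * (z - 1) * (1 - K)) / (2 * z - K) := by
  have h1 : 0 < 2 - K := by linarith
  have h2 : 0 < 2 * z - K := by linarith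
  have h3 : 0 < z := by linarith
  have e : zloss K z = Real.log (z ^ 2 * (2 - K) / (2 * z - K)) := by
    unfold zloss
    rw [Real.log_div (by positivity) h2.ne', Real.log_mul (by positivity) h1.ne',
      Real.log_div h2.ne' h1.ne', Real.log_pow]
    push_cast
    ring
  rw [e]
  refine (Real.log_le_sub_one_of_pos (by positivity)).trans (le_of_eq ?_)
  rw [div_sub_one h2.ne']
  congr 1
  ring

/-- with `K = 1` it is at most `(z - 1) ^ 2`, and every unit of `1 - K` adds at most `2 (z - 1)` -/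
lemma zloss_le' {K z : ℝ} (hK1 : K ≤ 1) (hz : 1 ≤ z) :
    zloss K z ≤ (z - 1) ^ 2 + 2 * (1 - K) * (z - 1) := by
  refine (zloss_le hK1 hz).trans ?_
  have h2 : 0 < 2 * z - K := by linarith
  rw [div_le_iff₀ h2]
  have a : 0 ≤ z - 1 := by linarith
  have b : 0 ≤ 1 - K := by linarith
  have c := mul_nonneg a b
  have d := mul_nonneg (mul_nonneg a a) a
  have e := mul_nonneg (mul_nonneg a a) b
  have f := mul_nonneg c b
  nlinarith

/-- at `z = 1` nothing is lost -/
lemma zloss_one {K : ℝ} (hK1 : K < 2) : zloss K 1 = 0 := by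
  unfold zloss
  rw [Real.log_one, mul_one, div_self (by linarith), Real.log_one]
  ring

/-- one pair of positions, general normaliser -/
theorem pair_zeta {K z t t' : ℝ} (hK : 0 < K) (hK1 : K < 2) (hz : 0 < z) (hKz : K < 2 * z)
    (ht : 0 < t) (ht' : 0 < t') :
    1 - (t + t') / 2 - K + (t + t') / 2 * K / z + Real.log z ≤
      (JJ t + JJ t') / 2 + JJ (2 - K) + zloss K z := by
  have h := pair_exact hK hz hKz ht ht'
  have h1 := log_kappa hK hK1 hz hKz
  have h2 := neg_log_mul hK hK1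
  linarith

/-- a condition on the kernel: the window credits that it does not use pay for the pair, up to a
remainder `R` -/
structure KerPay (KF : ℝ → ℝ → ℝ) (R : ℝ → ℝ → ℝ) : Prop where
  pos : ∀ s t, 0 < s → 0 < t → 0 < KF s t
  le_one : ∀ s t, KF s t ≤ 1
  pay : ∀ s t, 0 < s → 0 < t →
    JJ (2 - KF s t) + R s t ≤ (cL 3 s + cL 3 t) / 2 - JJ (KF s t)

theorem KerPay_K0 {q : ℝ} (hq : 0 ≤ q) :
    KerPay (K0 q) (fun s t => (1 / 2 - q) * (JJ (max 1 s) + JJ (max 1 t))) where
  pos := fun _ _ hs ht => K0_pos q hs ht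
  le_one := fun s t => K0_le_one q s t
  pay := fun _ _ hs ht => (K0_cost_eq hq hs ht).ge

theorem KerPay_K3 : KerPay K3 (fun s t => 1 / 2 * (JJ (max 1 s) + JJ (max 1 t))) where
  pos := fun _ _ hs ht => K3_pos hs ht
  le_one := fun s t => K3_le_one s t
  pay := fun _ _ hs ht => K3_cost_ge hs ht

theorem KerF_K0 {q : ℝ} (hq : 0 ≤ q) (hq' : q ≤ 1 / 2) : KerF 3 (K0 q) where
  nn := K0_nonneg q
  symm := K0_symm q
  pos := fun _ _ hs ht => K0_pos q hs ht
  cost := fun _ _ hs ht => K0_cost hq hq' hs ht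

theorem KerF_K3 : KerF 3 K3 where
  nn := K3_nonneg
  symm := K3_symm
  pos := fun _ _ hs ht => K3_pos hs ht
  cost := fun _ _ hs ht => K3_cost hs ht

/-- one pair of positions with a kernel that pays -/
theorem pair_pay {KF R : ℝ → ℝ → ℝ} (h : KerPay KF R) {s t z u v : ℝ} (hs : 0 < s) (ht : 0 < t)
    (hz : 1 / 2 < z) (hu : 0 < u) (hv : 0 < v) :
    1 - (u + v) / 2 - KF s t + (u + v) / 2 * KF s t / z + Real.log z -
        ((cL 3 s + cL 3 t) / 2 - JJ (KF s t)) ≤
      (JJ u + JJ v) / 2 - R s t + zloss (KF s t) z := by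
  have h1 := h.pos s t hs ht
  have h2 := h.le_one s t
  have h3 := h.pay s t hs ht
  have h4 := pair_zeta (z := z) h1 (by linarith) (by linarith) (by linarith) hu hv
  linarith

section

variable {k : ℕ} [NeZero k]

lemma sum_shift (f : ZMod k → ℝ) (c : ZMod k) : ∑ a : ZMod k, f (a + c) = ∑ a : ZMod k, f a :=
  Fintype.sum_equiv (Equiv.addRight c) _ _ fun _ => rfl

/-- **the position block**, for arbitrary functions: masses `tau`, differences `u`, `d`,
normalisers `z` -/
theorem pos_pay {KF R : ℝ → ℝ → ℝ} (h : KerPay KF R) {tau u d z : ZMod k → ℝ}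
    (ht : ∀ a, 0 < tau a) (hu : ∀ a, 0 < u a) (hd : ∀ a, 0 < d a) (hz : ∀ a, 1 / 2 < z a) :
    ∑ a : ZMod k, (1 - (tau a + tau (a + 2)) / 2 - KF (u a) (d a) +
        (tau a + tau (a + 2)) / 2 * KF (u a) (d a) / z (a + 1) + Real.log (z (a + 1)) -
        ((cL 3 (u a) + cL 3 (d a)) / 2 - JJ (KF (u a) (d a)))) ≤
      ∑ a : ZMod k, JJ (tau a) - ∑ a : ZMod k, R (u a) (d a) +
        ∑ a : ZMod k, zloss (KF (u a) (d a)) (z (a + 1)) := by
  have h1 : ∑ a : ZMod k, (1 - (tau a + tau (a + 2)) / 2 - KF (u a) (d a) +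
        (tau a + tau (a + 2)) / 2 * KF (u a) (d a) / z (a + 1) + Real.log (z (a + 1)) -
        ((cL 3 (u a) + cL 3 (d a)) / 2 - JJ (KF (u a) (d a)))) ≤
      ∑ a : ZMod k, ((JJ (tau a) + JJ (tau (a + 2))) / 2 - R (u a) (d a) +
        zloss (KF (u a) (d a)) (z (a + 1))) :=
    sum_le_sum fun a _ => pair_pay h (hu a) (hd a) (hz (a + 1)) (ht a) (ht (a + 2))
  refine h1.trans (le_of_eq ?_)
  rw [sum_add_distrib, sum_sub_distrib, ← sum_div, sum_add_distrib,
    sum_shift (fun a => JJ (tau a)) 2]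
  ring

/-- the case of the normaliser `1` -/
theorem pos_pay_one {KF R : ℝ → ℝ → ℝ} (h : KerPay KF R) {tau u d : ZMod k → ℝ}
    (ht : ∀ a, 0 < tau a) (hu : ∀ a, 0 < u a) (hd : ∀ a, 0 < d a) :
    ∑ a : ZMod k, ((1 - (tau a + tau (a + 2)) / 2) * (1 - KF (u a) (d a)) -
        ((cL 3 (u a) + cL 3 (d a)) / 2 - JJ (KF (u a) (d a)))) ≤
      ∑ a : ZMod k, JJ (tau a) - ∑ a : ZMod k, R (u a) (d a) := by
  have h1 := pos_pay (z := fun _ => 1) h ht hu hd (fun _ => by norm_num)
  have e : ∑ a : ZMod k, zloss (KF (u a) (d a)) 1 = 0 :=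
    sum_eq_zero fun a _ => zloss_one (by have := h.le_one (u a) (d a); linarith)
  rw [e, add_zero] at h1
  refine le_trans (le_of_eq ?_) h1
  refine sum_congr rfl fun a _ => ?_
  simp only [Real.log_one, div_one]
  ring

/-! ### the differences of an environment are positive -/

lemma fUp_eq {E : Env k} (hE : EnvOK E) (a : ZMod k) :
    fUp E a = ∑ B ∈ univ.filter (fun B : Finset (ZMod k) => a + 2 ∈ B ∧ a ∉ B), E.m B := by
  unfold fUp pmE
  rw [← hE.m_dx (a + 2)]
  have h := sum_filter_add_sum_filter_not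
    (univ.filter (fun B : Finset (ZMod k) => a + 2 ∈ B)) (fun B => a ∈ B) E.m
  rw [filter_filter, filter_filter] at h
  have e : univ.filter (fun B : Finset (ZMod k) => a ∈ B ∧ a + 2 ∈ B) =
      univ.filter (fun B : Finset (ZMod k) => a + 2 ∈ B ∧ a ∈ B) := by
    ext B
    simp only [mem_filter, and_comm]
  rw [e]
  linarith

lemma fDn_eq {E : Env k} (hE : EnvOK E) (a : ZMod k) :
    fDn E a = ∑ B ∈ univ.filter (fun B : Finset (ZMod k) => a ∈ B ∧ a + 2 ∉ B), E.m B := by
  unfold fDn pmE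
  rw [← hE.m_dx a]
  have h := sum_filter_add_sum_filter_not
    (univ.filter (fun B : Finset (ZMod k) => a ∈ B)) (fun B => a + 2 ∈ B) E.m
  rw [filter_filter, filter_filter] at h
  linarith

lemma fUp_ge (hk : 5 ≤ k) {E : Env k} (hE : EnvOK E) (a : ZMod k) :
    E.tau (a + 3) ≤ fUp E a := by
  rw [fUp_eq hE, ← hE.m_T]
  refine single_le_sum (f := E.m) (fun B _ => hE.m_nn B) ?_
  rw [mem_filter, mem_tT, mem_tT]
  refine ⟨mem_univ _, Or.inl (by ring), ?_⟩
  rintro (h | h)
  · exact two_ne_zero' hk (by linear_combination -h)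
  · exact four_ne_zero' hk (by linear_combination -h)

lemma fDn_ge (hk : 5 ≤ k) {E : Env k} (hE : EnvOK E) (a : ZMod k) :
    E.tau (a - 1) ≤ fDn E a := by
  rw [fDn_eq hE, ← hE.m_T]
  refine single_le_sum (f := E.m) (fun B _ => hE.m_nn B) ?_
  rw [mem_filter, mem_tT, mem_tT]
  refine ⟨mem_univ _, Or.inr (by ring), ?_⟩
  rintro (h | h)
  · exact four_ne_zero' hk (by linear_combination h)
  · exact two_ne_zero' hk (by linear_combination h)

lemma fUp_pos (hk : 5 ≤ k) {E : Env k} (hE : EnvOK E) (a : ZMod k) : 0 < fUp E a :=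
  lt_of_lt_of_le (hE.tau_pos _) (fUp_ge hk hE a)

lemma fDn_pos (hk : 5 ≤ k) {E : Env k} (hE : EnvOK E) (a : ZMod k) : 0 < fDn E a :=
  lt_of_lt_of_le (hE.tau_pos _) (fDn_ge hk hE a)

/-- **the position block** of an environment, with a kernel that pays: the deficits `JJ (tau)` are
spent completely -/
theorem posK_pay (hk : 5 ≤ k) {E : Env k} (hE : EnvOK E) {KF R : ℝ → ℝ → ℝ} (h : KerPay KF R)
    {Phi : ℝ → ℝ → ℝ → ℝ} (hz : ∀ a, 1 / 2 < zN Phi E.tau E.dx a) (phi : ℝ → ℝ) :
    posK 3 KF Phi phi E ≤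
      ∑ a : ZMod k, zloss (KF (fUp E a) (fDn E a)) (zN Phi E.tau E.dx (a + 1)) -
        ∑ a : ZMod k, R (fUp E a) (fDn E a) - ∑ a : ZMod k, (JJ (E.dx a / 2) + phi (E.dx a)) -
        ((k : ℝ) - 5) * ∑ a : ZMod k, JJ (max 1 (E.tau a)) := by
  have h1 := pos_pay h hE.tau_pos (fun a => fUp_pos hk hE a) (fun a => fDn_pos hk hE a) hz
  have e : ∑ a : ZMod k, pairK 3 KF Phi E a =
      ∑ a : ZMod k, (1 - (E.tau a + E.tau (a + 2)) / 2 - KF (fUp E a) (fDn E a) +
        (E.tau a + E.tau (a + 2)) / 2 * KF (fUp E a) (fDn E a) / zN Phi E.tau E.dx (a + 1) +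
        Real.log (zN Phi E.tau E.dx (a + 1)) -
        ((cL 3 (fUp E a) + cL 3 (fDn E a)) / 2 - JJ (KF (fUp E a) (fDn E a)))) := rfl
  have e2 : ∑ a : ZMod k, (JJ (E.dx a / 2) + JJ (E.tau a) + phi (E.dx a)) =
      ∑ a : ZMod k, (JJ (E.dx a / 2) + phi (E.dx a)) + ∑ a : ZMod k, JJ (E.tau a) := by
    rw [← sum_add_distrib]
    exact sum_congr rfl fun a _ => by ring
  unfold posK
  rw [e, e2]
  linarith

/-- the case of the normaliser `1` -/
theorem posK_pay_one (hk : 5 ≤ k) {E : Env k} (hE : EnvOK E) {KF R : ℝ → ℝ → ℝ}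
    (h : KerPay KF R) (phi : ℝ → ℝ) :
    posK 3 KF (fun _ _ _ => 1) phi E ≤
      -∑ a : ZMod k, R (fUp E a) (fDn E a) - ∑ a : ZMod k, (JJ (E.dx a / 2) + phi (E.dx a)) -
        ((k : ℝ) - 5) * ∑ a : ZMod k, JJ (max 1 (E.tau a)) := by
  have h1 := posK_pay (Phi := fun _ _ _ => 1) hk hE h (fun _ => by unfold zN; norm_num) phi
  have e : ∑ a : ZMod k, zloss (KF (fUp E a) (fDn E a))
      (zN (fun _ _ _ => 1) E.tau E.dx (a + 1)) = 0 :=
    sum_eq_zero fun a _ => by
      unfold zN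
      exact zloss_one (by have := h.le_one (fUp E a) (fDn E a); linarith)
  linarith

end

end Pool.Agent.ICyc.D
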