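import Pool.Agent.Lib.MP_131fce_co.D.KStar

/-!
# Induced k-cycles in triangle-free graphs: the pair inequality of the position lemma

One inequality for every position `b`, in the masses `u, v` of the two classes next to `b`, the mass
`n` of the other neighbours of `x b` and the parts `r1, r2` of it that are seen by one side only.
-/

set_option autoImplicit false

namespace Pool.Agent.ICyc.D

open Finset Pool.Agent.ICyc
open scoped Classical

/-! ### Padé bounds -/

lemma log_le_pade {z : ℝ} (hz : -1 < z) : Real.log (1 + z) ≤ z * (6 + z) / (6 + 4 * z) := by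
  have hd : ∀ y : ℝ, -1 < y → HasDerivAt (fun y : ℝ => y * (6 + y) / (6 + 4 * y) - Real.log (1 + y))
      (4 * y ^ 3 / ((6 + 4 * y) ^ 2 * (1 + y))) y := by
    intro y hy
    have h1 : (1 : ℝ) + y ≠ 0 := by
      have : 0 < 1 + y := by linarith
      exact this.ne'
    have h2 : (6 : ℝ) + 4 * y ≠ 0 := by
      have : 0 < 6 + 4 * y := by linarith
      exact this.ne'
    have a1 : HasDerivAt (fun y : ℝ => y * (6 + y)) (6 + 2 * y) y := by
      have := (hasDerivAt_id y).mul ((hasDerivAt_id y).const_add (6 : ℝ))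
      refine this.congr_deriv ?_
      simp
      ring
    have a2 : HasDerivAt (fun y : ℝ => 6 + 4 * y) 4 y := by
      have := ((hasDerivAt_id y).const_mul (4 : ℝ)).const_add (6 : ℝ)
      refine this.congr_deriv ?_
      simp
    have a3 : HasDerivAt (fun y : ℝ => Real.log (1 + y)) (1 / (1 + y)) y := by
      have := ((hasDerivAt_id y).const_add (1 : ℝ)).log h1
      simpa using this
    refine ((a1.div a2 h2).sub a3).congr_deriv ?_
    rw [div_sub_div _ _ (pow_ne_zero 2 h2) h1, div_eq_div_iff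
      (mul_ne_zero (pow_ne_zero 2 h2) h1) (mul_ne_zero (pow_ne_zero 2 h2) h1)]
    ring
  rcases le_or_gt 0 z with h | h
  · have hmono : MonotoneOn (fun y : ℝ => y * (6 + y) / (6 + 4 * y) - Real.log (1 + y))
        (Set.Ici 0) := by
      refine monotoneOn_of_deriv_nonneg (convex_Ici 0) ?_ ?_ ?_
      · intro y hy
        have : (-1 : ℝ) < y := lt_of_lt_of_le (by norm_num) (Set.mem_Ici.1 hy)
        exact (hd y this).continuousAt.continuousWithinAt
      · intro y hy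
        rw [interior_Ici] at hy
        have : (-1 : ℝ) < y := lt_trans (by norm_num) (Set.mem_Ioi.1 hy)
        exact (hd y this).differentiableAt.differentiableWithinAt
      · intro y hy
        rw [interior_Ici] at hy
        have hy0 : (0 : ℝ) < y := Set.mem_Ioi.1 hy
        rw [(hd y (by linarith)).deriv]
        positivity
    have h3 := hmono (Set.mem_Ici.2 le_rfl) (Set.mem_Ici.2 h) h
    simp only at h3
    norm_num at h3
    linarith
  · have hanti : AntitoneOn (fun y : ℝ => y * (6 + y) / (6 + 4 * y) - Real.log (1 + y))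
        (Set.Ioc (-1) 0) := by
      refine antitoneOn_of_deriv_nonpos (convex_Ioc _ _) ?_ ?_ ?_
      · intro y hy
        exact (hd y hy.1).continuousAt.continuousWithinAt
      · intro y hy
        rw [interior_Ioc] at hy
        exact (hd y hy.1).differentiableAt.differentiableWithinAt
      · intro y hy
        rw [interior_Ioc] at hy
        rw [(hd y hy.1).deriv]
        have h1 : 0 < (6 + 4 * y) ^ 2 * (1 + y) := by
          have e1 : 0 < 6 + 4 * y := by linarith [hy.1]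
          have e2 : 0 < 1 + y := by linarith [hy.1]
          positivity
        have h2 : 4 * y ^ 3 ≤ 0 := by
          have : y ^ 3 ≤ 0 := by
            have h4 : y < 0 := hy.2
            nlinarith [sq_nonneg y]
          linarith
        exact div_nonpos_of_nonpos_of_nonneg h2 h1.le
    have h3 := hanti (Set.mem_Ioc.2 ⟨hz, h.le⟩) (Set.mem_Ioc.2 ⟨by norm_num, le_rfl⟩) h.le
    simp only at h3
    norm_num at h3
    linarith

lemma pade_le_log {z : ℝ} (hz : 0 ≤ z) :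
    3 * z * (2 + z) / (6 + 6 * z + z ^ 2) ≤ Real.log (1 + z) := by
  have hd : ∀ y : ℝ, 0 ≤ y → HasDerivAt
      (fun y : ℝ => Real.log (1 + y) - 3 * y * (2 + y) / (6 + 6 * y + y ^ 2))
      (y ^ 4 / ((6 + 6 * y + y ^ 2) ^ 2 * (1 + y))) y := by
    intro y hy
    have h1 : (1 : ℝ) + y ≠ 0 := by positivity
    have h2 : (6 : ℝ) + 6 * y + y ^ 2 ≠ 0 := by positivity
    have a1 : HasDerivAt (fun y : ℝ => 3 * y * (2 + y)) (6 + 6 * y) y := by
      have := ((hasDerivAt_id y).const_mul (3 : ℝ)).mul ((hasDerivAt_id y).const_add (2 : ℝ))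
      refine this.congr_deriv ?_
      simp
      ring
    have a2 : HasDerivAt (fun y : ℝ => 6 + 6 * y + y ^ 2) (6 + 2 * y) y := by
      have := (((hasDerivAt_id y).const_mul (6 : ℝ)).const_add (6 : ℝ)).add
        ((hasDerivAt_id y).pow 2)
      refine this.congr_deriv ?_
      simp
    have a3 : HasDerivAt (fun y : ℝ => Real.log (1 + y)) (1 / (1 + y)) y := by
      have := ((hasDerivAt_id y).const_add (1 : ℝ)).log h1
      simpa using this
    refine (a3.sub (a1.div a2 h2)).congr_deriv ?_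
    field_simp
    ring
  have hmono : MonotoneOn
      (fun y : ℝ => Real.log (1 + y) - 3 * y * (2 + y) / (6 + 6 * y + y ^ 2)) (Set.Ici 0) := by
    refine monotoneOn_of_deriv_nonneg (convex_Ici 0) ?_ ?_ ?_
    · exact fun y hy => (hd y hy).continuousAt.continuousWithinAt
    · intro y hy
      rw [interior_Ici] at hy
      exact (hd y (le_of_lt hy)).differentiableAt.differentiableWithinAt
    · intro y hy
      rw [interior_Ici] at hy
      have hy0 : (0 : ℝ) < y := hy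
      rw [(hd y hy0.le).deriv]
      positivity
  have h3 := hmono (Set.mem_Ici.2 le_rfl) (Set.mem_Ici.2 hz) hz
  simp only at h3
  norm_num at h3
  linarith

/-- lower bound of `JJ` near `1` -/
lemma JJ_ge_pade {d : ℝ} (hd : -1 < d) : 3 * d ^ 2 / (6 + 4 * d) ≤ JJ (1 + d) := by
  unfold JJ
  have h1 := log_le_pade hd
  have h2 : 0 < 6 + 4 * d := by linarith
  have e : d - d * (6 + d) / (6 + 4 * d) = 3 * d ^ 2 / (6 + 4 * d) := by
    rw [eq_div_iff h2.ne', sub_mul, div_mul_cancel₀ _ h2.ne']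
    ring
  linarith

lemma JJ_sub_ge_pade {s : ℝ} (h1 : s < 1) : 3 * s ^ 2 / (6 - 4 * s) ≤ JJ (1 - s) := by
  have h := JJ_ge_pade (d := -s) (by linarith)
  have e : 3 * (-s) ^ 2 / (6 + 4 * (-s)) = 3 * s ^ 2 / (6 - 4 * s) := by
    congr 1 <;> ring
  rw [e, ← sub_eq_add_neg] at h
  exact h

lemma log_sub_le_pade {s : ℝ} (h1 : s < 1) : Real.log (1 - s) ≤ -(s * (6 - s) / (6 - 4 * s)) := by
  have h := log_le_pade (z := -s) (by linarith)
  have e : -s * (6 + -s) / (6 + 4 * -s) = -(s * (6 - s) / (6 - 4 * s)) := by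
    have h2 : (6 : ℝ) - 4 * s ≠ 0 := by
      have : 0 < 6 - 4 * s := by linarith
      exact this.ne'
    have e1 : (6 : ℝ) + 4 * -s = 6 - 4 * s := by ring
    rw [e1, ← neg_div, div_left_inj' h2]
    ring
  rw [e, ← sub_eq_add_neg] at h
  exact h

/-! ### the function `A` -/

/-- `A x = x - log (1 + 4 x) / 4` -/
noncomputable def AA (x : ℝ) : ℝ := x - Real.log (1 + 4 * x) / 4

lemma AA_le_pade {x : ℝ} (hx : 0 ≤ x) :
    AA x ≤ x ^ 2 * (6 + 8 * x) / (3 + 12 * x + 8 * x ^ 2) := by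
  unfold AA
  have h := pade_le_log (z := 4 * x) (by positivity)
  have h0 : 0 < 3 + 12 * x + 8 * x ^ 2 := by positivity
  have e : x - (3 * (4 * x) * (2 + 4 * x) / (6 + 6 * (4 * x) + (4 * x) ^ 2)) / 4 =
      x ^ 2 * (6 + 8 * x) / (3 + 12 * x + 8 * x ^ 2) := by
    have h1 : (6 : ℝ) + 6 * (4 * x) + (4 * x) ^ 2 = 2 * (3 + 12 * x + 8 * x ^ 2) := by ring
    rw [h1, eq_div_iff h0.ne', sub_mul]
    have h2 : 3 * (4 * x) * (2 + 4 * x) / (2 * (3 + 12 * x + 8 * x ^ 2)) / 4 *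
        (3 + 12 * x + 8 * x ^ 2) = 3 * (4 * x) * (2 + 4 * x) / 8 := by
      rw [div_div, div_mul_eq_mul_div, div_eq_div_iff (by positivity) (by norm_num)]
      ring
    rw [h2]
    ring
  linarith

lemma AA_mono {x y : ℝ} (hx : 0 ≤ x) (hxy : x ≤ y) : AA x ≤ AA y := by
  unfold AA
  have h0 : 0 < 1 + 4 * x := by positivity
  have h2 : 0 < 1 + 4 * y := by linarith
  have h1 : Real.log ((1 + 4 * y) / (1 + 4 * x)) ≤ (1 + 4 * y) / (1 + 4 * x) - 1 :=
    Real.log_le_sub_one_of_pos (div_pos h2 h0)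
  rw [Real.log_div h2.ne' h0.ne'] at h1
  have h3 : (1 + 4 * y) / (1 + 4 * x) - 1 ≤ 4 * (y - x) := by
    rw [div_sub_one h0.ne', div_le_iff₀ h0]
    nlinarith
  linarith

lemma AA_nonneg {x : ℝ} (hx : 0 ≤ x) : 0 ≤ AA x := by
  have h := AA_mono le_rfl hx
  have e : AA 0 = 0 := by unfold AA; simp
  linarith

/-! ### case 0: no heavy part -/

lemma case0 {x : ℝ} (h0 : 0 ≤ x) (h1 : x < 1) : AA x ≤ JJ (1 - x) / 2 + 3 / 10 * x := by
  have h2 := AA_le_pade h0
  have h3 := JJ_sub_ge_pade h1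
  have h4 : 0 < 3 + 12 * x + 8 * x ^ 2 := by positivity
  have h5 : 0 < 6 - 4 * x := by linarith
  have key : x ^ 2 * (6 + 8 * x) / (3 + 12 * x + 8 * x ^ 2) ≤
      3 * x ^ 2 / (6 - 4 * x) / 2 + 3 / 10 * x := by
    have h6 : 0 ≤ 54 - 135 * x - 60 * x ^ 2 + 344 * x ^ 3 := by
      nlinarith [mul_nonneg h0 (sq_nonneg (x - 21 / 50)), sq_nonneg (x - 21 / 50)]
    rw [div_le_iff₀ h4, add_mul, div_div, div_mul_eq_mul_div, ← sub_le_iff_le_add,
      le_div_iff₀ (by positivity)]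
    nlinarith [mul_nonneg h0 h6]
  linarith

/-! ### case 1: one heavy part -/

/-- `log (1 + 2 d + s) = 2 log (1 + d) + log (1 + z)`, lower bounds -/
lemma log_split {d s : ℝ} (hd : -1 < d) (hf : 0 < 1 + 2 * d + s) :
    Real.log (1 + 2 * d + s) = 2 * Real.log (1 + d) +
      Real.log (1 + (s - d ^ 2) / (1 + d) ^ 2) := by
  have h0 : 0 < 1 + d := by linarith
  have e : (1 : ℝ) + (s - d ^ 2) / (1 + d) ^ 2 = (1 + 2 * d + s) / (1 + d) ^ 2 := by
    have h2 : (1 + d) ^ 2 ≠ 0 := by positivity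
    rw [eq_div_iff h2, add_mul, div_mul_cancel₀ _ h2]
    ring
  rw [e, Real.log_div hf.ne' (by positivity), Real.log_pow]
  push_cast
  ring

lemma log_split_ge {d s : ℝ} (hd : -1 < d) (hs : d ^ 2 ≤ s) :
    2 * Real.log (1 + d) + 2 * (s - d ^ 2) / (2 + 4 * d + d ^ 2 + s) ≤
      Real.log (1 + 2 * d + s) := by
  have h0 : 0 < 1 + d := by linarith
  have hf : 0 < 1 + 2 * d + s := by nlinarith [sq_nonneg (1 + d)]
  rw [log_split hd hf]
  have hz : 0 ≤ (s - d ^ 2) / (1 + d) ^ 2 := div_nonneg (by linarith) (by positivity)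
  have h1 := Real.le_log_one_add_of_nonneg hz
  have h3 : 0 < 2 + 4 * d + d ^ 2 + s := by nlinarith [sq_nonneg (1 + d)]
  have e : 2 * ((s - d ^ 2) / (1 + d) ^ 2) / ((s - d ^ 2) / (1 + d) ^ 2 + 2) =
      2 * (s - d ^ 2) / (2 + 4 * d + d ^ 2 + s) := by
    have h2 : (1 + d) ^ 2 ≠ 0 := by positivity
    rw [div_eq_div_iff (by positivity) h3.ne']
    have e1 : 2 * ((s - d ^ 2) / (1 + d) ^ 2) * (2 + 4 * d + d ^ 2 + s) =
        2 * (s - d ^ 2) * ((2 + 4 * d + d ^ 2 + s) / (1 + d) ^ 2) := by ring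
    rw [e1]
    congr 1
    rw [div_eq_iff h2, add_mul, div_mul_cancel₀ _ h2]
    ring
  linarith

lemma log_split_ge' {d s : ℝ} (hd : -1 < d) (hf : 0 < 1 + 2 * d + s) :
    2 * Real.log (1 + d) + (s - d ^ 2) / (1 + 2 * d + s) ≤ Real.log (1 + 2 * d + s) := by
  have h0 : 0 < 1 + d := by linarith
  rw [log_split hd hf]
  have e : (1 : ℝ) + (s - d ^ 2) / (1 + d) ^ 2 = (1 + 2 * d + s) / (1 + d) ^ 2 := by
    have h2 : (1 + d) ^ 2 ≠ 0 := by positivity
    rw [eq_div_iff h2, add_mul, div_mul_cancel₀ _ h2]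
    ring
  have h1 := Real.one_sub_inv_le_log_of_pos (show 0 < 1 + (s - d ^ 2) / (1 + d) ^ 2 by
    rw [e]; positivity)
  have e2 : 1 - (1 + (s - d ^ 2) / (1 + d) ^ 2)⁻¹ = (s - d ^ 2) / (1 + 2 * d + s) := by
    rw [e, inv_div, eq_div_iff hf.ne', sub_mul, div_mul_cancel₀ _ hf.ne']
    ring
  rw [e2] at h1
  linarith

/-- the heavy part against the degree credit -/
lemma heavy_le {s d : ℝ} (h0 : 0 ≤ s) (h1 : s ≤ 1) (hd : -(s / 2) ≤ d) :
    JJ (1 + 2 * d + s) / 8 ≤ JJ (1 + d) + s ^ 2 / (8 * (1 + s)) := by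
  have hd1 : -1 < d := by linarith
  have hs1 : 0 < 1 + s := by linarith
  have hJ := JJ_ge_pade hd1
  have h6 : 0 < 6 + 4 * d := by linarith
  have e0 : JJ (1 + d) + s ^ 2 / (8 * (1 + s)) - JJ (1 + 2 * d + s) / 8 =
      3 / 4 * JJ (1 + d) - s / (8 * (1 + s)) +
        (Real.log (1 + 2 * d + s) - 2 * Real.log (1 + d)) / 8 := by
    unfold JJ
    have : s ^ 2 / (8 * (1 + s)) = s / 8 - s / (8 * (1 + s)) := by
      rw [eq_sub_iff_add_eq, ← add_div, div_eq_div_iff (by positivity) (by norm_num)]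
      ring
    rw [this]
    ring
  rcases le_or_gt (d ^ 2) s with hs | hs
  · have h2 := log_split_ge hd1 hs
    have h3 : 0 < 2 + 4 * d + d ^ 2 + s := by nlinarith [sq_nonneg (1 + d)]
    have key : s / (8 * (1 + s)) ≤ 3 / 4 * (3 * d ^ 2 / (6 + 4 * d)) +
        2 * (s - d ^ 2) / (2 + 4 * d + d ^ 2 + s) / 8 := by
      have hT : 0 ≤ 3 * s ^ 2 - (12 * s - 2 * s ^ 2) * d + (12 + 10 * s + 9 * s ^ 2) * d ^ 2 +
          (32 + 30 * s) * d ^ 3 + 9 * (1 + s) * d ^ 4 := by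
        rcases le_or_gt 0 d with hd0 | hd0
        · have e1 : 3 * s ^ 2 - (12 * s - 2 * s ^ 2) * d + (12 + 10 * s + 9 * s ^ 2) * d ^ 2 +
              (32 + 30 * s) * d ^ 3 + 9 * (1 + s) * d ^ 4 =
              3 * (s - 2 * d) ^ 2 + (2 * s ^ 2 * d + (10 * s + 9 * s ^ 2) * d ^ 2 +
              (32 + 30 * s) * d ^ 3 + 9 * (1 + s) * d ^ 4) := by ring
          rw [e1]
          positivity
        · obtain ⟨m, rfl⟩ : ∃ m, d = -m := ⟨-d, by ring⟩
          have hm : 0 < m := by linarith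
          have hm2 : m ≤ s / 2 := by linarith
          have a1 : 0 ≤ s * m := by positivity
          have a2 : s ^ 2 * m ≤ s * m := by nlinarith
          have a3 : m ^ 3 ≤ s * m / 4 := by
            have : m ^ 2 ≤ s / 4 := by nlinarith
            nlinarith
          have a4 : s * m ≤ s ^ 2 / 2 := by nlinarith
          have a5 : s * m ^ 3 ≤ m ^ 3 := by nlinarith [pow_pos hm 3]
          have a6 : 0 ≤ 9 * (1 + s) * (-m) ^ 4 := by positivity
          have a7 : 0 ≤ (12 + 10 * s + 9 * s ^ 2) * (-m) ^ 2 - 12 * m ^ 2 := by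
            have : (12 + 10 * s + 9 * s ^ 2) * (-m) ^ 2 - 12 * m ^ 2 =
              (10 * s + 9 * s ^ 2) * m ^ 2 := by ring
            rw [this]; positivity
          nlinarith [sq_nonneg m]
      have e2 : 3 / 4 * (3 * d ^ 2 / (6 + 4 * d)) = 9 * d ^ 2 / (4 * (6 + 4 * d)) := by
        rw [← mul_div_assoc, eq_div_iff (by positivity), div_mul_eq_mul_div,
          div_eq_iff h6.ne']
        ring
      have e3 : 2 * (s - d ^ 2) / (2 + 4 * d + d ^ 2 + s) / 8 =
          (s - d ^ 2) / (4 * (2 + 4 * d + d ^ 2 + s)) := by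
        rw [div_div, div_eq_div_iff (by positivity) (by positivity)]
        ring
      rw [e2, e3, div_add_div _ _ (by positivity) (by positivity),
        div_le_div_iff₀ (by positivity) (by positivity)]
      nlinarith
    linarith
  · have hd0 : 0 < d := by
      by_contra hcon
      push Not at hcon
      have : d ^ 2 ≤ s := by nlinarith
      linarith
    have hf : 0 < 1 + 2 * d + s := by positivity
    have h2 := log_split_ge' hd1 hf
    have key : s / (8 * (1 + s)) ≤ 3 / 4 * (3 * d ^ 2 / (6 + 4 * d)) +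
        (s - d ^ 2) / (1 + 2 * d + s) / 8 := by
      have e2 : 3 / 4 * (3 * d ^ 2 / (6 + 4 * d)) = 9 * d ^ 2 / (4 * (6 + 4 * d)) := by
        rw [← mul_div_assoc, eq_div_iff (by positivity), div_mul_eq_mul_div,
          div_eq_iff h6.ne']
        ring
      have e3 : (s - d ^ 2) / (1 + 2 * d + s) / 8 = (s - d ^ 2) / (8 * (1 + 2 * d + s)) := by
        rw [div_div]; ring_nf
      have hT : 0 ≤ 9 * d ^ 2 * (1 + 2 * d + s) * (1 + s) - (d ^ 2 - s) * (3 + 2 * d) * (1 + s) -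
          s * (3 + 2 * d) * (1 + 2 * d + s) := by
        have e4 : 9 * d ^ 2 * (1 + 2 * d + s) * (1 + s) - (d ^ 2 - s) * (3 + 2 * d) * (1 + s) -
          s * (3 + 2 * d) * (1 + 2 * d + s) =
          d * ((d * (9 * (1 + 2 * d + s) - (3 + 2 * d))) * (1 + s) - 2 * s * (3 + 2 * d)) := by
          ring
        rw [e4]
        refine mul_nonneg hd0.le ?_
        have b1 : s ≤ d := by
          rcases le_or_gt d 1 with h | h
          · nlinarith
          · linarith
        nlinarith [mul_nonneg hd0.le h0, mul_pos hd0 hd0, mul_nonneg (mul_nonneg hd0.le h0) hd0.le]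
      rw [e2, e3, div_add_div _ _ (by positivity) (by positivity),
        div_le_div_iff₀ (by positivity) (by positivity)]
      nlinarith
    linarith


lemma JJ_quarter {s : ℝ} (h0 : 0 ≤ s) (h1 : s < 1) :
    s ^ 2 / (8 * (1 + s)) + s ^ 3 / 6 ≤ JJ (1 - s) / 4 := by
  have h2 := JJ_sub_ge_pade h1
  have h6 : 0 < 6 - 4 * s := by linarith
  have key : s ^ 2 / (8 * (1 + s)) + s ^ 3 / 6 ≤ 3 * s ^ 2 / (6 - 4 * s) / 4 := by
    rw [div_div, div_add_div _ _ (by positivity) (by positivity),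
      div_le_div_iff₀ (by positivity) (by positivity)]
    have h7 : 0 ≤ 15 / 4 - (3 + s - 2 * s ^ 2) := by nlinarith [sq_nonneg (s - 1 / 4)]
    nlinarith [mul_nonneg (pow_nonneg h0 3) h7]
  linarith

lemma JJ_half {t : ℝ} (h0 : 0 ≤ t) (h1 : t < 1) : t ^ 2 / 2 + t ^ 3 / 3 ≤ JJ (1 - t) := by
  have h2 := JJ_sub_ge_pade h1
  have h6 : 0 < 6 - 4 * t := by linarith
  have key : t ^ 2 / 2 + t ^ 3 / 3 ≤ 3 * t ^ 2 / (6 - 4 * t) := by
    rw [le_div_iff₀ h6]
    nlinarith [pow_nonneg h0 3, pow_nonneg h0 4]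
  linarith

/-- the one-sided polynomial inequality -/
lemma AA_le_poly {s t : ℝ} (hs0 : 0 ≤ s) (hs : s ≤ 1) (ht0 : 0 ≤ t) (ht : t ≤ 1) :
    AA ((s + t) / 2) ≤ 3 / 10 * ((s + t) / 2) + s ^ 3 / 6 + t ^ 2 / 4 + t ^ 3 / 6 := by
  obtain ⟨x, rfl⟩ : ∃ x, s = 2 * x - t := ⟨(s + t) / 2, by ring⟩
  have ex : (2 * x - t + t) / 2 = x := by ring
  rw [ex]
  have hx0 : 0 ≤ x := by linarith
  have hx1 : x ≤ 1 := by linarith
  have h1 := AA_le_pade hx0
  have h4 : 0 < 3 + 12 * x + 8 * x ^ 2 := by positivity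
  have e : (2 * x - t) ^ 3 / 6 + t ^ 2 / 4 + t ^ 3 / 6 =
      4 / 3 * x ^ 3 - 2 * x ^ 2 * t + (x + 1 / 4) * t ^ 2 := by ring
  have h2 : 4 * x ^ 3 * (1 + x) / (3 * (1 + 4 * x)) ≤
      4 / 3 * x ^ 3 - 2 * x ^ 2 * t + (x + 1 / 4) * t ^ 2 := by
    rw [div_le_iff₀ (by positivity)]
    have : (4 / 3 * x ^ 3 - 2 * x ^ 2 * t + (x + 1 / 4) * t ^ 2) * (3 * (1 + 4 * x)) -
        4 * x ^ 3 * (1 + x) = 3 / 4 * ((1 + 4 * x) * t - 4 * x ^ 2) ^ 2 := by ring
    nlinarith [sq_nonneg ((1 + 4 * x) * t - 4 * x ^ 2)]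
  have h3 : x ^ 2 * (6 + 8 * x) / (3 + 12 * x + 8 * x ^ 2) ≤
      3 / 10 * x + 4 * x ^ 3 * (1 + x) / (3 * (1 + 4 * x)) := by
    have hp : 0 ≤ 27 + 36 * x - 336 * x ^ 2 - 72 * x ^ 3 + 800 * x ^ 4 + 320 * x ^ 5 := by
      nlinarith [sq_nonneg (x ^ 2 - 9 / 50), sq_nonneg (x - 43 / 100),
        mul_nonneg hx0 (sq_nonneg (x - 43 / 100)), mul_nonneg hx0 (sq_nonneg (x ^ 2 - 9 / 50)),
        mul_nonneg (pow_nonneg hx0 3) (sq_nonneg (x - 43 / 100))]
    rw [add_div' _ _ _ (by positivity), div_le_div_iff₀ (by positivity) (by positivity)]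
    nlinarith [mul_nonneg hx0 hp]
  linarith

/-- case 1: the class `v` is exceeded by the neighbours outside the classes -/
lemma case1 {u v D : ℝ} (hu0 : 0 < u) (hu : u ≤ 1) (hv0 : 0 < v) (hv : v ≤ 1)
    (hf : 1 ≤ 2 * D - u) :
    AA (1 - (u + v) / 2) + JJ (2 * D - u) / 8 + JJ u / 4 ≤
      JJ D + (JJ u + JJ v) / 2 + 3 / 10 * (1 - (u + v) / 2) := by
  have h1 := heavy_le (s := 1 - u) (d := D - 1) (by linarith) (by linarith) (by linarith)
  have e1 : 1 + 2 * (D - 1) + (1 - u) = 2 * D - u := by ring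
  have e2 : 1 + (D - 1) = D := by ring
  have h2 := JJ_quarter (s := 1 - u) (by linarith) (by linarith)
  have h3 := JJ_half (t := 1 - v) (by linarith) (by linarith)
  have h4 := AA_le_poly (s := 1 - u) (t := 1 - v) (by linarith) (by linarith) (by linarith)
    (by linarith)
  have e3 : (1 - u + (1 - v)) / 2 = 1 - (u + v) / 2 := by ring
  rw [e1, e2] at h1
  rw [e3] at h4
  have e4 : 1 - (1 - u) = u := by ring
  have e5 : 1 - (1 - v) = v := by ring
  rw [e4] at h2
  rw [e5] at h3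
  linarith

/-! ### case 2: two heavy parts -/

lemma w_le {x : ℝ} (h0 : 0 ≤ x) (h1 : x < 1) :
    46 / 25 * x ≤ x * (6 - x) / (6 - 4 * x) + 3 * x * (1 + 2 * x) / (3 + 12 * x + 8 * x ^ 2) := by
  have h6 : 0 < 6 - 4 * x := by linarith
  have hp : 0 ≤ 144 - 870 * x + 600 * x ^ 2 + 2544 * x ^ 3 := by
    nlinarith [mul_nonneg h0 (sq_nonneg (x - 27 / 100)), sq_nonneg (x - 27 / 100)]
  rw [div_add_div _ _ (by positivity) (by positivity), le_div_iff₀ (by positivity)]
  nlinarith [mul_nonneg h0 hp]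

lemma case2_pos {x d : ℝ} (h0 : 0 ≤ x) (h1 : x ≤ 1) (hd : -(x / 2) ≤ d) (hdx : d ^ 2 ≤ x) :
    11 / 100 * x ≤ 3 * d ^ 2 / (4 * (3 + 2 * d)) + (x - d ^ 2) / (2 * (2 + 4 * d + d ^ 2 + x)) := by
  have h3 : 0 < 2 + 4 * d + d ^ 2 + x := by nlinarith [sq_nonneg (1 + d)]
  have h4 : 0 < 3 + 2 * d := by linarith
  rw [div_add_div _ _ (by positivity) (by positivity), le_div_iff₀ (by positivity)]
  have hT : 0 ≤ 336 * x - 132 * x ^ 2 - (304 + 88 * x) * x * d - 184 * x * d ^ 2 -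
      88 * x * d ^ 3 + 800 * d ^ 3 + 300 * d ^ 4 := by
    rcases le_or_gt 0 d with hd0 | hd0
    · have hd1 : d ≤ 1 := by nlinarith
      have p1 : 0 ≤ 204 - 392 * d - 184 * d ^ 2 + 712 * d ^ 3 + 300 * d ^ 4 := by
        nlinarith [sq_nonneg (d - 1 / 2), mul_nonneg hd0 (sq_nonneg (d - 1 / 2)),
          mul_nonneg (sq_nonneg d) (sq_nonneg (d - 1 / 2))]
      have p2 : 0 ≤ 336 * d ^ 2 + 496 * d ^ 3 - 16 * d ^ 4 - 176 * d ^ 5 := by
        have q1 : d ^ 4 ≤ d ^ 2 := by nlinarith [pow_nonneg hd0 2, pow_nonneg hd0 3]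
        have q2 : d ^ 5 ≤ d ^ 3 := by nlinarith [pow_nonneg hd0 3, pow_nonneg hd0 4]
        nlinarith [pow_nonneg hd0 2, pow_nonneg hd0 3]
      -- concave in x on [d^2, 1]
      rcases eq_or_lt_of_le (show d ^ 2 ≤ 1 by nlinarith) with h | h
      · have : x = 1 := by linarith
        subst this
        nlinarith
      · have hw : 0 < 1 - d ^ 2 := by linarith
        have e : (1 - d ^ 2) * (336 * x - 132 * x ^ 2 - (304 + 88 * x) * x * d -
            184 * x * d ^ 2 - 88 * x * d ^ 3 + 800 * d ^ 3 + 300 * d ^ 4) =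
            (x - d ^ 2) * (204 - 392 * d - 184 * d ^ 2 + 712 * d ^ 3 + 300 * d ^ 4) +
            (1 - x) * (336 * d ^ 2 + 496 * d ^ 3 - 16 * d ^ 4 - 176 * d ^ 5) +
            (1 - d ^ 2) * ((132 + 88 * d) * ((x - d ^ 2) * (1 - x))) := by ring
        have h5 : 0 ≤ (1 - d ^ 2) * (336 * x - 132 * x ^ 2 - (304 + 88 * x) * x * d -
            184 * x * d ^ 2 - 88 * x * d ^ 3 + 800 * d ^ 3 + 300 * d ^ 4) := by
          rw [e]
          have g1 : 0 ≤ x - d ^ 2 := by linarith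
          have g2 : 0 ≤ 1 - x := by linarith
          positivity
        exact nonneg_of_mul_nonneg_right h5 hw
    · obtain ⟨m, rfl⟩ : ∃ m, d = -m := ⟨-d, by ring⟩
      have hm : 0 < m := by linarith
      have hm2 : m ≤ x / 2 := by linarith
      have a1 : m ^ 3 ≤ x / 8 := by
        have b1 : m ≤ 1 / 2 := by linarith
        have b2 : m ^ 2 ≤ 1 / 4 := by nlinarith
        nlinarith
      have a2 : x ^ 2 ≤ x := by nlinarith
      have a3 : x * m ^ 2 ≤ x / 4 := by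
        have b1 : m ≤ 1 / 2 := by linarith
        have b2 : m ^ 2 ≤ 1 / 4 := by nlinarith
        nlinarith
      have a4 : 0 ≤ (304 + 88 * x) * x * m := by positivity
      have a5 : 0 ≤ 88 * x * m ^ 3 := by positivity
      have a6 : 0 ≤ 300 * m ^ 4 := by positivity
      nlinarith
  nlinarith

lemma case2_neg {x d : ℝ} (h0 : 0 ≤ x) (h1 : x ≤ 1) (hd : 0 < d) (hdx : x < d ^ 2) :
    11 / 100 * x ≤ 3 * d ^ 2 / (4 * (3 + 2 * d)) + (x - d ^ 2) / (4 * (1 + 2 * d + x)) := by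
  rw [div_add_div _ _ (by positivity) (by positivity), le_div_iff₀ (by positivity)]
  have hT : 0 ≤ 4 * d ^ 3 + 3 * x * d ^ 2 + 3 * x + 2 * x * d -
      44 / 100 * x * ((3 + 2 * d) * (1 + 2 * d + x)) := by
    have b1 : x * d ≤ d ^ 3 := by nlinarith
    have b2 : x * x ≤ x := by nlinarith
    have b3 : x * x * d ≤ x * d := by nlinarith [mul_nonneg h0 hd.le]
    nlinarith [mul_nonneg h0 hd.le, mul_nonneg h0 (sq_nonneg d), pow_pos hd 3]
  nlinarith

/-- case 2, equal masses -/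
lemma case2_eq {x D : ℝ} (h0 : 0 ≤ x) (h1 : x < 1) (hf : 1 ≤ 2 * D - 1 + x) :
    AA x + JJ (2 * D - 1 + x) / 4 ≤ JJ D + JJ (1 - x) + 3 / 10 * x := by
  obtain ⟨d, rfl⟩ : ∃ d, D = 1 + d := ⟨D - 1, by ring⟩
  have hd : -(x / 2) ≤ d := by linarith
  have hd1 : -1 < d := by linarith
  have hw := w_le h0 h1
  have hl1 := log_sub_le_pade h1
  have hl2 := pade_le_log (z := 4 * x) (by positivity)
  have hJ := JJ_ge_pade hd1
  have h3 : 0 < 3 + 2 * d := by linarith
  have e1 : 2 * (1 + d) - 1 + x = 1 + 2 * d + x := by ring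
  rw [e1]
  have e2 : 3 * (4 * x) * (2 + 4 * x) / (6 + 6 * (4 * x) + (4 * x) ^ 2) =
      4 * (3 * x * (1 + 2 * x) / (3 + 12 * x + 8 * x ^ 2)) := by
    have : 0 < 3 + 12 * x + 8 * x ^ 2 := by positivity
    rw [← mul_div_assoc, div_eq_div_iff (by positivity) this.ne']
    ring
  rw [e2] at hl2
  have e3 : 3 * d ^ 2 / (6 + 4 * d) = 2 * (3 * d ^ 2 / (4 * (3 + 2 * d))) := by
    rw [← mul_div_assoc, div_eq_div_iff (by linarith) (by positivity)]
    ring
  rw [e3] at hJ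
  have e4 : JJ (1 + d) + JJ (1 - x) + 3 / 10 * x - (AA x + JJ (1 + 2 * d + x) / 4) =
      JJ (1 + d) / 2 + (Real.log (1 + 2 * d + x) - 2 * Real.log (1 + d)) / 4 -
      39 / 20 * x - Real.log (1 - x) + Real.log (1 + 4 * x) / 4 := by
    unfold JJ AA
    ring
  rcases le_or_gt (d ^ 2) x with hs | hs
  · have h5 := log_split_ge hd1 hs
    have h6 := case2_pos h0 h1.le hd hs
    have h7 : 0 < 2 + 4 * d + d ^ 2 + x := by nlinarith [sq_nonneg (1 + d)]
    have e5 : 2 * (x - d ^ 2) / (2 + 4 * d + d ^ 2 + x) =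
        4 * ((x - d ^ 2) / (2 * (2 + 4 * d + d ^ 2 + x))) := by
      rw [← mul_div_assoc, div_eq_div_iff h7.ne' (by positivity)]
      ring
    rw [e5] at h5
    linarith
  · have hd0 : 0 < d := by
      by_contra hcon
      push Not at hcon
      have : d ^ 2 ≤ x := by nlinarith
      linarith
    have hf2 : 0 < 1 + 2 * d + x := by positivity
    have h5 := log_split_ge' hd1 hf2
    have h6 := case2_neg h0 h1.le hd0 hs
    have e5 : (x - d ^ 2) / (1 + 2 * d + x) = 4 * ((x - d ^ 2) / (4 * (1 + 2 * d + x))) := by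
      rw [← mul_div_assoc, div_eq_div_iff hf2.ne' (by positivity)]
      ring
    rw [e5] at h5
    linarith

lemma case2 {u v D : ℝ} (hu0 : 0 < u) (hu : u ≤ 1) (hv0 : 0 < v) (hv : v ≤ 1)
    (hD : (u + v) / 2 ≤ D) (hf1 : 1 ≤ 2 * D - u) (hf2 : 1 ≤ 2 * D - v) :
    AA (1 - (u + v) / 2) + JJ (2 * D - u) / 8 + JJ (2 * D - v) / 8 ≤
      JJ D + (JJ u + JJ v) / 2 + 3 / 10 * (1 - (u + v) / 2) := by
  set w := (u + v) / 2 with hw
  have hw0 : 0 < w := by positivity
  have hw1 : w ≤ 1 := by linarith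
  have h1 := case2_eq (x := 1 - w) (D := D) (by linarith) (by linarith) (by linarith)
  have e1 : 2 * D - 1 + (1 - w) = 2 * D - w := by ring
  have e2 : 1 - (1 - w) = w := by ring
  rw [e1, e2] at h1
  have hf1p : 0 < 2 * D - u := by linarith
  have hf2p : 0 < 2 * D - v := by linarith
  have hfw : 0 < 2 * D - w := by linarith
  have huv : u * v ≤ w ^ 2 := by rw [hw]; nlinarith [sq_nonneg (u - v)]
  -- logarithms
  have hr : (2 * D - w) ^ 2 * (u * v) ≤ w ^ 2 * ((2 * D - u) * (2 * D - v)) := by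
    have e3 : (2 * D - u) * (2 * D - v) = (2 * D - w) ^ 2 - (w ^ 2 - u * v) := by
      rw [hw]; ring
    have e4 : u * v ≤ (2 * D - u) * (2 * D - v) := by
      have g1 : v ≤ 2 * D - u := by linarith
      have g2 : u ≤ 2 * D - v := by linarith
      calc u * v = v * u := by ring
        _ ≤ (2 * D - u) * (2 * D - v) := mul_le_mul g1 g2 hu0.le hf1p.le
    rw [e3] at e4 ⊢
    nlinarith
  have hl : 2 * Real.log (2 * D - w) + (Real.log u + Real.log v) ≤
      2 * Real.log w + (Real.log (2 * D - u) + Real.log (2 * D - v)) := by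
    have h2 := Real.log_le_log (by positivity) hr
    rw [Real.log_mul (pow_ne_zero 2 hfw.ne') (mul_ne_zero hu0.ne' hv0.ne'),
      Real.log_mul hu0.ne' hv0.ne', Real.log_mul (pow_ne_zero 2 hw0.ne')
      (mul_ne_zero hf1p.ne' hf2p.ne'), Real.log_mul hf1p.ne' hf2p.ne', Real.log_pow,
      Real.log_pow] at h2
    push_cast at h2
    exact h2
  have hl2 : Real.log u + Real.log v ≤ 2 * Real.log w := by
    have h2 := Real.log_le_log (by positivity) huv
    rw [Real.log_mul hu0.ne' hv0.ne', Real.log_pow] at h2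
    push_cast at h2
    exact h2
  have e5 : u + v = 2 * w := by rw [hw]; ring
  unfold JJ at h1 ⊢
  nlinarith


/-! ### the pair inequality -/

lemma cL3_eq (t : ℝ) : cL 3 t = 2 * JJ (min 1 t) + JJ (max 1 t) := by
  unfold cL
  norm_num

lemma cL3_low {t : ℝ} (h : t ≤ 1) : cL 3 t = 2 * JJ t := by
  rw [cL3_eq, min_eq_right h, max_eq_left h, JJ_one, add_zero]

lemma cL3_high {t : ℝ} (h : 1 ≤ t) : cL 3 t = JJ t := by
  rw [cL3_eq, min_eq_left h, max_eq_right h, JJ_one, mul_zero, zero_add]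

lemma JJ_mid {s t : ℝ} (hs : 0 < s) (ht : 0 < t) :
    JJ ((s + t) / 2) ≤ (JJ s + JJ t) / 2 := by
  unfold JJ
  have hm : 0 < (s + t) / 2 := by linarith
  have h1 : Real.log (s / ((s + t) / 2)) ≤ s / ((s + t) / 2) - 1 :=
    Real.log_le_sub_one_of_pos (by positivity)
  have h2 : Real.log (t / ((s + t) / 2)) ≤ t / ((s + t) / 2) - 1 :=
    Real.log_le_sub_one_of_pos (by positivity)
  rw [Real.log_div hs.ne' hm.ne'] at h1
  rw [Real.log_div ht.ne' hm.ne'] at h2
  have h3 : s / ((s + t) / 2) + t / ((s + t) / 2) = 2 := by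
    field_simp
  linarith

lemma pair_le_one {u v n r1 r2 : ℝ} (hu0 : 0 < u) (hu : u ≤ 1) (hv0 : 0 < v) (hv : v ≤ 1)
    (h1 : 0 ≤ r1) (h1n : r1 ≤ n) (h2 : 0 ≤ r2) (h2n : r2 ≤ n) :
    AA (1 - (u + v) / 2) + (cL 3 (v + r1) + cL 3 (u + r2)) / 8 ≤
      JJ ((u + v + n) / 2) + (JJ u + JJ v) / 2 + 3 / 10 * (1 - (u + v) / 2) := by
  have hn : 0 ≤ n := h1.trans h1n
  have hD : (u + v) / 2 ≤ (u + v + n) / 2 := by linarith
  have hD0 : 0 < (u + v + n) / 2 := by positivity
  have e1 : 2 * ((u + v + n) / 2) - u = v + n := by ring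
  have e2 : 2 * ((u + v + n) / 2) - v = u + n := by ring
  rcases le_or_gt (v + r1) 1 with ha | ha <;> rcases le_or_gt (u + r2) 1 with hb | hb
  · rw [cL3_low ha, cL3_low hb]
    have g1 : JJ (v + r1) ≤ JJ v := JJ_anti hv0 (by linarith) ha
    have g2 : JJ (u + r2) ≤ JJ u := JJ_anti hu0 (by linarith) hb
    have g3 := case0 (x := 1 - (u + v) / 2) (by linarith) (by linarith)
    have g4 := JJ_mid hu0 hv0
    have g5 := JJ_nonneg hD0
    have e3 : 1 - (1 - (u + v) / 2) = (u + v) / 2 := by ring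
    rw [e3] at g3
    linarith
  · rw [cL3_low ha, cL3_high hb.le]
    have g1 : JJ (v + r1) ≤ JJ v := JJ_anti hv0 (by linarith) ha
    have g2 : JJ (u + r2) ≤ JJ (u + n) := JJ_mono hb.le (by linarith)
    have g3 := case1 (u := v) (v := u) (D := (u + v + n) / 2) hv0 hv hu0 hu (by
      rw [e2]; linarith)
    rw [e2, add_comm v u] at g3
    linarith
  · rw [cL3_high ha.le, cL3_low hb]
    have g1 : JJ (v + r1) ≤ JJ (v + n) := JJ_mono ha.le (by linarith)
    have g2 : JJ (u + r2) ≤ JJ u := JJ_anti hu0 (by linarith) hb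
    have g3 := case1 (u := u) (v := v) (D := (u + v + n) / 2) hu0 hu hv0 hv (by
      rw [e1]; linarith)
    rw [e1] at g3
    linarith
  · rw [cL3_high ha.le, cL3_high hb.le]
    have g1 : JJ (v + r1) ≤ JJ (v + n) := JJ_mono ha.le (by linarith)
    have g2 : JJ (u + r2) ≤ JJ (u + n) := JJ_mono hb.le (by linarith)
    have g3 := case2 (D := (u + v + n) / 2) hu0 hu hv0 hv hD (by rw [e1]; linarith)
      (by rw [e2]; linarith)
    rw [e1, e2] at g3
    linarith

/-- deficit of a class -/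
noncomputable def sm (t : ℝ) : ℝ := max 0 (1 - t)

lemma sm_nonneg (t : ℝ) : 0 ≤ sm t := le_max_left _ _

lemma sm_eq (t : ℝ) : sm t = 1 - min 1 t := by
  unfold sm
  rcases le_total t 1 with h | h
  · rw [min_eq_right h, max_eq_right (by linarith)]
  · rw [min_eq_left h, max_eq_left (by linarith)]; ring

/-- THE PAIR INEQUALITY, all masses -/
theorem pair_ineq {u v n r1 r2 : ℝ} (hu : 0 < u) (hv : 0 < v)
    (h1 : 0 ≤ r1) (h1n : r1 ≤ n) (h2 : 0 ≤ r2) (h2n : r2 ≤ n) :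
    AA ((sm u + sm v) / 2) + (cL 3 (v + r1) + cL 3 (u + r2)) / 8 ≤
      JJ ((u + v + n) / 2) + (JJ (min 1 u) + JJ (min 1 v)) / 2 + 3 / 10 * ((sm u + sm v) / 2) := by
  have hu' : 0 < min 1 u := lt_min one_pos hu
  have hv' : 0 < min 1 v := lt_min one_pos hv
  have hul : min 1 u ≤ u := min_le_right _ _
  have hvl : min 1 v ≤ v := min_le_right _ _
  have h := pair_le_one (u := min 1 u) (v := min 1 v) (n := n + (u - min 1 u) + (v - min 1 v))
    (r1 := r1 + (v - min 1 v)) (r2 := r2 + (u - min 1 u)) hu' (min_le_left _ _) hv'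
    (min_le_left _ _) (by linarith) (by linarith) (by linarith) (by linarith)
  have e1 : min 1 v + (r1 + (v - min 1 v)) = v + r1 := by ring
  have e2 : min 1 u + (r2 + (u - min 1 u)) = u + r2 := by ring
  have e3 : (min 1 u + min 1 v + (n + (u - min 1 u) + (v - min 1 v))) / 2 = (u + v + n) / 2 := by
    ring
  have e4 : 1 - (min 1 u + min 1 v) / 2 = (sm u + sm v) / 2 := by
    rw [sm_eq, sm_eq]; ring
  rw [e1, e2, e3, e4] at h
  exact h

end Pool.Agent.ICyc.D
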