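import Pool.Agent.Lib.MP_131fce_co.D.PosP
import Pool.Agent.Lib.MP_131fce_co.D.PosA
import Pool.Agent.Lib.MP_131fce_co.D.NbT

/-!
# Induced k-cycles in triangle-free graphs: the sum of the pair inequality over the positions
-/

set_option autoImplicit false

namespace Pool.Agent.ICyc.D

open Finset Pool.Agent.ICyc
open scoped Classical

/-- Young with parameter `1 / 4`: the cross term of one position -/
lemma cross_le {e s c : ℝ} (hc : 0 ≤ c) (hs : 0 ≤ s) (he : e ≤ s) :
    e * (1 - kk c) ≤ AA s + c / 4 := by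
  have h1 := young_kk (v := c) (S := s) (al := 1 / 4) hc hs (by norm_num)
  have h2 := kk_le_one c
  have h3 : e * (1 - kk c) ≤ s * (1 - kk c) := mul_le_mul_of_nonneg_right he (by linarith)
  have e1 : s / (1 / 4) = 4 * s := by ring
  rw [e1] at h1
  unfold AA
  linarith

section

variable {V : Type} [Fintype V] {G : SimpleGraph V} {k : ℕ} [NeZero k]

/-- the mass of `N (x b)` outside of `N (x (b + 2))` -/
lemma ff_right (hk : 5 ≤ k) {x : ZMod k → V} (b : ZMod k) :
    ff G k (x b) (x (b + 2)) = mu k (T G k (b - 1) x) + (nB G k x b - nnb G k x (b + 2) (x b)) ∧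
      nnb G k x (b + 2) (x b) ≤ nB G k x b := by
  have h1 := cM_split (G := G) hk x (b + 2) (x b)
  have e1 : b + 2 - 1 = b + 1 := by ring
  have e2 : b + 2 + 1 = b + 3 := by ring
  rw [e1, e2] at h1
  have h2 : uu G k x (b + 1) (x b) = mu k (T G k (b + 1) x) := by
    have := uu_x_pred (G := G) hk (x := x) (b + 1)
    rwa [add_sub_cancel_right] at this
  have h3 : uu G k x (b + 3) (x b) = 0 := by
    unfold uu mu
    rw [filter_false_of_mem, card_empty, Nat.cast_zero, mul_zero]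
    intro z hz h4
    have h5 := (rot_adj_of_mem_T hz b).1 h4.symm
    rcases h5 with h | h
    · have : (2 : ZMod k) = 0 := by linear_combination -h
      exact two_ne_zero' hk this
    · have : (4 : ZMod k) = 0 := by linear_combination -h
      exact four_ne_zero' hk this
  have h4 := dg_x (G := G) hk x b
  have h5 : nnb G k x (b + 2) (x b) ≤ nB G k x b := by
    unfold nnb nB
    refine mu_sub_le fun z hz => ?_
    rw [mem_filter] at hz ⊢
    exact ⟨hz.1, bas_mem_Ty.2 hz.2.1.symm⟩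
  refine ⟨?_, h5⟩
  rw [ff_eq_cM, h1, h2, h3, h4]
  ring

/-- the mass of `N (x b)` outside of `N (x (b - 2))` -/
lemma ff_left (hk : 5 ≤ k) {x : ZMod k → V} (b : ZMod k) :
    ff G k (x b) (x (b - 2)) = mu k (T G k (b + 1) x) + (nB G k x b - nnb G k x (b - 2) (x b)) ∧
      nnb G k x (b - 2) (x b) ≤ nB G k x b := by
  have h1 := cM_split (G := G) hk x (b - 2) (x b)
  have e1 : b - 2 - 1 = b - 3 := by ring
  have e2 : b - 2 + 1 = b - 1 := by ring
  rw [e1, e2] at h1
  have h2 : uu G k x (b - 1) (x b) = mu k (T G k (b - 1) x) := by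
    have := uu_x_succ (G := G) hk (x := x) (b - 1)
    rwa [sub_add_cancel] at this
  have h3 : uu G k x (b - 3) (x b) = 0 := by
    unfold uu mu
    rw [filter_false_of_mem, card_empty, Nat.cast_zero, mul_zero]
    intro z hz h4
    have h5 := (rot_adj_of_mem_T hz b).1 h4.symm
    rcases h5 with h | h
    · have : (4 : ZMod k) = 0 := by linear_combination h
      exact four_ne_zero' hk this
    · have : (2 : ZMod k) = 0 := by linear_combination h
      exact two_ne_zero' hk this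
  have h4 := dg_x (G := G) hk x b
  have h5 : nnb G k x (b - 2) (x b) ≤ nB G k x b := by
    unfold nnb nB
    refine mu_sub_le fun z hz => ?_
    rw [mem_filter] at hz ⊢
    exact ⟨hz.1, bas_mem_Ty.2 hz.2.1.symm⟩
  refine ⟨?_, h5⟩
  rw [ff_eq_cM, h1, h2, h3, h4]
  ring

lemma mu_T_pos (hk : 5 ≤ k) {x : ZMod k → V} (hx : x ∈ Cyc G k) (l : ZMod k) :
    0 < mu k (T G k l x) := by
  have : Nonempty V := ⟨x 0⟩
  unfold mu
  refine mul_pos kap_pos ?_
  exact_mod_cast card_pos.2 ⟨x l, self_mem_T hk hx l⟩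

/-- the kernel at the middle position `m` -/
lemma KL_mid (hk : 5 ≤ k) {x : ZMod k → V} (hx : x ∈ Cyc G k) (L : ℕ) (m : ZMod k) :
    0 < ff G k (x (m + 1)) (x (m - 1)) ∧ 0 < ff G k (x (m - 1)) (x (m + 1)) ∧
    KL G k L (x (m + 1)) (x (m - 1)) = kk ((cL L (ff G k (x (m + 1)) (x (m - 1))) +
      cL L (ff G k (x (m - 1)) (x (m + 1)))) / 2) := by
  have e1 : m - 1 + 2 = m + 1 := by ring
  have e2 : m + 1 - 2 = m - 1 := by ring
  have h1 := ff_right (G := G) hk (x := x) (m - 1)
  have h2 := ff_left (G := G) hk (x := x) (m + 1)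
  rw [e1] at h1
  rw [e2] at h2
  have h3 := mu_T_pos (G := G) hk hx (m - 1 - 1)
  have h4 := mu_T_pos (G := G) hk hx (m + 1 + 1)
  have g1 : 0 < ff G k (x (m + 1)) (x (m - 1)) := by
    rw [h2.1]
    linarith [h2.2]
  have g2 : 0 < ff G k (x (m - 1)) (x (m + 1)) := by
    rw [h1.1]
    linarith [h1.2]
  refine ⟨g1, g2, ?_⟩
  unfold KL
  rw [if_pos ⟨g1, g2⟩]

/-- **the sum of the pair inequality**: the symmetric cross terms against the degrees and the light
classes, slope `3 / 10`, no windows used -/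
theorem pos_sum (hk : 5 ≤ k) {x : ZMod k → V} (hx : x ∈ Cyc G k) :
    ∑ m : ZMod k, (1 - (mu k (T G k (m - 1) x) + mu k (T G k (m + 1) x)) / 2) *
      (1 - KL G k 3 (x (m + 1)) (x (m - 1))) ≤
    ∑ b : ZMod k, JJ (dg G k (x b) / 2) + ∑ b : ZMod k, JJ (min 1 (mu k (T G k b x))) +
      3 / 10 * ∑ b : ZMod k, sm (mu k (T G k b x)) := by
  set t : ZMod k → ℝ := fun b => mu k (T G k b x) with ht
  set F1 : ZMod k → ℝ := fun b => ff G k (x b) (x (b - 2)) with hF1
  set F2 : ZMod k → ℝ := fun b => ff G k (x b) (x (b + 2)) with hF2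
  have hs1 : ∀ f : ZMod k → ℝ, ∑ a : ZMod k, f (a - 1) = ∑ a : ZMod k, f a := fun f =>
    Equiv.sum_comp (Equiv.subRight (1 : ZMod k)) f
  have hs2 : ∀ f : ZMod k → ℝ, ∑ a : ZMod k, f (a + 1) = ∑ a : ZMod k, f a := fun f =>
    Equiv.sum_comp (Equiv.addRight (1 : ZMod k)) f
  -- one position
  have h1 : ∀ m : ZMod k, (1 - (t (m - 1) + t (m + 1)) / 2) *
      (1 - KL G k 3 (x (m + 1)) (x (m - 1))) ≤
      AA ((sm (t (m - 1)) + sm (t (m + 1))) / 2) + (cL 3 (F1 (m + 1)) + cL 3 (F2 (m - 1))) / 8 := by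
    intro m
    obtain ⟨g1, g2, g3⟩ := KL_mid hk hx 3 m
    rw [g3]
    have e1 : m - 1 + 2 = m + 1 := by ring
    have e2 : m + 1 - 2 = m - 1 := by ring
    have hF1m : F1 (m + 1) = ff G k (x (m + 1)) (x (m - 1)) := by
      rw [hF1]; dsimp only; rw [e2]
    have hF2m : F2 (m - 1) = ff G k (x (m - 1)) (x (m + 1)) := by
      rw [hF2]; dsimp only; rw [e1]
    rw [← hF1m] at g1
    rw [← hF2m] at g2
    rw [← hF1m, ← hF2m]
    have c1 := cL_nonneg (L := 3) (by norm_num) g1
    have c2 := cL_nonneg (L := 3) (by norm_num) g2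
    have d1 := sm_nonneg (t (m - 1))
    have d2 := sm_nonneg (t (m + 1))
    have h := cross_le (e := 1 - (t (m - 1) + t (m + 1)) / 2)
      (s := (sm (t (m - 1)) + sm (t (m + 1))) / 2) (c := (cL 3 (F1 (m + 1)) + cL 3 (F2 (m - 1))) / 2)
      (by linarith) (by linarith)
      (by
        have a1 : 1 - t (m - 1) ≤ sm (t (m - 1)) := le_max_right _ _
        have a2 : 1 - t (m + 1) ≤ sm (t (m + 1)) := le_max_right _ _
        linarith)
    linarith
  -- the same costs by the position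
  have h2 : ∀ b : ZMod k, AA ((sm (t (b - 1)) + sm (t (b + 1))) / 2) +
      (cL 3 (F1 b) + cL 3 (F2 b)) / 8 ≤
      JJ (dg G k (x b) / 2) + (JJ (min 1 (t (b - 1))) + JJ (min 1 (t (b + 1)))) / 2 +
        3 / 10 * ((sm (t (b - 1)) + sm (t (b + 1))) / 2) := by
    intro b
    obtain ⟨a1, a2⟩ := ff_left (G := G) hk (x := x) b
    obtain ⟨b1, b2⟩ := ff_right (G := G) hk (x := x) b
    have hn1 := nnb_nonneg (G := G) x (b - 2) (x b)
    have hn2 := nnb_nonneg (G := G) x (b + 2) (x b)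
    have h := pair_ineq (u := t (b - 1)) (v := t (b + 1)) (n := nB G k x b)
      (r1 := nB G k x b - nnb G k x (b - 2) (x b)) (r2 := nB G k x b - nnb G k x (b + 2) (x b))
      (mu_T_pos hk hx _) (mu_T_pos hk hx _) (by linarith) (by linarith) (by linarith) (by linarith)
    have e1 : F1 b = t (b + 1) + (nB G k x b - nnb G k x (b - 2) (x b)) := a1
    have e2 : F2 b = t (b - 1) + (nB G k x b - nnb G k x (b + 2) (x b)) := b1
    have e3 : dg G k (x b) = t (b - 1) + t (b + 1) + nB G k x b := dg_x hk x b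
    rw [e1, e2, e3]
    exact h
  have h3 := sum_le_sum fun m (_ : m ∈ (univ : Finset (ZMod k))) => h1 m
  have h4 := sum_le_sum fun b (_ : b ∈ (univ : Finset (ZMod k))) => h2 b
  simp only [sum_add_distrib, ← mul_sum, ← sum_div] at h3 h4
  rw [hs2 (fun b => cL 3 (F1 b)), hs1 (fun b => cL 3 (F2 b))] at h3
  rw [hs1 (fun b => JJ (min 1 (t b))), hs2 (fun b => JJ (min 1 (t b))),
    hs1 (fun b => sm (t b)), hs2 (fun b => sm (t b))] at h4
  linarith

end

end Pool.Agent.ICyc.D
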