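import Pool.Agent.Lib.MP_131fce_co.D.Asm

/-!
# Induced k-cycles in triangle-free graphs: exact rewards and the general decoupled form

`visM x i l w` is the exact argument of the reward: the mass of the neighbours of `w` that see none of
the positions `i - l, ..., i - 1`.
-/

set_option autoImplicit false

namespace Pool.Agent.ICyc.D

open Finset Pool.Agent.ICyc
open scoped Classical

variable {V : Type} [Fintype V] {G : SimpleGraph V} {k : ℕ} [NeZero k]

/-- mass of the neighbours of `w` that see none of the positions `i - l, ..., i - 1` -/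
noncomputable def visM (G : SimpleGraph V) (k : ℕ) [NeZero k] (x : ZMod k → V) (i : ZMod k) (l : ℕ)
    (w : V) : ℝ := mu k ((nb G w).filter (fun z => fst G k x i z l))

lemma rho_eq_visM (x : ZMod k → V) (i : ZMod k) (l : ℕ) (w : V) :
    rho G k l (rot (i - (l : ZMod k)) x) w = visM G k x i l w := by
  unfold rho visM
  congr 1
  ext z
  rw [mem_filter, mem_filter, bas_mem_W, bas_mem_nb, and_comm]
  refine and_congr_right fun _ => ?_
  unfold rot fst
  constructor
  · intro h m h1 h2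
    rw [bas_mem_Ty]
    have h3 := h (l - m) (by omega)
    have e2 : ((l - m : ℕ) : ZMod k) + (i - (l : ZMod k)) = i - (m : ZMod k) := by
      rw [Nat.cast_sub h2]; ring
    rwa [e2] at h3
  · intro h j hj
    have h3 := h (l - j) (by omega) (by omega)
    rw [bas_mem_Ty] at h3
    have e2 : (j : ZMod k) + (i - (l : ZMod k)) = i - ((l - j : ℕ) : ZMod k) := by
      rw [Nat.cast_sub hj.le]; ring
    rwa [e2]

/-- exact lookahead reward of the vertex `w`, one direction -/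
noncomputable def rewX (G : SimpleGraph V) (k : ℕ) [NeZero k] (L : ℕ) (x : ZMod k → V)
    (w : V) : ℝ :=
  ∑ i ∈ Ty G k x w, ∑ l ∈ (Icc L (k - 4)).filter (fst G k x i w),
    (1 - psi (min 1 (visM G k x i l w)))

lemma rewX_nonneg (L : ℕ) (x : ZMod k → V) (w : V) : 0 ≤ rewX G k L x w :=
  sum_nonneg fun _ _ => sum_nonneg fun _ _ => sub_nonneg.2 (psi_le_one _)

/-- the visible reward is at most the exact reward -/
lemma rew_le_rewX (tf : ∀ a b c : V, G.Adj a b → G.Adj b c → ¬ G.Adj a c)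
    {L : ℕ} (hL : 3 ≤ L) (hk : 6 ≤ k) (x : ZMod k → V) (w : V) :
    rew G k L x w ≤ rewX G k L x w := by
  unfold rew rewX
  refine sum_le_sum fun i hi => sum_le_sum fun l hl => ?_
  rw [mem_filter, mem_Icc] at hl
  have h4 := rho_le_arg (G := G) tf (x := x) (i := i) (l := l) (by omega) (by omega) hi
  rw [rho_eq_visM] at h4
  have h6 := psi_min_mono (mu_nonneg _) h4
  unfold visM at h6 ⊢
  linarith

theorem rewX_le (hk : 6 ≤ k) (x : ZMod k → V) {L : ℕ} (hL : 3 ≤ L) :
    ∑ w : V, kap V k * rewX G k L x w ≤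
      ∑ a : ZMod k, ∑ l ∈ Icc 2 (k - 3), RL G k L l (rot a x) := by
  have h1 : ∀ l ∈ Icc L (k - 4), ∀ i : ZMod k, kap V k * ∑ w : V,
      (if i ∈ Ty G k x w ∧ fst G k x i w l then 1 - psi (min 1 (visM G k x i l w)) else 0) =
        RL G k L l (rot (i - (l : ZMod k)) x) := by
    intro l hl i
    rw [mem_Icc] at hl
    unfold RL
    congr 1
    rw [← sum_filter]
    have e : univ.filter (fun w : V => i ∈ Ty G k x w ∧ fst G k x i w l) =
        F G k l (rot (i - (l : ZMod k)) x) := by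
      ext w
      rw [mem_filter, mem_F_rot]
      simp
    rw [e]
    refine sum_congr rfl fun w _ => ?_
    unfold gL
    rw [if_pos ⟨hl.1, by omega⟩, rho_eq_visM]
  have h2 : ∑ l ∈ Icc L (k - 4), ∑ i : ZMod k, RL G k L l (rot (i - (l : ZMod k)) x) ≤
      ∑ a : ZMod k, ∑ l ∈ Icc 2 (k - 3), RL G k L l (rot a x) := by
    rw [sum_comm (s := (univ : Finset (ZMod k)))]
    have e : ∀ l : ℕ, ∑ i : ZMod k, RL G k L l (rot (i - (l : ZMod k)) x) =
        ∑ a : ZMod k, RL G k L l (rot a x) := fun l =>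
      Equiv.sum_comp (Equiv.subRight (l : ZMod k)) (fun a => RL G k L l (rot a x))
    rw [sum_congr rfl fun l _ => e l]
    refine sum_le_sum_of_subset_of_nonneg ?_ fun l _ _ => sum_nonneg fun a _ => RL_nonneg _ _ _
    intro l hl
    rw [mem_Icc] at hl ⊢
    omega
  refine le_trans (le_of_eq ?_)
    ((sum_le_sum fun l hl => sum_le_sum fun i _ => (h1 l hl i).le).trans h2)
  have h3 : ∀ w : V, rewX G k L x w = ∑ l ∈ Icc L (k - 4), ∑ i : ZMod k,
      (if i ∈ Ty G k x w ∧ fst G k x i w l then 1 - psi (min 1 (visM G k x i l w)) else 0) := by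
    intro w
    unfold rewX
    rw [sum_comm]
    have e : ∀ i : ZMod k, ∑ l ∈ Icc L (k - 4), (if i ∈ Ty G k x w ∧ fst G k x i w l then
        1 - psi (min 1 (visM G k x i l w)) else 0) = if i ∈ Ty G k x w then
        ∑ l ∈ (Icc L (k - 4)).filter (fst G k x i w), (1 - psi (min 1 (visM G k x i l w)))
        else 0 := by
      intro i
      by_cases h : i ∈ Ty G k x w
      · rw [if_pos h, sum_filter]
        exact sum_congr rfl fun l _ => by simp [h]
      · rw [if_neg h]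
        exact sum_eq_zero fun l _ => if_neg fun h' => h h'.1
    rw [sum_congr rfl fun i _ => e i, ← sum_filter]
    congr 1
    ext i
    simp
  simp_rw [← mul_sum]
  congr 1
  rw [sum_congr rfl fun w _ => h3 w, sum_comm]
  refine sum_congr rfl fun l _ => ?_
  rw [sum_comm]

/-- exact reward, mean of the two directions -/
noncomputable def rewXS (G : SimpleGraph V) (k : ℕ) [NeZero k] (L : ℕ) (x : ZMod k → V)
    (w : V) : ℝ := (rewX G k L x w + rewX G k L (rfx x) w) / 2

theorem sum_rewXS (hk : 6 ≤ k) {L : ℕ} (hL : 3 ≤ L) :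
    ∑ x ∈ Cyc G k, ∑ w : V, kap V k * rewXS G k L x w ≤
      ∑ x ∈ Cyc G k, ∑ a : ZMod k, ∑ l ∈ Icc 2 (k - 3), RL G k L l (rot a x) := by
  have h1 : ∑ x ∈ Cyc G k, ∑ w : V, kap V k * rewX G k L (rfx x) w =
      ∑ x ∈ Cyc G k, ∑ w : V, kap V k * rewX G k L x w :=
    sum_refl (G := G) (k := k) (fun x => ∑ w : V, kap V k * rewX G k L x w)
  have h2 : ∑ x ∈ Cyc G k, ∑ w : V, kap V k * rewXS G k L x w =
      (∑ x ∈ Cyc G k, ∑ w : V, kap V k * rewX G k L x w +
        ∑ x ∈ Cyc G k, ∑ w : V, kap V k * rewX G k L (rfx x) w) / 2 := by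
    rw [← sum_add_distrib, sum_div]
    refine sum_congr rfl fun x _ => ?_
    rw [← sum_add_distrib, sum_div]
    refine sum_congr rfl fun y _ => ?_
    unfold rewXS
    ring
  rw [h2, h1]
  have h3 := sum_le_sum fun x (_ : x ∈ Cyc G k) => rewX_le (G := G) hk x hL
  linarith

/-- the decoupled form with arbitrary vertex functionals: `Ow` (own cost), `Rw` (reward), `Tw`
(twin cost, carried by any vertices), `Fl` (total at most zero), `Z` (total at most zero), `g`
(multiplier) -/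
theorem asmG (hk : 6 ≤ k) (tf : ∀ a b c : V, G.Adj a b → G.Adj b c → ¬ G.Adj a c)
    (hne : (Cyc G k).Nonempty) {L : ℕ} (hL : 3 ≤ L) (hLk : L + 3 ≤ k) {K : V → V → ℝ}
    (hK : Ker G k L K) (Ow Rw Tw Fl : (ZMod k → V) → V → ℝ)
    (hOw : ∑ x ∈ Cyc G k, ∑ a : ZMod k, own G k K x a ≤
      ∑ x ∈ Cyc G k, ∑ y ∈ nonT G k x, kap V k * Ow x y)
    (hRw : ∑ x ∈ Cyc G k, ∑ w : V, kap V k * Rw x w ≤
      ∑ x ∈ Cyc G k, ∑ a : ZMod k, ∑ l ∈ Icc 2 (k - 3), RL G k L l (rot a x))
    (hTw : ∑ x ∈ Cyc G k, ∑ a : ZMod k, twK G k K x a a ≤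
      ∑ x ∈ Cyc G k, ∑ w : V, kap V k * Tw x w)
    (hFl : ∑ x ∈ Cyc G k, ∑ y : V, kap V k * Fl x y ≤ 0)
    (g : V → ℝ) (Z : (ZMod k → V) → ℝ) (hZ : ∑ x ∈ Cyc G k, Z x ≤ 0)
    (hx : ∀ x ∈ Cyc G k, Pos G k L K x ≤
      ∑ y ∈ nonT G k x, kap V k * (rD k (Ty G k x y) - Ow x y) +
      ∑ w : V, kap V k * (Rw x w - Tw x w + Fl x w +
        g w * (((Ty G k x w).card : ℝ) - dg G k w)) + Z x) :
    (k : ℝ) * (NN G k * Real.log (NN G k * kap V k ^ k / (2 * (k : ℝ)))) ≤
      ∑ x ∈ Cyc G k, ∑ y : V, kap V k * (g y * (((Ty G k x y).card : ℝ) - dg G k y)) := by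
  have h1 := frameQ hk tf hne hL hLk hK
  refine h1.trans ?_
  have e1 : ∑ x ∈ Cyc G k, QQ G k L K x =
      -∑ x ∈ Cyc G k, ∑ w ∈ nonT G k x, kap V k * rD k (Ty G k x w) +
      (∑ x ∈ Cyc G k, ∑ a : ZMod k, own G k K x a +
        ∑ x ∈ Cyc G k, ∑ a : ZMod k, twK G k K x a a) -
      ∑ x ∈ Cyc G k, ∑ a : ZMod k, ∑ l ∈ Icc 2 (k - 3), RL G k L l (rot a x) +
      ∑ x ∈ Cyc G k, Pos G k L K x := by
    rw [← sum_neg_distrib, ← sum_add_distrib, ← sum_add_distrib, ← sum_sub_distrib,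
      ← sum_add_distrib]
    refine sum_congr rfl fun x _ => ?_
    unfold QQ Pos
    rw [← sum_add_distrib (f := fun a => own G k K x a)]
    ring
  have h6 := sum_le_sum hx
  simp only [mul_add, mul_sub, sum_add_distrib, sum_sub_distrib] at h6
  have e3 : ∑ x ∈ Cyc G k, ∑ y : V, kap V k * (g y * (((Ty G k x y).card : ℝ) - dg G k y)) =
      ∑ x ∈ Cyc G k, ∑ y : V, kap V k * (g y * ((Ty G k x y).card : ℝ)) -
      ∑ x ∈ Cyc G k, ∑ y : V, kap V k * (g y * dg G k y) := by
    rw [← sum_sub_distrib]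
    refine sum_congr rfl fun x _ => ?_
    rw [← sum_sub_distrib]
    refine sum_congr rfl fun y _ => ?_
    ring
  rw [e1, e3]
  linarith

end Pool.Agent.ICyc.D
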