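import Pool.Agent.Lib.MP_131fce_co.D.Rows

/-!
# Induced k-cycles in triangle-free graphs: gaps of a type and the terms of a row, by gaps
-/

set_option autoImplicit false

namespace Pool.Agent.ICyc.D

open Finset Pool.Agent.ICyc
open scoped Classical

noncomputable section

variable {k : ℕ} [NeZero k]

/-! ### gaps -/

/-- the gap after `i`: the least `m ≥ 1` with `i + m ∈ A` -/
def gp (A : Finset (ZMod k)) (i : ZMod k) : ℕ :=
  if h : ∃ m : ℕ, 1 ≤ m ∧ i + (m : ZMod k) ∈ A then Nat.find h else 0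

/-- the next element -/
def nx (A : Finset (ZMod k)) (i : ZMod k) : ZMod k := i + (gp A i : ZMod k)

lemma gp_exists {A : Finset (ZMod k)} {i : ZMod k} (hi : i ∈ A) :
    ∃ m : ℕ, 1 ≤ m ∧ i + (m : ZMod k) ∈ A :=
  ⟨k, Nat.one_le_iff_ne_zero.2 (NeZero.ne k), by simpa using hi⟩

lemma gp_pos {A : Finset (ZMod k)} {i : ZMod k} (hi : i ∈ A) : 1 ≤ gp A i := by
  unfold gp
  rw [dif_pos (gp_exists hi)]
  exact (Nat.find_spec (gp_exists hi)).1

lemma nx_mem {A : Finset (ZMod k)} {i : ZMod k} (hi : i ∈ A) : nx A i ∈ A := by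
  unfold nx gp
  rw [dif_pos (gp_exists hi)]
  exact (Nat.find_spec (gp_exists hi)).2

lemma gp_min {A : Finset (ZMod k)} {i : ZMod k} (hi : i ∈ A) {m : ℕ} (h1 : 1 ≤ m)
    (h2 : m < gp A i) : i + (m : ZMod k) ∉ A := by
  intro h
  unfold gp at h2
  rw [dif_pos (gp_exists hi)] at h2
  exact Nat.find_min (gp_exists hi) h2 ⟨h1, h⟩

lemma gp_le {A : Finset (ZMod k)} {i : ZMod k} (hi : i ∈ A) {m : ℕ} (h1 : 1 ≤ m)
    (h : i + (m : ZMod k) ∈ A) : gp A i ≤ m := by
  by_contra hcon
  push Not at hcon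
  exact gp_min hi h1 hcon h

lemma gp_le_k {A : Finset (ZMod k)} {i : ZMod k} (hi : i ∈ A) : gp A i ≤ k :=
  gp_le hi (Nat.one_le_iff_ne_zero.2 (NeZero.ne k)) (by simpa using hi)

lemma nx_inj {A : Finset (ZMod k)} {i j : ZMod k} (hi : i ∈ A) (hj : j ∈ A)
    (h : nx A i = nx A j) : i = j := by
  have key : ∀ {i j : ZMod k}, i ∈ A → j ∈ A → nx A i = nx A j → gp A i ≤ gp A j → i = j := by
    intro i j hi hj h hle
    unfold nx at h
    rcases hle.eq_or_lt with he | hlt
    · rw [he] at h
      exact add_right_cancel h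
    · exfalso
      have h2 : j + ((gp A j - gp A i : ℕ) : ZMod k) = i := by
        rw [Nat.cast_sub hle]
        linear_combination (-1 : ZMod k) * h
      have h3 : j + ((gp A j - gp A i : ℕ) : ZMod k) ∈ A := by rw [h2]; exact hi
      have h4 := gp_le hj (by omega) h3
      have h5 := gp_pos hi
      omega
  rcases le_total (gp A i) (gp A j) with h1 | h1
  · exact key hi hj h h1
  · exact (key hj hi h.symm h1).symm

/-- sums over the next elements -/
theorem sum_nx (A : Finset (ZMod k)) (f : ZMod k → ℝ) :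
    ∑ i ∈ A, f (nx A i) = ∑ i ∈ A, f i := by
  have himg : A.image (nx A) = A := by
    apply eq_of_subset_of_card_le
    · intro i hi
      rw [mem_image] at hi
      obtain ⟨j, hj, rfl⟩ := hi
      exact nx_mem hj
    · rw [card_image_of_injOn]
      intro i hi j hj h
      exact nx_inj hi hj h
  conv_rhs => rw [← himg]
  rw [sum_image fun i hi j hj h => nx_inj hi hj h]

/-- **every position, by gaps** -/
theorem sum_gaps {A : Finset (ZMod k)} (hA : A.Nonempty) (f : ZMod k → ℝ) :
    ∑ p : ZMod k, f p = ∑ i ∈ A, ∑ m ∈ range (gp A i), f (i + (m : ZMod k)) := by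
  rw [← Finset.sum_sigma A (fun i => range (gp A i)) (fun x => f (x.1 + (x.2 : ZMod k)))]
  symm
  refine sum_bij (fun x _ => x.1 + (x.2 : ZMod k)) (fun _ _ => mem_univ _) ?_ ?_
    (fun _ _ => rfl)
  · rintro ⟨i, m⟩ hx ⟨j, n⟩ hy h
    rw [mem_sigma, mem_range] at hx hy
    dsimp only at hx hy h
    have key : ∀ {i j : ZMod k} {m n : ℕ}, i ∈ A → j ∈ A → m < gp A i → i + (m : ZMod k) =
        j + (n : ZMod k) → n ≤ m → i = j ∧ m = n := by
      intro i j m n hi hj hm h hle
      have h2 : i + ((m - n : ℕ) : ZMod k) = j := by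
        rw [Nat.cast_sub hle]
        linear_combination h
      rcases hle.eq_or_lt with he | hlt
      · refine ⟨?_, he.symm⟩
        rw [← h2, he, Nat.sub_self, Nat.cast_zero, add_zero]
      · exfalso
        exact gp_min hi (m := m - n) (by omega) (by omega) (by rw [h2]; exact hj)
    rcases le_total n m with hle | hle
    · obtain ⟨h1, h2⟩ := key hx.1 hy.1 hx.2 h hle
      rw [h1, h2]
    · obtain ⟨h1, h2⟩ := key hy.1 hx.1 hy.2 h.symm hle
      rw [h1, h2]
  · intro p _
    obtain ⟨a, ha⟩ := hA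
    have hex : ∃ n : ℕ, p - (n : ZMod k) ∈ A := by
      refine ⟨(p - a).val, ?_⟩
      rw [ZMod.natCast_zmod_val]
      simpa using ha
    set n := Nat.find hex with hn
    have h1 : p - (n : ZMod k) ∈ A := Nat.find_spec hex
    have h2 : n < gp A (p - (n : ZMod k)) := by
      by_contra hcon
      push Not at hcon
      have h3 := nx_mem h1
      unfold nx at h3
      have h4 := gp_pos h1
      have h5 : p - ((n - gp A (p - (n : ZMod k)) : ℕ) : ZMod k) ∈ A := by
        rw [Nat.cast_sub hcon]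
        have e : p - ((n : ZMod k) - (gp A (p - (n : ZMod k)) : ZMod k)) =
            p - (n : ZMod k) + (gp A (p - (n : ZMod k)) : ZMod k) := by ring
        rw [e]
        exact h3
      have h6 := Nat.find_min' hex h5
      omega
    exact ⟨⟨p - (n : ZMod k), n⟩, mem_sigma.2 ⟨h1, mem_range.2 h2⟩, by simp⟩

/-- the gaps add up to `k` -/
theorem sum_gp {A : Finset (ZMod k)} (hA : A.Nonempty) : ∑ i ∈ A, (gp A i : ℝ) = (k : ℝ) := by
  have h := sum_gaps hA (fun _ => (1 : ℝ))
  simp only [sum_const, card_univ, ZMod.card, card_range, nsmul_eq_mul, mul_one] at h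
  exact h.symm

/-! ### masses -/

section data

variable {A : Finset (ZMod k)} {N : Finset (ZMod k) → ℝ} {tau dx : ZMod k → ℝ}

lemma mem_tT {l b : ZMod k} : b ∈ tT l ↔ (b = l - 1 ∨ b = l + 1) := by
  unfold tT
  rw [mem_insert, mem_singleton]

lemma N_zero_of_mem (hD : Data A N tau dx) {B : Finset (ZMod k)} {i : ZMod k} (hi : i ∈ A)
    (hB : i ∈ B) : N B = 0 := by
  by_contra h
  exact disjoint_left.1 (hD.disj B h) hi hB

/-- `y` has no neighbours in the classes next to its roles -/
lemma uN_succ (hD : Data A N tau dx) {i : ZMod k} (hi : i ∈ A) : N (tT (i + 1)) = 0 :=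
  N_zero_of_mem hD hi (mem_tT.2 (Or.inl (by ring)))

lemma uN_pred (hD : Data A N tau dx) {i : ZMod k} (hi : i ∈ A) : N (tT (i - 1)) = 0 :=
  N_zero_of_mem hD hi (mem_tT.2 (Or.inr (by ring)))

lemma cN_nonneg (hD : Data A N tau dx) (b : ZMod k) : 0 ≤ cN N b :=
  sum_nonneg fun B _ => hD.nn B

lemma cN_self (hD : Data A N tau dx) {i : ZMod k} (hi : i ∈ A) : cN N i = 0 := by
  unfold cN
  refine sum_eq_zero fun B hB => ?_
  exact N_zero_of_mem hD hi (mem_filter.1 hB).2

lemma cN_le_dN (hD : Data A N tau dx) (b : ZMod k) : cN N b ≤ dN N :=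
  sum_le_sum_of_subset_of_nonneg (filter_subset _ _) fun B _ _ => hD.nn B

lemma vN_nonneg (hD : Data A N tau dx) (s i : ZMod k) (l : ℕ) : 0 ≤ vN N s i l :=
  sum_nonneg fun B _ => hD.nn B

lemma vN_le_dN (hD : Data A N tau dx) (s i : ZMod k) (l : ℕ) : vN N s i l ≤ dN N :=
  sum_le_sum_of_subset_of_nonneg (filter_subset _ _) fun B _ _ => hD.nn B

lemma vN_anti (hD : Data A N tau dx) (s i : ZMod k) {l l' : ℕ} (h : l ≤ l') :
    vN N s i l' ≤ vN N s i l := by
  refine sum_le_sum_of_subset_of_nonneg ?_ fun B _ _ => hD.nn B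
  intro B hB
  rw [mem_filter] at hB ⊢
  exact ⟨mem_univ _, fun m h1 h2 => hB.2 m h1 (h2.trans h)⟩

/-- the visible mass is at most the degree minus the common mass with a position of the window -/
lemma vN_add_cN_le (hD : Data A N tau dx) (s i : ZMod k) {l m : ℕ} (h1 : 1 ≤ m) (h2 : m ≤ l) :
    vN N s i l + cN N (i + s * (m : ZMod k)) ≤ dN N := by
  unfold vN cN dN
  rw [← sum_union]
  · exact sum_le_sum_of_subset_of_nonneg (subset_univ _) fun B _ _ => hD.nn B
  · rw [disjoint_left]
    intro B hB hB'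
    exact (mem_filter.1 hB).2 m h1 h2 (mem_filter.1 hB').2

omit [NeZero k] in
lemma tT_inj (hk : 5 ≤ k) {i j : ZMod k} (h : tT i = tT j) : i = j := pair_inj' hk h

/-- a sum over different classes whose types satisfy `p` -/
lemma sum_tT_le (hk : 5 ≤ k) (hD : Data A N tau dx) (S : Finset (ZMod k))
    (p : Finset (ZMod k) → Prop) (hp : ∀ l ∈ S, p (tT l)) :
    ∑ l ∈ S, N (tT l) ≤ ∑ B ∈ univ.filter (fun B => p B), N B := by
  have h1 : ∑ l ∈ S, N (tT l) = ∑ B ∈ S.image tT, N B :=
    (sum_image fun i _ j _ h => tT_inj hk h).symm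
  rw [h1]
  refine sum_le_sum_of_subset_of_nonneg ?_ fun B _ _ => hD.nn B
  intro B hB
  rw [mem_image] at hB
  obtain ⟨l, hl, rfl⟩ := hB
  rw [mem_filter]
  exact ⟨mem_univ _, hp l hl⟩

lemma sum_uN_le (hk : 5 ≤ k) (hD : Data A N tau dx) : ∑ l : ZMod k, N (tT l) ≤ dN N := by
  have h := sum_tT_le hk hD univ (fun _ => True) fun _ _ => trivial
  simpa [dN] using h

/-- mass of the neighbours outside the classes -/
def nN (N : Finset (ZMod k) → ℝ) : ℝ :=
  ∑ B ∈ univ.filter (fun B : Finset (ZMod k) => ∀ l, B ≠ tT l), N B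

lemma nN_nonneg (hD : Data A N tau dx) : 0 ≤ nN N := sum_nonneg fun B _ => hD.nn B

lemma dN_eq (hk : 5 ≤ k) (N : Finset (ZMod k) → ℝ) :
    dN N = ∑ l : ZMod k, N (tT l) + nN N := by
  have h1 : ∑ l : ZMod k, N (tT l) = ∑ B ∈ univ.image (tT (k := k)), N B :=
    (sum_image fun i _ j _ h => tT_inj hk h).symm
  have h2 : univ.filter (fun B : Finset (ZMod k) => ∀ l, B ≠ tT l) =
      (univ.image (tT (k := k)))ᶜ := by
    ext B
    simp only [mem_filter, mem_univ, true_and, mem_compl, mem_image, not_exists]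
    exact ⟨fun h l hl => h l hl.symm, fun h l hl => h l hl.symm⟩
  unfold dN nN
  rw [h1, h2, sum_add_sum_compl]

lemma two_classes_le_cN (hk : 5 ≤ k) (hD : Data A N tau dx) (b : ZMod k) :
    N (tT (b - 1)) + N (tT (b + 1)) ≤ cN N b := by
  have hne : b - 1 ≠ b + 1 := sub_ne_add' hk b
  have h := sum_tT_le hk hD {b - 1, b + 1} (fun B => b ∈ B) (by
    intro l hl
    rw [mem_insert, mem_singleton] at hl
    rcases hl with rfl | rfl
    · exact mem_tT.2 (Or.inr (by ring))
    · exact mem_tT.2 (Or.inl (by ring)))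
  rw [sum_pair hne] at h
  refine h.trans (le_of_eq ?_)
  unfold cN
  convert rfl

/-- the difference `d - c_b` is nonnegative -/
lemma fN_nonneg (hD : Data A N tau dx) (b : ZMod k) : 0 ≤ dN N - cN N b :=
  sub_nonneg.2 (cN_le_dN hD b)

lemma gp_ge_two (hD : Data A N tau dx) {i : ZMod k} (hi : i ∈ A) : 2 ≤ gp A i := by
  by_contra h
  push Not at h
  have h1 := gp_pos hi
  have h2 : gp A i = 1 := by omega
  have h3 := nx_mem hi
  unfold nx at h3
  rw [h2, Nat.cast_one] at h3
  exact hD.indA i hi h3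

/-- mass of the classes inside the gap after `i` -/
def gU (A : Finset (ZMod k)) (N : Finset (ZMod k) → ℝ) (i : ZMod k) : ℝ :=
  ∑ m ∈ Icc 2 (gp A i - 2), N (tT (i + (m : ZMod k)))

lemma gU_nonneg (hD : Data A N tau dx) (i : ZMod k) : 0 ≤ gU A N i :=
  sum_nonneg fun _ _ => hD.nn _

/-- a weighted sum over the classes, by gaps -/
theorem sum_uN_gaps (hA : A.Nonempty) (hD : Data A N tau dx) (w : ZMod k → ℝ) :
    ∑ l : ZMod k, w l * N (tT l) = ∑ i ∈ A, (w i * N (tT i) +
      ∑ m ∈ Icc 2 (gp A i - 2), w (i + (m : ZMod k)) * N (tT (i + (m : ZMod k)))) := by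
  rw [sum_gaps hA]
  refine sum_congr rfl fun i hi => ?_
  have h2 := gp_ge_two hD hi
  have e1 : range (gp A i) = insert 0 (Icc 1 (gp A i - 1)) := by
    ext m
    rw [mem_range, mem_insert, mem_Icc]
    omega
  have e2 : (0 : ℕ) ∉ Icc 1 (gp A i - 1) := by rw [mem_Icc]; omega
  rw [e1, sum_insert e2, Nat.cast_zero, add_zero]
  congr 1
  symm
  refine sum_subset ?_ ?_
  · intro m hm
    rw [mem_Icc] at hm ⊢
    omega
  · intro m hm hn
    rw [mem_Icc] at hm hn
    have h3 : m = 1 ∨ m = gp A i - 1 := by omega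
    rcases h3 with h3 | h3
    · rw [h3, Nat.cast_one, uN_succ hD hi, mul_zero]
    · have h4 : i + (m : ZMod k) = nx A i - 1 := by
        rw [h3, Nat.cast_sub (by omega)]
        unfold nx
        push_cast
        ring
      rw [h4, uN_pred hD (nx_mem hi), mul_zero]

lemma sum_uN_gaps' (hA : A.Nonempty) (hD : Data A N tau dx) :
    ∑ l : ZMod k, N (tT l) = ∑ i ∈ A, (N (tT i) + gU A N i) := by
  have h := sum_uN_gaps hA hD (fun _ => 1)
  simp only [one_mul] at h
  exact h

/-- the flow, by gaps -/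
theorem flowN_gaps (hA : A.Nonempty) (hD : Data A N tau dx) (pot : Pot k) :
    flowN pot A N tau dx = ∑ i ∈ A, (potN pot A N tau dx i * (tau i - N (tT i)) -
      ∑ m ∈ Icc 2 (gp A i - 2), potN pot A N tau dx (i + (m : ZMod k)) *
        N (tT (i + (m : ZMod k)))) := by
  have h := sum_uN_gaps hA hD (fun l => potN pot A N tau dx l)
  have h2 : ∑ l : ZMod k, potN pot A N tau dx l * N (tT l) =
      ∑ l ∈ A, potN pot A N tau dx l * N (tT l) +
        ∑ l ∈ Aᶜ, potN pot A N tau dx l * N (tT l) := (sum_add_sum_compl A _).symm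
  rw [h2, sum_add_distrib] at h
  have h3 := add_left_cancel h
  unfold flowN
  rw [h3, ← sum_sub_distrib]

/-! ### rewards, by gaps -/

lemma miss_one_iff {i : ZMod k} (hi : i ∈ A) {l : ℕ} : miss 1 i l A ↔ l < gp A i := by
  unfold miss
  constructor
  · intro h
    by_contra hcon
    push Not at hcon
    refine h (gp A i) (gp_pos hi) hcon ?_
    rw [one_mul]
    exact nx_mem hi
  · intro h m h1 h2
    rw [one_mul]
    exact gp_min hi h1 (by omega)

lemma miss_neg_iff {i : ZMod k} (hi : i ∈ A) {l : ℕ} : miss (-1) (nx A i) l A ↔ l < gp A i := by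
  unfold miss
  constructor
  · intro h
    by_contra hcon
    push Not at hcon
    refine h (gp A i) (gp_pos hi) hcon ?_
    unfold nx
    have e : i + (gp A i : ZMod k) + -1 * (gp A i : ZMod k) = i := by ring
    rw [e]
    exact hi
  · intro h m h1 h2
    have e : nx A i + -1 * (m : ZMod k) = i + ((gp A i - m : ℕ) : ZMod k) := by
      unfold nx
      rw [Nat.cast_sub (by omega)]
      ring
    rw [e]
    exact gp_min hi (by omega) (by omega)

/-- rewards of the windows that start at the elements, upwards -/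
theorem rewN_up (L : ℕ) (A : Finset (ZMod k)) (N : Finset (ZMod k) → ℝ) : rewN L 1 A N =
    ∑ i ∈ A, ∑ l ∈ Icc L (min (gp A i - 1) (k - 4)), (1 - psi (min 1 (vN N 1 i l))) := by
  unfold rewN
  refine sum_congr rfl fun i hi => sum_congr ?_ fun _ _ => rfl
  ext l
  rw [mem_filter, mem_Icc, mem_Icc, miss_one_iff hi]
  have := gp_pos hi
  omega

/-- rewards of the windows that start at the next elements, downwards -/
theorem rewN_down (L : ℕ) (A : Finset (ZMod k)) (N : Finset (ZMod k) → ℝ) : rewN L (-1) A N =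
    ∑ i ∈ A, ∑ l ∈ Icc L (min (gp A i - 1) (k - 4)),
      (1 - psi (min 1 (vN N (-1) (nx A i) l))) := by
  unfold rewN
  rw [← sum_nx A]
  refine sum_congr rfl fun i hi => sum_congr ?_ fun _ _ => rfl
  ext l
  rw [mem_filter, mem_Icc, mem_Icc, miss_neg_iff hi]
  have := gp_pos hi
  omega

/-- mass of the types that miss the open gap after `i` -/
def gV (A : Finset (ZMod k)) (N : Finset (ZMod k) → ℝ) (i : ZMod k) : ℝ :=
  vN N 1 i (gp A i - 1)

lemma gV_nonneg (hD : Data A N tau dx) (i : ZMod k) : 0 ≤ gV A N i := vN_nonneg hD _ _ _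

lemma gV_down {i : ZMod k} (hi : i ∈ A) : vN N (-1) (nx A i) (gp A i - 1) = gV A N i := by
  unfold gV vN
  refine sum_congr ?_ fun _ _ => rfl
  ext B
  rw [mem_filter, mem_filter]
  refine and_congr_right fun _ => ?_
  have hg := gp_pos hi
  unfold miss nx
  constructor
  · intro h m h1 h2
    have h3 := h (gp A i - m) (by omega) (by omega)
    rw [Nat.cast_sub (by omega)] at h3
    have e : i + (gp A i : ZMod k) + -1 * ((gp A i : ZMod k) - (m : ZMod k)) =
        i + 1 * (m : ZMod k) := by ring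
    rwa [e] at h3
  · intro h m h1 h2
    have h3 := h (gp A i - m) (by omega) (by omega)
    rw [Nat.cast_sub (by omega)] at h3
    have e : i + 1 * ((gp A i : ZMod k) - (m : ZMod k)) =
        i + (gp A i : ZMod k) + -1 * (m : ZMod k) := by ring
    rwa [e] at h3

lemma one_sub_psi_nonneg (t : ℝ) : 0 ≤ 1 - psi t := by linarith [psi_le_one t]

/-- **the full gap windows** -/
theorem rew_ge_gaps {L : ℕ} (A : Finset (ZMod k)) (N : Finset (ZMod k) → ℝ) :
    ∑ i ∈ A.filter (fun i => L + 1 ≤ gp A i ∧ gp A i + 3 ≤ k), (1 - psi (min 1 (gV A N i))) ≤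
      (rewN L (-1) A N + rewN L 1 A N) / 2 := by
  have h1 : ∑ i ∈ A.filter (fun i => L + 1 ≤ gp A i ∧ gp A i + 3 ≤ k),
      (1 - psi (min 1 (gV A N i))) ≤ rewN L 1 A N := by
    rw [rewN_up, sum_filter]
    refine sum_le_sum fun i hi => ?_
    split_ifs with h
    · refine single_le_sum (f := fun l => 1 - psi (min 1 (vN N 1 i l)))
        (fun _ _ => one_sub_psi_nonneg _) ?_
      rw [mem_Icc]
      omega
    · exact sum_nonneg fun _ _ => one_sub_psi_nonneg _
  have h2 : ∑ i ∈ A.filter (fun i => L + 1 ≤ gp A i ∧ gp A i + 3 ≤ k),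
      (1 - psi (min 1 (gV A N i))) ≤ rewN L (-1) A N := by
    rw [rewN_down, sum_filter]
    refine sum_le_sum fun i hi => ?_
    split_ifs with h
    · rw [← gV_down hi]
      refine single_le_sum (f := fun l => 1 - psi (min 1 (vN N (-1) (nx A i) l)))
        (fun _ _ => one_sub_psi_nonneg _) ?_
      rw [mem_Icc]
      omega
    · exact sum_nonneg fun _ _ => one_sub_psi_nonneg _
  linarith

/-- the mass that does not miss the gap: the two classes at its ends and the classes inside -/
theorem gV_add_le (hk : 5 ≤ k) (hD : Data A N tau dx) {i : ZMod k} (hi : i ∈ A)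
    (hne : nx A i ≠ i) :
    gV A N i + N (tT i) + N (tT (nx A i)) + gU A N i ≤ dN N := by
  have hg := gp_ge_two hD hi
  have hgk := gp_le_k hi
  -- the classes
  set S : Finset (ZMod k) := insert i (insert (nx A i)
    ((Icc 2 (gp A i - 2)).image fun m : ℕ => i + (m : ZMod k))) with hS
  have hlt : gp A i < k := by
    rcases hgk.eq_or_lt with h | h
    · exfalso
      apply hne
      unfold nx
      rw [h]
      simp
    · exact h
  have hinj : ∀ m ∈ Icc 2 (gp A i - 2), ∀ n ∈ Icc 2 (gp A i - 2),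
      i + ((m : ℕ) : ZMod k) = i + ((n : ℕ) : ZMod k) → m = n := by
    intro m hm n hn h
    rw [mem_Icc] at hm hn
    have h2 := add_left_cancel h
    have h3 := (ZMod.natCast_eq_natCast_iff m n k).1 h2
    exact Nat.ModEq.eq_of_lt_of_lt h3 (by omega) (by omega)
  have hn1 : nx A i ∉ (Icc 2 (gp A i - 2)).image fun m : ℕ => i + (m : ZMod k) := by
    intro h
    rw [mem_image] at h
    obtain ⟨m, hm, h2⟩ := h
    rw [mem_Icc] at hm
    have h3 := nx_mem hi
    rw [← h2] at h3
    exact gp_min hi (by omega) (by omega) h3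
  have hn2 : i ∉ insert (nx A i) ((Icc 2 (gp A i - 2)).image fun m : ℕ => i + (m : ZMod k)) := by
    intro h
    rw [mem_insert] at h
    rcases h with h | h
    · exact hne h.symm
    · rw [mem_image] at h
      obtain ⟨m, hm, h2⟩ := h
      rw [mem_Icc] at hm
      have h3 : i + (m : ZMod k) ∈ A := by rw [h2]; exact hi
      exact gp_min hi (by omega) (by omega) h3
  have hsum : ∑ l ∈ S, N (tT l) = N (tT i) + (N (tT (nx A i)) + gU A N i) := by
    rw [hS, sum_insert hn2, sum_insert hn1, sum_image hinj]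
    rfl
  have h1 := sum_tT_le hk hD S (fun B => ¬ miss 1 i (gp A i - 1) B) (by
    intro l hl
    rw [hS, mem_insert, mem_insert, mem_image] at hl
    unfold miss
    push Not
    rcases hl with h | h | h
    · refine ⟨1, le_rfl, by omega, ?_⟩
      rw [h]
      exact mem_tT.2 (Or.inr (by push_cast; ring))
    · refine ⟨gp A i - 1, by omega, le_rfl, ?_⟩
      rw [h]
      unfold nx
      rw [Nat.cast_sub (by omega)]
      exact mem_tT.2 (Or.inl (by push_cast; ring))
    · obtain ⟨m, hm, h2⟩ := h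
      rw [mem_Icc] at hm
      refine ⟨m + 1, by omega, by omega, ?_⟩
      rw [← h2]
      exact mem_tT.2 (Or.inr (by push_cast; ring)))
  rw [hsum] at h1
  have h1' : N (tT i) + (N (tT (nx A i)) + gU A N i) ≤
      ∑ B ∈ univ.filter (fun B => ¬ miss 1 i (gp A i - 1) B), N B := by
    convert h1
  have h2 : gV A N i + ∑ B ∈ univ.filter (fun B => ¬ miss 1 i (gp A i - 1) B), N B = dN N := by
    unfold gV vN dN
    rw [sum_filter_add_sum_filter_not]
  linarith

end data

end

end Pool.Agent.ICyc.D
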