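import Pool.Agent.Lib.MP_131fce_co.D.Charge

/-!
# Induced k-cycles in triangle-free graphs: the interface between graphs and real inequalities

For a cycle `x` and a vertex `y` the data are the type `A` of `y`, the masses `N B` of the
neighbours of `y` of type `B`, the masses `tau j` of the classes and the degrees `dx j` of the
positions.  Every term of the decoupled inequality is an explicit function of these data.
-/

set_option autoImplicit false

namespace Pool.Agent.ICyc.D

open Finset Pool.Agent.ICyc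
open scoped Classical

noncomputable section

/-! ### the functions of the data -/

section

variable {k : ℕ} [NeZero k]

/-- total mass -/
def dN (N : Finset (ZMod k) → ℝ) : ℝ := ∑ B : Finset (ZMod k), N B

/-- mass of the types that contain `b` -/
def cN (N : Finset (ZMod k) → ℝ) (b : ZMod k) : ℝ :=
  ∑ B ∈ univ.filter (fun B : Finset (ZMod k) => b ∈ B), N B

/-- the type of the class `l` -/
def tT (l : ZMod k) : Finset (ZMod k) := {l - 1, l + 1}

/-- the type `B` misses the positions `i + s, i + 2 s, ..., i + l s` -/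
def miss (s i : ZMod k) (l : ℕ) (B : Finset (ZMod k)) : Prop :=
  ∀ m : ℕ, 1 ≤ m → m ≤ l → i + s * (m : ZMod k) ∉ B

/-- mass of the types that miss the window -/
def vN (N : Finset (ZMod k) → ℝ) (s i : ZMod k) (l : ℕ) : ℝ :=
  ∑ B ∈ univ.filter (fun B : Finset (ZMod k) => miss s i l B), N B

/-- exact reward, direction `s` -/
def rewN (L : ℕ) (s : ZMod k) (A : Finset (ZMod k)) (N : Finset (ZMod k) → ℝ) : ℝ :=
  ∑ i ∈ A, ∑ l ∈ (Icc L (k - 4)).filter (fun l => miss s i l A), (1 - psi (min 1 (vN N s i l)))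

/-- the kernel as a function of the two differences -/
def KF (L : ℕ) (s t : ℝ) : ℝ := if 0 < s ∧ 0 < t then kk ((cL L s + cL L t) / 2) else 0

/-- normaliser -/
def zN (Phi : ℝ → ℝ → ℝ → ℝ) (tau dx : ZMod k → ℝ) (i : ZMod k) : ℝ :=
  Phi (dx i) (tau (i - 1)) (tau (i + 1))

/-- own cost -/
def ownN (L : ℕ) (Phi : ℝ → ℝ → ℝ → ℝ) (A : Finset (ZMod k)) (N : Finset (ZMod k) → ℝ)
    (tau dx : ZMod k → ℝ) : ℝ :=
  ∑ i ∈ A, (KF L (dN N - cN N (i - 1)) (dx (i - 1) - cN N (i - 1)) +
    KF L (dN N - cN N (i + 1)) (dx (i + 1) - cN N (i + 1))) / (2 * zN Phi tau dx i)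

/-- mean of the inverse normalisers next to `j` -/
def iz (Phi : ℝ → ℝ → ℝ → ℝ) (tau dx : ZMod k → ℝ) (j : ZMod k) : ℝ :=
  (1 / zN Phi tau dx (j - 1) + 1 / zN Phi tau dx (j + 1)) / 2

/-- the type of potentials: lower state, position `l`, degree, `u` and `D` at `l`, `l - 2`, `l + 2`,
common masses with and degrees of the positions other than `l` -/
abbrev Pot (k : ℕ) := Finset (ZMod k) → ZMod k → ℝ → ℝ → ℝ → ℝ → ℝ → ℝ → ℝ → (ZMod k → ℝ) →
  (ZMod k → ℝ) → ℝ

/-- the function with the value at `l` masked -/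
def msk (l : ZMod k) (f : ZMod k → ℝ) : ZMod k → ℝ := fun b => if b = l then 0 else f b

/-- potential at the position `l`, in terms of the data -/
def potN (pot : Pot k) (A : Finset (ZMod k)) (N : Finset (ZMod k) → ℝ) (tau dx : ZMod k → ℝ)
    (l : ZMod k) : ℝ :=
  pot (A.erase l) l (dN N) (N (tT l)) (tau l - N (tT l)) (N (tT (l - 2)))
    (tau (l - 2) - N (tT (l - 2))) (N (tT (l + 2))) (tau (l + 2) - N (tT (l + 2)))
    (msk l (cN N)) (msk l dx)

/-- flow -/
def flowN (pot : Pot k) (A : Finset (ZMod k)) (N : Finset (ZMod k) → ℝ) (tau dx : ZMod k → ℝ) :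
    ℝ :=
  ∑ l ∈ A, potN pot A N tau dx l * (tau l - N (tT l)) -
    ∑ l ∈ Aᶜ, potN pot A N tau dx l * N (tT l)

/-- the part common to all vertices: rewards, price of the differences, flow, multiplier, charges,
and the functional `phi` -/
def comN (L : ℕ) (r0 : ℝ) (Phi : ℝ → ℝ → ℝ → ℝ) (pot : Pot k) (g phi : ℝ → ℝ)
    (chi : (ZMod k → ℝ) → (ZMod k → ℝ) → Finset (ZMod k) → Finset (ZMod k) → ℝ)
    (A : Finset (ZMod k)) (N : Finset (ZMod k) → ℝ) (tau dx : ZMod k → ℝ) : ℝ :=
  (rewN L (-1) A N + rewN L 1 A N) / 2 -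
    r0 * ∑ l ∈ A, iz Phi tau dx l * (tau l - N (tT l)) + flowN pot A N tau dx +
    g (dN N) * ((A.card : ℝ) - dN N) + ∑ B : Finset (ZMod k), N B * chi tau dx A B - phi (dN N)

/-- value of a vertex outside the classes -/
def valN (L : ℕ) (r0 : ℝ) (Phi : ℝ → ℝ → ℝ → ℝ) (pot : Pot k) (g phi : ℝ → ℝ)
    (chi : (ZMod k → ℝ) → (ZMod k → ℝ) → Finset (ZMod k) → Finset (ZMod k) → ℝ)
    (A : Finset (ZMod k)) (N : Finset (ZMod k) → ℝ) (tau dx : ZMod k → ℝ) : ℝ :=
  rD k A - ownN L Phi A N tau dx + comN L r0 Phi pot g phi chi A N tau dx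

/-- value of a member of the class `j` -/
def valT (L : ℕ) (r0 : ℝ) (H : ℝ → ℝ) (Phi : ℝ → ℝ → ℝ → ℝ) (pot : Pot k) (g phi : ℝ → ℝ)
    (chi : (ZMod k → ℝ) → (ZMod k → ℝ) → Finset (ZMod k) → Finset (ZMod k) → ℝ)
    (j : ZMod k) (N : Finset (ZMod k) → ℝ) (tau dx : ZMod k → ℝ) : ℝ :=
  comN L r0 Phi pot g phi chi (tT j) N tau dx - H (dN N - cN N j) * iz Phi tau dx j

/-- what is known about the data -/
structure Data (A : Finset (ZMod k)) (N : Finset (ZMod k) → ℝ) (tau dx : ZMod k → ℝ) : Prop where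
  nn : ∀ B, 0 ≤ N B
  disj : ∀ B, N B ≠ 0 → Disjoint A B
  indN : ∀ B, N B ≠ 0 → ∀ i ∈ B, i + 1 ∉ B
  indA : ∀ i ∈ A, i + 1 ∉ A
  le : ∀ l, N (tT l) ≤ tau l
  pos : ∀ l, 0 < tau l
  dx_le : ∀ b, cN N b + (tau (b - 1) - N (tT (b - 1))) + (tau (b + 1) - N (tT (b + 1))) ≤ dx b
  dN_le : dN N ≤ (k : ℝ)
  dx_le_k : ∀ b, dx b ≤ (k : ℝ)
  sum_tau : ∑ l : ZMod k, tau l ≤ (k : ℝ)
  dN_pos : 0 ≤ dN N

end

/-! ### the data of a vertex -/

section

variable {V : Type} [Fintype V] {G : SimpleGraph V} {k : ℕ} [NeZero k]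

/-- mass of the neighbours of `y` of type `B` -/
def NbM (G : SimpleGraph V) (k : ℕ) [NeZero k] (x : ZMod k → V) (y : V)
    (B : Finset (ZMod k)) : ℝ := mu k ((nb G y).filter (fun z => Ty G k x z = B))

lemma NbM_nonneg (x : ZMod k → V) (y : V) (B : Finset (ZMod k)) : 0 ≤ NbM G k x y B := mu_nonneg _

/-- sums over the neighbours, by types -/
lemma sum_nb_types (x : ZMod k → V) (y : V) (f : Finset (ZMod k) → ℝ) :
    ∑ z ∈ nb G y, kap V k * f (Ty G k x z) = ∑ B : Finset (ZMod k), NbM G k x y B * f B := by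
  rw [← sum_fiberwise (nb G y) (fun z => Ty G k x z)]
  refine sum_congr rfl fun B _ => ?_
  unfold NbM
  rw [mu_eq_sum, sum_mul]
  refine sum_congr rfl fun z hz => ?_
  rw [(mem_filter.1 hz).2]

lemma mu_nb_types (x : ZMod k → V) (y : V) (p : Finset (ZMod k) → Prop) :
    mu k ((nb G y).filter (fun z => p (Ty G k x z))) =
      ∑ B ∈ univ.filter (fun B => p B), NbM G k x y B := by
  have h := sum_nb_types (G := G) x y (fun B => if p B then 1 else 0)
  rw [mu_eq_sum, sum_filter, sum_filter]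
  refine Eq.trans ?_ (h.trans ?_)
  · refine sum_congr rfl fun z _ => ?_
    split_ifs
    · rw [mul_one]
    · rw [mul_zero]
  · refine sum_congr rfl fun B _ => ?_
    split_ifs
    · rw [mul_one]
    · rw [mul_zero]

lemma dg_eq_dN (x : ZMod k → V) (y : V) : dg G k y = dN (NbM G k x y) := by
  have h := sum_nb_types (G := G) x y (fun _ => 1)
  simp only [mul_one] at h
  unfold dg dN
  rw [mu_eq_sum]
  exact h

lemma cM_eq_cN (x : ZMod k → V) (y : V) (b : ZMod k) :
    cM G k y (x b) = cN (NbM G k x y) b := by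
  have h := mu_nb_types (G := G) x y (fun B => b ∈ B)
  have e : (nb G y).filter (fun z => G.Adj (x b) z) =
      (nb G y).filter (fun z => b ∈ Ty G k x z) := filter_congr fun z _ => by rw [bas_mem_Ty]
  unfold cM cN
  rw [e]
  convert h

lemma uu_eq_N (x : ZMod k → V) (l : ZMod k) (y : V) : uu G k x l y = NbM G k x y (tT l) := by
  unfold uu NbM tT
  congr 1
  ext z
  rw [mem_filter, mem_filter, bas_mem_T, bas_mem_nb, and_comm, G.adj_comm]

lemma DD_eq_N (x : ZMod k → V) (l : ZMod k) (y : V) :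
    DD G k x l y = mu k (T G k l x) - NbM G k x y (tT l) := by
  have h := uu_add_DD (G := G) x l y
  rw [uu_eq_N] at h
  linarith

lemma visM_eq_vN (x : ZMod k → V) (i : ZMod k) (l : ℕ) (w : V) :
    visM G k x i l w = vN (NbM G k x w) (-1) i l := by
  unfold visM vN
  rw [← mu_nb_types x w (fun B => miss (-1) i l B)]
  congr 1
  refine filter_congr fun z _ => ?_
  unfold fst miss
  refine forall_congr' fun m => forall_congr' fun _ => forall_congr' fun _ => ?_
  rw [neg_one_mul, ← sub_eq_add_neg]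

lemma rewX_eq_rewN (L : ℕ) (x : ZMod k → V) (w : V) :
    rewX G k L x w = rewN L (-1) (Ty G k x w) (NbM G k x w) := by
  unfold rewX rewN
  refine sum_congr rfl fun i _ => ?_
  have e : (Icc L (k - 4)).filter (fst G k x i w) =
      (Icc L (k - 4)).filter (fun l => miss (-1) i l (Ty G k x w)) := by
    refine filter_congr fun l _ => ?_
    unfold fst miss
    refine forall_congr' fun m => forall_congr' fun _ => forall_congr' fun _ => ?_
    rw [neg_one_mul, ← sub_eq_add_neg]
  rw [e]
  refine sum_congr rfl fun l _ => ?_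
  rw [visM_eq_vN]

lemma NbM_rfx (x : ZMod k → V) (y : V) (B : Finset (ZMod k)) :
    NbM G k (rfx x) y B = NbM G k x y (B.image fun i => -i) := by
  unfold NbM
  congr 1
  refine filter_congr fun z _ => ?_
  rw [Ty_rfx]
  have e : ∀ S : Finset (ZMod k), (S.image fun i => -i).image (fun i => -i) = S := by
    intro S
    rw [image_image]
    have : ((fun i : ZMod k => -i) ∘ fun i => -i) = id := by
      funext i
      simp
    rw [this, image_id]
  constructor
  · rintro h
    rw [← h, e]
  · intro h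
    rw [h, e]

lemma mem_image_neg {S : Finset (ZMod k)} {i : ZMod k} :
    i ∈ (S.image fun j => -j) ↔ -i ∈ S := by
  rw [mem_image]
  constructor
  · rintro ⟨j, hj, rfl⟩
    rwa [neg_neg]
  · intro h
    exact ⟨-i, h, neg_neg i⟩

lemma miss_neg (i : ZMod k) (l : ℕ) (S : Finset (ZMod k)) :
    miss (-1) i l (S.image fun j => -j) ↔ miss 1 (-i) l S := by
  unfold miss
  refine forall_congr' fun m => forall_congr' fun _ => forall_congr' fun _ => ?_
  rw [mem_image_neg]
  have e : -(i + -1 * (m : ZMod k)) = -i + 1 * (m : ZMod k) := by ring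
  rw [e]

lemma rewX_rfx_eq_rewN (L : ℕ) (x : ZMod k → V) (w : V) :
    rewX G k L (rfx x) w = rewN L 1 (Ty G k x w) (NbM G k x w) := by
  rw [rewX_eq_rewN, Ty_rfx]
  unfold rewN
  rw [sum_image (fun a _ b _ h => neg_injective h)]
  refine sum_congr rfl fun i _ => ?_
  have e : (Icc L (k - 4)).filter (fun l => miss (-1) (-i) l
      ((Ty G k x w).image fun j => -j)) =
      (Icc L (k - 4)).filter (fun l => miss 1 i l (Ty G k x w)) := by
    refine filter_congr fun l _ => ?_
    rw [miss_neg, neg_neg]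
  rw [e]
  refine sum_congr rfl fun l _ => ?_
  have e2 : vN (NbM G k (rfx x) w) (-1) (-i) l = vN (NbM G k x w) 1 i l := by
    unfold vN
    refine sum_nbij' (fun B => B.image fun j => -j) (fun B => B.image fun j => -j) ?_ ?_ ?_ ?_ ?_
    · intro B hB
      rw [mem_filter] at hB ⊢
      refine ⟨mem_univ _, ?_⟩
      have h := hB.2
      unfold miss at h ⊢
      intro m h1 h2 h3
      rw [mem_image_neg] at h3
      apply h m h1 h2
      have e3 : -i + -1 * (m : ZMod k) = -(i + 1 * (m : ZMod k)) := by ring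
      rw [e3]
      exact h3
    · intro B hB
      rw [mem_filter] at hB ⊢
      refine ⟨mem_univ _, ?_⟩
      rw [miss_neg, neg_neg]
      exact hB.2
    · intro B _
      ext j
      rw [mem_image_neg, mem_image_neg, neg_neg]
    · intro B _
      ext j
      rw [mem_image_neg, mem_image_neg, neg_neg]
    · intro B _
      rw [NbM_rfx]
  rw [e2]

lemma rewXS_eq (L : ℕ) (x : ZMod k → V) (w : V) :
    rewXS G k L x w = (rewN L (-1) (Ty G k x w) (NbM G k x w) +
      rewN L 1 (Ty G k x w) (NbM G k x w)) / 2 := by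
  unfold rewXS
  rw [rewX_eq_rewN, rewX_rfx_eq_rewN]

/-- the masses of the classes -/
def tauX (G : SimpleGraph V) (k : ℕ) [NeZero k] (x : ZMod k → V) (j : ZMod k) : ℝ :=
  mu k (T G k j x)

/-- the degrees of the positions -/
def dX (G : SimpleGraph V) (k : ℕ) [NeZero k] (x : ZMod k → V) (j : ZMod k) : ℝ :=
  dg G k (x j)

lemma KL_eq_KF (L : ℕ) (x : ZMod k → V) (y : V) (b : ZMod k) :
    KL G k L y (x b) = KF L (dN (NbM G k x y) - cN (NbM G k x y) b)
      (dX G k x b - cN (NbM G k x y) b) := by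
  rw [← cM_eq_cN, ← dg_eq_dN, dX, ← ff_eq_cM, ← ff_eq_cM']
  rfl

lemma ff_eq_N (x : ZMod k → V) (y : V) (b : ZMod k) :
    ff G k y (x b) = dN (NbM G k x y) - cN (NbM G k x y) b := by
  rw [← cM_eq_cN, ← dg_eq_dN, ← ff_eq_cM]

lemma zeF_eq_zN (Phi : ℝ → ℝ → ℝ → ℝ) (x : ZMod k → V) (i : ZMod k) :
    zeF G k Phi x i = zN Phi (tauX G k x) (dX G k x) i := rfl

lemma ownZ_eq (L : ℕ) (Phi : ℝ → ℝ → ℝ → ℝ) (x : ZMod k → V) (y : V) :
    ownZ G k (KL G k L) (zeF G k Phi) x y =
      ownN L Phi (Ty G k x y) (NbM G k x y) (tauX G k x) (dX G k x) := by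
  unfold ownZ ownN
  refine sum_congr rfl fun i _ => ?_
  rw [KL_eq_KF, KL_eq_KF, zeF_eq_zN]

/-- the potential on the graph side -/
def potX (G : SimpleGraph V) (k : ℕ) [NeZero k] (pot : Pot k) (x : ZMod k → V) (l : ZMod k)
    (y : V) : ℝ :=
  pot ((Ty G k x y).erase l) l (dg G k y) (uu G k x l y) (DD G k x l y) (uu G k x (l - 2) y)
    (DD G k x (l - 2) y) (uu G k x (l + 2) y) (DD G k x (l + 2) y)
    (msk l fun b => cM G k y (x b)) (msk l fun b => dg G k (x b))

theorem potX_sum (hk : 5 ≤ k) (tf : ∀ a b c : V, G.Adj a b → G.Adj b c → ¬ G.Adj a c)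
    (pot : Pot k) : ∑ x ∈ Cyc G k, ∑ y : V, kap V k * gflow G k (potX G k pot) x y = 0 := by
  refine gflow_sum hk tf _ fun x hx l w hw y => ?_
  have e1 : (msk l fun b => cM G k y (Function.update x l w b)) =
      msk l fun b => cM G k y (x b) := by
    funext b
    unfold msk
    by_cases hb : b = l
    · rw [if_pos hb, if_pos hb]
    · rw [if_neg hb, if_neg hb]
      dsimp only
      rw [Function.update_of_ne hb]
  have e2 : (msk l fun b => dg G k (Function.update x l w b)) = msk l fun b => dg G k (x b) := by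
    funext b
    unfold msk
    by_cases hb : b = l
    · rw [if_pos hb, if_pos hb]
    · rw [if_neg hb, if_neg hb]
      dsimp only
      rw [Function.update_of_ne hb]
  unfold potX
  rw [e1, e2]
  simp only [Ty_update_erase, uu_update_self hk hx hw tf, DD_update_self hk hx hw tf,
    uu_update_sub_two hk hx hw tf, DD_update_sub_two hk hx hw tf,
    uu_update_add_two hk hx hw tf, DD_update_add_two hk hx hw tf]

lemma gflow_eq (pot : Pot k) (x : ZMod k → V) (y : V) :
    gflow G k (potX G k pot) x y =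
      flowN pot (Ty G k x y) (NbM G k x y) (tauX G k x) (dX G k x) := by
  have e : ∀ l : ZMod k, potX G k pot x l y =
      potN pot (Ty G k x y) (NbM G k x y) (tauX G k x) (dX G k x) l := by
    intro l
    have e1 : (msk l fun b => cM G k y (x b)) = msk l (cN (NbM G k x y)) := by
      congr 1
      funext b
      exact cM_eq_cN x y b
    unfold potX potN
    rw [e1]
    simp only [DD_eq_N, uu_eq_N, ← dg_eq_dN]
    rfl
  unfold gflow flowN
  congr 1
  · refine sum_congr rfl fun l _ => ?_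
    rw [e, DD_eq_N]
    rfl
  · refine sum_congr rfl fun l _ => ?_
    rw [e, uu_eq_N]

lemma chg_types (chi : Finset (ZMod k) → Finset (ZMod k) → ℝ) (x : ZMod k → V) (y : V) :
    chg G k (fun u v => chi (Ty G k x u) (Ty G k x v)) y =
      ∑ B : Finset (ZMod k), NbM G k x y B * chi (Ty G k x y) B := by
  unfold chg
  exact sum_nb_types x y (fun B => chi (Ty G k x y) B)

/-- the data of a vertex -/
theorem data_ok (hk : 5 ≤ k) (tf : ∀ a b c : V, G.Adj a b → G.Adj b c → ¬ G.Adj a c)
    {x : ZMod k → V} (hx : x ∈ Cyc G k) (y : V) :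
    Data (Ty G k x y) (NbM G k x y) (tauX G k x) (dX G k x) where
  nn := NbM_nonneg x y
  disj := by
    intro B hB
    have : ((nb G y).filter (fun z => Ty G k x z = B)).Nonempty := by
      by_contra h
      rw [not_nonempty_iff_eq_empty] at h
      apply hB
      unfold NbM
      rw [h]
      simp [mu]
    obtain ⟨z, hz⟩ := this
    rw [mem_filter, bas_mem_nb] at hz
    rw [← hz.2, disjoint_left]
    intro i h1 h2
    rw [bas_mem_Ty] at h1 h2
    exact tf _ _ _ h1 hz.1 h2
  indN := by
    intro B hB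
    have : ((nb G y).filter (fun z => Ty G k x z = B)).Nonempty := by
      by_contra h
      rw [not_nonempty_iff_eq_empty] at h
      apply hB
      unfold NbM
      rw [h]
      simp [mu]
    obtain ⟨z, hz⟩ := this
    rw [mem_filter] at hz
    rw [← hz.2]
    intro i h1
    exact not_mem_Ty_succ tf hx h1
  indA := fun i hi => not_mem_Ty_succ tf hx hi
  le := by
    intro l
    rw [← uu_eq_N]
    exact uu_le_mu x l y
  pos := by
    intro l
    have : Nonempty V := ⟨x 0⟩
    unfold tauX mu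
    refine mul_pos kap_pos ?_
    exact_mod_cast card_pos.2 ⟨x l, self_mem_T hk hx l⟩
  dx_le := by
    intro b
    rw [← cM_eq_cN]
    have e1 : tauX G k x (b - 1) - NbM G k x y (tT (b - 1)) = DD G k x (b - 1) y := by
      rw [DD_eq_N]; rfl
    have e2 : tauX G k x (b + 1) - NbM G k x y (tT (b + 1)) = DD G k x (b + 1) y := by
      rw [DD_eq_N]; rfl
    rw [e1, e2]
    have h1 : Disjoint ((T G k (b - 1) x).filter (fun w => ¬ G.Adj w y))
        ((T G k (b + 1) x).filter (fun w => ¬ G.Adj w y)) := by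
      rw [disjoint_left]
      intro z hz hz'
      have e := T_disjoint hk (mem_filter.1 hz).1 (mem_filter.1 hz').1
      have h2 := two_ne_zero' (k := k) hk
      apply h2
      linear_combination -e
    have h2 : Disjoint ((nb G y).filter (fun z => G.Adj (x b) z))
        ((T G k (b - 1) x).filter (fun w => ¬ G.Adj w y) ∪
          (T G k (b + 1) x).filter (fun w => ¬ G.Adj w y)) := by
      rw [disjoint_left]
      intro z hz hz'
      have h3 := bas_mem_nb.1 (mem_filter.1 hz).1
      rcases mem_union.1 hz' with h | h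
      · exact (mem_filter.1 h).2 h3.symm
      · exact (mem_filter.1 h).2 h3.symm
    have h3 : (nb G y).filter (fun z => G.Adj (x b) z) ∪
        ((T G k (b - 1) x).filter (fun w => ¬ G.Adj w y) ∪
          (T G k (b + 1) x).filter (fun w => ¬ G.Adj w y)) ⊆ nb G (x b) := by
      intro z hz
      rw [bas_mem_nb]
      rcases mem_union.1 hz with h | h
      · exact (mem_filter.1 h).2
      · rcases mem_union.1 h with h | h
        · exact adj_of_T_left (mem_filter.1 h).1
        · exact adj_of_T_right (mem_filter.1 h).1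
    have h4 := mu_sub_le (k := k) h3
    rw [mu_disj_union h2, mu_disj_union h1] at h4
    have h5 : dX G k x b = mu k (nb G (x b)) := rfl
    rw [h5]
    unfold cM DD
    linarith
  dN_le := by
    rw [← dg_eq_dN]
    exact dg_le_k y
  dx_le_k := fun b => dg_le_k _
  sum_tau := by
    have : Nonempty V := ⟨x 0⟩
    have h := sum_tau (G := G) hk x
    have h2 : 0 ≤ ∑ _w ∈ nonT G k x, kap V k := sum_nonneg fun _ _ => kap_nonneg
    have h3 := mass_split (G := G) hk x
    unfold tauX
    linarith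
  dN_pos := by
    rw [← dg_eq_dN]
    exact dg_nonneg y

/-! ### symmetric form of the twin price -/

theorem tw_price_sym (hk : 5 ≤ k) (tf : ∀ a b c : V, G.Adj a b → G.Adj b c → ¬ G.Adj a c)
    {L : ℕ} (hL : 1 ≤ L) {Phi : ℝ → ℝ → ℝ → ℝ} (hpos : ∀ d s t, 0 < Phi d s t)
    (hsymm : ∀ d s t, Phi d s t = Phi d t s) {H : ℝ → ℝ} {r0 : ℝ}
    (hp : ∀ t : ℝ, 0 ≤ t → k2 L t - r0 * t ≤ H t) :
    ∑ x ∈ Cyc G k, ∑ a : ZMod k, twK G k (KL G k L) x a a / zeF G k Phi x (a + 1) ≤
      ∑ x ∈ Cyc G k, ∑ j : ZMod k, ∑ w ∈ T G k j x,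
        kap V k * (H (ff G k w (x j)) * iz Phi (tauX G k x) (dX G k x) j) +
      ∑ x ∈ Cyc G k, ∑ y : V, kap V k * (r0 * ∑ l ∈ Ty G k x y,
        iz Phi (tauX G k x) (dX G k x) l * DD G k x l y) := by
  have hze := zeF_ok (G := G) hk tf Phi hpos hsymm
  have h1 := tw_price_ze hk tf hL hze hp
  -- the right side, as a function of the cycle
  set R : (ZMod k → V) → ℝ := fun x => ∑ j : ZMod k, ∑ w ∈ T G k j x,
        kap V k * (H (ff G k w (x j)) / zeF G k Phi x (j + 1)) +
      ∑ y : V, kap V k * ∑ l ∈ Ty G k x y, r0 / zeF G k Phi x (l + 1) * DD G k x l y with hR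
  have h2 : ∑ x ∈ Cyc G k, R (rfx x) = ∑ x ∈ Cyc G k, R x :=
    sum_refl (G := G) (k := k) R
  have hneg : ∀ f : ZMod k → ℝ, ∑ j : ZMod k, f (-j) = ∑ j : ZMod k, f j := fun f =>
    Equiv.sum_comp (Equiv.neg (ZMod k)) f
  have h3 : ∀ x : ZMod k → V, R (rfx x) = ∑ j : ZMod k, ∑ w ∈ T G k j x,
        kap V k * (H (ff G k w (x j)) / zeF G k Phi x (j - 1)) +
      ∑ y : V, kap V k * ∑ l ∈ Ty G k x y, r0 / zeF G k Phi x (l - 1) * DD G k x l y := by
    intro x
    rw [hR]
    dsimp only
    congr 1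
    · rw [← hneg]
      refine sum_congr rfl fun j _ => ?_
      rw [T_rfx, neg_neg]
      refine sum_congr rfl fun w _ => ?_
      have e1 : rfx x (-j) = x j := by unfold rfx; rw [neg_neg]
      have e2 : -(-j + 1) = j - 1 := by ring
      rw [e1, hze.symm, e2]
    · refine sum_congr rfl fun y _ => ?_
      rw [Ty_rfx, sum_image (fun a _ b _ h => neg_injective h)]
      congr 1
      refine sum_congr rfl fun l _ => ?_
      have e2 : -(-l + 1) = l - 1 := by ring
      rw [hze.symm, e2, DD_rfx, neg_neg]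
  have h4 : ∀ x : ZMod k → V, ∑ j : ZMod k, ∑ w ∈ T G k j x,
        kap V k * (H (ff G k w (x j)) * iz Phi (tauX G k x) (dX G k x) j) +
      ∑ y : V, kap V k * (r0 * ∑ l ∈ Ty G k x y,
        iz Phi (tauX G k x) (dX G k x) l * DD G k x l y) = (R x + R (rfx x)) / 2 := by
    intro x
    rw [h3, hR]
    dsimp only
    have a1 : ∑ j : ZMod k, ∑ w ∈ T G k j x,
        kap V k * (H (ff G k w (x j)) * iz Phi (tauX G k x) (dX G k x) j) =
        (∑ j : ZMod k, ∑ w ∈ T G k j x,
          kap V k * (H (ff G k w (x j)) / zeF G k Phi x (j + 1)) +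
        ∑ j : ZMod k, ∑ w ∈ T G k j x,
          kap V k * (H (ff G k w (x j)) / zeF G k Phi x (j - 1))) / 2 := by
      rw [← sum_add_distrib, sum_div]
      refine sum_congr rfl fun j _ => ?_
      rw [← sum_add_distrib, sum_div]
      refine sum_congr rfl fun w _ => ?_
      unfold iz
      rw [← zeF_eq_zN, ← zeF_eq_zN]
      ring
    have a2 : ∑ y : V, kap V k * (r0 * ∑ l ∈ Ty G k x y,
        iz Phi (tauX G k x) (dX G k x) l * DD G k x l y) =
        (∑ y : V, kap V k * ∑ l ∈ Ty G k x y, r0 / zeF G k Phi x (l + 1) * DD G k x l y +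
        ∑ y : V, kap V k * ∑ l ∈ Ty G k x y, r0 / zeF G k Phi x (l - 1) * DD G k x l y) / 2 := by
      rw [← sum_add_distrib, sum_div]
      refine sum_congr rfl fun y _ => ?_
      rw [← mul_add, ← sum_add_distrib, mul_div_assoc]
      congr 1
      rw [mul_sum, sum_div]
      refine sum_congr rfl fun l _ => ?_
      unfold iz
      rw [← zeF_eq_zN, ← zeF_eq_zN]
      ring
    rw [a1, a2]
    ring
  have h5 : ∑ x ∈ Cyc G k, ∑ j : ZMod k, ∑ w ∈ T G k j x,
        kap V k * (H (ff G k w (x j)) * iz Phi (tauX G k x) (dX G k x) j) +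
      ∑ x ∈ Cyc G k, ∑ y : V, kap V k * (r0 * ∑ l ∈ Ty G k x y,
        iz Phi (tauX G k x) (dX G k x) l * DD G k x l y) = ∑ x ∈ Cyc G k, R x := by
    rw [← sum_add_distrib, sum_congr rfl fun x _ => h4 x, ← sum_div, sum_add_distrib, h2]
    ring
  rw [h5, hR, sum_add_distrib]
  exact h1

/-- the part of the functional that belongs to the positions, all positions terms with the far
twins and the functional `phi` -/
def posR (G : SimpleGraph V) (k : ℕ) [NeZero k] (L : ℕ) (Phi : ℝ → ℝ → ℝ → ℝ) (phi : ℝ → ℝ)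
    (x : ZMod k → V) : ℝ :=
  ∑ a : ZMod k, (1 - tauX G k x (a + 2) - KL G k L (x (a + 2)) (x a) +
    tauX G k x (a + 2) * KL G k L (x (a + 2)) (x a) / zN Phi (tauX G k x) (dX G k x) (a + 1) +
    Real.log (zN Phi (tauX G k x) (dX G k x) (a + 1))) -
  ∑ a : ZMod k, (JJ (dX G k x a / 2) + JJ (tauX G k x a) + phi (dX G k x a) +
    ∑ l ∈ Icc 3 (k - 3), JJ (max 1 (mu k (F G k l (rot a x)) - RL G k L l (rot a x))))

end

/-- **the interface**: real inequalities for the vertices and an inequality for the positions -/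
theorem reductionRows {k : ℕ} [NeZero k] (hk : 6 ≤ k) {L : ℕ} (hL : 3 ≤ L) (hLk : L + 3 ≤ k)
    {B B' r0 : ℝ} (g phi : ℝ → ℝ) (hg : ∀ t, 0 ≤ t → t ≤ (k : ℝ) → |g t| ≤ B)
    (hphi : ∀ t, 0 ≤ t → t ≤ (k : ℝ) → |phi t| ≤ B')
    {H : ℝ → ℝ} (hH : ∀ t : ℝ, 0 ≤ t → k2 L t - r0 * t ≤ H t)
    {Phi : ℝ → ℝ → ℝ → ℝ} (hpos : ∀ d s t, 0 < Phi d s t)
    (hsymm : ∀ d s t, Phi d s t = Phi d t s) (pot : Pot k)
    {chi : (ZMod k → ℝ) → (ZMod k → ℝ) → Finset (ZMod k) → Finset (ZMod k) → ℝ}
    (hchi : ∀ tau dx A C, chi tau dx A C + chi tau dx C A = 0)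
    (rN : Finset (ZMod k) → (ZMod k → ℝ) → (ZMod k → ℝ) → ℝ)
    (rT : ZMod k → (ZMod k → ℝ) → (ZMod k → ℝ) → ℝ)
    (hN : ∀ (A : Finset (ZMod k)) (N : Finset (ZMod k) → ℝ) (tau dx : ZMod k → ℝ),
      Data A N tau dx → (∀ j, A ≠ tT j) → rN A tau dx ≤ valN L r0 Phi pot g phi chi A N tau dx)
    (hT : ∀ (j : ZMod k) (N : Finset (ZMod k) → ℝ) (tau dx : ZMod k → ℝ),
      Data (tT j) N tau dx → rT j tau dx ≤ valT L r0 H Phi pot g phi chi j N tau dx)
    (hP : ∀ (U : Type) [Fintype U] (G : SimpleGraph U),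
      (∀ a b c : U, G.Adj a b → G.Adj b c → ¬ G.Adj a c) → ∀ x ∈ Cyc G k,
      posR G k L Phi phi x ≤
        ∑ y ∈ nonT G k x, kap U k * rN (Ty G k x y) (tauX G k x) (dX G k x) +
        ∑ j : ZMod k, tauX G k x j * rT j (tauX G k x) (dX G k x))
    {V : Type} [Fintype V] {G : SimpleGraph V}
    (tf : ∀ a b c : V, G.Adj a b → G.Adj b c → ¬ G.Adj a c) :
    NN G k * kap V k ^ k ≤ 2 * (k : ℝ) := by
  have hk5 : 5 ≤ k := by omega
  refine reductionZ hk hL hLk g phi hg hphi ?_ tf
  intro U _ G tfG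
  have hze := zeF_ok (G := G) hk5 tfG Phi hpos hsymm
  refine ⟨zeF G k Phi,
    fun x y => ownN L Phi (Ty G k x y) (NbM G k x y) (tauX G k x) (dX G k x),
    fun x w => (rewN L (-1) (Ty G k x w) (NbM G k x w) + rewN L 1 (Ty G k x w) (NbM G k x w)) / 2,
    fun x w => r0 * ∑ l ∈ Ty G k x w, iz Phi (tauX G k x) (dX G k x) l * DD G k x l w +
      ∑ j : ZMod k, (if w ∈ T G k j x then
        H (ff G k w (x j)) * iz Phi (tauX G k x) (dX G k x) j else 0),
    fun x w => flowN pot (Ty G k x w) (NbM G k x w) (tauX G k x) (dX G k x) +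
      ∑ C : Finset (ZMod k), NbM G k x w C * chi (tauX G k x) (dX G k x) (Ty G k x w) C,
    fun x => ∑ a : ZMod k, tauX G k x (a + 2) * KL G k L (x (a + 2)) (x a) /
      zN Phi (tauX G k x) (dX G k x) (a + 1),
    fun _ => 0, fun x hx i => hpos _ _ _, ?_, ?_, ?_, ?_, ?_, ?_, ?_⟩
  · rw [sum_ownZ (KL G k L) hze.symm]
    refine le_of_eq (sum_congr rfl fun x _ => sum_congr rfl fun y _ => ?_)
    rw [ownZ_eq]
  · refine le_trans (le_of_eq ?_) (sum_rewXS (G := G) hk hL)
    refine sum_congr rfl fun x _ => sum_congr rfl fun w _ => ?_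
    rw [rewXS_eq]
  · refine (tw_price_sym hk5 tfG (L := L) (by omega) hpos hsymm hH).trans (le_of_eq ?_)
    rw [← sum_add_distrib]
    refine sum_congr rfl fun x _ => ?_
    have e1 : ∑ w : U, kap U k * (r0 * ∑ l ∈ Ty G k x w,
        iz Phi (tauX G k x) (dX G k x) l * DD G k x l w +
        ∑ j : ZMod k, (if w ∈ T G k j x then
        H (ff G k w (x j)) * iz Phi (tauX G k x) (dX G k x) j else 0)) =
        ∑ w : U, kap U k * (r0 * ∑ l ∈ Ty G k x w,
          iz Phi (tauX G k x) (dX G k x) l * DD G k x l w) +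
        ∑ j : ZMod k, ∑ w : U, (if w ∈ T G k j x then
          kap U k * (H (ff G k w (x j)) * iz Phi (tauX G k x) (dX G k x) j) else 0) := by
      have e0 : ∑ j : ZMod k, ∑ w : U, (if w ∈ T G k j x then
          kap U k * (H (ff G k w (x j)) * iz Phi (tauX G k x) (dX G k x) j) else 0) =
          ∑ w : U, ∑ j : ZMod k, (if w ∈ T G k j x then
          kap U k * (H (ff G k w (x j)) * iz Phi (tauX G k x) (dX G k x) j) else 0) := sum_comm
      rw [e0, ← sum_add_distrib]
      refine sum_congr rfl fun w _ => ?_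
      have e5 : kap U k * ∑ j : ZMod k, (if w ∈ T G k j x then
          H (ff G k w (x j)) * iz Phi (tauX G k x) (dX G k x) j else 0) =
          ∑ j : ZMod k, (if w ∈ T G k j x then
          kap U k * (H (ff G k w (x j)) * iz Phi (tauX G k x) (dX G k x) j) else 0) := by
        rw [mul_sum]
        refine sum_congr rfl fun j _ => ?_
        split_ifs
        · rfl
        · rw [mul_zero]
      rw [mul_add, e5]
    rw [e1, add_comm]
    congr 1
    refine sum_congr rfl fun j _ => ?_
    rw [← sum_filter]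
    refine sum_congr ?_ fun _ _ => rfl
    ext w
    simp
  · refine le_of_eq ((sum_tw2_ze hk5 tfG (KL G k L) hze).trans ?_)
    rfl
  · have h1 := potX_sum (G := G) hk5 tfG pot
    have h2 : ∀ x : ZMod k → U, ∑ y : U, kap U k *
        ∑ C : Finset (ZMod k), NbM G k x y C * chi (tauX G k x) (dX G k x) (Ty G k x y) C = 0 := by
      intro x
      have h3 := sum_chg (G := G) (k := k)
        (fun u v => chi (tauX G k x) (dX G k x) (Ty G k x u) (Ty G k x v))
        (fun y z _ => hchi _ _ _ _)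
      rw [← h3]
      refine sum_congr rfl fun y _ => ?_
      rw [chg_types (chi (tauX G k x) (dX G k x))]
    refine le_of_eq ?_
    rw [← h1]
    refine sum_congr rfl fun x _ => ?_
    simp only [mul_add, sum_add_distrib]
    rw [h2 x, add_zero]
    refine sum_congr rfl fun y _ => ?_
    rw [gflow_eq]
  · simp
  · intro x hx
    have hP' := hP U G tfG x hx
    have hn : ∀ y ∈ nonT G k x, kap U k * rN (Ty G k x y) (tauX G k x) (dX G k x) ≤
        kap U k * valN L r0 Phi pot g phi chi (Ty G k x y) (NbM G k x y) (tauX G k x)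
          (dX G k x) := by
      intro y hy
      refine mul_le_mul_of_nonneg_left (hN _ _ _ _ (data_ok hk5 tfG hx y) ?_) kap_nonneg
      intro j hj
      have h1 : ∀ j : ZMod k, y ∉ T G k j x := by simpa [nonT] using hy
      exact h1 j (bas_mem_T.2 hj)
    have ht : ∀ j : ZMod k, tauX G k x j * rT j (tauX G k x) (dX G k x) ≤
        ∑ w ∈ T G k j x, kap U k * valT L r0 H Phi pot g phi chi j (NbM G k x w) (tauX G k x)
          (dX G k x) := by
      intro j
      have e : tauX G k x j * rT j (tauX G k x) (dX G k x) =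
          ∑ w ∈ T G k j x, kap U k * rT j (tauX G k x) (dX G k x) := by
        unfold tauX
        rw [mu_eq_sum, sum_mul]
      rw [e]
      refine sum_le_sum fun w hw => mul_le_mul_of_nonneg_left ?_ kap_nonneg
      have hty : Ty G k x w = tT j := bas_mem_T.1 hw
      have hd := data_ok hk5 tfG hx w
      rw [hty] at hd
      exact hT j _ _ _ hd
    have hsn := sum_le_sum hn
    have hst := sum_le_sum fun j (_ : j ∈ (univ : Finset (ZMod k))) => ht j
    -- the members of the classes
    have hcl := sum_classes (G := G) hk5 x (fun w => kap U k *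
      (comN L r0 Phi pot g phi chi (Ty G k x w) (NbM G k x w) (tauX G k x) (dX G k x)))
    have hvT : ∑ j : ZMod k, ∑ w ∈ T G k j x, kap U k * valT L r0 H Phi pot g phi chi j
        (NbM G k x w) (tauX G k x) (dX G k x) =
        ∑ j : ZMod k, ∑ w ∈ T G k j x, kap U k * comN L r0 Phi pot g phi chi (Ty G k x w)
          (NbM G k x w) (tauX G k x) (dX G k x) -
        ∑ j : ZMod k, ∑ w ∈ T G k j x, kap U k * (H (ff G k w (x j)) *
          iz Phi (tauX G k x) (dX G k x) j) := by
      rw [← sum_sub_distrib]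
      refine sum_congr rfl fun j _ => ?_
      rw [← sum_sub_distrib]
      refine sum_congr rfl fun w hw => ?_
      have hty : Ty G k x w = tT j := bas_mem_T.1 hw
      unfold valT
      rw [hty, ff_eq_N]
      ring
    have hvN : ∑ y ∈ nonT G k x, kap U k * valN L r0 Phi pot g phi chi (Ty G k x y)
        (NbM G k x y) (tauX G k x) (dX G k x) =
        ∑ y ∈ nonT G k x, kap U k * (rD k (Ty G k x y) -
          ownN L Phi (Ty G k x y) (NbM G k x y) (tauX G k x) (dX G k x)) +
        ∑ y ∈ nonT G k x, kap U k * comN L r0 Phi pot g phi chi (Ty G k x y) (NbM G k x y)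
          (tauX G k x) (dX G k x) := by
      rw [← sum_add_distrib]
      refine sum_congr rfl fun y _ => ?_
      unfold valN
      ring
    -- the twin cost by vertices
    have hTw : ∑ w : U, kap U k * ∑ j : ZMod k, (if w ∈ T G k j x then
        H (ff G k w (x j)) * iz Phi (tauX G k x) (dX G k x) j else 0) =
        ∑ j : ZMod k, ∑ w ∈ T G k j x, kap U k * (H (ff G k w (x j)) *
          iz Phi (tauX G k x) (dX G k x) j) := by
      simp_rw [mul_sum]
      rw [sum_comm]
      refine sum_congr rfl fun j _ => ?_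
      have e : ∀ w : U, kap U k * (if w ∈ T G k j x then
          H (ff G k w (x j)) * iz Phi (tauX G k x) (dX G k x) j else 0) =
          if w ∈ T G k j x then kap U k * (H (ff G k w (x j)) *
            iz Phi (tauX G k x) (dX G k x) j) else 0 := by
        intro w
        split_ifs
        · rfl
        · rw [mul_zero]
      rw [sum_congr rfl fun w _ => e w, ← sum_filter]
      refine sum_congr ?_ fun _ _ => rfl
      ext w
      simp
    have hcom : ∑ w : U, kap U k * comN L r0 Phi pot g phi chi (Ty G k x w) (NbM G k x w)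
          (tauX G k x) (dX G k x) =
        ∑ w : U, kap U k * ((rewN L (-1) (Ty G k x w) (NbM G k x w) +
            rewN L 1 (Ty G k x w) (NbM G k x w)) / 2 -
          (r0 * ∑ l ∈ Ty G k x w, iz Phi (tauX G k x) (dX G k x) l * DD G k x l w) +
          (flowN pot (Ty G k x w) (NbM G k x w) (tauX G k x) (dX G k x) +
            ∑ C : Finset (ZMod k), NbM G k x w C *
              chi (tauX G k x) (dX G k x) (Ty G k x w) C) +
          g (dg G k w) * (((Ty G k x w).card : ℝ) - dg G k w)) -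
        ∑ w : U, kap U k * phi (dg G k w) := by
      rw [← sum_sub_distrib]
      refine sum_congr rfl fun w _ => ?_
      unfold comN
      have e : ∀ l : ZMod k, DD G k x l w = tauX G k x l - NbM G k x w (tT l) :=
        fun l => DD_eq_N x l w
      simp only [e, ← dg_eq_dN]
      ring
    have hgoal : ∑ w : U, kap U k * ((rewN L (-1) (Ty G k x w) (NbM G k x w) +
            rewN L 1 (Ty G k x w) (NbM G k x w)) / 2 -
          (r0 * ∑ l ∈ Ty G k x w, iz Phi (tauX G k x) (dX G k x) l * DD G k x l w +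
            ∑ j : ZMod k, (if w ∈ T G k j x then
              H (ff G k w (x j)) * iz Phi (tauX G k x) (dX G k x) j else 0)) +
          (flowN pot (Ty G k x w) (NbM G k x w) (tauX G k x) (dX G k x) +
            ∑ C : Finset (ZMod k), NbM G k x w C *
              chi (tauX G k x) (dX G k x) (Ty G k x w) C) +
          g (dg G k w) * (((Ty G k x w).card : ℝ) - dg G k w)) =
        ∑ w : U, kap U k * ((rewN L (-1) (Ty G k x w) (NbM G k x w) +
            rewN L 1 (Ty G k x w) (NbM G k x w)) / 2 -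
          (r0 * ∑ l ∈ Ty G k x w, iz Phi (tauX G k x) (dX G k x) l * DD G k x l w) +
          (flowN pot (Ty G k x w) (NbM G k x w) (tauX G k x) (dX G k x) +
            ∑ C : Finset (ZMod k), NbM G k x w C *
              chi (tauX G k x) (dX G k x) (Ty G k x w) C) +
          g (dg G k w) * (((Ty G k x w).card : ℝ) - dg G k w)) -
        ∑ w : U, kap U k * ∑ j : ZMod k, (if w ∈ T G k j x then
              H (ff G k w (x j)) * iz Phi (tauX G k x) (dX G k x) j else 0) := by
      rw [← sum_sub_distrib]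
      refine sum_congr rfl fun w _ => ?_
      ring
    have hposE : PosZ G k L (KL G k L) (zeF G k Phi x) x +
        ∑ a : ZMod k, tauX G k x (a + 2) * KL G k L (x (a + 2)) (x a) /
          zN Phi (tauX G k x) (dX G k x) (a + 1) =
        posR G k L Phi phi x + ∑ j : ZMod k, phi (dg G k (x j)) := by
      unfold PosZ posR
      have e1 : ∀ j : ZMod k, phi (dX G k x j) = phi (dg G k (x j)) := fun _ => rfl
      have e2 : ∀ i : ZMod k, zeF G k Phi x i = zN Phi (tauX G k x) (dX G k x) i := fun _ => rfl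
      have e3 : ∀ j : ZMod k, mu k (T G k j x) = tauX G k x j := fun _ => rfl
      have e4 : ∀ j : ZMod k, dg G k (x j) = dX G k x j := fun _ => rfl
      simp only [e2, e3, e4, sum_add_distrib, sum_sub_distrib]
      ring
    rw [hposE, hgoal, hTw]
    rw [hcom] at hcl
    rw [hvN] at hsn
    rw [hvT] at hst
    linarith

end

end Pool.Agent.ICyc.D
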