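import Pool.Agent.Lib.MP_131fce_co.D.KLp

/-!
# Induced k-cycles in triangle-free graphs: the reduction with a free kernel and a free normaliser

As `frameZ` and `reductionZ`, for an arbitrary kernel; the window credit that the kernel does not use
stays with the positions.
-/

set_option autoImplicit false

namespace Pool.Agent.ICyc.D

open Finset Pool.Agent.ICyc
open scoped Classical

section

variable {V : Type} [Fintype V] {G : SimpleGraph V} {k : ℕ} [NeZero k]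

theorem frameZc (hk : 6 ≤ k) (tf : ∀ a b c : V, G.Adj a b → G.Adj b c → ¬ G.Adj a c)
    (hne : (Cyc G k).Nonempty) {L : ℕ} (hL : 3 ≤ L) (hLk : L + 3 ≤ k) {K : V → V → ℝ}
    (hK : Ker G k L K) (ze : (ZMod k → V) → ZMod k → ℝ) (hze : ∀ x ∈ Cyc G k, ∀ i, 0 < ze x i) :
    (k : ℝ) * (NN G k * Real.log (NN G k * kap V k ^ k / (2 * (k : ℝ)))) ≤
      ∑ x ∈ Cyc G k, (-∑ w ∈ nonT G k x, kap V k * rD k (Ty G k x w) +
      ∑ a : ZMod k, own G k K x a / ze x (a + 1) +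
      ∑ a : ZMod k, twK G k K x a a / ze x (a + 1) +
      ∑ a : ZMod k, twK G k K x (a + 2) a / ze x (a + 1) -
      ∑ a : ZMod k, ∑ l ∈ Icc 2 (k - 3), RL G k L l (rot a x) +
      (PosZ G k L K (ze x) x - ∑ a : ZMod k, crK G k L K (x (a + 2)) (x a))) := by
  have h1 := frameLc hk tf hne hL hLk hK
  have hk0 : (0 : ℝ) ≤ (k : ℝ) := Nat.cast_nonneg _
  have h2 := mul_le_mul_of_nonneg_left h1 hk0
  refine h2.trans ?_
  have e1 : (k : ℝ) * ∑ x ∈ Cyc G k, (GG G k L K x - crK G k L K (x 2) (x 0)) =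
      ∑ x ∈ Cyc G k, (∑ a : ZMod k, GG G k L K (rot a x) -
        ∑ a : ZMod k, crK G k L K (x (a + 2)) (x a)) := by
    have e0 : ∀ a : ZMod k, ∑ x ∈ Cyc G k,
        (GG G k L K (rot a x) - crK G k L K (x (a + 2)) (x a)) =
        ∑ x ∈ Cyc G k, (GG G k L K x - crK G k L K (x 2) (x 0)) := by
      intro a
      rw [← sum_rot (G := G) (k := k) a (fun x => GG G k L K x - crK G k L K (x 2) (x 0))]
      refine sum_congr rfl fun x _ => ?_
      show GG G k L K (rot a x) - crK G k L K (x (a + 2)) (x a) =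
        GG G k L K (rot a x) - crK G k L K (x (2 + a)) (x (0 + a))
      rw [add_comm a 2, zero_add]
    have e2 : ∀ x : ZMod k → V, ∑ a : ZMod k, GG G k L K (rot a x) -
        ∑ a : ZMod k, crK G k L K (x (a + 2)) (x a) =
        ∑ a : ZMod k, (GG G k L K (rot a x) - crK G k L K (x (a + 2)) (x a)) := fun x =>
      (sum_sub_distrib _ _).symm
    rw [sum_congr rfl fun x _ => e2 x, sum_comm, sum_congr rfl fun a _ => e0 a, sum_const,
      card_univ, ZMod.card, nsmul_eq_mul]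
  rw [e1]
  refine sum_le_sum fun x hx => ?_
  have h3 := frameZP hk tf hK hx (ze x) (hze x hx)
  linarith

/-- the twins of the near end of the kernel, for a kernel below the mean of one-sided functions -/
theorem sum_tw_zeC (hk : 5 ≤ k) (tf : ∀ a b c : V, G.Adj a b → G.Adj b c → ¬ G.Adj a c)
    {K : V → V → ℝ} {kf : ℝ → ℝ}
    (hkf : ∀ u v : V, K u v ≤ (kf (ff G k u v) + kf (ff G k v u)) / 2)
    {ze : (ZMod k → V) → ZMod k → ℝ} (hze : ZeOK G k ze) (j : ZMod k) :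
    ∑ x ∈ Cyc G k, twK G k K x j j / ze x (j + 1) ≤
      ∑ x ∈ Cyc G k, ∑ w ∈ T G k j x, kap V k * (kf (ff G k w (x j)) / ze x (j + 1)) := by
  have h := sum_swap (G := G) hk tf j
    (fun x w => kap V k * (kf (ff G k w (x j)) / ze x (j + 1)))
  have h' : ∑ x ∈ Cyc G k, ∑ w ∈ T G k j x,
      kap V k * (kf (ff G k (x j) w) / ze x (j + 1)) =
      ∑ x ∈ Cyc G k, ∑ w ∈ T G k j x, kap V k * (kf (ff G k w (x j)) / ze x (j + 1)) := by
    rw [← h]
    refine sum_congr rfl fun x hx => sum_congr rfl fun w hw => ?_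
    rw [Function.update_self, hze.up x hx j w hw]
  have h1 : ∑ x ∈ Cyc G k, twK G k K x j j / ze x (j + 1) ≤
      ∑ x ∈ Cyc G k, ∑ w ∈ T G k j x,
      (kap V k * (kf (ff G k w (x j)) / ze x (j + 1)) / 2 +
        kap V k * (kf (ff G k (x j) w) / ze x (j + 1)) / 2) := by
    refine sum_le_sum fun x hx => ?_
    unfold twK
    rw [sum_div]
    refine sum_le_sum fun w _ => ?_
    have hz := hze.pos x hx (j + 1)
    have h2 := mul_le_mul_of_nonneg_left (hkf w (x j)) (kap_nonneg (V := V) (k := k))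
    rw [div_le_iff₀ hz]
    have e : (kap V k * (kf (ff G k w (x j)) / ze x (j + 1)) / 2 +
        kap V k * (kf (ff G k (x j) w) / ze x (j + 1)) / 2) * ze x (j + 1) =
        kap V k * ((kf (ff G k w (x j)) + kf (ff G k (x j) w)) / 2) := by
      field_simp
    rw [e]
    exact h2
  refine h1.trans (le_of_eq ?_)
  simp only [sum_add_distrib, ← sum_div]
  rw [h']
  ring

/-- the weighted twin price, exact form -/
theorem tw_price_zeC (hk : 5 ≤ k) (tf : ∀ a b c : V, G.Adj a b → G.Adj b c → ¬ G.Adj a c)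
    {K : V → V → ℝ} {kf : ℝ → ℝ}
    (hkf : ∀ u v : V, K u v ≤ (kf (ff G k u v) + kf (ff G k v u)) / 2)
    {ze : (ZMod k → V) → ZMod k → ℝ} (hze : ZeOK G k ze)
    {H : ℝ → ℝ} {r0 : ℝ} (hp : ∀ t : ℝ, 0 ≤ t → kf t - r0 * t ≤ H t) :
    ∑ x ∈ Cyc G k, ∑ a : ZMod k, twK G k K x a a / ze x (a + 1) ≤
      ∑ x ∈ Cyc G k, ∑ j : ZMod k, ∑ w ∈ T G k j x,
        kap V k * (H (ff G k w (x j)) / ze x (j + 1)) +
      ∑ x ∈ Cyc G k, ∑ y : V, kap V k * ∑ l ∈ Ty G k x y, r0 / ze x (l + 1) * DD G k x l y := by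
  have e1 : ∑ x ∈ Cyc G k, ∑ y : V,
        kap V k * ∑ l ∈ Ty G k x y, r0 / ze x (l + 1) * DD G k x l y =
      ∑ j : ZMod k, ∑ x ∈ Cyc G k, ∑ y ∈ univ.filter (fun y => G.Adj (x j) y),
        kap V k * (r0 / ze x (j + 1) * DD G k x j y) := by
    have e2 : ∀ x : ZMod k → V, ∑ y : V,
        kap V k * ∑ l ∈ Ty G k x y, r0 / ze x (l + 1) * DD G k x l y =
        ∑ j : ZMod k, ∑ y ∈ univ.filter (fun y => G.Adj (x j) y),
          kap V k * (r0 / ze x (j + 1) * DD G k x j y) := by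
      intro x
      simp_rw [sum_filter, mul_sum]
      rw [sum_comm (s := (univ : Finset (ZMod k)))]
      refine sum_congr rfl fun y _ => ?_
      have e3 : Ty G k x y = univ.filter (fun l => G.Adj (x l) y) := rfl
      rw [e3, sum_filter]
    rw [sum_congr rfl fun x _ => e2 x, sum_comm]
  rw [sum_comm, e1, sum_comm (s := Cyc G k) (t := (univ : Finset (ZMod k)))
    (f := fun x j => ∑ w ∈ T G k j x, kap V k * (H (ff G k w (x j)) / ze x (j + 1))),
    ← sum_add_distrib]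
  refine sum_le_sum fun j _ => ?_
  refine (sum_tw_zeC hk tf hkf hze j).trans ?_
  rw [← sum_ff_upper_w hk tf j (fun x => r0 / ze x (j + 1)) (fun x hx v hv => by
    rw [hze.up x hx j v hv]), ← sum_add_distrib]
  refine sum_le_sum fun x hx => ?_
  rw [← sum_add_distrib]
  refine sum_le_sum fun w _ => ?_
  have hz := hze.pos x hx (j + 1)
  have h0 : 0 ≤ ff G k w (x j) := ff_nn w (x j)
  have h1 := hp _ h0
  have h2 : kf (ff G k w (x j)) / ze x (j + 1) ≤ H (ff G k w (x j)) / ze x (j + 1) +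
      r0 / ze x (j + 1) * ff G k w (x j) := by
    rw [div_mul_eq_mul_div, ← add_div]
    exact div_le_div_of_nonneg_right (by linarith) hz.le
  have h3 := mul_le_mul_of_nonneg_left h2 (kap_nonneg' (V := V) (k := k))
  linarith

end

/-- **the reduction, general form with a free kernel and a free normaliser** -/
theorem reductionZc {k : ℕ} [NeZero k] (hk : 6 ≤ k) {L : ℕ} (hL : 3 ≤ L) (hLk : L + 3 ≤ k)
    {B B' : ℝ} (g phi : ℝ → ℝ) (hg : ∀ t, 0 ≤ t → t ≤ (k : ℝ) → |g t| ≤ B)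
    (hphi : ∀ t, 0 ≤ t → t ≤ (k : ℝ) → |phi t| ≤ B')
    (hQ : ∀ (U : Type) [Fintype U] (H : SimpleGraph U),
      (∀ a b c : U, H.Adj a b → H.Adj b c → ¬ H.Adj a c) →
      ∃ (K : U → U → ℝ) (ze : (ZMod k → U) → ZMod k → ℝ) (Ow Rw Tw Fl : (ZMod k → U) → U → ℝ)
        (T2 Z : (ZMod k → U) → ℝ),
      Ker H k L K ∧
      (∀ x ∈ Cyc H k, ∀ i, 0 < ze x i) ∧
      (∑ x ∈ Cyc H k, ∑ a : ZMod k, own H k K x a / ze x (a + 1) ≤
        ∑ x ∈ Cyc H k, ∑ y ∈ nonT H k x, kap U k * Ow x y) ∧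
      (∑ x ∈ Cyc H k, ∑ w : U, kap U k * Rw x w ≤
        ∑ x ∈ Cyc H k, ∑ a : ZMod k, ∑ l ∈ Icc 2 (k - 3), RL H k L l (rot a x)) ∧
      (∑ x ∈ Cyc H k, ∑ a : ZMod k, twK H k K x a a / ze x (a + 1) ≤
        ∑ x ∈ Cyc H k, ∑ w : U, kap U k * Tw x w) ∧
      (∑ x ∈ Cyc H k, ∑ a : ZMod k, twK H k K x (a + 2) a / ze x (a + 1) ≤
        ∑ x ∈ Cyc H k, T2 x) ∧
      (∑ x ∈ Cyc H k, ∑ y : U, kap U k * Fl x y ≤ 0) ∧
      (∑ x ∈ Cyc H k, Z x ≤ 0) ∧
      ∀ x ∈ Cyc H k, PosZ H k L K (ze x) x -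
          ∑ a : ZMod k, crK H k L K (x (a + 2)) (x a) + T2 x ≤
        ∑ y ∈ nonT H k x, kap U k * (rD k (Ty H k x y) - Ow x y) +
        ∑ w : U, kap U k * (Rw x w - Tw x w + Fl x w +
          g (dg H k w) * (((Ty H k x w).card : ℝ) - dg H k w)) + Z x +
        (∑ j : ZMod k, phi (dg H k (x j)) - ∑ u : U, kap U k * phi (dg H k u)))
    {V : Type} [Fintype V] {G : SimpleGraph V}
    (tf : ∀ a b c : V, G.Adj a b → G.Adj b c → ¬ G.Adj a c) :
    NN G k * kap V k ^ k ≤ 2 * (k : ℝ) := by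
  refine no_counter (C := B * k * k + B' * k) ?_ tf
  intro U _ H tfH η hη hinc hne
  obtain ⟨K, ze, Ow, Rw, Tw, Fl, T2, Z, hK, h0, h1, h2, h3, h3', h4, h7, h5⟩ := hQ U H tfH
  -- the mean of the functional of `phi`
  set E : ℝ := ∑ x ∈ Cyc H k,
    (∑ j : ZMod k, phi (dg H k (x j)) - ∑ u : U, kap U k * phi (dg H k u)) with hE
  have hcard : ((Cyc H k).card : ℝ) = NN H k := rfl
  have hE' : E ≤ η * B' * (k * NN H k) := by
    have h8 := l1 hinc (fun u => phi (dg H k u)) B'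
      (fun u => hphi _ (dg_nonneg u) (dg_le_k u))
    have e1 : E = ∑ x ∈ Cyc H k, ∑ j : ZMod k, phi (dg H k (x j)) -
        NN H k * ∑ u : U, kap U k * phi (dg H k u) := by
      rw [hE, sum_sub_distrib, sum_const, nsmul_eq_mul, hcard]
    rw [e1]
    exact (le_abs_self _).trans h8
  have h9 := l2 hinc (fun u => g (dg H k u)) B (fun u => hg _ (dg_nonneg u) (dg_le_k u))
  have h10 := (le_abs_self _).trans h9
  have h6 : (k : ℝ) * (NN H k * Real.log (NN H k * kap U k ^ k / (2 * (k : ℝ)))) ≤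
      ∑ x ∈ Cyc H k, ∑ y : U, kap U k *
        (g (dg H k y) * (((Ty H k x y).card : ℝ) - dg H k y)) + E := by
    refine (frameZc hk tfH hne hL hLk hK ze h0).trans ?_
    have h11 := sum_le_sum h5
    rw [hE]
    clear hE hE' h5 hinc
    simp only [mul_add, mul_sub, sum_add_distrib, sum_sub_distrib, sum_neg_distrib] at *
    linarith
  refine h6.trans ?_
  have h11 : η * (B * k) * (k * NN H k) + η * B' * (k * NN H k) =
      (B * k * k + B' * k) * η * NN H k := by ring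
  rw [← h11]
  exact add_le_add h10 hE'

end Pool.Agent.ICyc.D
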