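import Pool.Agent.Lib.MP_131fce_co.D.RowLib
import Pool.Agent.Lib.MP_131fce_co.D.ZetaC

/-!
# Induced k-cycles in triangle-free graphs: the interface with a free kernel, symmetric positions

The kernel is `K* (f, f')` with `JJ K* = (C f + C f') / 2` for any cost function `C` between `0` and
the window credit `cL L`; what is not used stays with the positions.  The twin cost of a member of
a class may be any function `Hc (f, f')` whose symmetrisation bounds the kernel minus its price.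
-/

set_option autoImplicit false

namespace Pool.Agent.ICyc.D

open Finset Pool.Agent.ICyc
open scoped Classical

noncomputable section

/-- the kernel as a function of the two differences -/
def KFC (C : ℝ → ℝ) (s t : ℝ) : ℝ := if 0 < s ∧ 0 < t then kk ((C s + C t) / 2) else 0

lemma KFC_symm (C : ℝ → ℝ) (s t : ℝ) : KFC C s t = KFC C t s := by
  unfold KFC
  by_cases h : 0 < s ∧ 0 < t
  · rw [if_pos h, if_pos h.symm, add_comm]
  · rw [if_neg h, if_neg fun h' => h h'.symm]

lemma KFC_nonneg (C : ℝ → ℝ) (s t : ℝ) : 0 ≤ KFC C s t := by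
  unfold KFC
  split_ifs
  · exact (kk_pos _).le
  · exact le_rfl

lemma KFC_le_one (C : ℝ → ℝ) (s t : ℝ) : KFC C s t ≤ 1 := by
  unfold KFC
  split_ifs
  · exact kk_le_one _
  · exact zero_le_one

/-- admissible cost functions -/
structure Cost (L : ℕ) (C : ℝ → ℝ) : Prop where
  nn : ∀ t : ℝ, 0 < t → 0 ≤ C t
  le : ∀ t : ℝ, 0 < t → C t ≤ cL L t

lemma Cost_cLp {L : ℕ} (hL : 1 ≤ L) {q : ℝ} (hq : 0 ≤ q) (hq' : q ≤ 1 / 2) :
    Cost L (cLp L q) where
  nn := fun t ht => cLp_nonneg hL hq ht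
  le := by
    intro t _
    unfold cLp cL
    have h := JJ_max_nonneg t
    nlinarith

section

variable {V : Type} [Fintype V] {G : SimpleGraph V} {k : ℕ} [NeZero k]

/-- the kernel -/
def KC (G : SimpleGraph V) (k : ℕ) (C : ℝ → ℝ) (u v : V) : ℝ := KFC C (ff G k u v) (ff G k v u)

lemma crK_KC {L : ℕ} {C : ℝ → ℝ} (hC : Cost L C) {u v : V} (h1 : 0 < ff G k u v)
    (h2 : 0 < ff G k v u) : crK G k L (KC G k C) u v =
      ((cL L (ff G k u v) - C (ff G k u v)) + (cL L (ff G k v u) - C (ff G k v u))) / 2 := by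
  unfold crK KC KFC
  rw [if_pos ⟨h1, h2⟩, JJ_kk (by
    have := hC.nn _ h1
    have := hC.nn _ h2
    positivity)]
  unfold cL
  ring

theorem Ker_KC {L : ℕ} {C : ℝ → ℝ} (hC : Cost L C) : Ker G k L (KC G k C) where
  nn := fun u v => KFC_nonneg C _ _
  symm := fun u v => KFC_symm C _ _
  pos := by
    intro u v h1 h2
    unfold KC KFC
    rw [if_pos ⟨h1, h2⟩]
    exact kk_pos _
  cost := by
    intro u v h1 h2
    have h3 := crK_KC (G := G) (k := k) hC h1 h2
    have h4 := hC.le _ h1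
    have h5 := hC.le _ h2
    unfold crK at h3
    linarith

end

section

variable {k : ℕ} [NeZero k]

/-- own cost -/
def ownC (C : ℝ → ℝ) (Phi : ℝ → ℝ → ℝ → ℝ) (A : Finset (ZMod k)) (N : Finset (ZMod k) → ℝ)
    (tau dx : ZMod k → ℝ) : ℝ :=
  ∑ i ∈ A, (KFC C (dN N - cN N (i - 1)) (dx (i - 1) - cN N (i - 1)) +
    KFC C (dN N - cN N (i + 1)) (dx (i + 1) - cN N (i + 1))) / (2 * zN Phi tau dx i)

/-- value of a vertex outside the classes -/
def valNC (L : ℕ) (C : ℝ → ℝ) (r0 : ℝ) (Phi : ℝ → ℝ → ℝ → ℝ) (pot : Pot k) (g phi : ℝ → ℝ)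
    (chi : (ZMod k → ℝ) → (ZMod k → ℝ) → Finset (ZMod k) → Finset (ZMod k) → ℝ)
    (A : Finset (ZMod k)) (N : Finset (ZMod k) → ℝ) (tau dx : ZMod k → ℝ) : ℝ :=
  rD k A - ownC C Phi A N tau dx + comN L r0 Phi pot g phi chi A N tau dx

/-- value of a member of the class `j` -/
def valTC (L : ℕ) (r0 : ℝ) (Hc : ℝ → ℝ → ℝ) (Phi : ℝ → ℝ → ℝ → ℝ) (pot : Pot k)
    (g phi : ℝ → ℝ)
    (chi : (ZMod k → ℝ) → (ZMod k → ℝ) → Finset (ZMod k) → Finset (ZMod k) → ℝ)
    (j : ZMod k) (N : Finset (ZMod k) → ℝ) (tau dx : ZMod k → ℝ) : ℝ :=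
  comN L r0 Phi pot g phi chi (tT j) N tau dx -
    Hc (dN N - cN N j) (dx j - cN N j) * iz Phi tau dx j

end

section

variable {V : Type} [Fintype V] {G : SimpleGraph V} {k : ℕ} [NeZero k]

/-- windows of one cycle, one direction -/
def winX (G : SimpleGraph V) (k : ℕ) [NeZero k] (L : ℕ) (x : ZMod k → V) : ℝ :=
  ∑ a : ZMod k, ∑ l ∈ Icc 3 (k - 3),
    JJ (max 1 (mu k (F G k l (rot a x)) - RL G k L l (rot a x)))

lemma winX_nonneg (L : ℕ) (x : ZMod k → V) : 0 ≤ winX G k L x :=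
  sum_nonneg fun _ _ => sum_nonneg fun _ _ => JJ_max_nonneg _

/-- one pair of positions at distance two -/
def pairX (G : SimpleGraph V) (k : ℕ) [NeZero k] (L : ℕ) (C : ℝ → ℝ) (Phi : ℝ → ℝ → ℝ → ℝ)
    (x : ZMod k → V) (a : ZMod k) : ℝ :=
  1 - (tauX G k x a + tauX G k x (a + 2)) / 2 - KC G k C (x (a + 2)) (x a) +
    (tauX G k x a + tauX G k x (a + 2)) / 2 * KC G k C (x (a + 2)) (x a) /
      zN Phi (tauX G k x) (dX G k x) (a + 1) +
    Real.log (zN Phi (tauX G k x) (dX G k x) (a + 1)) -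
    ((cL L (ff G k (x (a + 2)) (x a)) - C (ff G k (x (a + 2)) (x a))) +
      (cL L (ff G k (x a) (x (a + 2))) - C (ff G k (x a) (x (a + 2))))) / 2

/-- the positions, symmetric form -/
def posS (G : SimpleGraph V) (k : ℕ) [NeZero k] (L : ℕ) (C : ℝ → ℝ) (Phi : ℝ → ℝ → ℝ → ℝ)
    (phi : ℝ → ℝ) (x : ZMod k → V) : ℝ :=
  ∑ a : ZMod k, pairX G k L C Phi x a -
    ∑ a : ZMod k, (JJ (dX G k x a / 2) + JJ (tauX G k x a) + phi (dX G k x a)) -
    (winX G k L x + winX G k L (rfx x)) / 2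

/-- the positions, one direction -/
def posD (G : SimpleGraph V) (k : ℕ) [NeZero k] (L : ℕ) (C : ℝ → ℝ) (Phi : ℝ → ℝ → ℝ → ℝ)
    (phi : ℝ → ℝ) (x : ZMod k → V) : ℝ :=
  ∑ a : ZMod k, (1 - tauX G k x (a + 2) - KC G k C (x (a + 2)) (x a) +
    tauX G k x (a + 2) * KC G k C (x (a + 2)) (x a) /
      zN Phi (tauX G k x) (dX G k x) (a + 1) +
    Real.log (zN Phi (tauX G k x) (dX G k x) (a + 1)) -
    ((cL L (ff G k (x (a + 2)) (x a)) - C (ff G k (x (a + 2)) (x a))) +
      (cL L (ff G k (x a) (x (a + 2))) - C (ff G k (x a) (x (a + 2))))) / 2) -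
    ∑ a : ZMod k, (JJ (dX G k x a / 2) + JJ (tauX G k x a) + phi (dX G k x a)) - winX G k L x

lemma tauX_rfx (x : ZMod k → V) (j : ZMod k) : tauX G k (rfx x) j = tauX G k x (-j) := by
  unfold tauX
  rw [T_rfx]

lemma dX_rfx (x : ZMod k → V) (j : ZMod k) : dX G k (rfx x) j = dX G k x (-j) := rfl

lemma zN_rfx {Phi : ℝ → ℝ → ℝ → ℝ} (hsymm : ∀ d s t, Phi d s t = Phi d t s)
    (x : ZMod k → V) (i : ZMod k) : zN Phi (tauX G k (rfx x)) (dX G k (rfx x)) i =
      zN Phi (tauX G k x) (dX G k x) (-i) := by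
  unfold zN
  rw [tauX_rfx, tauX_rfx, dX_rfx, hsymm]
  have e1 : -(i - 1) = -i + 1 := by ring
  have e2 : -(i + 1) = -i - 1 := by ring
  rw [e1, e2]

lemma posD_rfx {L : ℕ} {C : ℝ → ℝ} {Phi : ℝ → ℝ → ℝ → ℝ}
    (hsymm : ∀ d s t, Phi d s t = Phi d t s) (phi : ℝ → ℝ) (x : ZMod k → V) :
    (posD G k L C Phi phi x + posD G k L C Phi phi (rfx x)) / 2 = posS G k L C Phi phi x := by
  have hneg : ∀ f : ZMod k → ℝ, ∑ j : ZMod k, f (-j) = ∑ j : ZMod k, f j := fun f =>
    Equiv.sum_comp (Equiv.neg (ZMod k)) f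
  have hsh : ∀ f : ZMod k → ℝ, ∑ j : ZMod k, f (-j - 2) = ∑ j : ZMod k, f j := fun f => by
    have := Equiv.sum_comp (Equiv.addRight (-2 : ZMod k)) f
    rw [← this, ← hneg (fun j => f ((Equiv.addRight (-2 : ZMod k)) j))]
    refine sum_congr rfl fun j _ => ?_
    show f (-j - 2) = f (-j + -2)
    rw [sub_eq_add_neg]
  have h1 : ∑ a : ZMod k, (1 - tauX G k (rfx x) (a + 2) -
      KC G k C (rfx x (a + 2)) (rfx x a) +
      tauX G k (rfx x) (a + 2) * KC G k C (rfx x (a + 2)) (rfx x a) /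
        zN Phi (tauX G k (rfx x)) (dX G k (rfx x)) (a + 1) +
      Real.log (zN Phi (tauX G k (rfx x)) (dX G k (rfx x)) (a + 1)) -
      ((cL L (ff G k (rfx x (a + 2)) (rfx x a)) - C (ff G k (rfx x (a + 2)) (rfx x a))) +
        (cL L (ff G k (rfx x a) (rfx x (a + 2))) -
          C (ff G k (rfx x a) (rfx x (a + 2))))) / 2) =
      ∑ a : ZMod k, (1 - tauX G k x a - KC G k C (x (a + 2)) (x a) +
      tauX G k x a * KC G k C (x (a + 2)) (x a) / zN Phi (tauX G k x) (dX G k x) (a + 1) +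
      Real.log (zN Phi (tauX G k x) (dX G k x) (a + 1)) -
      ((cL L (ff G k (x (a + 2)) (x a)) - C (ff G k (x (a + 2)) (x a))) +
        (cL L (ff G k (x a) (x (a + 2))) - C (ff G k (x a) (x (a + 2))))) / 2) := by
    rw [← hsh (fun a => (1 - tauX G k x a - KC G k C (x (a + 2)) (x a) +
      tauX G k x a * KC G k C (x (a + 2)) (x a) / zN Phi (tauX G k x) (dX G k x) (a + 1) +
      Real.log (zN Phi (tauX G k x) (dX G k x) (a + 1)) -
      ((cL L (ff G k (x (a + 2)) (x a)) - C (ff G k (x (a + 2)) (x a))) +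
        (cL L (ff G k (x a) (x (a + 2))) - C (ff G k (x a) (x (a + 2))))) / 2))]
    refine sum_congr rfl fun a _ => ?_
    rw [zN_rfx hsymm, tauX_rfx]
    have e1 : -(a + 2) = -a - 2 := by ring
    have e2 : -(a + 1) = -a - 2 + 1 := by ring
    have e3 : rfx x (a + 2) = x (-a - 2) := by unfold rfx; rw [e1]
    have e4 : rfx x a = x (-a - 2 + 2) := by unfold rfx; congr 1; ring
    have e5 : KC G k C (x (-a - 2)) (x (-a - 2 + 2)) =
        KC G k C (x (-a - 2 + 2)) (x (-a - 2)) := KFC_symm C _ _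
    rw [e1, e2, e3, e4, e5]
    ring
  have h2 : ∑ a : ZMod k, (JJ (dX G k (rfx x) a / 2) + JJ (tauX G k (rfx x) a) +
      phi (dX G k (rfx x) a)) =
      ∑ a : ZMod k, (JJ (dX G k x a / 2) + JJ (tauX G k x a) + phi (dX G k x a)) := by
    rw [← hneg (fun a => JJ (dX G k x a / 2) + JJ (tauX G k x a) + phi (dX G k x a))]
    refine sum_congr rfl fun a _ => ?_
    rw [tauX_rfx, dX_rfx]
  unfold posD posS
  rw [h1, h2]
  have h3 : ∑ a : ZMod k, pairX G k L C Phi x a =
      (∑ a : ZMod k, (1 - tauX G k x (a + 2) - KC G k C (x (a + 2)) (x a) +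
      tauX G k x (a + 2) * KC G k C (x (a + 2)) (x a) /
        zN Phi (tauX G k x) (dX G k x) (a + 1) +
      Real.log (zN Phi (tauX G k x) (dX G k x) (a + 1)) -
      ((cL L (ff G k (x (a + 2)) (x a)) - C (ff G k (x (a + 2)) (x a))) +
        (cL L (ff G k (x a) (x (a + 2))) - C (ff G k (x a) (x (a + 2))))) / 2) +
      ∑ a : ZMod k, (1 - tauX G k x a - KC G k C (x (a + 2)) (x a) +
      tauX G k x a * KC G k C (x (a + 2)) (x a) / zN Phi (tauX G k x) (dX G k x) (a + 1) +
      Real.log (zN Phi (tauX G k x) (dX G k x) (a + 1)) -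
      ((cL L (ff G k (x (a + 2)) (x a)) - C (ff G k (x (a + 2)) (x a))) +
        (cL L (ff G k (x a) (x (a + 2))) - C (ff G k (x a) (x (a + 2))))) / 2)) / 2 := by
    rw [← sum_add_distrib, sum_div]
    refine sum_congr rfl fun a _ => ?_
    unfold pairX
    ring
  rw [h3]
  ring

/-- the twin cost, general form -/
theorem sum_twC (hk : 5 ≤ k) (tf : ∀ a b c : V, G.Adj a b → G.Adj b c → ¬ G.Adj a c)
    {C : ℝ → ℝ} {Phi : ℝ → ℝ → ℝ → ℝ} (hpos : ∀ d s t, 0 < Phi d s t)
    (hsymm : ∀ d s t, Phi d s t = Phi d t s) {Hc : ℝ → ℝ → ℝ} {r0 : ℝ}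
    (hp : ∀ s t : ℝ, 0 ≤ s → 0 ≤ t → 2 * KFC C s t - r0 * (s + t) ≤ Hc s t + Hc t s) :
    ∑ x ∈ Cyc G k, ∑ a : ZMod k, twK G k (KC G k C) x a a / zeF G k Phi x (a + 1) ≤
      ∑ x ∈ Cyc G k, ∑ j : ZMod k, ∑ w ∈ T G k j x,
        kap V k * (Hc (ff G k w (x j)) (ff G k (x j) w) *
          iz Phi (tauX G k x) (dX G k x) j) +
      ∑ x ∈ Cyc G k, ∑ y : V, kap V k * (r0 * ∑ l ∈ Ty G k x y,
        iz Phi (tauX G k x) (dX G k x) l * DD G k x l y) := by
  have hze := zeF_ok (G := G) hk tf Phi hpos hsymm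
  have hneg : ∀ f : ZMod k → ℝ, ∑ j : ZMod k, f (-j) = ∑ j : ZMod k, f j := fun f =>
    Equiv.sum_comp (Equiv.neg (ZMod k)) f
  -- symmetrise the two directions
  set R : (ZMod k → V) → ℝ :=
    fun x => ∑ a : ZMod k, twK G k (KC G k C) x a a / zeF G k Phi x (a + 1) with hR
  have h2 : ∑ x ∈ Cyc G k, R (rfx x) = ∑ x ∈ Cyc G k, R x := sum_refl (G := G) (k := k) R
  have h3 : ∀ x : ZMod k → V, R (rfx x) =
      ∑ a : ZMod k, twK G k (KC G k C) x a a / zeF G k Phi x (a - 1) := by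
    intro x
    rw [hR]
    dsimp only
    rw [← hneg (fun a => twK G k (KC G k C) x a a / zeF G k Phi x (a - 1))]
    refine sum_congr rfl fun a _ => ?_
    have e1 : -(a + 1) = -a - 1 := by ring
    rw [hze.symm, e1]
    congr 1
    unfold twK
    rw [T_rfx]
    rfl
  have h4 : ∑ x ∈ Cyc G k, ∑ a : ZMod k, twK G k (KC G k C) x a a / zeF G k Phi x (a + 1) =
      ∑ x ∈ Cyc G k, ∑ a : ZMod k,
        twK G k (KC G k C) x a a * iz Phi (tauX G k x) (dX G k x) a := by
    have h5 : ∑ x ∈ Cyc G k, R x = ∑ x ∈ Cyc G k, (R x + R (rfx x)) / 2 := by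
      rw [← sum_div, sum_add_distrib, h2]
      ring
    rw [show ∑ x ∈ Cyc G k, ∑ a : ZMod k, twK G k (KC G k C) x a a / zeF G k Phi x (a + 1) =
      ∑ x ∈ Cyc G k, R x from rfl, h5]
    refine sum_congr rfl fun x _ => ?_
    rw [h3, hR]
    dsimp only
    rw [← sum_add_distrib, sum_div]
    refine sum_congr rfl fun a _ => ?_
    unfold iz
    rw [← zeF_eq_zN, ← zeF_eq_zN]
    ring
  rw [h4, sum_comm, sum_comm (s := Cyc G k) (t := (univ : Finset (ZMod k)))
    (f := fun x j => ∑ w ∈ T G k j x, kap V k * (Hc (ff G k w (x j)) (ff G k (x j) w) *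
      iz Phi (tauX G k x) (dX G k x) j))]
  have e1 : ∑ x ∈ Cyc G k, ∑ y : V, kap V k * (r0 * ∑ l ∈ Ty G k x y,
        iz Phi (tauX G k x) (dX G k x) l * DD G k x l y) =
      ∑ j : ZMod k, ∑ x ∈ Cyc G k, ∑ w ∈ T G k j x, kap V k *
        (r0 * iz Phi (tauX G k x) (dX G k x) j * ff G k (x j) w) := by
    rw [sum_comm (s := (univ : Finset (ZMod k)))]
    refine sum_congr rfl fun x _ => ?_
    have e2 : ∀ j : ZMod k, ∑ w ∈ T G k j x, kap V k *
        (r0 * iz Phi (tauX G k x) (dX G k x) j * ff G k (x j) w) =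
        ∑ y : V, (if G.Adj (x j) y then kap V k *
          (r0 * (iz Phi (tauX G k x) (dX G k x) j * DD G k x j y)) else 0) := by
      intro j
      simp_rw [ff, DD, mu_eq_sum, mul_sum, sum_filter]
      unfold nb
      simp_rw [sum_filter]
      rw [sum_comm]
      refine sum_congr rfl fun y _ => ?_
      by_cases h1 : G.Adj (x j) y
      · simp only [h1, if_true]
        refine sum_congr rfl fun w _ => ?_
        split_ifs <;> ring
      · simp only [h1, if_false, sum_const_zero]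
    rw [sum_congr rfl fun j _ => e2 j, sum_comm]
    refine sum_congr rfl fun y _ => ?_
    rw [mul_sum, mul_sum]
    have e3 : Ty G k x y = univ.filter (fun l => G.Adj (x l) y) := rfl
    rw [e3, sum_filter]
  rw [e1, ← sum_add_distrib]
  refine sum_le_sum fun j _ => ?_
  -- one position: symmetrise the pair
  have hiz : ∀ x ∈ Cyc G k, ∀ w ∈ T G k j x,
      iz Phi (tauX G k (Function.update x j w)) (dX G k (Function.update x j w)) j =
        iz Phi (tauX G k x) (dX G k x) j := by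
    intro x hx w hw
    have a1 := hze.up x hx j w hw
    have a2 := hze.down x hx j w hw
    rw [zeF_eq_zN, zeF_eq_zN] at a1 a2
    unfold iz
    rw [a1, a2]
  have s1 : ∀ Ph : ℝ → ℝ → ℝ, ∑ x ∈ Cyc G k, ∑ w ∈ T G k j x, kap V k *
      (Ph (ff G k (x j) w) (ff G k w (x j)) * iz Phi (tauX G k x) (dX G k x) j) =
      ∑ x ∈ Cyc G k, ∑ w ∈ T G k j x, kap V k *
      (Ph (ff G k w (x j)) (ff G k (x j) w) * iz Phi (tauX G k x) (dX G k x) j) := by
    intro Ph
    have h := sum_swap (G := G) hk tf j (fun x w => kap V k *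
      (Ph (ff G k w (x j)) (ff G k (x j) w) * iz Phi (tauX G k x) (dX G k x) j))
    rw [← h]
    refine sum_congr rfl fun x hx => sum_congr rfl fun w hw => ?_
    rw [Function.update_self, hiz x hx w hw]
  have s2 := s1 Hc
  have s3 := s1 (fun s _ => r0 * s)
  have e4 : ∀ x : ZMod k → V, twK G k (KC G k C) x j j * iz Phi (tauX G k x) (dX G k x) j =
      ∑ w ∈ T G k j x, kap V k * (KFC C (ff G k w (x j)) (ff G k (x j) w) *
        iz Phi (tauX G k x) (dX G k x) j) := by
    intro x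
    unfold twK
    rw [sum_mul]
    refine sum_congr rfl fun w _ => ?_
    unfold KC
    ring
  rw [sum_congr rfl fun x _ => e4 x]
  have e5 : ∑ x ∈ Cyc G k, ∑ w ∈ T G k j x, kap V k *
        (r0 * iz Phi (tauX G k x) (dX G k x) j * ff G k (x j) w) =
      ∑ x ∈ Cyc G k, ∑ w ∈ T G k j x, kap V k *
        (r0 * ff G k (x j) w * iz Phi (tauX G k x) (dX G k x) j) :=
    sum_congr rfl fun x _ => sum_congr rfl fun w _ => by ring
  rw [e5]
  have h6 : ∑ x ∈ Cyc G k, ∑ w ∈ T G k j x, kap V k *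
      (KFC C (ff G k w (x j)) (ff G k (x j) w) * iz Phi (tauX G k x) (dX G k x) j) ≤
      ∑ x ∈ Cyc G k, ∑ w ∈ T G k j x,
      ((kap V k * (Hc (ff G k w (x j)) (ff G k (x j) w) *
          iz Phi (tauX G k x) (dX G k x) j) +
        kap V k * (Hc (ff G k (x j) w) (ff G k w (x j)) *
          iz Phi (tauX G k x) (dX G k x) j)) / 2 +
        (kap V k * (r0 * ff G k (x j) w * iz Phi (tauX G k x) (dX G k x) j) +
        kap V k * (r0 * ff G k w (x j) * iz Phi (tauX G k x) (dX G k x) j)) / 2) := by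
    refine sum_le_sum fun x hx => sum_le_sum fun w _ => ?_
    have a0 := hp _ _ (ff_nn (G := G) (k := k) w (x j)) (ff_nn (G := G) (k := k) (x j) w)
    have a1 : 0 ≤ iz Phi (tauX G k x) (dX G k x) j := by
      have b1 := hpos (dX G k x (j - 1)) (tauX G k x (j - 1 - 1)) (tauX G k x (j - 1 + 1))
      have b2 := hpos (dX G k x (j + 1)) (tauX G k x (j + 1 - 1)) (tauX G k x (j + 1 + 1))
      unfold iz zN
      positivity
    have a2 : 0 ≤ kap V k * iz Phi (tauX G k x) (dX G k x) j :=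
      mul_nonneg (kap_nonneg' (V := V) (k := k)) a1
    have a3 := mul_le_mul_of_nonneg_left a0 a2
    nlinarith
  refine h6.trans (le_of_eq ?_)
  simp only [sum_add_distrib, ← sum_div]
  rw [s2]
  have s3' : ∑ x ∈ Cyc G k, ∑ w ∈ T G k j x, kap V k *
      (r0 * ff G k (x j) w * iz Phi (tauX G k x) (dX G k x) j) =
      ∑ x ∈ Cyc G k, ∑ w ∈ T G k j x, kap V k *
      (r0 * ff G k w (x j) * iz Phi (tauX G k x) (dX G k x) j) := s3
  rw [s3']
  ring

lemma KC_eq (C : ℝ → ℝ) (x : ZMod k → V) (y : V) (b : ZMod k) :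
    KC G k C y (x b) = KFC C (dN (NbM G k x y) - cN (NbM G k x y) b)
      (dX G k x b - cN (NbM G k x y) b) := by
  rw [← cM_eq_cN, ← dg_eq_dN, dX, ← ff_eq_cM, ← ff_eq_cM']
  rfl

lemma ff_eq_N' (x : ZMod k → V) (y : V) (b : ZMod k) :
    ff G k (x b) y = dX G k x b - cN (NbM G k x y) b := by
  rw [← cM_eq_cN, dX, ← ff_eq_cM']

lemma ownC_eq (C : ℝ → ℝ) (Phi : ℝ → ℝ → ℝ → ℝ) (x : ZMod k → V) (y : V) :
    ownZ G k (KC G k C) (zeF G k Phi) x y =
      ownC C Phi (Ty G k x y) (NbM G k x y) (tauX G k x) (dX G k x) := by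
  unfold ownZ ownC
  refine sum_congr rfl fun i _ => ?_
  rw [KC_eq, KC_eq, zeF_eq_zN]

end

/-- **the interface, free kernel, symmetric positions** -/
theorem reductionRowsC {k : ℕ} [NeZero k] (hk : 6 ≤ k) {L : ℕ} (hL : 3 ≤ L) (hLk : L + 3 ≤ k)
    {B B' r0 : ℝ} (g phi : ℝ → ℝ) (hg : ∀ t, 0 ≤ t → t ≤ (k : ℝ) → |g t| ≤ B)
    (hphi : ∀ t, 0 ≤ t → t ≤ (k : ℝ) → |phi t| ≤ B') {C : ℝ → ℝ} (hC : Cost L C)
    {Hc : ℝ → ℝ → ℝ}
    (hH : ∀ s t : ℝ, 0 ≤ s → 0 ≤ t → 2 * KFC C s t - r0 * (s + t) ≤ Hc s t + Hc t s)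
    {Phi : ℝ → ℝ → ℝ → ℝ} (hpos : ∀ d s t, 0 < Phi d s t)
    (hsymm : ∀ d s t, Phi d s t = Phi d t s) (pot : Pot k)
    {chi : (ZMod k → ℝ) → (ZMod k → ℝ) → Finset (ZMod k) → Finset (ZMod k) → ℝ}
    (hchi : ∀ tau dx A D, chi tau dx A D + chi tau dx D A = 0)
    (rN : Finset (ZMod k) → (ZMod k → ℝ) → (ZMod k → ℝ) → ℝ)
    (rT : ZMod k → (ZMod k → ℝ) → (ZMod k → ℝ) → ℝ)
    (hN : ∀ (A : Finset (ZMod k)) (N : Finset (ZMod k) → ℝ) (tau dx : ZMod k → ℝ),
      Data A N tau dx → (∀ j, A ≠ tT j) →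
        rN A tau dx ≤ valNC L C r0 Phi pot g phi chi A N tau dx)
    (hT : ∀ (j : ZMod k) (N : Finset (ZMod k) → ℝ) (tau dx : ZMod k → ℝ),
      Data (tT j) N tau dx → rT j tau dx ≤ valTC L r0 Hc Phi pot g phi chi j N tau dx)
    (hP : ∀ (U : Type) [Fintype U] (G : SimpleGraph U),
      (∀ a b c : U, G.Adj a b → G.Adj b c → ¬ G.Adj a c) → ∀ x ∈ Cyc G k,
      posS G k L C Phi phi x ≤
        ∑ y ∈ nonT G k x, kap U k * rN (Ty G k x y) (tauX G k x) (dX G k x) +
        ∑ j : ZMod k, tauX G k x j * rT j (tauX G k x) (dX G k x))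
    {V : Type} [Fintype V] {G : SimpleGraph V}
    (tf : ∀ a b c : V, G.Adj a b → G.Adj b c → ¬ G.Adj a c) :
    NN G k * kap V k ^ k ≤ 2 * (k : ℝ) := by
  have hk5 : 5 ≤ k := by omega
  refine reductionZc hk hL hLk g phi hg hphi ?_ tf
  intro U _ G tfG
  have hze := zeF_ok (G := G) hk5 tfG Phi hpos hsymm
  refine ⟨KC G k C, zeF G k Phi,
    fun x y => ownC C Phi (Ty G k x y) (NbM G k x y) (tauX G k x) (dX G k x),
    fun x w => (rewN L (-1) (Ty G k x w) (NbM G k x w) + rewN L 1 (Ty G k x w) (NbM G k x w)) / 2,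
    fun x w => r0 * ∑ l ∈ Ty G k x w, iz Phi (tauX G k x) (dX G k x) l * DD G k x l w +
      ∑ j : ZMod k, (if w ∈ T G k j x then
        Hc (ff G k w (x j)) (ff G k (x j) w) * iz Phi (tauX G k x) (dX G k x) j else 0),
    fun x w => flowN pot (Ty G k x w) (NbM G k x w) (tauX G k x) (dX G k x) +
      ∑ D : Finset (ZMod k), NbM G k x w D * chi (tauX G k x) (dX G k x) (Ty G k x w) D,
    fun x => ∑ a : ZMod k, tauX G k x (a + 2) * KC G k C (x (a + 2)) (x a) /
      zN Phi (tauX G k x) (dX G k x) (a + 1),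
    fun x => (posD G k L C Phi phi x - posD G k L C Phi phi (rfx x)) / 2,
    Ker_KC hC, fun x hx i => hpos _ _ _, ?_, ?_, ?_, ?_, ?_, ?_, ?_⟩
  · rw [sum_ownZ (KC G k C) hze.symm]
    refine le_of_eq (sum_congr rfl fun x _ => sum_congr rfl fun y _ => ?_)
    rw [ownC_eq]
  · refine le_trans (le_of_eq ?_) (sum_rewXS (G := G) hk hL)
    refine sum_congr rfl fun x _ => sum_congr rfl fun w _ => ?_
    rw [rewXS_eq]
  · refine (sum_twC hk5 tfG hpos hsymm hH).trans (le_of_eq ?_)
    rw [← sum_add_distrib]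
    refine sum_congr rfl fun x _ => ?_
    have e1 : ∑ w : U, kap U k * (r0 * ∑ l ∈ Ty G k x w,
        iz Phi (tauX G k x) (dX G k x) l * DD G k x l w +
        ∑ j : ZMod k, (if w ∈ T G k j x then
        Hc (ff G k w (x j)) (ff G k (x j) w) * iz Phi (tauX G k x) (dX G k x) j else 0)) =
        ∑ w : U, kap U k * (r0 * ∑ l ∈ Ty G k x w,
          iz Phi (tauX G k x) (dX G k x) l * DD G k x l w) +
        ∑ j : ZMod k, ∑ w : U, (if w ∈ T G k j x then
          kap U k * (Hc (ff G k w (x j)) (ff G k (x j) w) *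
            iz Phi (tauX G k x) (dX G k x) j) else 0) := by
      have e0 : ∑ j : ZMod k, ∑ w : U, (if w ∈ T G k j x then
          kap U k * (Hc (ff G k w (x j)) (ff G k (x j) w) *
            iz Phi (tauX G k x) (dX G k x) j) else 0) =
          ∑ w : U, ∑ j : ZMod k, (if w ∈ T G k j x then
          kap U k * (Hc (ff G k w (x j)) (ff G k (x j) w) *
            iz Phi (tauX G k x) (dX G k x) j) else 0) := sum_comm
      rw [e0, ← sum_add_distrib]
      refine sum_congr rfl fun w _ => ?_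
      have e5 : kap U k * ∑ j : ZMod k, (if w ∈ T G k j x then
          Hc (ff G k w (x j)) (ff G k (x j) w) * iz Phi (tauX G k x) (dX G k x) j else 0) =
          ∑ j : ZMod k, (if w ∈ T G k j x then
          kap U k * (Hc (ff G k w (x j)) (ff G k (x j) w) *
            iz Phi (tauX G k x) (dX G k x) j) else 0) := by
        rw [mul_sum]
        refine sum_congr rfl fun j _ => ?_
        split_ifs
        · rfl
        · rw [mul_zero]
      rw [mul_add, e5]
    rw [e1, add_comm]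
    congr 1
    refine sum_congr rfl fun j _ => ?_
    rw [← sum_filter]
    refine sum_congr ?_ fun _ _ => rfl
    ext w
    simp
  · refine le_of_eq ((sum_tw2_ze hk5 tfG (KC G k C) hze).trans ?_)
    rfl
  · have h1 := potX_sum (G := G) hk5 tfG pot
    have h2 : ∀ x : ZMod k → U, ∑ y : U, kap U k *
        ∑ D : Finset (ZMod k), NbM G k x y D * chi (tauX G k x) (dX G k x) (Ty G k x y) D = 0 := by
      intro x
      have h3 := sum_chg (G := G) (k := k)
        (fun u v => chi (tauX G k x) (dX G k x) (Ty G k x u) (Ty G k x v))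
        (fun y z _ => hchi _ _ _ _)
      rw [← h3]
      refine sum_congr rfl fun y _ => ?_
      rw [chg_types (chi (tauX G k x) (dX G k x))]
    refine le_of_eq ?_
    rw [← h1]
    refine sum_congr rfl fun x _ => ?_
    simp only [mul_add, sum_add_distrib]
    rw [h2 x, add_zero]
    refine sum_congr rfl fun y _ => ?_
    rw [gflow_eq]
  · have h1 := sum_refl (G := G) (k := k) (posD G k L C Phi phi)
    have h2 : ∑ x ∈ Cyc G k, posD G k L C Phi phi (rfx x) =
        ∑ x ∈ Cyc G k, posD G k L C Phi phi x := h1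
    rw [← sum_div, sum_sub_distrib, h2]
    simp
  · intro x hx
    have hP' := hP U G tfG x hx
    rw [← posD_rfx hsymm phi x] at hP'
    have hn : ∀ y ∈ nonT G k x, kap U k * rN (Ty G k x y) (tauX G k x) (dX G k x) ≤
        kap U k * valNC L C r0 Phi pot g phi chi (Ty G k x y) (NbM G k x y) (tauX G k x)
          (dX G k x) := by
      intro y hy
      refine mul_le_mul_of_nonneg_left (hN _ _ _ _ (data_ok hk5 tfG hx y) ?_) kap_nonneg
      intro j hj
      have h1 : ∀ j : ZMod k, y ∉ T G k j x := by simpa [nonT] using hy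
      exact h1 j (bas_mem_T.2 hj)
    have ht : ∀ j : ZMod k, tauX G k x j * rT j (tauX G k x) (dX G k x) ≤
        ∑ w ∈ T G k j x, kap U k * valTC L r0 Hc Phi pot g phi chi j (NbM G k x w) (tauX G k x)
          (dX G k x) := by
      intro j
      have e : tauX G k x j * rT j (tauX G k x) (dX G k x) =
          ∑ w ∈ T G k j x, kap U k * rT j (tauX G k x) (dX G k x) := by
        unfold tauX
        rw [mu_eq_sum, sum_mul]
      rw [e]
      refine sum_le_sum fun w hw => mul_le_mul_of_nonneg_left ?_ kap_nonneg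
      have hty : Ty G k x w = tT j := bas_mem_T.1 hw
      have hd := data_ok hk5 tfG hx w
      rw [hty] at hd
      exact hT j _ _ _ hd
    have hsn := sum_le_sum hn
    have hst := sum_le_sum fun j (_ : j ∈ (univ : Finset (ZMod k))) => ht j
    have hcl := sum_classes (G := G) hk5 x (fun w => kap U k *
      (comN L r0 Phi pot g phi chi (Ty G k x w) (NbM G k x w) (tauX G k x) (dX G k x)))
    have hvT : ∑ j : ZMod k, ∑ w ∈ T G k j x, kap U k * valTC L r0 Hc Phi pot g phi chi j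
        (NbM G k x w) (tauX G k x) (dX G k x) =
        ∑ j : ZMod k, ∑ w ∈ T G k j x, kap U k * comN L r0 Phi pot g phi chi (Ty G k x w)
          (NbM G k x w) (tauX G k x) (dX G k x) -
        ∑ j : ZMod k, ∑ w ∈ T G k j x, kap U k * (Hc (ff G k w (x j)) (ff G k (x j) w) *
          iz Phi (tauX G k x) (dX G k x) j) := by
      rw [← sum_sub_distrib]
      refine sum_congr rfl fun j _ => ?_
      rw [← sum_sub_distrib]
      refine sum_congr rfl fun w hw => ?_
      have hty : Ty G k x w = tT j := bas_mem_T.1 hw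
      unfold valTC
      rw [hty, ff_eq_N, ff_eq_N']
      ring
    have hvN : ∑ y ∈ nonT G k x, kap U k * valNC L C r0 Phi pot g phi chi (Ty G k x y)
        (NbM G k x y) (tauX G k x) (dX G k x) =
        ∑ y ∈ nonT G k x, kap U k * (rD k (Ty G k x y) -
          ownC C Phi (Ty G k x y) (NbM G k x y) (tauX G k x) (dX G k x)) +
        ∑ y ∈ nonT G k x, kap U k * comN L r0 Phi pot g phi chi (Ty G k x y) (NbM G k x y)
          (tauX G k x) (dX G k x) := by
      rw [← sum_add_distrib]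
      refine sum_congr rfl fun y _ => ?_
      unfold valNC
      ring
    have hTw : ∑ w : U, kap U k * ∑ j : ZMod k, (if w ∈ T G k j x then
        Hc (ff G k w (x j)) (ff G k (x j) w) * iz Phi (tauX G k x) (dX G k x) j else 0) =
        ∑ j : ZMod k, ∑ w ∈ T G k j x, kap U k * (Hc (ff G k w (x j)) (ff G k (x j) w) *
          iz Phi (tauX G k x) (dX G k x) j) := by
      simp_rw [mul_sum]
      rw [sum_comm]
      refine sum_congr rfl fun j _ => ?_
      have e : ∀ w : U, kap U k * (if w ∈ T G k j x then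
          Hc (ff G k w (x j)) (ff G k (x j) w) * iz Phi (tauX G k x) (dX G k x) j else 0) =
          if w ∈ T G k j x then kap U k * (Hc (ff G k w (x j)) (ff G k (x j) w) *
            iz Phi (tauX G k x) (dX G k x) j) else 0 := by
        intro w
        split_ifs
        · rfl
        · rw [mul_zero]
      rw [sum_congr rfl fun w _ => e w, ← sum_filter]
      refine sum_congr ?_ fun _ _ => rfl
      ext w
      simp
    have hcom : ∑ w : U, kap U k * comN L r0 Phi pot g phi chi (Ty G k x w) (NbM G k x w)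
          (tauX G k x) (dX G k x) =
        ∑ w : U, kap U k * ((rewN L (-1) (Ty G k x w) (NbM G k x w) +
            rewN L 1 (Ty G k x w) (NbM G k x w)) / 2 -
          (r0 * ∑ l ∈ Ty G k x w, iz Phi (tauX G k x) (dX G k x) l * DD G k x l w) +
          (flowN pot (Ty G k x w) (NbM G k x w) (tauX G k x) (dX G k x) +
            ∑ D : Finset (ZMod k), NbM G k x w D *
              chi (tauX G k x) (dX G k x) (Ty G k x w) D) +
          g (dg G k w) * (((Ty G k x w).card : ℝ) - dg G k w)) -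
        ∑ w : U, kap U k * phi (dg G k w) := by
      rw [← sum_sub_distrib]
      refine sum_congr rfl fun w _ => ?_
      unfold comN
      have e : ∀ l : ZMod k, DD G k x l w = tauX G k x l - NbM G k x w (tT l) :=
        fun l => DD_eq_N x l w
      simp only [e, ← dg_eq_dN]
      ring
    have hgoal : ∑ w : U, kap U k * ((rewN L (-1) (Ty G k x w) (NbM G k x w) +
            rewN L 1 (Ty G k x w) (NbM G k x w)) / 2 -
          (r0 * ∑ l ∈ Ty G k x w, iz Phi (tauX G k x) (dX G k x) l * DD G k x l w +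
            ∑ j : ZMod k, (if w ∈ T G k j x then
              Hc (ff G k w (x j)) (ff G k (x j) w) *
                iz Phi (tauX G k x) (dX G k x) j else 0)) +
          (flowN pot (Ty G k x w) (NbM G k x w) (tauX G k x) (dX G k x) +
            ∑ D : Finset (ZMod k), NbM G k x w D *
              chi (tauX G k x) (dX G k x) (Ty G k x w) D) +
          g (dg G k w) * (((Ty G k x w).card : ℝ) - dg G k w)) =
        ∑ w : U, kap U k * ((rewN L (-1) (Ty G k x w) (NbM G k x w) +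
            rewN L 1 (Ty G k x w) (NbM G k x w)) / 2 -
          (r0 * ∑ l ∈ Ty G k x w, iz Phi (tauX G k x) (dX G k x) l * DD G k x l w) +
          (flowN pot (Ty G k x w) (NbM G k x w) (tauX G k x) (dX G k x) +
            ∑ D : Finset (ZMod k), NbM G k x w D *
              chi (tauX G k x) (dX G k x) (Ty G k x w) D) +
          g (dg G k w) * (((Ty G k x w).card : ℝ) - dg G k w)) -
        ∑ w : U, kap U k * ∑ j : ZMod k, (if w ∈ T G k j x then
              Hc (ff G k w (x j)) (ff G k (x j) w) *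
                iz Phi (tauX G k x) (dX G k x) j else 0) := by
      rw [← sum_sub_distrib]
      refine sum_congr rfl fun w _ => ?_
      ring
    have hcr : ∀ a : ZMod k, crK G k L (KC G k C) (x (a + 2)) (x a) =
        ((cL L (ff G k (x (a + 2)) (x a)) - C (ff G k (x (a + 2)) (x a))) +
          (cL L (ff G k (x a) (x (a + 2))) - C (ff G k (x a) (x (a + 2))))) / 2 := by
      intro a
      have hr : rot a x ∈ Cyc G k := rot_mem_Cyc a hx
      obtain ⟨h1, h2⟩ := ff_pos hk5 tfG hr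
      have e0 : rot a x 0 = x a := by unfold rot; rw [zero_add]
      have e2 : rot a x 2 = x (a + 2) := by unfold rot; rw [add_comm]
      rw [e0, e2] at h1 h2
      exact crK_KC hC h1 h2
    have hposE : PosZ G k L (KC G k C) (zeF G k Phi x) x -
          ∑ a : ZMod k, crK G k L (KC G k C) (x (a + 2)) (x a) +
        ∑ a : ZMod k, tauX G k x (a + 2) * KC G k C (x (a + 2)) (x a) /
          zN Phi (tauX G k x) (dX G k x) (a + 1) =
        posD G k L C Phi phi x + ∑ j : ZMod k, phi (dg G k (x j)) := by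
      rw [sum_congr rfl fun a _ => hcr a]
      unfold PosZ posD winX
      have e2 : ∀ i : ZMod k, zeF G k Phi x i = zN Phi (tauX G k x) (dX G k x) i := fun _ => rfl
      have e3 : ∀ j : ZMod k, mu k (T G k j x) = tauX G k x j := fun _ => rfl
      have e4 : ∀ j : ZMod k, dg G k (x j) = dX G k x j := fun _ => rfl
      simp only [e2, e3, e4, sum_add_distrib, sum_sub_distrib]
      ring
    rw [hposE, hgoal, hTw]
    rw [hcom] at hcl
    rw [hvN] at hsn
    rw [hvT] at hst
    linarith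

end

end Pool.Agent.ICyc.D
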