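import Pool.Agent.Lib.MP_131fce_co.D.Rows2
import Pool.Agent.Lib.MP_131fce_co.D.PairId

/-!
# Induced k-cycles in triangle-free graphs: the interface with the whole environment

The environment of a cycle consists of the masses of the classes, the degrees of the positions and
the masses of all types.  The slope of the twin price, the charges and the bounds of the rows may
be any functions of it; further null functionals can be added.
-/

set_option autoImplicit false

namespace Pool.Agent.ICyc.D

open Finset Pool.Agent.ICyc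
open scoped Classical

noncomputable section

/-- the environment -/
structure Env (k : ℕ) where
  /-- masses of the classes -/
  tau : ZMod k → ℝ
  /-- degrees of the positions -/
  dx : ZMod k → ℝ
  /-- masses of the types -/
  m : Finset (ZMod k) → ℝ

section

variable {k : ℕ} [NeZero k]

/-- what is known about the data of a vertex in its environment -/
structure DataE (A : Finset (ZMod k)) (N : Finset (ZMod k) → ℝ) (E : Env k) : Prop extends
    Data A N E.tau E.dx where
  N_le : ∀ B, N B ≤ E.m B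
  m_T : ∀ l, E.m (tT l) = E.tau l
  m_nn : ∀ B, 0 ≤ E.m B
  m_sum : ∑ B : Finset (ZMod k), E.m B = (k : ℝ)
  m_ind : ∀ B, E.m B ≠ 0 → ∀ i ∈ B, i + 1 ∉ B
  m_dx : ∀ b, ∑ B ∈ univ.filter (fun B : Finset (ZMod k) => b ∈ B), E.m B = E.dx b

/-- the part common to all vertices -/
def comE (L : ℕ) (rr : Env k → ZMod k → ℝ) (pot : Pot k) (g phi : ℝ → ℝ)
    (chi : Env k → Finset (ZMod k) → Finset (ZMod k) → ℝ)
    (A : Finset (ZMod k)) (N : Finset (ZMod k) → ℝ) (E : Env k) : ℝ :=
  (rewN L (-1) A N + rewN L 1 A N) / 2 -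
    ∑ l ∈ A, rr E l * (E.tau l - N (tT l)) + flowN pot A N E.tau E.dx +
    g (dN N) * ((A.card : ℝ) - dN N) + ∑ B : Finset (ZMod k), N B * chi E A B - phi (dN N)

/-- value of a vertex outside the classes -/
def valNE (L : ℕ) (C : ℝ → ℝ) (Phi : ℝ → ℝ → ℝ → ℝ) (rr : Env k → ZMod k → ℝ) (pot : Pot k)
    (g phi : ℝ → ℝ) (chi : Env k → Finset (ZMod k) → Finset (ZMod k) → ℝ)
    (A : Finset (ZMod k)) (N : Finset (ZMod k) → ℝ) (E : Env k) : ℝ :=
  rD k A - ownC C Phi A N E.tau E.dx + comE L rr pot g phi chi A N E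

/-- value of a member of the class `j` -/
def valTE (L : ℕ) (Hx : Env k → ZMod k → ℝ → ℝ → ℝ) (rr : Env k → ZMod k → ℝ) (pot : Pot k)
    (g phi : ℝ → ℝ) (chi : Env k → Finset (ZMod k) → Finset (ZMod k) → ℝ)
    (j : ZMod k) (N : Finset (ZMod k) → ℝ) (E : Env k) : ℝ :=
  comE L rr pot g phi chi (tT j) N E - Hx E j (dN N - cN N j) (E.dx j - cN N j)

end

section

variable {V : Type} [Fintype V] {G : SimpleGraph V} {k : ℕ} [NeZero k]

/-- the environment of a cycle -/
def envX (G : SimpleGraph V) (k : ℕ) [NeZero k] (x : ZMod k → V) : Env k where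
  tau := tauX G k x
  dx := dX G k x
  m := fun B => mu k (YT G k x B)

lemma YT_tT (x : ZMod k → V) (l : ZMod k) : YT G k x (tT l) = T G k l x := by
  unfold YT tT
  ext y
  rw [mem_filter, bas_mem_T]
  simp

/-- sums over all vertices, by types -/
lemma sum_types (x : ZMod k → V) (f : Finset (ZMod k) → ℝ) :
    ∑ y : V, kap V k * f (Ty G k x y) = ∑ B : Finset (ZMod k), mu k (YT G k x B) * f B := by
  rw [← sum_fiberwise (univ : Finset V) (fun z => Ty G k x z)]
  refine sum_congr rfl fun B _ => ?_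
  unfold YT
  rw [mu_eq_sum, sum_mul]
  refine sum_congr rfl fun z hz => ?_
  rw [(mem_filter.1 hz).2]

theorem dataE_ok (hk : 5 ≤ k) (tf : ∀ a b c : V, G.Adj a b → G.Adj b c → ¬ G.Adj a c)
    {x : ZMod k → V} (hx : x ∈ Cyc G k) (y : V) :
    DataE (Ty G k x y) (NbM G k x y) (envX G k x) where
  toData := data_ok hk tf hx y
  N_le := by
    intro B
    refine mu_sub_le fun z hz => ?_
    unfold YT
    rw [mem_filter] at hz ⊢
    exact ⟨mem_univ _, hz.2⟩
  m_T := by
    intro l
    show mu k (YT G k x (tT l)) = mu k (T G k l x)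
    rw [YT_tT]
  m_nn := fun B => mu_nonneg _
  m_sum := by
    have : Nonempty V := ⟨x 0⟩
    have h := sum_types (G := G) x (fun _ => 1)
    simp only [mul_one] at h
    show ∑ B : Finset (ZMod k), mu k (YT G k x B) = (k : ℝ)
    rw [← h, sum_kap]
  m_ind := by
    intro B hB
    have : (YT G k x B).Nonempty := by
      by_contra h
      rw [not_nonempty_iff_eq_empty] at h
      apply hB
      show mu k (YT G k x B) = 0
      rw [h]
      simp [mu]
    obtain ⟨z, hz⟩ := this
    unfold YT at hz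
    rw [mem_filter] at hz
    rw [← hz.2]
    intro i h1
    exact not_mem_Ty_succ tf hx h1
  m_dx := by
    intro b
    have h := sum_types (G := G) x (fun B => if b ∈ B then 1 else 0)
    have e1 : ∑ y : V, kap V k * (if b ∈ Ty G k x y then (1 : ℝ) else 0) = dX G k x b := by
      unfold dX dg
      rw [mu_eq_sum]
      unfold nb
      rw [sum_filter]
      refine sum_congr rfl fun y _ => ?_
      by_cases hy : b ∈ Ty G k x y
      · rw [if_pos hy, if_pos (bas_mem_Ty.1 hy), mul_one]
      · rw [if_neg hy, if_neg (fun h' => hy (bas_mem_Ty.2 h')), mul_zero]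
    rw [e1] at h
    show ∑ B ∈ univ.filter (fun B : Finset (ZMod k) => b ∈ B), mu k (YT G k x B) = dX G k x b
    rw [h, sum_filter]
    refine sum_congr rfl fun B _ => ?_
    split_ifs
    · rw [mul_one]
    · rw [mul_zero]

/-- the type of twin transfers: position, mass of the class, degrees of the other positions -/
abbrev Xfer (k : ℕ) := ZMod k → ℝ → (ZMod k → ℝ) → ℝ → ℝ → ℝ

/-- the twin cost with a slope that depends on the environment -/
theorem sum_twE (hk : 5 ≤ k) (tf : ∀ a b c : V, G.Adj a b → G.Adj b c → ¬ G.Adj a c)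
    {C : ℝ → ℝ} {Phi : ℝ → ℝ → ℝ → ℝ} (hpos : ∀ d s t, 0 < Phi d s t)
    (hsymm : ∀ d s t, Phi d s t = Phi d t s) (Xi : Xfer k)
    {Hx : Env k → ZMod k → ℝ → ℝ → ℝ} {rr : Env k → ZMod k → ℝ}
    (hp : ∀ (E : Env k) (j : ZMod k) (s t : ℝ), 0 ≤ s → 0 ≤ t →
      KFC C s t * iz Phi E.tau E.dx j + Xi j (E.tau j) (msk j E.dx) s t -
        Xi j (E.tau j) (msk j E.dx) t s ≤ Hx E j s t + rr E j * t) :
    ∑ x ∈ Cyc G k, ∑ a : ZMod k, twK G k (KC G k C) x a a / zeF G k Phi x (a + 1) ≤
      ∑ x ∈ Cyc G k, ∑ j : ZMod k, ∑ w ∈ T G k j x,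
        kap V k * Hx (envX G k x) j (ff G k w (x j)) (ff G k (x j) w) +
      ∑ x ∈ Cyc G k, ∑ y : V, kap V k * ∑ l ∈ Ty G k x y,
        rr (envX G k x) l * DD G k x l y := by
  have hze := zeF_ok (G := G) hk tf Phi hpos hsymm
  have hneg : ∀ f : ZMod k → ℝ, ∑ j : ZMod k, f (-j) = ∑ j : ZMod k, f j := fun f =>
    Equiv.sum_comp (Equiv.neg (ZMod k)) f
  -- symmetrise the two directions
  set R : (ZMod k → V) → ℝ :=
    fun x => ∑ a : ZMod k, twK G k (KC G k C) x a a / zeF G k Phi x (a + 1) with hR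
  have h2 : ∑ x ∈ Cyc G k, R (rfx x) = ∑ x ∈ Cyc G k, R x := sum_refl (G := G) (k := k) R
  have h3 : ∀ x : ZMod k → V, R (rfx x) =
      ∑ a : ZMod k, twK G k (KC G k C) x a a / zeF G k Phi x (a - 1) := by
    intro x
    rw [hR]
    dsimp only
    rw [← hneg (fun a => twK G k (KC G k C) x a a / zeF G k Phi x (a - 1))]
    refine sum_congr rfl fun a _ => ?_
    have e1 : -(a + 1) = -a - 1 := by ring
    rw [hze.symm, e1]
    congr 1
    unfold twK
    rw [T_rfx]
    rfl
  have h4 : ∑ x ∈ Cyc G k, ∑ a : ZMod k, twK G k (KC G k C) x a a / zeF G k Phi x (a + 1) =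
      ∑ x ∈ Cyc G k, ∑ j : ZMod k, ∑ w ∈ T G k j x, kap V k *
        (KFC C (ff G k w (x j)) (ff G k (x j) w) * iz Phi (tauX G k x) (dX G k x) j) := by
    have h5 : ∑ x ∈ Cyc G k, R x = ∑ x ∈ Cyc G k, (R x + R (rfx x)) / 2 := by
      rw [← sum_div, sum_add_distrib, h2]
      ring
    rw [show ∑ x ∈ Cyc G k, ∑ a : ZMod k, twK G k (KC G k C) x a a / zeF G k Phi x (a + 1) =
      ∑ x ∈ Cyc G k, R x from rfl, h5]
    refine sum_congr rfl fun x _ => ?_
    rw [h3, hR]
    dsimp only
    rw [← sum_add_distrib, sum_div]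
    refine sum_congr rfl fun a _ => ?_
    have e4 : (twK G k (KC G k C) x a a / zeF G k Phi x (a + 1) +
        twK G k (KC G k C) x a a / zeF G k Phi x (a - 1)) / 2 =
        twK G k (KC G k C) x a a * iz Phi (tauX G k x) (dX G k x) a := by
      unfold iz
      rw [← zeF_eq_zN, ← zeF_eq_zN]
      ring
    rw [e4]
    unfold twK
    rw [sum_mul]
    refine sum_congr rfl fun w _ => ?_
    unfold KC
    ring
  -- the transfers
  have h6 : ∀ j : ZMod k, ∑ x ∈ Cyc G k, ∑ w ∈ T G k j x, kap V k *
      (Xi j (tauX G k x j) (msk j (dX G k x)) (ff G k w (x j)) (ff G k (x j) w) -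
        Xi j (tauX G k x j) (msk j (dX G k x)) (ff G k (x j) w) (ff G k w (x j))) = 0 := by
    intro j
    have h := sum_swap (G := G) hk tf j (fun x w => kap V k *
      Xi j (tauX G k x j) (msk j (dX G k x)) (ff G k w (x j)) (ff G k (x j) w))
    have h7 : ∑ x ∈ Cyc G k, ∑ w ∈ T G k j x, kap V k *
        Xi j (tauX G k x j) (msk j (dX G k x)) (ff G k (x j) w) (ff G k w (x j)) =
        ∑ x ∈ Cyc G k, ∑ w ∈ T G k j x, kap V k *
        Xi j (tauX G k x j) (msk j (dX G k x)) (ff G k w (x j)) (ff G k (x j) w) := by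
      rw [← h]
      refine sum_congr rfl fun x hx => sum_congr rfl fun w hw => ?_
      have e1 : tauX G k (Function.update x j w) j = tauX G k x j := by
        unfold tauX
        rw [T_update hk hx hw tf]
      have e2 : msk j (dX G k (Function.update x j w)) = msk j (dX G k x) := by
        funext b
        unfold msk
        by_cases hb : b = j
        · rw [if_pos hb, if_pos hb]
        · rw [if_neg hb, if_neg hb]
          unfold dX
          rw [Function.update_of_ne hb]
      rw [e1, e2, Function.update_self]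
    simp only [mul_sub, sum_sub_distrib]
    rw [h7, sub_self]
  -- the price of the differences, same cycle
  have h8 : ∀ x : ZMod k → V, ∑ y : V, kap V k * ∑ l ∈ Ty G k x y,
        rr (envX G k x) l * DD G k x l y =
      ∑ j : ZMod k, ∑ w ∈ T G k j x, kap V k * (rr (envX G k x) j * ff G k (x j) w) := by
    intro x
    have e2 : ∀ j : ZMod k, ∑ w ∈ T G k j x, kap V k *
        (rr (envX G k x) j * ff G k (x j) w) =
        ∑ y : V, (if G.Adj (x j) y then kap V k *
          (rr (envX G k x) j * DD G k x j y) else 0) := by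
      intro j
      simp_rw [ff, DD, mu_eq_sum, mul_sum, sum_filter]
      unfold nb
      simp_rw [sum_filter]
      rw [sum_comm]
      refine sum_congr rfl fun y _ => ?_
      by_cases h1 : G.Adj (x j) y
      · simp only [h1, if_true]
      · simp only [h1, if_false, sum_const_zero]
    rw [sum_congr rfl fun j _ => e2 j, sum_comm]
    refine sum_congr rfl fun y _ => ?_
    rw [mul_sum]
    have e3 : Ty G k x y = univ.filter (fun l => G.Adj (x l) y) := rfl
    rw [e3, sum_filter]
  have h9 : ∑ x ∈ Cyc G k, ∑ j : ZMod k, ∑ w ∈ T G k j x, kap V k *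
      (Xi j (tauX G k x j) (msk j (dX G k x)) (ff G k w (x j)) (ff G k (x j) w) -
        Xi j (tauX G k x j) (msk j (dX G k x)) (ff G k (x j) w) (ff G k w (x j))) = 0 := by
    rw [sum_comm]
    exact sum_eq_zero fun j _ => h6 j
  rw [h4, sum_congr rfl fun x _ => h8 x]
  have h10 : ∑ x ∈ Cyc G k, ∑ j : ZMod k, ∑ w ∈ T G k j x, kap V k *
        (KFC C (ff G k w (x j)) (ff G k (x j) w) * iz Phi (tauX G k x) (dX G k x) j) =
      ∑ x ∈ Cyc G k, ∑ j : ZMod k, ∑ w ∈ T G k j x, (kap V k *
        (KFC C (ff G k w (x j)) (ff G k (x j) w) * iz Phi (tauX G k x) (dX G k x) j) + kap V k *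
      (Xi j (tauX G k x j) (msk j (dX G k x)) (ff G k w (x j)) (ff G k (x j) w) -
        Xi j (tauX G k x j) (msk j (dX G k x)) (ff G k (x j) w) (ff G k w (x j)))) := by
    simp only [sum_add_distrib]
    rw [h9, add_zero]
  rw [h10, ← sum_add_distrib]
  refine sum_le_sum fun x _ => ?_
  rw [← sum_add_distrib]
  refine sum_le_sum fun j _ => ?_
  rw [← sum_add_distrib]
  refine sum_le_sum fun w _ => ?_
  have a0 := hp (envX G k x) j _ _ (ff_nn (G := G) (k := k) w (x j))
    (ff_nn (G := G) (k := k) (x j) w)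
  have a1 : KFC C (ff G k w (x j)) (ff G k (x j) w) * iz Phi (tauX G k x) (dX G k x) j +
      Xi j (tauX G k x j) (msk j (dX G k x)) (ff G k w (x j)) (ff G k (x j) w) -
      Xi j (tauX G k x j) (msk j (dX G k x)) (ff G k (x j) w) (ff G k w (x j)) ≤
      Hx (envX G k x) j (ff G k w (x j)) (ff G k (x j) w) +
        rr (envX G k x) j * ff G k (x j) w := a0
  have a3 := mul_le_mul_of_nonneg_left a1 (kap_nonneg' (V := V) (k := k))
  linarith

end

/-- **the interface, whole environment, free null functionals** -/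
theorem reductionRowsE {k : ℕ} [NeZero k] (hk : 6 ≤ k) {L : ℕ} (hL : 3 ≤ L) (hLk : L + 3 ≤ k)
    {B B' : ℝ} (g phi : ℝ → ℝ) (hg : ∀ t, 0 ≤ t → t ≤ (k : ℝ) → |g t| ≤ B)
    (hphi : ∀ t, 0 ≤ t → t ≤ (k : ℝ) → |phi t| ≤ B') {C : ℝ → ℝ} (hC : Cost L C)
    {Phi : ℝ → ℝ → ℝ → ℝ} (hpos : ∀ d s t, 0 < Phi d s t)
    (hsymm : ∀ d s t, Phi d s t = Phi d t s) (Xi : Xfer k)
    {Hx : Env k → ZMod k → ℝ → ℝ → ℝ} {rr : Env k → ZMod k → ℝ}
    (hH : ∀ (E : Env k) (j : ZMod k) (s t : ℝ), 0 ≤ s → 0 ≤ t →
      KFC C s t * iz Phi E.tau E.dx j + Xi j (E.tau j) (msk j E.dx) s t -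
        Xi j (E.tau j) (msk j E.dx) t s ≤ Hx E j s t + rr E j * t)
    (pot : Pot k) {chi : Env k → Finset (ZMod k) → Finset (ZMod k) → ℝ}
    (hchi : ∀ E A D, chi E A D + chi E D A = 0)
    (XN : Finset (ZMod k) → (Finset (ZMod k) → ℝ) → Env k → ℝ)
    (XT : ZMod k → (Finset (ZMod k) → ℝ) → Env k → ℝ)
    (hX : ∀ (U : Type) [Fintype U] (G : SimpleGraph U),
      (∀ a b c : U, G.Adj a b → G.Adj b c → ¬ G.Adj a c) →
      ∑ x ∈ Cyc G k, (∑ y ∈ nonT G k x, kap U k * XN (Ty G k x y) (NbM G k x y) (envX G k x) +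
        ∑ j : ZMod k, ∑ w ∈ T G k j x, kap U k * XT j (NbM G k x w) (envX G k x)) ≤ 0)
    (rN : Finset (ZMod k) → Env k → ℝ) (rT : ZMod k → Env k → ℝ)
    (hN : ∀ (A : Finset (ZMod k)) (N : Finset (ZMod k) → ℝ) (E : Env k),
      DataE A N E → (∀ j, A ≠ tT j) →
        rN A E ≤ valNE L C Phi rr pot g phi chi A N E + XN A N E)
    (hT : ∀ (j : ZMod k) (N : Finset (ZMod k) → ℝ) (E : Env k),
      DataE (tT j) N E → rT j E ≤ valTE L Hx rr pot g phi chi j N E + XT j N E)
    (hP : ∀ (U : Type) [Fintype U] (G : SimpleGraph U),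
      (∀ a b c : U, G.Adj a b → G.Adj b c → ¬ G.Adj a c) → ∀ x ∈ Cyc G k,
      posS G k L C Phi phi x ≤
        ∑ y ∈ nonT G k x, kap U k * rN (Ty G k x y) (envX G k x) +
        ∑ j : ZMod k, tauX G k x j * rT j (envX G k x))
    {V : Type} [Fintype V] {G : SimpleGraph V}
    (tf : ∀ a b c : V, G.Adj a b → G.Adj b c → ¬ G.Adj a c) :
    NN G k * kap V k ^ k ≤ 2 * (k : ℝ) := by
  have hk5 : 5 ≤ k := by omega
  refine reductionZc hk hL hLk g phi hg hphi ?_ tf
  intro U _ G tfG
  have hze := zeF_ok (G := G) hk5 tfG Phi hpos hsymm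
  have hXG := hX U G tfG
  refine ⟨KC G k C, zeF G k Phi,
    fun x y => ownC C Phi (Ty G k x y) (NbM G k x y) (tauX G k x) (dX G k x),
    fun x w => (rewN L (-1) (Ty G k x w) (NbM G k x w) + rewN L 1 (Ty G k x w) (NbM G k x w)) / 2,
    fun x w => ∑ l ∈ Ty G k x w, rr (envX G k x) l * DD G k x l w +
      ∑ j : ZMod k, (if w ∈ T G k j x then
        Hx (envX G k x) j (ff G k w (x j)) (ff G k (x j) w) else 0),
    fun x w => flowN pot (Ty G k x w) (NbM G k x w) (tauX G k x) (dX G k x) +
      ∑ D : Finset (ZMod k), NbM G k x w D * chi (envX G k x) (Ty G k x w) D,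
    fun x => ∑ a : ZMod k, tauX G k x (a + 2) * KC G k C (x (a + 2)) (x a) /
      zN Phi (tauX G k x) (dX G k x) (a + 1),
    fun x => (posD G k L C Phi phi x - posD G k L C Phi phi (rfx x)) / 2 +
      (∑ y ∈ nonT G k x, kap U k * XN (Ty G k x y) (NbM G k x y) (envX G k x) +
        ∑ j : ZMod k, ∑ w ∈ T G k j x, kap U k * XT j (NbM G k x w) (envX G k x)),
    Ker_KC hC, fun x hx i => hpos _ _ _, ?_, ?_, ?_, ?_, ?_, ?_, ?_⟩
  · rw [sum_ownZ (KC G k C) hze.symm]
    refine le_of_eq (sum_congr rfl fun x _ => sum_congr rfl fun y _ => ?_)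
    rw [ownC_eq]
  · refine le_trans (le_of_eq ?_) (sum_rewXS (G := G) hk hL)
    refine sum_congr rfl fun x _ => sum_congr rfl fun w _ => ?_
    rw [rewXS_eq]
  · refine (sum_twE hk5 tfG hpos hsymm Xi hH).trans (le_of_eq ?_)
    rw [← sum_add_distrib]
    refine sum_congr rfl fun x _ => ?_
    have e1 : ∑ w : U, kap U k * (∑ l ∈ Ty G k x w, rr (envX G k x) l * DD G k x l w +
        ∑ j : ZMod k, (if w ∈ T G k j x then
        Hx (envX G k x) j (ff G k w (x j)) (ff G k (x j) w) else 0)) =
        ∑ w : U, kap U k * ∑ l ∈ Ty G k x w, rr (envX G k x) l * DD G k x l w +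
        ∑ j : ZMod k, ∑ w : U, (if w ∈ T G k j x then
          kap U k * Hx (envX G k x) j (ff G k w (x j)) (ff G k (x j) w) else 0) := by
      have e0 : ∑ j : ZMod k, ∑ w : U, (if w ∈ T G k j x then
          kap U k * Hx (envX G k x) j (ff G k w (x j)) (ff G k (x j) w) else 0) =
          ∑ w : U, ∑ j : ZMod k, (if w ∈ T G k j x then
          kap U k * Hx (envX G k x) j (ff G k w (x j)) (ff G k (x j) w) else 0) := sum_comm
      rw [e0, ← sum_add_distrib]
      refine sum_congr rfl fun w _ => ?_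
      have e5 : kap U k * ∑ j : ZMod k, (if w ∈ T G k j x then
          Hx (envX G k x) j (ff G k w (x j)) (ff G k (x j) w) else 0) =
          ∑ j : ZMod k, (if w ∈ T G k j x then
          kap U k * Hx (envX G k x) j (ff G k w (x j)) (ff G k (x j) w) else 0) := by
        rw [mul_sum]
        refine sum_congr rfl fun j _ => ?_
        split_ifs
        · rfl
        · rw [mul_zero]
      rw [mul_add, e5]
    rw [e1, add_comm]
    congr 1
    refine sum_congr rfl fun j _ => ?_
    rw [← sum_filter]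
    refine sum_congr ?_ fun _ _ => rfl
    ext w
    simp
  · refine le_of_eq ((sum_tw2_ze hk5 tfG (KC G k C) hze).trans ?_)
    rfl
  · have h1 := potX_sum (G := G) hk5 tfG pot
    have h2 : ∀ x : ZMod k → U, ∑ y : U, kap U k *
        ∑ D : Finset (ZMod k), NbM G k x y D * chi (envX G k x) (Ty G k x y) D = 0 := by
      intro x
      have h3 := sum_chg (G := G) (k := k)
        (fun u v => chi (envX G k x) (Ty G k x u) (Ty G k x v))
        (fun y z _ => hchi _ _ _)
      rw [← h3]
      refine sum_congr rfl fun y _ => ?_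
      rw [chg_types (chi (envX G k x))]
    refine le_of_eq ?_
    rw [← h1]
    refine sum_congr rfl fun x _ => ?_
    simp only [mul_add, sum_add_distrib]
    rw [h2 x, add_zero]
    refine sum_congr rfl fun y _ => ?_
    rw [gflow_eq]
  · have h1 := sum_refl (G := G) (k := k) (posD G k L C Phi phi)
    have h2 : ∑ x ∈ Cyc G k, posD G k L C Phi phi (rfx x) =
        ∑ x ∈ Cyc G k, posD G k L C Phi phi x := h1
    have h3 : ∑ x ∈ Cyc G k, (posD G k L C Phi phi x - posD G k L C Phi phi (rfx x)) / 2 = 0 := by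
      rw [← sum_div, sum_sub_distrib, h2]
      simp
    rw [sum_add_distrib, h3, zero_add]
    exact hXG
  · intro x hx
    have hP' := hP U G tfG x hx
    rw [← posD_rfx hsymm phi x] at hP'
    have hn : ∀ y ∈ nonT G k x, kap U k * rN (Ty G k x y) (envX G k x) ≤
        kap U k * (valNE L C Phi rr pot g phi chi (Ty G k x y) (NbM G k x y) (envX G k x) +
          XN (Ty G k x y) (NbM G k x y) (envX G k x)) := by
      intro y hy
      refine mul_le_mul_of_nonneg_left (hN _ _ _ (dataE_ok hk5 tfG hx y) ?_) kap_nonneg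
      intro j hj
      have h1 : ∀ j : ZMod k, y ∉ T G k j x := by simpa [nonT] using hy
      exact h1 j (bas_mem_T.2 hj)
    have ht : ∀ j : ZMod k, tauX G k x j * rT j (envX G k x) ≤
        ∑ w ∈ T G k j x, kap U k * (valTE L Hx rr pot g phi chi j (NbM G k x w) (envX G k x) +
          XT j (NbM G k x w) (envX G k x)) := by
      intro j
      have e : tauX G k x j * rT j (envX G k x) =
          ∑ w ∈ T G k j x, kap U k * rT j (envX G k x) := by
        unfold tauX
        rw [mu_eq_sum, sum_mul]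
      rw [e]
      refine sum_le_sum fun w hw => mul_le_mul_of_nonneg_left ?_ kap_nonneg
      have hty : Ty G k x w = tT j := bas_mem_T.1 hw
      have hd := dataE_ok hk5 tfG hx w
      rw [hty] at hd
      exact hT j _ _ hd
    have hsn := sum_le_sum hn
    have hst := sum_le_sum fun j (_ : j ∈ (univ : Finset (ZMod k))) => ht j
    have hcl := sum_classes (G := G) hk5 x (fun w => kap U k *
      (comE L rr pot g phi chi (Ty G k x w) (NbM G k x w) (envX G k x)))
    have hvT : ∑ j : ZMod k, ∑ w ∈ T G k j x, kap U k *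
        (valTE L Hx rr pot g phi chi j (NbM G k x w) (envX G k x) +
          XT j (NbM G k x w) (envX G k x)) =
        ∑ j : ZMod k, ∑ w ∈ T G k j x, kap U k * comE L rr pot g phi chi (Ty G k x w)
          (NbM G k x w) (envX G k x) -
        ∑ j : ZMod k, ∑ w ∈ T G k j x, kap U k * Hx (envX G k x) j (ff G k w (x j))
          (ff G k (x j) w) +
        ∑ j : ZMod k, ∑ w ∈ T G k j x, kap U k * XT j (NbM G k x w) (envX G k x) := by
      rw [← sum_sub_distrib, ← sum_add_distrib]
      refine sum_congr rfl fun j _ => ?_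
      rw [← sum_sub_distrib, ← sum_add_distrib]
      refine sum_congr rfl fun w hw => ?_
      have hty : Ty G k x w = tT j := bas_mem_T.1 hw
      have e1 : (envX G k x).dx j = dX G k x j := rfl
      unfold valTE
      rw [hty, e1, ff_eq_N, ff_eq_N']
      ring
    have hvN : ∑ y ∈ nonT G k x, kap U k *
        (valNE L C Phi rr pot g phi chi (Ty G k x y) (NbM G k x y) (envX G k x) +
          XN (Ty G k x y) (NbM G k x y) (envX G k x)) =
        ∑ y ∈ nonT G k x, kap U k * (rD k (Ty G k x y) -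
          ownC C Phi (Ty G k x y) (NbM G k x y) (tauX G k x) (dX G k x)) +
        ∑ y ∈ nonT G k x, kap U k * comE L rr pot g phi chi (Ty G k x y) (NbM G k x y)
          (envX G k x) +
        ∑ y ∈ nonT G k x, kap U k * XN (Ty G k x y) (NbM G k x y) (envX G k x) := by
      rw [← sum_add_distrib, ← sum_add_distrib]
      refine sum_congr rfl fun y _ => ?_
      have e1 : (envX G k x).dx = dX G k x := rfl
      have e2 : (envX G k x).tau = tauX G k x := rfl
      unfold valNE
      rw [e1, e2]
      ring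
    have hTw : ∑ w : U, kap U k * ∑ j : ZMod k, (if w ∈ T G k j x then
        Hx (envX G k x) j (ff G k w (x j)) (ff G k (x j) w) else 0) =
        ∑ j : ZMod k, ∑ w ∈ T G k j x, kap U k * Hx (envX G k x) j (ff G k w (x j))
          (ff G k (x j) w) := by
      simp_rw [mul_sum]
      rw [sum_comm]
      refine sum_congr rfl fun j _ => ?_
      have e : ∀ w : U, kap U k * (if w ∈ T G k j x then
          Hx (envX G k x) j (ff G k w (x j)) (ff G k (x j) w) else 0) =
          if w ∈ T G k j x then kap U k * Hx (envX G k x) j (ff G k w (x j))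
            (ff G k (x j) w) else 0 := by
        intro w
        split_ifs
        · rfl
        · rw [mul_zero]
      rw [sum_congr rfl fun w _ => e w, ← sum_filter]
      refine sum_congr ?_ fun _ _ => rfl
      ext w
      simp
    have hcom : ∑ w : U, kap U k * comE L rr pot g phi chi (Ty G k x w) (NbM G k x w)
          (envX G k x) =
        ∑ w : U, kap U k * ((rewN L (-1) (Ty G k x w) (NbM G k x w) +
            rewN L 1 (Ty G k x w) (NbM G k x w)) / 2 -
          (∑ l ∈ Ty G k x w, rr (envX G k x) l * DD G k x l w) +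
          (flowN pot (Ty G k x w) (NbM G k x w) (tauX G k x) (dX G k x) +
            ∑ D : Finset (ZMod k), NbM G k x w D * chi (envX G k x) (Ty G k x w) D) +
          g (dg G k w) * (((Ty G k x w).card : ℝ) - dg G k w)) -
        ∑ w : U, kap U k * phi (dg G k w) := by
      rw [← sum_sub_distrib]
      refine sum_congr rfl fun w _ => ?_
      unfold comE
      have e1 : (envX G k x).dx = dX G k x := rfl
      have e2 : (envX G k x).tau = tauX G k x := rfl
      have e : ∀ l : ZMod k, DD G k x l w = tauX G k x l - NbM G k x w (tT l) :=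
        fun l => DD_eq_N x l w
      rw [e1, e2]
      simp only [e, ← dg_eq_dN]
      ring
    have hgoal : ∑ w : U, kap U k * ((rewN L (-1) (Ty G k x w) (NbM G k x w) +
            rewN L 1 (Ty G k x w) (NbM G k x w)) / 2 -
          (∑ l ∈ Ty G k x w, rr (envX G k x) l * DD G k x l w +
            ∑ j : ZMod k, (if w ∈ T G k j x then
              Hx (envX G k x) j (ff G k w (x j)) (ff G k (x j) w) else 0)) +
          (flowN pot (Ty G k x w) (NbM G k x w) (tauX G k x) (dX G k x) +
            ∑ D : Finset (ZMod k), NbM G k x w D * chi (envX G k x) (Ty G k x w) D) +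
          g (dg G k w) * (((Ty G k x w).card : ℝ) - dg G k w)) =
        ∑ w : U, kap U k * ((rewN L (-1) (Ty G k x w) (NbM G k x w) +
            rewN L 1 (Ty G k x w) (NbM G k x w)) / 2 -
          (∑ l ∈ Ty G k x w, rr (envX G k x) l * DD G k x l w) +
          (flowN pot (Ty G k x w) (NbM G k x w) (tauX G k x) (dX G k x) +
            ∑ D : Finset (ZMod k), NbM G k x w D * chi (envX G k x) (Ty G k x w) D) +
          g (dg G k w) * (((Ty G k x w).card : ℝ) - dg G k w)) -
        ∑ w : U, kap U k * ∑ j : ZMod k, (if w ∈ T G k j x then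
              Hx (envX G k x) j (ff G k w (x j)) (ff G k (x j) w) else 0) := by
      rw [← sum_sub_distrib]
      refine sum_congr rfl fun w _ => ?_
      ring
    have hcr : ∀ a : ZMod k, crK G k L (KC G k C) (x (a + 2)) (x a) =
        ((cL L (ff G k (x (a + 2)) (x a)) - C (ff G k (x (a + 2)) (x a))) +
          (cL L (ff G k (x a) (x (a + 2))) - C (ff G k (x a) (x (a + 2))))) / 2 := by
      intro a
      have hr : rot a x ∈ Cyc G k := rot_mem_Cyc a hx
      obtain ⟨h1, h2⟩ := ff_pos hk5 tfG hr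
      have e0 : rot a x 0 = x a := by unfold rot; rw [zero_add]
      have e2 : rot a x 2 = x (a + 2) := by unfold rot; rw [add_comm]
      rw [e0, e2] at h1 h2
      exact crK_KC hC h1 h2
    have hposE : PosZ G k L (KC G k C) (zeF G k Phi x) x -
          ∑ a : ZMod k, crK G k L (KC G k C) (x (a + 2)) (x a) +
        ∑ a : ZMod k, tauX G k x (a + 2) * KC G k C (x (a + 2)) (x a) /
          zN Phi (tauX G k x) (dX G k x) (a + 1) =
        posD G k L C Phi phi x + ∑ j : ZMod k, phi (dg G k (x j)) := by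
      rw [sum_congr rfl fun a _ => hcr a]
      unfold PosZ posD winX
      have e2 : ∀ i : ZMod k, zeF G k Phi x i = zN Phi (tauX G k x) (dX G k x) i := fun _ => rfl
      have e3 : ∀ j : ZMod k, mu k (T G k j x) = tauX G k x j := fun _ => rfl
      have e4 : ∀ j : ZMod k, dg G k (x j) = dX G k x j := fun _ => rfl
      simp only [e2, e3, e4, sum_add_distrib, sum_sub_distrib]
      ring
    rw [hposE, hgoal, hTw]
    rw [hcom] at hcl
    rw [hvN] at hsn
    rw [hvT] at hst
    linarith

end

end Pool.Agent.ICyc.D
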