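import Pool.Agent.Lib.MP_131fce_co.D.Rows3

/-!
# Induced k-cycles in triangle-free graphs: the interface, final form

The position block is a function of the environment alone.  The members of the classes get no
reward in their rows; their rewards pay for the windows, which therefore count with the full mass
of the classes.
-/

set_option autoImplicit false

namespace Pool.Agent.ICyc.D

open Finset Pool.Agent.ICyc
open scoped Classical

noncomputable section

section

variable {V : Type} [Fintype V] {G : SimpleGraph V} {k : ℕ} [NeZero k]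

/-- **the interface, one inequality for every cycle** -/
theorem reductionRowsG {k : ℕ} [NeZero k] (hk : 6 ≤ k) {L : ℕ} (hL : 3 ≤ L) (hLk : L + 3 ≤ k)
    {B B' : ℝ} (g phi : ℝ → ℝ) (hg : ∀ t, 0 ≤ t → t ≤ (k : ℝ) → |g t| ≤ B)
    (hphi : ∀ t, 0 ≤ t → t ≤ (k : ℝ) → |phi t| ≤ B') {C : ℝ → ℝ} (hC : Cost L C)
    {Phi : ℝ → ℝ → ℝ → ℝ} (hpos : ∀ d s t, 0 < Phi d s t)
    (hsymm : ∀ d s t, Phi d s t = Phi d t s) (Xi : Xfer k)
    {Hx : Env k → ZMod k → ℝ → ℝ → ℝ} {rr : Env k → ZMod k → ℝ}
    (hH : ∀ (E : Env k) (j : ZMod k) (s t : ℝ), 0 ≤ s → 0 ≤ t →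
      KFC C s t * iz Phi E.tau E.dx j + Xi j (E.tau j) (msk j E.dx) s t -
        Xi j (E.tau j) (msk j E.dx) t s ≤ Hx E j s t + rr E j * t)
    (pot : Pot k) {chi : Env k → Finset (ZMod k) → Finset (ZMod k) → ℝ}
    (hchi : ∀ E A D, chi E A D + chi E D A = 0)
    (XN : Finset (ZMod k) → (Finset (ZMod k) → ℝ) → Env k → ℝ)
    (XT : ZMod k → (Finset (ZMod k) → ℝ) → Env k → ℝ)
    (hX : ∀ (U : Type) [Fintype U] (G : SimpleGraph U),
      (∀ a b c : U, G.Adj a b → G.Adj b c → ¬ G.Adj a c) →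
      ∑ x ∈ Cyc G k, (∑ y ∈ nonT G k x, kap U k * XN (Ty G k x y) (NbM G k x y) (envX G k x) +
        ∑ j : ZMod k, ∑ w ∈ T G k j x, kap U k * XT j (NbM G k x w) (envX G k x)) ≤ 0)
    (hAll : ∀ (U : Type) [Fintype U] (G : SimpleGraph U),
      (∀ a b c : U, G.Adj a b → G.Adj b c → ¬ G.Adj a c) → ∀ x ∈ Cyc G k,
      posS G k L C Phi phi x ≤
        ∑ y ∈ nonT G k x, kap U k *
          (valNE L C Phi rr pot g phi chi (Ty G k x y) (NbM G k x y) (envX G k x) +
            XN (Ty G k x y) (NbM G k x y) (envX G k x)) +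
        ∑ j : ZMod k, ∑ w ∈ T G k j x, kap U k *
          (valTE L Hx rr pot g phi chi j (NbM G k x w) (envX G k x) +
            XT j (NbM G k x w) (envX G k x)))
    {V : Type} [Fintype V] {G : SimpleGraph V}
    (tf : ∀ a b c : V, G.Adj a b → G.Adj b c → ¬ G.Adj a c) :
    NN G k * kap V k ^ k ≤ 2 * (k : ℝ) := by
  have hk5 : 5 ≤ k := by omega
  refine reductionZc hk hL hLk g phi hg hphi ?_ tf
  intro U _ G tfG
  have hze := zeF_ok (G := G) hk5 tfG Phi hpos hsymm
  have hXG := hX U G tfG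
  refine ⟨KC G k C, zeF G k Phi,
    fun x y => ownC C Phi (Ty G k x y) (NbM G k x y) (tauX G k x) (dX G k x),
    fun x w => (rewN L (-1) (Ty G k x w) (NbM G k x w) + rewN L 1 (Ty G k x w) (NbM G k x w)) / 2,
    fun x w => ∑ l ∈ Ty G k x w, rr (envX G k x) l * DD G k x l w +
      ∑ j : ZMod k, (if w ∈ T G k j x then
        Hx (envX G k x) j (ff G k w (x j)) (ff G k (x j) w) else 0),
    fun x w => flowN pot (Ty G k x w) (NbM G k x w) (tauX G k x) (dX G k x) +
      ∑ D : Finset (ZMod k), NbM G k x w D * chi (envX G k x) (Ty G k x w) D,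
    fun x => ∑ a : ZMod k, tauX G k x (a + 2) * KC G k C (x (a + 2)) (x a) /
      zN Phi (tauX G k x) (dX G k x) (a + 1),
    fun x => (posD G k L C Phi phi x - posD G k L C Phi phi (rfx x)) / 2 +
      (∑ y ∈ nonT G k x, kap U k * XN (Ty G k x y) (NbM G k x y) (envX G k x) +
        ∑ j : ZMod k, ∑ w ∈ T G k j x, kap U k * XT j (NbM G k x w) (envX G k x)),
    Ker_KC hC, fun x hx i => hpos _ _ _, ?_, ?_, ?_, ?_, ?_, ?_, ?_⟩
  · rw [sum_ownZ (KC G k C) hze.symm]
    refine le_of_eq (sum_congr rfl fun x _ => sum_congr rfl fun y _ => ?_)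
    rw [ownC_eq]
  · refine le_trans (le_of_eq ?_) (sum_rewXS (G := G) hk hL)
    refine sum_congr rfl fun x _ => sum_congr rfl fun w _ => ?_
    rw [rewXS_eq]
  · refine (sum_twE hk5 tfG hpos hsymm Xi hH).trans (le_of_eq ?_)
    rw [← sum_add_distrib]
    refine sum_congr rfl fun x _ => ?_
    have e1 : ∑ w : U, kap U k * (∑ l ∈ Ty G k x w, rr (envX G k x) l * DD G k x l w +
        ∑ j : ZMod k, (if w ∈ T G k j x then
        Hx (envX G k x) j (ff G k w (x j)) (ff G k (x j) w) else 0)) =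
        ∑ w : U, kap U k * ∑ l ∈ Ty G k x w, rr (envX G k x) l * DD G k x l w +
        ∑ j : ZMod k, ∑ w : U, (if w ∈ T G k j x then
          kap U k * Hx (envX G k x) j (ff G k w (x j)) (ff G k (x j) w) else 0) := by
      have e0 : ∑ j : ZMod k, ∑ w : U, (if w ∈ T G k j x then
          kap U k * Hx (envX G k x) j (ff G k w (x j)) (ff G k (x j) w) else 0) =
          ∑ w : U, ∑ j : ZMod k, (if w ∈ T G k j x then
          kap U k * Hx (envX G k x) j (ff G k w (x j)) (ff G k (x j) w) else 0) := sum_comm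
      rw [e0, ← sum_add_distrib]
      refine sum_congr rfl fun w _ => ?_
      have e5 : kap U k * ∑ j : ZMod k, (if w ∈ T G k j x then
          Hx (envX G k x) j (ff G k w (x j)) (ff G k (x j) w) else 0) =
          ∑ j : ZMod k, (if w ∈ T G k j x then
          kap U k * Hx (envX G k x) j (ff G k w (x j)) (ff G k (x j) w) else 0) := by
        rw [mul_sum]
        refine sum_congr rfl fun j _ => ?_
        split_ifs
        · rfl
        · rw [mul_zero]
      rw [mul_add, e5]
    rw [e1, add_comm]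
    congr 1
    refine sum_congr rfl fun j _ => ?_
    rw [← sum_filter]
    refine sum_congr ?_ fun _ _ => rfl
    ext w
    simp
  · refine le_of_eq ((sum_tw2_ze hk5 tfG (KC G k C) hze).trans ?_)
    rfl
  · have h1 := potX_sum (G := G) hk5 tfG pot
    have h2 : ∀ x : ZMod k → U, ∑ y : U, kap U k *
        ∑ D : Finset (ZMod k), NbM G k x y D * chi (envX G k x) (Ty G k x y) D = 0 := by
      intro x
      have h3 := sum_chg (G := G) (k := k)
        (fun u v => chi (envX G k x) (Ty G k x u) (Ty G k x v))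
        (fun y z _ => hchi _ _ _)
      rw [← h3]
      refine sum_congr rfl fun y _ => ?_
      rw [chg_types (chi (envX G k x))]
    refine le_of_eq ?_
    rw [← h1]
    refine sum_congr rfl fun x _ => ?_
    simp only [mul_add, sum_add_distrib]
    rw [h2 x, add_zero]
    refine sum_congr rfl fun y _ => ?_
    rw [gflow_eq]
  · have h1 := sum_refl (G := G) (k := k) (posD G k L C Phi phi)
    have h2 : ∑ x ∈ Cyc G k, posD G k L C Phi phi (rfx x) =
        ∑ x ∈ Cyc G k, posD G k L C Phi phi x := h1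
    have h3 : ∑ x ∈ Cyc G k, (posD G k L C Phi phi x - posD G k L C Phi phi (rfx x)) / 2 = 0 := by
      rw [← sum_div, sum_sub_distrib, h2]
      simp
    rw [sum_add_distrib, h3, zero_add]
    exact hXG
  · intro x hx
    have hP' := hAll U G tfG x hx
    rw [← posD_rfx hsymm phi x] at hP'
    have hcl := sum_classes (G := G) hk5 x (fun w => kap U k *
      (comE L rr pot g phi chi (Ty G k x w) (NbM G k x w) (envX G k x)))
    have hvT : ∑ j : ZMod k, ∑ w ∈ T G k j x, kap U k *
        (valTE L Hx rr pot g phi chi j (NbM G k x w) (envX G k x) +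
          XT j (NbM G k x w) (envX G k x)) =
        ∑ j : ZMod k, ∑ w ∈ T G k j x, kap U k * comE L rr pot g phi chi (Ty G k x w)
          (NbM G k x w) (envX G k x) -
        ∑ j : ZMod k, ∑ w ∈ T G k j x, kap U k * Hx (envX G k x) j (ff G k w (x j))
          (ff G k (x j) w) +
        ∑ j : ZMod k, ∑ w ∈ T G k j x, kap U k * XT j (NbM G k x w) (envX G k x) := by
      rw [← sum_sub_distrib, ← sum_add_distrib]
      refine sum_congr rfl fun j _ => ?_
      rw [← sum_sub_distrib, ← sum_add_distrib]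
      refine sum_congr rfl fun w hw => ?_
      have hty : Ty G k x w = tT j := bas_mem_T.1 hw
      have e1 : (envX G k x).dx j = dX G k x j := rfl
      unfold valTE
      rw [hty, e1, ff_eq_N, ff_eq_N']
      ring
    have hvN : ∑ y ∈ nonT G k x, kap U k *
        (valNE L C Phi rr pot g phi chi (Ty G k x y) (NbM G k x y) (envX G k x) +
          XN (Ty G k x y) (NbM G k x y) (envX G k x)) =
        ∑ y ∈ nonT G k x, kap U k * (rD k (Ty G k x y) -
          ownC C Phi (Ty G k x y) (NbM G k x y) (tauX G k x) (dX G k x)) +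
        ∑ y ∈ nonT G k x, kap U k * comE L rr pot g phi chi (Ty G k x y) (NbM G k x y)
          (envX G k x) +
        ∑ y ∈ nonT G k x, kap U k * XN (Ty G k x y) (NbM G k x y) (envX G k x) := by
      rw [← sum_add_distrib, ← sum_add_distrib]
      refine sum_congr rfl fun y _ => ?_
      have e1 : (envX G k x).dx = dX G k x := rfl
      have e2 : (envX G k x).tau = tauX G k x := rfl
      unfold valNE
      rw [e1, e2]
      ring
    have hTw : ∑ w : U, kap U k * ∑ j : ZMod k, (if w ∈ T G k j x then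
        Hx (envX G k x) j (ff G k w (x j)) (ff G k (x j) w) else 0) =
        ∑ j : ZMod k, ∑ w ∈ T G k j x, kap U k * Hx (envX G k x) j (ff G k w (x j))
          (ff G k (x j) w) := by
      simp_rw [mul_sum]
      rw [sum_comm]
      refine sum_congr rfl fun j _ => ?_
      have e : ∀ w : U, kap U k * (if w ∈ T G k j x then
          Hx (envX G k x) j (ff G k w (x j)) (ff G k (x j) w) else 0) =
          if w ∈ T G k j x then kap U k * Hx (envX G k x) j (ff G k w (x j))
            (ff G k (x j) w) else 0 := by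
        intro w
        split_ifs
        · rfl
        · rw [mul_zero]
      rw [sum_congr rfl fun w _ => e w, ← sum_filter]
      refine sum_congr ?_ fun _ _ => rfl
      ext w
      simp
    have hcom : ∑ w : U, kap U k * comE L rr pot g phi chi (Ty G k x w) (NbM G k x w)
          (envX G k x) =
        ∑ w : U, kap U k * ((rewN L (-1) (Ty G k x w) (NbM G k x w) +
            rewN L 1 (Ty G k x w) (NbM G k x w)) / 2 -
          (∑ l ∈ Ty G k x w, rr (envX G k x) l * DD G k x l w) +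
          (flowN pot (Ty G k x w) (NbM G k x w) (tauX G k x) (dX G k x) +
            ∑ D : Finset (ZMod k), NbM G k x w D * chi (envX G k x) (Ty G k x w) D) +
          g (dg G k w) * (((Ty G k x w).card : ℝ) - dg G k w)) -
        ∑ w : U, kap U k * phi (dg G k w) := by
      rw [← sum_sub_distrib]
      refine sum_congr rfl fun w _ => ?_
      unfold comE
      have e1 : (envX G k x).dx = dX G k x := rfl
      have e2 : (envX G k x).tau = tauX G k x := rfl
      have e : ∀ l : ZMod k, DD G k x l w = tauX G k x l - NbM G k x w (tT l) :=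
        fun l => DD_eq_N x l w
      rw [e1, e2]
      simp only [e, ← dg_eq_dN]
      ring
    have hgoal : ∑ w : U, kap U k * ((rewN L (-1) (Ty G k x w) (NbM G k x w) +
            rewN L 1 (Ty G k x w) (NbM G k x w)) / 2 -
          (∑ l ∈ Ty G k x w, rr (envX G k x) l * DD G k x l w +
            ∑ j : ZMod k, (if w ∈ T G k j x then
              Hx (envX G k x) j (ff G k w (x j)) (ff G k (x j) w) else 0)) +
          (flowN pot (Ty G k x w) (NbM G k x w) (tauX G k x) (dX G k x) +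
            ∑ D : Finset (ZMod k), NbM G k x w D * chi (envX G k x) (Ty G k x w) D) +
          g (dg G k w) * (((Ty G k x w).card : ℝ) - dg G k w)) =
        ∑ w : U, kap U k * ((rewN L (-1) (Ty G k x w) (NbM G k x w) +
            rewN L 1 (Ty G k x w) (NbM G k x w)) / 2 -
          (∑ l ∈ Ty G k x w, rr (envX G k x) l * DD G k x l w) +
          (flowN pot (Ty G k x w) (NbM G k x w) (tauX G k x) (dX G k x) +
            ∑ D : Finset (ZMod k), NbM G k x w D * chi (envX G k x) (Ty G k x w) D) +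
          g (dg G k w) * (((Ty G k x w).card : ℝ) - dg G k w)) -
        ∑ w : U, kap U k * ∑ j : ZMod k, (if w ∈ T G k j x then
              Hx (envX G k x) j (ff G k w (x j)) (ff G k (x j) w) else 0) := by
      rw [← sum_sub_distrib]
      refine sum_congr rfl fun w _ => ?_
      ring
    have hcr : ∀ a : ZMod k, crK G k L (KC G k C) (x (a + 2)) (x a) =
        ((cL L (ff G k (x (a + 2)) (x a)) - C (ff G k (x (a + 2)) (x a))) +
          (cL L (ff G k (x a) (x (a + 2))) - C (ff G k (x a) (x (a + 2))))) / 2 := by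
      intro a
      have hr : rot a x ∈ Cyc G k := rot_mem_Cyc a hx
      obtain ⟨h1, h2⟩ := ff_pos hk5 tfG hr
      have e0 : rot a x 0 = x a := by unfold rot; rw [zero_add]
      have e2 : rot a x 2 = x (a + 2) := by unfold rot; rw [add_comm]
      rw [e0, e2] at h1 h2
      exact crK_KC hC h1 h2
    have hposE : PosZ G k L (KC G k C) (zeF G k Phi x) x -
          ∑ a : ZMod k, crK G k L (KC G k C) (x (a + 2)) (x a) +
        ∑ a : ZMod k, tauX G k x (a + 2) * KC G k C (x (a + 2)) (x a) /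
          zN Phi (tauX G k x) (dX G k x) (a + 1) =
        posD G k L C Phi phi x + ∑ j : ZMod k, phi (dg G k (x j)) := by
      rw [sum_congr rfl fun a _ => hcr a]
      unfold PosZ posD winX
      have e2 : ∀ i : ZMod k, zeF G k Phi x i = zN Phi (tauX G k x) (dX G k x) i := fun _ => rfl
      have e3 : ∀ j : ZMod k, mu k (T G k j x) = tauX G k x j := fun _ => rfl
      have e4 : ∀ j : ZMod k, dg G k (x j) = dX G k x j := fun _ => rfl
      simp only [e2, e3, e4, sum_add_distrib, sum_sub_distrib]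
      ring
    rw [hposE, hgoal, hTw]
    rw [hcom] at hcl
    rw [hvN, hvT] at hP'
    linarith


end

section

variable {k : ℕ} [NeZero k]

/-- mass of the types that contain `a` and `a + 2` -/
def pmE (E : Env k) (a : ZMod k) : ℝ :=
  ∑ B ∈ univ.filter (fun B : Finset (ZMod k) => a ∈ B ∧ a + 2 ∈ B), E.m B

/-- the difference of the position `a + 2` with respect to the position `a` -/
def fUp (E : Env k) (a : ZMod k) : ℝ := E.dx (a + 2) - pmE E a

/-- the difference of the position `a` with respect to the position `a + 2` -/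
def fDn (E : Env k) (a : ZMod k) : ℝ := E.dx a - pmE E a

/-- one pair of positions at distance two -/
def pairE (L : ℕ) (C : ℝ → ℝ) (Phi : ℝ → ℝ → ℝ → ℝ) (E : Env k) (a : ZMod k) : ℝ :=
  1 - (E.tau a + E.tau (a + 2)) / 2 - KFC C (fUp E a) (fDn E a) +
    (E.tau a + E.tau (a + 2)) / 2 * KFC C (fUp E a) (fDn E a) / zN Phi E.tau E.dx (a + 1) +
    Real.log (zN Phi E.tau E.dx (a + 1)) -
    ((cL L (fUp E a) - C (fUp E a)) + (cL L (fDn E a) - C (fDn E a))) / 2

/-- the position block -/
def posE (L : ℕ) (C : ℝ → ℝ) (Phi : ℝ → ℝ → ℝ → ℝ) (phi : ℝ → ℝ) (E : Env k) : ℝ :=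
  ∑ a : ZMod k, pairE L C Phi E a -
    ∑ a : ZMod k, (JJ (E.dx a / 2) + JJ (E.tau a) + phi (E.dx a)) -
    ((k : ℝ) - 5) * ∑ a : ZMod k, JJ (max 1 (E.tau a))

/-- what is known about the environment -/
structure EnvOK (E : Env k) : Prop where
  tau_pos : ∀ l, 0 < E.tau l
  m_T : ∀ l, E.m (tT l) = E.tau l
  m_nn : ∀ B, 0 ≤ E.m B
  m_sum : ∑ B : Finset (ZMod k), E.m B = (k : ℝ)
  m_ind : ∀ B, E.m B ≠ 0 → ∀ i ∈ B, i + 1 ∉ B
  m_dx : ∀ b, ∑ B ∈ univ.filter (fun B : Finset (ZMod k) => b ∈ B), E.m B = E.dx b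
  dx_le_k : ∀ b, E.dx b ≤ (k : ℝ)

lemma DataE.env {A : Finset (ZMod k)} {N : Finset (ZMod k) → ℝ} {E : Env k}
    (h : DataE A N E) : EnvOK E where
  tau_pos := h.pos
  m_T := h.m_T
  m_nn := h.m_nn
  m_sum := h.m_sum
  m_ind := h.m_ind
  m_dx := h.m_dx
  dx_le_k := h.dx_le_k

/-- value of a member of the class `j`, without reward -/
def valTR (Hx : Env k → ZMod k → ℝ → ℝ → ℝ) (rr : Env k → ZMod k → ℝ)
    (pot : Pot k) (g phi : ℝ → ℝ) (chi : Env k → Finset (ZMod k) → Finset (ZMod k) → ℝ)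
    (j : ZMod k) (N : Finset (ZMod k) → ℝ) (E : Env k) : ℝ :=
  -∑ l ∈ (tT j : Finset (ZMod k)), rr E l * (E.tau l - N (tT l)) +
    flowN pot (tT j) N E.tau E.dx + g (dN N) * (((tT j : Finset (ZMod k)).card : ℝ) - dN N) +
    ∑ B : Finset (ZMod k), N B * chi E (tT j) B - phi (dN N) -
    Hx E j (dN N - cN N j) (E.dx j - cN N j)

lemma valTE_eq (L : ℕ) (Hx : Env k → ZMod k → ℝ → ℝ → ℝ) (rr : Env k → ZMod k → ℝ)
    (pot : Pot k) (g phi : ℝ → ℝ) (chi : Env k → Finset (ZMod k) → Finset (ZMod k) → ℝ)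
    (j : ZMod k) (N : Finset (ZMod k) → ℝ) (E : Env k) :
    valTE L Hx rr pot g phi chi j N E =
      (rewN L (-1) (tT j) N + rewN L 1 (tT j) N) / 2 + valTR Hx rr pot g phi chi j N E := by
  unfold valTE valTR comE
  ring

end

section

variable {V : Type} [Fintype V] {G : SimpleGraph V} {k : ℕ} [NeZero k]

/-- the environment of a cycle -/
theorem env_ok (hk : 5 ≤ k) (tf : ∀ a b c : V, G.Adj a b → G.Adj b c → ¬ G.Adj a c)
    {x : ZMod k → V} (hx : x ∈ Cyc G k) : EnvOK (envX G k x) :=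
  (dataE_ok hk tf hx (x 0)).env

lemma JJ_max_add {t r : ℝ} (hr : 0 ≤ r) : JJ (max 1 (t + r)) ≤ JJ (max 1 t) + r := by
  have h1 : (1 : ℝ) ≤ max 1 t := le_max_left _ _
  have h2 : max 1 (t + r) ≤ max 1 t + r := max_le (by linarith) (by linarith [le_max_right 1 t])
  have h3 : max 1 t ≤ max 1 (t + r) := max_le_max le_rfl (by linarith)
  have h4 : Real.log (max 1 t) ≤ Real.log (max 1 (t + r)) :=
    Real.log_le_log (by linarith) h3
  unfold JJ
  linarith

lemma JJ_mono_one {s t : ℝ} (hs : 1 ≤ s) (h : s ≤ t) : JJ s ≤ JJ t := by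
  have hs0 : 0 < s := by linarith
  have ht0 : 0 < t := by linarith
  have h1 : Real.log (t / s) ≤ t / s - 1 := Real.log_le_sub_one_of_pos (by positivity)
  have h2 : Real.log (t / s) = Real.log t - Real.log s :=
    Real.log_div (by linarith) (by linarith)
  have h3 : t / s - 1 ≤ t - s := by
    have e : t / s - 1 = (t - s) / s := by field_simp
    rw [e]
    exact div_le_self (by linarith) hs
  unfold JJ
  linarith

/-- the rewards of a set of vertices, window by window -/
lemma rewX_split (x : ZMod k → V) {L : ℕ} (hL : 3 ≤ L) (S : Finset V) :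
    ∑ w ∈ S, kap V k * rewX G k L x w =
      ∑ l ∈ Icc L (k - 4), ∑ a : ZMod k,
        kap V k * ∑ y ∈ (F G k l (rot a x)).filter (fun y => y ∈ S),
          (1 - gL G k L l (rot a x) y) := by
  have h1 : ∀ l ∈ Icc L (k - 4), ∀ i : ZMod k, kap V k * ∑ w ∈ S,
      (if i ∈ Ty G k x w ∧ fst G k x i w l then 1 - psi (min 1 (visM G k x i l w)) else 0) =
        kap V k * ∑ y ∈ (F G k l (rot (i - (l : ZMod k)) x)).filter (fun y => y ∈ S),
          (1 - gL G k L l (rot (i - (l : ZMod k)) x) y) := by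
    intro l hl i
    rw [mem_Icc] at hl
    congr 1
    rw [← sum_filter]
    have e : S.filter (fun w : V => i ∈ Ty G k x w ∧ fst G k x i w l) =
        (F G k l (rot (i - (l : ZMod k)) x)).filter (fun y => y ∈ S) := by
      ext w
      rw [mem_filter, mem_filter, mem_F_rot, and_comm]
    rw [e]
    refine sum_congr rfl fun w _ => ?_
    unfold gL
    rw [if_pos ⟨hl.1, by omega⟩, rho_eq_visM]
  have h2 : ∀ l : ℕ, ∑ i : ZMod k,
      kap V k * ∑ y ∈ (F G k l (rot (i - (l : ZMod k)) x)).filter (fun y => y ∈ S),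
        (1 - gL G k L l (rot (i - (l : ZMod k)) x) y) =
      ∑ a : ZMod k, kap V k * ∑ y ∈ (F G k l (rot a x)).filter (fun y => y ∈ S),
        (1 - gL G k L l (rot a x) y) := fun l =>
    Equiv.sum_comp (Equiv.subRight (l : ZMod k)) (fun a => kap V k *
      ∑ y ∈ (F G k l (rot a x)).filter (fun y => y ∈ S), (1 - gL G k L l (rot a x) y))
  rw [← sum_congr rfl fun l _ => h2 l, ← sum_congr rfl fun l hl => sum_congr rfl fun i _ =>
    h1 l hl i]
  have h3 : ∀ w : V, rewX G k L x w = ∑ l ∈ Icc L (k - 4), ∑ i : ZMod k,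
      (if i ∈ Ty G k x w ∧ fst G k x i w l then 1 - psi (min 1 (visM G k x i l w)) else 0) := by
    intro w
    unfold rewX
    rw [sum_comm]
    have e : ∀ i : ZMod k, ∑ l ∈ Icc L (k - 4), (if i ∈ Ty G k x w ∧ fst G k x i w l then
        1 - psi (min 1 (visM G k x i l w)) else 0) = if i ∈ Ty G k x w then
        ∑ l ∈ (Icc L (k - 4)).filter (fst G k x i w), (1 - psi (min 1 (visM G k x i l w)))
        else 0 := by
      intro i
      by_cases h : i ∈ Ty G k x w
      · rw [if_pos h, sum_filter]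
        exact sum_congr rfl fun l _ => by simp [h]
      · rw [if_neg h]
        exact sum_eq_zero fun l _ => if_neg fun h' => h h'.1
    rw [sum_congr rfl fun i _ => e i, ← sum_filter]
    congr 1
    ext i
    simp
  simp_rw [← mul_sum]
  congr 1
  rw [sum_congr rfl fun w _ => h3 w, sum_comm]
  refine sum_congr rfl fun l _ => ?_
  rw [sum_comm]


/-- members of the classes -/
def TT (G : SimpleGraph V) (k : ℕ) [NeZero k] (x : ZMod k → V) : Finset V := (nonT G k x)ᶜ

lemma mem_TT {x : ZMod k → V} {w : V} : w ∈ TT G k x ↔ ∃ j, w ∈ T G k j x := by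
  unfold TT nonT
  rw [mem_compl, mem_filter]
  simp

lemma T_subset_F {l : ℕ} (hl : l + 3 ≤ k) (x : ZMod k → V) :
    T G k ((l + 1 : ℕ) : ZMod k) x ⊆ F G k l x := by
  intro w hw
  have hcast : ∀ i j : ℕ, i < k → j < k → ((i : ℕ) : ZMod k) = ((j : ℕ) : ZMod k) → i = j := by
    intro i j hi hj h
    have h2 := (ZMod.natCast_eq_natCast_iff' i j k).1 h
    rwa [Nat.mod_eq_of_lt hi, Nat.mod_eq_of_lt hj] at h2
  rw [bas_mem_F]
  have hadj := rot_adj_of_mem_T hw
  refine ⟨fun i hi h => ?_, ?_⟩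
  · rcases (hadj _).1 h with h1 | h1
    · have e : ((l + 1 : ℕ) : ZMod k) - 1 = ((l : ℕ) : ZMod k) := by push_cast; ring
      rw [e] at h1
      have := hcast i l (by omega) (by omega) h1
      omega
    · have e : ((l + 1 : ℕ) : ZMod k) + 1 = ((l + 2 : ℕ) : ZMod k) := by push_cast; ring
      rw [e] at h1
      have := hcast i (l + 2) (by omega) (by omega) h1
      omega
  · rw [hadj]
    left
    push_cast
    ring

omit [Fintype V] in
lemma sum_filter_sub (A : Finset V) (S : Finset V) (f : V → ℝ) (hf : ∀ y ∈ A, 0 ≤ f y) :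
    ((A.filter (fun y => y ∈ S)).card : ℝ) ≤
      ∑ y ∈ A, f y + ∑ y ∈ A.filter (fun y => y ∈ S), (1 - f y) := by
  have h1 : ∑ y ∈ A.filter (fun y => y ∈ S), f y ≤ ∑ y ∈ A, f y :=
    sum_le_sum_of_subset_of_nonneg (filter_subset _ _) fun y hy _ => hf y hy
  rw [sum_sub_distrib, sum_const, nsmul_eq_mul, mul_one]
  linarith

/-- windows and the rewards of the members of the classes, one direction -/
theorem win_TT (hk : 6 ≤ k) (x : ZMod k → V) {L : ℕ} (hL : 3 ≤ L) :
    ((k : ℝ) - 5) * ∑ j : ZMod k, JJ (max 1 (tauX G k x j)) ≤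
      winX G k L x + ∑ w ∈ TT G k x, kap V k * rewX G k L x w := by
  have h0 : ∀ l ∈ Icc 3 (k - 3), ∀ a : ZMod k,
      JJ (max 1 (tauX G k x (a + ((l + 1 : ℕ) : ZMod k)))) ≤
        JJ (max 1 (mu k (F G k l (rot a x)) - RL G k L l (rot a x))) +
        kap V k * ∑ y ∈ (F G k l (rot a x)).filter (fun y => y ∈ TT G k x),
          (1 - gL G k L l (rot a x) y) := by
    intro l hl a
    rw [mem_Icc] at hl
    set R : ℝ := kap V k * ∑ y ∈ (F G k l (rot a x)).filter (fun y => y ∈ TT G k x),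
          (1 - gL G k L l (rot a x) y) with hR
    have hR0 : 0 ≤ R := mul_nonneg kap_nonneg'
      (sum_nonneg fun y _ => by linarith [gL_le_one (G := G) L l (rot a x) y])
    have h2 : tauX G k x (a + ((l + 1 : ℕ) : ZMod k)) ≤
        mu k (F G k l (rot a x)) - RL G k L l (rot a x) + R := by
      rw [← sum_gL, hR, ← mul_add]
      have h3 := sum_filter_sub (F G k l (rot a x)) (TT G k x) (gL G k L l (rot a x))
        (fun y _ => gL_nonneg _ _ _ _)
      refine le_trans ?_ (mul_le_mul_of_nonneg_left h3 kap_nonneg')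
      unfold tauX mu
      refine mul_le_mul_of_nonneg_left ?_ kap_nonneg'
      have h4 : T G k (a + ((l + 1 : ℕ) : ZMod k)) x ⊆
          (F G k l (rot a x)).filter (fun y => y ∈ TT G k x) := by
        intro y hy
        rw [mem_filter]
        refine ⟨?_, mem_TT.2 ⟨_, hy⟩⟩
        apply T_subset_F (G := G) (l := l) (by omega) (rot a x)
        rw [T_rot, add_comm]
        exact hy
      exact_mod_cast card_le_card h4
    calc JJ (max 1 (tauX G k x (a + ((l + 1 : ℕ) : ZMod k))))
        ≤ JJ (max 1 (mu k (F G k l (rot a x)) - RL G k L l (rot a x) + R)) :=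
          JJ_mono_one (le_max_left _ _) (max_le_max le_rfl h2)
      _ ≤ _ := JJ_max_add hR0
  have h1 := sum_le_sum fun l hl => sum_le_sum fun a (_ : a ∈ (univ : Finset (ZMod k))) =>
    h0 l hl a
  have e1 : ∑ l ∈ Icc 3 (k - 3), ∑ a : ZMod k,
      JJ (max 1 (tauX G k x (a + ((l + 1 : ℕ) : ZMod k)))) =
      ((k : ℝ) - 5) * ∑ j : ZMod k, JJ (max 1 (tauX G k x j)) := by
    have e2 : ∀ l : ℕ, ∑ a : ZMod k, JJ (max 1 (tauX G k x (a + ((l + 1 : ℕ) : ZMod k)))) =
        ∑ j : ZMod k, JJ (max 1 (tauX G k x j)) := fun l =>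
      Equiv.sum_comp (Equiv.addRight ((l + 1 : ℕ) : ZMod k))
        (fun j => JJ (max 1 (tauX G k x j)))
    rw [sum_congr rfl fun l _ => e2 l, sum_const, nsmul_eq_mul, Nat.card_Icc]
    congr 1
    have e3 : k - 3 + 1 - 3 = k - 5 := by omega
    rw [e3, Nat.cast_sub (by omega)]
    norm_num
  have e2 : ∑ l ∈ Icc 3 (k - 3), ∑ a : ZMod k,
      (JJ (max 1 (mu k (F G k l (rot a x)) - RL G k L l (rot a x))) +
        kap V k * ∑ y ∈ (F G k l (rot a x)).filter (fun y => y ∈ TT G k x),
          (1 - gL G k L l (rot a x) y)) =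
      winX G k L x + ∑ w ∈ TT G k x, kap V k * rewX G k L x w := by
    simp only [sum_add_distrib]
    congr 1
    · unfold winX
      rw [sum_comm]
    · rw [rewX_split x hL]
      symm
      refine sum_subset ?_ ?_
      · intro l hl
        rw [mem_Icc] at hl ⊢
        omega
      · intro l hl hl'
        rw [mem_Icc] at hl hl'
        refine sum_eq_zero fun a _ => ?_
        rw [sum_eq_zero, mul_zero]
        intro y _
        unfold gL
        rw [if_neg (by omega)]
        ring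
  rw [e1, e2] at h1
  exact h1

lemma TT_rfx (x : ZMod k → V) : TT G k (rfx x) = TT G k x := by
  unfold TT
  rw [nonT_rfx]

/-- windows and the rewards of the members of the classes -/
theorem win_TTS (hk : 6 ≤ k) (x : ZMod k → V) {L : ℕ} (hL : 3 ≤ L) :
    ((k : ℝ) - 5) * ∑ j : ZMod k, JJ (max 1 (tauX G k x j)) ≤
      (winX G k L x + winX G k L (rfx x)) / 2 +
        ∑ w ∈ TT G k x, kap V k * rewXS G k L x w := by
  have h1 := win_TT (G := G) hk x hL
  have h2 := win_TT (G := G) hk (rfx x) hL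
  rw [TT_rfx] at h2
  have h3 : ∑ j : ZMod k, JJ (max 1 (tauX G k (rfx x) j)) =
      ∑ j : ZMod k, JJ (max 1 (tauX G k x j)) := by
    simp_rw [tauX_rfx]
    exact Equiv.sum_comp (Equiv.neg (ZMod k)) (fun j => JJ (max 1 (tauX G k x j)))
  rw [h3] at h2
  have h4 : ∑ w ∈ TT G k x, kap V k * rewXS G k L x w =
      (∑ w ∈ TT G k x, kap V k * rewX G k L x w +
        ∑ w ∈ TT G k x, kap V k * rewX G k L (rfx x) w) / 2 := by
    rw [← sum_add_distrib, sum_div]
    refine sum_congr rfl fun w _ => ?_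
    unfold rewXS
    ring
  rw [h4]
  linarith

lemma cM_types (x : ZMod k → V) (a b : ZMod k) :
    cM G k (x a) (x b) = ∑ B ∈ univ.filter (fun B : Finset (ZMod k) => a ∈ B ∧ b ∈ B),
      (envX G k x).m B := by
  have h := sum_types (G := G) x (fun B => if a ∈ B ∧ b ∈ B then 1 else 0)
  have e1 : ∑ y : V, kap V k * (if a ∈ Ty G k x y ∧ b ∈ Ty G k x y then (1 : ℝ) else 0) =
      cM G k (x a) (x b) := by
    unfold cM
    rw [mu_eq_sum]
    unfold nb
    rw [filter_filter, sum_filter]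
    refine sum_congr rfl fun y _ => ?_
    by_cases hy : a ∈ Ty G k x y ∧ b ∈ Ty G k x y
    · rw [if_pos hy, if_pos ⟨bas_mem_Ty.1 hy.1, bas_mem_Ty.1 hy.2⟩, mul_one]
    · rw [if_neg hy, if_neg (fun h' => hy ⟨bas_mem_Ty.2 h'.1, bas_mem_Ty.2 h'.2⟩), mul_zero]
  rw [← e1, h, sum_filter]
  refine sum_congr rfl fun B _ => ?_
  show mu k (YT G k x B) * _ = _
  split_ifs
  · rw [mul_one]; rfl
  · rw [mul_zero]

lemma ff_fUp (x : ZMod k → V) (a : ZMod k) :
    ff G k (x (a + 2)) (x a) = fUp (envX G k x) a := by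
  rw [ff_eq_cM, cM_types]
  unfold fUp pmE
  congr 1
  refine sum_congr ?_ fun _ _ => rfl
  ext B
  rw [mem_filter, mem_filter, and_comm (a := a + 2 ∈ B)]

lemma ff_fDn (x : ZMod k → V) (a : ZMod k) :
    ff G k (x a) (x (a + 2)) = fDn (envX G k x) a := by
  rw [ff_eq_cM, cM_types]
  rfl

lemma pairX_eq (L : ℕ) (C : ℝ → ℝ) (Phi : ℝ → ℝ → ℝ → ℝ) (x : ZMod k → V) (a : ZMod k) :
    pairX G k L C Phi x a = pairE L C Phi (envX G k x) a := by
  unfold pairX pairE KC
  rw [ff_fUp, ff_fDn]
  rfl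

/-- the position block and the environment -/
theorem posS_le (hk : 6 ≤ k) (x : ZMod k → V) {L : ℕ} (hL : 3 ≤ L) (C : ℝ → ℝ)
    (Phi : ℝ → ℝ → ℝ → ℝ) (phi : ℝ → ℝ) :
    posS G k L C Phi phi x ≤ posE L C Phi phi (envX G k x) +
      ∑ w ∈ TT G k x, kap V k * rewXS G k L x w := by
  have h1 := win_TTS (G := G) hk x hL
  unfold posS posE
  rw [sum_congr rfl fun a _ => pairX_eq L C Phi x a]
  have e1 : (envX G k x).tau = tauX G k x := rfl
  have e2 : (envX G k x).dx = dX G k x := rfl
  rw [e1, e2]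
  linarith

lemma sum_TT (hk : 5 ≤ k) (x : ZMod k → V) (f : V → ℝ) :
    ∑ w ∈ TT G k x, f w = ∑ j : ZMod k, ∑ w ∈ T G k j x, f w := by
  have h1 := sum_classes (G := G) hk x f
  have h2 : ∑ w ∈ nonT G k x, f w + ∑ w ∈ TT G k x, f w = ∑ w : V, f w :=
    sum_add_sum_compl _ _
  linarith

/-- **the interface, final form**: rows of the vertices outside the classes, rows of the members
of the classes without reward, and an inequality for the environments -/
theorem reductionRowsF {k : ℕ} [NeZero k] (hk : 6 ≤ k) {L : ℕ} (hL : 3 ≤ L) (hLk : L + 3 ≤ k)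
    {B B' : ℝ} (g phi : ℝ → ℝ) (hg : ∀ t, 0 ≤ t → t ≤ (k : ℝ) → |g t| ≤ B)
    (hphi : ∀ t, 0 ≤ t → t ≤ (k : ℝ) → |phi t| ≤ B') {C : ℝ → ℝ} (hC : Cost L C)
    {Phi : ℝ → ℝ → ℝ → ℝ} (hpos : ∀ d s t, 0 < Phi d s t)
    (hsymm : ∀ d s t, Phi d s t = Phi d t s) (Xi : Xfer k)
    {Hx : Env k → ZMod k → ℝ → ℝ → ℝ} {rr : Env k → ZMod k → ℝ}
    (hH : ∀ (E : Env k) (j : ZMod k) (s t : ℝ), 0 ≤ s → 0 ≤ t →
      KFC C s t * iz Phi E.tau E.dx j + Xi j (E.tau j) (msk j E.dx) s t -
        Xi j (E.tau j) (msk j E.dx) t s ≤ Hx E j s t + rr E j * t)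
    (pot : Pot k) {chi : Env k → Finset (ZMod k) → Finset (ZMod k) → ℝ}
    (hchi : ∀ E A D, chi E A D + chi E D A = 0)
    (XN : Finset (ZMod k) → (Finset (ZMod k) → ℝ) → Env k → ℝ)
    (XT : ZMod k → (Finset (ZMod k) → ℝ) → Env k → ℝ)
    (hX : ∀ (U : Type) [Fintype U] (G : SimpleGraph U),
      (∀ a b c : U, G.Adj a b → G.Adj b c → ¬ G.Adj a c) →
      ∑ x ∈ Cyc G k, (∑ y ∈ nonT G k x, kap U k * XN (Ty G k x y) (NbM G k x y) (envX G k x) +
        ∑ j : ZMod k, ∑ w ∈ T G k j x, kap U k * XT j (NbM G k x w) (envX G k x)) ≤ 0)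
    (rN : Finset (ZMod k) → Env k → ℝ) (rT : ZMod k → Env k → ℝ)
    (hN : ∀ (A : Finset (ZMod k)) (N : Finset (ZMod k) → ℝ) (E : Env k),
      DataE A N E → (∀ j, A ≠ tT j) →
        rN A E ≤ valNE L C Phi rr pot g phi chi A N E + XN A N E)
    (hT : ∀ (j : ZMod k) (N : Finset (ZMod k) → ℝ) (E : Env k),
      DataE (tT j) N E → rT j E ≤ valTR Hx rr pot g phi chi j N E + XT j N E)
    (hP : ∀ E : Env k, EnvOK E → posE L C Phi phi E ≤
      ∑ A ∈ univ.filter (fun A : Finset (ZMod k) => ∀ j, A ≠ tT j), E.m A * rN A E +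
        ∑ j : ZMod k, E.tau j * rT j E)
    {V : Type} [Fintype V] {G : SimpleGraph V}
    (tf : ∀ a b c : V, G.Adj a b → G.Adj b c → ¬ G.Adj a c) :
    NN G k * kap V k ^ k ≤ 2 * (k : ℝ) := by
  have hk5 : 5 ≤ k := by omega
  refine reductionRowsG hk hL hLk g phi hg hphi hC hpos hsymm Xi hH pot hchi XN XT hX ?_ tf
  intro U _ G tfG x hx
  have hE := env_ok hk5 tfG hx
  have h1 := posS_le (G := G) hk x hL C Phi phi
  have h2 := hP _ hE
  have h3 : ∑ A ∈ univ.filter (fun A : Finset (ZMod k) => ∀ j, A ≠ tT j),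
      (envX G k x).m A * rN A (envX G k x) =
      ∑ y ∈ nonT G k x, kap U k * rN (Ty G k x y) (envX G k x) := by
    have h := sum_types (G := G) x
      (fun A => if ∀ j, A ≠ tT j then rN A (envX G k x) else 0)
    have e1 : ∑ y : U, kap U k *
        (if ∀ j, Ty G k x y ≠ tT j then rN (Ty G k x y) (envX G k x) else 0) =
        ∑ y ∈ nonT G k x, kap U k * rN (Ty G k x y) (envX G k x) := by
      unfold nonT
      rw [sum_filter]
      refine sum_congr rfl fun y _ => ?_
      by_cases hy : ∀ j, Ty G k x y ≠ tT j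
      · rw [if_pos hy, if_pos fun j hj => hy j (bas_mem_T.1 hj)]
      · rw [if_neg hy, if_neg fun h' => hy fun j hj => h' j (bas_mem_T.2 hj), mul_zero]
    rw [← e1, h, sum_filter]
    refine sum_congr rfl fun A _ => ?_
    split_ifs
    · rfl
    · rw [mul_zero]
  have hn : ∀ y ∈ nonT G k x, kap U k * rN (Ty G k x y) (envX G k x) ≤
      kap U k * (valNE L C Phi rr pot g phi chi (Ty G k x y) (NbM G k x y) (envX G k x) +
        XN (Ty G k x y) (NbM G k x y) (envX G k x)) := by
    intro y hy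
    refine mul_le_mul_of_nonneg_left (hN _ _ _ (dataE_ok hk5 tfG hx y) ?_) kap_nonneg
    intro j hj
    have h1 : ∀ j : ZMod k, y ∉ T G k j x := by simpa [nonT] using hy
    exact h1 j (bas_mem_T.2 hj)
  have ht : ∀ j : ZMod k, (envX G k x).tau j * rT j (envX G k x) +
      ∑ w ∈ T G k j x, kap U k * rewXS G k L x w ≤
      ∑ w ∈ T G k j x, kap U k * (valTE L Hx rr pot g phi chi j (NbM G k x w) (envX G k x) +
        XT j (NbM G k x w) (envX G k x)) := by
    intro j
    have e : (envX G k x).tau j * rT j (envX G k x) =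
        ∑ w ∈ T G k j x, kap U k * rT j (envX G k x) := by
      show mu k (T G k j x) * _ = _
      rw [mu_eq_sum, sum_mul]
    rw [e, ← sum_add_distrib]
    refine sum_le_sum fun w hw => ?_
    rw [← mul_add]
    refine mul_le_mul_of_nonneg_left ?_ kap_nonneg
    have hty : Ty G k x w = tT j := bas_mem_T.1 hw
    have hd := dataE_ok hk5 tfG hx w
    rw [hty] at hd
    have h4 := hT j _ _ hd
    rw [valTE_eq, rewXS_eq, hty]
    linarith
  have hsn := sum_le_sum hn
  have hst := sum_le_sum fun j (_ : j ∈ (univ : Finset (ZMod k))) => ht j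
  rw [sum_add_distrib, ← sum_TT hk5 x (fun w => kap U k * rewXS G k L x w)] at hst
  rw [h3] at h2
  linarith

end

end

end Pool.Agent.ICyc.D
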