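import Pool.Agent.Lib.MP_131fce_co.D.PRow
import Pool.Agent.Lib.MP_131fce_co.D.RowLib

/-!
# Induced k-cycles in triangle-free graphs: the rows of the classes

The twin price `K (f, f') + theta (f') / 2 - theta (f) / 2` is at most
`c f + (1 + c) / (1 + 2 c) theta (f')`.  The slopes `r_j` are only seen by the vertices outside the
classes, because of the charges `r_j - r_(j+1)` between neighbouring classes.
-/

set_option autoImplicit false

namespace Pool.Agent.ICyc.D

open Finset Pool.Agent.ICyc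
open scoped Classical

noncomputable section

/-- the twin price of one pair -/
lemma twinK_le {KF : ℝ → ℝ → ℝ} {theta : ℝ → ℝ} {s t c : ℝ} (hc : 0 ≤ c)
    (hs : 0 ≤ theta s) (hs1 : theta s ≤ s) (ht : 0 ≤ theta t)
    (hK : KF s t ≤ Real.sqrt (theta s * theta t)) :
    KF s t + theta t / 2 - theta s / 2 ≤ c * s + (1 + c) / (1 + 2 * c) * theta t := by
  have h1 : 0 < 1 + 2 * c := by positivity
  have h2 : Real.sqrt (theta s * theta t) ≤
      ((1 + 2 * c) * theta s + theta t / (1 + 2 * c)) / 2 := by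
    rw [Real.sqrt_le_left (by positivity)]
    have h3 : theta s * theta t = ((1 + 2 * c) * theta s) * (theta t / (1 + 2 * c)) := by
      field_simp
    rw [h3]
    nlinarith [sq_nonneg ((1 + 2 * c) * theta s - theta t / (1 + 2 * c))]
  have h4 : (1 + c) / (1 + 2 * c) * theta t = theta t / 2 + theta t / (1 + 2 * c) / 2 := by
    field_simp
    ring
  have h5 : c * theta s ≤ c * s := mul_le_mul_of_nonneg_left hs1 hc
  rw [h4]
  nlinarith

section

variable {k : ℕ} [NeZero k]

/-- charges between neighbouring classes -/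
def chiR (rr : Env k → ZMod k → ℝ) (E : Env k) (A B : Finset (ZMod k)) : ℝ :=
  ∑ j : ZMod k, ((if A = tT j ∧ B = tT (j + 1) then rr E j - rr E (j + 1) else 0) +
    (if A = tT (j + 1) ∧ B = tT j then rr E (j + 1) - rr E j else 0))

lemma chiR_anti (rr : Env k → ZMod k → ℝ) (E : Env k) (A B : Finset (ZMod k)) :
    chiR rr E A B + chiR rr E B A = 0 := by
  unfold chiR
  rw [← sum_add_distrib]
  refine sum_eq_zero fun j _ => ?_
  by_cases h1 : A = tT j ∧ B = tT (j + 1) <;> by_cases h2 : A = tT (j + 1) ∧ B = tT j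
  · rw [if_pos h1, if_pos h2, if_pos ⟨h2.2, h2.1⟩, if_pos ⟨h1.2, h1.1⟩]
    ring
  · have h3 : ¬ (B = tT j ∧ A = tT (j + 1)) := fun h => h2 ⟨h.2, h.1⟩
    rw [if_pos h1, if_neg h2, if_neg h3, if_pos ⟨h1.2, h1.1⟩]
    ring
  · have h3 : ¬ (B = tT (j + 1) ∧ A = tT j) := fun h => h1 ⟨h.2, h.1⟩
    rw [if_neg h1, if_pos h2, if_pos ⟨h2.2, h2.1⟩, if_neg h3]
    ring
  · have h3 : ¬ (B = tT j ∧ A = tT (j + 1)) := fun h => h2 ⟨h.2, h.1⟩
    have h4 : ¬ (B = tT (j + 1) ∧ A = tT j) := fun h => h1 ⟨h.2, h.1⟩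
    rw [if_neg h1, if_neg h2, if_neg h3, if_neg h4]
    ring

/-- the charges vanish outside the classes -/
lemma chiR_zero (rr : Env k → ZMod k → ℝ) (E : Env k) {A : Finset (ZMod k)}
    (hA : ∀ j, A ≠ tT j) (B : Finset (ZMod k)) : chiR rr E A B = 0 := by
  unfold chiR
  refine sum_eq_zero fun j _ => ?_
  rw [if_neg fun h => hA _ h.1, if_neg fun h => hA _ h.1, add_zero]

/-- the charges of a member of the class `j` -/
lemma chiR_tT (hk : 5 ≤ k) (rr : Env k → ZMod k → ℝ) (E : Env k) (j : ZMod k)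
    (N : Finset (ZMod k) → ℝ) :
    ∑ B : Finset (ZMod k), N B * chiR rr E (tT j) B =
      N (tT (j - 1)) * (rr E j - rr E (j - 1)) + N (tT (j + 1)) * (rr E j - rr E (j + 1)) := by
  have h1 : ∀ B : Finset (ZMod k), N B * chiR rr E (tT j) B =
      (if B = tT (j + 1) then N B * (rr E j - rr E (j + 1)) else 0) +
      (if B = tT (j - 1) then N B * (rr E j - rr E (j - 1)) else 0) := by
    intro B
    unfold chiR
    rw [sum_add_distrib, mul_add]
    congr 1
    · rw [sum_eq_single j]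
      · by_cases h : B = tT (j + 1)
        · rw [if_pos h, if_pos ⟨rfl, h⟩]
        · rw [if_neg h, if_neg fun h' => h h'.2, mul_zero]
      · intro i _ hi
        rw [if_neg fun h' => hi (tT_inj hk h'.1).symm]
      · intro h
        exact absurd (mem_univ j) h
    · rw [sum_eq_single (j - 1)]
      · rw [sub_add_cancel]
        by_cases h : B = tT (j - 1)
        · rw [if_pos h, if_pos ⟨rfl, h⟩]
        · rw [if_neg h, if_neg fun h' => h h'.2, mul_zero]
      · intro i _ hi
        have h2 : ¬ (tT j = tT (i + 1) ∧ B = tT i) := by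
          rintro ⟨h3, _⟩
          apply hi
          rw [tT_inj hk h3]
          ring
        rw [if_neg h2]
      · intro h
        exact absurd (mem_univ (j - 1)) h
  simp only [h1, sum_add_distrib]
  rw [sum_ite_eq' univ (tT (j + 1)) (fun B => N B * (rr E j - rr E (j + 1))),
    sum_ite_eq' univ (tT (j - 1)) (fun B => N B * (rr E j - rr E (j - 1))),
    if_pos (mem_univ _), if_pos (mem_univ _), add_comm]

/-- what the charges give to the row of the class `j` -/
def rTR (rr : Env k → ZMod k → ℝ) (j : ZMod k) (E : Env k) : ℝ :=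
  (rr E j - rr E (j - 1)) * E.tau (j - 1) + (rr E j - rr E (j + 1)) * E.tau (j + 1)

/-- it is nothing in total -/
lemma sum_rTR (rr : Env k → ZMod k → ℝ) (E : Env k) :
    ∑ j : ZMod k, E.tau j * rTR rr j E = 0 := by
  have h1 : ∑ j : ZMod k, E.tau j * ((rr E j - rr E (j - 1)) * E.tau (j - 1)) =
      ∑ j : ZMod k, E.tau (j + 1) * ((rr E (j + 1) - rr E j) * E.tau j) := by
    rw [← Equiv.sum_comp (Equiv.addRight (1 : ZMod k))
      (fun j => E.tau j * ((rr E j - rr E (j - 1)) * E.tau (j - 1)))]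
    refine sum_congr rfl fun j _ => ?_
    show E.tau (j + 1) * ((rr E (j + 1) - rr E (j + 1 - 1)) * E.tau (j + 1 - 1)) = _
    rw [add_sub_cancel_right]
  unfold rTR
  simp only [mul_add, sum_add_distrib]
  rw [h1, ← sum_add_distrib]
  refine sum_eq_zero fun j _ => ?_
  ring

/-- the part of the difference `f'` outside the neighbouring classes -/
def nT (j : ZMod k) (N : Finset (ZMod k) → ℝ) (E : Env k) : ℝ :=
  (E.dx j - cN N j) - ((E.tau (j - 1) - N (tT (j - 1))) + (E.tau (j + 1) - N (tT (j + 1))))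

lemma nT_nonneg (j : ZMod k) {A : Finset (ZMod k)} {N : Finset (ZMod k) → ℝ}
    {E : Env k} (hD : DataE A N E) : 0 ≤ nT j N E := by
  have h := hD.dx_le j
  unfold nT
  linarith

lemma nT_le (hk : 5 ≤ k) (j : ZMod k) {A : Finset (ZMod k)} {N : Finset (ZMod k) → ℝ}
    {E : Env k} (hD : DataE A N E) :
    nT j N E ≤ E.dx j - E.tau (j - 1) - E.tau (j + 1) := by
  have h := two_classes_le_cN hk hD.toData j
  unfold nT
  linarith

/-- the flow and the charges of a member of the class `j` -/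
lemma lin_tT (hk : 5 ≤ k) (pot : PotG k) {chi : Env k → Finset (ZMod k) → Finset (ZMod k) → ℝ}
    {j : ZMod k} {N : Finset (ZMod k) → ℝ} {E : Env k} (hD : DataE (tT j) N E) {c kap : ℝ}
    (hn1 : kap ≤ potGN pot (tT j) N E (j - 1)) (hn2 : kap ≤ potGN pot (tT j) N E (j + 1))
    (hfar : ∀ B, N B ≠ 0 → j ∉ B → c ≤ chi E (tT j) B -
      ∑ l ∈ (tT j)ᶜ, if B = tT l then potGN pot (tT j) N E l else 0)
    (hin : ∀ B, N B ≠ 0 → j ∈ B → 0 ≤ chi E (tT j) B) :
    kap * ((E.tau (j - 1) - N (tT (j - 1))) + (E.tau (j + 1) - N (tT (j + 1)))) +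
      c * (dN N - cN N j) ≤
      flowG pot (tT j) N E + ∑ B : Finset (ZMod k), N B * chi E (tT j) B := by
  have h1 : ∑ l ∈ (tT j)ᶜ, potGN pot (tT j) N E l * N (tT l) =
      ∑ B : Finset (ZMod k), N B *
        ∑ l ∈ (tT j)ᶜ, (if B = tT l then potGN pot (tT j) N E l else 0) := by
    simp only [mul_sum]
    rw [sum_comm]
    refine sum_congr rfl fun l _ => ?_
    have h2 : ∀ B : Finset (ZMod k), N B * (if B = tT l then potGN pot (tT j) N E l else 0) =
        if B = tT l then N B * potGN pot (tT j) N E l else 0 := by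
      intro B
      split_ifs
      · rfl
      · rw [mul_zero]
    simp only [h2]
    rw [sum_ite_eq' univ (tT l) (fun B => N B * potGN pot (tT j) N E l), if_pos (mem_univ _),
      mul_comm]
  have h3 : dN N - cN N j = ∑ B : Finset (ZMod k), (if j ∈ B then 0 else N B) := by
    rw [← dN_onl]
    rfl
  have h4 : ∑ l ∈ (tT j : Finset (ZMod k)), potGN pot (tT j) N E l * (E.tau l - N (tT l)) =
      potGN pot (tT j) N E (j - 1) * (E.tau (j - 1) - N (tT (j - 1))) +
      potGN pot (tT j) N E (j + 1) * (E.tau (j + 1) - N (tT (j + 1))) := sum_tT hk j _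
  have h5 : c * (dN N - cN N j) ≤ ∑ B : Finset (ZMod k), N B * chi E (tT j) B -
      ∑ B : Finset (ZMod k), N B *
        ∑ l ∈ (tT j)ᶜ, (if B = tT l then potGN pot (tT j) N E l else 0) := by
    rw [h3, mul_sum, ← sum_sub_distrib]
    refine sum_le_sum fun B _ => ?_
    by_cases h0 : N B = 0
    · rw [h0]
      simp
    · rw [← mul_sub]
      have hnn := hD.nn B
      by_cases hj : j ∈ B
      · rw [if_pos hj, mul_zero]
        refine mul_nonneg hnn ?_
        have h6 : ∑ l ∈ (tT j)ᶜ, (if B = tT l then potGN pot (tT j) N E l else 0) = 0 := by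
          refine sum_eq_zero fun l hl => ?_
          rw [if_neg]
          rintro rfl
          rw [mem_compl] at hl
          apply hl
          rw [mem_tT] at hj ⊢
          rcases hj with h | h
          · right
            rw [h]
            ring
          · left
            rw [h]
            ring
        rw [h6, sub_zero]
        exact hin B h0 hj
      · rw [if_neg hj, mul_comm c]
        exact mul_le_mul_of_nonneg_left (hfar B h0 hj) hnn
  have h7 : 0 ≤ E.tau (j - 1) - N (tT (j - 1)) := sub_nonneg.2 (hD.le _)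
  have h8 : 0 ≤ E.tau (j + 1) - N (tT (j + 1)) := sub_nonneg.2 (hD.le _)
  have h9 := mul_le_mul_of_nonneg_right hn1 h7
  have h10 := mul_le_mul_of_nonneg_right hn2 h8
  unfold flowG
  rw [h1, h4]
  linarith

/-- **the row of the class `j`** -/
theorem rowT_ge (hk : 5 ≤ k) {KF : ℝ → ℝ → ℝ} {theta : ℝ → ℝ} {Phi : ℝ → ℝ → ℝ → ℝ}
    {rr : Env k → ZMod k → ℝ} {pot : PotG k} {g phi : ℝ → ℝ}
    {chi : Env k → Finset (ZMod k) → Finset (ZMod k) → ℝ}
    {we : Env k → Finset (ZMod k) → ZMod k → ℝ} {F : FunT k} {P : FunP k}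
    {j : ZMod k} {N : Finset (ZMod k) → ℝ} {E : Env k} (hD : DataE (tT j) N E)
    {c kap : ℝ} (hc : 0 ≤ c) (hiz : 0 ≤ iz Phi E.tau E.dx j)
    (hth : ∀ t, 0 ≤ t → 0 ≤ theta t) (hth1 : ∀ t, 0 ≤ t → theta t ≤ t)
    (hK : ∀ s t, 0 ≤ s → 0 ≤ t → KF s t ≤ Real.sqrt (theta s * theta t))
    (hP : prW P j N E - prX P j N E = iz Phi E.tau E.dx j *
      ((theta (dN N - cN N j) - theta (E.dx j - cN N j)) / 2))
    (hn1 : kap ≤ potGN pot (tT j) N E (j - 1)) (hn2 : kap ≤ potGN pot (tT j) N E (j + 1))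
    (hfar : ∀ B, N B ≠ 0 → j ∉ B → c * iz Phi E.tau E.dx j ≤ chi E (tT j) B -
      ∑ l ∈ (tT j)ᶜ, if B = tT l then potGN pot (tT j) N E l else 0)
    (hin : ∀ B, N B ≠ 0 → j ∈ B → 0 ≤ chi E (tT j) B)
    (hG : 0 ≤ g (dN N) * (2 - dN N) - phi (dN N) + edT we j N E - funW F j N E)
    (hsl : ∀ t D, 0 ≤ t → t ≤ E.dx j - E.tau (j - 1) - E.tau (j + 1) → 0 ≤ D →
      iz Phi E.tau E.dx j * ((1 + c) / (1 + 2 * c) * theta (D + t)) ≤ rr E j * t + kap * D) :
    rTR rr j E ≤
      rowT KF Phi rr pot g phi (fun E A B => chi E A B + chiR rr E A B) we F P j N E := by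
  have h1 := lin_tT hk pot hD hn1 hn2 hfar hin
  have h2 := chiR_tT hk rr E j N
  have hf : 0 ≤ dN N - cN N j := sub_nonneg.2 (cN_le_dN hD.toData j)
  have h7 : 0 ≤ E.tau (j - 1) - N (tT (j - 1)) := sub_nonneg.2 (hD.le _)
  have h8 : 0 ≤ E.tau (j + 1) - N (tT (j + 1)) := sub_nonneg.2 (hD.le _)
  have hn0 := nT_nonneg j hD
  have hn := nT_le hk j hD
  have hf' : E.dx j - cN N j =
      ((E.tau (j - 1) - N (tT (j - 1))) + (E.tau (j + 1) - N (tT (j + 1)))) + nT j N E := by
    unfold nT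
    ring
  have hfp : 0 ≤ E.dx j - cN N j := by
    rw [hf']
    positivity
  have h3 := hsl (nT j N E) _ hn0 hn (add_nonneg h7 h8)
  rw [← hf'] at h3
  have h4 := twinK_le hc (hth _ hf) (hth1 _ hf) (hth _ hfp) (hK _ _ hf hfp)
  have h5 := mul_le_mul_of_nonneg_left h4 hiz
  unfold rTR rowT
  simp only [mul_add, sum_add_distrib]
  rw [h2, hP]
  rw [hf'] at *
  nlinarith

end

end

end Pool.Agent.ICyc.D
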