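import Pool.Agent.Lib.MP_131fce_co.D.FrameL

/-!
# Induced k-cycles in triangle-free graphs: one-variable bounds

Tangents and series bounds for `psi t = t exp (1 - t)` and `JJ t = t - 1 - log t`:
* `psi_tan` : for `s ≤ 1` and every real `t`, `psi t ≤ psi s + (1 - s) exp (1 - s) (t - s)`;
* `rew_tan` : the reward `1 - psi (min 1 t)` is at least its tangent at `s ≤ 1`, for every `t`;
* `rew_lo`, `rew_hi` : `x²/2 + x³/3 + x⁴/8 ≤ 1 - psi (1 - x) ≤ x²/2 + x³/3 + x⁴/8 + x⁵/24`;
* `JJ_tan`, `JJ_max_tan`, `JJ_min_tan` : tangents of `JJ t`, `JJ (max 1 t)`, `JJ (min 1 t)`;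
* `JJ_up_ge`, `JJ_up_le`, `JJ_dn_ge`, `JJ_dn_le` : rational bounds for `JJ (1 + n)`, `JJ (1 - n)`.
-/

set_option autoImplicit false

namespace Pool.Agent.ICyc.D

open Finset Pool.Agent.ICyc
open scoped Classical

/-! ### `psi` -/

lemma psi_zero : psi 0 = 0 := by unfold psi; simp

lemma psi_one : psi 1 = 1 := by unfold psi; simp

/-- `psi` lies below its tangent at every `s ≤ 1`, on the whole line -/
theorem psi_tan {s : ℝ} (hs : s ≤ 1) (t : ℝ) :
    psi t ≤ psi s + (1 - s) * Real.exp (1 - s) * (t - s) := by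
  have e1 : Real.exp (1 - s) = Real.exp (1 - t) * Real.exp (t - s) := by
    rw [← Real.exp_add]; congr 1; ring
  have hpos := Real.exp_pos (1 - t)
  have hd := Real.exp_pos (t - s)
  have key : t ≤ Real.exp (t - s) * (s + (1 - s) * (t - s)) := by
    have hexp := Real.add_one_le_exp (t - s)
    rcases le_or_gt 0 (s + (1 - s) * (t - s)) with h | h
    · have h1 : (t - s + 1) * (s + (1 - s) * (t - s)) ≤
          Real.exp (t - s) * (s + (1 - s) * (t - s)) := mul_le_mul_of_nonneg_right hexp h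
      nlinarith [mul_nonneg (sub_nonneg.2 hs) (sq_nonneg (t - s))]
    · rcases le_or_gt 0 (t - s) with hts | hts
      · -- then `s < 0`
        have hs0 : s < 0 := by nlinarith
        rcases le_or_gt t 0 with ht | ht
        · have h2 : Real.exp (t - s) ≤ 1 / (1 - (t - s)) ∨ True := Or.inr trivial
          have h3 := Real.add_one_le_exp (-(t - s))
          have h4 : Real.exp (t - s) * Real.exp (-(t - s)) = 1 := by
            rw [← Real.exp_add]; simp
          have h5 : t * Real.exp (-(t - s)) ≤ t * (-(t - s) + 1) :=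
            mul_le_mul_of_nonpos_left h3 ht
          have h6 : t * (-(t - s) + 1) ≤ s + (1 - s) * (t - s) := by nlinarith [sq_nonneg (t - s)]
          have h7 := mul_le_mul_of_nonneg_left (h5.trans h6) hd.le
          have h8 : Real.exp (t - s) * (t * Real.exp (-(t - s))) = t := by
            rw [mul_left_comm, h4, mul_one]
          linarith
        · exfalso
          nlinarith
      · have ht : t ≤ 0 := by
          by_contra hcon
          push Not at hcon
          nlinarith
        have h3 := Real.add_one_le_exp (-(t - s))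
        have h4 : Real.exp (t - s) * Real.exp (-(t - s)) = 1 := by
          rw [← Real.exp_add]; simp
        have h5 : t * Real.exp (-(t - s)) ≤ t * (-(t - s) + 1) :=
          mul_le_mul_of_nonpos_left h3 ht
        have h6 : t * (-(t - s) + 1) ≤ s + (1 - s) * (t - s) := by nlinarith [sq_nonneg (t - s)]
        have h7 := mul_le_mul_of_nonneg_left (h5.trans h6) hd.le
        have h8 : Real.exp (t - s) * (t * Real.exp (-(t - s))) = t := by
          rw [mul_left_comm, h4, mul_one]
        linarith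
  have h := mul_le_mul_of_nonneg_left key hpos.le
  unfold psi
  rw [e1]
  nlinarith [h]

lemma psi_mono_of_le {s t : ℝ} (hst : s ≤ t) (ht : t ≤ 1) : psi s ≤ psi t := by
  have h := psi_tan ht s
  have h1 : 0 ≤ (1 - t) * Real.exp (1 - t) * (t - s) :=
    mul_nonneg (mul_nonneg (by linarith) (Real.exp_pos _).le) (by linarith)
  nlinarith

/-- the reward lies above its tangent at every `s ≤ 1`, on the whole line -/
theorem rew_tan {s : ℝ} (hs : s ≤ 1) (t : ℝ) :
    1 - psi s - (1 - s) * Real.exp (1 - s) * (t - s) ≤ 1 - psi (min 1 t) := by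
  have h := psi_tan hs (min 1 t)
  have h1 : (1 - s) * Real.exp (1 - s) * (min 1 t - s) ≤ (1 - s) * Real.exp (1 - s) * (t - s) :=
    mul_le_mul_of_nonneg_left (by linarith [min_le_right 1 t])
      (mul_nonneg (by linarith) (Real.exp_pos _).le)
  linarith

lemma rew_nonneg' (t : ℝ) : 0 ≤ 1 - psi (min 1 t) := by linarith [psi_le_one (min 1 t)]

/-- the reward decreases with its argument -/
lemma rew_anti {s t : ℝ} (hst : s ≤ t) : 1 - psi (min 1 t) ≤ 1 - psi (min 1 s) := by
  have := psi_mono_of_le (min_le_min_left 1 hst) (min_le_left 1 t)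
  linarith

/-- the reward is convex in its argument -/
theorem rew_convex : ConvexOn ℝ Set.univ (fun t : ℝ => 1 - psi (min 1 t)) := by
  refine ⟨convex_univ, ?_⟩
  intro a _ b _ p q hp hq hpq
  simp only [smul_eq_mul]
  set s := min 1 (p * a + q * b) with hsdef
  have hs : s ≤ 1 := min_le_left _ _
  have h1 := rew_tan hs a
  have h2 := rew_tan hs b
  have h3 : p * (1 - psi s - (1 - s) * Real.exp (1 - s) * (a - s)) +
      q * (1 - psi s - (1 - s) * Real.exp (1 - s) * (b - s)) ≤
      p * (1 - psi (min 1 a)) + q * (1 - psi (min 1 b)) :=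
    add_le_add (mul_le_mul_of_nonneg_left h1 hp) (mul_le_mul_of_nonneg_left h2 hq)
  have h4 : p * (1 - psi s - (1 - s) * Real.exp (1 - s) * (a - s)) +
      q * (1 - psi s - (1 - s) * Real.exp (1 - s) * (b - s)) =
      1 - psi s - (1 - s) * Real.exp (1 - s) * ((p * a + q * b) - s) := by
    have : p = 1 - q := by linarith
    rw [this]; ring
  rw [h4] at h3
  refine le_trans ?_ h3
  rcases le_total (p * a + q * b) 1 with h | h
  · rw [hsdef, min_eq_right h]
    simp
  · rw [hsdef, min_eq_left h]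
    simp

/-- the reward from below -/
theorem rew_lo {x : ℝ} (h0 : 0 ≤ x) (h1 : x ≤ 1) :
    x ^ 2 / 2 + x ^ 3 / 3 + x ^ 4 / 8 ≤ 1 - psi (1 - x) := by
  have h := Real.exp_bound' h0 h1 (n := 5) (by norm_num)
  simp only [Finset.sum_range_succ, Finset.sum_range_zero, Nat.factorial] at h
  norm_num at h
  have h2 : (1 - x) * Real.exp x ≤ (1 - x) *
      (1 + x + x ^ 2 / 2 + x ^ 3 / 6 + x ^ 4 / 24 + x ^ 5 * 6 / 600) :=
    mul_le_mul_of_nonneg_left (by linarith) (by linarith)
  unfold psi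
  have e : 1 - (1 - x) = x := by ring
  rw [e]
  have h5 : 0 ≤ x ^ 5 := by positivity
  have h6 : 0 ≤ x ^ 6 := by positivity
  nlinarith

/-- the reward from above -/
theorem rew_hi {x : ℝ} (h0 : 0 ≤ x) (h1 : x ≤ 1) :
    1 - psi (1 - x) ≤ x ^ 2 / 2 + x ^ 3 / 3 + x ^ 4 / 8 + x ^ 5 / 24 := by
  have h := Real.sum_le_exp_of_nonneg h0 5
  simp only [Finset.sum_range_succ, Finset.sum_range_zero, Nat.factorial] at h
  norm_num at h
  have h2 : (1 - x) * (1 + x + x ^ 2 / 2 + x ^ 3 / 6 + x ^ 4 / 24) ≤ (1 - x) * Real.exp x :=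
    mul_le_mul_of_nonneg_left (by linarith) (by linarith)
  unfold psi
  have e : 1 - (1 - x) = x := by ring
  rw [e]
  nlinarith

/-- the reward at the argument `t`, from below, for every `t` -/
theorem rew_ge_of {t : ℝ} (h0 : 0 ≤ t) (h1 : t ≤ 1) :
    (1 - t) ^ 2 / 2 + (1 - t) ^ 3 / 3 + (1 - t) ^ 4 / 8 ≤ 1 - psi (min 1 t) := by
  have h := rew_lo (x := 1 - t) (by linarith) (by linarith)
  rw [min_eq_right h1]
  have e : 1 - (1 - t) = t := by ring
  rwa [e] at h

/-! ### `JJ` -/

theorem JJ_tan {s t : ℝ} (hs : 0 < s) (ht : 0 < t) : JJ s + (1 - 1 / s) * (t - s) ≤ JJ t := by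
  have h := Real.log_le_sub_one_of_pos (div_pos ht hs)
  rw [Real.log_div ht.ne' hs.ne'] at h
  unfold JJ
  have e : (1 - 1 / s) * (t - s) = t - s - (t / s - 1) := by field_simp
  rw [e]
  linarith

theorem JJ_max_tan {s : ℝ} (hs : 1 ≤ s) (t : ℝ) :
    JJ s + (1 - 1 / s) * (t - s) ≤ JJ (max 1 t) := by
  have h0 : 0 < s := by linarith
  have h := JJ_tan h0 (show 0 < max 1 t by positivity)
  refine le_trans ?_ h
  have h1 : 0 ≤ 1 - 1 / s := by
    rw [sub_nonneg, div_le_one h0]; exact hs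
  have := mul_le_mul_of_nonneg_left (sub_le_sub_right (le_max_right 1 t) s) h1
  linarith

theorem JJ_min_tan {s t : ℝ} (hs : 0 < s) (hs1 : s ≤ 1) (ht : 0 < t) :
    JJ s + (1 - 1 / s) * (t - s) ≤ JJ (min 1 t) := by
  have h := JJ_tan hs (show 0 < min 1 t by positivity)
  refine le_trans ?_ h
  have h1 : 1 - 1 / s ≤ 0 := by
    rw [sub_nonpos, le_div_iff₀ hs]; linarith
  have := mul_le_mul_of_nonpos_left (sub_le_sub_right (min_le_right 1 t) s) h1
  linarith

theorem JJ_convexOn : ConvexOn ℝ (Set.Ioi 0) JJ := by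
  refine ⟨convex_Ioi 0, ?_⟩
  intro a ha b hb p q hp hq hpq
  simp only [smul_eq_mul]
  have ha' : 0 < a := ha
  have hb' : 0 < b := hb
  have hs : 0 < p * a + q * b := by
    rcases hp.eq_or_lt with h | h
    · have : q = 1 := by linarith
      rw [← h, this]; linarith
    · have h1 : 0 < p * a := mul_pos h ha'
      have h2 : 0 ≤ q * b := mul_nonneg hq hb'.le
      linarith
  have h1 := mul_le_mul_of_nonneg_left (JJ_tan hs ha') hp
  have h2 := mul_le_mul_of_nonneg_left (JJ_tan hs hb') hq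
  have h4 : p * (JJ (p * a + q * b) + (1 - 1 / (p * a + q * b)) * (a - (p * a + q * b))) +
      q * (JJ (p * a + q * b) + (1 - 1 / (p * a + q * b)) * (b - (p * a + q * b))) =
      JJ (p * a + q * b) := by
    have : p = 1 - q := by linarith
    rw [this]; ring
  linarith

/-- `log (1 + n)` from above (Padé) -/
lemma log_pade {n : ℝ} (hn : 0 ≤ n) : Real.log (1 + n) ≤ n * (6 + n) / (6 + 4 * n) := by
  have hmono : MonotoneOn (fun x : ℝ => x * (6 + x) / (6 + 4 * x) - Real.log (1 + x))
      (Set.Ici 0) := by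
    refine monotoneOn_of_deriv_nonneg (convex_Ici 0) ?_ ?_ ?_
    · refine ContinuousOn.sub ?_ ?_
      · refine ContinuousOn.div (by fun_prop) (by fun_prop) ?_
        intro x hx
        have : (0 : ℝ) ≤ x := hx
        positivity
      · refine ContinuousOn.log (by fun_prop) ?_
        intro x hx
        have : (0 : ℝ) ≤ x := hx
        positivity
    · intro x hx
      rw [interior_Ici] at hx
      have hx0 : (0 : ℝ) < x := hx
      have h1 : (6 + 4 * x) ≠ 0 := by positivity
      have h2 : (1 + x) ≠ 0 := by positivity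
      have hd : HasDerivAt (fun x : ℝ => x * (6 + x) / (6 + 4 * x) - Real.log (1 + x))
          (((1 * (6 + x) + x * 1) * (6 + 4 * x) - (x * (6 + x)) * 4) / (6 + 4 * x) ^ 2 -
            1 / (1 + x)) x := by
        refine HasDerivAt.sub ?_ ?_
        · refine HasDerivAt.div ?_ ?_ h1
          · exact (hasDerivAt_id x).mul ((hasDerivAt_id x).const_add 6)
          · simpa using ((hasDerivAt_id x).const_mul 4).const_add 6
        · exact ((hasDerivAt_id x).const_add 1).log h2
      exact hd.differentiableAt.differentiableWithinAt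
    · intro x hx
      rw [interior_Ici] at hx
      have hx0 : (0 : ℝ) < x := hx
      have h1 : (6 + 4 * x) ≠ 0 := by positivity
      have h2 : (1 + x) ≠ 0 := by positivity
      have hd : HasDerivAt (fun x : ℝ => x * (6 + x) / (6 + 4 * x) - Real.log (1 + x))
          (((1 * (6 + x) + x * 1) * (6 + 4 * x) - (x * (6 + x)) * 4) / (6 + 4 * x) ^ 2 -
            1 / (1 + x)) x := by
        refine HasDerivAt.sub ?_ ?_
        · refine HasDerivAt.div ?_ ?_ h1
          · exact (hasDerivAt_id x).mul ((hasDerivAt_id x).const_add 6)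
          · simpa using ((hasDerivAt_id x).const_mul 4).const_add 6
        · exact ((hasDerivAt_id x).const_add 1).log h2
      rw [hd.deriv]
      have e : ((1 * (6 + x) + x * 1) * (6 + 4 * x) - (x * (6 + x)) * 4) / (6 + 4 * x) ^ 2 -
            1 / (1 + x) = 4 * x ^ 3 / ((6 + 4 * x) ^ 2 * (1 + x)) := by
        field_simp
        ring
      rw [e]
      positivity
  have h := hmono (Set.mem_Ici.2 le_rfl) (Set.mem_Ici.2 hn) hn
  simp only [zero_mul, zero_div, add_zero, Real.log_one, sub_zero] at h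
  linarith

/-- `JJ (1 + n) ≥ n² / (2 + 4n/3)` -/
theorem JJ_up_ge {n : ℝ} (hn : 0 ≤ n) : n ^ 2 / (2 + 4 / 3 * n) ≤ JJ (1 + n) := by
  have h := log_pade hn
  unfold JJ
  have e : n ^ 2 / (2 + 4 / 3 * n) = n - n * (6 + n) / (6 + 4 * n) := by
    field_simp
    ring
  rw [e]
  linarith

/-- `JJ (1 + n) ≤ n² / (2 + n)` -/
theorem JJ_up_le {n : ℝ} (hn : 0 ≤ n) : JJ (1 + n) ≤ n ^ 2 / (2 + n) := by
  have h := Real.le_log_one_add_of_nonneg hn
  unfold JJ
  have e : n ^ 2 / (2 + n) = n - 2 * n / (n + 2) := by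
    field_simp
    ring
  rw [e]
  linarith

/-- `JJ (1 + n) ≤ n² / 2` -/
theorem JJ_up_le' {n : ℝ} (hn : 0 ≤ n) : JJ (1 + n) ≤ n ^ 2 / 2 := by
  refine (JJ_up_le hn).trans ?_
  rw [div_le_div_iff₀ (by positivity) (by norm_num)]
  nlinarith [mul_nonneg hn (sq_nonneg n)]

/-- `log (1 - n)` from above -/
lemma log_one_sub_le {n : ℝ} (h0 : 0 ≤ n) (h1 : n < 1) :
    Real.log (1 - n) ≤ -(n + n ^ 2 / 2 + n ^ 3 / 3 + n ^ 4 / 4) := by
  have h := Real.hasSum_pow_div_log_of_abs_lt_one (x := n) (by rw [abs_of_nonneg h0]; exact h1)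
  have h2 := sum_le_hasSum (Finset.range 4) (fun i _ => by positivity) h
  simp only [Finset.sum_range_succ, Finset.sum_range_zero] at h2
  norm_num at h2
  linarith

/-- `JJ (1 - n) ≥ n²/2 + n³/3 + n⁴/4` -/
theorem JJ_dn_ge {n : ℝ} (h0 : 0 ≤ n) (h1 : n < 1) :
    n ^ 2 / 2 + n ^ 3 / 3 + n ^ 4 / 4 ≤ JJ (1 - n) := by
  have h := log_one_sub_le h0 h1
  unfold JJ
  linarith

/-- `JJ (1 - n) ≤ n² (3 - n) / (6 (1 - n))` -/
theorem JJ_dn_le {n : ℝ} (h0 : 0 ≤ n) (h1 : n < 1) :
    JJ (1 - n) ≤ n ^ 2 * (3 - n) / (6 * (1 - n)) := by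
  -- `-log (1 - n) = log (1 + m)` with `m = n / (1 - n)`; `log (1+m) ≤ m (6 + m) / (6 + 4 m)`
  have hn1 : 0 < 1 - n := by linarith
  have hm : 0 ≤ n / (1 - n) := div_nonneg h0 hn1.le
  have h := log_pade hm
  have e1 : 1 + n / (1 - n) = 1 / (1 - n) := by field_simp; ring
  rw [e1, one_div, Real.log_inv] at h
  unfold JJ
  have h2 : n / (1 - n) * (6 + n / (1 - n)) / (6 + 4 * (n / (1 - n))) =
      n * (6 - 5 * n) / ((1 - n) * (6 - 2 * n)) := by
    have h3 : (0 : ℝ) < 6 - 2 * n := by linarith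
    have h4 : 6 + 4 * (n / (1 - n)) = (6 - 2 * n) / (1 - n) := by field_simp; ring
    have h5 : 6 + n / (1 - n) = (6 - 5 * n) / (1 - n) := by field_simp; ring
    rw [h4, h5]
    field_simp
  rw [h2] at h
  have h3 : (0 : ℝ) < 6 - 2 * n := by linarith
  have h6 : -n + n * (6 - 5 * n) / ((1 - n) * (6 - 2 * n)) ≤ n ^ 2 * (3 - n) / (6 * (1 - n)) := by
    rw [← sub_nonneg]
    have e : n ^ 2 * (3 - n) / (6 * (1 - n)) - (-n + n * (6 - 5 * n) / ((1 - n) * (6 - 2 * n))) =
        n ^ 4 / (6 * (1 - n) * (3 - n)) := by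
      have h7 : (3 : ℝ) - n ≠ 0 := by linarith
      have h8 : (1 : ℝ) - n ≠ 0 := hn1.ne'
      have h9 : (6 : ℝ) - 2 * n = 2 * (3 - n) := by ring
      rw [h9]
      field_simp
      ring
    rw [e]
    have h7 : (0 : ℝ) < 3 - n := by linarith
    positivity
  linarith

end Pool.Agent.ICyc.D
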