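import Pool.Agent.Lib.MP_131fce_co.D.Final2
import Pool.Agent.Lib.MP_131fce_co.D.SwapT

/-!
# Induced k-cycles in triangle-free graphs: the frame with a free normaliser

`log ZK` is bounded by its tangent at an arbitrary positive value `ze x i` (`i` is the middle
position), in place of the tangent at `1`.
-/

set_option autoImplicit false

namespace Pool.Agent.ICyc.D

open Finset Pool.Agent.ICyc
open scoped Classical

section

variable {V : Type} [Fintype V] {G : SimpleGraph V} {k : ℕ} [NeZero k]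

lemma log_tangent {z t : ℝ} (hz : 0 < z) (ht : 0 < t) :
    Real.log z ≤ z / t - 1 + Real.log t := by
  have h := Real.log_le_sub_one_of_pos (div_pos hz ht)
  rw [Real.log_div hz.ne' ht.ne'] at h
  linarith

/-- the part of the functional that belongs to the positions, free normaliser `ze` -/
noncomputable def PosZ (G : SimpleGraph V) (k : ℕ) [NeZero k] (L : ℕ) (K : V → V → ℝ)
    (ze : ZMod k → ℝ) (x : ZMod k → V) : ℝ :=
  ∑ a : ZMod k, (1 - mu k (T G k (a + 2) x) - K (x (a + 2)) (x a) + Real.log (ze (a + 1))) -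
    ∑ a : ZMod k, (JJ (dg G k (x a) / 2) + JJ (mu k (T G k a x)) +
      ∑ l ∈ Icc 3 (k - 3), JJ (max 1 (mu k (F G k l (rot a x)) - RL G k L l (rot a x))))

lemma ZK_pos (hk : 6 ≤ k) (tf : ∀ a b c : V, G.Adj a b → G.Adj b c → ¬ G.Adj a c)
    {L : ℕ} {K : V → V → ℝ} (hK : Ker G k L K) {x : ZMod k → V} (hx : x ∈ Cyc G k) (a : ZMod k) :
    0 < ZK G k K (x a) (x (a + 1)) := by
  have hk5 : 5 ≤ k := by omega
  have hr : rot a x ∈ Cyc G k := rot_mem_Cyc a hx
  obtain ⟨h1, h2⟩ := ff_pos hk5 tf hr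
  have e0 : rot a x 0 = x a := by unfold rot; rw [zero_add]
  have e2 : rot a x 2 = x (a + 2) := by unfold rot; rw [add_comm]
  rw [e0, e2] at h1 h2
  have hp := hK.pos _ _ h1 h2
  have : Nonempty V := ⟨x 0⟩
  unfold ZK
  refine mul_pos kap_pos (lt_of_lt_of_le hp (single_le_sum (f := fun w => K w (x a))
    (fun w _ => hK.nn _ _) ?_))
  rw [bas_mem_nb]
  have h := adj_succ hx (a + 1)
  have e : a + 1 + 1 = a + 2 := by ring
  rwa [e] at h

/-- one cycle: all rotations -/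
theorem frameZP (hk : 6 ≤ k) (tf : ∀ a b c : V, G.Adj a b → G.Adj b c → ¬ G.Adj a c)
    {L : ℕ} {K : V → V → ℝ} (hK : Ker G k L K) {x : ZMod k → V} (hx : x ∈ Cyc G k)
    (ze : ZMod k → ℝ) (hze : ∀ i, 0 < ze i) :
    ∑ a : ZMod k, GG G k L K (rot a x) ≤
      -∑ w ∈ nonT G k x, kap V k * rD k (Ty G k x w) +
      ∑ a : ZMod k, own G k K x a / ze (a + 1) +
      ∑ a : ZMod k, twK G k K x a a / ze (a + 1) +
      ∑ a : ZMod k, twK G k K x (a + 2) a / ze (a + 1) -
      ∑ a : ZMod k, ∑ l ∈ Icc 2 (k - 3), RL G k L l (rot a x) +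
      PosZ G k L K ze x := by
  have hk5 : 5 ≤ k := by omega
  have : Nonempty V := ⟨x 0⟩
  have hs1 : ∀ f : ZMod k → ℝ, ∑ a : ZMod k, f (a - 1) = ∑ a : ZMod k, f a := fun f =>
    Equiv.sum_comp (Equiv.subRight (1 : ZMod k)) f
  have hs2 : ∀ f : ZMod k → ℝ, ∑ a : ZMod k, f (a + 2) = ∑ a : ZMod k, f a := fun f =>
    Equiv.sum_comp (Equiv.addRight (2 : ZMod k)) f
  have ht := table hk tf hx
  have hm := mass_split (G := G) hk5 x
  have hZ : ∀ a : ZMod k, (ZK G k K (x a) (x (a + 1)) - 1) - JJ (ZK G k K (x a) (x (a + 1))) ≤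
      own G k K x a / ze (a + 1) + twK G k K x a a / ze (a + 1) +
        twK G k K x (a + 2) a / ze (a + 1) - 1 + Real.log (ze (a + 1)) := by
    intro a
    have h1 := log_tangent (ZK_pos hk tf hK hx a) (hze (a + 1))
    have h2 : (ZK G k K (x a) (x (a + 1)) - 1) - JJ (ZK G k K (x a) (x (a + 1))) =
        Real.log (ZK G k K (x a) (x (a + 1))) := by unfold JJ; ring
    have h3 : ZK G k K (x a) (x (a + 1)) / ze (a + 1) = own G k K x a / ze (a + 1) +
        twK G k K x a a / ze (a + 1) + twK G k K x (a + 2) a / ze (a + 1) := by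
      rw [ZK_split hk5 K x a, add_div, add_div]
    linarith
  have hZs := sum_le_sum fun a (_ : a ∈ (univ : Finset (ZMod k))) => hZ a
  have hr : ∑ w ∈ nonT G k x, kap V k * (rD k (Ty G k x w) - 1) =
      ∑ w ∈ nonT G k x, kap V k * rD k (Ty G k x w) - ∑ _w ∈ nonT G k x, kap V k := by
    rw [← sum_sub_distrib]
    exact sum_congr rfl fun w _ => by ring
  have h1 := hs1 (fun a => mu k (T G k a x) - 1)
  have h2 := hs1 (fun a => JJ (mu k (T G k a x)))
  have h3 := hs2 (fun a => mu k (T G k a x))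
  rw [sum_congr rfl fun a _ => GG_rot L K x a]
  have hone : ∑ _a : ZMod k, (1 : ℝ) = (k : ℝ) := by
    rw [sum_const, card_univ, ZMod.card, nsmul_eq_mul, mul_one]
  unfold PosZ
  clear hs1 hs2 hZ
  simp only [mul_sub, mul_one, sum_add_distrib, sum_sub_distrib, hone] at *
  linarith

theorem frameZ (hk : 6 ≤ k) (tf : ∀ a b c : V, G.Adj a b → G.Adj b c → ¬ G.Adj a c)
    (hne : (Cyc G k).Nonempty) {L : ℕ} (hL : 3 ≤ L) (hLk : L + 3 ≤ k) {K : V → V → ℝ}
    (hK : Ker G k L K) (ze : (ZMod k → V) → ZMod k → ℝ) (hze : ∀ x ∈ Cyc G k, ∀ i, 0 < ze x i) :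
    (k : ℝ) * (NN G k * Real.log (NN G k * kap V k ^ k / (2 * (k : ℝ)))) ≤
      ∑ x ∈ Cyc G k, (-∑ w ∈ nonT G k x, kap V k * rD k (Ty G k x w) +
      ∑ a : ZMod k, own G k K x a / ze x (a + 1) +
      ∑ a : ZMod k, twK G k K x a a / ze x (a + 1) +
      ∑ a : ZMod k, twK G k K x (a + 2) a / ze x (a + 1) -
      ∑ a : ZMod k, ∑ l ∈ Icc 2 (k - 3), RL G k L l (rot a x) +
      PosZ G k L K (ze x) x) := by
  have h1 := frameL hk tf hne hL hLk hK
  have hk0 : (0 : ℝ) ≤ (k : ℝ) := Nat.cast_nonneg _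
  have h2 := mul_le_mul_of_nonneg_left h1 hk0
  refine h2.trans ?_
  have e1 : (k : ℝ) * ∑ x ∈ Cyc G k, GG G k L K x =
      ∑ x ∈ Cyc G k, ∑ a : ZMod k, GG G k L K (rot a x) := by
    have e0 : ∀ a : ZMod k, ∑ x ∈ Cyc G k, GG G k L K (rot a x) =
        ∑ x ∈ Cyc G k, GG G k L K x := fun a => sum_rot (G := G) (k := k) a (GG G k L K)
    rw [sum_comm, sum_congr rfl fun a _ => e0 a, sum_const, card_univ, ZMod.card, nsmul_eq_mul]
  rw [e1]
  exact sum_le_sum fun x hx => frameZP hk tf hK hx (ze x) (hze x hx)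

/-- a normaliser that is symmetric and does not see the swaps at the two neighbours -/
structure ZeOK (G : SimpleGraph V) (k : ℕ) [NeZero k] (ze : (ZMod k → V) → ZMod k → ℝ) :
    Prop where
  pos : ∀ x ∈ Cyc G k, ∀ i, 0 < ze x i
  symm : ∀ x : ZMod k → V, ∀ i, ze (rfx x) i = ze x (-i)
  up : ∀ x ∈ Cyc G k, ∀ j, ∀ v ∈ T G k j x, ze (Function.update x j v) (j + 1) = ze x (j + 1)
  down : ∀ x ∈ Cyc G k, ∀ j, ∀ v ∈ T G k j x, ze (Function.update x j v) (j - 1) = ze x (j - 1)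

/-- a function of the degree of the middle vertex and of the masses of the two classes next to
it -/
noncomputable def zeF (G : SimpleGraph V) (k : ℕ) [NeZero k] (Phi : ℝ → ℝ → ℝ → ℝ)
    (x : ZMod k → V) (i : ZMod k) : ℝ :=
  Phi (dg G k (x i)) (mu k (T G k (i - 1) x)) (mu k (T G k (i + 1) x))

theorem zeF_ok (hk : 5 ≤ k) (tf : ∀ a b c : V, G.Adj a b → G.Adj b c → ¬ G.Adj a c)
    (Phi : ℝ → ℝ → ℝ → ℝ) (hpos : ∀ d s t, 0 < Phi d s t) (hsymm : ∀ d s t, Phi d s t = Phi d t s) :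
    ZeOK G k (zeF G k Phi) where
  pos := fun x _ i => hpos _ _ _
  symm := by
    intro x i
    unfold zeF
    rw [T_rfx, T_rfx, hsymm]
    have e1 : -(i - 1) = -i + 1 := by ring
    have e2 : -(i + 1) = -i - 1 := by ring
    rw [e1, e2]
    rfl
  up := by
    intro x hx j v hv
    unfold zeF
    have e0 : j + 1 ≠ j := by
      have := ne_add_int hk j (a := 1) (by norm_num) (by norm_num)
      simpa using this
    have e1 : j + 1 - 1 = j := by ring
    have e2 : j + 1 + 1 = j + 2 := by ring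
    rw [Function.update_of_ne e0, e1, e2, T_update hk hx hv tf, T_update_add_two hk hx hv tf]
  down := by
    intro x hx j v hv
    unfold zeF
    have e0 : j - 1 ≠ j := by
      have := ne_add_int hk j (a := -1) (by norm_num) (by norm_num)
      simpa [sub_eq_add_neg] using this
    have e1 : j - 1 - 1 = j - 2 := by ring
    have e2 : j - 1 + 1 = j := by ring
    rw [Function.update_of_ne e0, e1, e2, T_update hk hx hv tf, T_update_sub_two hk hx hv tf]

/-- the twins of the far end of the kernel -/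
theorem sum_tw2_ze (hk : 5 ≤ k) (tf : ∀ a b c : V, G.Adj a b → G.Adj b c → ¬ G.Adj a c)
    (K : V → V → ℝ) {ze : (ZMod k → V) → ZMod k → ℝ} (hze : ZeOK G k ze) :
    ∑ x ∈ Cyc G k, ∑ a : ZMod k, twK G k K x (a + 2) a / ze x (a + 1) =
      ∑ x ∈ Cyc G k, ∑ a : ZMod k,
        mu k (T G k (a + 2) x) * K (x (a + 2)) (x a) / ze x (a + 1) := by
  rw [sum_comm]
  conv_rhs => rw [sum_comm]
  refine sum_congr rfl fun a _ => ?_
  have h := sum_swap (G := G) hk tf (a + 2)
    (fun x v => kap V k * K v (x a) / ze x (a + 1))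
  have hne2 : a ≠ a + 2 := by
    intro h
    exact two_ne_zero' hk (by linear_combination (-1 : ZMod k) * h)
  have e1 : ∀ x : ZMod k → V, twK G k K x (a + 2) a / ze x (a + 1) =
      ∑ v ∈ T G k (a + 2) x, kap V k * K v (x a) / ze x (a + 1) := by
    intro x
    unfold twK
    rw [sum_div]
  rw [sum_congr rfl fun x _ => e1 x, ← h]
  refine sum_congr rfl fun x hx => ?_
  rw [mu_eq_sum, sum_mul, sum_div]
  refine sum_congr rfl fun v hv => ?_
  have e2 : a + 2 - 1 = a + 1 := by ring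
  have e3 := hze.down x hx (a + 2) v hv
  rw [e2] at e3
  rw [Function.update_of_ne hne2, e3]

/-- own cost of `y` with the normaliser, mean of the two directions -/
noncomputable def ownZ (G : SimpleGraph V) (k : ℕ) [NeZero k] (K : V → V → ℝ)
    (ze : (ZMod k → V) → ZMod k → ℝ) (x : ZMod k → V) (y : V) : ℝ :=
  ∑ i ∈ Ty G k x y, (K y (x (i - 1)) + K y (x (i + 1))) / (2 * ze x i)

theorem sum_ownZ (K : V → V → ℝ) {ze : (ZMod k → V) → ZMod k → ℝ}
    (hs : ∀ x : ZMod k → V, ∀ i, ze (rfx x) i = ze x (-i)) :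
    ∑ x ∈ Cyc G k, ∑ a : ZMod k, own G k K x a / ze x (a + 1) =
      ∑ x ∈ Cyc G k, ∑ y ∈ nonT G k x, kap V k * ownZ G k K ze x y := by
  -- one direction
  set oD : (ZMod k → V) → V → ℝ := fun x y => ∑ i ∈ Ty G k x y, K y (x (i - 1)) / ze x i with hoD
  have h0 : ∀ x : ZMod k → V, ∑ a : ZMod k, own G k K x a / ze x (a + 1) =
      ∑ y ∈ nonT G k x, kap V k * oD x y := by
    intro x
    have h : ∀ a : ZMod k, own G k K x a / ze x (a + 1) =
        ∑ w ∈ nonT G k x, (if a + 1 ∈ Ty G k x w then kap V k * K w (x a) / ze x (a + 1)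
          else 0) := by
      intro a
      unfold own
      rw [sum_filter, sum_div]
      refine sum_congr rfl fun w _ => ?_
      simp only [bas_mem_Ty]
      split_ifs
      · rfl
      · rw [zero_div]
    rw [sum_congr rfl fun a _ => h a, sum_comm]
    refine sum_congr rfl fun w _ => ?_
    rw [hoD]
    dsimp only
    rw [← sum_filter, mul_sum]
    refine sum_nbij' (fun a => a + 1) (fun i => i - 1) ?_ ?_ ?_ ?_ ?_
    · intro a ha
      rw [mem_filter] at ha
      exact ha.2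
    · intro i hi
      rw [mem_filter]
      refine ⟨mem_univ _, ?_⟩
      rwa [sub_add_cancel]
    · intro a _
      exact add_sub_cancel_right a 1
    · intro i _
      exact sub_add_cancel i 1
    · intro a _
      rw [add_sub_cancel_right, mul_div_assoc]
  have h1 : ∀ x : ZMod k → V, ∀ y : V, oD (rfx x) y =
      ∑ i ∈ Ty G k x y, K y (x (i + 1)) / ze x i := by
    intro x y
    rw [hoD]
    dsimp only
    rw [Ty_rfx, sum_image (fun a _ b _ h => neg_injective h)]
    refine sum_congr rfl fun i _ => ?_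
    rw [hs, neg_neg]
    unfold rfx
    congr 3
    ring
  have h2 : ∀ x : ZMod k → V, ∀ y : V, ownZ G k K ze x y = (oD x y + oD (rfx x) y) / 2 := by
    intro x y
    rw [h1, hoD]
    dsimp only
    unfold ownZ
    rw [← sum_add_distrib, sum_div]
    refine sum_congr rfl fun i _ => ?_
    rw [← add_div, div_div, mul_comm (2 : ℝ)]
  have h3 : ∑ x ∈ Cyc G k, ∑ y ∈ nonT G k x, kap V k * oD (rfx x) y =
      ∑ x ∈ Cyc G k, ∑ y ∈ nonT G k x, kap V k * oD x y := by
    have := sum_refl (G := G) (k := k) (fun x => ∑ y ∈ nonT G k x, kap V k * oD x y)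
    rw [← this]
    refine sum_congr rfl fun x _ => ?_
    have e : (fun i : ZMod k => x (-i)) = rfx x := rfl
    rw [e, nonT_rfx]
  have h4 : ∑ x ∈ Cyc G k, ∑ y ∈ nonT G k x, kap V k * ownZ G k K ze x y =
      (∑ x ∈ Cyc G k, ∑ y ∈ nonT G k x, kap V k * oD x y +
        ∑ x ∈ Cyc G k, ∑ y ∈ nonT G k x, kap V k * oD (rfx x) y) / 2 := by
    rw [← sum_add_distrib, sum_div]
    refine sum_congr rfl fun x _ => ?_
    rw [← sum_add_distrib, sum_div]
    refine sum_congr rfl fun y _ => ?_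
    rw [h2]
    ring
  rw [h4, h3, sum_congr rfl fun x _ => h0 x]
  ring

/-- the twins of the near end of the kernel: for the kernel `KL`, the cost per twin is one-sided,
and the mass of the difference is a price for the upper states, with the same weight -/
theorem sum_tw_ze (hk : 5 ≤ k) (tf : ∀ a b c : V, G.Adj a b → G.Adj b c → ¬ G.Adj a c)
    {L : ℕ} (hL : 1 ≤ L) {ze : (ZMod k → V) → ZMod k → ℝ} (hze : ZeOK G k ze) (j : ZMod k) :
    ∑ x ∈ Cyc G k, twK G k (KL G k L) x j j / ze x (j + 1) ≤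
      ∑ x ∈ Cyc G k, ∑ w ∈ T G k j x, kap V k * (k2 L (ff G k w (x j)) / ze x (j + 1)) := by
  have h := sum_swap (G := G) hk tf j
    (fun x w => kap V k * (k2 L (ff G k w (x j)) / ze x (j + 1)))
  have h' : ∑ x ∈ Cyc G k, ∑ w ∈ T G k j x,
      kap V k * (k2 L (ff G k (x j) w) / ze x (j + 1)) =
      ∑ x ∈ Cyc G k, ∑ w ∈ T G k j x, kap V k * (k2 L (ff G k w (x j)) / ze x (j + 1)) := by
    rw [← h]
    refine sum_congr rfl fun x hx => sum_congr rfl fun w hw => ?_
    rw [Function.update_self, hze.up x hx j w hw]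
  have h1 : ∑ x ∈ Cyc G k, twK G k (KL G k L) x j j / ze x (j + 1) ≤
      ∑ x ∈ Cyc G k, ∑ w ∈ T G k j x,
      (kap V k * (k2 L (ff G k w (x j)) / ze x (j + 1)) / 2 +
        kap V k * (k2 L (ff G k (x j) w) / ze x (j + 1)) / 2) := by
    refine sum_le_sum fun x hx => ?_
    unfold twK
    rw [sum_div]
    refine sum_le_sum fun w _ => ?_
    have hz := hze.pos x hx (j + 1)
    have h2 := mul_le_mul_of_nonneg_left (KL_le_mean (G := G) (k := k) hL w (x j))
      (kap_nonneg (V := V) (k := k))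
    rw [div_le_iff₀ hz]
    have e : (kap V k * (k2 L (ff G k w (x j)) / ze x (j + 1)) / 2 +
        kap V k * (k2 L (ff G k (x j) w) / ze x (j + 1)) / 2) * ze x (j + 1) =
        kap V k * ((k2 L (ff G k w (x j)) + k2 L (ff G k (x j) w)) / 2) := by
      field_simp
    rw [e]
    exact h2
  refine h1.trans (le_of_eq ?_)
  simp only [sum_add_distrib, ← sum_div]
  rw [h']
  ring

/-- the linear part of the price, weighted -/
theorem sum_ff_upper_w (hk : 5 ≤ k) (tf : ∀ a b c : V, G.Adj a b → G.Adj b c → ¬ G.Adj a c)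
    (j : ZMod k) (W : (ZMod k → V) → ℝ)
    (hW : ∀ x ∈ Cyc G k, ∀ v ∈ T G k j x, W (Function.update x j v) = W x) :
    ∑ x ∈ Cyc G k, ∑ w ∈ T G k j x, kap V k * (W x * ff G k w (x j)) =
      ∑ x ∈ Cyc G k, ∑ y ∈ univ.filter (fun y => G.Adj (x j) y),
        kap V k * (W x * DD G k x j y) := by
  have h := sum_swap (G := G) hk tf j (fun x w => kap V k * (W x * ff G k w (x j)))
  have h' : ∑ x ∈ Cyc G k, ∑ w ∈ T G k j x, kap V k * (W x * ff G k (x j) w) =
      ∑ x ∈ Cyc G k, ∑ w ∈ T G k j x, kap V k * (W x * ff G k w (x j)) := by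
    rw [← h]
    refine sum_congr rfl fun x hx => sum_congr rfl fun w hw => ?_
    rw [Function.update_self, hW x hx w hw]
  rw [← h']
  refine sum_congr rfl fun x _ => ?_
  simp_rw [ff, DD, mu_eq_sum, mul_sum, sum_filter]
  unfold nb
  simp_rw [sum_filter]
  rw [sum_comm]
  refine sum_congr rfl fun y _ => ?_
  by_cases h1 : G.Adj (x j) y
  · simp only [h1, if_true]
  · simp only [h1, if_false, sum_const_zero]

/-- the weighted twin price, exact form -/
theorem tw_price_ze (hk : 5 ≤ k) (tf : ∀ a b c : V, G.Adj a b → G.Adj b c → ¬ G.Adj a c)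
    {L : ℕ} (hL : 1 ≤ L) {ze : (ZMod k → V) → ZMod k → ℝ} (hze : ZeOK G k ze)
    {H : ℝ → ℝ} {r0 : ℝ} (hp : ∀ t : ℝ, 0 ≤ t → k2 L t - r0 * t ≤ H t) :
    ∑ x ∈ Cyc G k, ∑ a : ZMod k, twK G k (KL G k L) x a a / ze x (a + 1) ≤
      ∑ x ∈ Cyc G k, ∑ j : ZMod k, ∑ w ∈ T G k j x,
        kap V k * (H (ff G k w (x j)) / ze x (j + 1)) +
      ∑ x ∈ Cyc G k, ∑ y : V, kap V k * ∑ l ∈ Ty G k x y, r0 / ze x (l + 1) * DD G k x l y := by
  have e1 : ∑ x ∈ Cyc G k, ∑ y : V,
        kap V k * ∑ l ∈ Ty G k x y, r0 / ze x (l + 1) * DD G k x l y =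
      ∑ j : ZMod k, ∑ x ∈ Cyc G k, ∑ y ∈ univ.filter (fun y => G.Adj (x j) y),
        kap V k * (r0 / ze x (j + 1) * DD G k x j y) := by
    have e2 : ∀ x : ZMod k → V, ∑ y : V,
        kap V k * ∑ l ∈ Ty G k x y, r0 / ze x (l + 1) * DD G k x l y =
        ∑ j : ZMod k, ∑ y ∈ univ.filter (fun y => G.Adj (x j) y),
          kap V k * (r0 / ze x (j + 1) * DD G k x j y) := by
      intro x
      simp_rw [sum_filter, mul_sum]
      rw [sum_comm (s := (univ : Finset (ZMod k)))]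
      refine sum_congr rfl fun y _ => ?_
      have e3 : Ty G k x y = univ.filter (fun l => G.Adj (x l) y) := rfl
      rw [e3, sum_filter]
    rw [sum_congr rfl fun x _ => e2 x, sum_comm]
  rw [sum_comm, e1, sum_comm (s := Cyc G k) (t := (univ : Finset (ZMod k)))
    (f := fun x j => ∑ w ∈ T G k j x, kap V k * (H (ff G k w (x j)) / ze x (j + 1))),
    ← sum_add_distrib]
  refine sum_le_sum fun j _ => ?_
  refine (sum_tw_ze hk tf hL hze j).trans ?_
  rw [← sum_ff_upper_w hk tf j (fun x => r0 / ze x (j + 1)) (fun x hx v hv => by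
    rw [hze.up x hx j v hv]), ← sum_add_distrib]
  refine sum_le_sum fun x hx => ?_
  rw [← sum_add_distrib]
  refine sum_le_sum fun w _ => ?_
  have hz := hze.pos x hx (j + 1)
  have h0 : 0 ≤ ff G k w (x j) := ff_nn w (x j)
  have h1 := hp _ h0
  have h2 : k2 L (ff G k w (x j)) / ze x (j + 1) ≤ H (ff G k w (x j)) / ze x (j + 1) +
      r0 / ze x (j + 1) * ff G k w (x j) := by
    rw [div_mul_eq_mul_div, ← add_div]
    exact div_le_div_of_nonneg_right (by linarith) hz.le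
  have h3 := mul_le_mul_of_nonneg_left h2 (kap_nonneg' (V := V) (k := k))
  linarith

end

/-- **the reduction, general form with a free normaliser** -/
theorem reductionZ {k : ℕ} [NeZero k] (hk : 6 ≤ k) {L : ℕ} (hL : 3 ≤ L) (hLk : L + 3 ≤ k)
    {B B' : ℝ} (g phi : ℝ → ℝ) (hg : ∀ t, 0 ≤ t → t ≤ (k : ℝ) → |g t| ≤ B)
    (hphi : ∀ t, 0 ≤ t → t ≤ (k : ℝ) → |phi t| ≤ B')
    (hQ : ∀ (U : Type) [Fintype U] (H : SimpleGraph U),
      (∀ a b c : U, H.Adj a b → H.Adj b c → ¬ H.Adj a c) →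
      ∃ (ze : (ZMod k → U) → ZMod k → ℝ) (Ow Rw Tw Fl : (ZMod k → U) → U → ℝ)
        (T2 Z : (ZMod k → U) → ℝ),
      (∀ x ∈ Cyc H k, ∀ i, 0 < ze x i) ∧
      (∑ x ∈ Cyc H k, ∑ a : ZMod k, own H k (KL H k L) x a / ze x (a + 1) ≤
        ∑ x ∈ Cyc H k, ∑ y ∈ nonT H k x, kap U k * Ow x y) ∧
      (∑ x ∈ Cyc H k, ∑ w : U, kap U k * Rw x w ≤
        ∑ x ∈ Cyc H k, ∑ a : ZMod k, ∑ l ∈ Icc 2 (k - 3), RL H k L l (rot a x)) ∧
      (∑ x ∈ Cyc H k, ∑ a : ZMod k, twK H k (KL H k L) x a a / ze x (a + 1) ≤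
        ∑ x ∈ Cyc H k, ∑ w : U, kap U k * Tw x w) ∧
      (∑ x ∈ Cyc H k, ∑ a : ZMod k, twK H k (KL H k L) x (a + 2) a / ze x (a + 1) ≤
        ∑ x ∈ Cyc H k, T2 x) ∧
      (∑ x ∈ Cyc H k, ∑ y : U, kap U k * Fl x y ≤ 0) ∧
      (∑ x ∈ Cyc H k, Z x ≤ 0) ∧
      ∀ x ∈ Cyc H k, PosZ H k L (KL H k L) (ze x) x + T2 x ≤
        ∑ y ∈ nonT H k x, kap U k * (rD k (Ty H k x y) - Ow x y) +
        ∑ w : U, kap U k * (Rw x w - Tw x w + Fl x w +
          g (dg H k w) * (((Ty H k x w).card : ℝ) - dg H k w)) + Z x +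
        (∑ j : ZMod k, phi (dg H k (x j)) - ∑ u : U, kap U k * phi (dg H k u)))
    {V : Type} [Fintype V] {G : SimpleGraph V}
    (tf : ∀ a b c : V, G.Adj a b → G.Adj b c → ¬ G.Adj a c) :
    NN G k * kap V k ^ k ≤ 2 * (k : ℝ) := by
  refine no_counter (C := B * k * k + B' * k) ?_ tf
  intro U _ H tfH η hη hinc hne
  obtain ⟨ze, Ow, Rw, Tw, Fl, T2, Z, h0, h1, h2, h3, h3', h4, h7, h5⟩ := hQ U H tfH
  -- the mean of the functional of `phi`
  set E : ℝ := ∑ x ∈ Cyc H k,
    (∑ j : ZMod k, phi (dg H k (x j)) - ∑ u : U, kap U k * phi (dg H k u)) with hE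
  have hcard : ((Cyc H k).card : ℝ) = NN H k := rfl
  have hE' : E ≤ η * B' * (k * NN H k) := by
    have h8 := l1 hinc (fun u => phi (dg H k u)) B'
      (fun u => hphi _ (dg_nonneg u) (dg_le_k u))
    have e1 : E = ∑ x ∈ Cyc H k, ∑ j : ZMod k, phi (dg H k (x j)) -
        NN H k * ∑ u : U, kap U k * phi (dg H k u) := by
      rw [hE, sum_sub_distrib, sum_const, nsmul_eq_mul, hcard]
    rw [e1]
    exact (le_abs_self _).trans h8
  have h9 := l2 hinc (fun u => g (dg H k u)) B (fun u => hg _ (dg_nonneg u) (dg_le_k u))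
  have h10 := (le_abs_self _).trans h9
  have h6 : (k : ℝ) * (NN H k * Real.log (NN H k * kap U k ^ k / (2 * (k : ℝ)))) ≤
      ∑ x ∈ Cyc H k, ∑ y : U, kap U k *
        (g (dg H k y) * (((Ty H k x y).card : ℝ) - dg H k y)) + E := by
    refine (frameZ hk tfH hne hL hLk (Ker_KL (G := H) (k := k) (L := L) (by omega)) ze h0).trans ?_
    have h11 := sum_le_sum h5
    rw [hE]
    simp only [mul_add, mul_sub, sum_add_distrib, sum_sub_distrib, sum_neg_distrib] at *
    linarith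
  refine h6.trans ?_
  have h11 : η * (B * k) * (k * NN H k) + η * B' * (k * NN H k) =
      (B * k * k + B' * k) * η * NN H k := by ring
  rw [← h11]
  exact add_le_add h10 hE'

end Pool.Agent.ICyc.D
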